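import Pool.Agent.N806.AH.Mob

/-! Approximate formula for `1/ζ` near a window without bad zeros. -/

set_option autoImplicit false

open Complex Filter Topology Set MeasureTheory Metric

namespace Pool.Agent.N806.AH

open H345 H345.Chi Pool.Agent.H640R3.EG Pool.Agent.H810R2.CSd

/-- the kernel -/
noncomputable def kf (s0 : ℂ) (LL : ℝ) (s : ℂ) : ℂ := cexp ((s - s0) ^ 2 + (LL : ℂ) * (s - s0))

lemma norm_kf (κ t0 LL σ t : ℝ) : ‖kf ⟨1 / 2 + κ, t0⟩ LL ⟨σ, t⟩‖ =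
    Real.exp ((σ - 1 / 2 - κ) ^ 2 - (t - t0) ^ 2 + LL * (σ - 1 / 2 - κ)) := by
  unfold kf
  rw [Complex.norm_exp]
  congr 1
  have : (⟨σ, t⟩ : ℂ) - ⟨1 / 2 + κ, t0⟩ = ⟨σ - 1 / 2 - κ, t - t0⟩ := by
    apply Complex.ext <;> simp <;> ring
  rw [this, pow_two]
  simp
  ring

lemma kf_diff (s0 : ℂ) (LL : ℝ) : Differentiable ℂ (kf s0 LL) := by
  unfold kf
  fun_prop

lemma kf_cont (s0 : ℂ) (LL : ℝ) : Continuous (kf s0 LL) := (kf_diff s0 LL).continuous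

lemma kf_self (s0 : ℂ) (LL : ℝ) : kf s0 LL s0 = 1 := by
  unfold kf; simp

lemma kf_line {κ : ℝ} (t0 LL τ : ℝ) :
    kf ⟨1 / 2 + κ, t0⟩ LL ⟨2, t0 + τ⟩ * ((⟨2, t0 + τ⟩ : ℂ) - ⟨1 / 2 + κ, t0⟩)⁻¹ =
      GG (3 / 2 - κ) LL τ := by
  have : (⟨2, t0 + τ⟩ : ℂ) - ⟨1 / 2 + κ, t0⟩ = ((3 / 2 - κ : ℝ) : ℂ) + τ * I := by
    apply Complex.ext <;> simp <;> ring
  unfold kf GG
  rw [this]
  rfl

lemma dist_re {s0 : ℂ} {σ t : ℝ} : |σ - s0.re| ≤ ‖(⟨σ, t⟩ : ℂ) - s0‖ := by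
  have := Complex.abs_re_le_norm ((⟨σ, t⟩ : ℂ) - s0)
  simpa using this

lemma dist_im {s0 : ℂ} {σ t : ℝ} : |t - s0.im| ≤ ‖(⟨σ, t⟩ : ℂ) - s0‖ := by
  have := Complex.abs_im_le_norm ((⟨σ, t⟩ : ℂ) - s0)
  simpa using this

lemma inv_le_one_of {z : ℂ} {x : ℝ} (hx : 1 ≤ x) (h : x ≤ ‖z‖) : ‖z⁻¹‖ ≤ 1 := by
  rw [norm_inv]
  exact inv_le_one_of_one_le₀ (hx.trans h)

/-- the right-hand side -/
lemma afe_right (y : ℝ) : ∃ C : ℝ, 1 ≤ C ∧ ∀ c : ℂ, ‖c‖ = 1 → ∀ L κ t0 y1 y2 W : ℝ, 1 ≤ L →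
    0 ≤ κ → κ ≤ 1 / 2 → Real.exp L ≤ t0 → 2 * L ≤ W → y1 ≤ t0 - W → t0 + W ≤ y2 →
    Real.exp L / 2 ≤ y1 → 1 ≤ y1 →
    ‖∫ t in y1..y2, Wf y c ⟨2, t⟩ * kf ⟨1 / 2 + κ, t0⟩ L ⟨2, t⟩ * (riemannZeta ⟨2, t⟩)⁻¹ *
      ((⟨2, t⟩ : ℂ) - ⟨1 / 2 + κ, t0⟩)⁻¹‖ ≤ 2 * Real.pi * ‖DD κ L t0‖ + C := by
  obtain ⟨C1, hC1, hW⟩ := W_bound y
  set C : ℝ := 3 * Real.exp (9 / 4) * Real.sqrt (Real.pi / (1 / 2)) +
    24 * C1 * Real.exp (9 / 4) * Real.sqrt (Real.pi / 1) with hC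
  refine ⟨C + 1, by
    have : 0 ≤ C := by positivity
    linarith, fun c hc L κ t0 y1 y2 W hL hκ hκ1 ht0 hWL h1 h2 h3 h4 => ?_⟩
  have hy12 : y1 ≤ y2 := by linarith
  set a : ℝ := 3 / 2 - κ with ha
  have ha1 : 1 ≤ a := by linarith
  have ha2 : a ≤ 3 / 2 := by linarith
  have hc2 : Continuous (fun t : ℝ => (⟨2, t⟩ : ℂ)) := by
    have : (fun t : ℝ => (⟨2, t⟩ : ℂ)) = fun t : ℝ => ((2 : ℝ) : ℂ) + (t : ℂ) * I := by
      funext t; rw [mk_line]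
    rw [this]; fun_prop
  have hne2 : ∀ t : ℝ, riemannZeta ⟨2, t⟩ ≠ 0 := fun t =>
    riemannZeta_ne_zero_of_one_le_re (by simp)
  have hzc : Continuous (fun t : ℝ => (riemannZeta ⟨2, t⟩)⁻¹) := by
    apply Continuous.inv₀ _ hne2
    rw [continuous_iff_continuousAt]
    intro t
    have h5 : ContinuousAt riemannZeta (⟨2, t⟩ : ℂ) :=
      (differentiableAt_riemannZeta (by
        intro h; have := congrArg Complex.re h; simp at this)).continuousAt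
    exact ContinuousAt.comp (f := fun t : ℝ => (⟨2, t⟩ : ℂ)) h5 hc2.continuousAt
  set f1 : ℝ → ℂ := fun t => (riemannZeta ⟨2, t⟩)⁻¹ * GG a L (t - t0) with hf1
  set f2 : ℝ → ℂ := fun t => (Wf y c ⟨2, t⟩ - 1) * ((riemannZeta ⟨2, t⟩)⁻¹ * GG a L (t - t0)) with hf2
  have hf1c : Continuous f1 := by
    have := GG_cont (a := a) (by linarith) L
    simp only [hf1]
    fun_prop
  have e0 : ∀ t : ℝ, Wf y c ⟨2, t⟩ * kf ⟨1 / 2 + κ, t0⟩ L ⟨2, t⟩ * (riemannZeta ⟨2, t⟩)⁻¹ *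
      ((⟨2, t⟩ : ℂ) - ⟨1 / 2 + κ, t0⟩)⁻¹ = f1 t + f2 t := by
    intro t
    have := kf_line (κ := κ) t0 L (t - t0)
    rw [show t0 + (t - t0) = t by ring] at this
    simp only [hf1, hf2]
    rw [← this]
    ring
  have hGb : ∀ t : ℝ, ‖GG a L (t - t0)‖ ≤ Real.exp (9 / 4) * Real.exp (L * a) * Real.exp (-1 * (t - t0) ^ 2) := by
    intro t
    have h5 := GG_norm (a := a) (by linarith) L (t - t0)
    refine h5.trans ?_
    rw [sub_zero]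
    apply mul_le_mul_of_nonneg_right _ (Real.exp_pos _).le
    rw [Real.exp_add]
    calc Real.exp (a ^ 2) * Real.exp (L * a) / a ≤ Real.exp (a ^ 2) * Real.exp (L * a) :=
          div_le_self (by positivity) ha1
      _ ≤ _ := by
          gcongr
          nlinarith
  have hf1b : ∀ t, ‖f1 t‖ ≤ (3 * Real.exp (9 / 4) * Real.exp (L * a)) * Real.exp (-1 * (t - t0) ^ 2) := by
    intro t
    simp only [hf1]
    rw [norm_mul]
    calc _ ≤ 3 * (Real.exp (9 / 4) * Real.exp (L * a) * Real.exp (-1 * (t - t0) ^ 2)) := by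
          gcongr
          · exact norm_inv_zeta_two t
          · exact hGb t
      _ = _ := by ring
  -- the first part
  have hI1 : ∫ t : ℝ, f1 t = ((2 * Real.pi : ℝ) : ℂ) * DD κ L t0 := by
    rw [← dd_formula hκ1 L t0, ← integral_add_left_eq_self f1 t0]
    congr 1
    funext τ
    simp only [hf1]
    rw [show t0 + τ - t0 = τ by ring]
  have ht1 := gtail (f := f1) hf1c.aestronglyMeasurable (K := 3 * Real.exp (9 / 4) * Real.exp (L * a))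
    (t := t0) (W := W) (b := 1) (U1 := y1) (U2 := y2) one_pos (by positivity) hf1b (by linarith) h1 h2
  have ht1' : 3 * Real.exp (9 / 4) * Real.exp (L * a) * (Real.exp (-(1 / 2) * W ^ 2) *
      Real.sqrt (Real.pi / (1 / 2))) ≤ 3 * Real.exp (9 / 4) * Real.sqrt (Real.pi / (1 / 2)) := by
    have h5 : Real.exp (L * a) * Real.exp (-(1 / 2) * W ^ 2) ≤ 1 := by
      rw [← Real.exp_add]
      apply Real.exp_le_one_iff.2
      nlinarith
    calc _ = 3 * Real.exp (9 / 4) * Real.sqrt (Real.pi / (1 / 2)) *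
          (Real.exp (L * a) * Real.exp (-(1 / 2) * W ^ 2)) := by ring
      _ ≤ 3 * Real.exp (9 / 4) * Real.sqrt (Real.pi / (1 / 2)) * 1 := by gcongr
      _ = _ := by ring
  have hp1 : ‖∫ t in y1..y2, f1 t‖ ≤ 2 * Real.pi * ‖DD κ L t0‖ +
      3 * Real.exp (9 / 4) * Real.sqrt (Real.pi / (1 / 2)) := by
    have h6 : ‖∫ t in y1..y2, f1 t‖ ≤ ‖∫ t : ℝ, f1 t‖ + ‖(∫ t : ℝ, f1 t) - ∫ t in y1..y2, f1 t‖ := by
      have := norm_sub_le (∫ t : ℝ, f1 t) ((∫ t : ℝ, f1 t) - ∫ t in y1..y2, f1 t)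
      rwa [sub_sub_cancel] at this
    rw [hI1] at h6
    rw [hI1] at ht1
    have h7 : ‖((2 * Real.pi : ℝ) : ℂ) * DD κ L t0‖ = 2 * Real.pi * ‖DD κ L t0‖ := by
      rw [norm_mul, Complex.norm_real, Real.norm_eq_abs, abs_of_nonneg (by positivity)]
    rw [h7] at h6
    linarith
  -- the second part
  have hf2c : IntervalIntegrable f2 volume y1 y2 := by
    apply ContinuousOn.intervalIntegrable
    intro t ht
    rw [uIcc_of_le hy12] at ht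
    have h5 : ContinuousAt (Wf y c) (⟨2, t⟩ : ℂ) :=
      (Wf_diff y c (s := (⟨2, t⟩ : ℂ)) (by simp; linarith [ht.1])).continuousAt
    have h6 : ContinuousAt (fun t : ℝ => Wf y c (⟨2, t⟩ : ℂ)) t :=
      ContinuousAt.comp (f := fun t : ℝ => (⟨2, t⟩ : ℂ)) h5 hc2.continuousAt
    exact ((h6.sub continuousAt_const).mul hf1c.continuousAt).continuousWithinAt
  have hp2 : ‖∫ t in y1..y2, f2 t‖ ≤ 24 * C1 * Real.exp (9 / 4) * Real.sqrt (Real.pi / 1) := by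
    have h5 := gbound (f := f2) (K := 24 * C1 * Real.exp (9 / 4)) (t := t0) (b := 1) (U1 := y1)
      (U2 := y2) one_pos hy12 (by positivity) (by
        intro t ht
        have ht1 : Real.exp L / 2 ≤ t := h3.trans ht.1.le
        have ht0' : 0 < Real.exp L / 2 := by positivity
        have h6 := (hW c hc 2 t (by norm_num) le_rfl (by linarith [ht.1])).1
        rw [show (1 - 2 * 2 : ℝ) = -3 by norm_num] at h6
        have h7 : t ^ (-3 : ℝ) ≤ (Real.exp L / 2) ^ (-3 : ℝ) :=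
          Real.rpow_le_rpow_of_nonpos ht0' ht1 (by norm_num)
        have h8 : (Real.exp L / 2) ^ (-3 : ℝ) = 8 * Real.exp (-(3 * L)) := by
          rw [Real.rpow_neg ht0'.le, show (3 : ℝ) = ((3 : ℕ) : ℝ) by norm_num, Real.rpow_natCast,
            Real.exp_neg, div_pow, ← Real.exp_nat_mul]
          field_simp
          norm_num
        rw [h8] at h7
        simp only [hf2]
        rw [norm_mul]
        calc ‖Wf y c ⟨2, t⟩ - 1‖ * ‖(riemannZeta ⟨2, t⟩)⁻¹ * GG a L (t - t0)‖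
            ≤ (C1 * (8 * Real.exp (-(3 * L)))) *
              ((3 * Real.exp (9 / 4) * Real.exp (L * a)) * Real.exp (-1 * (t - t0) ^ 2)) := by
              gcongr
              · refine h6.trans ?_
                gcongr
              · exact hf1b t
          _ = 24 * C1 * Real.exp (9 / 4) * (Real.exp (-(3 * L)) * Real.exp (L * a)) *
              Real.exp (-1 * (t - t0) ^ 2) := by ring
          _ ≤ 24 * C1 * Real.exp (9 / 4) * 1 * Real.exp (-1 * (t - t0) ^ 2) := by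
              gcongr
              rw [← Real.exp_add]
              apply Real.exp_le_one_iff.2
              nlinarith
          _ = _ := by ring)
    exact h5
  simp_rw [e0]
  rw [intervalIntegral.integral_add (hf1c.intervalIntegrable _ _) hf2c]
  refine (norm_add_le _ _).trans ?_
  rw [hC]
  linarith

/-- the left-hand side -/
lemma afe_left (y : ℝ) {Cr : ℝ} (hCr : 1 ≤ Cr) : ∃ C : ℝ, 1 ≤ C ∧ ∀ c : ℂ, ‖c‖ = 1 → ∀ L κ t0 y1 y2 : ℝ,
    1 ≤ L → 0 ≤ κ → κ ≤ 1 / 2 → t0 ≤ Cr * Real.exp L → y1 ≤ y2 → 1 ≤ y1 → y2 ≤ 2 * t0 →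
    ‖∫ t in y1..y2, Wf y c ⟨-1, t⟩ * kf ⟨1 / 2 + κ, t0⟩ L ⟨-1, t⟩ * (riemannZeta ⟨-1, t⟩)⁻¹ *
      ((⟨-1, t⟩ : ℂ) - ⟨1 / 2 + κ, t0⟩)⁻¹‖ ≤ C := by
  obtain ⟨C1, hC1, hl⟩ := left_bound y
  set C : ℝ := C1 * (2 * Cr) ^ (3 / 2 : ℝ) * Real.exp 4 * Real.sqrt (Real.pi / 1) with hC
  refine ⟨C + 1, by
    have : 0 ≤ C := by positivity
    linarith, fun c hc L κ t0 y1 y2 hL hκ hκ1 ht0 hy12 h4 hy2 => ?_⟩
  have h5 := gbound (f := fun t => Wf y c ⟨-1, t⟩ * kf ⟨1 / 2 + κ, t0⟩ L ⟨-1, t⟩ *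
      (riemannZeta ⟨-1, t⟩)⁻¹ * ((⟨-1, t⟩ : ℂ) - ⟨1 / 2 + κ, t0⟩)⁻¹)
    (K := C1 * (2 * Cr) ^ (3 / 2 : ℝ) * Real.exp 4) (t := t0) (b := 1) (U1 := y1)
      (U2 := y2) one_pos hy12 (by positivity) (by
    intro t ht
    have h6 := hl c hc t (by linarith [ht.1])
    have ht0' : 0 < t := by linarith [ht.1]
    have h7 : t ^ (3 / 2 : ℝ) ≤ (2 * Cr) ^ (3 / 2 : ℝ) * Real.exp (3 / 2 * L) := by
      calc t ^ (3 / 2 : ℝ) ≤ (2 * Cr * Real.exp L) ^ (3 / 2 : ℝ) := by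
            apply Real.rpow_le_rpow ht0'.le _ (by norm_num)
            linarith [ht.2]
        _ = (2 * Cr) ^ (3 / 2 : ℝ) * Real.exp (3 / 2 * L) := by
            rw [Real.mul_rpow (by positivity) (by positivity), ← Real.exp_mul]
            ring_nf
    have h8 : ‖kf ⟨1 / 2 + κ, t0⟩ L ⟨-1, t⟩‖ ≤ Real.exp 4 * Real.exp (-(3 / 2 * L)) *
        Real.exp (-1 * (t - t0) ^ 2) := by
      rw [norm_kf, ← Real.exp_add, ← Real.exp_add]
      apply Real.exp_le_exp.2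
      nlinarith
    have h9 : ‖((⟨-1, t⟩ : ℂ) - ⟨1 / 2 + κ, t0⟩)⁻¹‖ ≤ 1 := by
      apply inv_le_one_of (x := 1) le_rfl
      refine le_trans ?_ dist_re
      simp only
      rw [abs_sub_comm, abs_of_nonneg (by linarith)]
      linarith
    have e1 : Wf y c ⟨-1, t⟩ * kf ⟨1 / 2 + κ, t0⟩ L ⟨-1, t⟩ *
      (riemannZeta ⟨-1, t⟩)⁻¹ * ((⟨-1, t⟩ : ℂ) - ⟨1 / 2 + κ, t0⟩)⁻¹ =
      (Wf y c ⟨-1, t⟩ * (riemannZeta ⟨-1, t⟩)⁻¹) * kf ⟨1 / 2 + κ, t0⟩ L ⟨-1, t⟩ *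
        ((⟨-1, t⟩ : ℂ) - ⟨1 / 2 + κ, t0⟩)⁻¹ := by ring
    rw [e1, norm_mul, norm_mul]
    calc _ ≤ (C1 * ((2 * Cr) ^ (3 / 2 : ℝ) * Real.exp (3 / 2 * L))) * (Real.exp 4 *
          Real.exp (-(3 / 2 * L)) * Real.exp (-1 * (t - t0) ^ 2)) * 1 := by
          gcongr
          exact h6.trans (by gcongr)
      _ = C1 * (2 * Cr) ^ (3 / 2 : ℝ) * Real.exp 4 * (Real.exp (3 / 2 * L) * Real.exp (-(3 / 2 * L))) *
          Real.exp (-1 * (t - t0) ^ 2) := by ring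
      _ = _ := by
          rw [← Real.exp_add, add_neg_cancel, Real.exp_zero, mul_one])
  refine h5.trans ?_
  rw [hC]
  linarith

/-- the horizontal sides -/
lemma afe_hor (hRH : RiemannHypothesis) (y : ℝ) {Cr : ℝ} (hCr : 1 ≤ Cr) : ∃ K C : ℝ, 1 ≤ K ∧ 1 ≤ C ∧
    ∀ c : ℂ, ‖c‖ = 1 → ∀ L κ t0 v d W : ℝ, 1 ≤ L → Real.log (2 * Cr) ≤ L →
    0 ≤ κ → κ ≤ 1 / 2 → t0 ≤ Cr * Real.exp L → 3 ≤ v → v ≤ 2 * t0 → K * L ≤ W → W ≤ |v - t0| →
    1 / (8 * L) ≤ d → d ≤ 1 → (∀ γ ∈ Zo, d / 4 ≤ |γ - v|) → ∀ σ : ℝ, -1 ≤ σ → σ ≤ 2 →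
    ‖Wf y c ⟨σ, v⟩ * kf ⟨1 / 2 + κ, t0⟩ L ⟨σ, v⟩ * (riemannZeta ⟨σ, v⟩)⁻¹ *
      ((⟨σ, v⟩ : ℂ) - ⟨1 / 2 + κ, t0⟩)⁻¹‖ ≤ C := by
  obtain ⟨C1, hC1, hW⟩ := W_bound y
  obtain ⟨C2, hC2, hz⟩ := hor_zeta hRH
  refine ⟨66 * C2 + 20, 16 * C1 * Cr ^ 3 * Real.exp 4 + 1, by linarith, by
    have : 0 ≤ 16 * C1 * Cr ^ 3 * Real.exp 4 := by positivity
    linarith, fun c hc L κ t0 v d W hL hLC hκ hκ1 ht0 hv hv2 hKW hWv hd hd1 hdist σ hσ1 hσ2 => ?_⟩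
  have hL0 : 0 < L := by linarith
  have hd0 : 0 < d := lt_of_lt_of_le (by positivity) hd
  have hv0 : 0 < v := by linarith
  have hvL : Real.log v ≤ 2 * L := by
    have h1 : v ≤ 2 * Cr * Real.exp L := by linarith
    calc Real.log v ≤ Real.log (2 * Cr * Real.exp L) := Real.log_le_log hv0 h1
      _ = Real.log (2 * Cr) + L := by
          rw [Real.log_mul (by positivity) (Real.exp_pos _).ne', Real.log_exp]
      _ ≤ 2 * L := by linarith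
  have hlv : 0 ≤ Real.log v := Real.log_nonneg (by linarith)
  have hlδ : Real.log (1 / (d / 4)) ≤ 32 * L := by
    have h1 : 1 / (d / 4) ≤ 32 * L := by
      rw [div_le_iff₀ (by positivity)]
      rw [div_le_iff₀ (by positivity)] at hd
      linarith
    calc Real.log (1 / (d / 4)) ≤ 1 / (d / 4) - 1 := Real.log_le_sub_one_of_pos (by positivity)
      _ ≤ _ := by linarith
  have hlδ0 : 0 ≤ Real.log (1 / (d / 4)) := Real.log_nonneg (by rw [le_div_iff₀ (by positivity)]; linarith)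
  have h1 := hz v hv σ (d / 4) hσ1 hσ2 (by positivity) (by linarith) hdist
  have h1' : ‖(riemannZeta ⟨σ, v⟩)⁻¹‖ ≤ Real.exp (66 * C2 * L ^ 2) := by
    refine h1.trans (Real.exp_le_exp.2 ?_)
    have h0 : C2 * L ≤ C2 * L ^ 2 := by
      have : L ≤ L ^ 2 := by nlinarith
      nlinarith
    calc C2 * Real.log v * (1 + Real.log (1 / (d / 4))) ≤ C2 * (2 * L) * (1 + 32 * L) := by gcongr
      _ = 2 * (C2 * L) + 64 * C2 * L ^ 2 := by ring
      _ ≤ _ := by linarith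
  have h2 := (hW c hc σ v hσ1 hσ2 (by linarith)).2
  have h2' : ‖Wf y c ⟨σ, v⟩‖ ≤ 16 * C1 * Cr ^ 3 * Real.exp (3 * L) := by
    refine h2.trans ?_
    calc 2 * C1 * v ^ 3 ≤ 2 * C1 * (2 * (Cr * Real.exp L)) ^ 3 := by gcongr; linarith
      _ = 16 * C1 * Cr ^ 3 * Real.exp L ^ 3 := by ring
      _ = _ := by rw [← Real.exp_nat_mul]; norm_num
  have hW1 : 1 ≤ W := by nlinarith
  have h3 : ‖kf ⟨1 / 2 + κ, t0⟩ L ⟨σ, v⟩‖ ≤ Real.exp (4 - W ^ 2 + 3 / 2 * L) := by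
    rw [norm_kf]
    apply Real.exp_le_exp.2
    have h4 : W ^ 2 ≤ (v - t0) ^ 2 := by
      rw [← sq_abs (v - t0)]
      gcongr
    nlinarith
  have h4 : ‖((⟨σ, v⟩ : ℂ) - ⟨1 / 2 + κ, t0⟩)⁻¹‖ ≤ 1 := by
    apply inv_le_one_of (x := W) hW1
    exact hWv.trans (dist_im (s0 := ⟨1 / 2 + κ, t0⟩) (σ := σ) (t := v))
  rw [norm_mul, norm_mul, norm_mul]
  have hWL : (66 * C2 + 20) ^ 2 * L ^ 2 ≤ W ^ 2 := by
    rw [← mul_pow]
    gcongr
  calc _ ≤ (16 * C1 * Cr ^ 3 * Real.exp (3 * L)) * Real.exp (4 - W ^ 2 + 3 / 2 * L) *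
        Real.exp (66 * C2 * L ^ 2) * 1 := by gcongr
    _ = 16 * C1 * Cr ^ 3 * (Real.exp (3 * L) * Real.exp (4 - W ^ 2 + 3 / 2 * L) *
        Real.exp (66 * C2 * L ^ 2)) := by ring
    _ = 16 * C1 * Cr ^ 3 * (Real.exp 4 * Real.exp (9 / 2 * L + 66 * C2 * L ^ 2 - W ^ 2)) := by
        rw [← Real.exp_add, ← Real.exp_add, ← Real.exp_add]
        congr 2
        ring
    _ = 16 * C1 * Cr ^ 3 * Real.exp 4 * Real.exp (9 / 2 * L + 66 * C2 * L ^ 2 - W ^ 2) := by ring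
    _ ≤ 16 * C1 * Cr ^ 3 * Real.exp 4 * 1 := by
        gcongr
        apply Real.exp_le_one_iff.2
        have h5 : (66 * C2 + 20) ≤ (66 * C2 + 20) ^ 2 := by nlinarith
        have h6 : (66 * C2 + 20) * L ^ 2 ≤ W ^ 2 := by
          refine le_trans ?_ hWL
          gcongr
        nlinarith
    _ ≤ _ := by linarith

/-- `W` is not small at the point -/
lemma W_point (y : ℝ) : ∃ L0 : ℝ, 1 ≤ L0 ∧ ∀ c : ℂ, ‖c‖ = 1 → ∀ L t0 : ℝ, L0 ≤ L → Real.exp L ≤ t0 →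
    1 / 2 ≤ ‖Wf y c ⟨1 / 2 + 1 / L, t0⟩‖ := by
  refine ⟨|Real.log y| + 2 * Real.log (2 * Real.pi) + 60, by
    have h1 := abs_nonneg (Real.log y)
    have h2 : 0 ≤ Real.log (2 * Real.pi) := Real.log_nonneg (by linarith [Real.pi_gt_three])
    linarith, fun c hc L t0 hL ht0 => ?_⟩
  have h2 : 0 ≤ Real.log (2 * Real.pi) := Real.log_nonneg (by linarith [Real.pi_gt_three])
  have h2' := abs_nonneg (Real.log y)
  have hL0 : 0 < L := by linarith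
  have hL60 : 60 ≤ L := by linarith
  have ht12 : 60 ≤ t0 := by
    have := Real.add_one_le_exp L
    linarith
  have ht00 : 0 < t0 := by linarith
  have h3 := second_small (κ := 1 / L) (t := t0) (by positivity) (by rw [div_le_one hL0]; linarith)
    (by linarith)
  have hlt : L ≤ Real.log t0 := by
    rw [← Real.log_exp L]
    exact Real.log_le_log (Real.exp_pos _) ht0
  have h4 : ‖c * ye y ((⟨1 / 2 + 1 / L, t0⟩ : ℂ) - 1 / 2) * XX (1 - (⟨1 / 2 + 1 / L, t0⟩ : ℂ)) ^ 2‖ ≤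
      Real.exp (-1) := by
    rw [norm_mul, norm_mul, hc, one_mul, norm_pow, norm_ye]
    have h5 : ((⟨1 / 2 + 1 / L, t0⟩ : ℂ) - 1 / 2).re = 1 / L := by simp
    rw [h5]
    calc _ ≤ Real.exp (Real.log y * (1 / L)) *
          (Real.exp (-(1 / L) * (Real.log (t0 / (2 * Real.pi)) - 14 / t0))) ^ 2 := by gcongr
      _ = Real.exp (Real.log y * (1 / L) + 2 * (-(1 / L) * (Real.log (t0 / (2 * Real.pi)) - 14 / t0))) := by
          rw [← Real.exp_nat_mul, ← Real.exp_add]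
          norm_num
      _ ≤ Real.exp (-1) := by
          apply Real.exp_le_exp.2
          rw [Real.log_div ht00.ne' (by positivity)]
          have h6 : 14 / t0 ≤ 1 := by rw [div_le_one ht00]; linarith
          have h7 : Real.log y ≤ |Real.log y| := le_abs_self _
          have h8 : Real.log y * (1 / L) + 2 * (-(1 / L) * (Real.log t0 - Real.log (2 * Real.pi) - 14 / t0)) =
            (Real.log y - 2 * (Real.log t0 - Real.log (2 * Real.pi) - 14 / t0)) / L := by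
            field_simp
            ring
          rw [h8, div_le_iff₀ hL0]
          linarith
  have h9 : Real.exp (-1) ≤ 1 / 2 := by
    rw [Real.exp_neg, one_div]
    apply inv_anti₀ (by norm_num)
    have := Real.add_one_le_exp (1 : ℝ)
    linarith
  unfold Wf
  have h10 := norm_sub_norm_le (1 : ℂ)
    (-(c * ye y ((⟨1 / 2 + 1 / L, t0⟩ : ℂ) - 1 / 2) * XX (1 - (⟨1 / 2 + 1 / L, t0⟩ : ℂ)) ^ 2))
  rw [norm_one, norm_neg, sub_neg_eq_add] at h10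
  linarith

/-- approximate formula for `1/ζ` -/
theorem afe (hRH : RiemannHypothesis) (y : ℝ) {Cr : ℝ} (hCr : 1 ≤ Cr) : ∃ K C L0 : ℝ, 1 ≤ K ∧ 1 ≤ C ∧
    1 ≤ L0 ∧ ∀ L : ℝ, L0 ≤ L → ∀ t0 d ε : ℝ, Real.exp L ≤ t0 → t0 ≤ Cr * Real.exp L →
    1 / (8 * L) ≤ d → d ≤ 1 → 0 ≤ ε → LH y t0 (K * L + 3) d ε →
    ‖(riemannZeta ⟨1 / 2 + 1 / L, t0⟩)⁻¹‖ ≤ 2 * ‖DD (1 / L) L t0‖ + C +
      2 * ε * ∑ γ ∈ ZF (t0 - (K * L + 3)) (t0 + (K * L + 3)), Real.exp (-(γ - t0) ^ 2) * ‖aa γ‖ := by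
  obtain ⟨C1, hC1, hR⟩ := afe_right y
  obtain ⟨C2, hC2, hLf⟩ := afe_left y hCr
  obtain ⟨K, C3, hK, hC3, hH⟩ := afe_hor hRH y hCr
  obtain ⟨L1, hL1, hWp⟩ := W_point y
  -- `K' L + 1 ≤ exp L / 2` for large `L`
  obtain ⟨L2, hL2⟩ : ∃ L2 : ℝ, ∀ L : ℝ, L2 ≤ L → (K + 2) * L + 4 ≤ Real.exp L / 2 := by
    have h1 := (Real.tendsto_exp_div_pow_atTop 1).eventually_ge_atTop (2 * ((K + 2) + 4))
    obtain ⟨x, hx⟩ := (h1.and (eventually_ge_atTop 1)).exists_forall_of_atTop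
    refine ⟨x, fun L hL => ?_⟩
    obtain ⟨h2, h3⟩ := hx L hL
    rw [pow_one, le_div_iff₀ (by linarith)] at h2
    nlinarith
  refine ⟨K + 2, 6 * C3 + C1 + C2 + 1, max (max L1 L2) (Real.log (2 * Cr) + 2), by linarith, by linarith, by
    exact hL1.trans ((le_max_left _ _).trans (le_max_left _ _)),
    fun L hL t0 d ε ht0 ht1 hd hd1 hε hLH => ?_⟩
  have hLL1 : L1 ≤ L := ((le_max_left _ _).trans (le_max_left _ _)).trans hL
  have hLL2 : L2 ≤ L := ((le_max_right _ _).trans (le_max_left _ _)).trans hL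
  have hLC : Real.log (2 * Cr) + 2 ≤ L := (le_max_right _ _).trans hL
  have hlog0 : 0 ≤ Real.log (2 * Cr) := Real.log_nonneg (by linarith)
  have hL2' : 2 ≤ L := by linarith
  have hL0 : 0 < L := by linarith
  set W : ℝ := (K + 2) * L with hW
  have hWexp : W + 4 ≤ Real.exp L / 2 := hL2 L hLL2
  have hexp : 0 < Real.exp L := Real.exp_pos _
  have hWpos : 1 ≤ W := by nlinarith
  set κ : ℝ := 1 / L with hκ
  have hκ0 : 0 < κ := by positivity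
  have hκ1 : κ ≤ 1 / 2 := by
    rw [hκ]
    exact one_div_le_one_div_of_le (by norm_num) hL2'
  have hd0 : 0 < d := lt_of_lt_of_le (by positivity) hd
  -- heights
  obtain ⟨y2, hy2, hy2d⟩ := good_pt (a := t0 + W) hd0 hd1 (by
    intro γ hγ γ' hγ' h1 h2 h3 h4 hne
    refine hLH.sp γ hγ γ' hγ' ?_ ?_ hne
    · rw [abs_le]; constructor <;> linarith
    · rw [abs_le]; constructor <;> linarith)
  obtain ⟨y1, hy1, hy1d⟩ := good_pt (a := t0 - W - 1) hd0 hd1 (by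
    intro γ hγ γ' hγ' h1 h2 h3 h4 hne
    refine hLH.sp γ hγ γ' hγ' ?_ ?_ hne
    · rw [abs_le]; constructor <;> linarith
    · rw [abs_le]; constructor <;> linarith)
  obtain ⟨hy1a, hy1b⟩ := hy1
  obtain ⟨hy2a, hy2b⟩ := hy2
  have hy1b' : y1 ≤ t0 - W := by linarith
  have hy1z : y1 ∉ Zo := fun h => by
    have := hy1d y1 h
    rw [sub_self, abs_zero] at this
    linarith
  have hy2z : y2 ∉ Zo := fun h => by
    have := hy2d y2 h
    rw [sub_self, abs_zero] at this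
    linarith
  have hy1e : Real.exp L / 2 ≤ y1 := by linarith
  have hexp2 : 6 ≤ Real.exp L := by nlinarith
  have hy13 : 3 ≤ y1 := by linarith
  have hy12 : y1 < y2 := by linarith
  obtain ⟨c, hc, hlat⟩ := hLH.lat
  set s0 : ℂ := ⟨1 / 2 + κ, t0⟩ with hs0
  set Φ : ℂ → ℂ := fun z => Wf y c z * kf s0 L z with hΦ
  have hrect := rect_zeta_pole hRH (x0 := -1) (x1 := 2) (y1 := y1) (y2 := y2) (by norm_num) (by norm_num)
    (by linarith) hy12 hy1z hy2z (by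
      intro γ hγ h1 h2
      exact hLH.sim γ hγ (by rw [abs_le]; constructor <;> linarith)) (Φ := Φ) (by
      intro z h1 h2
      exact (Wf_diff y c (by have := h2.1; intro h; linarith)).mul ((kf_diff s0 L) z)) (s0 := s0)
      (by rw [hs0]; constructor <;> simp only <;> linarith) (by rw [hs0]; constructor <;> simp only <;> linarith)
  -- bound of the rectangle integral
  have hhor : ∀ v : ℝ, (∀ γ ∈ Zo, d / 4 ≤ |γ - v|) → 3 ≤ v → v ≤ 2 * t0 → W ≤ |v - t0| →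
      ‖∫ x in (-1 : ℝ)..2, Φ ((x : ℂ) + v * I) * (riemannZeta ((x : ℂ) + v * I))⁻¹ *
        ((x : ℂ) + v * I - s0)⁻¹‖ ≤ 3 * C3 := by
    intro v hv1 hv2 hv3 hv4
    have := intervalIntegral.norm_integral_le_of_norm_le_const (a := -1) (b := 2) (C := C3)
      (f := fun x : ℝ => Φ ((x : ℂ) + v * I) * (riemannZeta ((x : ℂ) + v * I))⁻¹ *
        ((x : ℂ) + v * I - s0)⁻¹) (by
        intro x hx
        rw [uIoc_of_le (by norm_num)] at hx
        rw [← mk_line]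
        exact hH c hc L κ t0 v d W (by linarith) (by linarith) hκ0.le hκ1 ht1 hv2 hv3
          (by rw [hW]; nlinarith) hv4 hd hd1 hv1 x hx.1.le hx.2)
    refine this.trans ?_
    norm_num
    linarith
  have hb1 := hhor y1 hy1d hy13 (by linarith) (by
    rw [abs_sub_comm, abs_of_nonneg (by linarith)]; linarith)
  have hb2 := hhor y2 hy2d (by linarith) (by linarith) (by
    rw [abs_of_nonneg (by linarith)]; linarith)
  have hb3 := hR c hc L κ t0 y1 y2 W (by linarith) hκ0.le hκ1 ht0 (by rw [hW]; nlinarith) hy1b' hy2a hy1e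
    (by linarith)
  have hb4 := hLf c hc L κ t0 y1 y2 (by linarith) hκ0.le hκ1 ht1 hy12.le (by linarith) (by linarith)
  have hrb : ‖rect (-1) 2 y1 y2 (fun z => Φ z * (riemannZeta z)⁻¹ * (z - s0)⁻¹)‖ ≤
      6 * C3 + (2 * Real.pi * ‖DD κ L t0‖ + C1) + C2 := by
    unfold rect
    have e1 : ∀ t : ℝ, Φ (((2 : ℝ) : ℂ) + t * I) * (riemannZeta (((2 : ℝ) : ℂ) + t * I))⁻¹ *
        (((2 : ℝ) : ℂ) + t * I - s0)⁻¹ = Wf y c ⟨2, t⟩ * kf ⟨1 / 2 + κ, t0⟩ L ⟨2, t⟩ *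
          (riemannZeta ⟨2, t⟩)⁻¹ * ((⟨2, t⟩ : ℂ) - ⟨1 / 2 + κ, t0⟩)⁻¹ := by
      intro t
      rw [← mk_line]
    have e2 : ∀ t : ℝ, Φ (((-1 : ℝ) : ℂ) + t * I) * (riemannZeta (((-1 : ℝ) : ℂ) + t * I))⁻¹ *
        (((-1 : ℝ) : ℂ) + t * I - s0)⁻¹ = Wf y c ⟨-1, t⟩ * kf ⟨1 / 2 + κ, t0⟩ L ⟨-1, t⟩ *
          (riemannZeta ⟨-1, t⟩)⁻¹ * ((⟨-1, t⟩ : ℂ) - ⟨1 / 2 + κ, t0⟩)⁻¹ := by
      intro t
      rw [← mk_line]
    simp_rw [e1, e2]
    refine (norm_sub_le _ _).trans ?_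
    refine (add_le_add_left (norm_add_le _ _) _).trans ?_
    rw [norm_smul, norm_smul, norm_I, one_mul, one_mul]
    have := norm_sub_le (∫ x in (-1 : ℝ)..2, Φ ((x : ℂ) + y1 * I) * (riemannZeta ((x : ℂ) + y1 * I))⁻¹ *
        ((x : ℂ) + y1 * I - s0)⁻¹) (∫ x in (-1 : ℝ)..2, Φ ((x : ℂ) + y2 * I) *
        (riemannZeta ((x : ℂ) + y2 * I))⁻¹ * ((x : ℂ) + y2 * I - s0)⁻¹)
    linarith
  rw [hrect] at hrb
  set SS : ℂ := ∑ γ ∈ ZF y1 y2, Φ (1 / 2 + (γ : ℂ) * I) * (1 / 2 + (γ : ℂ) * I - s0)⁻¹ * aa γ with hSSd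
  have hpi : ‖(2 * (Real.pi : ℂ) * I)‖ = 2 * Real.pi := by
    rw [norm_mul, norm_mul, norm_I, mul_one, Complex.norm_real, Real.norm_eq_abs, abs_of_pos Real.pi_pos]
    norm_num
  rw [norm_mul, hpi] at hrb
  have hΦs : Φ s0 = Wf y c s0 := by
    simp only [hΦ]
    rw [kf_self, mul_one]
  rw [hΦs] at hrb
  -- the sum
  have hSSb : ‖SS‖ ≤ ε * ∑ γ ∈ ZF (t0 - (W + 3)) (t0 + (W + 3)), Real.exp (-(γ - t0) ^ 2) * ‖aa γ‖ := by
    have h1 : ‖SS‖ ≤ ∑ γ ∈ ZF y1 y2, ε * (Real.exp (-(γ - t0) ^ 2) * ‖aa γ‖) := by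
      rw [hSSd]
      refine (norm_sum_le _ _).trans (Finset.sum_le_sum fun γ hγ => ?_)
      rw [mem_ZF] at hγ
      have hγ0 : γ ≠ 0 := by linarith [hγ.2.1]
      have h2 := hlat γ hγ.1 (by rw [abs_le]; constructor <;> linarith [hγ.2.1, hγ.2.2])
      rw [← Wf_half y c hγ0] at h2
      have h3 : ‖kf s0 L (1 / 2 + (γ : ℂ) * I)‖ ≤ Real.exp (-(γ - t0) ^ 2) := by
        rw [← half_line, hs0, norm_kf]
        apply Real.exp_le_exp.2
        have : 0 ≤ L * κ := by positivity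
        have h4 : κ * L = 1 := by rw [hκ]; field_simp
        nlinarith
      rcases eq_or_ne γ t0 with he | he
      · have h4 : Wf y c (1 / 2 + (γ : ℂ) * I) = 0 := by
          rw [he, sub_self, abs_zero, mul_zero] at h2
          rw [he]
          exact norm_le_zero_iff.1 h2
        simp only [hΦ]
        rw [h4]
        simp
        positivity
      · have hpos : 0 < |γ - t0| := abs_pos.2 (sub_ne_zero.2 he)
        have h4 : ‖(1 / 2 + (γ : ℂ) * I - s0)⁻¹‖ ≤ |γ - t0|⁻¹ := by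
          rw [norm_inv, ← half_line]
          exact inv_anti₀ hpos (dist_im (s0 := s0) (σ := 1 / 2) (t := γ))
        simp only [hΦ]
        rw [norm_mul, norm_mul, norm_mul]
        calc _ ≤ (ε * |γ - t0|) * Real.exp (-(γ - t0) ^ 2) * |γ - t0|⁻¹ * ‖aa γ‖ := by gcongr
          _ = _ := by field_simp
    refine h1.trans ?_
    rw [← Finset.mul_sum]
    apply mul_le_mul_of_nonneg_left _ hε
    apply Finset.sum_le_sum_of_subset_of_nonneg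
    · intro γ hγ
      rw [mem_ZF] at hγ ⊢
      exact ⟨hγ.1, by linarith [hγ.2.1], by linarith [hγ.2.2]⟩
    · intro γ _ _
      positivity
  have hW' := hWp c hc L t0 hLL1 ht0
  rw [← hκ, ← hs0] at hW'
  set Z : ℂ := (riemannZeta s0)⁻¹ with hZ
  have h5 : ‖Wf y c s0 * Z‖ ≤ ‖Wf y c s0 * Z + SS‖ + ‖SS‖ := by
    have := norm_sub_le (Wf y c s0 * Z + SS) SS
    rwa [add_sub_cancel_right] at this
  rw [norm_mul] at h5
  have hpi3 := Real.pi_gt_three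
  have h6 : ‖Wf y c s0 * Z + SS‖ ≤ ‖DD κ L t0‖ + (6 * C3 + C1 + C2) / 2 := by
    have h7 : 2 * Real.pi * (‖Wf y c s0 * Z + SS‖ - ‖DD κ L t0‖) ≤ 6 * C3 + C1 + C2 := by linarith
    by_contra hcon
    push Not at hcon
    have h8 : 0 < ‖Wf y c s0 * Z + SS‖ - ‖DD κ L t0‖ := by
      have : 0 ≤ (6 * C3 + C1 + C2) / 2 := by linarith
      linarith
    nlinarith
  have h9 : 1 / 2 * ‖Z‖ ≤ ‖Wf y c s0‖ * ‖Z‖ := mul_le_mul_of_nonneg_right hW' (norm_nonneg _)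
  linarith

end Pool.Agent.N806.AH
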