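import Pool.Agent.N806.AH.Loc

/-! The coefficients `1/ζ'(ρ)` are controlled by the local mean square of `1/ζ` on RH. -/

set_option autoImplicit false

open Complex Filter Topology Set MeasureTheory Metric

namespace Pool.Agent.N806.AH

open H370 H370.Loc H345

lemma zeta_ne (hRH : RiemannHypothesis) {s : ℂ} (h : s.re ≠ 1 / 2) (him : 0 < s.im) :
    riemannZeta s ≠ 0 := fun h0 => h (re_half hRH h0 him)

lemma zeta_cont_line {f : ℝ → ℂ} (hf : Continuous f) {S : Set ℝ} (him : ∀ v ∈ S, 0 < (f v).im) :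
    ContinuousOn (fun v => riemannZeta (f v)) S := by
  intro v hv
  have h1 : f v ≠ 1 := by
    intro h
    have := him v hv
    rw [h] at this
    simp at this
  exact ((differentiableAt_riemannZeta h1).continuousAt.comp hf.continuousAt).continuousWithinAt

lemma inv_cont_line (hRH : RiemannHypothesis) {f : ℝ → ℂ} (hf : Continuous f) {S : Set ℝ}
    (him : ∀ v ∈ S, 0 < (f v).im) (hre : ∀ v ∈ S, (f v).re ≠ 1 / 2) :
    ContinuousOn (fun v => (riemannZeta (f v))⁻¹) S :=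
  (zeta_cont_line hf him).inv₀ fun v hv => zeta_ne hRH (hre v hv) (him v hv)

lemma factor_ratio {γ0 κ v : ℝ} {ρ : ℂ} (hre : ρ.re = 1 / 2) (him : ρ.im ≠ γ0) :
    ‖(⟨1 / 2 + κ, γ0 + v⟩ : ℂ) - ρ‖ ≤ ‖(⟨1 / 2, γ0⟩ : ℂ) - ρ‖ *
      Real.exp (v * (1 / (γ0 - ρ.im)) + (v ^ 2 + κ ^ 2) / 2 * (1 / (ρ.im - γ0) ^ 2)) := by
  set Δ := γ0 - ρ.im with hΔ
  have hΔ0 : Δ ≠ 0 := sub_ne_zero.2 (Ne.symm him)
  have h1 : ‖(⟨1 / 2, γ0⟩ : ℂ) - ρ‖ = |Δ| := by
    have : (⟨1 / 2, γ0⟩ : ℂ) - ρ = (Δ : ℂ) * I := by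
      apply Complex.ext <;> simp [hre, hΔ]
    rw [this, norm_mul, norm_I, mul_one, Complex.norm_real, Real.norm_eq_abs]
  have h2 : (ρ.im - γ0) ^ 2 = Δ ^ 2 := by rw [hΔ]; ring
  rw [h1, h2]
  apply norm_le_of_sq (by positivity)
  have h3 : ((⟨1 / 2 + κ, γ0 + v⟩ : ℂ) - ρ).re ^ 2 + ((⟨1 / 2 + κ, γ0 + v⟩ : ℂ) - ρ).im ^ 2 =
      Δ ^ 2 * (2 * (v * (1 / Δ) + (v ^ 2 + κ ^ 2) / 2 * (1 / Δ ^ 2)) + 1) := by
    simp only [sub_re, sub_im, hre]
    have : γ0 + v - ρ.im = Δ + v := by rw [hΔ]; ring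
    rw [this]
    field_simp
    ring
  rw [h3, mul_pow, sq_abs, ← Real.exp_nat_mul]
  apply mul_le_mul_of_nonneg_left _ (by positivity)
  push_cast
  exact Real.add_one_le_exp _

lemma Pf_ratio {γ0 κ v : ℝ} (m : Multiset ℂ) (hm : ∀ ρ ∈ m, ρ.re = 1 / 2 ∧ ρ.im ≠ γ0) :
    ‖Pf m (⟨1 / 2 + κ, γ0 + v⟩ : ℂ)‖ ≤ ‖Pf m (⟨1 / 2, γ0⟩ : ℂ)‖ *
      Real.exp (v * (m.map (fun ρ : ℂ => 1 / (γ0 - ρ.im))).sum +
        (v ^ 2 + κ ^ 2) / 2 * (m.map (fun ρ : ℂ => 1 / (ρ.im - γ0) ^ 2)).sum) := by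
  induction m using Multiset.induction_on with
  | empty => simp [Pf_zero]
  | cons ρ m ih =>
    have h1 := ih fun ρ' h' => hm ρ' (Multiset.mem_cons_of_mem h')
    obtain ⟨a1, a2⟩ := hm ρ (Multiset.mem_cons_self ρ m)
    have h2 := factor_ratio (κ := κ) (v := v) a1 a2
    rw [Pf_cons, Pf_cons, norm_mul, norm_mul, Multiset.map_cons, Multiset.map_cons,
      Multiset.sum_cons, Multiset.sum_cons]
    calc _ ≤ (‖(⟨1 / 2, γ0⟩ : ℂ) - ρ‖ * Real.exp (v * (1 / (γ0 - ρ.im)) +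
            (v ^ 2 + κ ^ 2) / 2 * (1 / (ρ.im - γ0) ^ 2))) *
          (‖Pf m (⟨1 / 2, γ0⟩ : ℂ)‖ *
            Real.exp (v * (m.map (fun ρ : ℂ => 1 / (γ0 - ρ.im))).sum +
            (v ^ 2 + κ ^ 2) / 2 * (m.map (fun ρ : ℂ => 1 / (ρ.im - γ0) ^ 2)).sum)) := by
          gcongr
      _ = _ := by
          rw [mul_mul_mul_comm, ← Real.exp_add]
          congr 2
          ring

/-- the coefficient at a well separated simple zero -/
theorem coef (hRH : RiemannHypothesis) : ∃ C : ℝ, 1 ≤ C ∧ ∀ γ0 ∈ Zo, 4 ≤ γ0 →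
    ∀ d κ : ℝ, 0 < d → d ≤ 1 / 10 → 0 < κ → κ ≤ 1 / 10 →
    (∀ γ ∈ Zo, |γ - γ0| ≤ 1 → deriv riemannZeta (1 / 2 + (γ : ℂ) * I) ≠ 0) →
    (∀ γ ∈ Zo, ∀ γ' ∈ Zo, |γ - γ0| ≤ 1 → |γ' - γ0| ≤ 1 → γ ≠ γ' → d ≤ |γ - γ'|) →
    ‖aa γ0‖ ^ 2 * d ≤
      ((κ + d) * Real.exp (1 / 2 + 2 * κ ^ 2 / d ^ 2 + C * Real.log γ0 * (κ + d))) ^ 2 *
      ∫ v in (-(d / 2))..(d / 2), ‖(riemannZeta (⟨1 / 2 + κ, γ0 + v⟩ : ℂ))⁻¹‖ ^ 2 := by
  classical
  obtain ⟨C, hC, hfac⟩ := fac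
  refine ⟨C, hC, fun γ0 hγ0 h4 d κ hd hd1 hκ hκ1 hsim hsp => ?_⟩
  obtain ⟨s, g, hs, hfg, hg, hg0, hcard, hlg⟩ := hfac γ0 (by linarith)
  have hlt : 1 ≤ Real.log γ0 := one_le_log (by linarith)
  set c : ℂ := ⟨2, γ0⟩ with hc
  set ρ0 : ℂ := ⟨1 / 2, γ0⟩ with hρ0
  have hρ0' : (1 / 2 : ℂ) + (γ0 : ℂ) * I = ρ0 := by apply Complex.ext <;> simp [hρ0]
  have hρb : ρ0 ∈ closedBall c 1.7 := in_ball (by norm_num) (by norm_num)
  have h17 : closedBall c 1.7 ⊆ closedBall c 1.8 := closedBall_subset_closedBall (by norm_num)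
  have hg17 : AnalyticOnNhd ℂ g (closedBall c 1.7) :=
    hg.mono (closedBall_subset_closedBall (by norm_num))
  have hζ0 : riemannZeta ρ0 = 0 := by rw [← hρ0']; exact hγ0
  have hmem : ρ0 ∈ s := by
    by_contra hcon
    have h1 : Pf s ρ0 ≠ 0 := Pf_ne_zero fun ρ hρ he => hcon (he ▸ hρ)
    have h2 := hfg ρ0
    rw [hζ0] at h2
    exact mul_ne_zero h1 (hg0 ρ0 (h17 hρb)) h2.symm
  obtain ⟨s', rfl⟩ := Multiset.exists_cons_of_mem hmem
  -- the derivative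
  have hder : deriv riemannZeta ρ0 = Pf s' ρ0 * g ρ0 := by
    have h1 : riemannZeta = fun z => (z - ρ0) * (Pf s' z * g z) := by
      funext z
      rw [hfg z, Pf_cons]
      ring
    have hd1 : DifferentiableAt ℂ (fun z => Pf s' z * g z) ρ0 :=
      (Pf_diff s' ρ0).mul (hg17 ρ0 hρb).differentiableAt
    have h2 : HasDerivAt (fun z => (z - ρ0) * (Pf s' z * g z))
        (1 * (Pf s' ρ0 * g ρ0) + (ρ0 - ρ0) * deriv (fun z => Pf s' z * g z) ρ0) ρ0 :=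
      ((hasDerivAt_id ρ0).sub_const ρ0).mul hd1.hasDerivAt
    rw [h1, h2.deriv]
    ring
  have hder0 : deriv riemannZeta ρ0 ≠ 0 := by
    have := hsim γ0 hγ0 (by simp)
    rwa [hρ0'] at this
  have hPf0 : Pf s' ρ0 ≠ 0 := fun h => hder0 (by rw [hder, h, zero_mul])
  -- data for the other zeros
  have hρdata : ∀ ρ ∈ s', ρ.re = 1 / 2 ∧ ρ.im ∈ Zo ∧ |ρ.im - γ0| ≤ 1 := by
    intro ρ hρ
    obtain ⟨a1, a2⟩ := hs ρ (Multiset.mem_cons_of_mem hρ)
    have him := abs_le.1 (ball_im a1)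
    have him' : 0 < ρ.im := by linarith [him.1]
    have hre := re_half hRH a2 him'
    refine ⟨hre, mem_Zo hRH a2 him', ?_⟩
    rw [mem_closedBall, dist_eq_norm] at a1
    have h3 : ‖ρ - c‖ ^ 2 ≤ 1.8 ^ 2 := pow_le_pow_left₀ (norm_nonneg _) a1 2
    rw [← Complex.normSq_eq_norm_sq, Complex.normSq_apply] at h3
    simp only [sub_re, sub_im, hc, hre] at h3
    apply abs_le_of_sq_le_sq _ (by norm_num)
    nlinarith
  have hρne : ∀ ρ ∈ s', ρ.im ≠ γ0 := by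
    intro ρ hρ h
    apply hPf0
    have : ρ0 = ρ := by
      apply Complex.ext
      · rw [(hρdata ρ hρ).1]
      · rw [h]
    obtain ⟨t, rfl⟩ := Multiset.exists_cons_of_mem hρ
    rw [Pf_cons, this, sub_self, zero_mul]
  have hnodup : s'.Nodup := by
    rw [Multiset.nodup_iff_ne_cons_cons]
    rintro a t rfl
    have ha := hρdata a (Multiset.mem_cons_self a _)
    have haim : 0 < a.im := by
      have := abs_le.1 ha.2.2
      linarith [this.1]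
    have hd2 := hsim a.im ha.2.1 ha.2.2
    rw [← eq_half ha.1] at hd2
    apply hd2
    have haan : DifferentiableAt ℂ g a := by
      have hab : a ∈ closedBall c 1.9 :=
        closedBall_subset_closedBall (by norm_num) (hs a (by simp)).1
      exact (hg a hab).differentiableAt
    have h1 : riemannZeta = fun z => (z - a) ^ 2 * ((z - ρ0) * Pf t z * g z) := by
      funext z
      rw [hfg z, Pf_cons, Pf_cons, Pf_cons]
      ring
    have hdd : DifferentiableAt ℂ (fun z => (z - ρ0) * Pf t z * g z) a :=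
      (((differentiableAt_id.sub_const ρ0)).mul (Pf_diff t a)).mul haan
    have h2 : HasDerivAt (fun z => (z - a) ^ 2 * ((z - ρ0) * Pf t z * g z))
        (((2 : ℕ) * (a - a) ^ 1 * 1) * ((a - ρ0) * Pf t a * g a) +
          (a - a) ^ 2 * deriv (fun z => (z - ρ0) * Pf t z * g z) a) a :=
      (((hasDerivAt_id a).sub_const a).pow 2).mul hdd.hasDerivAt
    rw [h1, h2.deriv]
    simp
  -- S2
  set S1 : ℝ := (s'.map (fun ρ : ℂ => 1 / (γ0 - ρ.im))).sum with hS1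
  set S2 : ℝ := (s'.map (fun ρ : ℂ => 1 / (ρ.im - γ0) ^ 2)).sum with hS2
  have hS2le : S2 ≤ 4 / d ^ 2 := by
    have hinj : Set.InjOn (fun ρ : ℂ => ρ.im) {ρ | ρ ∈ s'} := by
      intro a ha b hb hab
      apply Complex.ext
      · rw [(hρdata a ha).1, (hρdata b hb).1]
      · exact hab
    have hmn : (s'.map (fun ρ : ℂ => ρ.im)).Nodup :=
      hnodup.map_on fun a ha b hb hab => hinj ha hb hab
    let F : Finset ℝ := ⟨s'.map (fun ρ : ℂ => ρ.im), hmn⟩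
    have hF : S2 = ∑ x ∈ F, 1 / (x - γ0) ^ 2 := by
      show _ = (Multiset.map _ (s'.map (fun ρ : ℂ => ρ.im))).sum
      rw [Multiset.map_map]
      rfl
    have hFm : ∀ x ∈ F, x ∈ Zo ∧ |x - γ0| ≤ 1 ∧ x ≠ γ0 := by
      intro x hx
      have : x ∈ s'.map (fun ρ : ℂ => ρ.im) := hx
      rw [Multiset.mem_map] at this
      obtain ⟨ρ, h1, rfl⟩ := this
      exact ⟨(hρdata ρ h1).2.1, (hρdata ρ h1).2.2, hρne ρ h1⟩
    rw [hF]
    apply sep_inv_sq hd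
    · intro x hx y hy hxy
      exact hsp x (hFm x hx).1 y (hFm y hy).1 (hFm x hx).2.1 (hFm y hy).2.1 hxy
    · intro x hx
      exact hsp x (hFm x hx).1 γ0 hγ0 (hFm x hx).2.1 (by simp) (hFm x hx).2.2
  -- the constant
  set K : ℝ := (κ + d) * Real.exp (1 / 2 + 2 * κ ^ 2 / d ^ 2 + C * Real.log γ0 * (κ + d)) with hK
  have hK0 : 0 < K := by positivity
  have hupper : ∀ v ∈ Icc (-(d / 2)) (d / 2), ‖riemannZeta (⟨1 / 2 + κ, γ0 + v⟩ : ℂ)‖ ≤
      K * ‖deriv riemannZeta ρ0‖ * Real.exp (v * S1) := by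
    intro v hv
    have hv1 : |v| ≤ d / 2 := abs_le.2 hv
    have hv2 : v ^ 2 ≤ d ^ 2 / 4 := by
      rw [← sq_abs]
      have := pow_le_pow_left₀ (abs_nonneg v) hv1 2
      linarith [this, show (d / 2) ^ 2 = d ^ 2 / 4 by ring]
    set z : ℂ := ⟨1 / 2 + κ, γ0 + v⟩ with hz
    have hzb : z ∈ closedBall c 1.7 := in_ball (by norm_num) (by nlinarith)
    have hzρ : ‖z - ρ0‖ ≤ κ + d := by
      have : z - ρ0 = (κ : ℂ) + (v : ℂ) * I := by apply Complex.ext <;> simp [hz, hρ0]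
      rw [this]
      refine (norm_add_le _ _).trans ?_
      rw [norm_mul, norm_I, mul_one, Complex.norm_real, Complex.norm_real, Real.norm_eq_abs,
        Real.norm_eq_abs, abs_of_pos hκ]
      linarith
    have h1 := Pf_ratio (γ0 := γ0) (κ := κ) (v := v) s' (fun ρ hρ => ⟨(hρdata ρ hρ).1, hρne ρ hρ⟩)
    have h2 := glip hg17 (fun z hz => hg0 z (h17 hz)) hlg hzb hρb
    rw [hfg z, Pf_cons, norm_mul, norm_mul, hder, norm_mul]
    have h3 : (v ^ 2 + κ ^ 2) / 2 * S2 ≤ 1 / 2 + 2 * κ ^ 2 / d ^ 2 := by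
      calc (v ^ 2 + κ ^ 2) / 2 * S2 ≤ (v ^ 2 + κ ^ 2) / 2 * (4 / d ^ 2) :=
            mul_le_mul_of_nonneg_left hS2le (by positivity)
        _ ≤ (d ^ 2 / 4 + κ ^ 2) / 2 * (4 / d ^ 2) :=
            mul_le_mul_of_nonneg_right (by linarith) (by positivity)
        _ = _ := by field_simp; ring
    have h4 : Real.exp (v * S1 + (v ^ 2 + κ ^ 2) / 2 * S2) ≤
        Real.exp (v * S1) * Real.exp (1 / 2 + 2 * κ ^ 2 / d ^ 2) := by
      rw [← Real.exp_add]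
      apply Real.exp_le_exp.2
      linarith
    have h5 : Real.exp (C * Real.log γ0 * ‖z - ρ0‖) ≤ Real.exp (C * Real.log γ0 * (κ + d)) := by
      apply Real.exp_le_exp.2
      have : 0 ≤ C * Real.log γ0 := by positivity
      gcongr
    calc ‖z - ρ0‖ * ‖Pf s' z‖ * ‖g z‖
        ≤ (κ + d) * (‖Pf s' ρ0‖ * (Real.exp (v * S1) * Real.exp (1 / 2 + 2 * κ ^ 2 / d ^ 2))) *
          (‖g ρ0‖ * Real.exp (C * Real.log γ0 * (κ + d))) := by
          have h6 : ‖Pf s' z‖ ≤ ‖Pf s' ρ0‖ * (Real.exp (v * S1) *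
              Real.exp (1 / 2 + 2 * κ ^ 2 / d ^ 2)) :=
            h1.trans (mul_le_mul_of_nonneg_left h4 (norm_nonneg _))
          have h7 : ‖g z‖ ≤ ‖g ρ0‖ * Real.exp (C * Real.log γ0 * (κ + d)) :=
            h2.trans (mul_le_mul_of_nonneg_left h5 (norm_nonneg _))
          gcongr
      _ = K * (‖Pf s' ρ0‖ * ‖g ρ0‖) * Real.exp (v * S1) := by
          rw [hK, Real.exp_add (1 / 2 + 2 * κ ^ 2 / d ^ 2)]
          ring
  -- integrate
  have hdn : 0 < ‖deriv riemannZeta ρ0‖ := norm_pos_iff.2 hder0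
  have hint1 : IntervalIntegrable (fun v : ℝ => ‖(riemannZeta (⟨1 / 2 + κ, γ0 + v⟩ : ℂ))⁻¹‖ ^ 2)
      volume (-(d / 2)) (d / 2) := by
    apply ContinuousOn.intervalIntegrable
    apply ContinuousOn.pow
    apply ContinuousOn.norm
    apply inv_cont_line hRH (f := fun v : ℝ => (⟨1 / 2 + κ, γ0 + v⟩ : ℂ))
    · have : (fun v : ℝ => (⟨1 / 2 + κ, γ0 + v⟩ : ℂ)) = fun v : ℝ =>
          ((1 / 2 + κ : ℝ) : ℂ) + ((γ0 + v : ℝ) : ℂ) * I := by
        funext v; exact mk_eq_add_mul_I _ _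
      rw [this]
      fun_prop
    · intro v hv
      rw [uIcc_of_le (by linarith)] at hv
      show 0 < γ0 + v
      have := hv.1
      linarith
    · intro v _
      show 1 / 2 + κ ≠ 1 / 2
      linarith
  have hlow : ∀ v ∈ Icc (-(d / 2)) (d / 2), (K * ‖deriv riemannZeta ρ0‖)⁻¹ ^ 2 * (1 - 2 * v * S1) ≤
      ‖(riemannZeta (⟨1 / 2 + κ, γ0 + v⟩ : ℂ))⁻¹‖ ^ 2 := by
    intro v hv
    have h1 := hupper v hv
    have hv1 : |v| ≤ d / 2 := abs_le.2 hv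
    have hne : riemannZeta (⟨1 / 2 + κ, γ0 + v⟩ : ℂ) ≠ 0 := by
      apply zeta_ne hRH
      · show 1 / 2 + κ ≠ 1 / 2
        linarith
      · show 0 < γ0 + v
        have := hv.1
        linarith
    have hn : 0 < ‖riemannZeta (⟨1 / 2 + κ, γ0 + v⟩ : ℂ)‖ := norm_pos_iff.2 hne
    have h2 : (K * ‖deriv riemannZeta ρ0‖)⁻¹ * Real.exp (-(v * S1)) ≤
        ‖(riemannZeta (⟨1 / 2 + κ, γ0 + v⟩ : ℂ))⁻¹‖ := by
      rw [norm_inv]
      have := inv_anti₀ hn h1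
      rw [mul_inv, ← Real.exp_neg] at this
      exact this
    have h3 := pow_le_pow_left₀ (by positivity) h2 2
    refine le_trans ?_ h3
    rw [mul_pow, ← Real.exp_nat_mul]
    apply mul_le_mul_of_nonneg_left _ (by positivity)
    have := Real.add_one_le_exp ((2 : ℕ) * -(v * S1))
    push_cast at this ⊢
    linarith
  have hmono := intervalIntegral.integral_mono_on (μ := volume) (by linarith : -(d / 2) ≤ d / 2)
    (f := fun v : ℝ => (K * ‖deriv riemannZeta ρ0‖)⁻¹ ^ 2 * (1 - 2 * v * S1))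
    (Continuous.intervalIntegrable (by fun_prop) _ _) hint1 hlow
  have hval : ∫ v in (-(d / 2))..(d / 2), (K * ‖deriv riemannZeta ρ0‖)⁻¹ ^ 2 * (1 - 2 * v * S1) =
      (K * ‖deriv riemannZeta ρ0‖)⁻¹ ^ 2 * d := by
    rw [intervalIntegral.integral_const_mul]
    congr 1
    have : (fun v : ℝ => 1 - 2 * v * S1) = fun v : ℝ => 1 - (2 * S1) * v := by funext v; ring
    rw [this, intervalIntegral.integral_sub (by simp) (Continuous.intervalIntegrable (by fun_prop) _ _),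
      intervalIntegral.integral_const_mul, integral_id]
    simp
  rw [hval] at hmono
  have haa : ‖aa γ0‖ = ‖deriv riemannZeta ρ0‖⁻¹ := by
    unfold aa
    rw [hρ0', norm_inv]
  rw [haa]
  have h5 : (K * ‖deriv riemannZeta ρ0‖)⁻¹ ^ 2 = (K ^ 2)⁻¹ * ‖deriv riemannZeta ρ0‖⁻¹ ^ 2 := by
    rw [mul_inv, mul_pow, inv_pow K]
  rw [h5, mul_assoc, inv_mul_le_iff₀ (by positivity)] at hmono
  exact hmono

end Pool.Agent.N806.AH
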