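import Mathlib

/-! Sums over separated sets of reals. -/

set_option autoImplicit false

open Finset

namespace Pool.Agent.N806.AH

lemma sep_half {F : Finset ℝ} {d x0 : ℝ} (hd : 0 < d)
    (hsep : ∀ x ∈ F, ∀ y ∈ F, x ≠ y → d ≤ |x - y|) (hside : ∀ x ∈ F, x0 ≤ x)
    {φ : ℕ → ℝ} (hφ : ∀ k, 0 ≤ φ k) (hs : Summable φ) {f : ℝ → ℝ}
    (hf : ∀ x ∈ F, f x ≤ φ ⌊|x - x0| / d⌋₊) : ∑ x ∈ F, f x ≤ ∑' k, φ k := by
  classical
  have hinj : Set.InjOn (fun x : ℝ => ⌊|x - x0| / d⌋₊) (F : Set ℝ) := by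
    intro x hx y hy hxy
    by_contra hne
    have hx0 := hside x hx
    have hy0 := hside y hy
    have h1 := hsep x hx y hy hne
    simp only at hxy
    rw [abs_of_nonneg (by linarith : 0 ≤ x - x0), abs_of_nonneg (by linarith : 0 ≤ y - x0)] at hxy
    have hxa : 0 ≤ (x - x0) / d := by apply div_nonneg <;> linarith
    have hya : 0 ≤ (y - x0) / d := by apply div_nonneg <;> linarith
    have b1 := Nat.floor_le hxa
    have b2 := Nat.lt_floor_add_one ((x - x0) / d)
    have b3 := Nat.floor_le hya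
    have b4 := Nat.lt_floor_add_one ((y - x0) / d)
    rw [← hxy] at b3 b4
    have h2 : |(x - x0) / d - (y - x0) / d| < 1 := by rw [abs_lt]; constructor <;> linarith
    have h3 : (x - x0) / d - (y - x0) / d = (x - y) / d := by ring
    rw [h3, abs_div, abs_of_pos hd, div_lt_one hd] at h2
    linarith
  calc ∑ x ∈ F, f x ≤ ∑ x ∈ F, φ ⌊|x - x0| / d⌋₊ := Finset.sum_le_sum hf
    _ = ∑ k ∈ F.image (fun x : ℝ => ⌊|x - x0| / d⌋₊), φ k := by
        rw [Finset.sum_image hinj]
    _ ≤ ∑' k, φ k := hs.sum_le_tsum _ (fun k _ => hφ k)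

/-- sum over a separated set -/
theorem sep_sum {F : Finset ℝ} {d x0 : ℝ} (hd : 0 < d)
    (hsep : ∀ x ∈ F, ∀ y ∈ F, x ≠ y → d ≤ |x - y|)
    {φ : ℕ → ℝ} (hφ : ∀ k, 0 ≤ φ k) (hs : Summable φ) {f : ℝ → ℝ}
    (hf : ∀ x ∈ F, f x ≤ φ ⌊|x - x0| / d⌋₊) : ∑ x ∈ F, f x ≤ 2 * ∑' k, φ k := by
  classical
  rw [← Finset.sum_filter_add_sum_filter_not F (fun x => x0 ≤ x), two_mul]
  apply add_le_add
  · apply sep_half hd (F := F.filter (fun x => x0 ≤ x)) (x0 := x0) _ _ hφ hs
    · intro x hx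
      exact hf x (Finset.mem_filter.1 hx).1
    · intro x hx y hy
      exact hsep x (Finset.mem_filter.1 hx).1 y (Finset.mem_filter.1 hy).1
    · intro x hx
      exact (Finset.mem_filter.1 hx).2
  · have h1 : ∑ x ∈ F.filter (fun x => ¬ x0 ≤ x), f x =
        ∑ x ∈ (F.filter (fun x => ¬ x0 ≤ x)).image (fun x => 2 * x0 - x), f (2 * x0 - x) := by
      rw [Finset.sum_image (fun a _ b _ hab => by linarith)]
      apply Finset.sum_congr rfl
      intro x _
      congr 1
      ring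
    rw [h1]
    apply sep_half hd (x0 := x0) _ _ hφ hs
    · intro x hx
      rw [Finset.mem_image] at hx
      obtain ⟨y, hy, rfl⟩ := hx
      have h2 := hf y (Finset.mem_filter.1 hy).1
      have h3 : 2 * x0 - (2 * x0 - y) = y := by ring
      have h4 : |2 * x0 - y - x0| = |y - x0| := by
        rw [← abs_neg]; congr 1; ring
      rw [h3, h4]
      exact h2
    · intro x hx y hy hne
      rw [Finset.mem_image] at hx hy
      obtain ⟨a, ha, rfl⟩ := hx
      obtain ⟨b, hb, rfl⟩ := hy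
      have h5 := hsep a (Finset.mem_filter.1 ha).1 b (Finset.mem_filter.1 hb).1
        (fun h => hne (by rw [h]))
      have h6 : |2 * x0 - a - (2 * x0 - b)| = |a - b| := by
        rw [← abs_neg]; congr 1; ring
      rw [h6]
      exact h5
    · intro x hx
      rw [Finset.mem_image] at hx
      obtain ⟨a, ha, rfl⟩ := hx
      have := (Finset.mem_filter.1 ha).2
      linarith

lemma inv_sq_tsum : ∑' k : ℕ, (1 : ℝ) / (k : ℝ) ^ 2 ≤ 2 := by
  rw [hasSum_zeta_two.tsum_eq]
  have h1 := Real.pi_lt_d2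
  have h2 := Real.pi_pos
  nlinarith

/-- inverse squares of the distances to a point of a separated set -/
theorem sep_inv_sq {F : Finset ℝ} {d x0 : ℝ} (hd : 0 < d)
    (hsep : ∀ x ∈ F, ∀ y ∈ F, x ≠ y → d ≤ |x - y|) (h0 : ∀ x ∈ F, d ≤ |x - x0|) :
    ∑ x ∈ F, 1 / (x - x0) ^ 2 ≤ 4 / d ^ 2 := by
  have hsum : Summable (fun k : ℕ => 1 / d ^ 2 * (1 / (k : ℝ) ^ 2)) :=
    (Real.summable_one_div_nat_pow.2 one_lt_two).mul_left _
  have key := sep_sum (F := F) (x0 := x0) hd hsep (φ := fun k : ℕ => 1 / d ^ 2 * (1 / (k : ℝ) ^ 2))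
    (fun k => by positivity) hsum (f := fun x => 1 / (x - x0) ^ 2) (by
      intro x hx
      have h1 := h0 x hx
      set k := ⌊|x - x0| / d⌋₊ with hk
      have hk1 : 1 ≤ k := by
        rw [hk, Nat.one_le_floor_iff, le_div_iff₀ hd]
        linarith
      have hk2 : (k : ℝ) * d ≤ |x - x0| := by
        rw [← le_div_iff₀ hd]
        exact Nat.floor_le (by positivity)
      have hk3 : (1 : ℝ) ≤ k := by exact_mod_cast hk1
      have hk4 : 0 < (k : ℝ) * d := by positivity
      calc 1 / (x - x0) ^ 2 ≤ 1 / ((k : ℝ) * d) ^ 2 := by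
            apply one_div_le_one_div_of_le (by positivity)
            rw [← sq_abs (x - x0)]
            exact pow_le_pow_left₀ hk4.le hk2 2
        _ = _ := by rw [mul_pow]; field_simp)
  refine key.trans ?_
  rw [tsum_mul_left]
  have := inv_sq_tsum
  have hd2 : 0 < 1 / d ^ 2 := by positivity
  calc 2 * (1 / d ^ 2 * ∑' k : ℕ, 1 / (k : ℝ) ^ 2) ≤ 2 * (1 / d ^ 2 * 2) := by gcongr
    _ = _ := by ring

lemma arctan_step {a b : ℝ} (h0 : 0 ≤ a) (hab : a ≤ b) :
    (b - a) / (1 + b ^ 2) ≤ Real.arctan b - Real.arctan a := by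
  rcases hab.eq_or_lt with rfl | hlt
  · simp
  obtain ⟨c, hc, hc2⟩ := exists_hasDerivAt_eq_slope Real.arctan (fun x => 1 / (1 + x ^ 2)) hlt
    Real.continuous_arctan.continuousOn (fun x _ => by
      simpa [one_div] using Real.hasDerivAt_arctan x)
  have h1 : Real.arctan b - Real.arctan a = (b - a) / (1 + c ^ 2) := by
    rw [eq_div_iff (by linarith)] at hc2
    rw [← hc2]
    ring
  rw [h1]
  have hc3 : c ^ 2 ≤ b ^ 2 := pow_le_pow_left₀ (by linarith [hc.1]) hc.2.le 2
  exact div_le_div_of_nonneg_left (by linarith) (by positivity) (by linarith)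

lemma cauchy_tsum {d : ℝ} (hd : 0 < d) (hd1 : d ≤ 1) :
    Summable (fun k : ℕ => 1 / (1 + ((k : ℝ) * d) ^ 2)) ∧
    ∑' k : ℕ, 1 / (1 + ((k : ℝ) * d) ^ 2) ≤ 3 / d := by
  have hb : ∀ n : ℕ, ∑ k ∈ range n, 1 / (1 + ((k : ℝ) * d) ^ 2) ≤ 3 / d := by
    have h1 : ∀ n : ℕ, ∑ k ∈ range (n + 1), 1 / (1 + ((k : ℝ) * d) ^ 2) ≤
        1 + Real.arctan (n * d) / d := by
      intro n
      induction n with
      | zero => simp
      | succ n ih =>
        rw [Finset.sum_range_succ]
        have h2 := arctan_step (a := (n : ℝ) * d) (b := ((n + 1 : ℕ) : ℝ) * d) (by positivity) (by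
          push_cast; nlinarith)
        have h3 : ((n + 1 : ℕ) : ℝ) * d - n * d = d := by push_cast; ring
        rw [h3, div_le_iff₀ (by positivity)] at h2
        have h4 : 1 / (1 + (((n + 1 : ℕ) : ℝ) * d) ^ 2) ≤
            (Real.arctan (((n + 1 : ℕ) : ℝ) * d) - Real.arctan (n * d)) / d := by
          rw [div_le_div_iff₀ (by positivity) hd]
          linarith
        rw [sub_div] at h4
        linarith
    intro n
    rcases n with _ | n
    · simp; positivity
    · refine (h1 n).trans ?_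
      have h2 := (Real.arctan_lt_pi_div_two (n * d)).le
      have h3 := Real.pi_lt_d2
      have h4 : Real.arctan (n * d) / d ≤ 1.6 / d := by gcongr; linarith
      have h5 : 1 ≤ 1 / d := by rw [le_div_iff₀ hd]; linarith
      have h6 : 1 / d + 1.6 / d ≤ 3 / d := by rw [← add_div]; gcongr; norm_num
      linarith
  have hs : Summable (fun k : ℕ => 1 / (1 + ((k : ℝ) * d) ^ 2)) :=
    summable_of_sum_range_le (fun k => by positivity) hb
  exact ⟨hs, hs.tsum_le_of_sum_range_le hb⟩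

/-- sum of the Cauchy kernel over a separated set -/
theorem sep_cauchy {F : Finset ℝ} {d x0 : ℝ} (hd : 0 < d) (hd1 : d ≤ 1)
    (hsep : ∀ x ∈ F, ∀ y ∈ F, x ≠ y → d ≤ |x - y|) :
    ∑ x ∈ F, 1 / (1 + (x - x0) ^ 2) ≤ 6 / d := by
  obtain ⟨hs, hb⟩ := cauchy_tsum hd hd1
  have key := sep_sum (F := F) (x0 := x0) hd hsep (φ := fun k : ℕ => 1 / (1 + ((k : ℝ) * d) ^ 2))
    (fun k => by positivity) hs (f := fun x => 1 / (1 + (x - x0) ^ 2)) (by
      intro x hx
      have hk2 : (⌊|x - x0| / d⌋₊ : ℝ) * d ≤ |x - x0| := by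
        rw [← le_div_iff₀ hd]
        exact Nat.floor_le (by positivity)
      apply one_div_le_one_div_of_le (by positivity)
      rw [← sq_abs (x - x0)]
      have := pow_le_pow_left₀ (by positivity) hk2 2
      linarith)
  refine key.trans ?_
  calc 2 * ∑' k : ℕ, 1 / (1 + ((k : ℝ) * d) ^ 2) ≤ 2 * (3 / d) := by gcongr
    _ = _ := by ring

/-- a separated set in an interval has few elements -/
theorem sep_card {F : Finset ℝ} {d a b : ℝ} (hd : 0 < d) (hab : a ≤ b)
    (hsep : ∀ x ∈ F, ∀ y ∈ F, x ≠ y → d ≤ |x - y|) (hF : ∀ x ∈ F, a ≤ x ∧ x ≤ b) :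
    (F.card : ℝ) ≤ (b - a) / d + 1 := by
  classical
  have hinj : Set.InjOn (fun x : ℝ => ⌊(x - a) / d⌋₊) (F : Set ℝ) := by
    intro x hx y hy hxy
    by_contra hne
    have hx0 := (hF x hx).1
    have hy0 := (hF y hy).1
    have h1 := hsep x hx y hy hne
    simp only at hxy
    have hxa : 0 ≤ (x - a) / d := by apply div_nonneg <;> linarith
    have hya : 0 ≤ (y - a) / d := by apply div_nonneg <;> linarith
    have b1 := Nat.floor_le hxa
    have b2 := Nat.lt_floor_add_one ((x - a) / d)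
    have b3 := Nat.floor_le hya
    have b4 := Nat.lt_floor_add_one ((y - a) / d)
    rw [← hxy] at b3 b4
    have h2 : |(x - a) / d - (y - a) / d| < 1 := by rw [abs_lt]; constructor <;> linarith
    have h3 : (x - a) / d - (y - a) / d = (x - y) / d := by ring
    rw [h3, abs_div, abs_of_pos hd, div_lt_one hd] at h2
    linarith
  have h1 : F.card ≤ (range (⌊(b - a) / d⌋₊ + 1)).card := by
    apply Finset.card_le_card_of_injOn _ _ hinj
    intro x hx
    simp only [coe_range, Set.mem_Iio, Nat.lt_add_one_iff]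
    apply Nat.floor_le_floor
    have := (hF x hx).2
    gcongr
  rw [Finset.card_range] at h1
  have h2 : (F.card : ℝ) ≤ (⌊(b - a) / d⌋₊ : ℝ) + 1 := by exact_mod_cast h1
  have h3 := Nat.floor_le (show 0 ≤ (b - a) / d by apply div_nonneg <;> linarith)
  linarith

end Pool.Agent.N806.AH
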