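import Pool.Agent.N806.AH.DDm
import Pool.Agent.N806.AH.Coef
import Pool.Agent.N806.AH.Sep

/-! The mean square of `1/ζ'(ρ)` over the good zeros. -/

set_option autoImplicit false

open Complex Filter Topology Set MeasureTheory Metric

namespace Pool.Agent.N806.AH

open H345 H345.Chi

lemma LH.mono {y t0 r r' d ε : ℝ} (h : LH y t0 r d ε) (hr : r' ≤ r) : LH y t0 r' d ε := by
  obtain ⟨h1, h2, c, hc, h3⟩ := h
  exact ⟨fun γ hγ h => h1 γ hγ (h.trans hr), fun γ hγ γ' hγ' h h' => h2 γ hγ γ' hγ' (h.trans hr) (h'.trans hr),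
    c, hc, fun γ hγ h => h3 γ hγ (h.trans hr)⟩

/-- coefficients by local mean squares -/
lemma coefL (hRH : RiemannHypothesis) {Cr : ℝ} (hCr : 1 ≤ Cr) : ∃ CA L1 : ℝ, 1 ≤ CA ∧ 1 ≤ L1 ∧
    ∀ L : ℝ, L1 ≤ L → ∀ γ ∈ Zo, Real.exp L ≤ γ → γ ≤ Cr * Real.exp L → ∀ y d ε r : ℝ,
    1 / (8 * L) ≤ d → d ≤ 1 / L → 1 ≤ r → LH y γ r d ε →
    ‖aa γ‖ ^ 2 ≤ CA / L * ∫ v in (-(d / 2))..(d / 2), ‖(riemannZeta (⟨1 / 2 + 1 / L, γ + v⟩ : ℂ))⁻¹‖ ^ 2 := by
  obtain ⟨C, hC, hco⟩ := coef hRH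
  have hlog0 : 0 ≤ Real.log Cr := Real.log_nonneg hCr
  refine ⟨32 * Real.exp (1 / 2 + 128 + 4 * C) ^ 2, Real.log Cr + 10, by
    have : 1 ≤ Real.exp (1 / 2 + 128 + 4 * C) := Real.one_le_exp (by linarith)
    nlinarith, by linarith, fun L hL γ hγ h1 h2 y d ε r hd hd1 hr hLH => ?_⟩
  have hL0 : 0 < L := by linarith
  have hL10 : 10 ≤ L := by linarith
  have hd0 : 0 < d := lt_of_lt_of_le (by positivity) hd
  have h10 : 1 / L ≤ 1 / 10 := one_div_le_one_div_of_le (by norm_num) hL10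
  have hLH1 := hLH.mono hr
  have hγ4 : 4 ≤ γ := by
    have := Real.add_one_le_exp L
    linarith
  have key := hco γ hγ hγ4 d (1 / L) hd0 (by linarith) (by positivity) h10
    hLH1.sim hLH1.sp
  set J := ∫ v in (-(d / 2))..(d / 2), ‖(riemannZeta (⟨1 / 2 + 1 / L, γ + v⟩ : ℂ))⁻¹‖ ^ 2 with hJ
  have hJ0 : 0 ≤ J := by
    rw [hJ]
    apply intervalIntegral.integral_nonneg (by linarith)
    intro v _; positivity
  set E := Real.exp (1 / 2 + 128 + 4 * C) with hE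
  have hlγ : Real.log γ ≤ 2 * L := by
    calc Real.log γ ≤ Real.log (Cr * Real.exp L) := Real.log_le_log (by linarith) h2
      _ = Real.log Cr + L := by rw [Real.log_mul (by linarith) (Real.exp_pos _).ne', Real.log_exp]
      _ ≤ 2 * L := by linarith
  have hlγ0 : 0 ≤ Real.log γ := Real.log_nonneg (by linarith)
  have h3 : (1 / L + d) ≤ 2 / L := by
    have : (2 : ℝ) / L = 1 / L + 1 / L := by ring
    linarith
  have hdL : 1 ≤ 8 * L * d := by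
    rw [div_le_iff₀ (by positivity)] at hd
    linarith
  have h4 : 2 * (1 / L) ^ 2 / d ^ 2 ≤ 128 := by
    rw [div_le_iff₀ (by positivity), one_div, inv_pow]
    have h5 : 1 ≤ (8 * L * d) ^ 2 := one_le_pow₀ hdL
    have h6 : 2 * (L ^ 2)⁻¹ = 2 * (L ^ 2)⁻¹ * 1 := by ring
    rw [h6]
    calc 2 * (L ^ 2)⁻¹ * 1 ≤ 2 * (L ^ 2)⁻¹ * (8 * L * d) ^ 2 := by gcongr
      _ = 128 * d ^ 2 := by field_simp; ring
  have h5 : Real.exp (1 / 2 + 2 * (1 / L) ^ 2 / d ^ 2 + C * Real.log γ * (1 / L + d)) ≤ E := by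
    rw [hE]
    apply Real.exp_le_exp.2
    have : C * Real.log γ * (1 / L + d) ≤ C * (2 * L) * (2 / L) := by gcongr
    have h6 : C * (2 * L) * (2 / L) = 4 * C := by field_simp; ring
    linarith
  have h6 : ((1 / L + d) * Real.exp (1 / 2 + 2 * (1 / L) ^ 2 / d ^ 2 + C * Real.log γ * (1 / L + d))) ^ 2 ≤
      (2 / L * E) ^ 2 := by gcongr
  have h7 : ‖aa γ‖ ^ 2 * d ≤ (2 / L * E) ^ 2 * J := key.trans (by gcongr)
  have h8 : ‖aa γ‖ ^ 2 ≤ 8 * L * ((2 / L * E) ^ 2 * J) := by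
    have h9 : ‖aa γ‖ ^ 2 * 1 ≤ ‖aa γ‖ ^ 2 * (8 * L * d) := by gcongr
    nlinarith
  refine h8.trans (le_of_eq ?_)
  field_simp
  ring

lemma card_nonneg_sum {F : Finset ℝ} {f : ℝ → ℝ} (h : ∀ x ∈ F, 0 ≤ f x) : 0 ≤ ∑ x ∈ F, f x :=
  Finset.sum_nonneg h

/-- squared version of `afe` -/
lemma afe_sq (hRH : RiemannHypothesis) (y : ℝ) {Cr : ℝ} (hCr : 1 ≤ Cr) : ∃ K C L0 : ℝ, 1 ≤ K ∧ 1 ≤ C ∧
    1 ≤ L0 ∧ ∀ L : ℝ, L0 ≤ L → ∀ t0 d ε : ℝ, Real.exp L ≤ t0 → t0 ≤ Cr * Real.exp L →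
    1 / (8 * L) ≤ d → d ≤ 1 → 0 ≤ ε → LH y t0 (K * L) d ε →
    ‖(riemannZeta ⟨1 / 2 + 1 / L, t0⟩)⁻¹‖ ^ 2 ≤ 12 * ‖DD (1 / L) L t0‖ ^ 2 + 3 * C ^ 2 +
      72 * ε ^ 2 / d * ∑ γ ∈ ZF (t0 - K * L) (t0 + K * L), Real.exp (-(γ - t0) ^ 2) * ‖aa γ‖ ^ 2 := by
  obtain ⟨K, C, L0, hK, hC, hL0, hafe⟩ := afe hRH y hCr
  refine ⟨K + 3, C, L0, by linarith, hC, hL0, fun L hL t0 d ε h1 h2 hd hd1 hε hLH => ?_⟩
  have hL1 : 1 ≤ L := hL0.trans hL
  have hd0 : 0 < d := lt_of_lt_of_le (by positivity) hd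
  have hr : K * L + 3 ≤ (K + 3) * L := by nlinarith
  have key := hafe L hL t0 d ε h1 h2 hd hd1 hε (hLH.mono hr)
  set S1 := ∑ γ ∈ ZF (t0 - (K * L + 3)) (t0 + (K * L + 3)), Real.exp (-(γ - t0) ^ 2) * ‖aa γ‖ with hS1
  set F := ZF (t0 - (K + 3) * L) (t0 + (K + 3) * L) with hF
  set S2 := ∑ γ ∈ F, Real.exp (-(γ - t0) ^ 2) * ‖aa γ‖ ^ 2 with hS2
  have hS1' : S1 ≤ ∑ γ ∈ F, Real.exp (-(γ - t0) ^ 2) * ‖aa γ‖ := by
    rw [hS1]
    apply Finset.sum_le_sum_of_subset_of_nonneg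
    · intro γ hγ
      rw [mem_ZF] at hγ
      rw [hF, mem_ZF]
      exact ⟨hγ.1, by linarith [hγ.2.1], by linarith [hγ.2.2]⟩
    · intro γ _ _
      positivity
  have hS10 : 0 ≤ S1 := Finset.sum_nonneg fun γ _ => by positivity
  have hCS : (∑ γ ∈ F, Real.exp (-(γ - t0) ^ 2) * ‖aa γ‖) ^ 2 ≤
      (∑ γ ∈ F, Real.exp (-(γ - t0) ^ 2)) * S2 := by
    apply Finset.sum_sq_le_sum_mul_sum_of_sq_eq_mul
    · intro γ _; positivity
    · intro γ _; positivity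
    · intro γ _; ring
  have hE : ∑ γ ∈ F, Real.exp (-(γ - t0) ^ 2) ≤ 6 / d := by
    have hsep := sep_cauchy (F := F) (d := d) (x0 := t0) hd0 hd1 (by
      intro x hx x' hx' hne
      rw [hF, mem_ZF] at hx hx'
      refine hLH.sp x hx.1 x' hx'.1 ?_ ?_ hne
      · rw [abs_le]; constructor <;> linarith [hx.2.1, hx.2.2]
      · rw [abs_le]; constructor <;> linarith [hx'.2.1, hx'.2.2])
    refine le_trans (Finset.sum_le_sum fun γ _ => ?_) hsep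
    exact exp_neg_le_inv (by positivity)
  have hS20 : 0 ≤ S2 := Finset.sum_nonneg fun γ _ => by positivity
  have hS1sq : S1 ^ 2 ≤ 6 / d * S2 := by
    calc S1 ^ 2 ≤ (∑ γ ∈ F, Real.exp (-(γ - t0) ^ 2) * ‖aa γ‖) ^ 2 := by gcongr
      _ ≤ _ := hCS
      _ ≤ _ := by gcongr
  set Z := ‖(riemannZeta ⟨1 / 2 + 1 / L, t0⟩)⁻¹‖ with hZ
  set A := ‖DD (1 / L) L t0‖ with hA
  have hZ0 : 0 ≤ Z := norm_nonneg _
  have hA0 : 0 ≤ A := norm_nonneg _
  calc Z ^ 2 ≤ (2 * A + C + 2 * ε * S1) ^ 2 := by gcongr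
    _ ≤ 3 * ((2 * A) ^ 2 + C ^ 2 + (2 * ε * S1) ^ 2) := by
        nlinarith [sq_nonneg (2 * A - C), sq_nonneg (2 * A - 2 * ε * S1), sq_nonneg (C - 2 * ε * S1)]
    _ = 12 * A ^ 2 + 3 * C ^ 2 + 12 * ε ^ 2 * S1 ^ 2 := by ring
    _ ≤ 12 * A ^ 2 + 3 * C ^ 2 + 12 * ε ^ 2 * (6 / d * S2) := by gcongr
    _ = _ := by ring

/-- crude bound on the line `1/2 + 1/L` -/
lemma crudeL (hRH : RiemannHypothesis) {Cr : ℝ} (hCr : 1 ≤ Cr) : ∃ CB L1 : ℝ, 1 ≤ CB ∧ 1 ≤ L1 ∧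
    ∀ L : ℝ, L1 ≤ L → ∀ t : ℝ, Real.exp L / 2 ≤ t → t ≤ 2 * Cr * Real.exp L →
    ‖(riemannZeta (⟨1 / 2 + 1 / L, t⟩ : ℂ))⁻¹‖ ^ 2 ≤ Real.exp (CB * L ^ 2) := by
  obtain ⟨C, hC, hcr⟩ := crude hRH
  have hlog0 : 0 ≤ Real.log (2 * Cr) := Real.log_nonneg (by linarith)
  refine ⟨8 * C, Real.log (2 * Cr) + 10, by linarith, by linarith, fun L hL t h1 h2 => ?_⟩
  have hL0 : 0 < L := by linarith
  have hL10 : 10 ≤ L := by linarith
  have h10 : 1 / L ≤ 1 / 10 := one_div_le_one_div_of_le (by norm_num) hL10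
  have ht3 : 3 ≤ t := by
    have := Real.add_one_le_exp L
    linarith
  have h0L : 0 < 1 / L := by positivity
  have key := (hcr t ht3 (1 / 2 + 1 / L) (1 / L) (by linarith) (by linarith) h0L
    (by linarith) (by
      intro γ _ _
      have := Complex.abs_re_le_norm ((⟨1 / 2 + 1 / L, t⟩ : ℂ) - (1 / 2 + (γ : ℂ) * I))
      refine le_trans ?_ this
      simp [abs_of_pos hL0])).2
  have hlt : Real.log t ≤ 2 * L := by
    calc Real.log t ≤ Real.log (2 * Cr * Real.exp L) := Real.log_le_log (by linarith) h2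
      _ = Real.log (2 * Cr) + L := by rw [Real.log_mul (by positivity) (Real.exp_pos _).ne', Real.log_exp]
      _ ≤ 2 * L := by linarith
  have hlt0 : 0 ≤ Real.log t := Real.log_nonneg (by linarith)
  have hlL : Real.log (1 / (1 / L)) ≤ L - 1 := by
    rw [one_div_one_div]
    exact Real.log_le_sub_one_of_pos hL0
  have hlL0 : 0 ≤ Real.log (1 / (1 / L)) := by
    rw [one_div_one_div]
    exact Real.log_nonneg (by linarith)
  calc _ ≤ Real.exp (C * Real.log t * (1 + Real.log (1 / (1 / L)))) ^ 2 := by gcongr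
    _ = Real.exp (2 * (C * Real.log t * (1 + Real.log (1 / (1 / L))))) := by
        rw [← Real.exp_nat_mul]; norm_num
    _ ≤ _ := by
        apply Real.exp_le_exp.2
        have : C * Real.log t * (1 + Real.log (1 / (1 / L))) ≤ C * (2 * L) * (1 + (L - 1)) := by gcongr
        nlinarith

lemma exp_abs_le (x : ℝ) : Real.exp (|x| - x ^ 2 / 2) ≤ 12 * (1 / (1 + x ^ 2)) := by
  have h1 : |x| - x ^ 2 / 2 ≤ 1 + -(x ^ 2 / 4) := by
    have : x ^ 2 = |x| ^ 2 := (sq_abs x).symm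
    rw [this]
    nlinarith [sq_nonneg (|x| - 2)]
  have h2 : Real.exp (-(x ^ 2 / 4)) ≤ 4 * (1 / (1 + x ^ 2)) := by
    refine (exp_neg_le_inv (by positivity)).trans ?_
    rw [mul_one_div, div_le_div_iff₀ (by positivity) (by positivity)]
    nlinarith [sq_nonneg x]
  have h3 : Real.exp 1 ≤ 3 := by
    have := Real.exp_one_lt_d9
    linarith
  calc Real.exp (|x| - x ^ 2 / 2) ≤ Real.exp (1 + -(x ^ 2 / 4)) := Real.exp_le_exp.2 h1
    _ = Real.exp 1 * Real.exp (-(x ^ 2 / 4)) := Real.exp_add _ _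
    _ ≤ 3 * (4 * (1 / (1 + x ^ 2))) := by gcongr
    _ = _ := by ring

/-- integrals over disjoint small intervals -/
lemma sum_int_le {F : Finset ℝ} {g : ℝ → ℝ} (hg : Continuous g) (hg0 : ∀ x, 0 ≤ g x) {d A B : ℝ}
    (hd : 0 < d) (hAB : A ≤ B)
    (hsep : ∀ x ∈ F, ∀ x' ∈ F, x ≠ x' → d ≤ |x - x'|) (hF : ∀ x ∈ F, A ≤ x - d / 2 ∧ x + d / 2 ≤ B) :
    ∑ x ∈ F, ∫ v in (-(d / 2))..(d / 2), g (x + v) ≤ ∫ t in A..B, g t := by
  have h1 : ∀ x ∈ F, ∫ v in (-(d / 2))..(d / 2), g (x + v) = ∫ t in Ioc (x - d / 2) (x + d / 2), g t := by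
    intro x _
    rw [intervalIntegral.integral_comp_add_left (fun t => g t), intervalIntegral.integral_of_le (by linarith)]
    rfl
  rw [Finset.sum_congr rfl h1, intervalIntegral.integral_of_le hAB,
    ← integral_biUnion_finset F (fun x _ => measurableSet_Ioc) ?_ ?_]
  · apply setIntegral_mono_set
    · exact hg.integrableOn_Ioc
    · exact Eventually.of_forall fun x => hg0 x
    · apply HasSubset.Subset.eventuallyLE
      intro t ht
      rw [mem_iUnion₂] at ht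
      obtain ⟨x, hx, h2⟩ := ht
      have := hF x hx
      exact ⟨by linarith [h2.1], by linarith [h2.2]⟩
  · intro x hx x' hx' hne
    simp only [Function.onFun]
    rw [Set.disjoint_left]
    intro t h2 h3
    have h4 := hsep x hx x' hx' hne
    have h5 : |x - x'| < d := by
      rw [abs_lt]
      constructor <;> linarith [h2.1, h2.2, h3.1, h3.2]
    linarith
  · intro x _
    exact hg.integrableOn_Ioc

lemma line_im (σ t : ℝ) : (⟨σ, t⟩ : ℂ).im = t := rfl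

/-- local step of the absorbing argument -/
lemma abs_local (hRH : RiemannHypothesis) (y : ℝ) {Cr : ℝ} (hCr : 1 ≤ Cr) : ∃ K C CA L0 : ℝ, 1 ≤ K ∧
    1 ≤ C ∧ 1 ≤ CA ∧ 1 ≤ L0 ∧ ∀ L : ℝ, L0 ≤ L → ∀ γ ∈ Zo, Real.exp L ≤ γ - 1 →
    γ + 1 ≤ Cr * Real.exp L → ∀ d ε : ℝ, 1 / (8 * L) ≤ d → d ≤ 1 / L → 0 ≤ ε →
    (∀ t, |t - γ| ≤ 1 → LH y t (K * L) d ε) → ∀ G : Finset ℝ,
    (∀ γ' ∈ Zo, |γ' - γ| ≤ K * L + 1 → γ' ∈ G) →
    ‖aa γ‖ ^ 2 ≤ CA / L * (12 * (∫ v in (-(d / 2))..(d / 2), ‖DD (1 / L) L (γ + v)‖ ^ 2) + 3 * C ^ 2 * d +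
      144 * ε ^ 2 * ∑ γ' ∈ G, Real.exp (-((γ' - γ) ^ 2 / 2)) * ‖aa γ'‖ ^ 2) := by
  obtain ⟨K, C, L0, hK, hC, hL0, hsq⟩ := afe_sq hRH y hCr
  obtain ⟨CA, L1, hCA, hL1, hco⟩ := coefL hRH hCr
  refine ⟨K, C, CA, max L0 L1, hK, hC, hCA, hL0.trans (le_max_left _ _),
    fun L hL γ hγ hγ1 hγ2 d ε hd hd1 hε hLH G hG => ?_⟩
  have hLL0 : L0 ≤ L := (le_max_left _ _).trans hL
  have hLL1 : L1 ≤ L := (le_max_right _ _).trans hL
  have hL' : 1 ≤ L := hL0.trans hLL0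
  have hLpos : 0 < L := by linarith
  have hd0 : 0 < d := lt_of_lt_of_le (by positivity) hd
  have h1L : 1 / L ≤ 1 := by rw [div_le_one hLpos]; exact hL'
  have hd11 : d ≤ 1 := hd1.trans h1L
  have hKL : 1 ≤ K * L := by nlinarith
  have hLHγ := hLH γ (by simp)
  have key := hco L hLL1 γ hγ (by linarith) (by linarith) y d ε (K * L) hd hd1 hKL hLHγ
  refine key.trans ?_
  apply mul_le_mul_of_nonneg_left _ (by positivity)
  set Sg := ∑ γ' ∈ G, Real.exp (-((γ' - γ) ^ 2 / 2)) * ‖aa γ'‖ ^ 2 with hSg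
  have hSg0 : 0 ≤ Sg := Finset.sum_nonneg fun _ _ => by positivity
  have hpt : ∀ v ∈ Icc (-(d / 2)) (d / 2), ‖(riemannZeta (⟨1 / 2 + 1 / L, γ + v⟩ : ℂ))⁻¹‖ ^ 2 ≤
      12 * ‖DD (1 / L) L (γ + v)‖ ^ 2 + (3 * C ^ 2 + 144 * ε ^ 2 / d * Sg) := by
    intro v hv
    have hv1 : |v| ≤ 1 / 2 := by rw [abs_le]; constructor <;> linarith [hv.1, hv.2]
    have h1 := hsq L hLL0 (γ + v) d ε (by linarith [(abs_le.1 hv1).1]) (by linarith [(abs_le.1 hv1).2]) hd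
      hd11 hε (hLH (γ + v) (by rw [add_sub_cancel_left]; linarith))
    have h2 : ∑ γ' ∈ ZF (γ + v - K * L) (γ + v + K * L), Real.exp (-(γ' - (γ + v)) ^ 2) * ‖aa γ'‖ ^ 2 ≤
        2 * Sg := by
      rw [hSg, Finset.mul_sum]
      refine le_trans (Finset.sum_le_sum (g := fun γ' => 2 * (Real.exp (-((γ' - γ) ^ 2 / 2)) * ‖aa γ'‖ ^ 2))
        fun γ' _ => ?_) (Finset.sum_le_sum_of_subset_of_nonneg ?_ ?_)
      · rw [← mul_assoc]
        apply mul_le_mul_of_nonneg_right _ (by positivity)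
        have h3 : Real.exp (1 / 4) ≤ 2 := by
          have h4 : Real.exp (1 / 4) ≤ Real.exp (Real.log 2) := by
            apply Real.exp_le_exp.2
            have := Real.log_two_gt_d9
            linarith
          rwa [Real.exp_log (by norm_num)] at h4
        calc Real.exp (-(γ' - (γ + v)) ^ 2) ≤ Real.exp (1 / 4 + -((γ' - γ) ^ 2 / 2)) := by
              apply Real.exp_le_exp.2
              have h5 : v ^ 2 ≤ 1 / 4 := by
                rw [← sq_abs]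
                nlinarith [abs_nonneg v]
              nlinarith [sq_nonneg (γ' - γ - 2 * v)]
          _ = Real.exp (1 / 4) * Real.exp (-((γ' - γ) ^ 2 / 2)) := Real.exp_add _ _
          _ ≤ _ := by gcongr
      · intro γ' hγ'
        rw [mem_ZF] at hγ'
        apply hG γ' hγ'.1
        rw [abs_le]
        constructor <;> linarith [hγ'.2.1, hγ'.2.2, (abs_le.1 hv1).1, (abs_le.1 hv1).2]
      · intro _ _ _
        positivity
    refine h1.trans ?_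
    rw [add_assoc]
    have h3 : 72 * ε ^ 2 / d * ∑ γ' ∈ ZF (γ + v - K * L) (γ + v + K * L),
        Real.exp (-(γ' - (γ + v)) ^ 2) * ‖aa γ'‖ ^ 2 ≤ 72 * ε ^ 2 / d * (2 * Sg) := by gcongr
    have h4 : 72 * ε ^ 2 / d * (2 * Sg) = 144 * ε ^ 2 / d * Sg := by ring
    linarith
  have hcontD : Continuous fun v => ‖DD (1 / L) L (γ + v)‖ ^ 2 := by
    have := DD_cont (κ := 1 / L) (by positivity) L
    fun_prop
  have hcontf : ContinuousOn (fun v : ℝ => ‖(riemannZeta (⟨1 / 2 + 1 / L, γ + v⟩ : ℂ))⁻¹‖ ^ 2)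
      (uIcc (-(d / 2)) (d / 2)) := by
    rw [uIcc_of_le (by linarith)]
    apply ContinuousOn.pow
    apply ContinuousOn.norm
    apply inv_cont_line hRH (f := fun v : ℝ => (⟨1 / 2 + 1 / L, γ + v⟩ : ℂ))
    · have : (fun v : ℝ => (⟨1 / 2 + 1 / L, γ + v⟩ : ℂ)) = fun v : ℝ => ((1 / 2 + 1 / L : ℝ) : ℂ) +
          ((γ + v : ℝ) : ℂ) * I := by
        funext v; rw [mk_line]
      rw [this]; fun_prop
    · intro v hv
      have := Real.exp_pos L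
      have := hv.1
      show 0 < γ + v
      linarith
    · intro v _
      show 1 / 2 + 1 / L ≠ 1 / 2
      have : 0 < 1 / L := by positivity
      linarith
  calc ∫ v in (-(d / 2))..(d / 2), ‖(riemannZeta (⟨1 / 2 + 1 / L, γ + v⟩ : ℂ))⁻¹‖ ^ 2
      ≤ ∫ v in (-(d / 2))..(d / 2), (12 * ‖DD (1 / L) L (γ + v)‖ ^ 2 +
        (3 * C ^ 2 + 144 * ε ^ 2 / d * Sg)) := by
        apply intervalIntegral.integral_mono_on (by linarith) hcontf.intervalIntegrable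
        · exact ((hcontD.const_mul 12).add continuous_const).intervalIntegrable _ _
        · exact hpt
    _ = 12 * (∫ v in (-(d / 2))..(d / 2), ‖DD (1 / L) L (γ + v)‖ ^ 2) + 3 * C ^ 2 * d +
        144 * ε ^ 2 * Sg := by
        rw [intervalIntegral.integral_add ((hcontD.const_mul 12).intervalIntegrable _ _)
          (continuous_const.intervalIntegrable _ _), intervalIntegral.integral_const_mul,
          intervalIntegral.integral_const]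
        rw [smul_eq_mul]
        field_simp
        ring

end Pool.Agent.N806.AH
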