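import Pool.Agent.N806.AH.Abs

/-! The absorbing argument. -/

set_option autoImplicit false

open Complex Filter Topology Set MeasureTheory Metric

namespace Pool.Agent.N806.AH

open H345 H345.Chi

/-- crude bound for a coefficient -/
lemma coef_crude (hRH : RiemannHypothesis) {Cr : ℝ} (hCr : 1 ≤ Cr) : ∃ CA L1 : ℝ, 1 ≤ CA ∧ 1 ≤ L1 ∧
    ∀ L : ℝ, L1 ≤ L → ∀ γ ∈ Zo, Real.exp L ≤ γ → γ ≤ Cr * Real.exp L → ∀ y d ε r : ℝ,
    1 / (8 * L) ≤ d → d ≤ 1 / L → 1 ≤ r → LH y γ r d ε →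
    ‖aa γ‖ ^ 2 ≤ CA * Real.exp (CA * L ^ 2) := by
  obtain ⟨CA, L1, hCA, hL1, hco⟩ := coefL hRH hCr
  obtain ⟨CB, L2, hCB, hL2, hcr⟩ := crudeL hRH hCr
  refine ⟨max CA CB, max L1 L2, hCA.trans (le_max_left _ _), hL1.trans (le_max_left _ _),
    fun L hL γ hγ h1 h2 y d ε r hd hd1 hr hLH => ?_⟩
  have hLL1 : L1 ≤ L := (le_max_left _ _).trans hL
  have hLL2 : L2 ≤ L := (le_max_right _ _).trans hL
  have hL' : 1 ≤ L := hL1.trans hLL1
  have hLpos : 0 < L := by linarith
  have hd0 : 0 < d := lt_of_lt_of_le (by positivity) hd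
  have h1L : 1 / L ≤ 1 := by rw [div_le_one hLpos]; exact hL'
  have hexp : 2 ≤ Real.exp L := by
    have := Real.add_one_le_exp L
    linarith
  have key := hco L hLL1 γ hγ h1 h2 y d ε r hd hd1 hr hLH
  have hI : ∫ v in (-(d / 2))..(d / 2), ‖(riemannZeta (⟨1 / 2 + 1 / L, γ + v⟩ : ℂ))⁻¹‖ ^ 2 ≤
      Real.exp (CB * L ^ 2) * d := by
    have h3 := intervalIntegral.norm_integral_le_of_norm_le_const (a := -(d / 2)) (b := d / 2)
      (C := Real.exp (CB * L ^ 2))
      (f := fun v => ‖(riemannZeta (⟨1 / 2 + 1 / L, γ + v⟩ : ℂ))⁻¹‖ ^ 2) (by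
        intro v hv
        rw [uIoc_of_le (by linarith)] at hv
        rw [Real.norm_eq_abs, abs_of_nonneg (by positivity)]
        have hv1 := hv.1
        have hv2 := hv.2
        exact hcr L hLL2 (γ + v) (by linarith) (by nlinarith))
    rw [show d / 2 - -(d / 2) = d by ring, abs_of_pos hd0] at h3
    exact (le_abs_self _).trans h3
  calc ‖aa γ‖ ^ 2 ≤ CA / L * (Real.exp (CB * L ^ 2) * d) := key.trans (by gcongr)
    _ ≤ CA / 1 * (Real.exp (CB * L ^ 2) * 1) := by
        gcongr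
        linarith
    _ ≤ _ := by
        rw [div_one, mul_one]
        have : CB ≤ max CA CB := le_max_right _ _
        have : CA ≤ max CA CB := le_max_left _ _
        gcongr

theorem absorb (hRH : RiemannHypothesis) (y : ℝ) {Cr : ℝ} (hCr : 1 ≤ Cr) :
    ∃ K K' C L0 ε0 : ℝ, 1 ≤ K ∧ 1 ≤ K' ∧ 1 ≤ C ∧ 1 ≤ L0 ∧ 0 < ε0 ∧ ∀ L : ℝ, L0 ≤ L → ∀ D : ℝ → ℝ,
    (∀ s t, |D s - D t| ≤ |s - t|) → (∀ t, D t ≤ t - Real.exp L) →
    (∀ t, D t ≤ Cr * Real.exp L - t) → ∀ d ε : ℝ, 1 / (8 * L) ≤ d → d ≤ 1 / L → 0 ≤ ε → ε ≤ ε0 →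
    (∀ t, K * L ≤ D t → LH y t (K * L) d ε) → ∀ F : Finset ℝ, (∀ γ ∈ F, γ ∈ Zo ∧ K' * L ^ 2 ≤ D γ) →
    ∑ γ ∈ F, ‖aa γ‖ ^ 2 ≤ C * Real.exp L := by
  classical
  obtain ⟨Ka, C, CA, L1, hKa, hC, hCA, hL1, hloc⟩ := abs_local hRH y hCr
  obtain ⟨CB, L2, hCB, hL2, hcrude⟩ := coef_crude hRH hCr
  set K : ℝ := Ka + 1 with hK
  set K' : ℝ := CB + 2 * K + 4 with hK'
  set C6 : ℝ := CA * (96000 * Cr + 3 * C ^ 2 * Cr) with hC6
  have hC60 : 0 ≤ C6 := by positivity
  refine ⟨K, K', 2 * C6 + 9 * Cr * CB + 1, max (max L1 L2) 10, 1 / (500 * CA), by linarith, by linarith, by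
    have : 0 ≤ 9 * Cr * CB := by positivity
    linarith, by
    exact hL1.trans ((le_max_left _ _).trans (le_max_left _ _)), by positivity,
    fun L hL D hD1 hD2 hD3 d ε hd hdL hε hε0 hLH F hF => ?_⟩
  have hLL1 : L1 ≤ L := ((le_max_left _ _).trans (le_max_left _ _)).trans hL
  have hLL2 : L2 ≤ L := ((le_max_right _ _).trans (le_max_left _ _)).trans hL
  have hL10 : 10 ≤ L := (le_max_right _ _).trans hL
  have hLpos : 0 < L := by linarith
  have hd0 : 0 < d := lt_of_lt_of_le (by positivity) hd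
  have h1L : 1 / L ≤ 1 := by rw [div_le_one hLpos]; linarith
  have hd1 : d ≤ 1 := hdL.trans h1L
  have hexp : 11 ≤ Real.exp L := by
    have := Real.add_one_le_exp L
    linarith
  have hdL8 : 1 ≤ 8 * L * d := by
    rw [div_le_iff₀ (by positivity)] at hd
    linarith
  set G : Finset ℝ := (ZF (Real.exp L) (Cr * Real.exp L)).filter (fun γ => K * L + 1 ≤ D γ) with hG
  set G1 : Finset ℝ := G.filter (fun γ => 2 * (K * L) + 3 ≤ D γ) with hG1
  have hKL : 10 ≤ K * L := by nlinarith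
  have memG : ∀ γ, γ ∈ Zo → K * L + 1 ≤ D γ → γ ∈ G := by
    intro γ h1 h2
    rw [hG, Finset.mem_filter, mem_ZF]
    exact ⟨⟨h1, by linarith [hD2 γ], by linarith [hD3 γ]⟩, h2⟩
  have hGz : ∀ γ ∈ G, γ ∈ Zo ∧ Real.exp L ≤ γ ∧ γ ≤ Cr * Real.exp L ∧ K * L + 1 ≤ D γ := by
    intro γ h
    rw [hG, Finset.mem_filter, mem_ZF] at h
    exact ⟨h.1.1, h.1.2.1, h.1.2.2, h.2⟩
  have hG1z : ∀ γ ∈ G1, γ ∈ G ∧ 2 * (K * L) + 3 ≤ D γ := by
    intro γ h
    rw [hG1, Finset.mem_filter] at h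
    exact h
  have hsep : ∀ x ∈ G, ∀ x' ∈ G, x ≠ x' → d ≤ |x - x'| := by
    intro x hx x' hx' hne
    by_cases h : |x - x'| ≤ K * L
    · have h1 := hLH x (by linarith [(hGz x hx).2.2.2])
      exact h1.sp x (hGz x hx).1 x' (hGz x' hx').1 (by rw [sub_self, abs_zero]; linarith)
        (by rw [abs_sub_comm]; exact h) hne
    · push Not at h
      linarith
  have hsep1 : ∀ x ∈ G1, ∀ x' ∈ G1, x ≠ x' → d ≤ |x - x'| := fun x hx x' hx' hne =>
    hsep x (hG1z x hx).1 x' (hG1z x' hx').1 hne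
  -- the weight
  set M : ℝ := K' * L ^ 2 with hM
  set V : ℝ → ℝ := fun t => Real.exp (-(max (M - D t) 0)) with hV
  have hV0 : ∀ t, 0 < V t := fun t => Real.exp_pos _
  have hV1 : ∀ t, V t ≤ 1 := fun t => by
    simp only [hV]
    apply Real.exp_le_one_iff.2
    have := le_max_right (M - D t) 0
    linarith
  have hVlip : ∀ s t, V s ≤ V t * Real.exp |s - t| := by
    intro s t
    simp only [hV]
    rw [← Real.exp_add]
    apply Real.exp_le_exp.2
    have h1 := (abs_le.1 (hD1 s t)).2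
    have h2 : max (M - D t) 0 ≤ max (M - D s) 0 + |s - t| := by
      apply max_le
      · have := le_max_left (M - D s) 0
        linarith
      · have := le_max_right (M - D s) 0
        have := abs_nonneg (s - t)
        linarith
    linarith
  set S : ℝ := ∑ γ ∈ G, V γ * ‖aa γ‖ ^ 2 with hS
  set S1 : ℝ := ∑ γ ∈ G1, V γ * ‖aa γ‖ ^ 2 with hS1
  have hS1n : 0 ≤ S1 := Finset.sum_nonneg fun γ _ => mul_nonneg (hV0 γ).le (by positivity)
  have hSn : 0 ≤ S := Finset.sum_nonneg fun γ _ => mul_nonneg (hV0 γ).le (by positivity)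
  -- edge part
  have hSe : S ≤ S1 + 9 * Cr * CB * Real.exp L := by
    have h1 : S = S1 + ∑ γ ∈ G.filter (fun γ => ¬ (2 * (K * L) + 3 ≤ D γ)), V γ * ‖aa γ‖ ^ 2 := by
      rw [hS, hS1, hG1, Finset.sum_filter_add_sum_filter_not]
    rw [h1]
    apply add_le_add le_rfl
    have h2 : ∀ γ ∈ G.filter (fun γ => ¬ (2 * (K * L) + 3 ≤ D γ)), V γ * ‖aa γ‖ ^ 2 ≤
        Real.exp (-(M - 2 * (K * L) - 3)) * (CB * Real.exp (CB * L ^ 2)) := by
      intro γ hγ
      rw [Finset.mem_filter, not_le] at hγ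
      have h3 := hGz γ hγ.1
      have h4 := hcrude L hLL2 γ h3.1 h3.2.1 h3.2.2.1 y d ε (K * L) hd hdL (by linarith)
        (hLH γ (by linarith [h3.2.2.2]))
      have h5 : V γ ≤ Real.exp (-(M - 2 * (K * L) - 3)) := by
        simp only [hV]
        apply Real.exp_le_exp.2
        have := le_max_left (M - D γ) 0
        linarith [hγ.2]
      have := hV0 γ
      gcongr
    refine (Finset.sum_le_sum h2).trans ?_
    rw [Finset.sum_const, nsmul_eq_mul]
    have hcard : ((G.filter (fun γ => ¬ (2 * (K * L) + 3 ≤ D γ))).card : ℝ) ≤ 9 * L * Cr * Real.exp L := by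
      have h3 : ((G.filter (fun γ => ¬ (2 * (K * L) + 3 ≤ D γ))).card : ℝ) ≤ (G.card : ℝ) := by
        exact_mod_cast Finset.card_le_card (Finset.filter_subset _ _)
      have h4 := sep_card (F := G) hd0 (a := Real.exp L) (b := Cr * Real.exp L) (by nlinarith) hsep
        (fun x hx => ⟨(hGz x hx).2.1, (hGz x hx).2.2.1⟩)
      have h5 : (Cr * Real.exp L - Real.exp L) / d ≤ 8 * L * (Cr * Real.exp L) := by
        rw [div_le_iff₀ hd0]
        have h6 : Cr * Real.exp L * 1 ≤ Cr * Real.exp L * (8 * L * d) := by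
          apply mul_le_mul_of_nonneg_left hdL8
          positivity
        nlinarith
      have h6 : 1 ≤ L * Cr * Real.exp L := by
        have : 1 ≤ L * Cr := by nlinarith
        nlinarith
      nlinarith
    have hexp2 : L * (Real.exp (-(M - 2 * (K * L) - 3)) * Real.exp (CB * L ^ 2)) ≤ 1 := by
      have h3 : L ≤ Real.exp L := by linarith [Real.add_one_le_exp L]
      calc _ ≤ Real.exp L * (Real.exp (-(M - 2 * (K * L) - 3)) * Real.exp (CB * L ^ 2)) := by gcongr
        _ = Real.exp (L + (-(M - 2 * (K * L) - 3) + CB * L ^ 2)) := by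
            rw [Real.exp_add, Real.exp_add]
        _ ≤ 1 := by
            apply Real.exp_le_one_iff.2
            rw [hM, hK']
            nlinarith
    calc _ ≤ 9 * L * Cr * Real.exp L * (Real.exp (-(M - 2 * (K * L) - 3)) * (CB * Real.exp (CB * L ^ 2))) := by
          gcongr
      _ = 9 * Cr * CB * Real.exp L * (L * (Real.exp (-(M - 2 * (K * L) - 3)) * Real.exp (CB * L ^ 2))) := by
          ring
      _ ≤ 9 * Cr * CB * Real.exp L * 1 := by gcongr
      _ = _ := by ring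
  -- main part
  have hmain : S1 ≤ C6 * Real.exp L + 1 / 2 * S := by
    have h1 : ∀ γ ∈ G1, V γ * ‖aa γ‖ ^ 2 ≤ CA / L *
        (12 * (∫ v in (-(d / 2))..(d / 2), ‖DD (1 / L) L (γ + v)‖ ^ 2) + 3 * C ^ 2 * d +
        144 * ε ^ 2 * ∑ γ' ∈ G, (V γ' * ‖aa γ'‖ ^ 2) * Real.exp (|γ - γ'| - (γ - γ') ^ 2 / 2)) := by
      intro γ hγ
      have h2 := hG1z γ hγ
      have h3 := hGz γ h2.1
      have h4 := hD2 γ
      have h5 := hD3 γ
      have h6 := hloc L hLL1 γ h3.1 (by linarith) (by linarith) d ε hd hdL hε (by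
        intro t ht
        refine (hLH t ?_).mono (by rw [hK]; nlinarith)
        have := (abs_le.1 (hD1 γ t)).2
        rw [abs_sub_comm] at this
        linarith) G (by
        intro γ' h7 h8
        apply memG γ' h7
        have := (abs_le.1 (hD1 γ γ')).2
        rw [abs_sub_comm] at this
        have h9 : K * L = Ka * L + L := by rw [hK]; ring
        linarith)
      have hI0 : 0 ≤ ∫ v in (-(d / 2))..(d / 2), ‖DD (1 / L) L (γ + v)‖ ^ 2 :=
        intervalIntegral.integral_nonneg (by linarith) fun v _ => by positivity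
      have hVγ := hV1 γ
      have hVγ0 := hV0 γ
      calc V γ * ‖aa γ‖ ^ 2 ≤ V γ * (CA / L * (12 * (∫ v in (-(d / 2))..(d / 2), ‖DD (1 / L) L (γ + v)‖ ^ 2) +
            3 * C ^ 2 * d + 144 * ε ^ 2 * ∑ γ' ∈ G, Real.exp (-((γ' - γ) ^ 2 / 2)) * ‖aa γ'‖ ^ 2)) := by
            gcongr
        _ = CA / L * (V γ * (12 * (∫ v in (-(d / 2))..(d / 2), ‖DD (1 / L) L (γ + v)‖ ^ 2) +
            3 * C ^ 2 * d) + 144 * ε ^ 2 * ∑ γ' ∈ G, V γ * (Real.exp (-((γ' - γ) ^ 2 / 2)) * ‖aa γ'‖ ^ 2)) := by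
            rw [← Finset.mul_sum]
            ring
        _ ≤ CA / L * ((12 * (∫ v in (-(d / 2))..(d / 2), ‖DD (1 / L) L (γ + v)‖ ^ 2) +
            3 * C ^ 2 * d) + 144 * ε ^ 2 * ∑ γ' ∈ G, (V γ' * ‖aa γ'‖ ^ 2) *
              Real.exp (|γ - γ'| - (γ - γ') ^ 2 / 2)) := by
            apply mul_le_mul_of_nonneg_left _ (by positivity)
            apply add_le_add
            · exact mul_le_of_le_one_left (by positivity) hVγ
            · apply mul_le_mul_of_nonneg_left _ (by positivity)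
              apply Finset.sum_le_sum
              intro γ' hγ'
              have h7 := hVlip γ γ'
              calc V γ * (Real.exp (-((γ' - γ) ^ 2 / 2)) * ‖aa γ'‖ ^ 2)
                  ≤ (V γ' * Real.exp |γ - γ'|) * (Real.exp (-((γ' - γ) ^ 2 / 2)) * ‖aa γ'‖ ^ 2) := by gcongr
                _ = V γ' * ‖aa γ'‖ ^ 2 * (Real.exp |γ - γ'| * Real.exp (-((γ' - γ) ^ 2 / 2))) := by ring
                _ = _ := by
                    rw [← Real.exp_add]
                    congr 2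
                    ring
        _ = _ := by ring
    have h2 : S1 ≤ CA / L * (12 * (∑ γ ∈ G1, ∫ v in (-(d / 2))..(d / 2), ‖DD (1 / L) L (γ + v)‖ ^ 2) +
        (G1.card : ℝ) * (3 * C ^ 2 * d) + 144 * ε ^ 2 * ∑ γ' ∈ G, ∑ γ ∈ G1,
          (V γ' * ‖aa γ'‖ ^ 2) * Real.exp (|γ - γ'| - (γ - γ') ^ 2 / 2)) := by
      rw [hS1]
      refine (Finset.sum_le_sum h1).trans (le_of_eq ?_)
      rw [← Finset.mul_sum, Finset.sum_add_distrib, Finset.sum_add_distrib, ← Finset.mul_sum,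
        Finset.sum_const, nsmul_eq_mul, ← Finset.mul_sum, Finset.sum_comm]
    have hI : ∑ γ ∈ G1, ∫ v in (-(d / 2))..(d / 2), ‖DD (1 / L) L (γ + v)‖ ^ 2 ≤
        8000 * Cr * Real.exp L * L := by
      have hcont : Continuous fun t => ‖DD (1 / L) L t‖ ^ 2 :=
        ((DD_cont (κ := 1 / L) (by positivity) L).norm.pow 2)
      have h3 := sum_int_le (F := G1) hcont (fun x => by positivity) (A := Real.exp L)
        (B := (Cr + 1) * Real.exp L) hd0 (by nlinarith) hsep1 (by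
          intro x hx
          have h4 := hD2 x
          have h5 := hD3 x
          have h6 := (hG1z x hx).2
          constructor
          · linarith
          · nlinarith)
      have h4 := dd_ms (L := L) (by linarith) (A := Real.exp L) (B := (Cr + 1) * Real.exp L) (by nlinarith)
      refine h3.trans (h4.trans ?_)
      have h5 : (Cr + 1) * Real.exp L - Real.exp L + Real.exp L ≤ 2 * (Cr * Real.exp L) := by nlinarith
      calc 4000 * ((Cr + 1) * Real.exp L - Real.exp L + Real.exp L) * L ≤ 4000 * (2 * (Cr * Real.exp L)) * L := by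
            gcongr
        _ = _ := by ring
    have hcd : (G1.card : ℝ) * (3 * C ^ 2 * d) ≤ 3 * C ^ 2 * Cr * Real.exp L := by
      have h4 := sep_card (F := G1) hd0 (a := Real.exp L) (b := Cr * Real.exp L) (by nlinarith) hsep1
        (fun x hx => ⟨(hGz x (hG1z x hx).1).2.1, (hGz x (hG1z x hx).1).2.2.1⟩)
      have h5 : (G1.card : ℝ) * d ≤ Cr * Real.exp L := by
        have h6 : (G1.card : ℝ) * d ≤ ((Cr * Real.exp L - Real.exp L) / d + 1) * d := by gcongr
        have h7 : ((Cr * Real.exp L - Real.exp L) / d + 1) * d = Cr * Real.exp L - Real.exp L + d := by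
          field_simp
        linarith
      calc _ = 3 * C ^ 2 * ((G1.card : ℝ) * d) := by ring
        _ ≤ 3 * C ^ 2 * (Cr * Real.exp L) := by gcongr
        _ = _ := by ring
    have hdouble : ∑ γ' ∈ G, ∑ γ ∈ G1, (V γ' * ‖aa γ'‖ ^ 2) * Real.exp (|γ - γ'| - (γ - γ') ^ 2 / 2) ≤
        72 / d * S := by
      rw [hS, Finset.mul_sum]
      apply Finset.sum_le_sum
      intro γ' _
      rw [← Finset.mul_sum, mul_comm]
      apply mul_le_mul_of_nonneg_right _ (mul_nonneg (hV0 γ').le (by positivity))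
      have h3 := sep_cauchy (F := G1) (x0 := γ') hd0 hd1 hsep1
      calc ∑ γ ∈ G1, Real.exp (|γ - γ'| - (γ - γ') ^ 2 / 2)
          ≤ ∑ γ ∈ G1, 12 * (1 / (1 + (γ - γ') ^ 2)) := Finset.sum_le_sum fun γ _ => exp_abs_le _
        _ = 12 * ∑ γ ∈ G1, 1 / (1 + (γ - γ') ^ 2) := by rw [Finset.mul_sum]
        _ ≤ 12 * (6 / d) := by gcongr
        _ = _ := by ring
    have h3 : S1 ≤ CA / L * (12 * (8000 * Cr * Real.exp L * L) + 3 * C ^ 2 * Cr * Real.exp L +
        144 * ε ^ 2 * (72 / d * S)) := by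
      refine h2.trans ?_
      gcongr
    refine h3.trans ?_
    have h4 : CA / L * (12 * (8000 * Cr * Real.exp L * L) + 3 * C ^ 2 * Cr * Real.exp L +
        144 * ε ^ 2 * (72 / d * S)) = CA * (96000 * Cr) * Real.exp L +
          (1 / L) * (CA * (3 * C ^ 2 * Cr) * Real.exp L) + 10368 * CA * ε ^ 2 * (1 / (L * d)) * S := by
      field_simp
      ring
    rw [h4]
    have h5 : (1 / L) * (CA * (3 * C ^ 2 * Cr) * Real.exp L) ≤ 1 * (CA * (3 * C ^ 2 * Cr) * Real.exp L) := by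
      gcongr
    have h6 : 1 / (L * d) ≤ 8 := by
      rw [div_le_iff₀ (by positivity)]
      linarith
    have h7 : 10368 * CA * ε ^ 2 * (1 / (L * d)) ≤ 1 / 2 := by
      calc 10368 * CA * ε ^ 2 * (1 / (L * d)) ≤ 10368 * CA * (1 / (500 * CA)) ^ 2 * 8 := by gcongr
        _ = 82944 / 250000 * (1 / CA) := by field_simp; ring
        _ ≤ 82944 / 250000 * 1 := by
            gcongr
            rw [div_le_one (by linarith)]
            exact hCA
        _ ≤ 1 / 2 := by norm_num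
    have h8 : 10368 * CA * ε ^ 2 * (1 / (L * d)) * S ≤ 1 / 2 * S := by gcongr
    rw [hC6]
    nlinarith
  have hfin : S1 ≤ (2 * C6 + 9 * Cr * CB) * Real.exp L := by nlinarith
  have hFsub : F ⊆ G1 := by
    intro γ hγ
    have h1 := hF γ hγ
    have h2 : 2 * (K * L) + 3 ≤ K' * L ^ 2 := by
      rw [hK']
      nlinarith
    rw [hG1, Finset.mem_filter]
    exact ⟨memG γ h1.1 (by linarith [h1.2]), by linarith [h1.2]⟩
  calc ∑ γ ∈ F, ‖aa γ‖ ^ 2 = ∑ γ ∈ F, V γ * ‖aa γ‖ ^ 2 := by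
        apply Finset.sum_congr rfl
        intro γ hγ
        have h1 := (hF γ hγ).2
        have h2 : V γ = 1 := by
          simp only [hV]
          rw [max_eq_right (by linarith), neg_zero, Real.exp_zero]
        rw [h2, one_mul]
    _ ≤ S1 := Finset.sum_le_sum_of_subset_of_nonneg hFsub fun γ _ _ => mul_nonneg (hV0 γ).le (by positivity)
    _ ≤ _ := by
        have := Real.exp_pos L
        nlinarith

end Pool.Agent.N806.AH
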