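import Pool.Agent.N806.AH.Per2

/-! The Bessel-type upper bound, averaged over the damping parameter. -/

set_option autoImplicit false

open Complex Filter Topology Set MeasureTheory Metric

namespace Pool.Agent.N806.AH

open scoped ENNReal

/-- a measurable version of `Gr` -/
noncomputable def Gp (y : ℝ) (z : ℂ) : ℝ := by
  classical exact if 0 < z.re then ‖FF y z‖ ^ 2 else 0

lemma Gp_meas {y : ℝ} (hy : 0 < y) : Measurable (Gp y) := by
  classical
  have h1 : Measurable (({z : ℂ | 0 < z.re}).piecewise (fun z => ‖FF y z‖ ^ 2) (fun _ => (0 : ℝ))) := by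
    apply ContinuousOn.measurable_piecewise
    · intro z hz
      exact ((FF_contAt hy hz).norm.pow 2).continuousWithinAt
    · exact continuousOn_const
    · exact (isOpen_lt continuous_const Complex.continuous_re).measurableSet
  have h2 : Gp y = ({z : ℂ | 0 < z.re}).piecewise (fun z => ‖FF y z‖ ^ 2) (fun _ => (0 : ℝ)) := by
    funext z
    unfold Gp
    by_cases h : 0 < z.re
    · rw [if_pos h, Set.piecewise_eq_of_mem _ _ _ (show z ∈ {z : ℂ | 0 < z.re} from h)]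
    · rw [if_neg h, Set.piecewise_eq_of_notMem _ _ _ (show z ∉ {z : ℂ | 0 < z.re} from h)]
  rw [h2]
  exact h1

lemma Gp_pos {y x r : ℝ} (hr : 0 < r) : Gp y ⟨r, x⟩ = Gr y x r := by
  unfold Gp Gr
  rw [if_pos]
  exact hr

lemma Gp_nonneg (y : ℝ) (z : ℂ) : 0 ≤ Gp y z := by
  unfold Gp
  split_ifs
  · positivity
  · exact le_rfl

/-- the averaged quantity -/
noncomputable def AA (y δ1 : ℝ) (ℓ : ℕ) (H : ℝ) : ℝ≥0∞ :=
  ∫⁻ δ in Ioc δ1 (2 * δ1), ENNReal.ofReal ℓ * ∫⁻ u : ℝ, ‖hh y (δ / ℓ) ℓ H u‖ₑ ^ 2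

lemma hh_sq {y : ℝ} {δ : ℝ} (hδ : 0 < δ) {ℓ : ℕ} (hℓ : 1 ≤ ℓ) (H u : ℝ) :
    ‖hh y (δ / ℓ) ℓ H u‖ₑ ^ 2 = ENNReal.ofReal (Real.exp (-u)) * ENNReal.ofReal
      (Real.exp (-(H ^ 2 * u ^ 2 / 2)) * Gp y ⟨δ * Real.exp (-u), ℓ * Real.exp (-u)⟩) := by
  have hℓ0 : (0 : ℝ) < ℓ := by exact_mod_cast hℓ
  rw [Gp_pos (by positivity), ← ofReal_norm_eq_enorm, ← ENNReal.ofReal_pow (norm_nonneg _),
    ← ENNReal.ofReal_mul (by positivity)]
  congr 1
  unfold hh fl Gr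
  have h1 : (((δ / ℓ : ℝ) : ℂ) + I) * ((ℓ * Real.exp (-u) : ℝ) : ℂ) =
      ⟨δ * Real.exp (-u), ℓ * Real.exp (-u)⟩ := by
    rw [mk_line]
    push_cast
    have : (ℓ : ℂ) ≠ 0 := by exact_mod_cast hℓ0.ne'
    field_simp
  rw [h1, norm_mul, Complex.norm_real, Real.norm_eq_abs, abs_of_pos (Real.exp_pos _), mul_pow,
    ← Real.exp_nat_mul]
  have h2 : Real.exp (((2 : ℕ) : ℝ) * (-(u / 2) - H ^ 2 * u ^ 2 / 4)) =
      Real.exp (-u) * Real.exp (-(H ^ 2 * u ^ 2 / 2)) := by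
    rw [← Real.exp_add]
    congr 1
    push_cast
    ring
  rw [h2]
  ring

/-- after the two exchanges of integration -/
lemma AA_eq {y : ℝ} (hy : 0 < y) {δ1 : ℝ} (hδ1 : 0 < δ1) {ℓ : ℕ} (hℓ : 1 ≤ ℓ) (H : ℝ) :
    AA y δ1 ℓ H = ∫⁻ r : ℝ, ∫⁻ u : ℝ, (Ioc (δ1 * Real.exp (-u)) (2 * δ1 * Real.exp (-u))).indicator
      (fun r => ENNReal.ofReal (ℓ * (Real.exp (-(H ^ 2 * u ^ 2 / 2)) * Gp y ⟨r, ℓ * Real.exp (-u)⟩))) r := by
  have hℓ0 : (0 : ℝ) < ℓ := by exact_mod_cast hℓ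
  have hG := Gp_meas hy
  have hmk : Measurable (fun p : ℝ × ℝ => (⟨p.1, p.2⟩ : ℂ)) := by
    have : (fun p : ℝ × ℝ => (⟨p.1, p.2⟩ : ℂ)) = fun p : ℝ × ℝ => (p.1 : ℂ) + (p.2 : ℂ) * I := by
      funext p; rw [mk_line]
    rw [this]
    fun_prop
  -- step 1
  have e1 : AA y δ1 ℓ H = ∫⁻ δ in Ioc δ1 (2 * δ1), ∫⁻ u : ℝ, ENNReal.ofReal (Real.exp (-u)) *
      ENNReal.ofReal (ℓ * (Real.exp (-(H ^ 2 * u ^ 2 / 2)) *
        Gp y ⟨δ * Real.exp (-u), ℓ * Real.exp (-u)⟩)) := by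
    unfold AA
    apply setLIntegral_congr_fun measurableSet_Ioc
    intro δ hδ
    have hδ0 : 0 < δ := hδ1.trans hδ.1
    simp only
    rw [← lintegral_const_mul' _ _ ENNReal.ofReal_ne_top]
    congr 1
    funext u
    rw [hh_sq hδ0 hℓ, ENNReal.ofReal_mul hℓ0.le]
    ring
  -- step 2: swap
  have e2 : (∫⁻ δ in Ioc δ1 (2 * δ1), ∫⁻ u : ℝ, ENNReal.ofReal (Real.exp (-u)) *
      ENNReal.ofReal (ℓ * (Real.exp (-(H ^ 2 * u ^ 2 / 2)) *
        Gp y ⟨δ * Real.exp (-u), ℓ * Real.exp (-u)⟩))) =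
      ∫⁻ u : ℝ, ∫⁻ δ in Ioc δ1 (2 * δ1), ENNReal.ofReal (Real.exp (-u)) *
      ENNReal.ofReal (ℓ * (Real.exp (-(H ^ 2 * u ^ 2 / 2)) *
        Gp y ⟨δ * Real.exp (-u), ℓ * Real.exp (-u)⟩)) := by
    apply lintegral_lintegral_swap
    apply Measurable.aemeasurable
    have h1 : Measurable (fun p : ℝ × ℝ => Gp y ⟨p.1 * Real.exp (-p.2), ℓ * Real.exp (-p.2)⟩) := by
      have h2 : Measurable (fun p : ℝ × ℝ => (p.1 * Real.exp (-p.2), (ℓ : ℝ) * Real.exp (-p.2))) := by fun_prop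
      exact hG.comp (hmk.comp h2)
    unfold Function.uncurry
    simp only
    fun_prop
  -- step 3: change of variables
  have e3 : ∀ u : ℝ, ∫⁻ δ in Ioc δ1 (2 * δ1), ENNReal.ofReal (Real.exp (-u)) *
      ENNReal.ofReal (ℓ * (Real.exp (-(H ^ 2 * u ^ 2 / 2)) *
        Gp y ⟨δ * Real.exp (-u), ℓ * Real.exp (-u)⟩)) =
      ∫⁻ r in Ioc (δ1 * Real.exp (-u)) (2 * δ1 * Real.exp (-u)), ENNReal.ofReal (ℓ *
        (Real.exp (-(H ^ 2 * u ^ 2 / 2)) * Gp y ⟨r, ℓ * Real.exp (-u)⟩)) := by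
    intro u
    have h2 := lintegral_image_eq_lintegral_abs_deriv_mul (s := Ioc δ1 (2 * δ1))
      (f := fun t : ℝ => t * Real.exp (-u)) (f' := fun _ => Real.exp (-u)) measurableSet_Ioc
      (fun x _ => by
        have := (hasDerivAt_id x).mul_const (Real.exp (-u))
        rw [one_mul] at this
        exact HasDerivAt.hasDerivWithinAt this)
      (by
        intro a _ b _ hab
        have h3 : a * Real.exp (-u) = b * Real.exp (-u) := hab
        exact mul_right_cancel₀ (Real.exp_pos _).ne' h3)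
      (fun r => ENNReal.ofReal (ℓ * (Real.exp (-(H ^ 2 * u ^ 2 / 2)) * Gp y ⟨r, ℓ * Real.exp (-u)⟩)))
    have h3 : (fun t : ℝ => t * Real.exp (-u)) '' Ioc δ1 (2 * δ1) =
        Ioc (δ1 * Real.exp (-u)) (2 * δ1 * Real.exp (-u)) :=
      Set.image_mul_right_Ioc δ1 (2 * δ1) (Real.exp_pos (-u))
    rw [h3] at h2
    rw [h2, abs_of_pos (Real.exp_pos _)]
  rw [e1, e2]
  simp_rw [e3]
  -- step 4: swap
  have e4 : ∀ u : ℝ, ∫⁻ r in Ioc (δ1 * Real.exp (-u)) (2 * δ1 * Real.exp (-u)), ENNReal.ofReal (ℓ *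
        (Real.exp (-(H ^ 2 * u ^ 2 / 2)) * Gp y ⟨r, ℓ * Real.exp (-u)⟩)) =
      ∫⁻ r : ℝ, (Ioc (δ1 * Real.exp (-u)) (2 * δ1 * Real.exp (-u))).indicator
      (fun r => ENNReal.ofReal (ℓ * (Real.exp (-(H ^ 2 * u ^ 2 / 2)) * Gp y ⟨r, ℓ * Real.exp (-u)⟩))) r := by
    intro u
    rw [lintegral_indicator measurableSet_Ioc]
  simp_rw [e4]
  apply lintegral_lintegral_swap
  apply Measurable.aemeasurable
  have h1 : Measurable (fun p : ℝ × ℝ => Gp y ⟨p.2, ℓ * Real.exp (-p.1)⟩) := by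
    have h2 : Measurable (fun p : ℝ × ℝ => (p.2, (ℓ : ℝ) * Real.exp (-p.1))) := by fun_prop
    exact hG.comp (hmk.comp h2)
  have h2 : Measurable (fun p : ℝ × ℝ => ENNReal.ofReal (ℓ * (Real.exp (-(H ^ 2 * p.1 ^ 2 / 2)) *
      Gp y ⟨p.2, ℓ * Real.exp (-p.1)⟩))) := by fun_prop
  have h3 : MeasurableSet {p : ℝ × ℝ | p.2 ∈ Ioc (δ1 * Real.exp (-p.1)) (2 * δ1 * Real.exp (-p.1))} := by
    have h4 : Measurable (fun p : ℝ × ℝ => δ1 * Real.exp (-p.1)) := by fun_prop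
    have h5 : Measurable (fun p : ℝ × ℝ => 2 * δ1 * Real.exp (-p.1)) := by fun_prop
    exact (measurableSet_lt h4 measurable_snd).inter (measurableSet_le measurable_snd h5)
  have h4 := h2.indicator h3
  convert h4 using 1
  funext p
  simp only [Function.uncurry]
  by_cases h : p.2 ∈ Ioc (δ1 * Real.exp (-p.1)) (2 * δ1 * Real.exp (-p.1))
  · have h' : p ∈ {p : ℝ × ℝ | p.2 ∈ Ioc (δ1 * Real.exp (-p.1)) (2 * δ1 * Real.exp (-p.1))} := h
    rw [Set.indicator_of_mem h, Set.indicator_of_mem h']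
  · have h' : p ∉ {p : ℝ × ℝ | p.2 ∈ Ioc (δ1 * Real.exp (-p.1)) (2 * δ1 * Real.exp (-p.1))} := h
    rw [Set.indicator_of_notMem h, Set.indicator_of_notMem h']

lemma sum_lintegral_le {ι : Type*} (s : Finset ι) (f : ι → ℝ → ℝ≥0∞) :
    ∑ i ∈ s, ∫⁻ a, f i a ≤ ∫⁻ a, ∑ i ∈ s, f i a := by
  classical
  induction s using Finset.induction_on with
  | empty => simp
  | insert i s hi ih =>
    rw [Finset.sum_insert hi]
    have h1 : ∀ a, ∑ j ∈ insert i s, f j a = f i a + ∑ j ∈ s, f j a := fun a => Finset.sum_insert hi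
    simp_rw [h1]
    exact (add_le_add le_rfl ih).trans (le_lintegral_add _ _)

lemma lint_Icc {g : ℝ → ℝ} (hg : Continuous g) (hg0 : ∀ x, 0 ≤ g x) {a b : ℝ} (hab : a ≤ b) :
    ∫⁻ u in Icc a b, ENNReal.ofReal (g u) = ENNReal.ofReal (∫ u in a..b, g u) := by
  rw [intervalIntegral.integral_of_le hab, ← integral_Icc_eq_integral_Ioc,
    ofReal_integral_eq_lintegral_ofReal]
  · exact hg.integrableOn_Icc
  · exact Eventually.of_forall hg0

lemma K_bound {H τ : ℝ} (hH : 4 ≤ H) (hτ : 0 ≤ τ) {u : ℝ} (hu : τ < |u|) :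
    Real.exp (-(H ^ 2 * u ^ 2 / 2)) ≤ 8 * Real.exp (-((H ^ 2 - 16) * τ ^ 2 / 2)) * Real.exp (-(8 * |u|)) := by
  have h1 : Real.exp 2 ≤ 8 := by
    have h2 : Real.exp 1 ≤ 2.7182818286 := Real.exp_one_lt_d9.le
    have h3 : Real.exp 2 = Real.exp 1 * Real.exp 1 := by rw [← Real.exp_add]; norm_num
    rw [h3]
    have := Real.exp_pos 1
    nlinarith
  have h4 : -(H ^ 2 * u ^ 2 / 2) ≤ 2 + -((H ^ 2 - 16) * τ ^ 2 / 2) + -(8 * |u|) := by
    have h5 : u ^ 2 = |u| ^ 2 := (sq_abs u).symm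
    rw [h5]
    have h6 : τ ^ 2 ≤ |u| ^ 2 := by gcongr
    have h7 : 0 ≤ H ^ 2 - 16 := by nlinarith
    have h8 : (H ^ 2 - 16) * τ ^ 2 ≤ (H ^ 2 - 16) * |u| ^ 2 := by gcongr
    nlinarith [sq_nonneg (2 * |u| - 1)]
  calc Real.exp (-(H ^ 2 * u ^ 2 / 2)) ≤ Real.exp (2 + -((H ^ 2 - 16) * τ ^ 2 / 2) + -(8 * |u|)) :=
        Real.exp_le_exp.2 h4
    _ = Real.exp 2 * Real.exp (-((H ^ 2 - 16) * τ ^ 2 / 2)) * Real.exp (-(8 * |u|)) := by
        rw [Real.exp_add, Real.exp_add]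
    _ ≤ _ := by gcongr

/-- for fixed `r`, one `ℓ` -/
lemma inner_bound {y : ℝ} (hy : 0 < y) {δ1 : ℝ} (hδ1 : 0 < δ1) {ℓ : ℕ} {H τ : ℝ} (hH : 4 ≤ H) (hτ : 0 ≤ τ)
    {r : ℝ} (hr : 0 < r) :
    ∫⁻ u : ℝ, (Ioc (δ1 * Real.exp (-u)) (2 * δ1 * Real.exp (-u))).indicator
      (fun r => ENNReal.ofReal (ℓ * (Real.exp (-(H ^ 2 * u ^ 2 / 2)) * Gp y ⟨r, ℓ * Real.exp (-u)⟩))) r ≤
    (Ioc (δ1 * Real.exp (-τ)) (2 * δ1 * Real.exp τ)).indicator (fun r => ENNReal.ofReal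
      (∫ u in (-τ)..τ, (ℓ : ℝ) * Gr y (ℓ * Real.exp (-u)) r)) r +
    ENNReal.ofReal (8 * Real.exp (-((H ^ 2 - 16) * τ ^ 2 / 2)) *
      ((1024 / y * (ℓ * y + 1) * (1 + 1 / (4 * Real.pi * y * δ1))) * (1 + (δ1⁻¹ * r) ^ 2)⁻¹)) := by
  have hℓ0 : (0 : ℝ) ≤ ℓ := Nat.cast_nonneg ℓ
  set a := Real.log (δ1 / r) with ha
  set b := Real.log (2 * δ1 / r) with hb
  have hab : a ≤ b := Real.log_le_log (by positivity) (by gcongr; linarith)
  set E := 8 * Real.exp (-((H ^ 2 - 16) * τ ^ 2 / 2)) with hE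
  have hE0 : 0 < E := by positivity
  have hGc : Continuous fun u : ℝ => (ℓ : ℝ) * Gr y (ℓ * Real.exp (-u)) r :=
    continuous_const.mul ((Gr_cont hy hr).comp (by fun_prop))
  have hG0 : ∀ u : ℝ, 0 ≤ (ℓ : ℝ) * Gr y (ℓ * Real.exp (-u)) r := fun u => mul_nonneg hℓ0 (Gr_nonneg _ _ _)
  -- conditions
  have hcond : ∀ u : ℝ, r ∈ Ioc (δ1 * Real.exp (-u)) (2 * δ1 * Real.exp (-u)) → u ∈ Icc a b := by
    intro u hu
    constructor
    · rw [ha, Real.log_le_iff_le_exp (by positivity), div_le_iff₀ hr]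
      have h1 := hu.1
      rw [Real.exp_neg, ← div_eq_mul_inv, div_lt_iff₀ (Real.exp_pos u)] at h1
      linarith
    · rw [hb, Real.le_log_iff_exp_le (by positivity), le_div_iff₀ hr]
      have h1 := hu.2
      rw [Real.exp_neg, ← div_eq_mul_inv, le_div_iff₀ (Real.exp_pos u)] at h1
      linarith
  have hcond2 : ∀ u : ℝ, |u| ≤ τ → r ∈ Ioc (δ1 * Real.exp (-u)) (2 * δ1 * Real.exp (-u)) →
      r ∈ Ioc (δ1 * Real.exp (-τ)) (2 * δ1 * Real.exp τ) := by
    intro u hu hr'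
    have h1 := abs_le.1 hu
    constructor
    · refine lt_of_le_of_lt ?_ hr'.1
      gcongr
      linarith [h1.2]
    · refine hr'.2.trans ?_
      gcongr
      linarith [h1.1]
  have hpt : ∀ u : ℝ, (Ioc (δ1 * Real.exp (-u)) (2 * δ1 * Real.exp (-u))).indicator
      (fun r => ENNReal.ofReal (ℓ * (Real.exp (-(H ^ 2 * u ^ 2 / 2)) * Gp y ⟨r, ℓ * Real.exp (-u)⟩))) r ≤
      (Icc (-τ) τ).indicator (fun u => (Ioc (δ1 * Real.exp (-τ)) (2 * δ1 * Real.exp τ)).indicator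
        (fun r => ENNReal.ofReal ((ℓ : ℝ) * Gr y (ℓ * Real.exp (-u)) r)) r) u +
      (Icc a b).indicator (fun u => ENNReal.ofReal (E * (Real.exp (-(8 * |u|)) *
        ((ℓ : ℝ) * Gr y (ℓ * Real.exp (-u)) r)))) u := by
    intro u
    by_cases hu : r ∈ Ioc (δ1 * Real.exp (-u)) (2 * δ1 * Real.exp (-u))
    · rw [Set.indicator_of_mem hu, Gp_pos hr]
      by_cases hτu : |u| ≤ τ
      · rw [Set.indicator_of_mem (show u ∈ Icc (-τ) τ from abs_le.1 hτu),
          Set.indicator_of_mem (hcond2 u hτu hu)]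
        refine le_add_right (ENNReal.ofReal_le_ofReal ?_)
        apply mul_le_mul_of_nonneg_left _ hℓ0
        have h1 : Real.exp (-(H ^ 2 * u ^ 2 / 2)) ≤ 1 := by
          apply Real.exp_le_one_iff.2
          have : 0 ≤ H ^ 2 * u ^ 2 / 2 := by positivity
          linarith
        have h2 := Gr_nonneg y (ℓ * Real.exp (-u)) r
        nlinarith
      · push Not at hτu
        rw [Set.indicator_of_mem (hcond u hu)]
        refine le_add_left (ENNReal.ofReal_le_ofReal ?_)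
        have h1 := K_bound hH hτ hτu
        rw [← hE] at h1
        have h2 := hG0 u
        calc (ℓ : ℝ) * (Real.exp (-(H ^ 2 * u ^ 2 / 2)) * Gr y (ℓ * Real.exp (-u)) r)
            = Real.exp (-(H ^ 2 * u ^ 2 / 2)) * ((ℓ : ℝ) * Gr y (ℓ * Real.exp (-u)) r) := by ring
          _ ≤ (E * Real.exp (-(8 * |u|))) * ((ℓ : ℝ) * Gr y (ℓ * Real.exp (-u)) r) := by gcongr
          _ = _ := by ring
    · rw [Set.indicator_of_notMem hu]
      exact zero_le
  refine (lintegral_mono hpt).trans ?_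
  rw [lintegral_add_right]
  swap
  · apply Measurable.indicator _ measurableSet_Icc
    have : Continuous (fun u => E * (Real.exp (-(8 * |u|)) * ((ℓ : ℝ) * Gr y (ℓ * Real.exp (-u)) r))) := by
      fun_prop
    exact this.measurable.ennreal_ofReal
  apply add_le_add
  · rw [lintegral_indicator measurableSet_Icc]
    by_cases hr' : r ∈ Ioc (δ1 * Real.exp (-τ)) (2 * δ1 * Real.exp τ)
    · simp only [Set.indicator_of_mem hr']
      rw [lint_Icc hGc hG0 (by linarith)]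
    · simp only [Set.indicator_of_notMem hr']
      simp
  · rw [lintegral_indicator measurableSet_Icc, lint_Icc (by fun_prop) (fun u => by
      have := hG0 u
      positivity) hab]
    apply ENNReal.ofReal_le_ofReal
    rw [intervalIntegral.integral_const_mul]
    exact mul_le_mul_of_nonneg_left (far_fixed hy hr hδ1) hE0.le

/-- the Bessel-type upper bound -/
theorem bessel_upper {y : ℝ} (hy : 0 < y) {m : ℕ} (hm : 1 ≤ m) {CC : Finset ℕ}
    (hCC : ∀ n : ℕ, 1 ≤ n → Squarefree n → n % m ∈ CC) (LL : Finset ℕ) (hLL : ∀ ℓ ∈ LL, 1 ≤ ℓ)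
    {σ τ w : ℝ} (hσ : 0 < σ) (hσy : σ ≤ 1 / y) (hw : 0 < w) (hwσ : w ≤ σ / 3) (hτ : 0 ≤ τ)
    (hτw : ∀ ℓ ∈ LL, (ℓ : ℝ) * (Real.exp τ - 1) ≤ w)
    (hsep : ∀ ℓ ∈ LL, ∀ ℓ' ∈ LL, ℓ ≠ ℓ' → ∀ k : ℤ, σ ≤ |(ℓ : ℝ) - ℓ' - k * (1 / y)|)
    {H : ℝ} (hH : 4 ≤ H) {δ1 : ℝ} (hδ1 : 0 < δ1) :
    ∑ ℓ ∈ LL, AA y δ1 ℓ H ≤
      ENNReal.ofReal (Real.exp τ * ((CC.card : ℝ) / y) * (2 * δ1 * Real.exp τ +
        (Real.log 2 + 2 * τ) / (4 * Real.pi * m * y))) +
      ENNReal.ofReal (8 * Real.exp (-((H ^ 2 - 16) * τ ^ 2 / 2)) * (∑ ℓ ∈ LL, 1024 / y * ((ℓ : ℝ) * y + 1)) *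
        (Real.pi * (δ1 + 1 / (4 * Real.pi * y)))) := by
  have hpi := Real.pi_pos
  have hm0 : (0 : ℝ) < m := by exact_mod_cast hm
  set E := 8 * Real.exp (-((H ^ 2 - 16) * τ ^ 2 / 2)) with hE
  have hE0 : 0 < E := by positivity
  set CS := ∑ ℓ ∈ LL, 1024 / y * ((ℓ : ℝ) * y + 1) with hCS
  have hCS0 : 0 ≤ CS := Finset.sum_nonneg fun ℓ _ => by positivity
  have h1 : ∑ ℓ ∈ LL, AA y δ1 ℓ H ≤ ∑ ℓ ∈ LL, ∫⁻ r : ℝ, ∫⁻ u : ℝ,
      (Ioc (δ1 * Real.exp (-u)) (2 * δ1 * Real.exp (-u))).indicator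
      (fun r => ENNReal.ofReal (ℓ * (Real.exp (-(H ^ 2 * u ^ 2 / 2)) * Gp y ⟨r, ℓ * Real.exp (-u)⟩))) r := by
    apply Finset.sum_le_sum
    intro ℓ hℓ
    rw [AA_eq hy hδ1 (hLL ℓ hℓ)]
  refine h1.trans ((sum_lintegral_le _ _).trans ?_)
  -- pointwise bound
  set A1 : ℝ := Real.exp τ * ((CC.card : ℝ) / y) with hA1
  have hA10 : 0 ≤ A1 := by positivity
  have hlo : 0 < δ1 * Real.exp (-τ) := by positivity
  have hlohi : δ1 * Real.exp (-τ) ≤ 2 * δ1 * Real.exp τ := by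
    have h2 : Real.exp (-τ) ≤ Real.exp τ := Real.exp_le_exp.2 (by linarith)
    have h3 := Real.exp_pos τ
    nlinarith
  have hpt : ∀ r : ℝ, (∑ ℓ ∈ LL, ∫⁻ u : ℝ,
      (Ioc (δ1 * Real.exp (-u)) (2 * δ1 * Real.exp (-u))).indicator
      (fun r => ENNReal.ofReal (ℓ * (Real.exp (-(H ^ 2 * u ^ 2 / 2)) * Gp y ⟨r, ℓ * Real.exp (-u)⟩))) r) ≤
      (Ioc (δ1 * Real.exp (-τ)) (2 * δ1 * Real.exp τ)).indicator
        (fun r => ENNReal.ofReal (A1 * (1 + 1 / (4 * Real.pi * m * y * r)))) r +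
      ENNReal.ofReal (E * (CS * (1 + 1 / (4 * Real.pi * y * δ1))) * (1 + (δ1⁻¹ * r) ^ 2)⁻¹) := by
    intro r
    rcases le_or_gt r 0 with hr | hr
    · have h2 : (∑ ℓ ∈ LL, ∫⁻ u : ℝ, (Ioc (δ1 * Real.exp (-u)) (2 * δ1 * Real.exp (-u))).indicator
          (fun r => ENNReal.ofReal (ℓ * (Real.exp (-(H ^ 2 * u ^ 2 / 2)) *
            Gp y ⟨r, ℓ * Real.exp (-u)⟩))) r) = 0 := by
        apply Finset.sum_eq_zero
        intro ℓ _
        have h3 : ∀ u : ℝ, (Ioc (δ1 * Real.exp (-u)) (2 * δ1 * Real.exp (-u))).indicator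
          (fun r => ENNReal.ofReal (ℓ * (Real.exp (-(H ^ 2 * u ^ 2 / 2)) *
            Gp y ⟨r, ℓ * Real.exp (-u)⟩))) r = 0 := by
          intro u
          apply Set.indicator_of_notMem
          intro h
          have := h.1
          have h4 : 0 < δ1 * Real.exp (-u) := by positivity
          linarith
        simp_rw [h3]
        simp
      rw [h2]
      exact zero_le
    · refine (Finset.sum_le_sum fun ℓ _ => inner_bound hy hδ1 (ℓ := ℓ) hH hτ hr).trans ?_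
      rw [Finset.sum_add_distrib]
      apply add_le_add
      · by_cases hr' : r ∈ Ioc (δ1 * Real.exp (-τ)) (2 * δ1 * Real.exp τ)
        · simp only [Set.indicator_of_mem hr']
          rw [← ENNReal.ofReal_sum_of_nonneg]
          swap
          · intro ℓ _
            apply intervalIntegral.integral_nonneg (by linarith)
            intro u _
            exact mul_nonneg (Nat.cast_nonneg ℓ) (Gr_nonneg _ _ _)
          apply ENNReal.ofReal_le_ofReal
          refine (near_fixed hy hr LL hσ hσy hw hwσ hτ hτw hsep).trans ?_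
          have h2 := per_bound hy hm hCC hr
          calc Real.exp τ * Pp y r ≤ Real.exp τ * (1 / y * ((CC.card : ℝ) * (1 + 1 / (4 * Real.pi * m * y * r)))) := by
                gcongr
                exact h2
            _ = _ := by rw [hA1]; ring
        · simp only [Set.indicator_of_notMem hr']
          simp
      · rw [← ENNReal.ofReal_sum_of_nonneg]
        swap
        · intro ℓ _
          positivity
        apply ENNReal.ofReal_le_ofReal
        rw [← Finset.mul_sum, ← Finset.sum_mul, ← Finset.sum_mul, ← hCS, ← hE]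
        apply le_of_eq
        ring
  refine (lintegral_mono hpt).trans ?_
  have hmeas1 : Measurable (fun r : ℝ => ENNReal.ofReal (A1 * (1 + 1 / (4 * Real.pi * m * y * r)))) := by
    fun_prop
  have hmeas2 : Measurable (fun r : ℝ => ENNReal.ofReal (E * (CS * (1 + 1 / (4 * Real.pi * y * δ1))) *
      (1 + (δ1⁻¹ * r) ^ 2)⁻¹)) := by
    fun_prop
  rw [lintegral_add_right _ hmeas2]
  apply add_le_add
  · rw [lintegral_indicator measurableSet_Ioc]
    have hcont : ContinuousOn (fun r : ℝ => A1 * (1 + 1 / (4 * Real.pi * m * y * r)))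
        (Icc (δ1 * Real.exp (-τ)) (2 * δ1 * Real.exp τ)) := by
      apply ContinuousOn.mul continuousOn_const
      apply ContinuousOn.add continuousOn_const
      apply ContinuousOn.div continuousOn_const (by fun_prop)
      intro r hr
      have : 0 < r := hlo.trans_le hr.1
      positivity
    have h2 : ∫⁻ r in Ioc (δ1 * Real.exp (-τ)) (2 * δ1 * Real.exp τ),
        ENNReal.ofReal (A1 * (1 + 1 / (4 * Real.pi * m * y * r))) =
        ENNReal.ofReal (∫ r in (δ1 * Real.exp (-τ))..(2 * δ1 * Real.exp τ),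
          A1 * (1 + 1 / (4 * Real.pi * m * y * r))) := by
      rw [intervalIntegral.integral_of_le hlohi, ofReal_integral_eq_lintegral_ofReal]
      · exact (hcont.integrableOn_Icc).mono_set Ioc_subset_Icc_self
      · rw [EventuallyLE, ae_restrict_iff' measurableSet_Ioc]
        refine Eventually.of_forall fun r hr => ?_
        have : 0 < r := hlo.trans hr.1
        simp only [Pi.zero_apply]
        positivity
    rw [h2]
    apply ENNReal.ofReal_le_ofReal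
    rw [intervalIntegral.integral_const_mul]
    have h3 : ∫ r in (δ1 * Real.exp (-τ))..(2 * δ1 * Real.exp τ), (1 + 1 / (4 * Real.pi * m * y * r)) =
        (2 * δ1 * Real.exp τ - δ1 * Real.exp (-τ)) + 1 / (4 * Real.pi * m * y) * (Real.log 2 + 2 * τ) := by
      have h4 : ∀ r : ℝ, 1 / (4 * Real.pi * m * y * r) = 1 / (4 * Real.pi * m * y) * r⁻¹ := by
        intro r
        rw [one_div, mul_inv, one_div]
      simp_rw [h4]
      have h5 : IntervalIntegrable (fun r : ℝ => 1 / (4 * Real.pi * m * y) * r⁻¹) volume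
          (δ1 * Real.exp (-τ)) (2 * δ1 * Real.exp τ) := by
        apply ContinuousOn.intervalIntegrable
        rw [uIcc_of_le hlohi]
        apply ContinuousOn.mul continuousOn_const
        apply ContinuousOn.inv₀ continuousOn_id
        intro r hr
        exact (hlo.trans_le hr.1).ne'
      rw [intervalIntegral.integral_add intervalIntegrable_const h5, intervalIntegral.integral_const_mul,
        integral_inv_of_pos hlo (by positivity), intervalIntegral.integral_const]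
      congr 1
      · simp
      · congr 1
        have h6 : 2 * δ1 * Real.exp τ / (δ1 * Real.exp (-τ)) = 2 * (Real.exp τ * Real.exp τ) := by
          rw [Real.exp_neg]
          field_simp
        rw [h6, Real.log_mul (by norm_num) (by positivity), ← Real.exp_add, Real.log_exp]
        ring
    rw [h3]
    apply mul_le_mul_of_nonneg_left _ hA10
    have h4 : 1 / (4 * Real.pi * m * y) * (Real.log 2 + 2 * τ) = (Real.log 2 + 2 * τ) / (4 * Real.pi * m * y) := by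
      ring
    rw [h4]
    linarith
  · have hB0 : 0 ≤ E * (CS * (1 + 1 / (4 * Real.pi * y * δ1))) := by positivity
    have hint : Integrable (fun r : ℝ => (1 + (δ1⁻¹ * r) ^ 2)⁻¹) :=
      integrable_inv_one_add_sq.comp_mul_left' (by positivity)
    rw [← ofReal_integral_eq_lintegral_ofReal (hint.const_mul _)
      (Eventually.of_forall fun r => by positivity)]
    apply ENNReal.ofReal_le_ofReal
    rw [integral_const_mul]
    have h2 : ∫ r : ℝ, (1 + (δ1⁻¹ * r) ^ 2)⁻¹ = δ1 * Real.pi := by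
      rw [MeasureTheory.Measure.integral_comp_mul_left (fun x : ℝ => (1 + x ^ 2)⁻¹) δ1⁻¹, inv_inv,
        abs_of_pos hδ1, integral_univ_inv_one_add_sq, smul_eq_mul]
    rw [h2]
    apply le_of_eq
    field_simp

end Pool.Agent.N806.AH
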