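import Pool.Agent.H345R2.Chi

/-! The factor of the functional equation and the function `W`. -/

set_option autoImplicit false

open Complex Filter Topology Set MeasureTheory Metric

namespace Pool.Agent.N806.AH

open H345 H345.Chi

/-- `y ^ s` -/
noncomputable def ye (y : ℝ) (s : ℂ) : ℂ := cexp ((Real.log y : ℂ) * s)

/-- the unimodular function on the critical line -/
noncomputable def uu (y t : ℝ) : ℂ :=
  (XX (1 / 2 + (t : ℂ) * I))⁻¹ ^ 2 * cexp (((t * Real.log y : ℝ) : ℂ) * I)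

/-- the comparison function -/
noncomputable def Wf (y : ℝ) (c s : ℂ) : ℂ := 1 + c * ye y (s - 1 / 2) * XX (1 - s) ^ 2

lemma norm_ye (y : ℝ) (s : ℂ) : ‖ye y s‖ = Real.exp (Real.log y * s.re) := by
  unfold ye
  rw [Complex.norm_exp, Complex.re_ofReal_mul]

lemma ye_diff (y : ℝ) : Differentiable ℂ (ye y) := by
  unfold ye
  fun_prop

lemma XX_mul' {s : ℂ} (h : s.im ≠ 0) : XX s * XX (1 - s) = 1 := by
  apply XX_mul
  intro h0
  rw [Complex.sin_eq_zero_iff] at h0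
  obtain ⟨k, hk⟩ := h0
  have hpi : (Real.pi : ℂ) ≠ 0 := by exact_mod_cast Real.pi_ne_zero
  have h1 : s = (k : ℂ) := by
    apply mul_left_cancel₀ hpi
    rw [hk]
    ring
  rw [h1] at h
  simp at h

lemma XX_diff {s : ℂ} (h : s.im ≠ 0) : DifferentiableAt ℂ XX s := by
  have hG : DifferentiableAt ℂ Gamma s := by
    apply Complex.differentiableAt_Gamma
    intro m hm
    rw [hm] at h
    simp at h
  have h1 : DifferentiableAt ℂ (fun z : ℂ => (2 * (Real.pi : ℂ)) ^ (-z)) s :=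
    (differentiableAt_id.neg).const_cpow (Or.inl two_pi_ne)
  have h2 : DifferentiableAt ℂ (fun z : ℂ => Complex.cos (Real.pi * z / 2)) s := by fun_prop
  have : XX = fun z => 2 * (2 * (Real.pi : ℂ)) ^ (-z) * Gamma z * Complex.cos (Real.pi * z / 2) := by
    funext z; rfl
  rw [this]
  exact ((h1.const_mul 2).mul hG).mul h2

lemma Wf_diff (y : ℝ) (c : ℂ) {s : ℂ} (h : s.im ≠ 0) : DifferentiableAt ℂ (Wf y c) s := by
  have h1 : DifferentiableAt ℂ (fun z => XX (1 - z)) s := by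
    have h2 : DifferentiableAt ℂ XX (1 - s) := XX_diff (by simpa using h)
    exact h2.comp s (differentiableAt_id.const_sub 1)
  have h2 : DifferentiableAt ℂ (fun z => ye y (z - 1 / 2)) s :=
    ((ye_diff y) _).comp s (differentiableAt_id.sub_const _)
  have : Wf y c = fun z => 1 + c * ye y (z - 1 / 2) * XX (1 - z) ^ 2 := by funext z; rfl
  rw [this]
  exact ((h2.const_mul c).mul (h1.pow 2)).const_add 1

lemma mk_line (σ t : ℝ) : (⟨σ, t⟩ : ℂ) = (σ : ℂ) + (t : ℂ) * I := by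
  apply Complex.ext <;> simp

lemma half_line (t : ℝ) : (⟨1 / 2, t⟩ : ℂ) = 1 / 2 + (t : ℂ) * I := by
  apply Complex.ext <;> simp

lemma zeta_fe' {s : ℂ} (h : s.im ≠ 0) : riemannZeta s = XX (1 - s) * riemannZeta (1 - s) := by
  have h1 := zeta_fe (1 - s) (by
    intro n hn
    have := congrArg Complex.im hn
    simp at this
    exact h this) (by
    intro h1
    have := congrArg Complex.im h1
    simp at this
    exact h this)
  rwa [sub_sub_cancel] at h1

lemma conj_refl (σ t : ℝ) : 1 - (⟨σ, t⟩ : ℂ) = (starRingEnd ℂ) (⟨1 - σ, t⟩ : ℂ) := by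
  apply Complex.ext <;> simp

lemma norm_zeta_conj (s : ℂ) : ‖riemannZeta ((starRingEnd ℂ) s)‖ = ‖riemannZeta s‖ := by
  rw [riemannZeta_conj, Complex.norm_conj]

lemma norm_XX_refl : ∃ K : ℝ, 0 < K ∧ ∀ σ t : ℝ, -1 ≤ σ → σ ≤ 2 → 1 ≤ t →
    ‖XX (1 - (⟨σ, t⟩ : ℂ))‖ ≤ Real.exp K * t ^ (1 / 2 - σ) := by
  obtain ⟨K, hK, hX⟩ := XX_size
  refine ⟨K, hK, fun σ t h1 h2 ht => ?_⟩
  have ht0 : 0 < t := by linarith
  by_cases hσ : σ ≤ 1 / 2
  · rw [conj_refl, XX_conj, Complex.norm_conj]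
    have := (hX ⟨1 - σ, t⟩ (by simp; linarith) (by simp; linarith) ht).2
    simp only at this
    rwa [show (1 : ℝ) - σ - 1 / 2 = 1 / 2 - σ by ring] at this
  · push Not at hσ
    have h3 := XX_mul' (s := (⟨σ, t⟩ : ℂ)) (by simp; linarith)
    have h4 := (hX ⟨σ, t⟩ hσ.le (by simp; linarith) ht).1
    simp only at h4
    have h5 : ‖XX ⟨σ, t⟩‖ * ‖XX (1 - (⟨σ, t⟩ : ℂ))‖ = 1 := by rw [← norm_mul, h3, norm_one]
    have h6 : 0 < t ^ (σ - 1 / 2) := by positivity
    have h7 : t ^ (1 / 2 - σ) * t ^ (σ - 1 / 2) = 1 := by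
      rw [← Real.rpow_add ht0]; simp
    have h8 : Real.exp K * Real.exp (-K) = 1 := by rw [← Real.exp_add]; simp
    have h9 : 0 < ‖XX ⟨σ, t⟩‖ := lt_of_lt_of_le (by positivity) h4
    have h10 : ‖XX (1 - (⟨σ, t⟩ : ℂ))‖ = ‖XX ⟨σ, t⟩‖⁻¹ := by
      field_simp
      linarith
    rw [h10]
    calc ‖XX ⟨σ, t⟩‖⁻¹ ≤ (Real.exp (-K) * t ^ (σ - 1 / 2))⁻¹ := inv_anti₀ (by positivity) h4
      _ = Real.exp K * t ^ (1 / 2 - σ) := by
          symm
          apply eq_inv_of_mul_eq_one_left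
          calc Real.exp K * t ^ (1 / 2 - σ) * (Real.exp (-K) * t ^ (σ - 1 / 2))
              = (Real.exp K * Real.exp (-K)) * (t ^ (1 / 2 - σ) * t ^ (σ - 1 / 2)) := by ring
            _ = 1 := by rw [h7, h8, one_mul]

lemma XX_half_inv (t : ℝ) (ht : t ≠ 0) : XX (1 - (1 / 2 + (t : ℂ) * I)) =
    (XX (1 / 2 + (t : ℂ) * I))⁻¹ := by
  have h := XX_mul' (s := 1 / 2 + (t : ℂ) * I) (by simpa using ht)
  exact eq_inv_of_mul_eq_one_right h

lemma Wf_half (y : ℝ) (c : ℂ) {t : ℝ} (ht : t ≠ 0) :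
    Wf y c (1 / 2 + (t : ℂ) * I) = 1 + c * uu y t := by
  unfold Wf uu
  rw [XX_half_inv t ht]
  have : ye y (1 / 2 + (t : ℂ) * I - 1 / 2) = cexp (((t * Real.log y : ℝ) : ℂ) * I) := by
    unfold ye
    congr 1
    push_cast
    ring
  rw [this]
  ring

lemma norm_uu (y t : ℝ) : ‖uu y t‖ = 1 := by
  unfold uu
  rw [norm_mul, norm_pow, norm_inv, norm_XX_half, Complex.norm_exp_ofReal_mul_I]
  simp

/-- size of the second part of `W` to the right of the critical line -/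
theorem second_small {κ t : ℝ} (hκ : 0 ≤ κ) (hκ1 : κ ≤ 1) (ht : 12 ≤ t) :
    ‖XX (1 - (⟨1 / 2 + κ, t⟩ : ℂ))‖ ≤ Real.exp (-κ * (Real.log (t / (2 * Real.pi)) - 14 / t)) := by
  have ht0 : 0 < t := by linarith
  set l : ℝ := Real.log (t / (2 * Real.pi)) with hl
  -- run backwards from κ to 0
  let F : ℝ → ℂ := fun x => XX (⟨1 / 2 + (κ - x), t⟩ : ℂ) * cexp (-(((κ - x) * l : ℝ) : ℂ))
  have hFd : ∀ x ∈ Icc (0 : ℝ) κ, HasDerivAt F (-(F x * (L2 (⟨1 / 2 + (κ - x), t⟩ : ℂ) - (l : ℂ)))) x := by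
    intro x hx
    have hx2 := hx.2
    have d1 := hasDerivAt_XX (s := (⟨1 / 2 + (κ - x), t⟩ : ℂ)) (by simp; linarith) (by simp; linarith)
    have d2 : HasDerivAt (fun x : ℝ => (⟨1 / 2 + (κ - x), t⟩ : ℂ)) (-1) x := by
      have h1 : HasDerivAt (fun x : ℝ => (((1 / 2 + (κ - x) : ℝ)) : ℂ)) (-1 : ℂ) x := by
        have := (((hasDerivAt_id x).const_sub κ).const_add (1 / 2)).ofReal_comp
        simpa using this
      have h2 := h1.add_const ((t : ℂ) * I)
      simpa [mk_line] using h2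
    have d3 := d1.comp x d2
    have d4 : HasDerivAt (fun x : ℝ => -(((κ - x) * l : ℝ) : ℂ)) (l : ℂ) x := by
      have h6 : HasDerivAt (fun x : ℝ => -(((κ - x) * l : ℝ) : ℂ)) _ x :=
        (((((hasDerivAt_id x).const_sub κ).mul_const l).ofReal_comp)).neg
      refine h6.congr_deriv ?_
      push_cast
      ring
    have d5 := d3.mul d4.cexp
    refine HasDerivAt.congr_deriv d5 ?_
    simp only [F, Function.comp]
    ring
  have key := norm_le_gronwallBound_of_norm_deriv_right_le (f := F)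
    (f' := fun x => -(F x * (L2 (⟨1 / 2 + (κ - x), t⟩ : ℂ) - (l : ℂ)))) (δ := ‖F 0‖)
    (K := 14 / t) (ε := 0) (a := 0) (b := κ)
    (fun u hu => (hFd u hu).continuousAt.continuousWithinAt)
    (fun u hu => (hFd u (Ico_subset_Icc_self hu)).hasDerivWithinAt) le_rfl (by
      intro u hu
      have h1 := L2_close (s := (⟨1 / 2 + (κ - u), t⟩ : ℂ)) (by simp; linarith [hu.2])
        (by simp; linarith [hu.1]) ht
      rw [norm_neg, norm_mul, add_zero, mul_comm]
      exact mul_le_mul_of_nonneg_right h1 (norm_nonneg _)) κ (by simp [hκ])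
  rw [gronwallBound_ε0] at key
  have hFκ : ‖F κ‖ = 1 := by
    simp only [F, sub_self, zero_mul, ofReal_zero, neg_zero, Complex.exp_zero, mul_one, add_zero]
    rw [half_line, norm_XX_half]
  have hF0 : ‖F 0‖ = ‖XX (⟨1 / 2 + κ, t⟩ : ℂ)‖ * Real.exp (-(κ * l)) := by
    simp only [F, sub_zero]
    rw [norm_mul, Complex.norm_exp]
    simp
  rw [hFκ, hF0] at key
  have h3 := XX_mul' (s := (⟨1 / 2 + κ, t⟩ : ℂ)) (by simp; linarith)
  have h5 : ‖XX (⟨1 / 2 + κ, t⟩ : ℂ)‖ * ‖XX (1 - (⟨1 / 2 + κ, t⟩ : ℂ))‖ = 1 := by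
    rw [← norm_mul, h3, norm_one]
  set A := ‖XX (⟨1 / 2 + κ, t⟩ : ℂ)‖ with hA
  have hA0 : 0 ≤ A := norm_nonneg _
  have hB0 : 0 ≤ ‖XX (1 - (⟨1 / 2 + κ, t⟩ : ℂ))‖ := norm_nonneg _
  calc ‖XX (1 - (⟨1 / 2 + κ, t⟩ : ℂ))‖
      ≤ ‖XX (1 - (⟨1 / 2 + κ, t⟩ : ℂ))‖ * (A * Real.exp (-(κ * l)) * Real.exp (14 / t * (κ - 0))) :=
        le_mul_of_one_le_right hB0 key
    _ = (A * ‖XX (1 - (⟨1 / 2 + κ, t⟩ : ℂ))‖) * (Real.exp (-(κ * l)) * Real.exp (14 / t * (κ - 0))) := by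
        ring
    _ = _ := by
        rw [h5, one_mul, ← Real.exp_add]
        congr 1
        ring

/-- the phase along the critical line -/
theorem phase_close {β y a t t' : ℝ} (hy : Real.log y = -2 - 4 * Real.pi * β - 2 * Real.log (2 * Real.pi))
    (ha : 12 ≤ a) (ht : a ≤ t) (ht' : a ≤ t') :
    ‖uu y t * cexp (((2 * (t * Real.log t) + 4 * Real.pi * β * t : ℝ) : ℂ) * I) -
      uu y t' * cexp (((2 * (t' * Real.log t') + 4 * Real.pi * β * t' : ℝ) : ℂ) * I)‖ ≤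
      28 / a * |t - t'| := by
  have ha0 : 0 < a := by linarith
  let v : ℝ → ℂ := fun t => uu y t * cexp (((2 * (t * Real.log t) + 4 * Real.pi * β * t : ℝ) : ℂ) * I)
  have hvn : ∀ t, ‖v t‖ = 1 := by
    intro t
    simp only [v]
    rw [norm_mul, norm_uu, Complex.norm_exp_ofReal_mul_I, mul_one]
  have hd : ∀ t ∈ Ici a, HasDerivAt v
      (v t * (-2 * I * (L2 (1 / 2 + (t : ℂ) * I) - (Real.log (t / (2 * Real.pi)) : ℂ)))) t := by
    intro t ht
    rw [mem_Ici] at ht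
    have ht0 : 0 < t := by linarith
    have d1 := hasDerivAt_XX (s := 1 / 2 + (t : ℂ) * I) (by simp) (by simp; linarith)
    have d2 : HasDerivAt (fun t : ℝ => 1 / 2 + (t : ℂ) * I) I t := by
      have := ((Complex.ofRealCLM.hasDerivAt (x := t)).mul_const I).const_add (1 / 2)
      simpa using this
    have d3 := d1.comp t d2
    have hne : XX (1 / 2 + (t : ℂ) * I) ≠ 0 := XX_ne (by simp) (by simp; linarith)
    have d4 := (d3.inv hne).pow 2
    have d5 : HasDerivAt (fun t : ℝ => ((t * Real.log y : ℝ) : ℂ) * I) ((Real.log y : ℂ) * I) t := by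
      have := (((hasDerivAt_id t).mul_const (Real.log y)).ofReal_comp).mul_const I
      simpa using this
    have d6 : HasDerivAt (fun t : ℝ => ((2 * (t * Real.log t) + 4 * Real.pi * β * t : ℝ) : ℂ) * I)
        (((2 * (Real.log t + 1) + 4 * Real.pi * β : ℝ) : ℂ) * I) t := by
      have h1 : HasDerivAt (fun t : ℝ => t * Real.log t) (Real.log t + 1) t :=
        Real.hasDerivAt_mul_log ht0.ne'
      have h2 := ((h1.const_mul 2).add ((hasDerivAt_id t).const_mul (4 * Real.pi * β)))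
      have h3 := (h2.ofReal_comp).mul_const I
      simpa using h3
    have d7 := (d4.mul d5.cexp).mul d6.cexp
    refine HasDerivAt.congr_deriv d7 ?_
    simp only [v, uu, Function.comp, Pi.mul_apply, Pi.inv_apply, Pi.pow_apply]
    have hlog : (Real.log (t / (2 * Real.pi)) : ℂ) = (Real.log t : ℂ) - (Real.log (2 * Real.pi) : ℂ) := by
      rw [Real.log_div ht0.ne' (by positivity)]
      push_cast
      ring
    have hy' : (Real.log y : ℂ) = -2 - 4 * Real.pi * β - 2 * (Real.log (2 * Real.pi) : ℂ) := by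
      rw [hy]; push_cast; ring
    rw [hlog, hy']
    push_cast
    field_simp
    ring
  have hb : ∀ t ∈ Ici a, ‖v t * (-2 * I * (L2 (1 / 2 + (t : ℂ) * I) -
      (Real.log (t / (2 * Real.pi)) : ℂ)))‖ ≤ 28 / a := by
    intro t ht
    rw [mem_Ici] at ht
    have h1 := L2_close (s := 1 / 2 + (t : ℂ) * I) (by simp) (by simp; norm_num) (by simp; linarith)
    have him : (1 / 2 + (t : ℂ) * I).im = t := by simp
    rw [him] at h1
    rw [norm_mul, hvn, one_mul, norm_mul, norm_mul, norm_I, norm_neg]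
    have h2 : ‖(2 : ℂ)‖ = 2 := by simp
    rw [h2, mul_one]
    have h3 : 14 / t ≤ 14 / a := div_le_div_of_nonneg_left (by norm_num) ha0 ht
    calc 2 * ‖L2 (1 / 2 + (t : ℂ) * I) - (Real.log (t / (2 * Real.pi)) : ℂ)‖ ≤ 2 * (14 / a) := by
          gcongr
          exact h1.trans h3
      _ = 28 / a := by ring
  have key := (convex_Ici a).norm_image_sub_le_of_norm_hasDerivWithin_le
    (f := v) (f' := fun t => v t * (-2 * I * (L2 (1 / 2 + (t : ℂ) * I) -
      (Real.log (t / (2 * Real.pi)) : ℂ)))) (C := 28 / a)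
    (fun t ht => (hd t ht).hasDerivWithinAt) hb (mem_Ici.2 ht') (mem_Ici.2 ht)
  simpa [v, Real.norm_eq_abs] using key

end Pool.Agent.N806.AH
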