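import Pool.Agent.N806.AH.Low2

/-! The core contradiction. -/

set_option autoImplicit false

open Complex Filter Topology Set MeasureTheory Metric

namespace Pool.Agent.N806.AH

open H345 H345.Chi
open scoped ENNReal

lemma EE_tendsto (ℓ : ℕ) : Tendsto (fun H : ℝ => EE ℓ H) atTop (𝓝 0) := by
  unfold EE
  have h1 : Tendsto (fun H : ℝ => (H ^ 2 - 16) / (8 * ((ℓ : ℝ) + 1) ^ 2)) atTop atTop := by
    apply Tendsto.atTop_div_const (by positivity)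
    exact tendsto_atTop_add_const_right _ _ (tendsto_pow_atTop two_ne_zero)
  have h2 := (Real.tendsto_exp_neg_atTop_nhds_zero.comp h1).const_mul (4 * (ℓ : ℝ) ^ 3)
  rw [mul_zero] at h2
  exact h2

theorem core (hRH : RiemannHypothesis) {y : ℝ} (hy : 0 < y) {m : ℕ} (hm : 1 ≤ m) {CC : Finset ℕ}
    (hCC : ∀ n : ℕ, 1 ≤ n → Squarefree n → n % m ∈ CC) (LL : Finset ℕ)
    (hLL : ∀ ℓ ∈ LL, 1 ≤ ℓ ∧ Squarefree ℓ) {σ : ℝ} (hσ : 0 < σ) (hσy : σ ≤ 1 / y)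
    (hsep : ∀ ℓ ∈ LL, ∀ ℓ' ∈ LL, ℓ ≠ ℓ' → ∀ k : ℤ, σ ≤ |(ℓ : ℝ) - ℓ' - k * (1 / y)|)
    (hbig : (CC.card : ℝ) / m < LL.card * y) :
    ∃ Cr K M0 c0 ϑ L0 : ℝ, 1 ≤ Cr ∧ 1 ≤ K ∧ 1 ≤ M0 ∧ 0 < c0 ∧ 0 < ϑ ∧ 1 ≤ L0 ∧
    ∀ L : ℝ, L0 ≤ L → ∀ (D : ℝ → ℝ) (d ε : ℝ), 1 / (8 * L) ≤ d → d ≤ 1 / L → 0 ≤ ε →
    ε ≤ c0 / Real.sqrt L → GH y Cr L K d ε D →
    ENNReal.ofReal (ϑ * Real.exp L) <
      volume (Icc (Real.exp L) (Cr * Real.exp L) ∩ {t | D t < M0 * L ^ 2}) := by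
  classical
  have hpi := Real.pi_pos
  have hm0 : (0 : ℝ) < m := by exact_mod_cast hm
  have hl2 : 0 < Real.log 2 := Real.log_pos (by norm_num)
  have hN : 0 < (LL.card : ℝ) := by
    rcases Nat.eq_zero_or_pos LL.card with h | h
    · rw [h, Nat.cast_zero, zero_mul] at hbig
      have : 0 ≤ (CC.card : ℝ) / m := by positivity
      linarith
    · exact_mod_cast h
  set U : ℝ := (CC.card : ℝ) * Real.log 2 / (4 * Real.pi * m * y ^ 2) with hU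
  set V : ℝ := (LL.card : ℝ) * Real.log 2 / (4 * Real.pi * y) with hV
  have hV0 : 0 < V := by positivity
  have hU0 : 0 ≤ U := by positivity
  have hUV : U < V := by
    have h1 : U = (CC.card : ℝ) / m * (Real.log 2 / (4 * Real.pi * y ^ 2)) := by rw [hU]; field_simp
    have h2 : V = (LL.card * y) * (Real.log 2 / (4 * Real.pi * y ^ 2)) := by rw [hV]; field_simp
    rw [h1, h2]
    apply mul_lt_mul_of_pos_right hbig
    positivity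
  set g : ℝ := (V - U) / 8 with hg
  have hg0 : 0 < g := by rw [hg]; linarith
  -- choice of τ
  obtain ⟨τ, hτ0, hτ1, hτ2⟩ : ∃ τ : ℝ, 0 < τ ∧ (∀ ℓ ∈ LL, (ℓ : ℝ) * (Real.exp τ - 1) ≤ σ / 3) ∧
      Real.exp τ * ((CC.card : ℝ) / y) * ((Real.log 2 + 2 * τ) / (4 * Real.pi * m * y)) ≤ U + g := by
    have h1 : ∀ᶠ τ in 𝓝 (0 : ℝ), ∀ ℓ ∈ LL, (ℓ : ℝ) * (Real.exp τ - 1) < σ / 3 := by
      rw [eventually_all_finset]
      intro ℓ _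
      have hc : ContinuousAt (fun τ : ℝ => (ℓ : ℝ) * (Real.exp τ - 1)) 0 := by fun_prop
      apply hc.eventually_lt continuousAt_const
      simp
      positivity
    have h2 : ∀ᶠ τ in 𝓝 (0 : ℝ), Real.exp τ * ((CC.card : ℝ) / y) *
        ((Real.log 2 + 2 * τ) / (4 * Real.pi * m * y)) < U + g := by
      have hc : ContinuousAt (fun τ : ℝ => Real.exp τ * ((CC.card : ℝ) / y) *
        ((Real.log 2 + 2 * τ) / (4 * Real.pi * m * y))) 0 := by fun_prop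
      apply hc.eventually_lt continuousAt_const
      have h3 : Real.exp 0 * ((CC.card : ℝ) / y) * ((Real.log 2 + 2 * 0) / (4 * Real.pi * m * y)) = U := by
        rw [Real.exp_zero, hU]
        field_simp
        ring
      rw [h3]
      linarith
    have h3 : ∀ᶠ τ in 𝓝[>] (0 : ℝ), (0 : ℝ) < τ := eventually_mem_nhdsWithin
    obtain ⟨τ, ha, hb, hc⟩ := (h3.and ((h1.filter_mono nhdsWithin_le_nhds).and
      (h2.filter_mono nhdsWithin_le_nhds))).exists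
    exact ⟨τ, ha, fun ℓ hℓ => (hb ℓ hℓ).le, hc.le⟩
  -- ω
  set ω : ℝ := min (g / (6 * V)) (1 / 6) with hω
  have hω0 : 0 < ω := lt_min (by positivity) (by norm_num)
  have hω6 : ω ≤ 1 / 6 := min_le_right _ _
  have hωV : 6 * ω * V ≤ g := by
    have : ω ≤ g / (6 * V) := min_le_left _ _
    rw [le_div_iff₀ (by positivity)] at this
    linarith
  -- choice of H
  set CS := ∑ ℓ ∈ LL, 1024 / y * ((ℓ : ℝ) * y + 1) with hCS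
  have hCS0 : 0 ≤ CS := Finset.sum_nonneg fun ℓ _ => by positivity
  obtain ⟨H, hH4, hH1, hH2⟩ : ∃ H : ℝ, 4 ≤ H ∧ (∀ ℓ ∈ LL, 3 * EE ℓ H ≤ ω) ∧
      8 * Real.exp (-((H ^ 2 - 16) * τ ^ 2 / 2)) * CS * (Real.pi * (1 + 1 / (4 * Real.pi * y))) ≤ g := by
    have h1 : ∀ᶠ H in (atTop : Filter ℝ), ∀ ℓ ∈ LL, 3 * EE ℓ H < ω := by
      rw [eventually_all_finset]
      intro ℓ _
      have := (EE_tendsto ℓ).const_mul 3
      rw [mul_zero] at this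
      exact this.eventually_lt_const hω0
    have h2 : ∀ᶠ H in (atTop : Filter ℝ), 8 * Real.exp (-((H ^ 2 - 16) * τ ^ 2 / 2)) * CS *
        (Real.pi * (1 + 1 / (4 * Real.pi * y))) < g := by
      have h3 : Tendsto (fun H : ℝ => (H ^ 2 - 16) * τ ^ 2 / 2) atTop atTop := by
        apply Tendsto.atTop_div_const (by norm_num)
        apply Tendsto.atTop_mul_const (by positivity)
        exact tendsto_atTop_add_const_right _ _ (tendsto_pow_atTop two_ne_zero)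
      have h4 := (((Real.tendsto_exp_neg_atTop_nhds_zero.comp h3).const_mul 8).mul_const CS).mul_const
        (Real.pi * (1 + 1 / (4 * Real.pi * y)))
      rw [mul_zero, zero_mul, zero_mul] at h4
      exact h4.eventually_lt_const hg0
    obtain ⟨H, ha, hb, hc⟩ := ((eventually_ge_atTop (4 : ℝ)).and (h1.and h2)).exists
    exact ⟨H, ha, fun ℓ hℓ => (hb ℓ hℓ).le, hc.le⟩
  -- Cr
  set Cr : ℝ := 1 + 2 * (∑ ℓ ∈ LL, (ℓ : ℝ)) / ω ^ 2 with hCr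
  have hsumℓ : 0 ≤ ∑ ℓ ∈ LL, (ℓ : ℝ) := Finset.sum_nonneg fun ℓ _ => Nat.cast_nonneg ℓ
  have hCr1 : 1 ≤ Cr := by
    rw [hCr]
    have : 0 ≤ 2 * (∑ ℓ ∈ LL, (ℓ : ℝ)) / ω ^ 2 := by positivity
    linarith
  have hCrℓ : ∀ ℓ ∈ LL, 2 * (ℓ : ℝ) ≤ ω ^ 2 * Cr := by
    intro ℓ hℓ
    have h1 : (ℓ : ℝ) ≤ ∑ ℓ ∈ LL, (ℓ : ℝ) :=
      Finset.single_le_sum (f := fun ℓ : ℕ => (ℓ : ℝ)) (fun ℓ _ => Nat.cast_nonneg ℓ) hℓ
    rw [hCr]
    have h2 : ω ^ 2 * (1 + 2 * (∑ ℓ ∈ LL, (ℓ : ℝ)) / ω ^ 2) = ω ^ 2 + 2 * ∑ ℓ ∈ LL, (ℓ : ℝ) := by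
      field_simp
    rw [h2]
    nlinarith [sq_nonneg ω]
  have hall : ∀ ℓ ∈ LL, ∃ K0 K' c0 ϑ : ℝ, 1 ≤ K0 ∧ 1 ≤ K' ∧ 0 < c0 ∧ 0 < ϑ ∧ ∀ K : ℝ, K0 ≤ K →
      ∃ L1 : ℝ, 1 ≤ L1 ∧ ∀ L : ℝ, L1 ≤ L → ∀ (D : ℝ → ℝ) (d ε : ℝ), 1 / (8 * L) ≤ d → d ≤ 1 / L → 0 ≤ ε →
      ε ≤ c0 / Real.sqrt L → GH y Cr L K d ε D →
      volume (Icc (Real.exp L) (Cr * Real.exp L) ∩ {t | D t < (K' + 2 * K) * L ^ 2}) ≤
        ENNReal.ofReal (ϑ * Real.exp L) →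
      ENNReal.ofReal (((1 - 3 * EE ℓ H) ^ 2 * (1 - 3 * ω) - ω) * Real.log 2 / (4 * Real.pi * y)) ≤
        AA y (ω / 2 * Real.exp (-L)) ℓ H := fun ℓ hℓ =>
    lower_ell hRH hy hω0 (by linarith) hCr1 (hLL ℓ hℓ).1 (hLL ℓ hℓ).2 (hCrℓ ℓ hℓ) hH4
      ((hH1 ℓ hℓ).trans (by linarith)) hω0
  choose! K0 K' c0 ϑ hK0 hK' hc0 hϑ hall2 using hall
  set K : ℝ := 1 + ∑ ℓ ∈ LL, K0 ℓ with hK
  have hKge : ∀ ℓ ∈ LL, K0 ℓ ≤ K := by
    intro ℓ hℓ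
    have := Finset.single_le_sum (f := K0) (fun ℓ hℓ => by linarith [hK0 ℓ hℓ]) hℓ
    rw [hK]; linarith
  have hK1 : 1 ≤ K := by
    have : 0 ≤ ∑ ℓ ∈ LL, K0 ℓ := Finset.sum_nonneg fun ℓ hℓ => by linarith [hK0 ℓ hℓ]
    rw [hK]; linarith
  have hall3 : ∀ ℓ ∈ LL, _ := fun ℓ hℓ => hall2 ℓ hℓ K (hKge ℓ hℓ)
  choose! L1 hL1 hall4 using hall3
  set M0 : ℝ := ∑ ℓ ∈ LL, K' ℓ + 2 * K with hM0
  have hM0ge : ∀ ℓ ∈ LL, K' ℓ + 2 * K ≤ M0 := by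
    intro ℓ hℓ
    have := Finset.single_le_sum (f := K') (fun ℓ hℓ => by linarith [hK' ℓ hℓ]) hℓ
    rw [hM0]; linarith
  set cm : ℝ := 1 / (1 + ∑ ℓ ∈ LL, 1 / c0 ℓ) with hcm
  have hsc : 0 ≤ ∑ ℓ ∈ LL, 1 / c0 ℓ := Finset.sum_nonneg fun ℓ hℓ => (one_div_pos.2 (hc0 ℓ hℓ)).le
  have hcm0 : 0 < cm := by positivity
  have hcmle : ∀ ℓ ∈ LL, cm ≤ c0 ℓ := by
    intro ℓ hℓ
    have h1 := Finset.single_le_sum (f := fun ℓ => 1 / c0 ℓ) (fun ℓ hℓ => (one_div_pos.2 (hc0 ℓ hℓ)).le) hℓ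
    have h2 := hc0 ℓ hℓ
    rw [hcm, div_le_iff₀ (by positivity)]
    have h3 : c0 ℓ * (1 / c0 ℓ) = 1 := by field_simp
    nlinarith
  set ϑm : ℝ := 1 / (1 + ∑ ℓ ∈ LL, 1 / ϑ ℓ) with hϑm
  have hsϑ : 0 ≤ ∑ ℓ ∈ LL, 1 / ϑ ℓ := Finset.sum_nonneg fun ℓ hℓ => (one_div_pos.2 (hϑ ℓ hℓ)).le
  have hϑm0 : 0 < ϑm := by positivity
  have hϑmle : ∀ ℓ ∈ LL, ϑm ≤ ϑ ℓ := by
    intro ℓ hℓ
    have h1 := Finset.single_le_sum (f := fun ℓ => 1 / ϑ ℓ) (fun ℓ hℓ => (one_div_pos.2 (hϑ ℓ hℓ)).le) hℓ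
    have h2 := hϑ ℓ hℓ
    rw [hϑm, div_le_iff₀ (by positivity)]
    have h3 : ϑ ℓ * (1 / ϑ ℓ) = 1 := by field_simp
    nlinarith
  -- large L
  set Z : ℝ := Real.exp τ * ((CC.card : ℝ) / y) * Real.exp τ with hZ
  have hZ0 : 0 ≤ Z := by positivity
  have hsL : 0 ≤ ∑ ℓ ∈ LL, L1 ℓ := Finset.sum_nonneg fun ℓ hℓ => by linarith [hL1 ℓ hℓ]
  refine ⟨Cr, K, M0, cm, ϑm, 1 + ∑ ℓ ∈ LL, L1 ℓ + Z / g, hCr1, hK1, ?_, hcm0, hϑm0, ?_, ?_⟩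
  · have : 0 ≤ ∑ ℓ ∈ LL, K' ℓ := Finset.sum_nonneg fun ℓ hℓ => by linarith [hK' ℓ hℓ]
    rw [hM0]; linarith
  · have : 0 ≤ Z / g := by positivity
    linarith
  intro L hL D d ε hd hdL hε hεc hG
  by_contra hcon
  rw [not_lt] at hcon
  have hZg : 0 ≤ Z / g := by positivity
  have hL1' : ∀ ℓ ∈ LL, L1 ℓ ≤ L := by
    intro ℓ hℓ
    have := Finset.single_le_sum (f := L1) (fun ℓ hℓ => by linarith [hL1 ℓ hℓ]) hℓ
    linarith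
  have hLpos : 1 ≤ L := by linarith
  have hsq : 0 < Real.sqrt L := Real.sqrt_pos.2 (by linarith)
  set δ1 : ℝ := ω / 2 * Real.exp (-L) with hδ1
  have hδ10 : 0 < δ1 := by positivity
  have hlow : ∀ ℓ ∈ LL, ENNReal.ofReal ((1 - 6 * ω) * Real.log 2 / (4 * Real.pi * y)) ≤ AA y δ1 ℓ H := by
    intro ℓ hℓ
    refine le_trans (ENNReal.ofReal_le_ofReal ?_) (hall4 ℓ hℓ L (hL1' ℓ hℓ) D d ε hd hdL hε
      (hεc.trans (by gcongr; exact hcmle ℓ hℓ)) hG ?_)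
    · have h1 := hH1 ℓ hℓ
      have h2 := EE_pos (hLL ℓ hℓ).1 H
      have h3 : (1 - ω) ^ 2 ≤ (1 - 3 * EE ℓ H) ^ 2 := by
        apply pow_le_pow_left₀ (by linarith)
        linarith
      have h4 : 1 - 6 * ω ≤ (1 - 3 * EE ℓ H) ^ 2 * (1 - 3 * ω) - ω := by
        have h5 : 0 ≤ 1 - 3 * ω := by linarith
        have h6 : (1 - ω) ^ 2 * (1 - 3 * ω) ≤ (1 - 3 * EE ℓ H) ^ 2 * (1 - 3 * ω) := by gcongr
        nlinarith [sq_nonneg ω, mul_nonneg (sq_nonneg ω) h5]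
      gcongr
    · refine le_trans (measure_mono ?_) (hcon.trans (ENNReal.ofReal_le_ofReal ?_))
      · intro t ht
        refine ⟨ht.1, ?_⟩
        have h1 : D t < (K' ℓ + 2 * K) * L ^ 2 := ht.2
        have h2 : (K' ℓ + 2 * K) * L ^ 2 ≤ M0 * L ^ 2 := by gcongr; exact hM0ge ℓ hℓ
        show D t < M0 * L ^ 2
        linarith
      · gcongr
        exact hϑmle ℓ hℓ
  have hsum : ENNReal.ofReal (V * (1 - 6 * ω)) ≤ ∑ ℓ ∈ LL, AA y δ1 ℓ H := by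
    have h1 := Finset.sum_le_sum hlow
    rw [Finset.sum_const, nsmul_eq_mul] at h1
    refine le_trans (le_of_eq ?_) h1
    have h2 : V * (1 - 6 * ω) = (LL.card : ℝ) * ((1 - 6 * ω) * Real.log 2 / (4 * Real.pi * y)) := by
      rw [hV]; ring
    rw [h2, ENNReal.ofReal_mul hN.le, ENNReal.ofReal_natCast]
  have hup := bessel_upper hy hm hCC LL (fun ℓ hℓ => (hLL ℓ hℓ).1) hσ hσy (w := σ / 3) (by positivity) le_rfl
    hτ0.le hτ1 hsep hH4 hδ10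
  have hexpL : Real.exp (-L) ≤ 1 / (1 + L) := exp_neg_le_inv (by linarith)
  have hδ11 : δ1 ≤ 1 := by
    rw [hδ1]
    have h1 : Real.exp (-L) ≤ 1 := Real.exp_le_one_iff.2 (by linarith)
    have h2 := Real.exp_pos (-L)
    nlinarith
  have hZδ : Z * (2 * δ1) ≤ g := by
    have h1 : 2 * δ1 ≤ 1 / (1 + L) := by
      rw [hδ1]
      have h2 := Real.exp_pos (-L)
      nlinarith
    calc Z * (2 * δ1) ≤ Z * (1 / (1 + L)) := by gcongr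
      _ ≤ g := by
          rw [mul_one_div, div_le_iff₀ (by linarith)]
          have h3 : Z / g ≤ L := by linarith
          rw [div_le_iff₀ hg0] at h3
          nlinarith
  have hup1 : Real.exp τ * ((CC.card : ℝ) / y) * (2 * δ1 * Real.exp τ +
      (Real.log 2 + 2 * τ) / (4 * Real.pi * m * y)) ≤ U + 2 * g := by
    have h1 : Real.exp τ * ((CC.card : ℝ) / y) * (2 * δ1 * Real.exp τ +
      (Real.log 2 + 2 * τ) / (4 * Real.pi * m * y)) = Z * (2 * δ1) +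
      Real.exp τ * ((CC.card : ℝ) / y) * ((Real.log 2 + 2 * τ) / (4 * Real.pi * m * y)) := by
      rw [hZ]; ring
    rw [h1]
    linarith
  have hup2 : 8 * Real.exp (-((H ^ 2 - 16) * τ ^ 2 / 2)) * CS * (Real.pi * (δ1 + 1 / (4 * Real.pi * y))) ≤ g := by
    refine le_trans ?_ hH2
    gcongr
  have hfin := hsum.trans hup
  rw [← ENNReal.ofReal_add (by positivity) (by positivity)] at hfin
  have h1 : 0 ≤ Real.exp τ * ((CC.card : ℝ) / y) * (2 * δ1 * Real.exp τ +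
      (Real.log 2 + 2 * τ) / (4 * Real.pi * m * y)) +
      8 * Real.exp (-((H ^ 2 - 16) * τ ^ 2 / 2)) * CS * (Real.pi * (δ1 + 1 / (4 * Real.pi * y))) := by
    positivity
  have h2 := (ENNReal.ofReal_le_ofReal_iff h1).1 hfin
  have h3 : V - U = 8 * g := by rw [hg]; ring
  nlinarith

end Pool.Agent.N806.AH
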