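import Pool.Agent.N806.AH.AFE

/-! Mean square of the smoothed partial sum. -/

set_option autoImplicit false

open Complex Filter Topology Set MeasureTheory Metric

namespace Pool.Agent.N806.AH

lemma rpow_sum {κ : ℝ} (hκ : 0 < κ) (N : ℕ) :
    ∑ n ∈ Finset.Icc 1 N, (n : ℝ) ^ (-(1 + 2 * κ)) ≤ 1 + 1 / (2 * κ) := by
  have key : ∀ N : ℕ, ∑ n ∈ Finset.Icc 1 (N + 1), (n : ℝ) ^ (-(1 + 2 * κ)) ≤
      1 + 1 / (2 * κ) * (1 - ((N + 1 : ℕ) : ℝ) ^ (-(2 * κ))) := by
    intro N
    induction N with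
    | zero => simp
    | succ N ih =>
      rw [Finset.sum_Icc_succ_top (by omega)]
      -- the step: (N+2)^{-1-2κ} ≤ (1/(2κ)) ((N+1)^{-2κ} - (N+2)^{-2κ})
      have hN1 : (0 : ℝ) < ((N + 1 : ℕ) : ℝ) := by positivity
      have hlt : ((N + 1 : ℕ) : ℝ) < ((N + 1 + 1 : ℕ) : ℝ) := by push_cast; linarith
      have hN2 : (0 : ℝ) < ((N + 1 + 1 : ℕ) : ℝ) := by positivity
      obtain ⟨c, hc, hc2⟩ := exists_hasDerivAt_eq_slope (fun x : ℝ => x ^ (-(2 * κ)))
        (fun x => -(2 * κ) * x ^ (-(2 * κ) - 1)) hlt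
        (fun x hx => (Real.continuousAt_rpow_const x _ (Or.inl (by linarith [hx.1]))).continuousWithinAt)
        (fun x hx => Real.hasDerivAt_rpow_const (Or.inl (by linarith [hx.1])))
      have hgap : ((N + 1 + 1 : ℕ) : ℝ) - ((N + 1 : ℕ) : ℝ) = 1 := by push_cast; ring
      rw [hgap, div_one] at hc2
      have hc0 : 0 < c := hN1.trans hc.1
      have h1 : ((N + 1 + 1 : ℕ) : ℝ) ^ (-(1 + 2 * κ)) ≤ c ^ (-(2 * κ) - 1) := by
        rw [show -(2 * κ) - 1 = -(1 + 2 * κ) by ring]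
        exact Real.rpow_le_rpow_of_nonpos hc0 hc.2.le (by linarith)
      have h2 : c ^ (-(2 * κ) - 1) = 1 / (2 * κ) *
          (((N + 1 : ℕ) : ℝ) ^ (-(2 * κ)) - ((N + 1 + 1 : ℕ) : ℝ) ^ (-(2 * κ))) := by
        field_simp
        linarith
      rw [h2] at h1
      linarith
  rcases N with _ | N
  · simp
    positivity
  · refine (key N).trans ?_
    have h1 : 0 ≤ ((N + 1 : ℕ) : ℝ) ^ (-(2 * κ)) := by positivity
    have h2 : 0 < 1 / (2 * κ) := by positivity
    nlinarith

lemma norm_bD (κ L : ℝ) (n : ℕ) : ‖bD κ L n‖ ≤ (n : ℝ) ^ (-(1 / 2 + κ)) * Vr (Real.log n - L) := by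
  unfold bD
  rw [norm_mul, Complex.norm_real, Real.norm_eq_abs,
    abs_of_nonneg (mul_nonneg (by positivity) (Vr_nonneg _))]
  have h1 := norm_mu n
  have h2 : 0 ≤ (n : ℝ) ^ (-(1 / 2 + κ)) * Vr (Real.log n - L) := mul_nonneg (by positivity) (Vr_nonneg _)
  nlinarith

lemma Vr_tail {L : ℝ} {n : ℕ} (hn : 1 ≤ n) : Vr (Real.log n - L) ≤ 10 * Real.exp (2 * L) / (n : ℝ) ^ 2 := by
  have hn0 : (0 : ℝ) < n := by exact_mod_cast hn
  refine (Vr_le_exp _).trans (le_of_eq ?_)
  rw [show -(2 * (Real.log n - L)) = 2 * L - 2 * Real.log n by ring, Real.exp_sub,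
    show (2 : ℝ) * Real.log n = ((2 : ℕ) : ℝ) * Real.log n by norm_num, Real.exp_nat_mul,
    Real.exp_log hn0]
  ring

lemma bD_summable {κ : ℝ} (hκ : 0 ≤ κ) (L : ℝ) : Summable (fun n => ‖bD κ L n‖) := by
  have h1 : Summable (fun n : ℕ => 10 * Real.exp (2 * L) * (1 / (n : ℝ) ^ 2)) :=
    (Real.summable_one_div_nat_pow.2 one_lt_two).mul_left _
  refine Summable.of_nonneg_of_le (fun n => norm_nonneg _) (fun n => ?_) h1
  rcases Nat.eq_zero_or_pos n with hn | hn
  · subst hn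
    simp [bD, mu_zero]
  refine (norm_bD κ L n).trans ?_
  have h2 : (n : ℝ) ^ (-(1 / 2 + κ)) ≤ 1 :=
    Real.rpow_le_one_of_one_le_of_nonpos (by exact_mod_cast hn) (by linarith)
  have h3 := Vr_tail (L := L) hn
  have h4 := Vr_nonneg (Real.log n - L)
  calc _ ≤ 1 * Vr (Real.log n - L) := by gcongr
    _ ≤ _ := by rw [one_mul, mul_one_div]; exact h3

lemma DD_cont {κ : ℝ} (hκ : 0 ≤ κ) (L : ℝ) : Continuous (DD κ L) := by
  unfold DD
  apply continuous_tsum (fun n => continuous_const.mul (cont_ph n)) (bD_summable hκ L)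
  intro n t
  show ‖bD κ L n * ph n t‖ ≤ _
  rw [norm_mul, norm_ph, mul_one]

theorem dd_ms {L : ℝ} (hL : 1 ≤ L) {A B : ℝ} (hAB : 8 ≤ B - A) :
    ∫ t in A..B, ‖DD (1 / L) L t‖ ^ 2 ≤ 4000 * ((B - A) + Real.exp L) * L := by
  have hL0 : 0 < L := by linarith
  set D := B - A with hD
  have hκ : 0 < 1 / L := by positivity
  have hexp : 0 < Real.exp L := Real.exp_pos _
  have hexp1 : 1 ≤ Real.exp L := Real.one_le_exp hL0.le
  have key := mv_tsum (bD (1 / L) L) (bD_summable hκ.le L) (S := 6 * D * (1 + L / 2) + 26 * (21 * Real.exp L))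
    (A := A) (B := B) hAB (by
    intro N
    rw [← hD]
    have hb : ∀ n ∈ Finset.Icc 1 N, ‖bD (1 / L) L n‖ ^ 2 * (6 * D + 26 * n) ≤
        6 * D * (n : ℝ) ^ (-(1 + 2 * (1 / L))) + 26 * Vr (Real.log n - L) := by
      intro n hn
      rw [Finset.mem_Icc] at hn
      have hn1 : (1 : ℝ) ≤ n := by exact_mod_cast hn.1
      have hn0 : (0 : ℝ) < n := by linarith
      have h1 := norm_bD (1 / L) L n
      have hV0 := Vr_nonneg (Real.log n - L)
      have hV1 := Vr_le_one (Real.log n - L)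
      set r := (n : ℝ) ^ (-(1 / 2 + 1 / L)) with hr
      have hr0 : 0 ≤ r := by positivity
      have hr2 : r ^ 2 = (n : ℝ) ^ (-(1 + 2 * (1 / L))) := by
        rw [hr, ← Real.rpow_natCast, ← Real.rpow_mul hn0.le]
        congr 1
        push_cast
        ring
      have hr3 : r ^ 2 * n ≤ 1 := by
        rw [hr2]
        have h2 : (n : ℝ) ^ (-(1 + 2 * (1 / L))) ≤ (n : ℝ) ^ (-(1 : ℝ)) := by
          apply Real.rpow_le_rpow_of_exponent_le hn1
          linarith
        calc (n : ℝ) ^ (-(1 + 2 * (1 / L))) * n ≤ (n : ℝ) ^ (-(1 : ℝ)) * n := by gcongr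
          _ = 1 := by rw [Real.rpow_neg_one]; field_simp
      have h3 : ‖bD (1 / L) L n‖ ^ 2 ≤ r ^ 2 * Vr (Real.log n - L) ^ 2 := by
        rw [← mul_pow]
        gcongr
      have hVsq : Vr (Real.log n - L) ^ 2 ≤ Vr (Real.log n - L) := by nlinarith
      have hVsq1 : Vr (Real.log n - L) ^ 2 ≤ 1 := by nlinarith
      have hD0 : 0 < D := by linarith
      calc ‖bD (1 / L) L n‖ ^ 2 * (6 * D + 26 * n)
          ≤ (r ^ 2 * Vr (Real.log n - L) ^ 2) * (6 * D + 26 * n) := by gcongr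
        _ = 6 * D * r ^ 2 * Vr (Real.log n - L) ^ 2 + 26 * (r ^ 2 * n) * Vr (Real.log n - L) ^ 2 := by ring
        _ ≤ 6 * D * r ^ 2 * 1 + 26 * 1 * Vr (Real.log n - L) := by
            gcongr
        _ = _ := by rw [hr2]; ring
    refine (Finset.sum_le_sum hb).trans ?_
    rw [Finset.sum_add_distrib, ← Finset.mul_sum, ← Finset.mul_sum]
    apply add_le_add
    · have hD0 : 0 < D := by linarith
      apply mul_le_mul_of_nonneg_left _ (by positivity)
      refine (rpow_sum hκ N).trans (le_of_eq ?_)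
      field_simp
    · apply mul_le_mul_of_nonneg_left _ (by norm_num)
      set M := ⌊Real.exp L⌋₊ with hM
      have hM1 : 1 ≤ M := by
        rw [hM, Nat.one_le_floor_iff]
        exact hexp1
      have hMle : (M : ℝ) ≤ Real.exp L := Nat.floor_le hexp.le
      have hMge : Real.exp L ≤ 2 * M := by
        have h1 := Nat.lt_floor_add_one (Real.exp L)
        rw [← hM] at h1
        have h2 : (1 : ℝ) ≤ M := by exact_mod_cast hM1
        linarith
      have hsplit : ∑ n ∈ Finset.Icc 1 N, Vr (Real.log n - L) ≤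
          ∑ n ∈ Finset.Icc 1 M, (1 : ℝ) + ∑ n ∈ Finset.Ioc M N, 10 * Real.exp (2 * L) * (1 / (n : ℝ) ^ 2) := by
        rcases le_or_gt N M with h | h
        · have h1 : ∑ n ∈ Finset.Icc 1 N, Vr (Real.log n - L) ≤ ∑ n ∈ Finset.Icc 1 M, (1 : ℝ) := by
            calc ∑ n ∈ Finset.Icc 1 N, Vr (Real.log n - L) ≤ ∑ n ∈ Finset.Icc 1 N, (1 : ℝ) :=
                  Finset.sum_le_sum fun n _ => Vr_le_one _
              _ ≤ _ := Finset.sum_le_sum_of_subset_of_nonneg (Finset.Icc_subset_Icc_right h)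
                  (fun _ _ _ => zero_le_one)
          have h2 : 0 ≤ ∑ n ∈ Finset.Ioc M N, 10 * Real.exp (2 * L) * (1 / (n : ℝ) ^ 2) :=
            Finset.sum_nonneg fun n _ => by positivity
          linarith
        · have h0 : Finset.Icc 1 N = Finset.Icc 1 M ∪ Finset.Ioc M N := by
            ext x
            simp only [Finset.mem_Icc, Finset.mem_union, Finset.mem_Ioc]
            omega
          rw [h0, Finset.sum_union (by
            rw [Finset.disjoint_left]
            intro x hx hx2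
            rw [Finset.mem_Icc] at hx
            rw [Finset.mem_Ioc] at hx2
            omega)]
          apply add_le_add
          · exact Finset.sum_le_sum fun n _ => Vr_le_one _
          · apply Finset.sum_le_sum
            intro n hn
            rw [Finset.mem_Ioc] at hn
            rw [mul_one_div]
            exact Vr_tail (by omega)
      refine hsplit.trans ?_
      rw [← Finset.mul_sum]
      have ht := tail_sq M N hM1
      have h1 : ∑ n ∈ Finset.Icc 1 M, (1 : ℝ) = M := by simp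
      rw [h1]
      have hM0 : (0 : ℝ) < M := by exact_mod_cast hM1
      have h2 : Real.exp (2 * L) * (1 / (M : ℝ)) ≤ 2 * Real.exp L := by
        rw [two_mul, Real.exp_add, mul_one_div, div_le_iff₀ hM0]
        nlinarith
      have h3 : 10 * Real.exp (2 * L) * ∑ n ∈ Finset.Ioc M N, 1 / (n : ℝ) ^ 2 ≤
          10 * Real.exp (2 * L) * (1 / (M : ℝ)) := by gcongr
      nlinarith) (by simp [bD, mu_zero])
  refine key.trans ?_
  have hD0 : 0 < D := by linarith
  nlinarith [mul_pos hD0 hL0, mul_pos hexp hL0]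

end Pool.Agent.N806.AH
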