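import Pool.Agent.N806.AH.LipU

/-! The `L¹` bounds for the sums over the zeros. -/

set_option autoImplicit false

open Complex Filter Topology Set MeasureTheory Metric

namespace Pool.Agent.N806.AH

open H345 H345.Chi
open scoped ENNReal NNReal

lemma far_int {F : Finset ℝ} {H q Λ h : ℝ} (hH : 0 < H) (hh : 0 < h) (hq : 0 ≤ q) (hΛ : 0 ≤ Λ) :
    ∫⁻ t : ℝ, ENNReal.ofReal (q * ∑ γ ∈ F, ‖aa γ‖ * gs (2 * H ^ 2) (γ - t) +
      Λ * ∑ γ ∈ F, ‖aa γ‖ * (|γ - t| * gs (h ^ 2) (γ - t))) =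
    ENNReal.ofReal ((q * Real.sqrt (Real.pi * (2 * H ^ 2)) + Λ * h ^ 2) * ∑ γ ∈ F, ‖aa γ‖) := by
  have i1 : ∀ γ : ℝ, Integrable (fun t : ℝ => gs (2 * H ^ 2) (γ - t)) := fun γ =>
    (gs_int (by positivity)).comp_sub_left γ
  have i2 : ∀ γ : ℝ, Integrable (fun t : ℝ => |γ - t| * gs (h ^ 2) (γ - t)) := fun γ =>
    (abs_gs_int (by positivity)).comp_sub_left γ
  have j1 : Integrable (fun t : ℝ => ∑ γ ∈ F, ‖aa γ‖ * gs (2 * H ^ 2) (γ - t)) :=
    integrable_finsetSum _ fun γ _ => (i1 γ).const_mul _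
  have j2 : Integrable (fun t : ℝ => ∑ γ ∈ F, ‖aa γ‖ * (|γ - t| * gs (h ^ 2) (γ - t))) :=
    integrable_finsetSum _ fun γ _ => (i2 γ).const_mul _
  have j3 : Integrable (fun t : ℝ => q * ∑ γ ∈ F, ‖aa γ‖ * gs (2 * H ^ 2) (γ - t) +
      Λ * ∑ γ ∈ F, ‖aa γ‖ * (|γ - t| * gs (h ^ 2) (γ - t))) := (j1.const_mul q).add (j2.const_mul Λ)
  rw [← ofReal_integral_eq_lintegral_ofReal j3]
  · congr 1
    rw [integral_add (j1.const_mul q) (j2.const_mul Λ), integral_const_mul, integral_const_mul,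
      integral_finsetSum _ (fun γ _ => (i1 γ).const_mul _), integral_finsetSum _ (fun γ _ => (i2 γ).const_mul _)]
    have e1 : ∀ γ ∈ F, ∫ t : ℝ, ‖aa γ‖ * gs (2 * H ^ 2) (γ - t) =
        ‖aa γ‖ * Real.sqrt (Real.pi * (2 * H ^ 2)) := by
      intro γ _
      rw [integral_const_mul, integral_sub_left_eq_self (fun t => gs (2 * H ^ 2) t) volume γ,
        gs_val (by positivity)]
    have e2 : ∀ γ ∈ F, ∫ t : ℝ, ‖aa γ‖ * (|γ - t| * gs (h ^ 2) (γ - t)) = ‖aa γ‖ * h ^ 2 := by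
      intro γ _
      rw [integral_const_mul, integral_sub_left_eq_self (fun t => |t| * gs (h ^ 2) t) volume γ,
        abs_gs_val (by positivity)]
    rw [Finset.sum_congr rfl e1, Finset.sum_congr rfl e2, ← Finset.sum_mul, ← Finset.sum_mul]
    ring
  · refine Eventually.of_forall fun t => ?_
    have h1 : 0 ≤ ∑ γ ∈ F, ‖aa γ‖ * gs (2 * H ^ 2) (γ - t) :=
      Finset.sum_nonneg fun γ _ => mul_nonneg (norm_nonneg _) (gs_pos _ _).le
    have h2 : 0 ≤ ∑ γ ∈ F, ‖aa γ‖ * (|γ - t| * gs (h ^ 2) (γ - t)) :=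
      Finset.sum_nonneg fun γ _ => mul_nonneg (norm_nonneg _) (mul_nonneg (abs_nonneg _) (gs_pos _ _).le)
    simp only [Pi.zero_apply]
    positivity

/-- the good zeros -/
noncomputable def FG (D : ℝ → ℝ) (L Cr M : ℝ) : Finset ℝ := by
  classical exact (ZF (Real.exp L) (Cr * Real.exp L)).filter (fun γ => M ≤ D γ)

lemma mem_FG {D : ℝ → ℝ} {L Cr M γ : ℝ} : γ ∈ FG D L Cr M ↔
    (γ ∈ Zo ∧ Real.exp L ≤ γ ∧ γ ≤ Cr * Real.exp L) ∧ M ≤ D γ := by
  classical
  unfold FG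
  rw [Finset.mem_filter, mem_ZF]

theorem nn_l1 (hRH : RiemannHypothesis) (y : ℝ) {Cr H lm : ℝ} (hCr : 1 ≤ Cr) (hH : 4 ≤ H) (hlm : 0 ≤ lm) :
    ∃ K0 K' Cs B0 R ε0 : ℝ, 1 ≤ K0 ∧ 1 ≤ K' ∧ 1 ≤ Cs ∧ 1 ≤ B0 ∧ 0 ≤ R ∧ 0 < ε0 ∧ ∀ K : ℝ, K0 ≤ K →
    ∃ L1 : ℝ, 6 ≤ L1 ∧ ∀ L : ℝ, L1 ≤ L → ∀ (D : ℝ → ℝ) (d ε : ℝ), 1 / (8 * L) ≤ d → d ≤ 1 / L → 0 ≤ ε →
    ε ≤ ε0 → GH y Cr L K d ε D → ∀ lam θ : ℝ, 0 ≤ lam → lam ≤ lm → 0 ≤ θ → θ ≤ Real.exp (-L) →
    ∑ γ ∈ FG D L Cr ((K' + K) * L ^ 2), ‖aa γ‖ ≤ Cs * Real.sqrt L * Real.exp L ∧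
    ∀ h : ℝ, 2 / Real.sqrt L ≤ h → h ≤ H →
    ∫⁻ t : ℝ, ‖NN (FG D L Cr ((K' + K) * L ^ 2)) (wz D ((K' + 2 * K) * L ^ 2) (L ^ 2) θ lam) (h ^ 2) t‖ₑ ≤
      ENNReal.ofReal (B0 * Real.exp L * Real.sqrt h + R * Real.exp L / (L * Real.sqrt L)) := by
  classical
  obtain ⟨Ka, K', Cs, La, ε0, hKa, hK', hCs, hLa, hε0, hgood⟩ := good_sums hRH y hCr
  obtain ⟨Kp, W0, Cp, Lp, hKp, hW0, hCp, hLp, hpt⟩ := pure_pt hRH hCr hH hlm
  obtain ⟨Cm, hCm, hms⟩ := ps_ms hCr (by linarith : 1 ≤ H) hlm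
  have hpi := Real.pi_pos
  have hH0 : 0 < H := by linarith
  refine ⟨max Ka Kp, K', Cs, Cr + Cm, 8 * Cp * Cr + 3 * H * Cs + 2 * H ^ 2 * Cs, ε0,
    hKa.trans (le_max_left _ _), hK', hCs, by linarith, by positivity, hε0, fun K hK => ?_⟩
  have hKKa : Ka ≤ K := (le_max_left _ _).trans hK
  have hKKp : Kp ≤ K := (le_max_right _ _).trans hK
  have hK1 : 1 ≤ K := hKa.trans hKKa
  refine ⟨max (max La Lp) 6, le_max_right _ _, fun L hL D d ε hd hdL hε hεε0 hG lam θ hlam hlam1 hθ hθ1 => ?_⟩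
  have hLLa : La ≤ L := ((le_max_left _ _).trans (le_max_left _ _)).trans hL
  have hLLp : Lp ≤ L := ((le_max_right _ _).trans (le_max_left _ _)).trans hL
  have hL6 : 6 ≤ L := (le_max_right _ _).trans hL
  have hLpos : 0 < L := by linarith
  have hL1 : 1 ≤ L := by linarith
  have hsL : 0 < Real.sqrt L := Real.sqrt_pos.2 hLpos
  have hsL1 : 1 ≤ Real.sqrt L := Real.one_le_sqrt.2 hL1
  have hsLL : Real.sqrt L ≤ L := by
    rw [Real.sqrt_le_left hLpos.le]
    nlinarith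
  have hexp : 0 < Real.exp L := Real.exp_pos L
  have hL2 : 0 < L ^ 2 := by positivity
  have hexp3 : L ^ 2 ≤ Real.exp L := by
    have h1 := Real.pow_div_factorial_le_exp L hLpos.le 3
    norm_num [Nat.factorial] at h1
    nlinarith
  have hexpm : Real.exp (-L) ≤ 1 / L ^ 2 := by
    rw [Real.exp_neg, one_div]
    exact inv_anti₀ hL2 hexp3
  have hexph : Real.exp (-(L / 2)) ≤ 8 / L ^ 2 := by
    have h1 := Real.quadratic_le_exp_of_nonneg (show 0 ≤ L / 2 by linarith)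
    rw [Real.exp_neg, ← one_div, div_le_div_iff₀ (Real.exp_pos _) hL2]
    nlinarith
  have hinv : 1 / L ^ 2 ≤ 1 / (L * Real.sqrt L) := by
    apply one_div_le_one_div_of_le (by positivity)
    nlinarith
  have hSum : ∑ γ ∈ FG D L Cr ((K' + K) * L ^ 2), ‖aa γ‖ ≤ Cs * Real.sqrt L * Real.exp L :=
    hgood K hKKa L hLLa D d ε hd hdL hε hεε0 hG _ (fun γ hγ => by
      rw [mem_FG] at hγ
      exact ⟨hγ.1.1, hγ.2⟩)
  refine ⟨hSum, fun h hh hhH => ?_⟩
  have hh0 : 0 < h := lt_of_lt_of_le (by positivity) hh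
  set M : ℝ := (K' + 2 * K) * L ^ 2 with hM
  set F := FG D L Cr ((K' + K) * L ^ 2) with hF
  set A1 : ℝ := ∑ γ ∈ F, ‖aa γ‖ with hA1
  have hA10 : 0 ≤ A1 := Finset.sum_nonneg fun γ _ => norm_nonneg _
  have hKL2 : K * L ≤ K * L ^ 2 := by
    have h1 : L ≤ L ^ 2 := by nlinarith
    nlinarith
  have hM0 : 0 < M := by positivity
  have hK'L : 0 ≤ K' * L ^ 2 := by positivity
  set q : ℝ := Real.exp (-(2 * L ^ 2)) with hq
  have hq0 : 0 ≤ q := (Real.exp_pos _).le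
  have hq1 : q ≤ 1 / L ^ 2 := by
    refine le_trans (Real.exp_le_exp.2 ?_) hexpm
    nlinarith
  have hpt' : ∀ t : ℝ, ‖NN F (wz D M (L ^ 2) θ lam) (h ^ 2) t‖ ≤
      (if M < D t then (h * ‖PS h lam t‖ + Cp * Real.exp (-(L / 2))) else 0) +
      (q * ∑ γ ∈ F, ‖aa γ‖ * gs (2 * H ^ 2) (γ - t) + 2 / L ^ 2 * ∑ γ ∈ F, ‖aa γ‖ * (|γ - t| * gs (h ^ 2) (γ - t))) := by
    intro t
    apply nn_pt hG.lip hL2 hθ _ (by positivity) hq0 hH0
    · intro hMt
      have hDt : K * L ≤ D t := by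
        rw [hM] at hMt
        nlinarith
      have ht1 : Real.exp L ≤ t := by linarith [hG.lo t]
      have ht2 : t ≤ Cr * Real.exp L := by linarith [hG.hi t]
      obtain ⟨y1, y2, b1, b2, b3, b4, b5⟩ := hpt L hLLp h lam hh hhH hlam hlam1 y t d ε ht1 ht2 hd
        (hdL.trans (by rw [div_le_one hLpos]; exact hL1)) ((hG.lh t hDt).mono (by gcongr))
      refine ⟨ZF y1 y2, ?_, ?_, b5⟩
      · intro γ hγ
        rw [mem_ZF] at hγ
        have h5 : |t - γ| ≤ K * L := by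
          have : Kp * L ≤ K * L := by gcongr
          rw [abs_le]
          constructor <;> linarith [hγ.2.1, hγ.2.2]
        have h6 := (abs_le.1 (hG.lip t γ)).2
        have h7 : (K' + K) * L ^ 2 ≤ D γ := by
          rw [hM] at hMt
          nlinarith
        have h8 : 0 ≤ (K' + K) * L ^ 2 := by positivity
        rw [hF, mem_FG]
        exact ⟨⟨hγ.1, by linarith [hG.lo γ], by linarith [hG.hi γ]⟩, h7⟩
      · intro γ hγ hγ2
        rw [hF, mem_FG] at hγ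
        rw [mem_ZF, not_and, not_and_or, not_le, not_le] at hγ2
        have h9 : 2 * H * L ≤ |γ - t| := by
          have h10 : 2 * H * L ≤ W0 * L := by gcongr
          rcases hγ2 hγ.1.1 with h11 | h11
          · rw [abs_sub_comm]
            exact le_trans (by linarith) (le_abs_self _)
          · exact le_trans (by linarith) (le_abs_self _)
        unfold gs
        rw [hq, ← Real.exp_add]
        apply Real.exp_le_exp.2
        have h10 : (2 * H * L) ^ 2 ≤ (γ - t) ^ 2 := by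
          rw [← sq_abs (γ - t)]
          gcongr
        have h11 : 2 * L ^ 2 ≤ (γ - t) ^ 2 / (2 * H ^ 2) := by
          rw [le_div_iff₀ (by positivity)]
          nlinarith
        have h12 : (γ - t) ^ 2 / H ^ 2 ≤ (γ - t) ^ 2 / h ^ 2 := by gcongr
        have h13 : (γ - t) ^ 2 / H ^ 2 = (γ - t) ^ 2 / (2 * H ^ 2) + (γ - t) ^ 2 / (2 * H ^ 2) := by
          field_simp
          ring
        linarith
    · have : 2 / L ^ 2 = 1 / L ^ 2 + 1 / L ^ 2 := by ring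
      linarith [hθ1.trans hexpm]
  set G1 : ℝ → ℝ := fun t => Real.sqrt h / 2 * (1 + h * ‖PS h lam t‖ ^ 2) + Cp * Real.exp (-(L / 2)) with hG1
  have hPSc := PS_cont (lam := lam) hh0
  have hG1c : Continuous G1 := by simp only [hG1]; fun_prop
  have hG10 : ∀ t, 0 ≤ G1 t := fun t => by simp only [hG1]; positivity
  have hsh : Real.sqrt h * Real.sqrt h = h := Real.mul_self_sqrt hh0.le
  have hx : ∀ t, h * ‖PS h lam t‖ + Cp * Real.exp (-(L / 2)) ≤ G1 t := by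
    intro t
    simp only [hG1]
    have h1 : h * ‖PS h lam t‖ ≤ Real.sqrt h / 2 * (1 + h * ‖PS h lam t‖ ^ 2) := by
      generalize ‖PS h lam t‖ = p
      have hs0 : 0 ≤ Real.sqrt h := Real.sqrt_nonneg _
      have h3 := mul_nonneg hs0 (sq_nonneg (1 - Real.sqrt h * p))
      have h4 : Real.sqrt h / 2 * (1 + h * p ^ 2) - h * p =
          (Real.sqrt h * (1 - Real.sqrt h * p) ^ 2) / 2 := by
        linear_combination (p - Real.sqrt h * p ^ 2 / 2) * hsh
      linarith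
    linarith
  set Bd : ℝ := Cr * Real.exp L with hBd
  have hBd0 : 0 < Bd := by positivity
  have hpt2 : ∀ t : ℝ, ‖NN F (wz D M (L ^ 2) θ lam) (h ^ 2) t‖ₑ ≤
      (Icc 0 Bd).indicator (fun t => ENNReal.ofReal (G1 t)) t +
      ENNReal.ofReal (q * ∑ γ ∈ F, ‖aa γ‖ * gs (2 * H ^ 2) (γ - t) +
        2 / L ^ 2 * ∑ γ ∈ F, ‖aa γ‖ * (|γ - t| * gs (h ^ 2) (γ - t))) := by
    intro t
    rw [← ofReal_norm_eq_enorm]
    refine (ENNReal.ofReal_le_ofReal (hpt' t)).trans (ENNReal.ofReal_add_le.trans ?_)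
    gcongr
    split_ifs with hMt
    · have ht1 : Real.exp L ≤ t := by linarith [hG.lo t]
      have ht2 : t ≤ Cr * Real.exp L := by linarith [hG.hi t]
      rw [indicator_of_mem (show t ∈ Icc 0 Bd from ⟨by linarith, ht2⟩)]
      exact ENNReal.ofReal_le_ofReal (hx t)
    · rw [ENNReal.ofReal_zero]
      exact zero_le
  refine (lintegral_mono hpt2).trans ?_
  have hmeas1 : Measurable ((Icc 0 Bd).indicator (fun t => ENNReal.ofReal (G1 t))) :=
    (hG1c.measurable.ennreal_ofReal).indicator measurableSet_Icc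
  rw [lintegral_add_left hmeas1, lintegral_indicator measurableSet_Icc, far_int hH0 hh0 hq0 (by positivity),
    ← ofReal_integral_eq_lintegral_ofReal (hG1c.integrableOn_Icc) (Eventually.of_forall hG10),
    ← ENNReal.ofReal_add (integral_nonneg fun t => hG10 t) (by positivity)]
  apply ENNReal.ofReal_le_ofReal
  -- the main integral
  have hI : ∫ t in Icc 0 Bd, G1 t ≤ (Cr + Cm) * Real.exp L * Real.sqrt h + 8 * Cp * Cr * Real.exp L / (L ^ 2) := by
    rw [integral_Icc_eq_integral_Ioc, ← intervalIntegral.integral_of_le hBd0.le]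
    have h1 : ∫ t in (0 : ℝ)..Bd, G1 t = Real.sqrt h / 2 * (Bd + h * ∫ t in (0 : ℝ)..Bd, ‖PS h lam t‖ ^ 2) +
        Bd * (Cp * Real.exp (-(L / 2))) := by
      simp only [hG1]
      have c1 : Continuous fun t : ℝ => Real.sqrt h / 2 * (1 + h * ‖PS h lam t‖ ^ 2) := by fun_prop
      have c2 : Continuous fun t : ℝ => h * ‖PS h lam t‖ ^ 2 := by fun_prop
      rw [intervalIntegral.integral_add (c1.intervalIntegrable _ _) (continuous_const.intervalIntegrable _ _),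
        intervalIntegral.integral_const_mul,
        intervalIntegral.integral_add (continuous_const.intervalIntegrable _ _) (c2.intervalIntegrable _ _),
        intervalIntegral.integral_const_mul, intervalIntegral.integral_const, intervalIntegral.integral_const]
      simp
    rw [h1]
    have h2 := hms L (by linarith) h lam hh hhH hlam hlam1
    have h3 : h * ∫ t in (0 : ℝ)..Bd, ‖PS h lam t‖ ^ 2 ≤ Cm * Real.exp L := by
      calc h * ∫ t in (0 : ℝ)..Bd, ‖PS h lam t‖ ^ 2 ≤ h * (Cm / h * Real.exp L) := by gcongr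
        _ = Cm * Real.exp L := by field_simp
    have h4 : Real.sqrt h / 2 * (Bd + h * ∫ t in (0 : ℝ)..Bd, ‖PS h lam t‖ ^ 2) ≤
        (Cr + Cm) * Real.exp L * Real.sqrt h := by
      calc _ ≤ Real.sqrt h / 2 * (Cr * Real.exp L + Cm * Real.exp L) := by
            apply mul_le_mul_of_nonneg_left _ (by positivity)
            linarith
        _ ≤ Real.sqrt h * (Cr * Real.exp L + Cm * Real.exp L) := by
            apply mul_le_mul_of_nonneg_right _ (by positivity)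
            linarith [Real.sqrt_nonneg h]
        _ = _ := by ring
    have h5 : Bd * (Cp * Real.exp (-(L / 2))) ≤ 8 * Cp * Cr * Real.exp L / (L ^ 2) := by
      calc Bd * (Cp * Real.exp (-(L / 2))) ≤ Bd * (Cp * (8 / L ^ 2)) := by gcongr
        _ = _ := by rw [hBd]; ring
    linarith
  have hsq : Real.sqrt (Real.pi * (2 * H ^ 2)) ≤ 3 * H := by
    rw [Real.sqrt_le_left (by positivity)]
    nlinarith [Real.pi_lt_four, sq_nonneg H]
  have hfar : (q * Real.sqrt (Real.pi * (2 * H ^ 2)) + 2 / L ^ 2 * h ^ 2) * A1 ≤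
      (3 * H * Cs + 2 * H ^ 2 * Cs) * Real.exp L / (L * Real.sqrt L) := by
    have h1 : q * Real.sqrt (Real.pi * (2 * H ^ 2)) + 2 / L ^ 2 * h ^ 2 ≤ (3 * H + 2 * H ^ 2) * (1 / L ^ 2) := by
      calc _ ≤ (1 / L ^ 2) * (3 * H) + 2 / L ^ 2 * H ^ 2 := by gcongr
        _ = _ := by ring
    calc _ ≤ ((3 * H + 2 * H ^ 2) * (1 / L ^ 2)) * (Cs * Real.sqrt L * Real.exp L) := by gcongr
      _ = (3 * H * Cs + 2 * H ^ 2 * Cs) * Real.exp L * (Real.sqrt L / L ^ 2) := by ring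
      _ = _ := by
          have h2 : Real.sqrt L / L ^ 2 = 1 / (L * Real.sqrt L) := by
            have h3 : Real.sqrt L * Real.sqrt L = L := Real.mul_self_sqrt hLpos.le
            rw [div_eq_div_iff (by positivity) (by positivity)]
            calc Real.sqrt L * (L * Real.sqrt L) = L * (Real.sqrt L * Real.sqrt L) := by ring
              _ = 1 * L ^ 2 := by rw [h3]; ring
          rw [h2]
          ring
  have hlast : 8 * Cp * Cr * Real.exp L / (L ^ 2) ≤ 8 * Cp * Cr * Real.exp L / (L * Real.sqrt L) := by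
    rw [div_eq_mul_one_div, div_eq_mul_one_div (8 * Cp * Cr * Real.exp L) (L * Real.sqrt L)]
    gcongr
  calc _ ≤ ((Cr + Cm) * Real.exp L * Real.sqrt h + 8 * Cp * Cr * Real.exp L / (L ^ 2)) +
        (3 * H * Cs + 2 * H ^ 2 * Cs) * Real.exp L / (L * Real.sqrt L) := add_le_add hI hfar
    _ ≤ ((Cr + Cm) * Real.exp L * Real.sqrt h + 8 * Cp * Cr * Real.exp L / (L * Real.sqrt L)) +
        (3 * H * Cs + 2 * H ^ 2 * Cs) * Real.exp L / (L * Real.sqrt L) := by gcongr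
    _ = _ := by ring

end Pool.Agent.N806.AH
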