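import Pool.Agent.N806.AH.ErrL

/-! The `L¹` bound for the commutator. -/

set_option autoImplicit false

open Complex Filter Topology Set MeasureTheory Metric

namespace Pool.Agent.N806.AH

open H345 H345.Chi
open scoped ENNReal NNReal

theorem err_l1 (hRH : RiemannHypothesis) (y : ℝ) {Cr H lm : ℝ} (hCr : 1 ≤ Cr) (hH : 4 ≤ H) (hlm : 0 ≤ lm) :
    ∃ K0 K' C ε0 : ℝ, 1 ≤ K0 ∧ 1 ≤ K' ∧ 1 ≤ C ∧ 0 < ε0 ∧ ∀ K : ℝ, K0 ≤ K →
    ∃ L1 : ℝ, 6 ≤ L1 ∧ ∀ L : ℝ, L1 ≤ L → ∀ (D : ℝ → ℝ) (d ε : ℝ), 1 / (8 * L) ≤ d → d ≤ 1 / L → 0 ≤ ε →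
    ε ≤ ε0 → GH y Cr L K d ε D → ∀ lam θ : ℝ, 0 ≤ lam → lam ≤ lm → 0 ≤ θ → θ ≤ Real.exp (-L) →
    ∑ γ ∈ FG D L Cr ((K' + K) * L ^ 2), ‖aa γ‖ ≤ C * Real.sqrt L * Real.exp L ∧
    ∫⁻ t : ℝ, ‖NN (FG D L Cr ((K' + K) * L ^ 2)) (wz D ((K' + 2 * K) * L ^ 2) (L ^ 2) θ lam) (H ^ 2) t‖ₑ ≤
      ENNReal.ofReal (C * Real.exp L) ∧
    ∀ (U : ℝ → ℂ) (Λ : ℝ), 0 ≤ Λ → (∀ s t, ‖U s - U t‖ ≤ Λ * |s - t|) → Continuous U →
    ∫⁻ t : ℝ, ‖CM (FG D L Cr ((K' + K) * L ^ 2)) (wz D ((K' + 2 * K) * L ^ 2) (L ^ 2) θ lam) U (H ^ 2) t‖ₑ ≤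
      ENNReal.ofReal (C * Λ * Real.exp L) := by
  obtain ⟨K0, K', Cs, B0, R, ε0, hK0, hK', hCs, hB0, hR, hε0, hnn⟩ := nn_l1 hRH y hCr hH hlm
  have hH0 : 0 < H := by linarith
  refine ⟨K0, K', Cs + H * (3 * Cs + 6 * B0 * H + H ^ 2 * R) + (B0 * H + R), ε0, hK0, hK', ?_, hε0,
    fun K hK => ?_⟩
  · have : 0 ≤ H * (3 * Cs + 6 * B0 * H + H ^ 2 * R) + (B0 * H + R) := by positivity
    linarith
  obtain ⟨L1, hL1, hnn1⟩ := hnn K hK
  refine ⟨L1, hL1, fun L hL D d ε hd hdL hε hεε0 hG lam θ hlam hlam1 hθ hθ1 => ?_⟩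
  have hL6 : 6 ≤ L := hL1.trans hL
  have hLpos : 0 < L := by linarith
  have hsL : 0 < Real.sqrt L := Real.sqrt_pos.2 hLpos
  have hsL1 : 1 ≤ Real.sqrt L := Real.one_le_sqrt.2 (by linarith)
  have hexp : 0 < Real.exp L := Real.exp_pos L
  obtain ⟨hsum, hnh⟩ := hnn1 L hL D d ε hd hdL hε hεε0 hG lam θ hlam hlam1 hθ hθ1
  set M : ℝ := (K' + 2 * K) * L ^ 2 with hM
  set F := FG D L Cr ((K' + K) * L ^ 2) with hF
  have hsHL : Real.sqrt H ≤ H := by
    rw [Real.sqrt_le_left hH0.le]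
    nlinarith
  have h2L : 2 / Real.sqrt L ≤ H := by
    rw [div_le_iff₀ hsL]
    nlinarith
  have hr1 : R * Real.exp L / (L * Real.sqrt L) ≤ R * Real.exp L := by
    apply div_le_self (by positivity)
    nlinarith
  refine ⟨?_, ?_, ?_⟩
  · refine hsum.trans ?_
    have h1 : Cs ≤ Cs + H * (3 * Cs + 6 * B0 * H + H ^ 2 * R) + (B0 * H + R) := by
      have : 0 ≤ H * (3 * Cs + 6 * B0 * H + H ^ 2 * R) + (B0 * H + R) := by positivity
      linarith
    gcongr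
  · refine (hnh H h2L le_rfl).trans (ENNReal.ofReal_le_ofReal ?_)
    calc B0 * Real.exp L * Real.sqrt H + R * Real.exp L / (L * Real.sqrt L)
        ≤ B0 * Real.exp L * H + R * Real.exp L := by gcongr
      _ = (B0 * H + R) * Real.exp L := by ring
      _ ≤ _ := by
          apply mul_le_mul_of_nonneg_right _ hexp.le
          have : 0 ≤ Cs + H * (3 * Cs + 6 * B0 * H + H ^ 2 * R) := by positivity
          linarith
  · intro U Λ hΛ hU hUc
    have hx : 1 ≤ H ^ 2 * L / 4 := by nlinarith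
    obtain ⟨J, hJ1, hJ2⟩ := exists_nat_pow_near hx (one_lt_two : (1 : ℝ) < 2)
    set σ : ℝ := H ^ 2 / 2 ^ J with hσ
    have h2J : (0 : ℝ) < 2 ^ J := by positivity
    have hσ0 : 0 < σ := by positivity
    have hσ1 : 4 / L ≤ σ := by
      rw [hσ, div_le_div_iff₀ hLpos h2J]
      linarith
    have hσ2 : σ ≤ 8 / L := by
      rw [hσ, div_le_div_iff₀ h2J hLpos]
      have h3 : (2 : ℝ) ^ (J + 1) = 2 * 2 ^ J := by ring
      rw [h3] at hJ2
      linarith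
    have hJσ : 2 ^ J * σ = H ^ 2 := by rw [hσ]; field_simp
    have hJL : (J : ℝ) ≤ H ^ 2 * L := by
      have h1 : (J : ℝ) ≤ 2 ^ J := by exact_mod_cast (Nat.lt_two_pow_self (n := J)).le
      have h2 : 0 ≤ H ^ 2 * L := by positivity
      linarith
    have hwsum : ∑ γ ∈ F, ‖wz D M (L ^ 2) θ lam γ‖ ≤ Cs * Real.sqrt L * Real.exp L :=
      (Finset.sum_le_sum fun γ _ => norm_wz_le hθ).trans hsum
    have key := CM_total F (wz D M (L ^ 2) θ lam) hΛ hU hUc hσ0 J (B := B0 * Real.exp L)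
      (r := R * Real.exp L / (L * Real.sqrt L)) (W := Cs * Real.sqrt L * Real.exp L) (by positivity)
      (by positivity) hwsum (by
        intro j hj
        have h2j : (1 : ℝ) ≤ 2 ^ j := one_le_pow₀ (by norm_num)
        have hs0 : 0 ≤ 2 ^ j * σ := by positivity
        have h3 : 2 / Real.sqrt L ≤ Real.sqrt (2 ^ j * σ) := by
          have h4 : 2 / Real.sqrt L = Real.sqrt (4 / L) := by
            rw [Real.sqrt_div (by norm_num), show (4 : ℝ) = 2 ^ 2 by norm_num, Real.sqrt_sq (by norm_num)]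
          rw [h4]
          apply Real.sqrt_le_sqrt
          nlinarith
        have h5 : Real.sqrt (2 ^ j * σ) ≤ H := by
          rw [Real.sqrt_le_left hH0.le, ← hJσ]
          have h6 : (2 : ℝ) ^ j ≤ 2 ^ J := pow_le_pow_right₀ (by norm_num) hj.le
          gcongr
        have h7 := hnh _ h3 h5
        rw [Real.sq_sqrt hs0] at h7
        exact h7)
    rw [hJσ, Real.sqrt_sq hH0.le] at key
    refine key.trans (ENNReal.ofReal_le_ofReal ?_)
    have t1 : Real.sqrt σ * (Cs * Real.sqrt L * Real.exp L) ≤ 3 * Cs * Real.exp L := by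
      have h1 : Real.sqrt σ * Real.sqrt L ≤ 3 := by
        rw [← Real.sqrt_mul hσ0.le, Real.sqrt_le_left (by norm_num)]
        calc σ * L ≤ 8 / L * L := by gcongr
          _ = 8 := by field_simp
          _ ≤ 3 ^ 2 := by norm_num
      calc Real.sqrt σ * (Cs * Real.sqrt L * Real.exp L) = Cs * Real.exp L * (Real.sqrt σ * Real.sqrt L) := by ring
        _ ≤ Cs * Real.exp L * 3 := by gcongr
        _ = _ := by ring
    have t2 : 6 * (B0 * Real.exp L) * Real.sqrt H ≤ 6 * B0 * H * Real.exp L := by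
      calc 6 * (B0 * Real.exp L) * Real.sqrt H ≤ 6 * (B0 * Real.exp L) * H := by gcongr
        _ = _ := by ring
    have t3 : (J : ℝ) * (R * Real.exp L / (L * Real.sqrt L)) ≤ H ^ 2 * R * Real.exp L := by
      calc (J : ℝ) * (R * Real.exp L / (L * Real.sqrt L)) ≤ (H ^ 2 * L) * (R * Real.exp L / (L * Real.sqrt L)) := by
            gcongr
        _ = H ^ 2 * R * Real.exp L / Real.sqrt L := by field_simp
        _ ≤ _ := div_le_self (by positivity) hsL1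
    calc Λ * H * (Real.sqrt σ * (Cs * Real.sqrt L * Real.exp L) + 6 * (B0 * Real.exp L) * Real.sqrt H +
          J * (R * Real.exp L / (L * Real.sqrt L)))
        ≤ Λ * H * (3 * Cs * Real.exp L + 6 * B0 * H * Real.exp L + H ^ 2 * R * Real.exp L) := by gcongr
      _ = (H * (3 * Cs + 6 * B0 * H + H ^ 2 * R)) * Λ * Real.exp L := by ring
      _ ≤ _ := by
          apply mul_le_mul_of_nonneg_right _ hexp.le
          apply mul_le_mul_of_nonneg_right _ hΛ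
          have : 0 ≤ B0 * H + R := by positivity
          linarith

end Pool.Agent.N806.AH
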