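import Pool.Agent.N806.AH.Gap
import Pool.Agent.H382L.GapTailG

/-! On RH the gaps between consecutive zeros are eventually less than one. -/

set_option autoImplicit false

open Complex Filter Topology Set MeasureTheory Metric

namespace Pool.Agent.N806.AH

open H345 H345.Chi
open SG (ord NZ zmult ZS)

lemma rhs_of (hRH : RiemannHypothesis) : SP.RHs := by
  intro s h1 h2 h0
  apply hRH s h0
  · rintro ⟨n, hn⟩
    rw [hn] at h1
    simp only [neg_mul, neg_re, mul_re, re_ofNat, add_re, natCast_re, one_re, im_ofNat, add_im,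
      natCast_im, one_im, add_zero, mul_zero, sub_zero] at h1
    have : (0 : ℝ) ≤ n := Nat.cast_nonneg n
    linarith
  · intro h
    rw [h] at h2
    simp at h2

lemma exists_T (C c : ℝ) (hC : 1 ≤ C) (hc : 0 < c) : ∃ T1 : ℝ, ∀ T : ℝ, T1 ≤ T →
    C * (C / (c * Real.log T)) ^ (c * Real.log T / C) * (T * Real.log T) < 1 := by
  have hCpos : 0 < C := by linarith
  have hlim : Tendsto (fun T : ℝ => Real.log (c / C * Real.log T)) atTop atTop := by
    apply Real.tendsto_log_atTop.comp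
    exact Real.tendsto_log_atTop.const_mul_atTop (by positivity)
  obtain ⟨T1, hT1⟩ := (tendsto_atTop.mp hlim (4 * C / c)).exists_forall_of_atTop
  refine ⟨max T1 (C + 10), fun T hT => ?_⟩
  have hT2 : C + 10 ≤ T := (le_max_right _ _).trans hT
  have h1 := hT1 T ((le_max_left _ _).trans hT)
  have hTpos : 0 < T := by linarith
  have hL : 1 ≤ Real.log T := by
    rw [Real.le_log_iff_exp_le hTpos]
    have := Real.exp_one_lt_d9
    linarith
  have hLT : Real.log T ≤ T := by
    have := Real.log_le_sub_one_of_pos hTpos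
    linarith
  set L := Real.log T with hLdef
  have hx : 0 < c * L := by positivity
  have h2 : (C / (c * L)) ^ (c * L / C) ≤ Real.exp (-4 * L) := by
    rw [Real.rpow_def_of_pos (by positivity)]
    apply Real.exp_le_exp.2
    have h3 : Real.log (C / (c * L)) = -Real.log (c / C * L) := by
      rw [← Real.log_inv]
      congr 1
      field_simp
    rw [h3]
    have h4 : 4 * C / c * (c * L / C) ≤ Real.log (c / C * L) * (c * L / C) :=
      mul_le_mul_of_nonneg_right h1 (by positivity)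
    have h5 : 4 * C / c * (c * L / C) = 4 * L := by field_simp
    rw [h5] at h4
    linarith
  have h6 : Real.exp (-4 * L) = 1 / T ^ 4 := by
    have : Real.exp (4 * L) = T ^ 4 := by
      rw [show (4 : ℝ) * L = ((4 : ℕ) : ℝ) * L by norm_num, Real.exp_nat_mul, hLdef,
        Real.exp_log hTpos]
    rw [show -4 * L = -(4 * L) by ring, Real.exp_neg, this, one_div]
  rw [h6] at h2
  have h7 : 0 ≤ T * L := by positivity
  calc C * (C / (c * L)) ^ (c * L / C) * (T * L) ≤ C * (1 / T ^ 4) * (T * T) := by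
        apply mul_le_mul
        · exact mul_le_mul_of_nonneg_left h2 hCpos.le
        · exact mul_le_mul_of_nonneg_left hLT hTpos.le
        · exact h7
        · positivity
    _ = C / T ^ 2 := by field_simp
    _ < 1 := by
        rw [div_lt_one (by positivity)]
        nlinarith

/-- a priori bound for the gaps -/
theorem gap_lt_one (hRH : RiemannHypothesis) : ∃ T0 : ℝ, 10 ≤ T0 ∧ ∀ n : ℕ, 1 ≤ n → T0 ≤ ord n →
    ord (n + 1) - ord n < 1 := by
  obtain ⟨C, c0, T0, hC, hc0, hT0, hG⟩ := LG.gap_tail_gen (rhs_of hRH)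
  set c : ℝ := min c0 (1 / 7) with hc
  have hcpos : 0 < c := lt_min hc0 (by norm_num)
  have hcc0 : c ≤ c0 := min_le_left _ _
  have hc7 : c ≤ 1 / 7 := min_le_right _ _
  obtain ⟨T2, hT2⟩ := exists_T C c hC hcpos
  have hpi3 := Real.pi_gt_three
  have hpi4 := Real.pi_lt_four
  have hlimc : Tendsto (fun T : ℝ => c * Real.log T) atTop atTop :=
    Real.tendsto_log_atTop.const_mul_atTop hcpos
  obtain ⟨T3, hT3⟩ := (tendsto_atTop.mp hlimc 1).exists_forall_of_atTop
  have hpid := Real.pi_lt_d2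
  have hc1 : c * (2 * Real.pi) ≤ 1 := by
    calc c * (2 * Real.pi) ≤ 1 / 7 * (2 * 3.15) := by gcongr
      _ ≤ 1 := by norm_num
  refine ⟨max (max T0 T2) T3, hT0.trans ((le_max_left _ _).trans (le_max_left _ _)), ?_⟩
  intro n hn hTn
  refine lt_of_lt_of_le ?_ hc1
  have hn0 : T0 ≤ ord n := ((le_max_left _ _).trans (le_max_left _ _)).trans hTn
  have hn2 : T2 ≤ ord n := ((le_max_right _ _).trans (le_max_left _ _)).trans hTn
  have hn3 : T3 ≤ ord n := (le_max_right _ _).trans hTn
  have h10 : 10 ≤ ord n := hT0.trans hn0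
  have hL : 0 < Real.log (ord n) := Real.log_pos (by linarith)
  by_contra hcon
  push Not at hcon
  have h1 := hG (ord n) hn0 (c * Real.log (ord n)) (hT3 _ hn3)
    (mul_le_mul_of_nonneg_right hcc0 hL.le)
  have h2 := hT2 (ord n) hn2
  have e : c * Real.log (ord n) * (2 * Real.pi / Real.log (ord n)) = c * (2 * Real.pi) := by
    field_simp
  rw [e] at h1
  set S : Set ℕ := {m : ℕ | 1 ≤ m ∧ ord n ≤ ord m ∧ ord m + c * (2 * Real.pi) ≤ 2 * ord n ∧
    c * (2 * Real.pi) ≤ ord (m + 1) - ord m} with hS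
  have hfin : S.Finite := by
    refine (Set.finite_Iic (NZ (2 * ord n))).subset ?_
    intro m hm
    have h5 : ord m ≤ 2 * ord n := by
      have : 0 < c * (2 * Real.pi) := by positivity
      linarith [hm.2.2.1]
    exact (SG.ord_le_iff hm.1 _).mp h5
  have hmem : n ∈ S := ⟨hn, le_rfl, by nlinarith, hcon⟩
  have h3 : 1 ≤ S.ncard := (Set.ncard_pos hfin).mpr ⟨n, hmem⟩
  have h4 : (1 : ℝ) ≤ (S.ncard : ℝ) := by exact_mod_cast h3
  linarith

lemma ord_zo (hRH : RiemannHypothesis) {n : ℕ} (hn : 1 ≤ n) : ord n ∈ Zo := by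
  have h0 := SG.ord_pos hn
  have h1 := SG.ord_count (ord n) h0
  have hfin : {m : ℕ | 1 ≤ m ∧ ord m = ord n}.Finite := by
    refine (Set.finite_Iic (NZ (ord n))).subset ?_
    intro m hm
    exact (SG.ord_le_iff hm.1 _).mp hm.2.le
  have h2 : 0 < {m : ℕ | 1 ≤ m ∧ ord m = ord n}.ncard := (Set.ncard_pos hfin).mpr ⟨n, hn, rfl⟩
  rw [h1] at h2
  by_contra hcon
  have h3 : {s : ℂ | riemannZeta s = 0 ∧ 0 < s.re ∧ s.re < 1 ∧ s.im = ord n} = ∅ := by
    apply Set.eq_empty_of_forall_notMem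
    rintro s ⟨a1, a2, a3, a4⟩
    have h5 := mem_Zo hRH a1 (by rw [a4]; exact h0)
    rw [a4] at h5
    exact hcon h5
  rw [h3, finsum_mem_empty] at h2
  exact absurd h2 (lt_irrefl 0)

/-- on RH there is a zero within `1` of every large height -/
theorem near_zero (hRH : RiemannHypothesis) : ∃ T0 : ℝ, 10 ≤ T0 ∧ ∀ t : ℝ, T0 ≤ t →
    ∃ γ ∈ Zo, |γ - t| ≤ 1 := by
  obtain ⟨T0, hT0, hg⟩ := gap_lt_one hRH
  obtain ⟨N, hN⟩ := (tendsto_atTop.mp SG.ord_tendsto T0).exists_forall_of_atTop
  refine ⟨max T0 (ord (N + 1)), hT0.trans (le_max_left _ _), fun t ht => ?_⟩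
  have h1 : ord (N + 1) ≤ t := (le_max_right _ _).trans ht
  have h2 : N + 1 ≤ NZ t := (SG.ord_le_iff (by omega) t).1 h1
  have hn : 1 ≤ NZ t := by omega
  have h3 : ord (NZ t) ≤ t := (SG.ord_le_iff hn t).2 le_rfl
  have h4 : t < ord (NZ t + 1) := by
    by_contra hcon
    push Not at hcon
    have := (SG.ord_le_iff (by omega) t).1 hcon
    omega
  have h5 := hg (NZ t) hn (hN _ (by omega))
  refine ⟨ord (NZ t), ord_zo hRH hn, ?_⟩
  rw [abs_le]
  constructor <;> linarith

end Pool.Agent.N806.AH
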