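import Pool.Agent.N806.AH.ErrM
import Pool.Agent.N806.AH.GapB

/-! The pointwise decomposition of the error and the abstract integration. -/

set_option autoImplicit false

open Complex Filter Topology Set MeasureTheory Metric

namespace Pool.Agent.N806.AH

open H345 H345.Chi
open scoped ENNReal NNReal

lemma conj_close {c u : ℂ} (hc : ‖c‖ = 1) : ‖u + (starRingEnd ℂ) c‖ = ‖1 + c * u‖ := by
  have h1 : c * (starRingEnd ℂ) c = 1 := by
    rw [Complex.mul_conj, Complex.normSq_eq_norm_sq, hc]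
    simp
  have h2 : 1 + c * u = c * (u + (starRingEnd ℂ) c) := by
    linear_combination -h1
  rw [h2, norm_mul, hc, one_mul]

lemma err_pt {y Cr L K K' d ε ε1 : ℝ} {D : ℝ → ℝ} (hG : GH y Cr L K d ε D) (hK : 1 ≤ K) (hK' : 1 ≤ K')
    (hL : 1 ≤ L) {H : ℝ} (hH : 4 ≤ H) (hεε : ε ≤ ε1) (hε1 : 0 ≤ ε1) {U : ℝ → ℂ}
    (hU : ∀ s t, ‖U s - U t‖ ≤ 2 * ε1 * |s - t|) (hUe : ∀ γ ∈ Zo, K * L ≤ D γ → U γ = uu y γ)
    {t y1 y2 lam θ : ℝ} {c : ℂ} (hθ : 0 ≤ θ) (hMt : (K' + 3 * K + 1) * L ^ 2 ≤ D t) (hc : ‖c‖ = 1)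
    (hlat : ∀ γ ∈ Zo, |γ - t| ≤ K * L → ‖1 + c * uu y γ‖ ≤ ε * |γ - t|)
    (hγs : ∃ γ ∈ Zo, |γ - t| ≤ 1) (b1 : t - K * L ≤ y1) (b2 : y1 ≤ t - 4 * H * L)
    (b3 : t + 4 * H * L ≤ y2) (b4 : y2 ≤ t + K * L) :
    ‖∑ γ ∈ ZF y1 y2, aa γ * cexp (((lam * γ : ℝ) : ℂ) * I) * ((Real.exp (-(θ * γ)) : ℝ) : ℂ) *
        (uu y γ + (starRingEnd ℂ) c) * ((gs (H ^ 2) (γ - t) : ℝ) : ℂ)‖ ≤
      3 * ε1 * ‖NN (FG D L Cr ((K' + K) * L ^ 2)) (wz D ((K' + 2 * K) * L ^ 2) (L ^ 2) θ lam) (H ^ 2) t‖ +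
      ‖CM (FG D L Cr ((K' + K) * L ^ 2)) (wz D ((K' + 2 * K) * L ^ 2) (L ^ 2) θ lam) U (H ^ 2) t‖ +
      2 * (Real.exp (-(2 * L ^ 2)) * ∑ γ ∈ FG D L Cr ((K' + K) * L ^ 2), ‖aa γ‖ * gs (2 * H ^ 2) (γ - t)) := by
  classical
  have hLpos : 0 < L := by linarith
  have hL2 : 0 < L ^ 2 := by positivity
  have hH0 : 0 < H := by linarith
  have hKL1 : 1 ≤ K * L := by nlinarith
  have hKL2 : K * L ≤ K * L ^ 2 := by
    have h1 : L ≤ L ^ 2 := by nlinarith
    nlinarith
  have hK'L : 0 ≤ K' * L ^ 2 := by positivity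
  set M : ℝ := (K' + 2 * K) * L ^ 2 with hM
  set F := FG D L Cr ((K' + K) * L ^ 2) with hF
  set w : ℝ → ℂ := wz D M (L ^ 2) θ lam with hw
  set c' : ℂ := (starRingEnd ℂ) c with hc'
  have hnear : ∀ γ : ℝ, |γ - t| ≤ K * L → M + L ^ 2 ≤ D γ := by
    intro γ h
    have h6 := (abs_le.1 (hG.lip t γ)).2
    rw [abs_sub_comm] at h6
    rw [hM]
    nlinarith
  have hFm : ∀ γ ∈ ZF y1 y2, γ ∈ F ∧ M + L ^ 2 ≤ D γ ∧ 0 ≤ γ := by
    intro γ hγ
    rw [mem_ZF] at hγ
    have h5 : |γ - t| ≤ K * L := by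
      rw [abs_le]
      constructor <;> linarith [hγ.2.1, hγ.2.2]
    have h7 := hnear γ h5
    have h8 : (K' + K) * L ^ 2 ≤ D γ := by
      rw [hM] at h7
      nlinarith
    have h9 : 0 ≤ (K' + K) * L ^ 2 := by positivity
    have h10 : Real.exp L ≤ γ := by linarith [hG.lo γ]
    refine ⟨?_, h7, (Real.exp_pos L).le.trans h10⟩
    rw [hF, mem_FG]
    exact ⟨⟨hγ.1, h10, by linarith [hG.hi γ]⟩, h8⟩
  have hUF : ∀ γ ∈ F, U γ = uu y γ := by
    intro γ hγ
    rw [hF, mem_FG] at hγ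
    refine hUe γ hγ.1.1 ?_
    nlinarith [hγ.2]
  have hsub : ZF y1 y2 ⊆ F := fun γ hγ => (hFm γ hγ).1
  have e1 : ∑ γ ∈ ZF y1 y2, aa γ * cexp (((lam * γ : ℝ) : ℂ) * I) * ((Real.exp (-(θ * γ)) : ℝ) : ℂ) *
        (uu y γ + c') * ((gs (H ^ 2) (γ - t) : ℝ) : ℂ) =
      ∑ γ ∈ ZF y1 y2, w γ * (U γ + c') * ((gs (H ^ 2) (γ - t) : ℝ) : ℂ) := by
    refine Finset.sum_congr rfl fun γ hγ => ?_
    obtain ⟨h1, h2, h3⟩ := hFm γ hγ
    rw [hUF γ h1, hw]
    unfold wz vv
    rw [cut_one hL2 h2, max_eq_left h3, one_mul]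
  have e2 : ∑ γ ∈ F, w γ * (U γ + c') * ((gs (H ^ 2) (γ - t) : ℝ) : ℂ) =
      CM F w U (H ^ 2) t + (U t + c') * NN F w (H ^ 2) t := by
    unfold CM NN
    rw [Finset.mul_sum, ← Finset.sum_add_distrib]
    refine Finset.sum_congr rfl fun γ _ => ?_
    ring
  have e3 : ∑ γ ∈ ZF y1 y2, w γ * (U γ + c') * ((gs (H ^ 2) (γ - t) : ℝ) : ℂ) =
      CM F w U (H ^ 2) t + (U t + c') * NN F w (H ^ 2) t -
        ∑ γ ∈ F \ ZF y1 y2, w γ * (U γ + c') * ((gs (H ^ 2) (γ - t) : ℝ) : ℂ) := by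
    rw [← e2, ← Finset.sum_sdiff hsub]
    ring
  -- the value at `t`
  have hUt : ‖U t + c'‖ ≤ 3 * ε1 := by
    obtain ⟨γ, hγ, h1⟩ := hγs
    have h2 : M + L ^ 2 ≤ D γ := hnear γ (h1.trans hKL1)
    have h3 : K * L ≤ D γ := by
      rw [hM] at h2
      nlinarith
    have h4 : ‖uu y γ + c'‖ ≤ ε1 := by
      rw [hc', conj_close hc]
      refine (hlat γ hγ (h1.trans hKL1)).trans ?_
      calc ε * |γ - t| ≤ ε1 * |γ - t| := mul_le_mul_of_nonneg_right hεε (abs_nonneg _)
        _ ≤ ε1 * 1 := mul_le_mul_of_nonneg_left h1 hε1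
        _ = ε1 := mul_one _
    have h5 : ‖U t - U γ‖ ≤ 2 * ε1 := by
      refine (hU t γ).trans ?_
      rw [abs_sub_comm]
      calc 2 * ε1 * |γ - t| ≤ 2 * ε1 * 1 := mul_le_mul_of_nonneg_left h1 (by positivity)
        _ = 2 * ε1 := mul_one _
    have h6 : U t + c' = (U t - U γ) + (uu y γ + c') := by
      rw [← hUe γ hγ h3]; ring
    rw [h6]
    refine (norm_add_le _ _).trans ?_
    linarith
  have hfar : ‖∑ γ ∈ F \ ZF y1 y2, w γ * (U γ + c') * ((gs (H ^ 2) (γ - t) : ℝ) : ℂ)‖ ≤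
      2 * (Real.exp (-(2 * L ^ 2)) * ∑ γ ∈ F, ‖aa γ‖ * gs (2 * H ^ 2) (γ - t)) := by
    refine (norm_sum_le _ _).trans ?_
    rw [← mul_assoc, Finset.mul_sum]
    calc ∑ γ ∈ F \ ZF y1 y2, ‖w γ * (U γ + c') * ((gs (H ^ 2) (γ - t) : ℝ) : ℂ)‖
        ≤ ∑ γ ∈ F \ ZF y1 y2, 2 * Real.exp (-(2 * L ^ 2)) * (‖aa γ‖ * gs (2 * H ^ 2) (γ - t)) := by
          refine Finset.sum_le_sum fun γ hγ => ?_
          rw [Finset.mem_sdiff] at hγ
          obtain ⟨hγ1, hγ2⟩ := hγ
          rw [mem_ZF, not_and, not_and_or, not_le, not_le] at hγ2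
          have hz : γ ∈ Zo := by
            rw [hF, mem_FG] at hγ1
            exact hγ1.1.1
          have h9 : 2 * H * L ≤ |γ - t| := by
            have h10 : 0 ≤ 2 * H * L := by positivity
            rcases hγ2 hz with h11 | h11
            · rw [abs_sub_comm]
              exact le_trans (by linarith) (le_abs_self _)
            · exact le_trans (by linarith) (le_abs_self _)
          have h12 : gs (H ^ 2) (γ - t) ≤ Real.exp (-(2 * L ^ 2)) * gs (2 * H ^ 2) (γ - t) := by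
            unfold gs
            rw [← Real.exp_add]
            apply Real.exp_le_exp.2
            have h10 : (2 * H * L) ^ 2 ≤ (γ - t) ^ 2 := by
              rw [← sq_abs (γ - t)]
              gcongr
            have h11 : 2 * L ^ 2 ≤ (γ - t) ^ 2 / (2 * H ^ 2) := by
              rw [le_div_iff₀ (by positivity)]
              nlinarith
            have h13 : (γ - t) ^ 2 / H ^ 2 = (γ - t) ^ 2 / (2 * H ^ 2) + (γ - t) ^ 2 / (2 * H ^ 2) := by
              field_simp
              ring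
            linarith
          have h13 : ‖U γ + c'‖ ≤ 2 := by
            rw [hUF γ hγ1]
            refine (norm_add_le _ _).trans ?_
            rw [norm_uu, hc', Complex.norm_conj, hc]
            norm_num
          have h14 : ‖w γ‖ ≤ ‖aa γ‖ := norm_wz_le hθ
          rw [norm_mul, norm_mul, Complex.norm_real, Real.norm_eq_abs, abs_of_pos (gs_pos _ _)]
          have h15 := gs_pos (H ^ 2) (γ - t)
          have h16 := norm_nonneg (aa γ)
          calc ‖w γ‖ * ‖U γ + c'‖ * gs (H ^ 2) (γ - t) ≤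
                ‖aa γ‖ * 2 * (Real.exp (-(2 * L ^ 2)) * gs (2 * H ^ 2) (γ - t)) := by gcongr
            _ = _ := by ring
      _ ≤ ∑ γ ∈ F, 2 * Real.exp (-(2 * L ^ 2)) * (‖aa γ‖ * gs (2 * H ^ 2) (γ - t)) := by
          apply Finset.sum_le_sum_of_subset_of_nonneg Finset.sdiff_subset
          intro γ _ _
          exact mul_nonneg (by positivity) (mul_nonneg (norm_nonneg _) (gs_pos _ _).le)
  rw [e1, e3]
  refine (norm_sub_le _ _).trans ?_
  have h1 := norm_add_le (CM F w U (H ^ 2) t) ((U t + c') * NN F w (H ^ 2) t)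
  rw [norm_mul] at h1
  have h2 : ‖U t + c'‖ * ‖NN F w (H ^ 2) t‖ ≤ 3 * ε1 * ‖NN F w (H ^ 2) t‖ :=
    mul_le_mul_of_nonneg_right hUt (norm_nonneg _)
  linarith

/-- abstract integration of the pointwise lower bound -/
lemma low_abs2 {R : ℝ → ℂ} {D e : ℝ → ℝ} (hD : Continuous D) (hec : Continuous e) (he0 : ∀ t, 0 ≤ e t)
    {a0 b η x M v E : ℝ} (ha0 : 0 ≤ a0) (hb : 0 < b) (hη : 0 < η) (hη1 : η ≤ 1)
    (hx : 0 ≤ x) (hv : 0 ≤ v) (hE : 0 ≤ E)
    (h : ∀ t ∈ Icc (η / b) (1 / (η * b)), M ≤ D t → a0 * Real.exp (-(b * t)) ≤ ‖R t‖ + (e t + x))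
    (hvol : volume (Icc (η / b) (1 / (η * b)) ∩ {t | D t < M}) ≤ ENNReal.ofReal v)
    (hint : ∫⁻ t : ℝ, ENNReal.ofReal (e t) ≤ ENNReal.ofReal E) :
    ENNReal.ofReal (a0 ^ 2 / (2 * b) * (1 - 3 * η) - a0 ^ 2 * v - 2 * a0 * (E + x * (1 / (η * b)))) ≤
      ∫⁻ t : ℝ, ‖R t‖ₑ ^ 2 := by
  set A := η / b with hA
  set B := 1 / (η * b) with hB
  have hA0 : 0 < A := by positivity
  have hAB : A ≤ B := by
    rw [hA, hB, div_le_div_iff₀ hb (by positivity)]
    have : η * (η * b) ≤ 1 * (1 * b) := by gcongr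
    linarith
  set g1 : ℝ → ℝ := fun t => (a0 * Real.exp (-(b * t))) ^ 2 with hg1
  set g2 : ℝ → ℝ := fun t => 2 * a0 * (e t + x) with hg2
  have hg1c : Continuous g1 := by simp only [hg1]; fun_prop
  have hg2c : Continuous g2 := by simp only [hg2]; fun_prop
  have hg10 : ∀ t, 0 ≤ g1 t := fun t => by simp only [hg1]; positivity
  have hg20 : ∀ t, 0 ≤ g2 t := fun t => by simp only [hg2]; have := he0 t; positivity
  set G : Set ℝ := Icc A B ∩ {t | M ≤ D t} with hG
  have hGm : MeasurableSet G := measurableSet_Icc.inter (isClosed_le continuous_const hD).measurableSet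
  have hGsub : G ⊆ Icc A B := inter_subset_left
  have hint1 : ∀ f : ℝ → ℝ, Continuous f → IntegrableOn f (Icc A B) := fun f hf => hf.integrableOn_Icc
  have hpt : ∀ t ∈ G, ENNReal.ofReal (g1 t - g2 t) ≤ ‖R t‖ₑ ^ 2 := by
    intro t ht
    rw [← ofReal_norm_eq_enorm, ← ENNReal.ofReal_pow (norm_nonneg _)]
    apply ENNReal.ofReal_le_ofReal
    have h1 := h t ht.1 ht.2
    have h2 : 0 ≤ a0 * Real.exp (-(b * t)) := by positivity
    have h3 : a0 * Real.exp (-(b * t)) ≤ a0 := by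
      have : Real.exp (-(b * t)) ≤ 1 := by
        apply Real.exp_le_one_iff.2
        have := hA0.trans_le ht.1.1
        have := mul_pos hb this
        linarith
      nlinarith
    have h4 : 0 ≤ e t + x := add_nonneg (he0 t) hx
    simp only [hg1, hg2]
    set a1 := a0 * Real.exp (-(b * t))
    set e1 := e t + x
    have h5 : a1 ≤ ‖R t‖ + e1 := h1
    rcases le_total e1 a1 with h6 | h6
    · have h7 : (a1 - e1) ^ 2 ≤ ‖R t‖ ^ 2 := by
        apply pow_le_pow_left₀ (by linarith)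
        linarith
      nlinarith
    · have h8 : 0 ≤ ‖R t‖ ^ 2 := by positivity
      nlinarith
  have hstep : ENNReal.ofReal (∫ t in G, (g1 t - g2 t)) ≤ ∫⁻ t : ℝ, ‖R t‖ₑ ^ 2 := by
    have hfi : IntegrableOn (fun t => g1 t - g2 t) G := (hint1 _ (hg1c.sub hg2c)).mono_set hGsub
    calc ENNReal.ofReal (∫ t in G, (g1 t - g2 t)) ≤ ∫⁻ t in G, ENNReal.ofReal (g1 t - g2 t) := ofReal_int_le hfi
      _ ≤ ∫⁻ t in G, ‖R t‖ₑ ^ 2 := by
          apply setLIntegral_mono' hGm hpt
      _ ≤ _ := setLIntegral_le_lintegral _ _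
  refine le_trans (ENNReal.ofReal_le_ofReal ?_) hstep
  rw [integral_sub ((hint1 _ hg1c).mono_set hGsub) ((hint1 _ hg2c).mono_set hGsub)]
  -- the main integral
  have hI1 : a0 ^ 2 / (2 * b) * (1 - 3 * η) ≤ ∫ t in Icc A B, g1 t := by
    rw [integral_Icc_eq_integral_Ioc, ← intervalIntegral.integral_of_le hAB]
    have h1 : ∀ t : ℝ, g1 t = a0 ^ 2 * Real.exp (-(2 * b) * t) := by
      intro t
      simp only [hg1]
      rw [mul_pow, ← Real.exp_nat_mul]
      congr 2
      push_cast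
      ring
    simp_rw [h1]
    rw [intervalIntegral.integral_const_mul]
    have h2 : ∫ t in A..B, Real.exp (-(2 * b) * t) = (Real.exp (-(2 * b) * A) - Real.exp (-(2 * b) * B)) / (2 * b) := by
      rw [intervalIntegral.integral_comp_mul_left (fun t => Real.exp t) (by nlinarith : -(2 * b) ≠ 0), integral_exp,
        smul_eq_mul]
      field_simp
      ring
    rw [h2]
    have h3 : 1 - 2 * η ≤ Real.exp (-(2 * b) * A) := by
      have h4 := Real.add_one_le_exp (-(2 * b) * A)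
      have h5 : -(2 * b) * A = -(2 * η) := by rw [hA]; field_simp
      rw [h5] at h4
      rw [h5]
      linarith
    have h6 : Real.exp (-(2 * b) * B) ≤ η := by
      have h5 : -(2 * b) * B = -(2 / η) := by rw [hB]; field_simp
      rw [h5]
      refine (exp_neg_le_inv (by positivity)).trans ?_
      rw [div_le_iff₀ (by positivity)]
      have : η * (1 + 2 / η) = η + 2 := by field_simp
      linarith
    rw [div_mul_eq_mul_div, mul_div_assoc']
    apply div_le_div_of_nonneg_right _ (by positivity)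
    apply mul_le_mul_of_nonneg_left _ (by positivity)
    linarith
  have hsplit : ∫ t in G, g1 t = (∫ t in Icc A B, g1 t) - ∫ t in Icc A B ∩ {t | D t < M}, g1 t := by
    have h1 := integral_inter_add_diff (μ := volume) (s := Icc A B) (t := {t | M ≤ D t}) (f := g1)
      (isClosed_le continuous_const hD).measurableSet (hint1 _ hg1c)
    have h2 : Icc A B \ {t | M ≤ D t} = Icc A B ∩ {t | D t < M} := by
      ext t
      simp only [mem_diff, mem_setOf_eq, not_le, mem_inter_iff]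
    rw [h2] at h1
    linarith
  have hbad : ∫ t in Icc A B ∩ {t | D t < M}, g1 t ≤ a0 ^ 2 * v := by
    have hms : MeasurableSet (Icc A B ∩ {t | D t < M}) :=
      measurableSet_Icc.inter (isOpen_lt hD continuous_const).measurableSet
    have hfin : volume (Icc A B ∩ {t | D t < M}) ≠ ⊤ := (lt_of_le_of_lt hvol ENNReal.ofReal_lt_top).ne
    calc ∫ t in Icc A B ∩ {t | D t < M}, g1 t ≤ ∫ t in Icc A B ∩ {t | D t < M}, a0 ^ 2 := by
          apply setIntegral_mono_on ((hint1 _ hg1c).mono_set inter_subset_left) _ hms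
          · intro t ht
            simp only [hg1]
            apply pow_le_pow_left₀ (by positivity)
            have : Real.exp (-(b * t)) ≤ 1 := by
              apply Real.exp_le_one_iff.2
              have := hA0.trans_le ht.1.1
              have := mul_pos hb this
              linarith
            nlinarith
          · exact integrableOn_const hfin
      _ = (volume (Icc A B ∩ {t | D t < M})).toReal * a0 ^ 2 := by
          rw [setIntegral_const, smul_eq_mul]
          rfl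
      _ ≤ v * a0 ^ 2 := by
          gcongr
          exact ENNReal.toReal_le_of_le_ofReal hv hvol
      _ = _ := by ring
  have hEint : ∫ t in A..B, e t ≤ E := by
    rw [intervalIntegral.integral_of_le hAB, ← integral_Icc_eq_integral_Ioc]
    have h1 : ENNReal.ofReal (∫ t in Icc A B, e t) ≤ ENNReal.ofReal E := by
      rw [ofReal_integral_eq_lintegral_ofReal (hint1 _ hec) (Eventually.of_forall he0)]
      exact (setLIntegral_le_lintegral _ _).trans hint
    exact (ENNReal.ofReal_le_ofReal_iff hE).1 h1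
  have herr : ∫ t in G, g2 t ≤ 2 * a0 * (E + x * B) := by
    calc ∫ t in G, g2 t ≤ ∫ t in Icc A B, g2 t := by
          apply setIntegral_mono_set (hint1 _ hg2c)
          · exact Eventually.of_forall hg20
          · exact hGsub.eventuallyLE
      _ = 2 * a0 * ∫ t in A..B, (e t + x) := by
          rw [integral_Icc_eq_integral_Ioc, ← intervalIntegral.integral_of_le hAB]
          simp only [hg2]
          rw [intervalIntegral.integral_const_mul]
      _ ≤ _ := by
          apply mul_le_mul_of_nonneg_left _ (by positivity)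
          rw [intervalIntegral.integral_add (hec.intervalIntegrable _ _)
            (continuous_const.intervalIntegrable _ _), intervalIntegral.integral_const, smul_eq_mul]
          have : (B - A) * x ≤ B * x := by
            apply mul_le_mul_of_nonneg_right _ hx
            linarith
          linarith
  rw [hsplit]
  linarith

end Pool.Agent.N806.AH
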