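import Pool.Agent.N806.AH.PCa
import Pool.Agent.H581R3.GPR.Rot
import Pool.Agent.H153R4.Pl

/-! The exponential series with Moebius coefficients. -/

set_option autoImplicit false

open Complex Filter Topology Set MeasureTheory Metric FourierTransform

namespace Pool.Agent.N806.AH

/-- the exponential series with Moebius coefficients -/
noncomputable def FF (y : ℝ) (z : ℂ) : ℂ := ∑' n : ℕ, mu n * cexp (-(((2 * Real.pi * y * n : ℝ) : ℂ) * z))

lemma FF_term (y : ℝ) (z : ℂ) (n : ℕ) :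
    ‖mu n * cexp (-(((2 * Real.pi * y * n : ℝ) : ℂ) * z))‖ ≤ Real.exp (-(2 * Real.pi * y * z.re)) ^ n := by
  rw [norm_mul, Complex.norm_exp, neg_re, Complex.re_ofReal_mul, ← Real.exp_nat_mul]
  have := norm_mu n
  calc _ ≤ 1 * Real.exp (-(2 * Real.pi * y * n * z.re)) := by gcongr
    _ = _ := by rw [one_mul]; congr 1; ring

lemma exp_lt_one' {y : ℝ} (hy : 0 < y) {a : ℝ} (ha : 0 < a) : Real.exp (-(2 * Real.pi * y * a)) < 1 := by
  rw [Real.exp_lt_one_iff]
  have := Real.pi_pos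
  have : 0 < 2 * Real.pi * y * a := by positivity
  linarith

lemma FF_hasSum {y : ℝ} (hy : 0 < y) {z : ℂ} (hz : 0 < z.re) :
    HasSum (fun n : ℕ => mu n * cexp (-(((2 * Real.pi * y * n : ℝ) : ℂ) * z))) (FF y z) := by
  apply Summable.hasSum
  apply Summable.of_norm_bounded (g := fun n : ℕ => Real.exp (-(2 * Real.pi * y * z.re)) ^ n)
  · exact summable_geometric_of_lt_one (Real.exp_pos _).le (exp_lt_one' hy hz)
  · exact FF_term y z

lemma FF_bound {y : ℝ} (hy : 0 < y) {z : ℂ} (hz : 0 < z.re) :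
    ‖FF y z‖ ≤ 1 / (Real.exp (2 * Real.pi * y * z.re) - 1) := by
  set X := 2 * Real.pi * y * z.re with hX
  have hX0 : 0 < X := by have := Real.pi_pos; positivity
  have hq : Real.exp (-X) < 1 := exp_lt_one' hy hz
  have h1 : HasSum (fun n : ℕ => Real.exp (-X) ^ n - if n = 0 then 1 else 0) ((1 - Real.exp (-X))⁻¹ - 1) :=
    (hasSum_geometric_of_lt_one (Real.exp_pos _).le hq).sub (hasSum_ite_eq 0 1)
  have h2 := (FF_hasSum hy hz).norm_le_of_bounded h1 (by
    intro n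
    rcases Nat.eq_zero_or_pos n with hn | hn
    · subst hn
      simp [mu_zero]
    · rw [if_neg hn.ne', sub_zero]
      exact FF_term y z n)
  refine h2.trans (le_of_eq ?_)
  have h3 : Real.exp (-X) = (Real.exp X)⁻¹ := Real.exp_neg X
  have h4 : 1 < Real.exp X := Real.one_lt_exp_iff.2 hX0
  have h5 : Real.exp X - 1 ≠ 0 := by linarith
  have h6 : Real.exp X ≠ 0 := (Real.exp_pos X).ne'
  rw [h3]
  have h7 : 1 - (Real.exp X)⁻¹ = (Real.exp X - 1) / Real.exp X := by field_simp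
  rw [h7, inv_div]
  field_simp
  ring

lemma FF_le_inv {y : ℝ} (hy : 0 < y) {z : ℂ} (hz : 0 < z.re) :
    ‖FF y z‖ ≤ 1 / (2 * Real.pi * y * z.re) := by
  have hX0 : 0 < 2 * Real.pi * y * z.re := by have := Real.pi_pos; positivity
  refine (FF_bound hy hz).trans ?_
  apply one_div_le_one_div_of_le hX0
  linarith [Real.add_one_le_exp (2 * Real.pi * y * z.re)]

lemma FF_le_inv3 {y : ℝ} (hy : 0 < y) {z : ℂ} (hz : 0 < z.re) :
    ‖FF y z‖ ≤ 6 / (2 * Real.pi * y * z.re) ^ 3 := by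
  have hX0 : 0 < 2 * Real.pi * y * z.re := by have := Real.pi_pos; positivity
  refine (FF_bound hy hz).trans ?_
  set X := 2 * Real.pi * y * z.re with hX
  have h1 : X ^ 3 / 6 ≤ Real.exp X - 1 := by
    have h2 := Real.sum_le_exp_of_nonneg hX0.le 4
    simp [Finset.sum_range_succ, Nat.factorial] at h2
    nlinarith [pow_pos hX0 2, pow_pos hX0 3]
  rw [div_le_div_iff₀ (by linarith [pow_pos hX0 3]) (by positivity)]
  linarith

lemma FF_contAt {y : ℝ} (hy : 0 < y) {z : ℂ} (hz : 0 < z.re) : ContinuousAt (FF y) z := by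
  have h1 : ContinuousOn (FF y) {w : ℂ | z.re / 2 ≤ w.re} := by
    unfold FF
    apply continuousOn_tsum (u := fun n : ℕ => Real.exp (-(2 * Real.pi * y * (z.re / 2))) ^ n)
    · intro n
      apply Continuous.continuousOn
      fun_prop
    · exact summable_geometric_of_lt_one (Real.exp_pos _).le (exp_lt_one' hy (by linarith))
    · intro n w hw
      refine (FF_term y w n).trans ?_
      gcongr
      exact hw
  apply h1.continuousAt
  apply mem_of_superset ((isOpen_lt continuous_const Complex.continuous_re).mem_nhds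
    (show z ∈ {w : ℂ | z.re / 2 < w.re} by simp; linarith))
  intro w hw
  exact le_of_lt (show z.re / 2 < w.re from hw)

/-- the function whose Mellin transform is taken -/
noncomputable def fl (y b : ℝ) (ℓ : ℕ) (x : ℝ) : ℂ := FF y (((b : ℂ) + I) * ((ℓ * x : ℝ) : ℂ))

lemma fl_re (b : ℝ) (ℓ : ℕ) (x : ℝ) : (((b : ℂ) + I) * ((ℓ * x : ℝ) : ℂ)).re = b * (ℓ * x) := by
  rw [mul_comm, Complex.re_ofReal_mul]
  simp
  ring

lemma fl_pos {b : ℝ} (hb : 0 < b) {ℓ : ℕ} (hℓ : 1 ≤ ℓ) {x : ℝ} (hx : 0 < x) :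
    0 < (((b : ℂ) + I) * ((ℓ * x : ℝ) : ℂ)).re := by
  rw [fl_re]
  have hℓ0 : (0 : ℝ) < ℓ := by exact_mod_cast hℓ
  positivity

lemma mm_nat {y : ℝ} (hy : 0 < y) {b : ℝ} (hb : 0 ≤ b) {ℓ n : ℕ} (hℓ : 1 ≤ ℓ) (hn : 1 ≤ n) (v : ℝ) :
    mm y b (ℓ * n) ⟨2, v⟩ = ((((n : ℝ) ^ (-(2 : ℝ)) : ℝ) : ℂ) * ph n v) * mm y b ℓ ⟨2, v⟩ := by
  have hℓ0 : (0 : ℝ) < ℓ := by exact_mod_cast hℓ
  have hn0 : (0 : ℝ) < n := by exact_mod_cast hn
  have hpi := Real.pi_pos
  rw [mm_eq hy hb (Nat.mul_pos hℓ hn), mm_eq hy hb hℓ]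
  have h1 : (((n : ℝ) ^ (-(2 : ℝ)) : ℝ) : ℂ) * ph n v = cexp (-(((Real.log n : ℝ) : ℂ) * ⟨2, v⟩)) := by
    have h2 : (n : ℝ) ^ (-(2 : ℝ)) = Real.exp (-(2 * Real.log n)) := by
      rw [Real.rpow_def_of_pos hn0]
      congr 1
      ring
    rw [h2]
    unfold ph
    rw [Complex.ofReal_exp, ← Complex.exp_add, mk_line]
    congr 1
    push_cast
    ring
  rw [h1, ← mul_assoc, ← Complex.exp_add]
  congr 2
  have h3 : Real.log (2 * Real.pi * y * ((ℓ * n : ℕ) : ℝ)) =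
      Real.log (2 * Real.pi * y * ℓ) + Real.log n := by
    rw [← Real.log_mul (by positivity) hn0.ne']
    congr 1
    push_cast
    ring
  rw [h3]
  push_cast
  ring

lemma cpow_two_norm {x : ℝ} (hx : 0 < x) (v : ℝ) : ‖((x : ℂ) ^ ((⟨2, v⟩ : ℂ) - 1))‖ = x := by
  rw [Complex.norm_cpow_eq_rpow_re_of_pos hx]
  have : ((⟨2, v⟩ : ℂ) - 1).re = 1 := by simp; norm_num
  rw [this, Real.rpow_one]

/-- the Mellin transform -/
lemma mellin_fl {y : ℝ} (hy : 0 < y) {b : ℝ} (hb : 0 < b) {ℓ : ℕ} (hℓ : 1 ≤ ℓ) (v : ℝ) :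
    mellin (fl y b ℓ) ⟨2, v⟩ = mm y b ℓ ⟨2, v⟩ * (riemannZeta ⟨2, v⟩)⁻¹ := by
  have hℓ0 : (0 : ℝ) < ℓ := by exact_mod_cast hℓ
  have hpi := Real.pi_pos
  let R : ℕ → ℂ := fun n => ((2 * Real.pi * y * ((ℓ * n : ℕ) : ℝ) : ℝ) : ℂ) * ((b : ℂ) + I)
  have hRre : ∀ n : ℕ, (R n).re = 2 * Real.pi * y * ((ℓ * n : ℕ) : ℝ) * b := by
    intro n
    simp only [R]
    rw [Complex.re_ofReal_mul]
    simp
  let F : ℕ → ℝ → ℂ := fun n x => mu n * ((x : ℂ) ^ ((⟨2, v⟩ : ℂ) - 1) * cexp (-(R n * x)))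
  have hFm : ∀ n, AEStronglyMeasurable (F n) (volume.restrict (Ioi 0)) := fun n =>
    (Pool.Agent.H581R3.GPR.Rot.cpow_exp_meas _ _).const_mul _
  have hnorm : ∀ n, ∀ x ∈ Ioi (0 : ℝ), ‖F n x‖ ≤ x ^ (2 - 1 : ℝ) * Real.exp (-((R n).re * x)) := by
    intro n x hx
    simp only [F]
    rw [norm_mul, norm_mul, cpow_two_norm hx, Complex.norm_exp]
    have h1 : (-(R n * (x : ℂ))).re = -((R n).re * x) := by
      rw [neg_re, mul_comm, Complex.re_ofReal_mul]; ring
    rw [h1, show (2 - 1 : ℝ) = 1 by norm_num, Real.rpow_one]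
    have := norm_mu n
    have hx0 : (0 : ℝ) < x := hx
    calc _ ≤ 1 * (x * Real.exp (-((R n).re * x))) := by gcongr
      _ = _ := by ring
  have hint : ∀ n : ℕ, 1 ≤ n → IntegrableOn (fun x : ℝ => x ^ (2 - 1 : ℝ) * Real.exp (-((R n).re * x))) (Ioi 0) := by
    intro n hn
    have hn0 : (0 : ℝ) < n := by exact_mod_cast hn
    apply Pool.Agent.H581R3.GPR.Rot.int_rpow_exp (by norm_num)
    rw [hRre]
    push_cast
    positivity
  have hFi : ∀ n, Integrable (F n) (volume.restrict (Ioi 0)) := by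
    intro n
    rcases Nat.eq_zero_or_pos n with hn | hn
    · subst hn
      have : F 0 = fun _ => 0 := by
        funext x; simp [F, mu_zero]
      rw [this]
      exact integrable_zero _ _ _
    · apply (hint n hn).mono' (hFm n)
      exact (ae_restrict_iff' measurableSet_Ioi).2 (Eventually.of_forall (hnorm n))
  have hval : ∀ n : ℕ, 1 ≤ n → ∫ x in Ioi (0 : ℝ), ‖F n x‖ ≤
      (1 / (2 * Real.pi * y * ℓ * b)) ^ 2 * (1 / (n : ℝ) ^ 2) := by
    intro n hn
    have hn0 : (0 : ℝ) < n := by exact_mod_cast hn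
    have hre : 0 < (R n).re := by rw [hRre]; push_cast; positivity
    have h1 : ∫ x in Ioi (0 : ℝ), ‖F n x‖ ≤ ∫ x in Ioi (0 : ℝ), x ^ (2 - 1 : ℝ) * Real.exp (-((R n).re * x)) := by
      apply setIntegral_mono_on (hFi n).norm (hint n hn) measurableSet_Ioi (hnorm n)
    rw [Real.integral_rpow_mul_exp_neg_mul_Ioi (by norm_num) hre, Real.Gamma_two, mul_one] at h1
    refine h1.trans (le_of_eq ?_)
    rw [hRre, show (2 : ℝ) = ((2 : ℕ) : ℝ) by norm_num, Real.rpow_natCast]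
    push_cast
    field_simp
  have hsum : Summable fun n => ∫ x in Ioi (0 : ℝ), ‖F n x‖ := by
    have h1 : Summable fun n : ℕ => (1 / (2 * Real.pi * y * ℓ * b)) ^ 2 * (1 / (n : ℝ) ^ 2) :=
      (Real.summable_one_div_nat_pow.2 one_lt_two).mul_left _
    refine Summable.of_nonneg_of_le (fun n => integral_nonneg fun x => norm_nonneg _) (fun n => ?_) h1
    rcases Nat.eq_zero_or_pos n with hn | hn
    · subst hn
      have : F 0 = fun _ => 0 := by
        funext x; simp [F, mu_zero]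
      rw [this]
      simp
    · exact hval n hn
  have key := hasSum_integral_of_summable_integral_norm hFi hsum
  have e1 : ∫ x in Ioi (0 : ℝ), ∑' n, F n x = mellin (fl y b ℓ) ⟨2, v⟩ := by
    unfold mellin
    apply setIntegral_congr_fun measurableSet_Ioi
    intro x hx
    simp only [smul_eq_mul]
    have h1 := (FF_hasSum hy (fl_pos hb hℓ hx)).mul_left ((x : ℂ) ^ ((⟨2, v⟩ : ℂ) - 1))
    have h2 := h1.tsum_eq
    unfold fl
    rw [← h2]
    congr 1
    funext n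
    simp only [F, R]
    have h3 : -(((2 * Real.pi * y * n : ℝ) : ℂ) * (((b : ℂ) + I) * ((ℓ * x : ℝ) : ℂ))) =
        -((((2 * Real.pi * y * ((ℓ * n : ℕ) : ℝ) : ℝ) : ℂ) * ((b : ℂ) + I)) * x) := by
      push_cast
      ring
    rw [h3]
    ring
  rw [e1] at key
  have e2 : ∀ n, ∫ x in Ioi (0 : ℝ), F n x =
      (mu n * (((n : ℝ) ^ (-(2 : ℝ)) : ℝ) : ℂ) * ph n v) * mm y b ℓ ⟨2, v⟩ := by
    intro n
    rcases Nat.eq_zero_or_pos n with hn | hn
    · subst hn
      simp [F, mu_zero]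
    have hn0 : (0 : ℝ) < n := by exact_mod_cast hn
    have hre : 0 < (R n).re := by rw [hRre]; push_cast; positivity
    simp only [F]
    rw [integral_const_mul, Pool.Agent.H581R3.GPR.Rot.rot_formula (by norm_num) hre]
    have h1 : (1 / R n) ^ (⟨2, v⟩ : ℂ) * Complex.Gamma ⟨2, v⟩ = mm y b (ℓ * n) ⟨2, v⟩ := rfl
    rw [h1, mm_nat hy hb.le hℓ hn]
    ring
  simp_rw [e2] at key
  have h3 := (inv_zeta_hasSum (σ := 2) (by norm_num) v).mul_right (mm y b ℓ ⟨2, v⟩)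
  rw [mul_comm (mm y b ℓ ⟨2, v⟩)]
  exact key.unique h3

end Pool.Agent.N806.AH
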