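import Pool.Agent.H370R2.DirGood
import Pool.Agent.H370R2.Local
import Pool.Agent.H345R2.Chi

/-! Local factorisation of zeta near the critical line. -/

set_option autoImplicit false

open Complex Filter Topology Set MeasureTheory Metric

namespace Pool.Agent.N806.AH

open H370 H370.Loc

/-- local factorisation of zeta in the ball about `2 + it` -/
theorem fac : ∃ C : ℝ, 1 ≤ C ∧ ∀ t : ℝ, 3 ≤ t → ∃ (s : Multiset ℂ) (g : ℂ → ℂ),
    (∀ ρ ∈ s, ρ ∈ closedBall (⟨2, t⟩ : ℂ) 1.8 ∧ riemannZeta ρ = 0) ∧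
    (∀ z, riemannZeta z = Pf s z * g z) ∧
    AnalyticOnNhd ℂ g (closedBall (⟨2, t⟩ : ℂ) 1.9) ∧
    (∀ z ∈ closedBall (⟨2, t⟩ : ℂ) 1.8, g z ≠ 0) ∧
    (Multiset.card s : ℝ) ≤ C * Real.log t ∧
    (∀ z ∈ closedBall (⟨2, t⟩ : ℂ) 1.7, ‖logDeriv g z‖ ≤ C * Real.log t) := by
  obtain ⟨K, hK, hdata⟩ := ball_data good_zeta
  set q : ℝ := Real.log (1.9 / 1.8) with hq
  have hq0 : 0 < q := Real.log_pos (by norm_num)
  set ℓ : ℝ := Real.log (1.8 / (1.9 - 1.8)) with hℓ
  have hℓ0 : 0 < ℓ := Real.log_pos (by norm_num)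
  set D : ℝ := 2 * (K + K / q * ℓ + 1) * 1.75 / (1.8 - 1.75) / (1.75 - 1.7) with hD
  have hD0 : 0 < D := by
    have : (0 : ℝ) < 1.8 - 1.75 := by norm_num
    have : (0 : ℝ) < 1.75 - 1.7 := by norm_num
    positivity
  refine ⟨1 + K / q + D, by have : 0 < K / q := by positivity
                            linarith, fun t ht => ?_⟩
  have hlt : 1 ≤ Real.log t := one_le_log ht
  obtain ⟨M, hM1, han, hF0, hb, hMc, hL0, hLM⟩ := hdata t ht
  set c : ℂ := ⟨2, t⟩ with hc
  obtain ⟨s, g, hs, hg, hfg, hg0, hcard⟩ := extract (f := riemannZeta) (c := c) (r := 1.8)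
    (R := 1.9) (by norm_num) (by norm_num) hM1 han hF0 hb
  have hfc : 0 < ‖riemannZeta c‖ := norm_pos_iff.2 hF0
  have hcardK : (Multiset.card s : ℝ) ≤ K / q * Real.log t := by
    refine hcard.trans ?_
    rw [div_mul_eq_mul_div]
    exact div_le_div_of_nonneg_right hLM hq0.le
  refine ⟨s, g, hs, hfg, hg, hg0, ?_, ?_⟩
  · refine hcardK.trans ?_
    have : 0 < K / q := by positivity
    nlinarith
  · intro z hz
    set n := Multiset.card s with hn
    have hRr0 : (0 : ℝ) < 1.9 - 1.8 := by norm_num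
    have hgsphere : ∀ w ∈ sphere c 1.9, ‖g w‖ ≤ M / (1.9 - 1.8) ^ n := by
      intro w hw
      have hwR := sphere_subset_closedBall hw
      have h1 : (1.9 - 1.8 : ℝ) ^ n ≤ ‖Pf s w‖ := Pf_norm_ge hRr0.le fun ρ hρ => by
        have h2 := (hs ρ hρ).1
        rw [mem_closedBall, dist_eq_norm] at h2
        rw [mem_sphere, dist_eq_norm] at hw
        have h3 : ‖w - c‖ ≤ ‖w - ρ‖ + ‖ρ - c‖ := by
          calc ‖w - c‖ = ‖(w - ρ) + (ρ - c)‖ := by congr 1; ring
            _ ≤ _ := norm_add_le _ _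
        linarith
      rw [le_div_iff₀ (by positivity)]
      calc ‖g w‖ * (1.9 - 1.8) ^ n ≤ ‖g w‖ * ‖Pf s w‖ := mul_le_mul_of_nonneg_left h1 (norm_nonneg _)
        _ = ‖riemannZeta w‖ := by rw [hfg w, norm_mul, mul_comm]
        _ ≤ M := hb w hwR
    have hgball : ∀ w ∈ closedBall c 1.9, ‖g w‖ ≤ M / (1.9 - 1.8) ^ n := by
      intro w hw
      have h19 : (1.9 : ℝ) ≠ 0 := by norm_num
      refine Complex.norm_le_of_forall_mem_frontier_norm_le (U := ball c 1.9) isBounded_ball ?_ ?_ ?_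
      · apply DifferentiableOn.diffContOnCl
        rw [closure_ball c h19]
        exact fun x hx => (hg x hx).differentiableAt.differentiableWithinAt
      · intro x hx
        rw [frontier_ball c h19] at hx
        exact hgsphere x hx
      · rwa [closure_ball c h19]
    have hgc : ‖riemannZeta c‖ / 1.8 ^ n ≤ ‖g c‖ := by
      rw [div_le_iff₀ (by positivity)]
      have h1 : ‖Pf s c‖ ≤ 1.8 ^ n := Pf_norm_le fun ρ hρ => by
        have h2 := (hs ρ hρ).1
        rw [mem_closedBall, dist_eq_norm, norm_sub_rev] at h2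
        exact h2
      calc ‖riemannZeta c‖ = ‖g c‖ * ‖Pf s c‖ := by rw [hfg c, norm_mul, mul_comm]
        _ ≤ ‖g c‖ * 1.8 ^ n := mul_le_mul_of_nonneg_left h1 (norm_nonneg _)
    set B : ℝ := Real.log (M / ‖riemannZeta c‖) + n * ℓ with hB
    have hB0 : 0 ≤ B := by positivity
    have hexpB : Real.exp B = M / ‖riemannZeta c‖ * (1.8 / (1.9 - 1.8)) ^ n := by
      rw [hB, Real.exp_add, Real.exp_log (by positivity), Real.exp_nat_mul,
        Real.exp_log (by norm_num)]
    have hgb : ∀ w ∈ closedBall c 1.8, ‖g w‖ ≤ Real.exp B * ‖g c‖ := by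
      intro w hw
      refine (hgball w (closedBall_subset_closedBall (by norm_num) hw)).trans ?_
      rw [hexpB]
      calc M / (1.9 - 1.8) ^ n
          = M / ‖riemannZeta c‖ * (1.8 / (1.9 - 1.8)) ^ n * (‖riemannZeta c‖ / 1.8 ^ n) := by
            rw [div_pow]; field_simp
        _ ≤ _ := mul_le_mul_of_nonneg_left hgc (by positivity)
    have hlg := logDeriv_zero_free (g := g) (c := c) (r := 1.8) (r1 := 1.75) (r2 := 1.7) (B := B)
      (by norm_num) (by norm_num) (by norm_num) hB0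
      (hg.mono (closedBall_subset_closedBall (by norm_num))) hg0 hgb hz
    refine hlg.trans ?_
    have hB1 : B + 1 ≤ (K + K / q * ℓ + 1) * Real.log t := by
      have : n * ℓ ≤ K / q * Real.log t * ℓ := mul_le_mul_of_nonneg_right hcardK hℓ0.le
      have e : (K + K / q * ℓ + 1) * Real.log t = K * Real.log t + K / q * Real.log t * ℓ +
        Real.log t := by ring
      rw [e, hB]
      linarith
    calc 2 * (B + 1) * 1.75 / (1.8 - 1.75) / (1.75 - 1.7)
        ≤ 2 * ((K + K / q * ℓ + 1) * Real.log t) * 1.75 / (1.8 - 1.75) / (1.75 - 1.7) := by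
          have : (0 : ℝ) < 1.8 - 1.75 := by norm_num
          have : (0 : ℝ) < 1.75 - 1.7 := by norm_num
          gcongr
      _ = D * Real.log t := by rw [hD]; ring
      _ ≤ (1 + K / q + D) * Real.log t := by
          have : 0 < K / q := by positivity
          nlinarith

/-- zero free factor: comparison of the values at two points -/
lemma glip {g : ℂ → ℂ} {c : ℂ} {K : ℝ}
    (hg : AnalyticOnNhd ℂ g (closedBall c 1.7)) (hg0 : ∀ z ∈ closedBall c 1.7, g z ≠ 0)
    (hl : ∀ z ∈ closedBall c 1.7, ‖logDeriv g z‖ ≤ K) {z w : ℂ} (hz : z ∈ closedBall c 1.7)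
    (hw : w ∈ closedBall c 1.7) : ‖g z‖ ≤ ‖g w‖ * Real.exp (K * ‖z - w‖) := by
  have hseg : ∀ u ∈ Icc (0 : ℝ) 1, w + (u : ℂ) * (z - w) ∈ closedBall c 1.7 := by
    intro u hu
    have := (convex_closedBall c 1.7).add_smul_sub_mem hw hz hu
    simpa using this
  have hd : ∀ u ∈ Icc (0 : ℝ) 1, HasDerivAt (fun u : ℝ => g (w + (u : ℂ) * (z - w)))
      (deriv g (w + (u : ℂ) * (z - w)) * (z - w)) u := by
    intro u hu
    have h1 := (hg _ (hseg u hu)).differentiableAt.hasDerivAt
    have h2 : HasDerivAt (fun u : ℝ => w + (u : ℂ) * (z - w)) (z - w) u := by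
      have := ((Complex.ofRealCLM.hasDerivAt (x := u)).mul_const (z - w)).const_add w
      simpa using this
    exact h1.comp u h2
  have key := norm_le_gronwallBound_of_norm_deriv_right_le
    (f := fun u : ℝ => g (w + (u : ℂ) * (z - w)))
    (f' := fun u : ℝ => deriv g (w + (u : ℂ) * (z - w)) * (z - w)) (δ := ‖g w‖)
    (K := K * ‖z - w‖) (ε := 0) (a := 0) (b := 1)
    (fun u hu => (hd u hu).continuousAt.continuousWithinAt)
    (fun u hu => (hd u (Ico_subset_Icc_self hu)).hasDerivWithinAt) (by simp) (by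
      intro u hu
      have h1 := hl _ (hseg u (Ico_subset_Icc_self hu))
      have h2 := hg0 _ (hseg u (Ico_subset_Icc_self hu))
      rw [logDeriv_apply, norm_div, div_le_iff₀ (norm_pos_iff.2 h2)] at h1
      rw [norm_mul, add_zero]
      calc _ ≤ K * ‖g (w + (u : ℂ) * (z - w))‖ * ‖z - w‖ :=
            mul_le_mul_of_nonneg_right h1 (norm_nonneg _)
        _ = _ := by ring) 1 (by simp)
  rw [gronwallBound_ε0] at key
  simpa using key

end Pool.Agent.N806.AH
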