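import Pool.Agent.N806.AH.Hor
import Pool.Agent.H345R2.CT.D

/-! From the normalised spacings to the local hypothesis `LH`. -/

set_option autoImplicit false

open Complex Filter Topology Set MeasureTheory Metric

namespace Pool.Agent.N806.AH

open H345 H345.Chi
open SG (ord NZ zmult ZS)

/-- the renormalised height -/
noncomputable def xb (β t : ℝ) : ℝ := t * Real.log t / (2 * Real.pi) + β * t

/-- the renormalised spacing -/
noncomputable def db (β : ℝ) (n : ℕ) : ℝ := xb β (ord (n + 1)) - xb β (ord n)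

lemma xb_slope {β s t B : ℝ} (hs : 0 < s) (hst : s ≤ t) (htB : t ≤ B) {L : ℝ}
    (hL : (Real.log B + 1) / (2 * Real.pi) + |β| ≤ L / 4) :
    xb β t - xb β s ≤ L / 4 * (t - s) := by
  have ht : 0 < t := by linarith
  have hpi := Real.pi_pos
  have h1 := Real.log_le_sub_one_of_pos (div_pos ht hs)
  rw [Real.log_div ht.ne' hs.ne'] at h1
  have h2 : s * (Real.log t - Real.log s) ≤ s * (t / s - 1) := mul_le_mul_of_nonneg_left h1 hs.le
  have h3 : s * (t / s - 1) = t - s := by field_simp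
  rw [h3] at h2
  have h4 : t * Real.log t - s * Real.log s ≤ (t - s) * (Real.log t + 1) := by linarith
  have h5 : Real.log t ≤ Real.log B := Real.log_le_log ht htB
  have h6 : (t - s) * (Real.log t + 1) ≤ (t - s) * (Real.log B + 1) :=
    mul_le_mul_of_nonneg_left (by linarith) (by linarith)
  have h7 : xb β t - xb β s = (t * Real.log t - s * Real.log s) / (2 * Real.pi) + β * (t - s) := by
    unfold xb
    ring
  have h8 : (t * Real.log t - s * Real.log s) / (2 * Real.pi) ≤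
      (t - s) * (Real.log B + 1) / (2 * Real.pi) :=
    div_le_div_of_nonneg_right (h4.trans h6) (by positivity)
  have h9 : β * (t - s) ≤ |β| * (t - s) :=
    mul_le_mul_of_nonneg_right (le_abs_self β) (by linarith)
  rw [h7]
  calc _ ≤ (t - s) * (Real.log B + 1) / (2 * Real.pi) + |β| * (t - s) := add_le_add h8 h9
    _ = ((Real.log B + 1) / (2 * Real.pi) + |β|) * (t - s) := by ring
    _ ≤ L / 4 * (t - s) := mul_le_mul_of_nonneg_right hL (by linarith)

/-- all the spacings between `A` and `B` are `η`-close to the positive half-integers -/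
def Good (β η A B : ℝ) : Prop :=
  ∀ n : ℕ, 1 ≤ n → A ≤ ord n → ord n ≤ B → ∃ k : ℕ, 1 ≤ k ∧ |db β n - k / 2| < η

lemma chain {β η A B : ℝ} (hη : η ≤ 1 / 4) (hG : Good β η A B) {n : ℕ} (hn : 1 ≤ n)
    (hA : A ≤ ord n) (k : ℕ) (hB : ord (n + k) ≤ B) :
    (k : ℝ) / 4 ≤ xb β (ord (n + k)) - xb β (ord n) ∧
    ∃ j : ℤ, |xb β (ord (n + k)) - xb β (ord n) - j / 2| ≤ k * η := by
  induction k with
  | zero =>
    refine ⟨by simp, 0, by simp⟩
  | succ k ih =>
    have hmono : ord (n + k) ≤ ord (n + (k + 1)) := SG.ord_mono (by omega) (by omega)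
    obtain ⟨h1, j, h2⟩ := ih (hmono.trans hB)
    have hA' : A ≤ ord (n + k) := hA.trans (SG.ord_mono hn (by omega))
    obtain ⟨i, hi, h3⟩ := hG (n + k) (by omega) hA' (hmono.trans hB)
    have hi' : (1 : ℝ) ≤ i := by exact_mod_cast hi
    have h4 : db β (n + k) = xb β (ord (n + (k + 1))) - xb β (ord (n + k)) := rfl
    rw [h4] at h3
    have h5 := abs_lt.1 h3
    constructor
    · push_cast
      linarith [h5.1]
    · refine ⟨j + i, ?_⟩
      push_cast
      have h6 : xb β (ord (n + (k + 1))) - xb β (ord n) - ((j : ℝ) + i) / 2 =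
          (xb β (ord (n + k)) - xb β (ord n) - j / 2) +
          (xb β (ord (n + (k + 1))) - xb β (ord (n + k)) - i / 2) := by ring
      rw [h6]
      calc _ ≤ |xb β (ord (n + k)) - xb β (ord n) - j / 2| +
            |xb β (ord (n + (k + 1))) - xb β (ord (n + k)) - i / 2| := abs_add_le _ _
        _ ≤ k * η + η := add_le_add h2 h3.le
        _ = (k + 1) * η := by ring

lemma zo_ord {γ : ℝ} (h0 : 0 < γ) (hγ : γ ∈ Zo) : 1 ≤ NZ γ ∧ ord (NZ γ) = γ := by
  have h1 : riemannZeta (1 / 2 + I * γ) = 0 := by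
    have : riemannZeta (1 / 2 + (γ : ℂ) * I) = 0 := hγ
    rwa [mul_comm] at this
  have h2 : 1 ≤ zmult (1 / 2 + I * γ) := SG.zmult_pos (by simpa using h0) h1
  have h3 := LG.CU.mult_le_NZ h0 h1
  exact ⟨by omega, LG.CU.ord_eq_of h0 h1 (by omega) le_rfl (by omega)⟩

lemma zo_dist {β η A B L : ℝ} (hA0 : 0 < A) (hη0 : 0 ≤ η) (hη : η ≤ 1 / 4) (hG : Good β η A B)
    (hL0 : 0 < L) (hL : (Real.log B + 1) / (2 * Real.pi) + |β| ≤ L / 4) {γ γ' : ℝ} (hγ : γ ∈ Zo)
    (hγ' : γ' ∈ Zo) (hA : A ≤ γ) (hlt : γ < γ') (hB : γ' ≤ B) :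
    1 / L ≤ γ' - γ ∧ ∃ j : ℤ, |xb β γ' - xb β γ - j / 2| ≤ L * η * (γ' - γ) := by
  have h0 : 0 < γ := by linarith
  have h0' : 0 < γ' := by linarith
  obtain ⟨h1, h2⟩ := zo_ord h0 hγ
  obtain ⟨h1', h2'⟩ := zo_ord h0' hγ'
  have hle : NZ γ ≤ NZ γ' := SG.NZ_mono hlt.le
  obtain ⟨k, hk⟩ := Nat.exists_eq_add_of_le hle
  have hk1 : 1 ≤ k := by
    rcases Nat.eq_zero_or_pos k with h | h
    · exfalso
      rw [h, add_zero] at hk
      rw [hk] at h2'
      rw [h2] at h2'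
      linarith
    · exact h
  have hk1' : (1 : ℝ) ≤ k := by exact_mod_cast hk1
  rw [hk] at h2'
  obtain ⟨h3, j, h4⟩ := chain hη hG h1 (by rw [h2]; exact hA) k (by rw [h2']; exact hB)
  rw [h2, h2'] at h3 h4
  have h5 := xb_slope (β := β) h0 hlt.le hB hL
  have h6 : (k : ℝ) ≤ L * (γ' - γ) := by linarith
  constructor
  · rw [div_le_iff₀ hL0]
    linarith
  · refine ⟨j, h4.trans ?_⟩
    calc (k : ℝ) * η ≤ L * (γ' - γ) * η := mul_le_mul_of_nonneg_right h6 hη0
      _ = L * η * (γ' - γ) := by ring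

lemma zo_simple {β η A B : ℝ} (hA0 : 0 < A) (hη : η ≤ 1 / 4) (hG : Good β η A B)
    {γ : ℝ} (hγ : γ ∈ Zo) (hA : A ≤ γ) (hB : γ ≤ B) :
    deriv riemannZeta (1 / 2 + (γ : ℂ) * I) ≠ 0 := by
  intro hd
  have h0 : 0 < γ := by linarith
  have hz : riemannZeta (1 / 2 + (γ : ℂ) * I) = 0 := hγ
  rw [mul_comm] at hd hz
  have h2 : 2 ≤ zmult (1 / 2 + I * γ) := SG.zmult_two (by simpa using h0) hz hd
  have h3 := LG.CU.mult_le_NZ h0 hz
  have e1 : ord (NZ γ - 1) = γ := LG.CU.ord_eq_of h0 hz (by omega) (by omega) (by omega)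
  have e2 : ord (NZ γ - 1 + 1) = γ := LG.CU.ord_eq_of h0 hz (by omega) (by omega) (by omega)
  obtain ⟨k, hk, h4⟩ := hG (NZ γ - 1) (by omega) (by rw [e1]; exact hA) (by rw [e1]; exact hB)
  have h5 : db β (NZ γ - 1) = 0 := by
    unfold db
    rw [e1, e2, sub_self]
  rw [h5, zero_sub, abs_neg] at h4
  have hk' : (1 : ℝ) ≤ k := by exact_mod_cast hk
  rw [abs_of_nonneg (by positivity)] at h4
  linarith

lemma exp_close {a b δ : ℝ} {j : ℤ} (h : |a - b - j / 2| ≤ δ) :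
    ‖cexp (((4 * Real.pi * a : ℝ) : ℂ) * I) - cexp (((4 * Real.pi * b : ℝ) : ℂ) * I)‖ ≤
      4 * Real.pi * δ := by
  have h1 : cexp (((4 * Real.pi * a : ℝ) : ℂ) * I) =
      cexp (((4 * Real.pi * b : ℝ) : ℂ) * I) * cexp (I * ((4 * Real.pi * (a - b - j / 2) : ℝ) : ℂ)) := by
    rw [← Complex.exp_add]
    have h2 : ((4 * Real.pi * a : ℝ) : ℂ) * I = ((4 * Real.pi * b : ℝ) : ℂ) * I +
        I * ((4 * Real.pi * (a - b - j / 2) : ℝ) : ℂ) + j * (2 * Real.pi * I) := by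
      push_cast
      ring
    rw [h2, Complex.exp_add, Complex.exp_int_mul_two_pi_mul_I, mul_one]
  rw [h1]
  have h3 : cexp (((4 * Real.pi * b : ℝ) : ℂ) * I) * cexp (I * ((4 * Real.pi * (a - b - j / 2) : ℝ) : ℂ)) -
      cexp (((4 * Real.pi * b : ℝ) : ℂ) * I) = cexp (((4 * Real.pi * b : ℝ) : ℂ) * I) *
      (cexp (I * ((4 * Real.pi * (a - b - j / 2) : ℝ) : ℂ)) - 1) := by ring
  rw [h3, norm_mul, Complex.norm_exp_ofReal_mul_I, one_mul]
  refine (Real.norm_exp_I_mul_ofReal_sub_one_le).trans ?_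
  rw [Real.norm_eq_abs, abs_mul, abs_of_pos (by positivity : (0 : ℝ) < 4 * Real.pi)]
  exact mul_le_mul_of_nonneg_left h (by positivity)

lemma uu_close {β y η A B L : ℝ}
    (hy : Real.log y = -2 - 4 * Real.pi * β - 2 * Real.log (2 * Real.pi)) (hA12 : 12 ≤ A)
    (hη0 : 0 ≤ η) (hη : η ≤ 1 / 4) (hG : Good β η A B)
    (hL0 : 0 < L) (hL : (Real.log B + 1) / (2 * Real.pi) + |β| ≤ L / 4) {γ γ' : ℝ} (hγ : γ ∈ Zo)
    (hγ' : γ' ∈ Zo) (hA : A ≤ γ) (hlt : γ < γ') (hB : γ' ≤ B) :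
    ‖uu y γ' - uu y γ‖ ≤ (28 / A + 4 * Real.pi * (L * η)) * (γ' - γ) := by
  have hpi := Real.pi_pos
  obtain ⟨_, j, h1⟩ := zo_dist (by linarith) hη0 hη hG hL0 hL hγ hγ' hA hlt hB
  have h2 := phase_close (t := γ') (t' := γ) hy hA12 (by linarith) hA
  have h3 := exp_close h1
  have e1 : ∀ t : ℝ, (2 * (t * Real.log t) + 4 * Real.pi * β * t : ℝ) = 4 * Real.pi * xb β t := by
    intro t
    unfold xb
    field_simp
    ring
  rw [e1, e1, abs_of_pos (by linarith : 0 < γ' - γ)] at h2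
  set E' := cexp (((4 * Real.pi * xb β γ' : ℝ) : ℂ) * I) with hE'
  set E := cexp (((4 * Real.pi * xb β γ : ℝ) : ℂ) * I) with hE
  have hE1 : ‖E'‖ = 1 := Complex.norm_exp_ofReal_mul_I _
  have h4 : (uu y γ' - uu y γ) * E' = (uu y γ' * E' - uu y γ * E) - uu y γ * (E' - E) := by ring
  have h5 : ‖uu y γ' - uu y γ‖ = ‖(uu y γ' - uu y γ) * E'‖ := by rw [norm_mul, hE1, mul_one]
  rw [h5, h4]
  calc ‖(uu y γ' * E' - uu y γ * E) - uu y γ * (E' - E)‖
      ≤ ‖uu y γ' * E' - uu y γ * E‖ + ‖uu y γ * (E' - E)‖ := norm_sub_le _ _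
    _ ≤ 28 / A * (γ' - γ) + 4 * Real.pi * (L * η * (γ' - γ)) := by
        rw [norm_mul, norm_uu, one_mul]
        exact add_le_add h2 h3
    _ = _ := by ring

/-- **the local hypothesis from good spacings** -/
theorem lh_of_good {β y η A B L : ℝ}
    (hy : Real.log y = -2 - 4 * Real.pi * β - 2 * Real.log (2 * Real.pi)) (hA12 : 12 ≤ A)
    (hη0 : 0 ≤ η) (hη : η ≤ 1 / 4) (hG : Good β η A B)
    (hL0 : 0 < L) (hL : (Real.log B + 1) / (2 * Real.pi) + |β| ≤ L / 4) {t0 r : ℝ}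
    (h1 : A ≤ t0 - r) (h2 : t0 + r ≤ B) :
    LH y t0 r (1 / L) (2 * (28 / A + 4 * Real.pi * (L * η))) := by
  have hpi := Real.pi_pos
  have hin : ∀ γ : ℝ, |γ - t0| ≤ r → A ≤ γ ∧ γ ≤ B := by
    intro γ h
    have := abs_le.1 h
    constructor <;> linarith [this.1, this.2]
  have hsym : ∀ γ ∈ Zo, ∀ γ' ∈ Zo, |γ - t0| ≤ r → |γ' - t0| ≤ r →
      ‖uu y γ' - uu y γ‖ ≤ (28 / A + 4 * Real.pi * (L * η)) * |γ' - γ| := by
    intro γ hγ γ' hγ' h h'
    rcases lt_trichotomy γ γ' with hlt | heq | hgt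
    · rw [abs_of_pos (by linarith)]
      exact uu_close hy hA12 hη0 hη hG hL0 hL hγ hγ' (hin γ h).1 hlt (hin γ' h').2
    · rw [heq]; simp
    · rw [norm_sub_rev, abs_sub_comm, abs_of_pos (by linarith)]
      exact uu_close hy hA12 hη0 hη hG hL0 hL hγ' hγ (hin γ' h').1 hgt (hin γ h).2
  have hε0 : 0 ≤ 28 / A + 4 * Real.pi * (L * η) := by positivity
  refine ⟨?_, ?_, ?_⟩
  · intro γ hγ h
    exact zo_simple (by linarith) hη hG hγ (hin γ h).1 (hin γ h).2
  · intro γ hγ γ' hγ' h h' hne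
    rcases lt_or_gt_of_ne hne with hlt | hgt
    · rw [abs_sub_comm, abs_of_pos (by linarith)]
      exact (zo_dist (by linarith) hη0 hη hG hL0 hL hγ hγ' (hin γ h).1 hlt (hin γ' h').2).1
    · rw [abs_of_pos (by linarith)]
      exact (zo_dist (by linarith) hη0 hη hG hL0 hL hγ' hγ (hin γ' h').1 hgt (hin γ h).2).1
  · by_cases hne : (Zo ∩ Icc (t0 - r) (t0 + r)).Nonempty
    · obtain ⟨g, hg, hmin⟩ := Set.exists_min_image _ (fun γ : ℝ => |γ - t0|)
        (zo_finite (t0 - r) (t0 + r)) hne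
      have hg' : |g - t0| ≤ r := by
        rw [abs_le]
        constructor <;> linarith [hg.2.1, hg.2.2]
      have hu : ‖uu y g‖ = 1 := norm_uu y g
      have hu0 : uu y g ≠ 0 := by
        intro h
        rw [h, norm_zero] at hu
        norm_num at hu
      refine ⟨-(uu y g)⁻¹, by rw [norm_neg, norm_inv, hu, inv_one], ?_⟩
      intro γ hγ h
      have h5 : 1 + -(uu y g)⁻¹ * uu y γ = -((uu y g)⁻¹ * (uu y γ - uu y g)) := by
        field_simp
        ring
      rw [h5, norm_neg, norm_mul, norm_inv, hu, inv_one, one_mul]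
      refine (hsym g hg.1 γ hγ hg' h).trans ?_
      have h6 : |g - t0| ≤ |γ - t0| := hmin γ ⟨hγ, by
        have := abs_le.1 h
        constructor <;> linarith [this.1, this.2]⟩
      have h7 : |γ - g| ≤ |γ - t0| + |g - t0| := by
        have : γ - g = (γ - t0) - (g - t0) := by ring
        rw [this]
        exact abs_sub _ _
      calc (28 / A + 4 * Real.pi * (L * η)) * |γ - g|
          ≤ (28 / A + 4 * Real.pi * (L * η)) * (|γ - t0| + |γ - t0|) :=
            mul_le_mul_of_nonneg_left (by linarith) hε0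
        _ = 2 * (28 / A + 4 * Real.pi * (L * η)) * |γ - t0| := by ring
    · refine ⟨1, norm_one, ?_⟩
      intro γ hγ h
      exfalso
      apply hne
      refine ⟨γ, hγ, ?_⟩
      have := abs_le.1 h
      constructor <;> linarith [this.1, this.2]

end Pool.Agent.N806.AH
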