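import Mathlib

/-!
# The residue sets of the Bessel argument

For every `y > 0` we find a modulus `m`, a set `CC` of residues containing all the squarefree numbers,
and a finite set `LL` of squarefree numbers, pairwise incongruent modulo `1/y`, with
`|CC|/m < |LL| y`.
-/

namespace Pool.Agent.N806.AH

theorem exists_pos_le {α : Type*} [DecidableEq α] (S : Finset α) (f : α → ℝ)
    (hf : ∀ a ∈ S, 0 < f a) : ∃ σ : ℝ, 0 < σ ∧ ∀ a ∈ S, σ ≤ f a := by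
  induction S using Finset.induction_on with
  | empty => exact ⟨1, one_pos, by simp⟩
  | insert a S ha ih =>
    obtain ⟨σ, h1, h2⟩ := ih (fun b hb => hf b (Finset.mem_insert_of_mem hb))
    refine ⟨min σ (f a), lt_min h1 (hf a (Finset.mem_insert_self _ _)), ?_⟩
    intro b hb
    rcases Finset.mem_insert.1 hb with rfl | hb
    · exact min_le_right _ _
    · exact (min_le_left _ _).trans (h2 b hb)

theorem sigma_of {y : ℝ} (hy : 0 < y) (LL : Finset ℕ)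
    (h : ∀ ℓ ∈ LL, ∀ ℓ' ∈ LL, ℓ ≠ ℓ' → ∀ k : ℤ, ((ℓ : ℝ) - ℓ') * y ≠ k) :
    ∃ σ : ℝ, 0 < σ ∧ σ ≤ 1 / y ∧
      ∀ ℓ ∈ LL, ∀ ℓ' ∈ LL, ℓ ≠ ℓ' → ∀ k : ℤ, σ ≤ |(ℓ : ℝ) - ℓ' - k * (1 / y)| := by
  classical
  have key : ∀ x : ℝ, ∀ k : ℤ, |x - k * (1 / y)| = |x * y - k| / y := by
    intro x k
    rw [show x - k * (1 / y) = (x * y - k) / y from by field_simp, abs_div, abs_of_pos hy]
  obtain ⟨σ, h1, h2⟩ := exists_pos_le ((LL ×ˢ LL).filter (fun p => p.1 ≠ p.2))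
    (fun p => |((p.1 : ℝ) - p.2) * y - round (((p.1 : ℝ) - p.2) * y)| / y) (by
      rintro ⟨a, b⟩ hp
      rw [Finset.mem_filter, Finset.mem_product] at hp
      have := h a hp.1.1 b hp.1.2 hp.2 (round (((a : ℝ) - b) * y))
      have h3 : 0 < |((a : ℝ) - b) * y - round (((a : ℝ) - b) * y)| :=
        abs_pos.2 (sub_ne_zero.2 this)
      exact div_pos h3 hy)
  refine ⟨min σ (1 / y), lt_min h1 (by positivity), min_le_right _ _, ?_⟩
  intro a ha b hb hab k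
  have h3 := h2 (a, b) (by
    rw [Finset.mem_filter, Finset.mem_product]
    exact ⟨⟨ha, hb⟩, hab⟩)
  simp only at h3
  rw [key]
  refine (min_le_left _ _).trans (h3.trans ?_)
  exact div_le_div_of_nonneg_right (round_le _ _) hy.le

theorem sets_irr {y : ℝ} (hy : 0 < y) (hirr : Irrational y) :
    ∃ (m : ℕ) (CC LL : Finset ℕ) (σ : ℝ), 1 ≤ m ∧
      (∀ n : ℕ, 1 ≤ n → Squarefree n → n % m ∈ CC) ∧
      (∀ ℓ ∈ LL, 1 ≤ ℓ ∧ Squarefree ℓ) ∧ 0 < σ ∧ σ ≤ 1 / y ∧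
      (∀ ℓ ∈ LL, ∀ ℓ' ∈ LL, ℓ ≠ ℓ' → ∀ k : ℤ, σ ≤ |(ℓ : ℝ) - ℓ' - k * (1 / y)|) ∧
      (CC.card : ℝ) / m < LL.card * y := by
  classical
  obtain ⟨N, hN⟩ := exists_nat_gt (1 / y)
  obtain ⟨LL, hL1, hL2⟩ := Nat.infinite_setOf_prime.exists_subset_card_eq N
  have hpr : ∀ ℓ ∈ LL, Nat.Prime ℓ := fun ℓ hℓ => hL1 hℓ
  obtain ⟨σ, h1, h2, h3⟩ := sigma_of hy LL (by
    intro a _ b _ hab k hk
    have h4 : ((a : ℤ) - b : ℤ) ≠ 0 := by
      intro h
      apply hab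
      have : (a : ℤ) = b := by linarith
      exact_mod_cast this
    have h5 : Irrational ((((a : ℤ) - b : ℤ) : ℝ) * y) := hirr.intCast_mul h4
    apply h5
    refine ⟨(k : ℚ), ?_⟩
    push_cast
    rw [← hk])
  refine ⟨1, {0}, LL, σ, le_refl _, ?_, ?_, h1, h2, h3, ?_⟩
  · intro n _ _
    simp [Nat.mod_one]
  · intro ℓ hℓ
    exact ⟨(hpr ℓ hℓ).one_lt.le, (hpr ℓ hℓ).prime.squarefree⟩
  · rw [hL2]
    simp only [Finset.card_singleton, Nat.cast_one, div_one]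
    rw [div_lt_iff₀ hy] at hN
    exact hN

theorem sets_rat {y : ℝ} (hy : 0 < y) {q0 : ℚ} (hq : (q0 : ℝ) = y) :
    ∃ (m : ℕ) (CC LL : Finset ℕ) (σ : ℝ), 1 ≤ m ∧
      (∀ n : ℕ, 1 ≤ n → Squarefree n → n % m ∈ CC) ∧
      (∀ ℓ ∈ LL, 1 ≤ ℓ ∧ Squarefree ℓ) ∧ 0 < σ ∧ σ ≤ 1 / y ∧
      (∀ ℓ ∈ LL, ∀ ℓ' ∈ LL, ℓ ≠ ℓ' → ∀ k : ℤ, σ ≤ |(ℓ : ℝ) - ℓ' - k * (1 / y)|) ∧
      (CC.card : ℝ) / m < LL.card * y := by
  classical
  have hq0 : 0 < q0 := by
    have : (0 : ℝ) < (q0 : ℝ) := by rw [hq]; exact hy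
    exact_mod_cast this
  set r : ℕ := q0.den with hr
  have hr0 : 0 < r := q0.den_pos
  set a : ℤ := q0.num with ha
  have ha0 : 0 < a := Rat.num_pos.2 hq0
  have hya : y * r = a := by
    rw [← hq]
    exact_mod_cast Rat.mul_den_eq_num q0
  have hcop : IsCoprime a (r : ℤ) := Rat.isCoprime_num_den q0
  set DD : Finset ℕ := (Finset.range r).filter (fun c => ∃ n : ℕ, 1 ≤ n ∧ Squarefree n ∧ n % r = c)
    with hDD
  have hDDm : ∀ n : ℕ, 1 ≤ n → Squarefree n → n % r ∈ DD := by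
    intro n h1 h2
    rw [hDD, Finset.mem_filter, Finset.mem_range]
    exact ⟨Nat.mod_lt _ hr0, n, h1, h2, rfl⟩
  have hch : ∀ c : ℕ, ∃ n : ℕ, c ∈ DD → 1 ≤ n ∧ Squarefree n ∧ n % r = c := by
    intro c
    by_cases hc : c ∈ DD
    · have := hc
      rw [hDD, Finset.mem_filter] at this
      obtain ⟨_, n, h⟩ := this
      exact ⟨n, fun _ => h⟩
    · exact ⟨0, fun h => absurd h hc⟩
  choose g hg using hch
  set LL : Finset ℕ := DD.image g with hLL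
  have hinj : Set.InjOn g (DD : Set ℕ) := by
    intro c hc c' hc' h
    rw [← (hg c hc).2.2, ← (hg c' hc').2.2, h]
  have hcard : LL.card = DD.card := Finset.card_image_of_injOn hinj
  have hDD0 : 0 < DD.card := Finset.card_pos.2 ⟨_, hDDm 1 le_rfl squarefree_one⟩
  obtain ⟨σ, h1, h2, h3⟩ := sigma_of hy LL (by
    intro ℓ hℓ ℓ' hℓ' hne k hk
    rw [hLL, Finset.mem_image] at hℓ hℓ'
    obtain ⟨c, hc, rfl⟩ := hℓ
    obtain ⟨c', hc', rfl⟩ := hℓ'
    have hmul : (((g c : ℤ) - g c') * a : ℤ) = k * r := by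
      have : (((g c : ℝ) - g c') * a : ℝ) = k * r := by
        rw [← hya, ← mul_assoc, hk]
      exact_mod_cast this
    have hdv : (r : ℤ) ∣ ((g c : ℤ) - g c') := by
      have h5 : (r : ℤ) ∣ ((g c : ℤ) - g c') * a := by rw [hmul]; exact dvd_mul_left _ _
      exact hcop.symm.dvd_of_dvd_mul_right h5
    have hmod : (g c) % r = (g c') % r := by
      have h6 : (g c' : ℤ) ≡ (g c : ℤ) [ZMOD r] := (Int.modEq_iff_dvd).2 hdv
      have h7 : g c' ≡ g c [MOD r] := (Int.natCast_modEq_iff).1 h6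
      exact h7.symm
    rw [(hg c hc).2.2, (hg c' hc').2.2] at hmod
    exact hne (by rw [hmod]))
  obtain ⟨q, hq1, hqp⟩ := Nat.exists_infinite_primes (r + 1)
  have hqr : Nat.Coprime r (q ^ 2) := by
    apply Nat.Coprime.pow_right
    rw [Nat.coprime_comm, Nat.Prime.coprime_iff_not_dvd hqp]
    intro h
    have := Nat.le_of_dvd hr0 h
    omega
  have hq2 : 0 < q ^ 2 := pow_pos hqp.pos _
  set CC : Finset ℕ := (Finset.range (r * q ^ 2)).filter (fun n => n % r ∈ DD ∧ n % (q ^ 2) ≠ 0)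
    with hCC
  refine ⟨r * q ^ 2, CC, LL, σ, Nat.mul_pos hr0 hq2, ?_, ?_, h1, h2, h3, ?_⟩
  · intro n hn hsq
    rw [hCC, Finset.mem_filter, Finset.mem_range]
    refine ⟨Nat.mod_lt _ (Nat.mul_pos hr0 hq2), ?_, ?_⟩
    · rw [Nat.mod_mod_of_dvd _ (dvd_mul_right _ _)]
      exact hDDm n hn hsq
    · rw [Nat.mod_mod_of_dvd _ (dvd_mul_left _ _)]
      intro h
      have h4 : q ^ 2 ∣ n := Nat.dvd_of_mod_eq_zero h
      have h5 : q * q ∣ n := by rw [← pow_two]; exact h4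
      exact hqp.one_lt.ne' (Nat.isUnit_iff.1 (hsq q h5))
  · intro ℓ hℓ
    rw [hLL, Finset.mem_image] at hℓ
    obtain ⟨c, hc, rfl⟩ := hℓ
    exact ⟨(hg c hc).1, (hg c hc).2.1⟩
  · have hle : CC.card ≤ DD.card * (q ^ 2 - 1) := by
      have : CC.card ≤ (DD ×ˢ ((Finset.range (q ^ 2)).erase 0)).card := by
        apply Finset.card_le_card_of_injOn (fun n => (n % r, n % (q ^ 2)))
        · intro n hn
          rw [hCC, Finset.coe_filter] at hn
          simp only [Set.mem_setOf_eq, Finset.mem_range] at hn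
          simp only [Finset.coe_product, Set.mem_prod, Finset.mem_coe, Finset.mem_erase,
            Finset.mem_range]
          exact ⟨hn.2.1, hn.2.2, Nat.mod_lt _ hq2⟩
        · intro n hn n' hn' h
          rw [hCC, Finset.coe_filter] at hn hn'
          simp only [Set.mem_setOf_eq, Finset.mem_range] at hn hn'
          simp only [Prod.mk.injEq] at h
          have h4 : n ≡ n' [MOD r * q ^ 2] :=
            (Nat.modEq_and_modEq_iff_modEq_mul hqr).1 ⟨h.1, h.2⟩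
          exact Nat.ModEq.eq_of_lt_of_lt h4 hn.1 hn'.1
      rw [Finset.card_product, Finset.card_erase_of_mem (Finset.mem_range.2 hq2),
        Finset.card_range] at this
      exact this
    have hr' : (0 : ℝ) < r := by exact_mod_cast hr0
    have hq' : (0 : ℝ) < (q : ℝ) ^ 2 := by exact_mod_cast hq2
    have hD' : (0 : ℝ) < DD.card := by exact_mod_cast hDD0
    have hleR : (CC.card : ℝ) ≤ DD.card * ((q : ℝ) ^ 2 - 1) := by
      have : (CC.card : ℝ) ≤ ((DD.card * (q ^ 2 - 1) : ℕ) : ℝ) := by exact_mod_cast hle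
      rw [Nat.cast_mul, Nat.cast_sub hq2, Nat.cast_pow, Nat.cast_one] at this
      exact this
    have hstep : (CC.card : ℝ) / ((r * q ^ 2 : ℕ) : ℝ) < DD.card / r := by
      rw [Nat.cast_mul, Nat.cast_pow, div_lt_div_iff₀ (by positivity) hr']
      nlinarith [mul_pos hD' hr']
    refine hstep.trans_le ?_
    rw [hcard, div_le_iff₀ hr', mul_assoc, hya]
    have ha1 : (1 : ℝ) ≤ a := by exact_mod_cast ha0
    nlinarith

theorem sets {y : ℝ} (hy : 0 < y) :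
    ∃ (m : ℕ) (CC LL : Finset ℕ) (σ : ℝ), 1 ≤ m ∧
      (∀ n : ℕ, 1 ≤ n → Squarefree n → n % m ∈ CC) ∧
      (∀ ℓ ∈ LL, 1 ≤ ℓ ∧ Squarefree ℓ) ∧ 0 < σ ∧ σ ≤ 1 / y ∧
      (∀ ℓ ∈ LL, ∀ ℓ' ∈ LL, ℓ ≠ ℓ' → ∀ k : ℤ, σ ≤ |(ℓ : ℝ) - ℓ' - k * (1 / y)|) ∧
      (CC.card : ℝ) / m < LL.card * y := by
  by_cases h : Irrational y
  · exact sets_irr hy h
  · rw [Irrational, not_not] at h
    obtain ⟨q0, hq⟩ := h
    exact sets_rat hy hq

end Pool.Agent.N806.AH
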