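import Pool.Agent.N806.AH.GapB

/-! From the normalised spacings to the local hypothesis `LH`, with an error proportional to the gap. -/

set_option autoImplicit false

open Complex Filter Topology Set MeasureTheory Metric

namespace Pool.Agent.N806.AH

open H345 H345.Chi
open SG (ord NZ zmult ZS)

/-- all the spacings between `A` and `B` are close to the positive half-integers, with an error
at most `c` times the gap plus `1 / L` -/
def Good2 (β c L A B : ℝ) : Prop :=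
  ∀ n : ℕ, 1 ≤ n → A ≤ ord n → ord n ≤ B →
    ∃ k : ℕ, 1 ≤ k ∧ |db β n - k / 2| < c * (ord (n + 1) - ord n + 1 / L)

/-- the gaps are less than `1` -/
def Gaps1 (A : ℝ) : Prop := ∀ n : ℕ, 1 ≤ n → A ≤ ord n → ord (n + 1) - ord n < 1

lemma chain2 {β c L A B : ℝ} (hc0 : 0 ≤ c) (hc : c ≤ 1 / 8) (hL : 1 ≤ L) (hg : Gaps1 A)
    (hG : Good2 β c L A B) {n : ℕ} (hn : 1 ≤ n)
    (hA : A ≤ ord n) (k : ℕ) (hB : ord (n + k) ≤ B) :
    (k : ℝ) / 4 ≤ xb β (ord (n + k)) - xb β (ord n) ∧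
    ∃ j : ℤ, |xb β (ord (n + k)) - xb β (ord n) - j / 2| ≤ c * (ord (n + k) - ord n) + k * (c * (1 / L)) := by
  have hL1 : 1 / L ≤ 1 := by
    rw [div_le_one (by linarith)]
    exact hL
  have hL0 : 0 ≤ 1 / L := by positivity
  induction k with
  | zero =>
    refine ⟨by simp, 0, by simp⟩
  | succ k ih =>
    have hmono : ord (n + k) ≤ ord (n + (k + 1)) := SG.ord_mono (by omega) (by omega)
    obtain ⟨h1, j, h2⟩ := ih (hmono.trans hB)
    have hA' : A ≤ ord (n + k) := hA.trans (SG.ord_mono hn (by omega))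
    obtain ⟨i, hi, h3⟩ := hG (n + k) (by omega) hA' (hmono.trans hB)
    have hg1 := hg (n + k) (by omega) hA'
    have hi' : (1 : ℝ) ≤ i := by exact_mod_cast hi
    have h4 : db β (n + k) = xb β (ord (n + (k + 1))) - xb β (ord (n + k)) := rfl
    have e0 : n + k + 1 = n + (k + 1) := by ring
    rw [h4, e0] at h3
    rw [e0] at hg1
    have h5 := abs_lt.1 h3
    have h6 : c * (ord (n + (k + 1)) - ord (n + k) + 1 / L) ≤ 1 / 4 := by
      calc c * (ord (n + (k + 1)) - ord (n + k) + 1 / L) ≤ 1 / 8 * (1 + 1) := by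
            apply mul_le_mul hc (by linarith) (by linarith) (by norm_num)
        _ = 1 / 4 := by norm_num
    constructor
    · push_cast
      linarith [h5.1]
    · refine ⟨j + i, ?_⟩
      push_cast
      have h7 : xb β (ord (n + (k + 1))) - xb β (ord n) - ((j : ℝ) + i) / 2 =
          (xb β (ord (n + k)) - xb β (ord n) - j / 2) +
          (xb β (ord (n + (k + 1))) - xb β (ord (n + k)) - i / 2) := by ring
      rw [h7]
      calc _ ≤ |xb β (ord (n + k)) - xb β (ord n) - j / 2| +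
            |xb β (ord (n + (k + 1))) - xb β (ord (n + k)) - i / 2| := abs_add_le _ _
        _ ≤ (c * (ord (n + k) - ord n) + k * (c * (1 / L))) +
            c * (ord (n + (k + 1)) - ord (n + k) + 1 / L) := add_le_add h2 h3.le
        _ = _ := by ring

lemma zo_dist2 {β c A B L : ℝ} (hA0 : 0 < A) (hc0 : 0 ≤ c) (hc : c ≤ 1 / 8) (hg : Gaps1 A)
    (hL1 : 1 ≤ L) (hG : Good2 β c L A B)
    (hL : (Real.log B + 1) / (2 * Real.pi) + |β| ≤ L / 4) {γ γ' : ℝ} (hγ : γ ∈ Zo)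
    (hγ' : γ' ∈ Zo) (hA : A ≤ γ) (hlt : γ < γ') (hB : γ' ≤ B) :
    1 / L ≤ γ' - γ ∧ ∃ j : ℤ, |xb β γ' - xb β γ - j / 2| ≤ 2 * c * (γ' - γ) := by
  have hL0 : 0 < L := by linarith
  have h0 : 0 < γ := by linarith
  have h0' : 0 < γ' := by linarith
  obtain ⟨h1, h2⟩ := zo_ord h0 hγ
  obtain ⟨h1', h2'⟩ := zo_ord h0' hγ'
  have hle : NZ γ ≤ NZ γ' := SG.NZ_mono hlt.le
  obtain ⟨k, hk⟩ := Nat.exists_eq_add_of_le hle
  have hk1 : 1 ≤ k := by
    rcases Nat.eq_zero_or_pos k with h | h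
    · exfalso
      rw [h, add_zero] at hk
      rw [hk] at h2'
      rw [h2] at h2'
      linarith
    · exact h
  have hk1' : (1 : ℝ) ≤ k := by exact_mod_cast hk1
  rw [hk] at h2'
  obtain ⟨h3, j, h4⟩ := chain2 hc0 hc hL1 hg hG h1 (by rw [h2]; exact hA) k (by rw [h2']; exact hB)
  rw [h2, h2'] at h3 h4
  have h5 := xb_slope (β := β) h0 hlt.le hB hL
  have h6 : (k : ℝ) ≤ L * (γ' - γ) := by linarith
  constructor
  · rw [div_le_iff₀ hL0]
    linarith
  · refine ⟨j, h4.trans ?_⟩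
    have h7 : (k : ℝ) * (c * (1 / L)) ≤ L * (γ' - γ) * (c * (1 / L)) :=
      mul_le_mul_of_nonneg_right h6 (by positivity)
    have h8 : L * (γ' - γ) * (c * (1 / L)) = c * (γ' - γ) := by field_simp
    linarith

lemma zo_simple2 {β c A B L : ℝ} (hA0 : 0 < A) (hc0 : 0 ≤ c) (hc : c ≤ 1 / 8) (hL1 : 1 ≤ L)
    (hG : Good2 β c L A B)
    {γ : ℝ} (hγ : γ ∈ Zo) (hA : A ≤ γ) (hB : γ ≤ B) :
    deriv riemannZeta (1 / 2 + (γ : ℂ) * I) ≠ 0 := by
  intro hd
  have h0 : 0 < γ := by linarith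
  have hz : riemannZeta (1 / 2 + (γ : ℂ) * I) = 0 := hγ
  rw [mul_comm] at hd hz
  have h2 : 2 ≤ zmult (1 / 2 + I * γ) := SG.zmult_two (by simpa using h0) hz hd
  have h3 := LG.CU.mult_le_NZ h0 hz
  have e1 : ord (NZ γ - 1) = γ := LG.CU.ord_eq_of h0 hz (by omega) (by omega) (by omega)
  have e2 : ord (NZ γ - 1 + 1) = γ := LG.CU.ord_eq_of h0 hz (by omega) (by omega) (by omega)
  obtain ⟨k, hk, h4⟩ := hG (NZ γ - 1) (by omega) (by rw [e1]; exact hA) (by rw [e1]; exact hB)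
  have h5 : db β (NZ γ - 1) = 0 := by
    unfold db
    rw [e1, e2, sub_self]
  rw [h5, zero_sub, abs_neg, e1, e2, sub_self, zero_add] at h4
  have hk' : (1 : ℝ) ≤ k := by exact_mod_cast hk
  rw [abs_of_nonneg (by positivity)] at h4
  have hL1' : 1 / L ≤ 1 := by
    rw [div_le_one (by linarith)]
    exact hL1
  have h6 : c * (1 / L) ≤ 1 / 8 * 1 := mul_le_mul hc hL1' (by positivity) (by norm_num)
  linarith

lemma uu_close2 {β y A e : ℝ}
    (hy : Real.log y = -2 - 4 * Real.pi * β - 2 * Real.log (2 * Real.pi)) (hA12 : 12 ≤ A)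
    {γ γ' : ℝ} (hA : A ≤ γ) (hlt : γ < γ') (h1 : ∃ j : ℤ, |xb β γ' - xb β γ - j / 2| ≤ e * (γ' - γ)) :
    ‖uu y γ' - uu y γ‖ ≤ (28 / A + 4 * Real.pi * e) * (γ' - γ) := by
  have hpi := Real.pi_pos
  obtain ⟨j, h1⟩ := h1
  have h2 := phase_close (t := γ') (t' := γ) hy hA12 (by linarith) hA
  have h3 := exp_close h1
  have e1 : ∀ t : ℝ, (2 * (t * Real.log t) + 4 * Real.pi * β * t : ℝ) = 4 * Real.pi * xb β t := by
    intro t
    unfold xb
    field_simp
    ring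
  rw [e1, e1, abs_of_pos (by linarith : 0 < γ' - γ)] at h2
  set E' := cexp (((4 * Real.pi * xb β γ' : ℝ) : ℂ) * I) with hE'
  set E := cexp (((4 * Real.pi * xb β γ : ℝ) : ℂ) * I) with hE
  have hE1 : ‖E'‖ = 1 := Complex.norm_exp_ofReal_mul_I _
  have h4 : (uu y γ' - uu y γ) * E' = (uu y γ' * E' - uu y γ * E) - uu y γ * (E' - E) := by ring
  have h5 : ‖uu y γ' - uu y γ‖ = ‖(uu y γ' - uu y γ) * E'‖ := by rw [norm_mul, hE1, mul_one]
  rw [h5, h4]
  calc ‖(uu y γ' * E' - uu y γ * E) - uu y γ * (E' - E)‖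
      ≤ ‖uu y γ' * E' - uu y γ * E‖ + ‖uu y γ * (E' - E)‖ := norm_sub_le _ _
    _ ≤ 28 / A * (γ' - γ) + 4 * Real.pi * (e * (γ' - γ)) := by
        rw [norm_mul, norm_uu, one_mul]
        exact add_le_add h2 h3
    _ = _ := by ring

/-- **the local hypothesis from good spacings** -/
theorem lh_of_good2 {β y c A B L : ℝ}
    (hy : Real.log y = -2 - 4 * Real.pi * β - 2 * Real.log (2 * Real.pi)) (hA12 : 12 ≤ A)
    (hc0 : 0 ≤ c) (hc : c ≤ 1 / 8) (hg : Gaps1 A) (hL1 : 1 ≤ L) (hG : Good2 β c L A B)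
    (hL : (Real.log B + 1) / (2 * Real.pi) + |β| ≤ L / 4) {t0 r : ℝ}
    (h1 : A ≤ t0 - r) (h2 : t0 + r ≤ B) :
    LH y t0 r (1 / L) (2 * (28 / A + 4 * Real.pi * (2 * c))) := by
  have hpi := Real.pi_pos
  have hin : ∀ γ : ℝ, |γ - t0| ≤ r → A ≤ γ ∧ γ ≤ B := by
    intro γ h
    have := abs_le.1 h
    constructor <;> linarith [this.1, this.2]
  have hsym : ∀ γ ∈ Zo, ∀ γ' ∈ Zo, |γ - t0| ≤ r → |γ' - t0| ≤ r →
      ‖uu y γ' - uu y γ‖ ≤ (28 / A + 4 * Real.pi * (2 * c)) * |γ' - γ| := by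
    intro γ hγ γ' hγ' h h'
    rcases lt_trichotomy γ γ' with hlt | heq | hgt
    · rw [abs_of_pos (by linarith)]
      exact uu_close2 hy hA12 (hin γ h).1 hlt
        (zo_dist2 (by linarith) hc0 hc hg hL1 hG hL hγ hγ' (hin γ h).1 hlt (hin γ' h').2).2
    · rw [heq]; simp
    · rw [norm_sub_rev, abs_sub_comm, abs_of_pos (by linarith)]
      exact uu_close2 hy hA12 (hin γ' h').1 hgt
        (zo_dist2 (by linarith) hc0 hc hg hL1 hG hL hγ' hγ (hin γ' h').1 hgt (hin γ h).2).2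
  have hε0 : 0 ≤ 28 / A + 4 * Real.pi * (2 * c) := by positivity
  refine ⟨?_, ?_, ?_⟩
  · intro γ hγ h
    exact zo_simple2 (by linarith) hc0 hc hL1 hG hγ (hin γ h).1 (hin γ h).2
  · intro γ hγ γ' hγ' h h' hne
    rcases lt_or_gt_of_ne hne with hlt | hgt
    · rw [abs_sub_comm, abs_of_pos (by linarith)]
      exact (zo_dist2 (by linarith) hc0 hc hg hL1 hG hL hγ hγ' (hin γ h).1 hlt (hin γ' h').2).1
    · rw [abs_of_pos (by linarith)]
      exact (zo_dist2 (by linarith) hc0 hc hg hL1 hG hL hγ' hγ (hin γ' h').1 hgt (hin γ h).2).1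
  · by_cases hne : (Zo ∩ Icc (t0 - r) (t0 + r)).Nonempty
    · obtain ⟨g, hg', hmin⟩ := Set.exists_min_image _ (fun γ : ℝ => |γ - t0|)
        (zo_finite (t0 - r) (t0 + r)) hne
      have hg'' : |g - t0| ≤ r := by
        rw [abs_le]
        constructor <;> linarith [hg'.2.1, hg'.2.2]
      have hu : ‖uu y g‖ = 1 := norm_uu y g
      have hu0 : uu y g ≠ 0 := by
        intro h
        rw [h, norm_zero] at hu
        norm_num at hu
      refine ⟨-(uu y g)⁻¹, by rw [norm_neg, norm_inv, hu, inv_one], ?_⟩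
      intro γ hγ h
      have h5 : 1 + -(uu y g)⁻¹ * uu y γ = -((uu y g)⁻¹ * (uu y γ - uu y g)) := by
        field_simp
        ring
      rw [h5, norm_neg, norm_mul, norm_inv, hu, inv_one, one_mul]
      refine (hsym g hg'.1 γ hγ hg'' h).trans ?_
      have h6 : |g - t0| ≤ |γ - t0| := hmin γ ⟨hγ, by
        have := abs_le.1 h
        constructor <;> linarith [this.1, this.2]⟩
      have h7 : |γ - g| ≤ |γ - t0| + |g - t0| := by
        have : γ - g = (γ - t0) - (g - t0) := by ring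
        rw [this]
        exact abs_sub _ _
      calc (28 / A + 4 * Real.pi * (2 * c)) * |γ - g|
          ≤ (28 / A + 4 * Real.pi * (2 * c)) * (|γ - t0| + |γ - t0|) :=
            mul_le_mul_of_nonneg_left (by linarith) hε0
        _ = 2 * (28 / A + 4 * Real.pi * (2 * c)) * |γ - t0| := by ring
    · refine ⟨1, norm_one, ?_⟩
      intro γ hγ h
      exfalso
      apply hne
      refine ⟨γ, hγ, ?_⟩
      have := abs_le.1 h
      constructor <;> linarith [this.1, this.2]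

end Pool.Agent.N806.AH
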