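import Pool.Agent.N806.AH.Core2
import Pool.Agent.N806.AH.Sets
import Pool.Agent.N806.AH.Gap2

/-! The number of the spacings away from the half-integers, relative to the gap. -/

set_option autoImplicit false

open Complex Filter Topology Set MeasureTheory Metric

namespace Pool.Agent.N806.AH

open H345 H345.Chi
open SG (ord NZ zmult ZS)

open Classical in
/-- the bad indices -/
noncomputable def BadR (β c l A B : ℝ) : Finset ℕ :=
  (Finset.Icc 1 (NZ B)).filter (fun n => A ≤ ord n ∧
    ∀ k : ℕ, 1 ≤ k → c * (ord (n + 1) - ord n + 1 / l) ≤ |db β n - k / 2|)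

lemma mem_BadR {β c l A B : ℝ} {n : ℕ} : n ∈ BadR β c l A B ↔ (1 ≤ n ∧ n ≤ NZ B) ∧ A ≤ ord n ∧
    ∀ k : ℕ, 1 ≤ k → c * (ord (n + 1) - ord n + 1 / l) ≤ |db β n - k / 2| := by
  classical
  unfold BadR
  rw [Finset.mem_filter, Finset.mem_Icc]

open Classical in
/-- the exceptional points -/
noncomputable def ER (S : Finset ℕ) (A B : ℝ) : Finset ℝ := insert A (insert B (S.image ord))

lemma ER_card (S : Finset ℕ) (A B : ℝ) : (ER S A B).card ≤ S.card + 2 := by
  classical
  unfold ER
  calc _ ≤ (insert B (S.image ord)).card + 1 := Finset.card_insert_le _ _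
    _ ≤ (S.image ord).card + 1 + 1 := by
        have := Finset.card_insert_le B (S.image ord)
        omega
    _ ≤ _ := by
        have : (S.image ord).card ≤ S.card := Finset.card_image_le
        omega

/-- the distance function -/
noncomputable def DR (S : Finset ℕ) (A B t : ℝ) : ℝ :=
  min (t - A) (min (B - t) (Metric.infDist t (ER S A B : Set ℝ))) - 1

lemma DR_lip (S : Finset ℕ) (A B s t : ℝ) : |DR S A B s - DR S A B t| ≤ |s - t| := by
  unfold DR
  have h1 : ∀ a b : ℝ, a - 1 - (b - 1) = a - b := fun a b => by ring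
  rw [h1]
  refine (abs_min_sub_min_le_max _ _ _ _).trans (max_le ?_ ((abs_min_sub_min_le_max _ _ _ _).trans
    (max_le ?_ ?_)))
  · rw [show s - A - (t - A) = s - t by ring]
  · rw [show B - s - (B - t) = -(s - t) by ring, abs_neg]
  · have h2 := (Metric.lipschitz_infDist_pt (ER S A B : Set ℝ)).dist_le_mul s t
    rw [NNReal.coe_one, one_mul, Real.dist_eq, Real.dist_eq] at h2
    exact h2

lemma DR_le1 (S : Finset ℕ) (A B t : ℝ) : DR S A B t + 1 ≤ t - A := by
  unfold DR
  linarith [min_le_left (t - A) (min (B - t) (Metric.infDist t (ER S A B : Set ℝ)))]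

lemma DR_le2 (S : Finset ℕ) (A B t : ℝ) : DR S A B t + 1 ≤ B - t := by
  unfold DR
  linarith [min_le_right (t - A) (min (B - t) (Metric.infDist t (ER S A B : Set ℝ))),
    min_le_left (B - t) (Metric.infDist t (ER S A B : Set ℝ))]

lemma DR_le3 (S : Finset ℕ) (A B t : ℝ) : DR S A B t + 1 ≤ Metric.infDist t (ER S A B : Set ℝ) := by
  unfold DR
  linarith [min_le_right (t - A) (min (B - t) (Metric.infDist t (ER S A B : Set ℝ))),
    min_le_right (B - t) (Metric.infDist t (ER S A B : Set ℝ))]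

lemma good_of_DR {S : Finset ℕ} {A B t r : ℝ} (h : r ≤ DR S A B t) :
    A ≤ t - r ∧ t + r ≤ B ∧ ∀ n ∈ S, ¬ (t - r ≤ ord n ∧ ord n ≤ t + r) := by
  classical
  have h1 := DR_le1 S A B t
  have h2 := DR_le2 S A B t
  have h3 := DR_le3 S A B t
  refine ⟨by linarith, by linarith, ?_⟩
  rintro n hn ⟨hA, hB⟩
  have hmem' : ord n ∈ (ER S A B : Set ℝ) := by
    unfold ER
    rw [Finset.mem_coe]
    exact Finset.mem_insert_of_mem (Finset.mem_insert_of_mem (Finset.mem_image_of_mem _ hn))
  have h4 := Metric.infDist_le_dist_of_mem (x := t) hmem'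
  rw [Real.dist_eq] at h4
  have h5 : |t - ord n| ≤ r := by
    rw [abs_le]
    constructor <;> linarith
  linarith

lemma vol_DR {S : Finset ℕ} {A B R : ℝ} :
    volume (Icc A B ∩ {t | DR S A B t < R}) ≤ ENNReal.ofReal ((S.card + 2) * (2 * (R + 1))) := by
  classical
  by_cases hR : 0 ≤ R + 1
  swap
  · have hemp : Icc A B ∩ {t | DR S A B t < R} = ∅ := by
      apply Set.eq_empty_of_forall_notMem
      rintro t ⟨⟨h1, h2⟩, h3⟩
      have h4 : 0 ≤ DR S A B t + 1 := by
        unfold DR
        have h5 : 0 ≤ min (t - A) (min (B - t) (Metric.infDist t (ER S A B : Set ℝ))) :=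
          le_min (by linarith) (le_min (by linarith) Metric.infDist_nonneg)
        linarith
      simp only [mem_setOf_eq] at h3
      push Not at hR
      linarith
    rw [hemp]
    simp
  have hsub : Icc A B ∩ {t | DR S A B t < R} ⊆ ⋃ s ∈ ER S A B, Icc (s - (R + 1)) (s + (R + 1)) := by
    rintro t ⟨⟨h1, h2⟩, h3⟩
    simp only [mem_setOf_eq] at h3
    have h4 : min (t - A) (min (B - t) (Metric.infDist t (ER S A B : Set ℝ))) < R + 1 := by
      unfold DR at h3
      linarith
    simp only [mem_iUnion]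
    rcases min_lt_iff.1 h4 with h | h
    · refine ⟨A, Finset.mem_insert_self _ _, ?_⟩
      rw [mem_Icc]
      constructor <;> linarith
    · rcases min_lt_iff.1 h with h | h
      · refine ⟨B, Finset.mem_insert_of_mem (Finset.mem_insert_self _ _), ?_⟩
        rw [mem_Icc]
        constructor <;> linarith
      · have hne : (ER S A B : Set ℝ).Nonempty := ⟨A, by
          rw [Finset.mem_coe]; exact Finset.mem_insert_self _ _⟩
        obtain ⟨s, hs, h5⟩ := (Metric.infDist_lt_iff hne).1 h
        rw [Real.dist_eq, abs_lt] at h5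
        refine ⟨s, by rwa [Finset.mem_coe] at hs, ?_⟩
        rw [mem_Icc]
        constructor <;> linarith [h5.1, h5.2]
  calc volume (Icc A B ∩ {t | DR S A B t < R})
      ≤ volume (⋃ s ∈ ER S A B, Icc (s - (R + 1)) (s + (R + 1))) := measure_mono hsub
    _ ≤ ∑ s ∈ ER S A B, volume (Icc (s - (R + 1)) (s + (R + 1))) := measure_biUnion_finset_le _ _
    _ = ∑ s ∈ ER S A B, ENNReal.ofReal (2 * (R + 1)) := by
        refine Finset.sum_congr rfl fun s _ => ?_
        rw [Real.volume_Icc]
        congr 1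
        ring
    _ = ENNReal.ofReal ((ER S A B).card * (2 * (R + 1))) := by
        rw [Finset.sum_const, nsmul_eq_mul, ENNReal.ofReal_mul (p := ((ER S A B).card : ℝ)) (by positivity),
          ENNReal.ofReal_natCast]
    _ ≤ _ := by
        apply ENNReal.ofReal_le_ofReal
        have h : ((ER S A B).card : ℝ) ≤ S.card + 2 := by
          exact_mod_cast ER_card S A B
        exact mul_le_mul_of_nonneg_right h (by positivity)

/-- **The number of spacings away from the half-integers** (on RH). -/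
theorem main2 (hRH : RiemannHypothesis) (β : ℝ) :
    ∃ c Cr T0 : ℝ, 0 < c ∧ 1 ≤ Cr ∧ 1 < T0 ∧ ∀ T : ℝ, T0 ≤ T →
      c * T / Real.log T ^ 2 ≤ ((BadR β c (Real.log T) (T / Cr) T).card : ℝ) := by
  have hpi := Real.pi_pos
  set y : ℝ := Real.exp (-2 - 4 * Real.pi * β - 2 * Real.log (2 * Real.pi)) with hy
  have hy0 : 0 < y := Real.exp_pos _
  have hylog : Real.log y = -2 - 4 * Real.pi * β - 2 * Real.log (2 * Real.pi) := by
    rw [hy, Real.log_exp]
  obtain ⟨m, CC, LL, σ, hm, hCC, hLL, hσ, hσy, hsep, hbig⟩ := sets hy0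
  obtain ⟨Cr, K, M0, c0, ϑ, L0, hCr, hK, hM0, hc0, hϑ, hL0, hcore⟩ :=
    core2 hRH hy0 hm hCC LL hLL hσ hσy hsep hbig
  obtain ⟨Tg, hTg, hgap⟩ := gap_lt_one hRH
  set c : ℝ := min (c0 / (32 * Real.pi)) (min (ϑ / (8 * M0 * Cr)) (1 / 8)) with hc
  have hcpos : 0 < c := lt_min (by positivity) (lt_min (by positivity) (by norm_num))
  have hc1 : c ≤ c0 / (32 * Real.pi) := min_le_left _ _
  have hc2 : c ≤ ϑ / (8 * M0 * Cr) := (min_le_right _ _).trans (min_le_left _ _)
  have hc3 : c ≤ 1 / 8 := (min_le_right _ _).trans (min_le_right _ _)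
  have hlCr : 0 ≤ Real.log Cr := Real.log_nonneg hCr
  -- the threshold
  set L1 : ℝ := max (max (max L0 (max 3 Tg)) (224 / c0)) (max (96 * M0 / ϑ) (2 * (Real.log Cr + 1) + 12 * |β|))
    with hL1
  refine ⟨c, Cr, Cr * Real.exp L1, hcpos, hCr, ?_, ?_⟩
  · have h3 : 3 ≤ L1 := (((le_max_left _ _).trans (le_max_right _ _)).trans (le_max_left _ _)).trans
      (le_max_left _ _)
    have := Real.add_one_le_exp L1
    nlinarith
  intro T hT
  have hCr0 : 0 < Cr := by linarith
  have hT0 : 0 < T := lt_of_lt_of_le (mul_pos hCr0 (Real.exp_pos _)) hT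
  set L : ℝ := Real.log T - Real.log Cr with hL
  have hexpL : Real.exp L = T / Cr := by
    rw [hL, Real.exp_sub, Real.exp_log hT0, Real.exp_log hCr0]
  have hL1L : L1 ≤ L := by
    have h1 : Real.log (Cr * Real.exp L1) ≤ Real.log T :=
      Real.log_le_log (mul_pos hCr0 (Real.exp_pos _)) hT
    rw [Real.log_mul hCr0.ne' (Real.exp_pos _).ne', Real.log_exp] at h1
    linarith
  have a1 : L0 ≤ L := (((le_max_left _ _).trans (le_max_left _ _)).trans (le_max_left _ _)).trans hL1L
  have a2 : 3 ≤ L := ((((le_max_left _ _).trans (le_max_right _ _)).trans (le_max_left _ _)).trans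
    (le_max_left _ _)).trans hL1L
  have a6 : Tg ≤ L := ((((le_max_right _ _).trans (le_max_right _ _)).trans (le_max_left _ _)).trans
    (le_max_left _ _)).trans hL1L
  have a3 : 224 / c0 ≤ L := ((le_max_right _ _).trans (le_max_left _ _)).trans hL1L
  have a4 : 96 * M0 / ϑ ≤ L := ((le_max_left _ _).trans (le_max_right _ _)).trans hL1L
  have a5 : 2 * (Real.log Cr + 1) + 12 * |β| ≤ L := ((le_max_right _ _).trans (le_max_right _ _)).trans hL1L
  have hLpos : 0 < L := by linarith
  have hlT : L ≤ Real.log T := by rw [hL]; linarith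
  have hlT1 : 1 ≤ Real.log T := by linarith
  set A : ℝ := Real.exp L with hA
  set B : ℝ := Cr * Real.exp L with hB
  have hA0 : 0 < A := Real.exp_pos _
  have hexp3 : L ^ 3 / 6 ≤ A := by
    have := Real.pow_div_factorial_le_exp L hLpos.le 3
    norm_num [Nat.factorial] at this
    exact this
  have hA12 : 12 ≤ A := by
    have h1 : Real.exp 3 ≤ A := Real.exp_le_exp.2 a2
    have h2 : (12 : ℝ) ≤ Real.exp 3 := by
      have h3 := Real.exp_one_gt_d9
      have h4 : Real.exp 3 = Real.exp 1 ^ 3 := by rw [← Real.exp_nat_mul]; norm_num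
      rw [h4]
      have h5 : (2.7 : ℝ) ≤ Real.exp 1 := by linarith
      calc (12 : ℝ) ≤ 2.7 ^ 3 := by norm_num
        _ ≤ Real.exp 1 ^ 3 := by gcongr
    linarith
  set ε : ℝ := 2 * (28 / A + 4 * Real.pi * (2 * c)) with hε
  have hε0 : 0 ≤ ε := by positivity
  have hεle : ε ≤ c0 := by
    have h1 : 56 / A ≤ c0 / 2 := by
      rw [div_le_iff₀ hA0]
      have h3 : 224 ≤ L * c0 := by
        rwa [div_le_iff₀ hc0] at a3
      have h5 : c0 / 2 * (L ^ 3 / 6) ≤ c0 / 2 * A := mul_le_mul_of_nonneg_left hexp3 (by positivity)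
      have h6 : 56 ≤ c0 / 2 * (L ^ 3 / 6) := by
        have h7 : c0 / 2 * (L ^ 3 / 6) = (L * c0) * L ^ 2 / 12 := by ring
        rw [h7]
        have h8 : 224 * L ^ 2 / 12 ≤ (L * c0) * L ^ 2 / 12 := by gcongr
        nlinarith
      linarith
    have h2 : 16 * Real.pi * c ≤ c0 / 2 := by
      calc 16 * Real.pi * c ≤ 16 * Real.pi * (c0 / (32 * Real.pi)) := by gcongr
        _ = c0 / 2 := by field_simp; norm_num
    calc ε = 56 / A + 16 * Real.pi * c := by rw [hε]; ring
      _ ≤ c0 / 2 + c0 / 2 := add_le_add h1 h2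
      _ = c0 := by ring
  set S : Finset ℕ := BadR β c (Real.log T) A B with hS
  -- the hypothesis on `D`
  have hgaps : ∀ A' : ℝ, A ≤ A' → Gaps1 A' := by
    intro A' hA' n hn hAn
    have : L ≤ A := by linarith [Real.add_one_le_exp L]
    exact hgap n hn (by linarith)
  have hGH : GH y Cr L K (1 / L) ε (DR S A B) := by
    refine ⟨DR_lip S A B, ?_, ?_, ?_⟩
    · intro t
      have h1 := DR_le1 S A B t
      linarith
    · intro t
      have h1 := DR_le2 S A B t
      linarith
    · intro t ht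
      obtain ⟨b1, b2, b3⟩ := good_of_DR ht
      have hA'12 : 12 ≤ t - K * L := by linarith
      have hgood : Good2 β c L (t - K * L) (t + K * L) := by
        intro n hn h1 h2
        by_contra hcon
        push Not at hcon
        refine b3 n ?_ ⟨h1, h2⟩
        rw [hS, mem_BadR]
        refine ⟨⟨hn, (SG.ord_le_iff hn B).1 (by linarith)⟩, by linarith, fun k hk => ?_⟩
        refine le_trans ?_ (hcon k hk)
        have h3 : 1 / Real.log T ≤ 1 / L := one_div_le_one_div_of_le hLpos hlT
        gcongr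
      have hslope : (Real.log (t + K * L) + 1) / (2 * Real.pi) + |β| ≤ L / 4 := by
        have hpos : 0 < t + K * L := by
          have : 0 < K * L := by positivity
          linarith
        have h1 : Real.log (t + K * L) ≤ Real.log Cr + L := by
          calc Real.log (t + K * L) ≤ Real.log B := Real.log_le_log hpos b2
            _ = Real.log Cr + L := by
              rw [hB, Real.log_mul hCr0.ne' (Real.exp_pos _).ne', Real.log_exp]
        have h2 : (Real.log (t + K * L) + 1) / (2 * Real.pi) ≤ (Real.log Cr + L + 1) / 6 := by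
          have h3 : 0 ≤ Real.log Cr + L + 1 := by linarith
          calc _ ≤ (Real.log Cr + L + 1) / (2 * Real.pi) :=
                div_le_div_of_nonneg_right (by linarith) (by positivity)
            _ ≤ (Real.log Cr + L + 1) / 6 :=
                div_le_div_of_nonneg_left h3 (by norm_num) (by linarith [Real.pi_gt_three])
        linarith
      have h5 := lh_of_good2 hylog hA'12 hcpos.le hc3 (hgaps _ b1) (by linarith) hgood hslope le_rfl le_rfl
      obtain ⟨h6, h7, cc, h8, h9⟩ := h5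
      refine ⟨h6, h7, cc, h8, fun γ hγ h => (h9 γ hγ h).trans ?_⟩
      apply mul_le_mul_of_nonneg_right _ (abs_nonneg _)
      rw [hε]
      have h10 : 28 / (t - K * L) ≤ 28 / A := div_le_div_of_nonneg_left (by norm_num) hA0 b1
      linarith
  have hd1 : 1 / (8 * L) ≤ 1 / L := one_div_le_one_div_of_le hLpos (by linarith)
  have hvol := (hcore L a1 (DR S A B) (1 / L) ε hd1 le_rfl hε0 hεle hGH).trans_le
    (vol_DR (S := S) (A := A) (B := B) (R := M0 * L ^ 2))
  have hlt : ϑ * Real.exp L < (S.card + 2) * (2 * (M0 * L ^ 2 + 1)) := by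
    exact (ENNReal.ofReal_lt_ofReal_iff_of_nonneg (by positivity)).1 hvol
  have hBT : B = T := by
    have h1 : B = Cr * A := rfl
    rw [h1, hexpL]
    field_simp
  have hAT : A = T / Cr := hexpL
  have hST : S = BadR β c (Real.log T) (T / Cr) T := by
    rw [hS, hAT, hBT]
  rw [← hST]
  set q : ℝ := (S.card : ℝ) with hq
  have hL2 : 1 ≤ L ^ 2 := by nlinarith
  have h1 : M0 * L ^ 2 + 1 ≤ 2 * (M0 * L ^ 2) := by nlinarith
  have hq0 : 0 ≤ q := by positivity
  have h2 : ϑ * A < (q + 2) * (4 * (M0 * L ^ 2)) := by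
    calc ϑ * A < (q + 2) * (2 * (M0 * L ^ 2 + 1)) := hlt
      _ ≤ (q + 2) * (4 * (M0 * L ^ 2)) := by
          apply mul_le_mul_of_nonneg_left _ (by linarith)
          linarith
  have h3 : 16 * (M0 * L ^ 2) ≤ ϑ * A := by
    have h4 : 96 * M0 ≤ L * ϑ := by rwa [div_le_iff₀ hϑ] at a4
    have h5 : ϑ * (L ^ 3 / 6) ≤ ϑ * A := mul_le_mul_of_nonneg_left hexp3 hϑ.le
    have h6 : 16 * (M0 * L ^ 2) ≤ ϑ * (L ^ 3 / 6) := by
      have h7 : ϑ * (L ^ 3 / 6) = (L * ϑ) * (L ^ 2 / 6) := by ring
      rw [h7]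
      calc 16 * (M0 * L ^ 2) = 96 * M0 * (L ^ 2 / 6) := by ring
        _ ≤ _ := mul_le_mul_of_nonneg_right h4 (by positivity)
    linarith
  have h4 : ϑ * A ≤ q * (8 * (M0 * L ^ 2)) := by nlinarith
  have hA' : A = T / Cr := hAT
  have hlog2 : L ^ 2 ≤ Real.log T ^ 2 := by gcongr
  have hlog0 : 0 < Real.log T ^ 2 := by positivity
  rw [div_le_iff₀ hlog0]
  have h5 : ϑ * A ≤ q * (8 * (M0 * Real.log T ^ 2)) := by
    refine h4.trans ?_
    gcongr
  have h6 : c * T ≤ ϑ / (8 * M0 * Cr) * T := mul_le_mul_of_nonneg_right hc2 hT0.le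
  have h7 : ϑ / (8 * M0 * Cr) * T = ϑ * A / (8 * M0) := by
    rw [hA']
    field_simp
  rw [h7] at h6
  refine h6.trans ?_
  rw [div_le_iff₀ (by positivity)]
  calc ϑ * A ≤ q * (8 * (M0 * Real.log T ^ 2)) := h5
    _ = q * Real.log T ^ 2 * (8 * M0) := by ring

end Pool.Agent.N806.AH
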