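import Mathlib

/-! Gaussian integrals. -/

set_option autoImplicit false

open Complex MeasureTheory Filter Topology Set

namespace Pool.Agent.N806.AH

lemma quad_eq {H : ℝ} (hH : 0 < H) (a : ℝ) (α : ℂ) (τ : ℝ) :
    ((a : ℂ) + τ * I) ^ 2 / (H : ℂ) ^ 2 + α * (a + τ * I) =
      (-(1 / H ^ 2 : ℝ) : ℂ) * (τ : ℂ) ^ 2 + (2 * a * I / (H : ℂ) ^ 2 + α * I) * τ +
      ((a : ℂ) ^ 2 / (H : ℂ) ^ 2 + α * a) := by
  have hH' : (H : ℂ) ≠ 0 := by exact_mod_cast hH.ne'
  push_cast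
  field_simp
  ring_nf
  rw [Complex.I_sq]
  ring

lemma gint_integrable {H : ℝ} (hH : 0 < H) (a : ℝ) (α : ℂ) :
    Integrable (fun τ : ℝ => cexp (((a : ℂ) + τ * I) ^ 2 / (H : ℂ) ^ 2 + α * (a + τ * I))) := by
  have h := integrable_cexp_quadratic (b := ((1 / H ^ 2 : ℝ) : ℂ))
    (by rw [Complex.ofReal_re]; positivity) (2 * a * I / (H : ℂ) ^ 2 + α * I)
    ((a : ℂ) ^ 2 / (H : ℂ) ^ 2 + α * a)
  refine h.congr (Eventually.of_forall fun τ => ?_)
  simp only
  rw [quad_eq hH]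

/-- the Gaussian integral on a vertical line -/
lemma gint {H : ℝ} (hH : 0 < H) (a : ℝ) (α : ℂ) :
    ∫ τ : ℝ, cexp (((a : ℂ) + τ * I) ^ 2 / (H : ℂ) ^ 2 + α * (a + τ * I)) =
      ((H * Real.sqrt Real.pi : ℝ) : ℂ) * cexp (-((H : ℂ) ^ 2 * α ^ 2 / 4)) := by
  have hH' : (H : ℂ) ≠ 0 := by exact_mod_cast hH.ne'
  have h := integral_cexp_quadratic (b := (-(1 / H ^ 2 : ℝ) : ℂ))
    (by rw [Complex.neg_re, Complex.ofReal_re]; simp; positivity) (2 * a * I / (H : ℂ) ^ 2 + α * I)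
    ((a : ℂ) ^ 2 / (H : ℂ) ^ 2 + α * a)
  simp_rw [quad_eq hH]
  rw [h]
  congr 1
  · have h1 : (Real.pi : ℂ) / -(-(1 / H ^ 2 : ℝ) : ℂ) = ((Real.pi * H ^ 2 : ℝ) : ℂ) := by
      push_cast
      field_simp
    rw [h1, show (1 / 2 : ℂ) = ((1 / 2 : ℝ) : ℂ) by push_cast; rfl,
      ← Complex.ofReal_cpow (by positivity)]
    congr 1
    rw [← Real.sqrt_eq_rpow, Real.sqrt_mul Real.pi_pos.le, Real.sqrt_sq hH.le, mul_comm]
  · congr 1
    push_cast
    field_simp
    ring_nf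
    rw [Complex.I_sq]
    ring

/-- the weight in the approximate formula -/
noncomputable def Vr (x : ℝ) : ℝ :=
  1 / (2 * Real.sqrt Real.pi) * ∫ v in Ioi x, Real.exp (-(1 / 4) * v ^ 2)

lemma gau_int : Integrable (fun v : ℝ => Real.exp (-(1 / 4) * v ^ 2)) :=
  integrable_exp_neg_mul_sq (by norm_num)

lemma Vr_nonneg (x : ℝ) : 0 ≤ Vr x := by
  unfold Vr
  have : 0 ≤ ∫ v in Ioi x, Real.exp (-(1 / 4) * v ^ 2) := integral_nonneg fun v => by positivity
  positivity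

lemma Vr_le_one (x : ℝ) : Vr x ≤ 1 := by
  unfold Vr
  have h1 : ∫ v in Ioi x, Real.exp (-(1 / 4) * v ^ 2) ≤ ∫ v : ℝ, Real.exp (-(1 / 4) * v ^ 2) :=
    setIntegral_le_integral gau_int (Eventually.of_forall fun v => by positivity)
  rw [integral_gaussian] at h1
  have h2 : Real.sqrt (Real.pi / (1 / 4)) = 2 * Real.sqrt Real.pi := by
    rw [show Real.pi / (1 / 4) = 2 ^ 2 * Real.pi by ring, Real.sqrt_mul (by norm_num),
      Real.sqrt_sq (by norm_num)]
  rw [h2] at h1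
  have h3 : 0 < Real.sqrt Real.pi := Real.sqrt_pos.2 Real.pi_pos
  rw [one_div, inv_mul_le_iff₀ (by positivity)]
  linarith

lemma Vr_le_exp (x : ℝ) : Vr x ≤ 10 * Real.exp (-(2 * x)) := by
  unfold Vr
  have h1 : ∫ v in Ioi x, Real.exp (-(1 / 4) * v ^ 2) ≤
      ∫ v in Ioi x, Real.exp 4 * Real.exp (-2 * v) := by
    apply setIntegral_mono_on gau_int.integrableOn
    · exact (integrableOn_exp_mul_Ioi (by norm_num) x).const_mul _
    · exact measurableSet_Ioi
    · intro v _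
      rw [← Real.exp_add]
      apply Real.exp_le_exp.2
      nlinarith [sq_nonneg (v - 4)]
  have h2 : ∫ v in Ioi x, Real.exp 4 * Real.exp (-2 * v) = Real.exp 4 * (Real.exp (-(2 * x)) / 2) := by
    rw [integral_const_mul, integral_exp_mul_Ioi (by norm_num)]
    congr 1
    rw [neg_mul]
    ring
  rw [h2] at h1
  have h3 : (1.77 : ℝ) ≤ Real.sqrt Real.pi := by
    apply Real.le_sqrt_of_sq_le
    have := Real.pi_gt_d2
    norm_num at this ⊢
    linarith
  have h4 : Real.exp 4 ≤ 54.7 := by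
    have h5 := Real.exp_one_lt_d9
    have h6 : Real.exp 4 = Real.exp 1 ^ 4 := by rw [← Real.exp_nat_mul]; norm_num
    rw [h6]
    calc Real.exp 1 ^ 4 ≤ 2.7182818286 ^ 4 := by gcongr
      _ ≤ 54.7 := by norm_num
  have h7 : 0 < Real.exp (-(2 * x)) := Real.exp_pos _
  rw [one_div, inv_mul_le_iff₀ (by positivity)]
  refine h1.trans ?_
  have h8 : Real.exp 4 * (Real.exp (-(2 * x)) / 2) ≤ 54.7 * (Real.exp (-(2 * x)) / 2) := by gcongr
  have h9 : 2 * 1.77 * (10 * Real.exp (-(2 * x))) ≤ 2 * Real.sqrt Real.pi * (10 * Real.exp (-(2 * x))) := by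
    gcongr
  linarith

/-- the kernel of the approximate formula -/
lemma Vr_formula {a : ℝ} (ha : 0 < a) (x : ℝ) :
    ∫ τ : ℝ, cexp (((a : ℂ) + τ * I) ^ 2 - (x : ℂ) * (a + τ * I)) / ((a : ℂ) + τ * I) =
      (2 * Real.pi * Vr x : ℝ) := by
  have hz : ∀ τ : ℝ, ((a : ℂ) + τ * I) ≠ 0 := by
    intro τ h
    have := congrArg Complex.re h
    simp at this
    exact ha.ne' this
  let F : ℝ → ℝ → ℂ := fun τ u => cexp (((a : ℂ) + τ * I) ^ 2 - (x : ℂ) * (a + τ * I)) *
    cexp (-((a : ℂ) + τ * I) * u)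
  have h1 : ∀ τ : ℝ, cexp (((a : ℂ) + τ * I) ^ 2 - (x : ℂ) * (a + τ * I)) / ((a : ℂ) + τ * I) =
      ∫ u in Ioi (0 : ℝ), F τ u := by
    intro τ
    simp only [F]
    rw [integral_const_mul, integral_exp_mul_complex_Ioi (by simp [ha])]
    simp only [ofReal_zero, mul_zero, Complex.exp_zero]
    rw [neg_div_neg_eq, mul_one_div]
  simp_rw [h1]
  have hint : Integrable (Function.uncurry F) (volume.prod (volume.restrict (Ioi (0 : ℝ)))) := by
    have g1 : Integrable (fun τ : ℝ => cexp (((a : ℂ) + τ * I) ^ 2 - (x : ℂ) * (a + τ * I))) := by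
      have := gint_integrable (H := 1) one_pos a (-(x : ℂ))
      refine this.congr (Eventually.of_forall fun τ => ?_)
      simp only [ofReal_one, one_pow, div_one]
      congr 1
      ring
    have g2 : Integrable (fun u : ℝ => (Real.exp (-a * u) : ℝ)) (volume.restrict (Ioi (0 : ℝ))) :=
      integrableOn_exp_mul_Ioi (by linarith) 0
    have g3 := g1.norm.mul_prod g2
    refine g3.mono' ?_ (Eventually.of_forall fun p => ?_)
    · apply Continuous.aestronglyMeasurable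
      simp only [F, Function.uncurry_def]
      fun_prop
    · simp only [F, Function.uncurry_def]
      rw [norm_mul, Complex.norm_exp (-((a : ℂ) + p.1 * I) * p.2)]
      simp
  rw [integral_integral_swap hint]
  have h2 : ∀ u : ℝ, ∫ τ : ℝ, F τ u = ((Real.sqrt Real.pi * Real.exp (-(1 / 4) * (x + u) ^ 2) : ℝ) : ℂ) := by
    intro u
    have := gint (H := 1) one_pos a (-((x + u : ℝ) : ℂ))
    have h3 : ∀ τ : ℝ, F τ u = cexp (((a : ℂ) + τ * I) ^ 2 / ((1 : ℝ) : ℂ) ^ 2 +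
        -((x + u : ℝ) : ℂ) * (a + τ * I)) := by
      intro τ
      simp only [F]
      rw [← Complex.exp_add]
      congr 1
      push_cast
      ring
    simp_rw [h3]
    rw [this]
    push_cast
    congr 1
    · simp
    · congr 1
      ring
  simp_rw [h2]
  rw [integral_complex_ofReal]
  congr 1
  rw [integral_const_mul]
  have h4 : ∫ u in Ioi (0 : ℝ), Real.exp (-(1 / 4) * (x + u) ^ 2) =
      ∫ v in Ioi x, Real.exp (-(1 / 4) * v ^ 2) := by
    have := (measurePreserving_add_left volume x).setIntegral_preimage_emb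
      (measurableEmbedding_addLeft x) (fun v => Real.exp (-(1 / 4) * v ^ 2)) (Ioi x)
    simpa using this
  rw [h4]
  unfold Vr
  have h5 : Real.sqrt Real.pi * Real.sqrt Real.pi = Real.pi := Real.mul_self_sqrt Real.pi_pos.le
  have h6 : Real.sqrt Real.pi ≠ 0 := (Real.sqrt_pos.2 Real.pi_pos).ne'
  field_simp
  rw [sq, h5]
  ring

end Pool.Agent.N806.AH
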