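import Pool.Agent.N806.AH.Win
import Pool.Agent.N806.AH.Gau

/-! Bounds on the sides of the window contours. -/

set_option autoImplicit false

open Complex Filter Topology Set MeasureTheory Metric

namespace Pool.Agent.N806.AH

open H345 H345.Chi

/-- zeros near `t0` are simple, separated and almost on a lattice -/
structure LH (y t0 r d ε : ℝ) : Prop where
  sim : ∀ γ ∈ Zo, |γ - t0| ≤ r → deriv riemannZeta (1 / 2 + (γ : ℂ) * I) ≠ 0
  sp : ∀ γ ∈ Zo, ∀ γ' ∈ Zo, |γ - t0| ≤ r → |γ' - t0| ≤ r → γ ≠ γ' → d ≤ |γ - γ'|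
  lat : ∃ c : ℂ, ‖c‖ = 1 ∧ ∀ γ ∈ Zo, |γ - t0| ≤ r → ‖1 + c * uu y γ‖ ≤ ε * |γ - t0|

/-- a height away from the zeros -/
lemma good_pt {a d : ℝ} (hd : 0 < d) (hd1 : d ≤ 1)
    (hsp : ∀ γ ∈ Zo, ∀ γ' ∈ Zo, a - 1 ≤ γ → γ ≤ a + 2 → a - 1 ≤ γ' → γ' ≤ a + 2 → γ ≠ γ' →
      d ≤ |γ - γ'|) : ∃ v ∈ Icc a (a + 1), ∀ γ ∈ Zo, d / 4 ≤ |γ - v| := by
  by_cases h : ∀ γ ∈ Zo, d / 4 ≤ |γ - a|
  · exact ⟨a, ⟨le_rfl, by linarith⟩, h⟩
  push Not at h
  obtain ⟨γ, hγ, h1⟩ := h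
  rw [abs_lt] at h1
  refine ⟨a + d / 2, ⟨by linarith, by linarith⟩, fun γ' hγ' => ?_⟩
  by_cases he : γ' = γ
  · rw [he]
    rw [abs_sub_comm, abs_of_nonneg (by linarith)]
    linarith
  by_cases hw : a - 1 ≤ γ' ∧ γ' ≤ a + 2
  · have h2 := hsp γ' hγ' γ hγ hw.1 hw.2 (by linarith) (by linarith) he
    by_contra hcon
    push Not at hcon
    rw [abs_lt] at hcon
    rcases abs_cases (γ' - γ) with ⟨h3, _⟩ | ⟨h3, _⟩ <;> linarith
  · rw [not_and_or, not_le, not_le] at hw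
    rcases hw with hw | hw
    · rw [abs_sub_comm, abs_of_nonneg (by linarith)]
      linarith
    · rw [abs_of_nonneg (by linarith)]
      linarith

/-- bound for `1/ζ` on horizontal segments -/
theorem hor_zeta (hRH : RiemannHypothesis) : ∃ C : ℝ, 1 ≤ C ∧ ∀ t : ℝ, 3 ≤ t → ∀ σ δ : ℝ,
    -1 ≤ σ → σ ≤ 2 → 0 < δ → δ ≤ 1 → (∀ γ ∈ Zo, δ ≤ |γ - t|) →
    ‖(riemannZeta ⟨σ, t⟩)⁻¹‖ ≤ Real.exp (C * Real.log t * (1 + Real.log (1 / δ))) := by
  obtain ⟨C, hC, hcr⟩ := crude hRH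
  obtain ⟨K, hK, hX⟩ := XX_size
  refine ⟨C + K, by linarith, fun t ht σ δ h1 h2 hδ hδ1 hdist => ?_⟩
  have hlt : 1 ≤ Real.log t := H370.Loc.one_le_log ht
  have hlδ : 0 ≤ Real.log (1 / δ) := Real.log_nonneg (by rw [le_div_iff₀ hδ]; linarith)
  have hd' : ∀ x : ℝ, ∀ γ ∈ Zo, |γ - t| ≤ 1 → δ ≤ ‖(⟨x, t⟩ : ℂ) - (1 / 2 + (γ : ℂ) * I)‖ := by
    intro x γ hγ _
    refine (hdist γ hγ).trans ?_
    have := Complex.abs_im_le_norm ((⟨x, t⟩ : ℂ) - (1 / 2 + (γ : ℂ) * I))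
    rw [abs_sub_comm]
    simpa using this
  have hbase : ∀ x : ℝ, 1 / 2 ≤ x → x ≤ 2 → ‖(riemannZeta ⟨x, t⟩)⁻¹‖ ≤
      Real.exp (C * Real.log t * (1 + Real.log (1 / δ))) := fun x hx1 hx2 =>
    (hcr t ht x δ hx1 hx2 hδ hδ1 (hd' x)).2
  by_cases hσ : 1 / 2 ≤ σ
  · refine (hbase σ hσ h2).trans (Real.exp_le_exp.2 ?_)
    have : 0 ≤ K * Real.log t * (1 + Real.log (1 / δ)) := by positivity
    nlinarith
  · push Not at hσ
    have h3 := zeta_fe' (s := (⟨σ, t⟩ : ℂ)) (by simp; linarith)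
    rw [conj_refl, XX_conj, riemannZeta_conj] at h3
    have h4 := (hX ⟨1 - σ, t⟩ (by simp; linarith) (by simp; linarith) (by simp; linarith)).1
    simp only at h4
    have h5 : 1 ≤ t ^ (1 - σ - 1 / 2) := Real.one_le_rpow (by linarith) (by linarith)
    have h6 : Real.exp (-K) ≤ ‖XX ⟨1 - σ, t⟩‖ := by
      refine le_trans ?_ h4
      exact le_mul_of_one_le_right (Real.exp_pos _).le h5
    rw [h3, norm_inv, norm_mul, Complex.norm_conj, Complex.norm_conj, mul_inv]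
    have h7 := hbase (1 - σ) (by linarith) (by linarith)
    rw [norm_inv] at h7
    have h8 : ‖XX ⟨1 - σ, t⟩‖⁻¹ ≤ Real.exp K := by
      have := inv_anti₀ (Real.exp_pos _) h6
      rwa [← Real.exp_neg, neg_neg] at this
    calc _ ≤ Real.exp K * Real.exp (C * Real.log t * (1 + Real.log (1 / δ))) := by gcongr
      _ ≤ _ := by
        rw [← Real.exp_add]
        apply Real.exp_le_exp.2
        have : K ≤ K * Real.log t * (1 + Real.log (1 / δ)) := by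
          have h9 : 1 ≤ Real.log t * (1 + Real.log (1 / δ)) := by nlinarith
          nlinarith
        nlinarith

/-- polynomial bound for `W` -/
theorem W_bound (y : ℝ) : ∃ C : ℝ, 1 ≤ C ∧ ∀ c : ℂ, ‖c‖ = 1 → ∀ σ t : ℝ, -1 ≤ σ → σ ≤ 2 → 1 ≤ t →
    ‖Wf y c ⟨σ, t⟩ - 1‖ ≤ C * t ^ (1 - 2 * σ) ∧ ‖Wf y c ⟨σ, t⟩‖ ≤ 2 * C * t ^ 3 := by
  obtain ⟨K, hK, hX⟩ := norm_XX_refl
  have hC1 : 1 ≤ Real.exp (3 / 2 * |Real.log y| + 2 * K) :=
    Real.one_le_exp (by positivity)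
  refine ⟨Real.exp (3 / 2 * |Real.log y| + 2 * K), hC1, fun c hc σ t h1 h2 ht => ?_⟩
  have ht0 : 0 < t := by linarith
  have h3 : ‖Wf y c ⟨σ, t⟩ - 1‖ ≤ Real.exp (3 / 2 * |Real.log y| + 2 * K) * t ^ (1 - 2 * σ) := by
    unfold Wf
    rw [add_sub_cancel_left, norm_mul, norm_mul, norm_pow, hc, one_mul, norm_ye]
    have e1 : Real.exp (Real.log y * ((⟨σ, t⟩ : ℂ) - 1 / 2).re) ≤ Real.exp (3 / 2 * |Real.log y|) := by
      apply Real.exp_le_exp.2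
      have h4 : ((⟨σ, t⟩ : ℂ) - 1 / 2).re = σ - 1 / 2 := by simp
      rw [h4]
      calc Real.log y * (σ - 1 / 2) ≤ |Real.log y * (σ - 1 / 2)| := le_abs_self _
        _ = |Real.log y| * |σ - 1 / 2| := abs_mul _ _
        _ ≤ |Real.log y| * (3 / 2) := by
            gcongr
            rw [abs_le]
            constructor <;> linarith
        _ = _ := by ring
    have e2 := hX σ t h1 h2 ht
    calc _ ≤ Real.exp (3 / 2 * |Real.log y|) * (Real.exp K * t ^ (1 / 2 - σ)) ^ 2 := by gcongr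
      _ = Real.exp (3 / 2 * |Real.log y| + 2 * K) * t ^ (1 - 2 * σ) := by
          rw [mul_pow, Real.exp_add, ← Real.exp_nat_mul, ← Real.rpow_natCast, ← Real.rpow_mul ht0.le]
          push_cast
          rw [show (1 / 2 - σ) * 2 = 1 - 2 * σ by ring]
          ring
  refine ⟨h3, ?_⟩
  have h5 : t ^ (1 - 2 * σ) ≤ t ^ 3 := by
    rw [← Real.rpow_natCast]
    apply Real.rpow_le_rpow_of_exponent_le ht
    push_cast
    linarith
  have h6 : 1 ≤ t ^ 3 := one_le_pow₀ ht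
  have h7 : ‖Wf y c ⟨σ, t⟩‖ ≤ ‖Wf y c ⟨σ, t⟩ - 1‖ + 1 := by
    have := norm_add_le (Wf y c ⟨σ, t⟩ - 1) 1
    rwa [sub_add_cancel, norm_one] at this
  have h8 : Real.exp (3 / 2 * |Real.log y| + 2 * K) * t ^ (1 - 2 * σ) ≤
      Real.exp (3 / 2 * |Real.log y| + 2 * K) * t ^ 3 := by gcongr
  have h9 : 1 ≤ Real.exp (3 / 2 * |Real.log y| + 2 * K) * t ^ 3 := by nlinarith
  linarith

lemma norm_inv_zeta_two (t : ℝ) : ‖(riemannZeta ⟨2, t⟩)⁻¹‖ ≤ 3 := by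
  have h := zeta_two_lower t
  have h2 : (2 + (t : ℂ) * I) = ⟨2, t⟩ := by apply Complex.ext <;> simp
  rw [h2] at h
  rw [norm_inv]
  have := inv_anti₀ (by norm_num) h
  simpa using this

/-- on the left side -/
theorem left_bound (y : ℝ) : ∃ C : ℝ, 1 ≤ C ∧ ∀ c : ℂ, ‖c‖ = 1 → ∀ t : ℝ, 1 ≤ t →
    ‖Wf y c ⟨-1, t⟩ * (riemannZeta ⟨-1, t⟩)⁻¹‖ ≤ C * t ^ (3 / 2 : ℝ) := by
  obtain ⟨K, hK, hX⟩ := norm_XX_refl
  obtain ⟨C2, hC2, hinv⟩ := inv_zeta_left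
  refine ⟨C2 + Real.exp (3 / 2 * |Real.log y|) * (3 * Real.exp K) + 1, by
    have := Real.exp_pos (3 / 2 * |Real.log y|)
    have := Real.exp_pos K
    have : 0 ≤ Real.exp (3 / 2 * |Real.log y|) * (3 * Real.exp K) := by positivity
    linarith, fun c hc t ht => ?_⟩
  have ht0 : 0 < t := by linarith
  have him : (⟨-1, t⟩ : ℂ).im ≠ 0 := by simp; linarith
  have hXne : XX (1 - (⟨-1, t⟩ : ℂ)) ≠ 0 := by
    have := XX_mul' him
    intro h
    rw [h, mul_zero] at this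
    exact zero_ne_one this
  have e1 : Wf y c ⟨-1, t⟩ * (riemannZeta ⟨-1, t⟩)⁻¹ = (riemannZeta ⟨-1, t⟩)⁻¹ +
      c * ye y ((⟨-1, t⟩ : ℂ) - 1 / 2) * (XX (1 - (⟨-1, t⟩ : ℂ)) *
        (riemannZeta (1 - (⟨-1, t⟩ : ℂ)))⁻¹) := by
    have h3 := zeta_fe' him
    unfold Wf
    rw [add_mul, one_mul]
    congr 1
    conv_lhs => rw [h3, mul_inv]
    field_simp
  rw [e1]
  have h1 : ‖(riemannZeta ⟨-1, t⟩)⁻¹‖ ≤ C2 := by
    have h2 := hinv t ht
    have h3 : (-1 + (t : ℂ) * I) = ⟨-1, t⟩ := by apply Complex.ext <;> simp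
    rw [h3] at h2
    refine h2.trans ?_
    have : t ^ (-(3 / 2 : ℝ)) ≤ 1 := Real.rpow_le_one_of_one_le_of_nonpos ht (by norm_num)
    nlinarith
  have h2 : ‖(riemannZeta (1 - (⟨-1, t⟩ : ℂ)))⁻¹‖ ≤ 3 := by
    rw [conj_refl, norm_inv, norm_zeta_conj, ← norm_inv]
    have := norm_inv_zeta_two t
    norm_num
    norm_num at this
    exact this
  have h3 := hX (-1) t le_rfl (by norm_num) ht
  have h4 : ‖ye y ((⟨-1, t⟩ : ℂ) - 1 / 2)‖ ≤ Real.exp (3 / 2 * |Real.log y|) := by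
    rw [norm_ye]
    apply Real.exp_le_exp.2
    have h5 : ((⟨-1, t⟩ : ℂ) - 1 / 2).re = -(3 / 2) := by simp; norm_num
    rw [h5]
    have := neg_abs_le (Real.log y)
    nlinarith
  have h5 : (1 : ℝ) ≤ t ^ (3 / 2 : ℝ) := Real.one_le_rpow ht (by norm_num)
  rw [show (1 / 2 - -1 : ℝ) = 3 / 2 by norm_num] at h3
  calc _ ≤ ‖(riemannZeta ⟨-1, t⟩)⁻¹‖ + ‖c * ye y ((⟨-1, t⟩ : ℂ) - 1 / 2) *
        (XX (1 - (⟨-1, t⟩ : ℂ)) * (riemannZeta (1 - (⟨-1, t⟩ : ℂ)))⁻¹)‖ := norm_add_le _ _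
    _ ≤ C2 + Real.exp (3 / 2 * |Real.log y|) * ((Real.exp K * t ^ (3 / 2 : ℝ)) * 3) := by
        rw [norm_mul, norm_mul, norm_mul, hc, one_mul]
        gcongr
    _ ≤ _ := by
        have : C2 ≤ C2 * t ^ (3 / 2 : ℝ) := le_mul_of_one_le_right hC2.le h5
        nlinarith

lemma gint_b (t b : ℝ) (hb : 0 < b) : Integrable (fun v : ℝ => Real.exp (-b * (v - t) ^ 2)) :=
  (integrable_exp_neg_mul_sq hb).comp_sub_right t

lemma gval_b (t b : ℝ) : ∫ v : ℝ, Real.exp (-b * (v - t) ^ 2) = Real.sqrt (Real.pi / b) := by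
  rw [integral_sub_right_eq_self (fun v : ℝ => Real.exp (-b * v ^ 2)) t]
  exact integral_gaussian b

/-- truncation of a Gaussian integral -/
lemma gtail {f : ℝ → ℂ} (hf : AEStronglyMeasurable f volume) {K t W b U1 U2 : ℝ} (hb0 : 0 < b)
    (hK : 0 ≤ K) (hb : ∀ v, ‖f v‖ ≤ K * Real.exp (-b * (v - t) ^ 2)) (hW : 0 ≤ W)
    (h1 : U1 ≤ t - W) (h2 : t + W ≤ U2) :
    ‖(∫ v : ℝ, f v) - ∫ v in U1..U2, f v‖ ≤
      K * (Real.exp (-(b / 2) * W ^ 2) * Real.sqrt (Real.pi / (b / 2))) := by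
  have hU : U1 ≤ U2 := by linarith
  have hg2 : Integrable (fun v : ℝ => K * Real.exp (-b * (v - t) ^ 2)) :=
    (gint_b t b hb0).const_mul K
  have hfi : Integrable f := hg2.mono' hf (Eventually.of_forall hb)
  rw [intervalIntegral.integral_of_le hU]
  have e1 : (∫ v : ℝ, f v) - ∫ v in Ioc U1 U2, f v = ∫ v in (Ioc U1 U2)ᶜ, f v := by
    rw [← integral_add_compl measurableSet_Ioc hfi]
    ring
  rw [e1]
  have hg4 : Integrable (fun v : ℝ => K * Real.exp (-(b / 2) * W ^ 2) *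
      Real.exp (-(b / 2) * (v - t) ^ 2)) :=
    (gint_b t (b / 2) (by linarith)).const_mul _
  calc ‖∫ v in (Ioc U1 U2)ᶜ, f v‖ ≤ ∫ v in (Ioc U1 U2)ᶜ, ‖f v‖ := norm_integral_le_integral_norm _
    _ ≤ ∫ v in (Ioc U1 U2)ᶜ, K * Real.exp (-(b / 2) * W ^ 2) * Real.exp (-(b / 2) * (v - t) ^ 2) := by
        apply setIntegral_mono_on hfi.norm.integrableOn hg4.integrableOn measurableSet_Ioc.compl
        intro v hv
        refine (hb v).trans ?_
        rw [mul_assoc, ← Real.exp_add]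
        apply mul_le_mul_of_nonneg_left _ hK
        apply Real.exp_le_exp.2
        have hvw : W ^ 2 ≤ (v - t) ^ 2 := by
          rw [mem_compl_iff, mem_Ioc, not_and_or, not_lt, not_le] at hv
          rcases hv with hv | hv
          · nlinarith
          · nlinarith
        nlinarith
    _ ≤ ∫ v : ℝ, K * Real.exp (-(b / 2) * W ^ 2) * Real.exp (-(b / 2) * (v - t) ^ 2) := by
        apply setIntegral_le_integral hg4
        exact Eventually.of_forall fun v => by positivity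
    _ = K * Real.exp (-(b / 2) * W ^ 2) * Real.sqrt (Real.pi / (b / 2)) := by
        rw [integral_const_mul, gval_b]
    _ = _ := by ring

lemma gbound {f : ℝ → ℂ} {K t b U1 U2 : ℝ} (hb0 : 0 < b) (hU : U1 ≤ U2)
    (hK : 0 ≤ K) (hb : ∀ v ∈ Ioc U1 U2, ‖f v‖ ≤ K * Real.exp (-b * (v - t) ^ 2)) :
    ‖∫ v in U1..U2, f v‖ ≤ K * Real.sqrt (Real.pi / b) := by
  have hg2 : Integrable (fun v : ℝ => K * Real.exp (-b * (v - t) ^ 2)) :=
    (gint_b t b hb0).const_mul K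
  calc ‖∫ v in U1..U2, f v‖ ≤ ∫ v in U1..U2, K * Real.exp (-b * (v - t) ^ 2) := by
        apply intervalIntegral.norm_integral_le_of_norm_le hU
        · exact Eventually.of_forall fun v hv => hb v hv
        · exact hg2.intervalIntegrable
    _ = ∫ v in Ioc U1 U2, K * Real.exp (-b * (v - t) ^ 2) := by
        rw [intervalIntegral.integral_of_le hU]
    _ ≤ ∫ v : ℝ, K * Real.exp (-b * (v - t) ^ 2) := by
        apply setIntegral_le_integral hg2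
        exact Eventually.of_forall fun v => by positivity
    _ = K * Real.sqrt (Real.pi / b) := by
        rw [integral_const_mul, gval_b]

end Pool.Agent.N806.AH
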