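import Pool.Agent.N806.AH.AFE

/-! The Mellin kernels. -/

set_option autoImplicit false

open Complex Filter Topology Set MeasureTheory Metric

namespace Pool.Agent.N806.AH

open H345 H345.Chi

/-- half of the logarithm of `1 + b^2` -/
noncomputable def pb (b : ℝ) : ℝ := Real.log (1 + b ^ 2) / 2

lemma exp_pb (b : ℝ) : Real.exp (pb b) = Real.sqrt (1 + b ^ 2) := by
  unfold pb
  rw [Real.sqrt_eq_rpow, Real.rpow_def_of_pos (by positivity)]
  congr 1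
  ring

lemma pb_nonneg (b : ℝ) : 0 ≤ pb b := by
  unfold pb
  have : 0 ≤ Real.log (1 + b ^ 2) := Real.log_nonneg (by nlinarith [sq_nonneg b])
  linarith

lemma pb_le (b : ℝ) : pb b ≤ b ^ 2 / 2 := by
  unfold pb
  have := Real.log_le_sub_one_of_pos (show 0 < 1 + b ^ 2 by positivity)
  linarith

lemma arctan_nonneg' {b : ℝ} (hb : 0 ≤ b) : 0 ≤ Real.arctan b := by
  rw [← Real.arctan_zero]
  exact Real.arctan_strictMono.monotone hb

lemma arctan_le' {b : ℝ} (hb : 0 ≤ b) : Real.arctan b ≤ b := by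
  have h1 : 0 ≤ Real.arctan b := arctan_nonneg' hb
  have h2 := Real.le_tan h1 (Real.arctan_lt_pi_div_two b)
  rwa [Real.tan_arctan] at h2

lemma one_sub_b (b : ℝ) : cexp (((pb b : ℝ) : ℂ) - ((Real.arctan b : ℝ) : ℂ) * I) = 1 - (b : ℂ) * I := by
  have h0 : Real.sqrt (1 + b ^ 2) ≠ 0 := (Real.sqrt_pos.2 (by positivity)).ne'
  rw [sub_eq_add_neg, Complex.exp_add, ← neg_mul, ← Complex.ofReal_neg, Complex.exp_mul_I,
    ← Complex.ofReal_cos, ← Complex.ofReal_sin, Real.cos_neg, Real.sin_neg, Real.cos_arctan,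
    Real.sin_arctan, ← Complex.ofReal_exp, exp_pb]
  push_cast
  have h1 : ((Real.sqrt (1 + b ^ 2) : ℝ) : ℂ) ≠ 0 := by exact_mod_cast h0
  field_simp
  ring

/-- the exponent -/
noncomputable def Lam (y b : ℝ) (ℓ : ℕ) : ℂ :=
  ((Real.log (y * ℓ) + pb b : ℝ) : ℂ) - ((Real.arctan b : ℝ) : ℂ) * I

/-- kernel for the contour -/
noncomputable def mt (y b : ℝ) (ℓ : ℕ) (s : ℂ) : ℂ := XX s * cexp (-(Lam y b ℓ * s))

/-- kernel for the Mellin transform -/
noncomputable def mm (y b : ℝ) (ℓ : ℕ) (s : ℂ) : ℂ :=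
  (1 / (((2 * Real.pi * y * ℓ : ℝ) : ℂ) * (b + I))) ^ s * Gamma s

lemma mm_eq {y : ℝ} (hy : 0 < y) {b : ℝ} (hb : 0 ≤ b) {ℓ : ℕ} (hℓ : 1 ≤ ℓ) (s : ℂ) :
    mm y b ℓ s = cexp (-((((Real.log (2 * Real.pi * y * ℓ) + pb b : ℝ) : ℂ) +
      ((Real.pi / 2 - Real.arctan b : ℝ) : ℂ) * I) * s)) * Gamma s := by
  have hℓ0 : (0 : ℝ) < ℓ := by exact_mod_cast hℓ
  have hX : 0 < 2 * Real.pi * y * ℓ := by positivity
  set w : ℂ := (((Real.log (2 * Real.pi * y * ℓ) + pb b : ℝ) : ℂ) +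
      ((Real.pi / 2 - Real.arctan b : ℝ) : ℂ) * I) with hw
  have h1 : ((2 * Real.pi * y * ℓ : ℝ) : ℂ) * (b + I) = cexp w := by
    have e1 : w = ((Real.log (2 * Real.pi * y * ℓ) : ℝ) : ℂ) + (Real.pi / 2 * I +
        (((pb b : ℝ) : ℂ) - ((Real.arctan b : ℝ) : ℂ) * I)) := by
      rw [hw]; push_cast; ring
    rw [e1, Complex.exp_add, Complex.exp_add, one_sub_b, Complex.exp_pi_div_two_mul_I,
      ← Complex.ofReal_exp, Real.exp_log hX]
    congr 1
    rw [mul_sub, mul_one, ← mul_assoc, mul_comm I (b : ℂ), mul_assoc, I_mul_I]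
    ring
  unfold mm
  rw [h1, one_div, ← Complex.exp_neg]
  congr 1
  have hlog : Complex.log (cexp (-w)) = -w := by
    apply Complex.log_exp
    · have : (-w).im = -(Real.pi / 2 - Real.arctan b) := by rw [hw]; simp [-Complex.ofReal_arctan]
      rw [this]
      have := arctan_nonneg' hb
      linarith [Real.pi_pos]
    · have : (-w).im = -(Real.pi / 2 - Real.arctan b) := by rw [hw]; simp [-Complex.ofReal_arctan]
      rw [this]
      have := Real.arctan_lt_pi_div_two b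
      linarith [Real.pi_pos]
  rw [Complex.cpow_def_of_ne_zero (Complex.exp_ne_zero _), hlog]
  congr 1
  ring

lemma mt_mm {y : ℝ} (hy : 0 < y) {b : ℝ} (hb : 0 ≤ b) {ℓ : ℕ} (hℓ : 1 ≤ ℓ) (s : ℂ) :
    mt y b ℓ s = mm y b ℓ s * (1 + cexp (Real.pi * I * s)) := by
  have hℓ0 : (0 : ℝ) < ℓ := by exact_mod_cast hℓ
  have h2pi : (0 : ℝ) < 2 * Real.pi := by positivity
  rw [mm_eq hy hb hℓ]
  unfold mt XX Lam
  have h1 : (2 * (Real.pi : ℂ)) ^ (-s) = cexp (-(((Real.log (2 * Real.pi) : ℝ) : ℂ) * s)) := by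
    rw [Complex.cpow_def_of_ne_zero two_pi_ne]
    congr 1
    rw [show (2 * (Real.pi : ℂ)) = ((2 * Real.pi : ℝ) : ℂ) by push_cast; rfl, ← Complex.ofReal_log h2pi.le]
    ring
  have h2 : Complex.cos (Real.pi * s / 2) = (cexp (Real.pi * I * s / 2) + cexp (-(Real.pi * I * s / 2))) / 2 := by
    rw [Complex.cos]
    congr 3 <;> ring
  have h3 : Real.log (2 * Real.pi * y * ℓ) = Real.log (2 * Real.pi) + Real.log (y * ℓ) := by
    rw [← Real.log_mul h2pi.ne' (by positivity)]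
    congr 1
    ring
  rw [h1, h2, h3]
  have e1 : cexp (Real.pi * I * s) = cexp (Real.pi * I * s / 2) * cexp (Real.pi * I * s / 2) := by
    rw [← Complex.exp_add]; congr 1; ring
  have e2 : cexp (-((((Real.log (2 * Real.pi) + Real.log (y * ℓ) + pb b : ℝ) : ℂ) +
      ((Real.pi / 2 - Real.arctan b : ℝ) : ℂ) * I) * s)) =
      cexp (-(((Real.log (2 * Real.pi) : ℝ) : ℂ) * s)) *
      cexp (-((((Real.log (y * ℓ) + pb b : ℝ) : ℂ) - ((Real.arctan b : ℝ) : ℂ) * I) * s)) *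
      cexp (-(Real.pi * I * s / 2)) := by
    rw [← Complex.exp_add, ← Complex.exp_add]; congr 1; push_cast; ring
  have e3 : cexp (-(Real.pi * I * s / 2)) * cexp (Real.pi * I * s / 2) = 1 := by
    rw [← Complex.exp_add]; simp
  rw [e1, e2]
  linear_combination (-(cexp (-(((Real.log (2 * Real.pi) : ℝ) : ℂ) * s)) *
      cexp (-((((Real.log (y * ℓ) + pb b : ℝ) : ℂ) - ((Real.arctan b : ℝ) : ℂ) * I) * s)) * Gamma s *
      cexp (Real.pi * I * s / 2))) * e3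

lemma norm_mt (y b : ℝ) (ℓ : ℕ) (σ t : ℝ) : ‖mt y b ℓ ⟨σ, t⟩‖ =
    ‖XX ⟨σ, t⟩‖ * Real.exp (-((Real.log (y * ℓ) + pb b) * σ) - Real.arctan b * t) := by
  unfold mt Lam
  rw [norm_mul, Complex.norm_exp]
  congr 2
  simp [-Complex.ofReal_arctan]
  ring

lemma norm_XX_le : ∃ K : ℝ, 0 < K ∧ ∀ σ t : ℝ, -1 ≤ σ → σ ≤ 2 → 1 ≤ t →
    ‖XX ⟨σ, t⟩‖ ≤ Real.exp K * t ^ (σ - 1 / 2) := by
  obtain ⟨K, hK, h⟩ := norm_XX_refl
  refine ⟨K, hK, fun σ t h1 h2 ht => ?_⟩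
  have h3 := h (1 - σ) t (by linarith) (by linarith) ht
  rw [conj_refl, XX_conj, Complex.norm_conj] at h3
  rw [show (1 : ℝ) - (1 - σ) = σ by ring, show (1 / 2 - (1 - σ) : ℝ) = σ - 1 / 2 by ring] at h3
  exact h3

lemma norm_Gamma_two (v : ℝ) : ‖Complex.Gamma ⟨2, v⟩‖ ≤ 1 := by
  have hz : 0 < (⟨2, v⟩ : ℂ).re := by norm_num
  have h : ‖Complex.Gamma ⟨2, v⟩‖ ≤ Real.Gamma 2 := by
    rw [Complex.Gamma_eq_integral hz, Real.Gamma_eq_integral (by norm_num)]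
    unfold Complex.GammaIntegral
    refine (norm_integral_le_integral_norm _).trans (le_of_eq ?_)
    refine setIntegral_congr_fun measurableSet_Ioi (fun t ht => ?_)
    have ht' : (0 : ℝ) < t := ht
    simp only [norm_mul]
    rw [Complex.norm_cpow_eq_rpow_re_of_pos ht', Complex.norm_real, Real.norm_eq_abs,
      abs_of_pos (Real.exp_pos _)]
    simp
  rwa [Real.Gamma_two] at h

lemma norm_epi (σ v : ℝ) : ‖cexp (Real.pi * I * (⟨σ, v⟩ : ℂ))‖ = Real.exp (-(Real.pi * v)) := by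
  rw [Complex.norm_exp]
  congr 1
  simp

lemma epi_half {v : ℝ} (hv : 1 ≤ v) : Real.exp (-(Real.pi * v)) ≤ 1 / 2 := by
  have h1 : Real.exp (-(Real.pi * v)) ≤ 1 / (1 + Real.pi * v) := exp_neg_le_inv (by
    have := Real.pi_pos
    positivity)
  refine h1.trans ?_
  have := Real.pi_gt_three
  apply one_div_le_one_div_of_le (by norm_num)
  nlinarith

/-- bounds for the kernels on `Re s = 2` -/
lemma mm_bound {y : ℝ} (hy : 0 < y) {ℓ : ℕ} (hℓ : 1 ≤ ℓ) : ∃ C : ℝ, 1 ≤ C ∧ ∀ b : ℝ, 0 ≤ b → ∀ v : ℝ,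
    ‖mm y b ℓ ⟨2, v⟩‖ ≤ C * (1 + |v|) ^ 2 ∧
    (1 ≤ v → ‖mt y b ℓ ⟨2, v⟩‖ ≤ C * (1 + |v|) ^ 2 ∧
      ‖mt y b ℓ ⟨2, v⟩ - mm y b ℓ ⟨2, v⟩‖ ≤ C * (1 + |v|) ^ 2 * Real.exp (-(Real.pi * v))) := by
  obtain ⟨K, hK, hX⟩ := norm_XX_le
  have hℓ0 : (0 : ℝ) < ℓ := by exact_mod_cast hℓ
  set A : ℝ := Real.exp K * Real.exp (-(Real.log (y * ℓ) * 2)) with hA
  set B : ℝ := Real.exp (-(Real.log (2 * Real.pi * y * ℓ) * 2) + Real.pi / 2) with hB
  have hA0 : 0 < A := by positivity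
  have hB0 : 0 < B := Real.exp_pos _
  have hmt : ∀ b : ℝ, 0 ≤ b → ∀ v : ℝ, 1 ≤ v → ‖mt y b ℓ ⟨2, v⟩‖ ≤ A * (1 + |v|) ^ 2 := by
    intro b hb v hv
    rw [norm_mt]
    have h1 := hX 2 v (by norm_num) le_rfl hv
    have h2 : v ^ (2 - 1 / 2 : ℝ) ≤ (1 + |v|) ^ 2 := by
      rw [abs_of_pos (by linarith)]
      calc v ^ (2 - 1 / 2 : ℝ) ≤ v ^ (2 : ℝ) := Real.rpow_le_rpow_of_exponent_le hv (by norm_num)
        _ = v ^ 2 := by rw [← Real.rpow_natCast]; norm_num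
        _ ≤ _ := by gcongr; linarith
    have h3 : Real.exp (-((Real.log (y * ℓ) + pb b) * 2) - Real.arctan b * v) ≤
        Real.exp (-(Real.log (y * ℓ) * 2)) := by
      apply Real.exp_le_exp.2
      have := pb_nonneg b
      have := mul_nonneg (arctan_nonneg' hb) (show 0 ≤ v by linarith)
      linarith
    calc _ ≤ (Real.exp K * (1 + |v|) ^ 2) * Real.exp (-(Real.log (y * ℓ) * 2)) := by
          gcongr
          exact h1.trans (by gcongr)
      _ = _ := by rw [hA]; ring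
  have hmm : ∀ b : ℝ, 0 ≤ b → ∀ v : ℝ, ‖mm y b ℓ ⟨2, v⟩‖ ≤ (2 * A + B) * (1 + |v|) ^ 2 := by
    intro b hb v
    rcases le_or_gt 1 v with hv | hv
    · have h1 := hmt b hb v hv
      rw [mt_mm hy hb hℓ, norm_mul] at h1
      have h2 : 1 / 2 ≤ ‖1 + cexp (Real.pi * I * (⟨2, v⟩ : ℂ))‖ := by
        have h3 := norm_sub_norm_le (1 : ℂ) (-(cexp (Real.pi * I * (⟨2, v⟩ : ℂ))))
        rw [norm_one, norm_neg, sub_neg_eq_add, norm_epi] at h3
        have := epi_half hv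
        linarith
      have h4 : ‖mm y b ℓ ⟨2, v⟩‖ * (1 / 2) ≤ A * (1 + |v|) ^ 2 :=
        le_trans (by gcongr) h1
      nlinarith [mul_nonneg hB0.le (sq_nonneg (1 + |v|))]
    · rw [mm_eq hy hb hℓ, norm_mul, Complex.norm_exp]
      have h1 : (-((((Real.log (2 * Real.pi * y * ℓ) + pb b : ℝ) : ℂ) +
        ((Real.pi / 2 - Real.arctan b : ℝ) : ℂ) * I) * (⟨2, v⟩ : ℂ))).re =
          -((Real.log (2 * Real.pi * y * ℓ) + pb b) * 2) + (Real.pi / 2 - Real.arctan b) * v := by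
        simp [-Complex.ofReal_arctan]
        ring
      rw [h1]
      have h2 : Real.exp (-((Real.log (2 * Real.pi * y * ℓ) + pb b) * 2) + (Real.pi / 2 - Real.arctan b) * v) ≤ B := by
        rw [hB]
        apply Real.exp_le_exp.2
        have h3 := pb_nonneg b
        have h4 : (Real.pi / 2 - Real.arctan b) * v ≤ Real.pi / 2 := by
          have h5 := Real.arctan_lt_pi_div_two b
          have h6 := arctan_nonneg' hb
          nlinarith
        linarith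
      have h3 := norm_Gamma_two v
      have h4 : 1 ≤ (1 + |v|) ^ 2 := one_le_pow₀ (by have := abs_nonneg v; linarith)
      calc _ ≤ B * 1 := by gcongr
        _ ≤ (2 * A + B) * (1 + |v|) ^ 2 := by nlinarith
  refine ⟨2 * A + B + 1, by linarith, fun b hb v => ⟨?_, fun hv => ⟨?_, ?_⟩⟩⟩
  · refine (hmm b hb v).trans ?_
    apply mul_le_mul_of_nonneg_right _ (by positivity)
    linarith
  · refine (hmt b hb v hv).trans ?_
    apply mul_le_mul_of_nonneg_right _ (by positivity)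
    linarith
  · have h1 : mt y b ℓ ⟨2, v⟩ - mm y b ℓ ⟨2, v⟩ = mm y b ℓ ⟨2, v⟩ * cexp (Real.pi * I * (⟨2, v⟩ : ℂ)) := by
      rw [mt_mm hy hb hℓ]
      ring
    rw [h1, norm_mul, norm_epi]
    apply mul_le_mul_of_nonneg_right _ (Real.exp_pos _).le
    refine (hmm b hb v).trans ?_
    apply mul_le_mul_of_nonneg_right _ (by positivity)
    linarith

end Pool.Agent.N806.AH
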