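import Pool.Agent.N806.AH.Low

/-! The lower bound for the averaged quantity, continued. -/

set_option autoImplicit false

open Complex Filter Topology Set MeasureTheory Metric

namespace Pool.Agent.N806.AH

open H345 H345.Chi
open scoped ENNReal

/-- the global hypothesis -/
structure GH (y Cr L K d ε : ℝ) (D : ℝ → ℝ) : Prop where
  lip : ∀ s t, |D s - D t| ≤ |s - t|
  lo : ∀ t, D t ≤ t - Real.exp L
  hi : ∀ t, D t ≤ Cr * Real.exp L - t
  lh : ∀ t, K * L ≤ D t → LH y t (K * L) d ε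

lemma GH.cont {y Cr L K d ε : ℝ} {D : ℝ → ℝ} (h : GH y Cr L K d ε D) : Continuous D := by
  have h1 : LipschitzWith 1 D := by
    apply LipschitzWith.of_dist_le_mul
    intro x z
    rw [Real.dist_eq, Real.dist_eq, NNReal.coe_one, one_mul]
    exact h.lip x z
  exact h1.continuous

/-- sums over the good zeros -/
lemma good_sums (hRH : RiemannHypothesis) (y : ℝ) {Cr : ℝ} (hCr : 1 ≤ Cr) :
    ∃ K0 K' C L0 ε0 : ℝ, 1 ≤ K0 ∧ 1 ≤ K' ∧ 1 ≤ C ∧ 1 ≤ L0 ∧ 0 < ε0 ∧ ∀ K : ℝ, K0 ≤ K → ∀ L : ℝ, L0 ≤ L →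
    ∀ (D : ℝ → ℝ) (d ε : ℝ), 1 / (8 * L) ≤ d → d ≤ 1 / L → 0 ≤ ε → ε ≤ ε0 → GH y Cr L K d ε D →
    ∀ F : Finset ℝ, (∀ γ ∈ F, γ ∈ Zo ∧ (K' + K) * L ^ 2 ≤ D γ) →
    ∑ γ ∈ F, ‖aa γ‖ ≤ C * Real.sqrt L * Real.exp L := by
  obtain ⟨Ka, K', C, L0, ε0, hKa, hK', hC, hL0, hε0, habs⟩ := absorb hRH y hCr
  refine ⟨Ka, K', 3 * Real.sqrt (Cr * C), L0, ε0, hKa, hK', ?_, hL0, hε0, fun K hK L hL D d ε hd hd1 hε hεε hG F hF => ?_⟩
  · have h1 : 1 ≤ Cr * C := by nlinarith
    have h2 : 1 ≤ Real.sqrt (Cr * C) := Real.one_le_sqrt.2 h1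
    linarith
  have hL1 : 1 ≤ L := hL0.trans hL
  have hLpos : 0 < L := by linarith
  have hd0 : 0 < d := lt_of_lt_of_le (by positivity) hd
  have hexp : 1 ≤ Real.exp L := Real.one_le_exp (by linarith)
  have hdL8 : 1 ≤ 8 * L * d := by
    rw [div_le_iff₀ (by positivity)] at hd
    linarith
  have hK1 : 1 ≤ K := hKa.trans hK
  have hKL2 : K * L ≤ K * L ^ 2 := by
    have : L ≤ L ^ 2 := by nlinarith
    nlinarith
  have hsq := habs L hL (fun t => D t - (K - Ka) * L) (fun s t => by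
      have := hG.lip s t
      rwa [sub_sub_sub_cancel_right]) (fun t => by
      have := hG.lo t
      have h1 : 0 ≤ (K - Ka) * L := mul_nonneg (by linarith) hLpos.le
      linarith) (fun t => by
      have := hG.hi t
      have h1 : 0 ≤ (K - Ka) * L := mul_nonneg (by linarith) hLpos.le
      linarith) d ε hd hd1 hε hεε (fun t ht => by
      have h1 : K * L ≤ D t := by linarith
      exact (hG.lh t h1).mono (by gcongr)) F (fun γ hγ => by
      have h1 := hF γ hγ
      refine ⟨h1.1, ?_⟩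
      have h2 : (K - Ka) * L ≤ K * L ^ 2 := by
        have : (K - Ka) * L ≤ K * L := by nlinarith
        linarith
      nlinarith [h1.2])
  have hsep : ∀ x ∈ F, ∀ x' ∈ F, x ≠ x' → d ≤ |x - x'| := by
    intro x hx x' hx' hne
    have h1 := hF x hx
    have h2 := hF x' hx'
    have h3 : K * L ≤ D x := by nlinarith [h1.2]
    by_cases h : |x - x'| ≤ K * L
    · exact (hG.lh x h3).sp x h1.1 x' h2.1 (by rw [sub_self, abs_zero]; positivity)
        (by rw [abs_sub_comm]; exact h) hne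
    · push Not at h
      have h4 : 1 ≤ K * L := by nlinarith
      have h5 : 1 / L ≤ 1 := by rw [div_le_one hLpos]; exact hL1
      linarith
  have hcard : (F.card : ℝ) ≤ 9 * Cr * L * Real.exp L := by
    have h4 := sep_card (F := F) hd0 (a := Real.exp L) (b := Cr * Real.exp L) (by nlinarith) hsep
      (fun x hx => by
        have h1 := (hF x hx).2
        have h2 : 0 ≤ (K' + K) * L ^ 2 := by positivity
        exact ⟨by linarith [hG.lo x], by linarith [hG.hi x]⟩)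
    have h5 : (Cr * Real.exp L - Real.exp L) / d ≤ 8 * L * (Cr * Real.exp L) := by
      rw [div_le_iff₀ hd0]
      have h6 : Cr * Real.exp L * 1 ≤ Cr * Real.exp L * (8 * L * d) := by
        apply mul_le_mul_of_nonneg_left hdL8
        positivity
      nlinarith
    have h6 : 1 ≤ L * Cr * Real.exp L := by
      have : 1 ≤ L * Cr := by nlinarith
      nlinarith
    nlinarith
  have hCS : (∑ γ ∈ F, ‖aa γ‖) ^ 2 ≤ (F.card : ℝ) * ∑ γ ∈ F, ‖aa γ‖ ^ 2 := sq_sum_le_card_mul_sum_sq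
  have h1 : (∑ γ ∈ F, ‖aa γ‖) ^ 2 ≤ (3 * Real.sqrt (Cr * C) * Real.sqrt L * Real.exp L) ^ 2 := by
    calc (∑ γ ∈ F, ‖aa γ‖) ^ 2 ≤ (F.card : ℝ) * ∑ γ ∈ F, ‖aa γ‖ ^ 2 := hCS
      _ ≤ (9 * Cr * L * Real.exp L) * (C * Real.exp L) := by
          apply mul_le_mul hcard hsq (Finset.sum_nonneg fun _ _ => by positivity) (by positivity)
      _ = _ := by
          rw [mul_pow, mul_pow, mul_pow, Real.sq_sqrt (by positivity), Real.sq_sqrt hLpos.le]
          ring
  exact (pow_le_pow_iff_left₀ (Finset.sum_nonneg fun _ _ => norm_nonneg _) (by positivity) two_ne_zero).1 h1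

/-- the lower bound for one `ℓ` -/
theorem lower_ell (hRH : RiemannHypothesis) {y : ℝ} (hy : 0 < y) {η : ℝ} (hη : 0 < η) (hη1 : η ≤ 1)
    {Cr : ℝ} (hCr : 1 ≤ Cr) {ℓ : ℕ} (hℓ : 1 ≤ ℓ) (hsq : Squarefree ℓ) (hCrℓ : 2 * (ℓ : ℝ) ≤ η ^ 2 * Cr)
    {H : ℝ} (hH : 4 ≤ H) (hEE : 3 * EE ℓ H ≤ 1) {g : ℝ} (hg : 0 < g) :
    ∃ K0 K' c0 ϑ : ℝ, 1 ≤ K0 ∧ 1 ≤ K' ∧ 0 < c0 ∧ 0 < ϑ ∧ ∀ K : ℝ, K0 ≤ K → ∃ L1 : ℝ, 1 ≤ L1 ∧
    ∀ L : ℝ, L1 ≤ L → ∀ (D : ℝ → ℝ) (d ε : ℝ), 1 / (8 * L) ≤ d → d ≤ 1 / L → 0 ≤ ε →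
    ε ≤ c0 / Real.sqrt L → GH y Cr L K d ε D →
    volume (Icc (Real.exp L) (Cr * Real.exp L) ∩ {t | D t < (K' + 2 * K) * L ^ 2}) ≤
      ENNReal.ofReal (ϑ * Real.exp L) →
    ENNReal.ofReal (((1 - 3 * EE ℓ H) ^ 2 * (1 - 3 * η) - g) * Real.log 2 / (4 * Real.pi * y)) ≤
      AA y (η / 2 * Real.exp (-L)) ℓ H := by
  have hpi := Real.pi_pos
  have hH0 : 0 < H := by linarith
  have hℓ0 : (0 : ℝ) < ℓ := by exact_mod_cast hℓ
  have hℓ1 : (1 : ℝ) ≤ ℓ := by exact_mod_cast hℓ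
  obtain ⟨Ka, K', C', La, ε0, hKa, hK', hC', hLa, hε0, hgood⟩ := good_sums hRH y hCr
  obtain ⟨Kp, Cp, Lp, hKp, hCp, hLp, hps⟩ := pstep hRH hy hCr hℓ hsq hH
  set a0 : ℝ := Real.exp (-(Real.log y / 2)) * (H * Real.sqrt Real.pi) * (ℓ : ℝ)⁻¹ * (1 - 3 * EE ℓ H) with ha0
  have ha00 : 0 ≤ a0 := by
    have : 0 ≤ 1 - 3 * EE ℓ H := by linarith
    positivity
  set κ1 : ℝ := 2 * Real.pi * Real.exp (-(Real.log (y * ℓ) / 2)) with hκ1
  have hκ10 : 0 < κ1 := by positivity
  set Q : ℝ := 2 * a0 * κ1 * (H ^ 2 * Real.sqrt (2 * Real.pi)) * C' with hQ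
  have hQ0 : 0 ≤ Q := by positivity
  set P : ℝ := Real.pi * H ^ 2 / (2 * y * ℓ) with hP
  have hP0 : 0 < P := by positivity
  set c0 : ℝ := min ε0 (P * g / (3 * (Q + 1))) with hc0
  have hc00 : 0 < c0 := lt_min hε0 (by positivity)
  refine ⟨max Ka Kp, K', c0, g / 6, hKa.trans (le_max_left _ _), hK', hc00, by positivity, fun K hK => ?_⟩
  have hKKa : Ka ≤ K := (le_max_left _ _).trans hK
  have hKKp : Kp ≤ K := (le_max_right _ _).trans hK
  -- choice of L1
  set X : ℝ := 2 * a0 * Cp * ℓ / η with hX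
  have hX0 : 0 ≤ X := by positivity
  refine ⟨max (max La Lp) (3 * X / (P * g) + 1), hLa.trans ((le_max_left _ _).trans (le_max_left _ _)),
    fun L hL D d ε hd hdL hε hεc hG hvol => ?_⟩
  have hLLa : La ≤ L := ((le_max_left _ _).trans (le_max_left _ _)).trans hL
  have hLLp : Lp ≤ L := ((le_max_right _ _).trans (le_max_left _ _)).trans hL
  have hLX : 3 * X / (P * g) + 1 ≤ L := (le_max_right _ _).trans hL
  have hL1 : 1 ≤ L := hLa.trans hLLa
  have hLpos : 0 < L := by linarith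
  have hsL : 1 ≤ Real.sqrt L := Real.one_le_sqrt.2 hL1
  have hεc0 : ε * Real.sqrt L ≤ c0 := by
    rw [le_div_iff₀ (by positivity)] at hεc
    exact hεc
  have hεε0 : ε ≤ ε0 := by
    have h1 : ε ≤ ε * Real.sqrt L := le_mul_of_one_le_right hε hsL
    exact h1.trans (hεc0.trans (min_le_left _ _))
  have hεQ : Q * (ε * Real.sqrt L) ≤ P * g / 3 := by
    have h1 : ε * Real.sqrt L ≤ P * g / (3 * (Q + 1)) := hεc0.trans (min_le_right _ _)
    calc Q * (ε * Real.sqrt L) ≤ (Q + 1) * (P * g / (3 * (Q + 1))) := by gcongr; linarith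
      _ = P * g / 3 := by field_simp
  have hexpL : 0 < Real.exp L := Real.exp_pos L
  have hexpmL : 0 < Real.exp (-L) := Real.exp_pos _
  have hee : Real.exp (-L) * Real.exp L = 1 := by rw [← Real.exp_add]; simp
  have hXL : X * Real.exp (-L) ≤ P * g / 3 := by
    have h1 : Real.exp (-L) ≤ 1 / (1 + L) := exp_neg_le_inv hLpos.le
    have h2 : X * Real.exp (-L) ≤ X * (1 / (1 + L)) := by gcongr
    refine h2.trans ?_
    rw [mul_one_div, div_le_iff₀ (by positivity)]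
    have h3 : 3 * X ≤ (L - 1) * (P * g) := by
      have : 3 * X / (P * g) ≤ L - 1 := by linarith
      rwa [div_le_iff₀ (by positivity)] at this
    nlinarith [mul_pos hP0 hg]
  set δ1 : ℝ := η / 2 * Real.exp (-L) with hδ1
  have hδ10 : 0 < δ1 := by positivity
  set q : ℝ := (1 - 3 * EE ℓ H) ^ 2 * (1 - 3 * η) - g with hq
  set M : ℝ := (K' + 2 * K) * L ^ 2 with hM
  -- lower bound for each δ
  have key : ∀ δ ∈ Ioc δ1 (2 * δ1), ENNReal.ofReal (q / (4 * Real.pi * y) * δ⁻¹) ≤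
      ENNReal.ofReal ℓ * ∫⁻ u : ℝ, ‖hh y (δ / ℓ) ℓ H u‖ₑ ^ 2 := by
    intro δ hδ
    have hδ0 : 0 < δ := hδ10.trans hδ.1
    have hδ2 : δ ≤ η * Real.exp (-L) := by
      have := hδ.2
      rw [hδ1] at this
      linarith
    set b : ℝ := δ / ℓ with hb
    have hb0 : 0 < b := by positivity
    have hbδ : b ≤ δ := div_le_self hδ0.le hℓ1
    have hbexp : b ≤ Real.exp (-L) := by nlinarith
    have hδe : δ * Real.exp L ≤ 1 := by
      calc δ * Real.exp L ≤ η * Real.exp (-L) * Real.exp L := by gcongr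
        _ = η := by rw [mul_assoc, hee, mul_one]
        _ ≤ 1 := hη1
    have hAL : Real.exp L ≤ η / b := by
      rw [le_div_iff₀ hb0]
      calc Real.exp L * b ≤ Real.exp L * (η * Real.exp (-L)) := by gcongr; exact hbδ.trans hδ2
        _ = η * (Real.exp (-L) * Real.exp L) := by ring
        _ = η := by rw [hee, mul_one]
    have hBL : 1 / (η * b) ≤ Cr * Real.exp L := by
      rw [div_le_iff₀ (by positivity)]
      have h1 : η / 2 * Real.exp (-L) / ℓ ≤ b := by
        rw [hb]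
        gcongr
        exact hδ.1.le
      calc (1 : ℝ) ≤ η ^ 2 * Cr / (2 * ℓ) := by
            rw [le_div_iff₀ (by positivity)]
            linarith
        _ = Cr * Real.exp L * (η * (η / 2 * Real.exp (-L) / ℓ)) := by
            have h2 : Cr * Real.exp L * (η * (η / 2 * Real.exp (-L) / ℓ)) =
                η ^ 2 * Cr / (2 * ℓ) * (Real.exp (-L) * Real.exp L) := by
              field_simp
            rw [h2, hee, mul_one]
        _ ≤ Cr * Real.exp L * (η * b) := by gcongr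
    set F0 : Finset ℝ := (ZF (Real.exp L) (Cr * Real.exp L)).filter (fun γ => (K' + K) * L ^ 2 ≤ D γ) with hF0
    have hS := hgood K hKKa L hLLa D d ε hd hdL hε hεε0 hG F0 (fun γ hγ => by
      rw [hF0, Finset.mem_filter, mem_ZF] at hγ
      exact ⟨hγ.1.1, hγ.2⟩)
    have hKL : 0 ≤ K * L := by
      have : 1 ≤ K := hKa.trans hKKa
      positivity
    have hlow := low_abs (R := fun t => Rint y b ℓ H t) (D := D) hG.cont F0 (α := fun γ => ‖aa γ‖)
      (fun γ => norm_nonneg _) (a0 := a0) (b := b) (η := η) (H := H) (κ := κ1 * ε) (x := Cp * Real.exp (-L))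
      (M := M) (v := g / 6 * Real.exp L) ha00 hb0 hη hη1 hH0 (by positivity) (by positivity) (by positivity)
      (by
        intro t ht hMt
        have ht1 : Real.exp L ≤ t := hAL.trans ht.1
        have ht2 : t ≤ Cr * Real.exp L := ht.2.trans hBL
        have hKL2 : K * L ≤ K * L ^ 2 := by
          have h1 : L ≤ L ^ 2 := by nlinarith
          have h2 : 1 ≤ K := hKa.trans hKKa
          nlinarith
        have hK'L : 0 ≤ K' * L ^ 2 := by positivity
        have hDt : K * L ≤ D t := by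
          rw [hM] at hMt
          nlinarith
        have h1 := hps L hLLp b hb0.le hbexp t d ε ht1 ht2 hd (hdL.trans (by
          rw [div_le_one hLpos]; exact hL1)) hε ((hG.lh t hDt).mono (by gcongr))
        have h2 : Real.exp (-(b * t)) ≤ Real.exp (-(Real.arctan b * t)) := by
          apply Real.exp_le_exp.2
          have := mul_le_mul_of_nonneg_right (arctan_le' hb0.le) (hexpL.le.trans ht1)
          linarith
        have h3 : a0 * Real.exp (-(b * t)) ≤ Real.exp (-(Real.log y / 2)) * ((H * Real.sqrt Real.pi) *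
            Real.exp (-(Real.arctan b * t)) * (ℓ : ℝ)⁻¹ * (1 - 3 * EE ℓ H)) := by
          calc a0 * Real.exp (-(b * t)) ≤ a0 * Real.exp (-(Real.arctan b * t)) := by gcongr
            _ = _ := by rw [ha0]; ring
        have h4 : ∑ γ ∈ ZF (t - Kp * L) (t + Kp * L), |γ - t| * Real.exp (-(1 / H ^ 2) * (γ - t) ^ 2) * ‖aa γ‖ ≤
            ∑ γ ∈ F0, |γ - t| * Real.exp (-(1 / H ^ 2) * (γ - t) ^ 2) * ‖aa γ‖ := by
          apply Finset.sum_le_sum_of_subset_of_nonneg
          · intro γ hγ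
            rw [mem_ZF] at hγ
            have h5 : |t - γ| ≤ K * L := by
              have : Kp * L ≤ K * L := by gcongr
              rw [abs_le]
              constructor <;> linarith [hγ.2.1, hγ.2.2]
            have h6 := (abs_le.1 (hG.lip t γ)).2
            have h7 : (K' + K) * L ^ 2 ≤ D γ := by
              rw [hM] at hMt
              nlinarith
            have h8 : 0 ≤ (K' + K) * L ^ 2 := by
              have : 1 ≤ K := hKa.trans hKKa
              positivity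
            rw [hF0, Finset.mem_filter, mem_ZF]
            exact ⟨⟨hγ.1, by linarith [hG.lo γ], by linarith [hG.hi γ]⟩, h7⟩
          · intro γ _ _
            positivity
        calc a0 * Real.exp (-(b * t)) ≤ _ := h3
          _ ≤ _ := h1
          _ ≤ ‖Rint y b ℓ H t‖ + (κ1 * ε * ∑ γ ∈ F0, |γ - t| * Real.exp (-(1 / H ^ 2) * (γ - t) ^ 2) * ‖aa γ‖ +
              Cp * Real.exp (-L)) := by
              have h5 : 2 * Real.pi * (Real.exp (-(Real.log (y * ℓ) / 2)) * ε *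
                  ∑ γ ∈ ZF (t - Kp * L) (t + Kp * L),
                    |γ - t| * Real.exp (-(1 / H ^ 2) * (γ - t) ^ 2) * ‖aa γ‖) ≤
                  κ1 * ε * ∑ γ ∈ F0, |γ - t| * Real.exp (-(1 / H ^ 2) * (γ - t) ^ 2) * ‖aa γ‖ := by
                rw [hκ1]
                calc _ = 2 * Real.pi * Real.exp (-(Real.log (y * ℓ) / 2)) * ε *
                      ∑ γ ∈ ZF (t - Kp * L) (t + Kp * L),
                        |γ - t| * Real.exp (-(1 / H ^ 2) * (γ - t) ^ 2) * ‖aa γ‖ := by ring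
                  _ ≤ _ := by gcongr
              linarith)
      (by
        refine le_trans (measure_mono ?_) hvol
        intro t ht
        exact ⟨⟨hAL.trans ht.1.1, ht.1.2.trans hBL⟩, ht.2⟩)
    rw [planch hy hb0 hℓ hH] at hlow
    set J := ∫⁻ u : ℝ, ‖hh y b ℓ H u‖ₑ ^ 2 with hJ
    -- numerical comparison
    have hS0 : 0 ≤ ∑ γ ∈ F0, ‖aa γ‖ := Finset.sum_nonneg fun _ _ => norm_nonneg _
    have ha0sq : a0 ^ 2 = 2 * P / ℓ * (1 - 3 * EE ℓ H) ^ 2 := by
      rw [ha0, hP, mul_pow, mul_pow, mul_pow, mul_pow, Real.sq_sqrt hpi.le, ← Real.exp_nat_mul]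
      have h1 : Real.exp (((2 : ℕ) : ℝ) * -(Real.log y / 2)) = y⁻¹ := by
        rw [show ((2 : ℕ) : ℝ) * -(Real.log y / 2) = -Real.log y by push_cast; ring, Real.exp_neg,
          Real.exp_log hy]
      rw [h1]
      field_simp
    have hE1 : (1 - 3 * EE ℓ H) ^ 2 ≤ 1 := by
      have := EE_pos hℓ H
      have h2 : 0 ≤ 1 - 3 * EE ℓ H := by linarith
      nlinarith
    have ha0P : a0 ^ 2 ≤ 2 * P := by
      rw [ha0sq]
      have h1 : 2 * P / ℓ ≤ 2 * P := div_le_self (by positivity) hℓ1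
      have h2 : 0 ≤ 2 * P / ℓ := by positivity
      nlinarith
    have heδ : Real.exp L ≤ δ⁻¹ := by
      rw [← one_div, le_div_iff₀ hδ0]
      linarith
    have hmain : P * q * δ⁻¹ ≤ a0 ^ 2 / (2 * b) * (1 - 3 * η) - a0 ^ 2 * (g / 6 * Real.exp L) -
        2 * a0 * (κ1 * ε * (H ^ 2 * Real.sqrt (2 * Real.pi) * ∑ γ ∈ F0, ‖aa γ‖) +
          Cp * Real.exp (-L) * (1 / (η * b))) := by
      have t1 : a0 ^ 2 / (2 * b) * (1 - 3 * η) = P * ((1 - 3 * EE ℓ H) ^ 2 * (1 - 3 * η)) * δ⁻¹ := by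
        rw [ha0sq, hb]
        field_simp
      have t2 : a0 ^ 2 * (g / 6 * Real.exp L) ≤ P * (g / 3) * δ⁻¹ := by
        calc a0 ^ 2 * (g / 6 * Real.exp L) ≤ (2 * P) * (g / 6 * δ⁻¹) := by gcongr
          _ = _ := by ring
      have t3 : 2 * a0 * (κ1 * ε * (H ^ 2 * Real.sqrt (2 * Real.pi) * ∑ γ ∈ F0, ‖aa γ‖)) ≤
          P * (g / 3) * δ⁻¹ := by
        calc 2 * a0 * (κ1 * ε * (H ^ 2 * Real.sqrt (2 * Real.pi) * ∑ γ ∈ F0, ‖aa γ‖))
            ≤ 2 * a0 * (κ1 * ε * (H ^ 2 * Real.sqrt (2 * Real.pi) * (C' * Real.sqrt L * Real.exp L))) := by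
              gcongr
          _ = Q * (ε * Real.sqrt L) * Real.exp L := by rw [hQ]; ring
          _ ≤ (P * g / 3) * δ⁻¹ := by gcongr
          _ = _ := by ring
      have t4 : 2 * a0 * (Cp * Real.exp (-L) * (1 / (η * b))) ≤ P * (g / 3) * δ⁻¹ := by
        calc 2 * a0 * (Cp * Real.exp (-L) * (1 / (η * b))) = X * Real.exp (-L) * δ⁻¹ := by
              rw [hX, hb]
              field_simp
          _ ≤ (P * g / 3) * δ⁻¹ := by gcongr
          _ = _ := by ring
      have t5 : P * q * δ⁻¹ = P * ((1 - 3 * EE ℓ H) ^ 2 * (1 - 3 * η)) * δ⁻¹ - 3 * (P * (g / 3) * δ⁻¹) := by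
        rw [hq]; ring
      rw [t5, t1]
      linarith
    have h5 : ENNReal.ofReal (P * q * δ⁻¹) ≤ ENNReal.ofReal (2 * Real.pi ^ 2 * H ^ 2) * J :=
      (ENNReal.ofReal_le_ofReal hmain).trans hlow
    have h6 : P * q * δ⁻¹ = (2 * Real.pi ^ 2 * H ^ 2) * (q / (4 * Real.pi * y) * δ⁻¹ / ℓ) := by
      rw [hP]
      field_simp
      ring
    have h7 : 0 < 2 * Real.pi ^ 2 * H ^ 2 := by positivity
    rw [h6, ENNReal.ofReal_mul h7.le] at h5
    have h8 := (ENNReal.mul_le_mul_iff_right (ENNReal.ofReal_pos.2 h7).ne' ENNReal.ofReal_ne_top).1 h5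
    have h9 : q / (4 * Real.pi * y) * δ⁻¹ = ℓ * (q / (4 * Real.pi * y) * δ⁻¹ / ℓ) := by
      field_simp
    rw [h9, ENNReal.ofReal_mul hℓ0.le]
    gcongr
  -- integrate over δ
  rcases le_or_gt q 0 with hq0 | hq0
  · rw [ENNReal.ofReal_of_nonpos]
    · exact zero_le
    · have h1 : 0 ≤ Real.log 2 := Real.log_nonneg (by norm_num)
      apply div_nonpos_of_nonpos_of_nonneg _ (by positivity)
      exact mul_nonpos_of_nonpos_of_nonneg hq0 h1
  · have h1 : ∫⁻ δ in Ioc δ1 (2 * δ1), ENNReal.ofReal (q / (4 * Real.pi * y) * δ⁻¹) =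
        ENNReal.ofReal (∫ δ in δ1..(2 * δ1), q / (4 * Real.pi * y) * δ⁻¹) := by
      rw [intervalIntegral.integral_of_le (by linarith), ofReal_integral_eq_lintegral_ofReal]
      · have hc : ContinuousOn (fun δ : ℝ => q / (4 * Real.pi * y) * δ⁻¹) (Icc δ1 (2 * δ1)) := by
          apply ContinuousOn.mul continuousOn_const
          apply ContinuousOn.inv₀ continuousOn_id
          intro r hr
          exact (hδ10.trans_le hr.1).ne'
        exact (hc.integrableOn_Icc).mono_set Ioc_subset_Icc_self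
      · rw [EventuallyLE, ae_restrict_iff' measurableSet_Ioc]
        refine Eventually.of_forall fun r hr => ?_
        have : 0 < r := hδ10.trans hr.1
        simp only [Pi.zero_apply]
        positivity
    have h2 : ∫ δ in δ1..(2 * δ1), q / (4 * Real.pi * y) * δ⁻¹ = q * Real.log 2 / (4 * Real.pi * y) := by
      rw [intervalIntegral.integral_const_mul, integral_inv_of_pos hδ10 (by positivity)]
      have : 2 * δ1 / δ1 = 2 := by field_simp
      rw [this]
      ring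
    rw [h2] at h1
    rw [← h1]
    unfold AA
    exact setLIntegral_mono' measurableSet_Ioc key

end Pool.Agent.N806.AH
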