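import Pool.Agent.N806.AH.PCd
import Pool.Agent.N806.AH.Low2

/-! The Lipschitz extension of the phase and the bounds for the sums over the zeros. -/

set_option autoImplicit false

open Complex Filter Topology Set MeasureTheory Metric

namespace Pool.Agent.N806.AH

open H345 H345.Chi
open scoped ENNReal NNReal

lemma u_lip {y Cr L K d ε ε1 : ℝ} {D : ℝ → ℝ} (hG : GH y Cr L K d ε D) (hKL : 0 ≤ K * L) (hε1 : ε ≤ ε1)
    (h2 : 2 ≤ ε1 * (K * L)) {γ γ' : ℝ} (hγ : γ ∈ Zo) (hγ' : γ' ∈ Zo) (hD : K * L ≤ D γ) :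
    ‖uu y γ - uu y γ'‖ ≤ ε1 * |γ - γ'| := by
  by_cases h : |γ - γ'| ≤ K * L
  · obtain ⟨c, hc, hlat⟩ := (hG.lh γ hD).lat
    have h3 := hlat γ hγ (by rw [sub_self, abs_zero]; exact hKL)
    have h4 := hlat γ' hγ' (by rw [abs_sub_comm]; exact h)
    rw [sub_self, abs_zero, mul_zero] at h3
    have h5 : 1 + c * uu y γ = 0 := by
      rw [← norm_le_zero_iff]; exact h3
    have h6 : c * (uu y γ - uu y γ') = -(1 + c * uu y γ') := by linear_combination h5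
    have h7 : ‖uu y γ - uu y γ'‖ = ‖c * (uu y γ - uu y γ')‖ := by rw [norm_mul, hc, one_mul]
    rw [h7, h6, norm_neg]
    refine h4.trans ?_
    rw [abs_sub_comm]
    exact mul_le_mul_of_nonneg_right hε1 (abs_nonneg _)
  · push Not at h
    have h3 : ‖uu y γ - uu y γ'‖ ≤ 2 := by
      refine (norm_sub_le _ _).trans ?_
      rw [norm_uu, norm_uu]
      norm_num
    have hε0 : 0 ≤ ε1 := by
      by_contra hneg
      push Not at hneg
      nlinarith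
    nlinarith

lemma u_ext {y Cr L K d ε ε1 : ℝ} {D : ℝ → ℝ} (hG : GH y Cr L K d ε D) (hKL : 0 ≤ K * L) (hε1 : ε ≤ ε1)
    (hε0 : 0 ≤ ε1) (h2 : 2 ≤ ε1 * (K * L)) :
    ∃ U : ℝ → ℂ, (∀ s t, ‖U s - U t‖ ≤ 2 * ε1 * |s - t|) ∧ ∀ γ ∈ Zo, K * L ≤ D γ → U γ = uu y γ := by
  set S : Set ℝ := {γ | γ ∈ Zo ∧ K * L ≤ D γ} with hS
  have key : ∀ γ ∈ S, ∀ γ' ∈ S, ‖uu y γ - uu y γ'‖ ≤ ε1 * |γ - γ'| := fun γ hγ γ' hγ' =>
    u_lip hG hKL hε1 h2 hγ.1 hγ'.1 hγ.2
  have h1 : LipschitzOnWith ⟨ε1, hε0⟩ (fun t => (uu y t).re) S := by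
    apply LipschitzOnWith.of_dist_le_mul
    intro x hx z hz
    rw [Real.dist_eq, Real.dist_eq]
    have := Complex.abs_re_le_norm (uu y x - uu y z)
    rw [Complex.sub_re] at this
    exact this.trans (key x hx z hz)
  have h3 : LipschitzOnWith ⟨ε1, hε0⟩ (fun t => (uu y t).im) S := by
    apply LipschitzOnWith.of_dist_le_mul
    intro x hx z hz
    rw [Real.dist_eq, Real.dist_eq]
    have := Complex.abs_im_le_norm (uu y x - uu y z)
    rw [Complex.sub_im] at this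
    exact this.trans (key x hx z hz)
  obtain ⟨g1, hg1, hg1e⟩ := h1.extend_real
  obtain ⟨g2, hg2, hg2e⟩ := h3.extend_real
  refine ⟨fun t => (g1 t : ℂ) + (g2 t : ℂ) * I, fun s t => ?_, fun γ hγ hD => ?_⟩
  · have h4 : ((g1 s : ℂ) + (g2 s : ℂ) * I) - ((g1 t : ℂ) + (g2 t : ℂ) * I) =
        ((g1 s - g1 t : ℝ) : ℂ) + ((g2 s - g2 t : ℝ) : ℂ) * I := by push_cast; ring
    simp only
    rw [h4]
    refine (norm_add_le _ _).trans ?_
    rw [norm_mul, norm_I, mul_one, Complex.norm_real, Complex.norm_real, Real.norm_eq_abs, Real.norm_eq_abs]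
    have h5 : |g1 s - g1 t| ≤ ε1 * |s - t| := hg1.dist_le_mul s t
    have h6 : |g2 s - g2 t| ≤ ε1 * |s - t| := hg2.dist_le_mul s t
    linarith
  · have h4 : γ ∈ S := ⟨hγ, hD⟩
    simp only
    rw [← hg1e h4, ← hg2e h4]
    exact Complex.re_add_im _

/-- a cutoff -/
noncomputable def cut (M S x : ℝ) : ℝ := min 1 (max 0 ((x - M) / S))

lemma cut_nonneg (M S x : ℝ) : 0 ≤ cut M S x := le_min zero_le_one (le_max_left _ _)

lemma cut_le_one (M S x : ℝ) : cut M S x ≤ 1 := min_le_left _ _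

lemma cut_lip {M S : ℝ} (hS : 0 < S) (x x' : ℝ) : |cut M S x - cut M S x'| ≤ 1 / S * |x - x'| := by
  unfold cut
  refine (abs_min_sub_min_le_max _ _ _ _).trans (max_le ?_ ((abs_max_sub_max_le_max _ _ _ _).trans
    (max_le ?_ ?_)))
  · rw [sub_self, abs_zero]; positivity
  · rw [sub_self, abs_zero]; positivity
  · rw [← sub_div, abs_div, abs_of_pos hS, sub_sub_sub_cancel_right]
    apply le_of_eq
    ring

lemma cut_zero {M S x : ℝ} (hS : 0 < S) (h : x ≤ M) : cut M S x = 0 := by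
  unfold cut
  have h1 : (x - M) / S ≤ 0 := div_nonpos_of_nonpos_of_nonneg (by linarith) hS.le
  rw [max_eq_left h1]
  simp

lemma cut_one {M S x : ℝ} (hS : 0 < S) (h : M + S ≤ x) : cut M S x = 1 := by
  unfold cut
  have h1 : 1 ≤ (x - M) / S := by rw [le_div_iff₀ hS]; linarith
  exact min_eq_left (h1.trans (le_max_right _ _))

/-- the weight -/
noncomputable def vv (D : ℝ → ℝ) (M S θ t : ℝ) : ℝ := cut M S (D t) * Real.exp (-(θ * max t 0))

lemma exp_neg_lip {a b : ℝ} (ha : 0 ≤ a) (hb : 0 ≤ b) : |Real.exp (-a) - Real.exp (-b)| ≤ |a - b| := by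
  have key : ∀ a b : ℝ, 0 ≤ a → a ≤ b → |Real.exp (-a) - Real.exp (-b)| ≤ b - a := by
    intro a b ha hab
    have h1 : Real.exp (-b) ≤ Real.exp (-a) := Real.exp_le_exp.2 (by linarith)
    rw [abs_of_nonneg (by linarith)]
    have h2 : Real.exp (-b) = Real.exp (-a) * Real.exp (-(b - a)) := by
      rw [← Real.exp_add]; congr 1; ring
    have h3 := Real.add_one_le_exp (-(b - a))
    have h4 : Real.exp (-a) ≤ 1 := Real.exp_le_one_iff.2 (by linarith)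
    have h5 := Real.exp_pos (-a)
    rw [h2]
    nlinarith
  rcases le_total a b with h | h
  · rw [abs_of_nonpos (by linarith : a - b ≤ 0)]
    have := key a b ha h
    linarith
  · rw [abs_sub_comm, abs_of_nonneg (by linarith : 0 ≤ a - b)]
    exact key b a hb h

lemma vv_nonneg (D : ℝ → ℝ) (M S θ t : ℝ) : 0 ≤ vv D M S θ t :=
  mul_nonneg (cut_nonneg _ _ _) (Real.exp_pos _).le

lemma vv_le_one {D : ℝ → ℝ} {M S θ t : ℝ} (hθ : 0 ≤ θ) : vv D M S θ t ≤ 1 := by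
  unfold vv
  have h1 := cut_le_one M S (D t)
  have h2 := cut_nonneg M S (D t)
  have h3 : Real.exp (-(θ * max t 0)) ≤ 1 := by
    apply Real.exp_le_one_iff.2
    have : 0 ≤ θ * max t 0 := mul_nonneg hθ (le_max_right _ _)
    linarith
  have h4 := Real.exp_pos (-(θ * max t 0))
  nlinarith

lemma vv_lip {D : ℝ → ℝ} {M S θ : ℝ} (hD : ∀ s t, |D s - D t| ≤ |s - t|) (hS : 0 < S) (hθ : 0 ≤ θ) (s t : ℝ) :
    |vv D M S θ s - vv D M S θ t| ≤ (1 / S + θ) * |s - t| := by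
  unfold vv
  set a := cut M S (D s)
  set a' := cut M S (D t)
  set e := Real.exp (-(θ * max s 0))
  set e' := Real.exp (-(θ * max t 0))
  have h1 : a * e - a' * e' = (a - a') * e + a' * (e - e') := by ring
  have ha : |a - a'| ≤ 1 / S * |s - t| := by
    refine (cut_lip hS _ _).trans ?_
    apply mul_le_mul_of_nonneg_left (hD s t)
    positivity
  have he : |e - e'| ≤ θ * |s - t| := by
    refine (exp_neg_lip (mul_nonneg hθ (le_max_right _ _)) (mul_nonneg hθ (le_max_right _ _))).trans ?_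
    rw [← mul_sub, abs_mul, abs_of_nonneg hθ]
    apply mul_le_mul_of_nonneg_left _ hθ
    refine (abs_max_sub_max_le_max _ _ _ _).trans (max_le le_rfl ?_)
    rw [sub_self, abs_zero]
    exact abs_nonneg _
  have he1 : |e| ≤ 1 := by
    rw [abs_of_pos (Real.exp_pos _)]
    apply Real.exp_le_one_iff.2
    have : 0 ≤ θ * max s 0 := mul_nonneg hθ (le_max_right _ _)
    linarith
  have ha1 : |a'| ≤ 1 := by
    rw [abs_of_nonneg (cut_nonneg _ _ _)]
    exact cut_le_one _ _ _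
  rw [h1]
  refine (abs_add_le _ _).trans ?_
  rw [abs_mul, abs_mul]
  calc |a - a'| * |e| + |a'| * |e - e'| ≤ (1 / S * |s - t|) * 1 + 1 * (θ * |s - t|) := by
        gcongr
    _ = _ := by ring

/-- the weights of the zeros -/
noncomputable def wz (D : ℝ → ℝ) (M S θ lam γ : ℝ) : ℂ :=
  aa γ * cexp (((lam * γ : ℝ) : ℂ) * I) * ((vv D M S θ γ : ℝ) : ℂ)

lemma norm_wz_le {D : ℝ → ℝ} {M S θ lam γ : ℝ} (hθ : 0 ≤ θ) : ‖wz D M S θ lam γ‖ ≤ ‖aa γ‖ := by
  unfold wz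
  rw [norm_mul, norm_mul, Complex.norm_exp_ofReal_mul_I, mul_one, Complex.norm_real, Real.norm_eq_abs,
    abs_of_nonneg (vv_nonneg _ _ _ _ _)]
  have := vv_le_one (D := D) (M := M) (S := S) (t := γ) hθ
  have := norm_nonneg (aa γ)
  nlinarith

/-- pointwise bound for the sums -/
lemma nn_pt {F : Finset ℝ} {D : ℝ → ℝ} {M S θ lam h H Λ q x t : ℝ}
    (hD : ∀ s t, |D s - D t| ≤ |s - t|) (hS : 0 < S) (hθ : 0 ≤ θ) (hΛ : 1 / S + θ ≤ Λ) (hx : 0 ≤ x)
    (hq : 0 ≤ q) (hH : 0 < H)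
    (hgood : M < D t → ∃ F' : Finset ℝ, F' ⊆ F ∧ (∀ γ ∈ F, γ ∉ F' → gs (h ^ 2) (γ - t) ≤ q * gs (2 * H ^ 2) (γ - t)) ∧
      ‖∑ γ ∈ F', aa γ * cexp (((lam * γ : ℝ) : ℂ) * I) * ((gs (h ^ 2) (γ - t) : ℝ) : ℂ)‖ ≤ x) :
    ‖NN F (wz D M S θ lam) (h ^ 2) t‖ ≤ (if M < D t then x else 0) +
      (q * ∑ γ ∈ F, ‖aa γ‖ * gs (2 * H ^ 2) (γ - t) + Λ * ∑ γ ∈ F, ‖aa γ‖ * (|γ - t| * gs (h ^ 2) (γ - t))) := by
  classical
  have e1 : NN F (wz D M S θ lam) (h ^ 2) t = ((vv D M S θ t : ℝ) : ℂ) *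
      (∑ γ ∈ F, aa γ * cexp (((lam * γ : ℝ) : ℂ) * I) * ((gs (h ^ 2) (γ - t) : ℝ) : ℂ)) +
      ∑ γ ∈ F, aa γ * cexp (((lam * γ : ℝ) : ℂ) * I) * ((vv D M S θ γ - vv D M S θ t : ℝ) : ℂ) *
        ((gs (h ^ 2) (γ - t) : ℝ) : ℂ) := by
    unfold NN wz
    rw [Finset.mul_sum, ← Finset.sum_add_distrib]
    refine Finset.sum_congr rfl fun γ _ => ?_
    push_cast
    ring
  have h2 : ‖∑ γ ∈ F, aa γ * cexp (((lam * γ : ℝ) : ℂ) * I) * ((vv D M S θ γ - vv D M S θ t : ℝ) : ℂ) *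
        ((gs (h ^ 2) (γ - t) : ℝ) : ℂ)‖ ≤ Λ * ∑ γ ∈ F, ‖aa γ‖ * (|γ - t| * gs (h ^ 2) (γ - t)) := by
    rw [Finset.mul_sum]
    refine (norm_sum_le _ _).trans (Finset.sum_le_sum fun γ _ => ?_)
    rw [norm_mul, norm_mul, norm_mul, Complex.norm_exp_ofReal_mul_I, mul_one, Complex.norm_real,
      Complex.norm_real, Real.norm_eq_abs, Real.norm_eq_abs, abs_of_pos (gs_pos _ _)]
    have h3 := (vv_lip (M := M) hD hS hθ γ t).trans (mul_le_mul_of_nonneg_right hΛ (abs_nonneg _))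
    have h4 := gs_pos (h ^ 2) (γ - t)
    calc ‖aa γ‖ * |vv D M S θ γ - vv D M S θ t| * gs (h ^ 2) (γ - t) ≤
          ‖aa γ‖ * (Λ * |γ - t|) * gs (h ^ 2) (γ - t) := by gcongr
      _ = _ := by ring
  have hfar0 : 0 ≤ q * ∑ γ ∈ F, ‖aa γ‖ * gs (2 * H ^ 2) (γ - t) := by
    apply mul_nonneg hq
    exact Finset.sum_nonneg fun γ _ => mul_nonneg (norm_nonneg _) (gs_pos _ _).le
  have h1 : ‖((vv D M S θ t : ℝ) : ℂ) *
      (∑ γ ∈ F, aa γ * cexp (((lam * γ : ℝ) : ℂ) * I) * ((gs (h ^ 2) (γ - t) : ℝ) : ℂ))‖ ≤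
      (if M < D t then x else 0) + q * ∑ γ ∈ F, ‖aa γ‖ * gs (2 * H ^ 2) (γ - t) := by
    split_ifs with hM
    · obtain ⟨F', hF', hfar, hx'⟩ := hgood hM
      rw [norm_mul, Complex.norm_real, Real.norm_eq_abs, abs_of_nonneg (vv_nonneg _ _ _ _ _)]
      have h3 : ‖∑ γ ∈ F, aa γ * cexp (((lam * γ : ℝ) : ℂ) * I) * ((gs (h ^ 2) (γ - t) : ℝ) : ℂ)‖ ≤
          x + q * ∑ γ ∈ F, ‖aa γ‖ * gs (2 * H ^ 2) (γ - t) := by
        rw [← Finset.sum_sdiff hF', add_comm]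
        refine (norm_add_le _ _).trans (add_le_add hx' ?_)
        refine (norm_sum_le _ _).trans ?_
        rw [Finset.mul_sum]
        calc ∑ γ ∈ F \ F', ‖aa γ * cexp (((lam * γ : ℝ) : ℂ) * I) * ((gs (h ^ 2) (γ - t) : ℝ) : ℂ)‖
            ≤ ∑ γ ∈ F \ F', q * (‖aa γ‖ * gs (2 * H ^ 2) (γ - t)) := by
              refine Finset.sum_le_sum fun γ hγ => ?_
              rw [Finset.mem_sdiff] at hγ
              rw [norm_mul, norm_mul, Complex.norm_exp_ofReal_mul_I, mul_one, Complex.norm_real,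
                Real.norm_eq_abs, abs_of_pos (gs_pos _ _)]
              calc ‖aa γ‖ * gs (h ^ 2) (γ - t) ≤ ‖aa γ‖ * (q * gs (2 * H ^ 2) (γ - t)) :=
                    mul_le_mul_of_nonneg_left (hfar γ hγ.1 hγ.2) (norm_nonneg _)
                _ = _ := by ring
          _ ≤ ∑ γ ∈ F, q * (‖aa γ‖ * gs (2 * H ^ 2) (γ - t)) := by
              apply Finset.sum_le_sum_of_subset_of_nonneg Finset.sdiff_subset
              intro γ _ _
              exact mul_nonneg hq (mul_nonneg (norm_nonneg _) (gs_pos _ _).le)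
      have h4 := vv_le_one (D := D) (M := M) (S := S) (t := t) hθ
      have h5 := vv_nonneg D M S θ t
      have h6 := norm_nonneg (∑ γ ∈ F, aa γ * cexp (((lam * γ : ℝ) : ℂ) * I) *
        ((gs (h ^ 2) (γ - t) : ℝ) : ℂ))
      nlinarith
    · have h3 : vv D M S θ t = 0 := by
        unfold vv
        rw [cut_zero hS (by linarith : D t ≤ M), zero_mul]
      rw [h3]
      simp only [Complex.ofReal_zero, zero_mul, norm_zero]
      linarith
  rw [e1]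
  refine (norm_add_le _ _).trans ?_
  linarith

end Pool.Agent.N806.AH
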