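import Pool.Agent.N806.AH.Fac
import Pool.Agent.N806.AH.Sep

/-! Local estimates for `1/ζ` on RH. -/

set_option autoImplicit false

open Complex Filter Topology Set MeasureTheory Metric

namespace Pool.Agent.N806.AH

open H370 H370.Loc H345

lemma re_half (hRH : RiemannHypothesis) {s : ℂ} (h : riemannZeta s = 0) (him : 0 < s.im) :
    s.re = 1 / 2 := by
  apply hRH s h
  · rintro ⟨n, hn⟩
    rw [hn] at him
    simp at him
  · intro h1
    rw [h1] at him
    simp at him

lemma eq_half {s : ℂ} (h : s.re = 1 / 2) : s = 1 / 2 + (s.im : ℂ) * I := by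
  apply Complex.ext
  · simp [h]
  · simp

lemma mem_Zo (hRH : RiemannHypothesis) {s : ℂ} (h : riemannZeta s = 0) (him : 0 < s.im) :
    s.im ∈ Zo := by
  show riemannZeta _ = 0
  rw [← eq_half (re_half hRH h him)]
  exact h

lemma norm_le_of_sq {z : ℂ} {r : ℝ} (hr : 0 ≤ r) (h : z.re ^ 2 + z.im ^ 2 ≤ r ^ 2) : ‖z‖ ≤ r := by
  apply abs_le_of_sq_le_sq' _ hr |>.2
  rw [← Complex.normSq_eq_norm_sq, Complex.normSq_apply]
  nlinarith

lemma in_ball {σ u t r : ℝ} (hr : 0 ≤ r) (h : (σ - 2) ^ 2 + (u - t) ^ 2 ≤ r ^ 2) :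
    (⟨σ, u⟩ : ℂ) ∈ closedBall (⟨2, t⟩ : ℂ) r := by
  rw [mem_closedBall, dist_eq_norm]
  exact norm_le_of_sq hr (by simpa using h)

lemma ball_im {z : ℂ} {t r : ℝ} (h : z ∈ closedBall (⟨2, t⟩ : ℂ) r) : |z.im - t| ≤ r := by
  rw [mem_closedBall, dist_eq_norm] at h
  have h1 := (Complex.abs_im_le_norm (z - ⟨2, t⟩)).trans h
  simpa using h1

/-- crude upper bound for `1/ζ` -/
theorem crude (hRH : RiemannHypothesis) : ∃ C : ℝ, 1 ≤ C ∧ ∀ t : ℝ, 3 ≤ t → ∀ σ δ : ℝ,
    1 / 2 ≤ σ → σ ≤ 2 → 0 < δ → δ ≤ 1 →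
    (∀ γ ∈ Zo, |γ - t| ≤ 1 → δ ≤ ‖(⟨σ, t⟩ : ℂ) - (1 / 2 + (γ : ℂ) * I)‖) →
    riemannZeta ⟨σ, t⟩ ≠ 0 ∧
    ‖(riemannZeta ⟨σ, t⟩)⁻¹‖ ≤ Real.exp (C * Real.log t * (1 + Real.log (1 / δ))) := by
  obtain ⟨C, hC, hfac⟩ := fac
  refine ⟨4 * C, by linarith, fun t ht σ δ h1 h2 hδ hδ1 hdist => ?_⟩
  obtain ⟨s, g, hs, hfg, hg, hg0, hcard, hlg⟩ := hfac t ht
  have hlt : 1 ≤ Real.log t := one_le_log ht
  set z : ℂ := ⟨σ, t⟩ with hz
  set c : ℂ := ⟨2, t⟩ with hc
  have hzb : z ∈ closedBall c 1.7 := in_ball (by norm_num) (by nlinarith)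
  have hcb : c ∈ closedBall c 1.7 := mem_closedBall_self (by norm_num)
  have h17 : closedBall c 1.7 ⊆ closedBall c 1.8 := closedBall_subset_closedBall (by norm_num)
  have hg17 : AnalyticOnNhd ℂ g (closedBall c 1.7) :=
    hg.mono (closedBall_subset_closedBall (by norm_num))
  have hzc : ‖c - z‖ ≤ 1.5 := norm_le_of_sq (by norm_num) (by simp [hc, hz]; nlinarith)
  -- zeros in the multiset
  have hρ : ∀ ρ ∈ s, δ ≤ ‖z - ρ‖ := by
    intro ρ hρ
    obtain ⟨a1, a2⟩ := hs ρ hρ
    have him := ball_im a1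
    have him' : 0 < ρ.im := by
      have := abs_le.1 him
      have h3 : (1.8 : ℝ) < 3 := by norm_num
      linarith [this.1]
    have hre := re_half hRH a2 him'
    by_cases hw : |ρ.im - t| ≤ 1
    · have := hdist ρ.im (mem_Zo hRH a2 him') hw
      rwa [← eq_half hre] at this
    · push Not at hw
      have h3 := Complex.abs_im_le_norm (z - ρ)
      simp only [sub_im, hz] at h3
      rw [abs_sub_comm] at h3
      linarith
  have hcardnn : (0 : ℝ) ≤ Multiset.card s := by positivity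
  -- lower bound of the product
  have hP : δ ^ (Multiset.card s) ≤ ‖Pf s z‖ := Pf_norm_ge hδ.le hρ
  have hPpos : 0 < ‖Pf s z‖ := lt_of_lt_of_le (by positivity) hP
  -- lower bound of g
  have hgc : (1 / 3 : ℝ) ≤ ‖g c‖ * 1.8 ^ (Multiset.card s) := by
    have h3 : ‖Pf s c‖ ≤ 1.8 ^ (Multiset.card s) := Pf_norm_le fun ρ hρ => by
      have := (hs ρ hρ).1
      rw [mem_closedBall, dist_eq_norm, norm_sub_rev] at this
      exact this
    have h4 := Chi.zeta_two_lower t
    have h5 : (2 + (t : ℂ) * I) = c := by apply Complex.ext <;> simp [hc]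
    rw [h5, hfg c, norm_mul, mul_comm] at h4
    exact h4.trans (mul_le_mul_of_nonneg_left h3 (norm_nonneg _))
  have hgl := glip hg17 (fun z hz => hg0 z (h17 hz)) hlg hcb hzb
  have hgz : 0 < ‖g z‖ := norm_pos_iff.2 (hg0 z (h17 hzb))
  have hne : riemannZeta z ≠ 0 := by
    rw [hfg z]
    exact mul_ne_zero (norm_pos_iff.1 hPpos) (norm_pos_iff.1 hgz)
  refine ⟨hne, ?_⟩
  have hlow : Real.exp (-(4 * C * Real.log t * (1 + Real.log (1 / δ)))) ≤ ‖riemannZeta z‖ := by
    rw [hfg z, norm_mul]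
    have hlδ : 0 ≤ Real.log (1 / δ) := Real.log_nonneg (by rw [le_div_iff₀ hδ]; linarith)
    have e1 : Real.exp (-(C * Real.log t * Real.log (1 / δ))) ≤ ‖Pf s z‖ := by
      refine le_trans ?_ hP
      rw [← Real.exp_log (show 0 < δ ^ Multiset.card s by positivity), Real.log_pow]
      apply Real.exp_le_exp.2
      have : Real.log (1 / δ) = - Real.log δ := by rw [one_div, Real.log_inv]
      rw [this] at hlδ ⊢
      nlinarith
    have e2 : Real.exp (-(4 * C * Real.log t)) ≤ ‖g z‖ := by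
      have h6 : Real.exp (C * Real.log t * ‖c - z‖) ≤ Real.exp (1.5 * (C * Real.log t)) := by
        apply Real.exp_le_exp.2
        have : 0 ≤ C * Real.log t := by positivity
        nlinarith
      have h7 : (1.8 : ℝ) ^ (Multiset.card s) ≤ Real.exp (0.6 * (C * Real.log t)) := by
        have h8 : (1.8 : ℝ) ≤ Real.exp 0.6 := by
          have := Real.quadratic_le_exp_of_nonneg (show (0 : ℝ) ≤ 0.6 by norm_num)
          have h9 := Real.add_one_le_exp (0.6 : ℝ)
          have h10 : Real.exp 0.6 = Real.exp 0.3 * Real.exp 0.3 := by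
            rw [← Real.exp_add]; norm_num
          have h11 := Real.quadratic_le_exp_of_nonneg (show (0 : ℝ) ≤ 0.3 by norm_num)
          rw [h10]
          nlinarith
        calc (1.8 : ℝ) ^ (Multiset.card s) ≤ (Real.exp 0.6) ^ (Multiset.card s) := by gcongr
          _ = Real.exp (Multiset.card s * 0.6) := by rw [Real.exp_nat_mul]
          _ ≤ _ := by
            apply Real.exp_le_exp.2
            nlinarith
      have h8 : (1 / 3 : ℝ) ≤ ‖g z‖ * (Real.exp (1.5 * (C * Real.log t)) *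
          Real.exp (0.6 * (C * Real.log t))) := by
        calc (1 / 3 : ℝ) ≤ ‖g c‖ * 1.8 ^ (Multiset.card s) := hgc
          _ ≤ (‖g z‖ * Real.exp (C * Real.log t * ‖c - z‖)) * Real.exp (0.6 * (C * Real.log t)) := by
              gcongr
          _ ≤ (‖g z‖ * Real.exp (1.5 * (C * Real.log t))) * Real.exp (0.6 * (C * Real.log t)) := by
              gcongr
          _ = _ := by ring
      rw [← Real.exp_add] at h8
      have h9 : Real.exp (-(4 * C * Real.log t)) * Real.exp (1.5 * (C * Real.log t) +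
          0.6 * (C * Real.log t)) ≤ 1 / 3 := by
        rw [← Real.exp_add]
        have h10 : -(4 * C * Real.log t) + (1.5 * (C * Real.log t) + 0.6 * (C * Real.log t)) ≤ -1.9 := by
          have : 1 ≤ C * Real.log t := by nlinarith
          nlinarith
        refine (Real.exp_le_exp.2 h10).trans ?_
        have h11 : (3 : ℝ) ≤ Real.exp 1.9 := by
          have := Real.quadratic_le_exp_of_nonneg (show (0 : ℝ) ≤ 1.9 by norm_num)
          nlinarith
        rw [Real.exp_neg, one_div]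
        exact inv_anti₀ (by norm_num) h11
      have h12 : 0 < Real.exp (1.5 * (C * Real.log t) + 0.6 * (C * Real.log t)) := Real.exp_pos _
      by_contra hcon
      push Not at hcon
      have := mul_lt_mul_of_pos_right hcon h12
      linarith
    have e3 : Real.exp (-(4 * C * Real.log t * (1 + Real.log (1 / δ)))) ≤
        Real.exp (-(C * Real.log t * Real.log (1 / δ))) * Real.exp (-(4 * C * Real.log t)) := by
      rw [← Real.exp_add]
      apply Real.exp_le_exp.2
      have : 0 ≤ C * Real.log t * Real.log (1 / δ) := by positivity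
      nlinarith
    exact e3.trans (mul_le_mul e1 e2 (Real.exp_pos _).le (norm_nonneg _))
  rw [norm_inv]
  have h13 := inv_anti₀ (Real.exp_pos _) hlow
  rwa [← Real.exp_neg, neg_neg] at h13

end Pool.Agent.N806.AH
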