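import Pool.Agent.N806.AH.PCb
import Pool.Agent.N806.AH.Abs

/-! The resonance integral is large. -/

set_option autoImplicit false

open Complex Filter Topology Set MeasureTheory Metric

namespace Pool.Agent.N806.AH

open H345 H345.Chi Pool.Agent.H640R3.EG Pool.Agent.H810R2.CSd

/-- the horizontal sides -/
lemma pc_hor (hRH : RiemannHypothesis) {y : ℝ} {ℓ : ℕ} {Cr : ℝ} (hCr : 1 ≤ Cr)
    {H : ℝ} (hH : 1 ≤ H) : ∃ K C : ℝ, 1 ≤ K ∧ 1 ≤ C ∧
    ∀ c : ℂ, ‖c‖ = 1 → ∀ b : ℝ, 0 ≤ b → b ≤ 1 → ∀ L t0 v d W : ℝ, 1 ≤ L → Real.log (2 * Cr) ≤ L →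
    t0 ≤ Cr * Real.exp L → 3 ≤ v → v ≤ 2 * t0 → K * L ≤ W → W ≤ |v - t0| →
    1 / (8 * L) ≤ d → d ≤ 1 → (∀ γ ∈ Zo, d / 4 ≤ |γ - v|) → ∀ σ : ℝ, -1 ≤ σ → σ ≤ 2 →
    ‖wg H t0 ⟨σ, v⟩ * mt y b ℓ ⟨σ, v⟩ * Wf y c ⟨σ, v⟩ * (riemannZeta ⟨σ, v⟩)⁻¹‖ ≤ C * Real.exp (-L) := by
  obtain ⟨C1, hC1, hW⟩ := W_bound y
  obtain ⟨C2, hC2, hz⟩ := hor_zeta hRH
  obtain ⟨KX, hKX, hX⟩ := norm_XX_le
  set A : ℝ := Real.exp (9 / 4) * Real.exp KX * Real.exp (2 * |Real.log (y * ℓ)| + 1) * (2 * C1) * (2 * Cr) ^ 5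
    with hA
  have hA0 : 0 ≤ A := by positivity
  refine ⟨H * (66 * C2 + 20), A + 1, by nlinarith, by linarith,
    fun c hc b hb hb1 L t0 v d W hL hLC ht0 hv hv2 hKW hWv hd hd1 hdist σ hσ1 hσ2 => ?_⟩
  have hL0 : 0 < L := by linarith
  have hH0 : 0 < H := by linarith
  have hd0 : 0 < d := lt_of_lt_of_le (by positivity) hd
  have hv0 : 0 < v := by linarith
  have hv1 : v ≤ 2 * Cr * Real.exp L := by linarith
  have hvL : Real.log v ≤ 2 * L := by
    calc Real.log v ≤ Real.log (2 * Cr * Real.exp L) := Real.log_le_log hv0 hv1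
      _ = Real.log (2 * Cr) + L := by
          rw [Real.log_mul (by positivity) (Real.exp_pos _).ne', Real.log_exp]
      _ ≤ 2 * L := by linarith
  have hlv : 0 ≤ Real.log v := Real.log_nonneg (by linarith)
  have hlδ : Real.log (1 / (d / 4)) ≤ 32 * L := by
    have h1 : 1 / (d / 4) ≤ 32 * L := by
      rw [div_le_iff₀ (by positivity)]
      rw [div_le_iff₀ (by positivity)] at hd
      linarith
    calc Real.log (1 / (d / 4)) ≤ 1 / (d / 4) - 1 := Real.log_le_sub_one_of_pos (by positivity)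
      _ ≤ _ := by linarith
  have hlδ0 : 0 ≤ Real.log (1 / (d / 4)) := Real.log_nonneg (by rw [le_div_iff₀ (by positivity)]; linarith)
  have h1 := hz v hv σ (d / 4) hσ1 hσ2 (by positivity) (by linarith) hdist
  have h1' : ‖(riemannZeta ⟨σ, v⟩)⁻¹‖ ≤ Real.exp (66 * C2 * L ^ 2) := by
    refine h1.trans (Real.exp_le_exp.2 ?_)
    have h0 : C2 * L ≤ C2 * L ^ 2 := by
      have : L ≤ L ^ 2 := by nlinarith
      nlinarith
    calc C2 * Real.log v * (1 + Real.log (1 / (d / 4))) ≤ C2 * (2 * L) * (1 + 32 * L) := by gcongr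
      _ = 2 * (C2 * L) + 64 * C2 * L ^ 2 := by ring
      _ ≤ _ := by linarith
  have h2 := (hW c hc σ v hσ1 hσ2 (by linarith)).2
  have h3 := hX σ v hσ1 hσ2 (by linarith)
  have h3' : ‖XX ⟨σ, v⟩‖ ≤ Real.exp KX * v ^ 2 := by
    refine h3.trans ?_
    gcongr
    rw [← Real.rpow_natCast]
    apply Real.rpow_le_rpow_of_exponent_le (by linarith)
    push_cast
    linarith
  have h4 : Real.exp (-((Real.log (y * ℓ) + pb b) * σ) - Real.arctan b * v) ≤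
      Real.exp (2 * |Real.log (y * ℓ)| + 1) := by
    apply Real.exp_le_exp.2
    have h5 := pb_le b
    have h6 := pb_nonneg b
    have h7 := mul_nonneg (arctan_nonneg' hb) hv0.le
    have h8 : -((Real.log (y * ℓ) + pb b) * σ) ≤ |Real.log (y * ℓ) + pb b| * 2 := by
      calc -((Real.log (y * ℓ) + pb b) * σ) ≤ |(Real.log (y * ℓ) + pb b) * σ| := neg_le_abs _
        _ = |Real.log (y * ℓ) + pb b| * |σ| := abs_mul _ _
        _ ≤ _ := by
          gcongr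
          rw [abs_le]
          constructor <;> linarith
    have h9 : |Real.log (y * ℓ) + pb b| ≤ |Real.log (y * ℓ)| + 1 / 2 := by
      refine (abs_add_le _ _).trans ?_
      rw [abs_of_nonneg h6]
      nlinarith
    linarith
  have h5 := norm_wg_le hH hσ1 hσ2 t0 v
  have h6 : Real.exp (-(1 / H ^ 2) * (v - t0) ^ 2) ≤ Real.exp (-((66 * C2 + 20) * L ^ 2)) := by
    apply Real.exp_le_exp.2
    have h7 : W ^ 2 ≤ (v - t0) ^ 2 := by
      rw [← sq_abs (v - t0)]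
      have : 0 ≤ W := le_trans (by positivity) hKW
      gcongr
    have h8 : (H * (66 * C2 + 20) * L) ^ 2 ≤ (v - t0) ^ 2 := by
      refine le_trans ?_ h7
      gcongr
    have h9 : (66 * C2 + 20) * L ^ 2 ≤ (v - t0) ^ 2 / H ^ 2 := by
      rw [le_div_iff₀ (by positivity)]
      have h10 : (66 * C2 + 20) ≤ (66 * C2 + 20) ^ 2 := by nlinarith
      calc (66 * C2 + 20) * L ^ 2 * H ^ 2 ≤ (66 * C2 + 20) ^ 2 * L ^ 2 * H ^ 2 := by gcongr
        _ = (H * (66 * C2 + 20) * L) ^ 2 := by ring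
        _ ≤ _ := h8
    have h11 : -(1 / H ^ 2) * (v - t0) ^ 2 = -((v - t0) ^ 2 / H ^ 2) := by ring
    rw [h11]
    linarith
  rw [norm_mul, norm_mul, norm_mul, norm_mt]
  calc _ ≤ (Real.exp (9 / 4) * Real.exp (-((66 * C2 + 20) * L ^ 2))) *
        ((Real.exp KX * v ^ 2) * Real.exp (2 * |Real.log (y * ℓ)| + 1)) * (2 * C1 * v ^ 3) *
        Real.exp (66 * C2 * L ^ 2) := by
        gcongr
        exact h5.trans (by gcongr)
    _ = Real.exp (9 / 4) * Real.exp KX * Real.exp (2 * |Real.log (y * ℓ)| + 1) * (2 * C1) * v ^ 5 *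
        (Real.exp (-((66 * C2 + 20) * L ^ 2)) * Real.exp (66 * C2 * L ^ 2)) := by ring
    _ ≤ Real.exp (9 / 4) * Real.exp KX * Real.exp (2 * |Real.log (y * ℓ)| + 1) * (2 * C1) *
        (2 * Cr * Real.exp L) ^ 5 *
        (Real.exp (-((66 * C2 + 20) * L ^ 2)) * Real.exp (66 * C2 * L ^ 2)) := by gcongr
    _ = A * (Real.exp (5 * L) * (Real.exp (-((66 * C2 + 20) * L ^ 2)) * Real.exp (66 * C2 * L ^ 2))) := by
        rw [hA, show (5 : ℝ) * L = ((5 : ℕ) : ℝ) * L by norm_num, Real.exp_nat_mul]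
        ring
    _ ≤ A * Real.exp (-L) := by
        gcongr
        rw [← Real.exp_add, ← Real.exp_add]
        apply Real.exp_le_exp.2
        nlinarith
    _ ≤ _ := by
        have := Real.exp_pos (-L)
        nlinarith

theorem pstep (hRH : RiemannHypothesis) {y : ℝ} (hy : 0 < y) {Cr : ℝ} (hCr : 1 ≤ Cr) {ℓ : ℕ} (hℓ : 1 ≤ ℓ)
    (hsq : Squarefree ℓ) {H : ℝ} (hH : 4 ≤ H) : ∃ K C L0 : ℝ, 1 ≤ K ∧ 1 ≤ C ∧ 1 ≤ L0 ∧
    ∀ L : ℝ, L0 ≤ L → ∀ b : ℝ, 0 ≤ b → b ≤ Real.exp (-L) → ∀ t0 d ε : ℝ, Real.exp L ≤ t0 →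
    t0 ≤ Cr * Real.exp L → 1 / (8 * L) ≤ d → d ≤ 1 → 0 ≤ ε → LH y t0 (K * L) d ε →
    Real.exp (-(Real.log y / 2)) * ((H * Real.sqrt Real.pi) * Real.exp (-(Real.arctan b * t0)) * (ℓ : ℝ)⁻¹ *
      (1 - 3 * EE ℓ H)) ≤ ‖Rint y b ℓ H t0‖ + 2 * Real.pi * (Real.exp (-(Real.log (y * ℓ) / 2)) * ε *
      ∑ γ ∈ ZF (t0 - K * L) (t0 + K * L), |γ - t0| * Real.exp (-(1 / H ^ 2) * (γ - t0) ^ 2) * ‖aa γ‖) +
      C * Real.exp (-L) := by
  have hH1 : 1 ≤ H := by linarith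
  obtain ⟨C1, hC1, hR⟩ := pc_right hy hℓ hH1 hCr
  obtain ⟨C2, hC2, hLf⟩ := pc_left hy hℓ hH1
  obtain ⟨K1, C3, hK1, hC3, hHr⟩ := pc_hor hRH (y := y) (ℓ := ℓ) hCr hH1
  obtain ⟨b0, hb0, hb01, hJ⟩ := jint_lower hℓ hsq hH
  set K : ℝ := K1 + 4 * H with hK
  obtain ⟨L2, hL2⟩ : ∃ L2 : ℝ, ∀ L : ℝ, L2 ≤ L → K * L + 4 ≤ Real.exp L / 2 := by
    have h1 := (Real.tendsto_exp_div_pow_atTop 1).eventually_ge_atTop (2 * (K + 4))
    obtain ⟨x, hx⟩ := (h1.and (eventually_ge_atTop 1)).exists_forall_of_atTop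
    refine ⟨x, fun L hL => ?_⟩
    obtain ⟨h2, h3⟩ := hx L hL
    rw [pow_one, le_div_iff₀ (by linarith)] at h2
    nlinarith
  refine ⟨K + 3, 6 * C3 + C1 + C2 + 1, max (max L2 (Real.log (1 / b0))) (Real.log (2 * Cr) + 2), by linarith,
    by linarith, by
      have h1 : 0 ≤ Real.log (2 * Cr) := Real.log_nonneg (by linarith)
      have h2 := le_max_right (max L2 (Real.log (1 / b0))) (Real.log (2 * Cr) + 2)
      linarith, fun L hL b hb hbL t0 d ε ht0 ht1 hd hd1 hε hLH => ?_⟩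
  have hLL2 : L2 ≤ L := ((le_max_left _ _).trans (le_max_left _ _)).trans hL
  have hLb : Real.log (1 / b0) ≤ L := ((le_max_right _ _).trans (le_max_left _ _)).trans hL
  have hLC : Real.log (2 * Cr) + 2 ≤ L := (le_max_right _ _).trans hL
  have hlog0 : 0 ≤ Real.log (2 * Cr) := Real.log_nonneg (by linarith)
  have hL2' : 2 ≤ L := by linarith
  have hL0 : 0 < L := by linarith
  have hbb0 : b ≤ b0 := by
    refine hbL.trans ?_
    rw [Real.exp_neg]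
    rw [one_div, Real.log_inv] at hLb
    have h1 : Real.exp (-Real.log b0) ≤ Real.exp L := Real.exp_le_exp.2 hLb
    rw [Real.exp_neg, Real.exp_log hb0] at h1
    have := inv_anti₀ (by positivity) h1
    rwa [inv_inv] at this
  have hb1 : b ≤ 1 := hbb0.trans hb01
  set W : ℝ := K * L with hW
  have hWexp : W + 4 ≤ Real.exp L / 2 := hL2 L hLL2
  have hr : W + 3 ≤ (K + 3) * L := by nlinarith
  have hLH' := hLH.mono hr
  have hexp : 0 < Real.exp L := Real.exp_pos _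
  have hWpos : 1 ≤ W := by nlinarith
  have hd0 : 0 < d := lt_of_lt_of_le (by positivity) hd
  -- heights
  obtain ⟨y2, hy2, hy2d⟩ := good_pt (a := t0 + W) hd0 hd1 (by
    intro γ hγ γ' hγ' h1 h2 h3 h4 hne
    refine hLH'.sp γ hγ γ' hγ' ?_ ?_ hne
    · rw [abs_le]; constructor <;> linarith
    · rw [abs_le]; constructor <;> linarith)
  obtain ⟨y1, hy1, hy1d⟩ := good_pt (a := t0 - W - 1) hd0 hd1 (by
    intro γ hγ γ' hγ' h1 h2 h3 h4 hne
    refine hLH'.sp γ hγ γ' hγ' ?_ ?_ hne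
    · rw [abs_le]; constructor <;> linarith
    · rw [abs_le]; constructor <;> linarith)
  obtain ⟨hy1a, hy1b⟩ := hy1
  obtain ⟨hy2a, hy2b⟩ := hy2
  have hy1b' : y1 ≤ t0 - W := by linarith
  have hy1z : y1 ∉ Zo := fun h => by
    have := hy1d y1 h
    rw [sub_self, abs_zero] at this
    linarith
  have hy2z : y2 ∉ Zo := fun h => by
    have := hy2d y2 h
    rw [sub_self, abs_zero] at this
    linarith
  have hy1e : Real.exp L / 2 ≤ y1 := by linarith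
  have hexp2 : 10 ≤ Real.exp L := by linarith
  have hy13 : 3 ≤ y1 := by linarith
  have hy12 : y1 < y2 := by linarith
  obtain ⟨c, hc, hlat⟩ := hLH'.lat
  set Φ : ℂ → ℂ := fun z => wg H t0 z * mt y b ℓ z * Wf y c z with hΦ
  have hmtd : ∀ z : ℂ, z.im ≠ 0 → DifferentiableAt ℂ (mt y b ℓ) z := by
    intro z hz
    unfold mt
    apply (XX_diff hz).mul
    fun_prop
  have hrect := rect_zeta hRH (x0 := -1) (x1 := 2) (y1 := y1) (y2 := y2) (by norm_num) (by norm_num)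
    (by linarith) hy12 hy1z hy2z (by
      intro γ hγ h1 h2
      exact hLH'.sim γ hγ (by rw [abs_le]; constructor <;> linarith)) (Φ := Φ) (by
      intro z h1 h2
      have him : z.im ≠ 0 := by have := h2.1; intro h; linarith
      exact ((wg_diff H t0 z).mul (hmtd z him)).mul (Wf_diff y c him))
  have hCL : 0 < Real.exp (-L) := Real.exp_pos _
  have hhor : ∀ v : ℝ, (∀ γ ∈ Zo, d / 4 ≤ |γ - v|) → 3 ≤ v → v ≤ 2 * t0 → W ≤ |v - t0| →
      ‖∫ x in (-1 : ℝ)..2, Φ ((x : ℂ) + v * I) * (riemannZeta ((x : ℂ) + v * I))⁻¹‖ ≤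
        3 * C3 * Real.exp (-L) := by
    intro v hv1 hv2 hv3 hv4
    have := intervalIntegral.norm_integral_le_of_norm_le_const (a := -1) (b := 2) (C := C3 * Real.exp (-L))
      (f := fun x : ℝ => Φ ((x : ℂ) + v * I) * (riemannZeta ((x : ℂ) + v * I))⁻¹) (by
        intro x hx
        rw [uIoc_of_le (by norm_num)] at hx
        rw [← mk_line]
        exact hHr c hc b hb hb1 L t0 v d W (by linarith) (by linarith) ht1 hv2 hv3
          (by rw [hW, hK]; nlinarith) hv4 hd hd1 hv1 x hx.1.le hx.2)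
    refine this.trans ?_
    norm_num
    linarith
  have hb1' := hhor y1 hy1d hy13 (by linarith) (by
    rw [abs_sub_comm, abs_of_nonneg (by linarith)]; linarith)
  have hb2' := hhor y2 hy2d (by linarith) (by linarith) (by
    rw [abs_of_nonneg (by linarith)]; linarith)
  have hb3 := hR c hc b hb L t0 y1 y2 W (by linarith) ht0 ht1 (by rw [hW, hK]; nlinarith) hy1b' hy2a hy1e
    (by linarith)
  have hb4 := hLf c hc b hb hb1 L t0 y1 y2 W (by linarith) ht0 (by rw [hW, hK]; nlinarith) hy1b' hy2a hy1e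
    (by linarith)
  have hJ' := hJ b hb hbb0 t0 (by linarith)
  set SS : ℂ := ∑ γ ∈ ZF y1 y2, Φ (1 / 2 + (γ : ℂ) * I) * aa γ with hSS
  -- the sum over zeros
  have hSSb : ‖SS‖ ≤ Real.exp (-(Real.log (y * ℓ) / 2)) * ε *
      ∑ γ ∈ ZF (t0 - (K + 3) * L) (t0 + (K + 3) * L),
        |γ - t0| * Real.exp (-(1 / H ^ 2) * (γ - t0) ^ 2) * ‖aa γ‖ := by
    have h1 : ‖SS‖ ≤ ∑ γ ∈ ZF y1 y2, Real.exp (-(Real.log (y * ℓ) / 2)) * ε *
        (|γ - t0| * Real.exp (-(1 / H ^ 2) * (γ - t0) ^ 2) * ‖aa γ‖) := by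
      rw [hSS]
      refine (norm_sum_le _ _).trans (Finset.sum_le_sum fun γ hγ => ?_)
      rw [mem_ZF] at hγ
      have hγ0 : γ ≠ 0 := by linarith [hγ.2.1]
      have h2 := hlat γ hγ.1 (by rw [abs_le]; constructor <;> linarith [hγ.2.1, hγ.2.2])
      rw [← Wf_half y c hγ0] at h2
      have h3 : ‖wg H t0 (1 / 2 + (γ : ℂ) * I)‖ = Real.exp (-(1 / H ^ 2) * (γ - t0) ^ 2) := by
        rw [← half_line, norm_wg]
        congr 1
        ring
      have h4 : ‖mt y b ℓ (1 / 2 + (γ : ℂ) * I)‖ ≤ Real.exp (-(Real.log (y * ℓ) / 2)) := by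
        rw [← half_line, norm_mt, half_line, norm_XX_half, one_mul]
        apply Real.exp_le_exp.2
        have := pb_nonneg b
        have := mul_nonneg (arctan_nonneg' hb) (show 0 ≤ γ by linarith [hγ.2.1])
        linarith
      simp only [hΦ]
      rw [norm_mul, norm_mul, norm_mul, h3]
      calc _ ≤ Real.exp (-(1 / H ^ 2) * (γ - t0) ^ 2) * Real.exp (-(Real.log (y * ℓ) / 2)) *
            (ε * |γ - t0|) * ‖aa γ‖ := by gcongr
        _ = _ := by ring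
    refine h1.trans ?_
    rw [← Finset.mul_sum]
    apply mul_le_mul_of_nonneg_left _ (by positivity)
    apply Finset.sum_le_sum_of_subset_of_nonneg
    · intro γ hγ
      rw [mem_ZF] at hγ ⊢
      exact ⟨hγ.1, by linarith [hγ.2.1], by linarith [hγ.2.2]⟩
    · intro γ _ _
      positivity
  -- combine
  unfold rect at hrect
  set Bo := ∫ x in (-1 : ℝ)..2, Φ ((x : ℂ) + y1 * I) * (riemannZeta ((x : ℂ) + y1 * I))⁻¹ with hBo
  set To := ∫ x in (-1 : ℝ)..2, Φ ((x : ℂ) + y2 * I) * (riemannZeta ((x : ℂ) + y2 * I))⁻¹ with hTo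
  set Ri := ∫ t in y1..y2, wg H t0 ⟨2, t⟩ * mt y b ℓ ⟨2, t⟩ * Wf y c ⟨2, t⟩ * (riemannZeta ⟨2, t⟩)⁻¹ with hRi
  set Le := ∫ t in y1..y2, wg H t0 ⟨-1, t⟩ * mt y b ℓ ⟨-1, t⟩ * Wf y c ⟨-1, t⟩ *
    (riemannZeta ⟨-1, t⟩)⁻¹ with hLe
  have e1 : (∫ t in y1..y2, Φ (((2 : ℝ) : ℂ) + t * I) * (riemannZeta (((2 : ℝ) : ℂ) + t * I))⁻¹) = Ri := by
    rw [hRi]
    congr 1
    funext t
    rw [← mk_line]
  have e2 : (∫ t in y1..y2, Φ (((-1 : ℝ) : ℂ) + t * I) * (riemannZeta (((-1 : ℝ) : ℂ) + t * I))⁻¹) = Le := by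
    rw [hLe]
    congr 1
    funext t
    rw [← mk_line]
  rw [e1, e2, smul_eq_mul, smul_eq_mul] at hrect
  have hLeEq : I * Le = Bo - To + I * Ri - 2 * Real.pi * I * SS := by
    rw [← hrect]; ring
  have hLeN : ‖Le‖ ≤ ‖Bo‖ + ‖To‖ + ‖Ri‖ + 2 * Real.pi * ‖SS‖ := by
    have h1 : ‖I * Le‖ = ‖Le‖ := by rw [norm_mul, norm_I, one_mul]
    rw [← h1, hLeEq]
    refine (norm_sub_le _ _).trans ?_
    have h2 : ‖2 * (Real.pi : ℂ) * I * SS‖ = 2 * Real.pi * ‖SS‖ := by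
      rw [norm_mul, norm_mul, norm_mul, norm_I, mul_one, Complex.norm_real, Real.norm_eq_abs,
        abs_of_pos Real.pi_pos]
      norm_num
    rw [h2]
    have h3 : ‖Bo - To + I * Ri‖ ≤ ‖Bo‖ + ‖To‖ + ‖Ri‖ := by
      refine (norm_add_le _ _).trans ?_
      rw [norm_mul, norm_I, one_mul]
      have := norm_sub_le Bo To
      linarith
    linarith
  have hRiN : ‖Ri‖ ≤ ‖Rint y b ℓ H t0‖ + C1 * Real.exp (-L) := by
    have := norm_add_le (Ri - Rint y b ℓ H t0) (Rint y b ℓ H t0)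
    rw [sub_add_cancel] at this
    linarith
  set q : ℂ := c * ((Real.exp (-(Real.log y / 2)) : ℝ) : ℂ) with hq
  have hqn : ‖q‖ = Real.exp (-(Real.log y / 2)) := by
    rw [hq, norm_mul, hc, one_mul, Complex.norm_real, Real.norm_eq_abs, abs_of_pos (Real.exp_pos _)]
  have hJN : Real.exp (-(Real.log y / 2)) * ‖Jint b ℓ H t0‖ ≤ ‖Le‖ + C2 * Real.exp (-L) := by
    rw [← hqn, ← norm_mul]
    have := norm_sub_le Le (Le - q * Jint b ℓ H t0)
    rw [sub_sub_cancel] at this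
    linarith
  have hfin : Real.exp (-(Real.log y / 2)) * ((H * Real.sqrt Real.pi) * Real.exp (-(Real.arctan b * t0)) *
      (ℓ : ℝ)⁻¹ * (1 - 3 * EE ℓ H)) ≤ Real.exp (-(Real.log y / 2)) * ‖Jint b ℓ H t0‖ := by
    gcongr
  have hpi := Real.pi_pos
  have h9 : 2 * Real.pi * ‖SS‖ ≤ 2 * Real.pi * (Real.exp (-(Real.log (y * ℓ) / 2)) * ε *
      ∑ γ ∈ ZF (t0 - (K + 3) * L) (t0 + (K + 3) * L),
        |γ - t0| * Real.exp (-(1 / H ^ 2) * (γ - t0) ^ 2) * ‖aa γ‖) := by gcongr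
  nlinarith

end Pool.Agent.N806.AH
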