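import Pool.Agent.N806.AH.Bess
import Pool.Agent.N806.AH.PCc
import Pool.Agent.N806.AH.Abs2

/-! The lower bound for the averaged quantity. -/

set_option autoImplicit false

open Complex Filter Topology Set MeasureTheory Metric

namespace Pool.Agent.N806.AH

open H345 H345.Chi
open scoped ENNReal

lemma ofReal_int_le {f : ℝ → ℝ} {s : Set ℝ} (hf : IntegrableOn f s) :
    ENNReal.ofReal (∫ t in s, f t) ≤ ∫⁻ t in s, ENNReal.ofReal (f t) := by
  have h := integral_eq_lintegral_pos_part_sub_lintegral_neg_part hf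
  rw [h]
  calc ENNReal.ofReal ((∫⁻ t in s, ENNReal.ofReal (f t)).toReal - (∫⁻ t in s, ENNReal.ofReal (-f t)).toReal)
      ≤ ENNReal.ofReal ((∫⁻ t in s, ENNReal.ofReal (f t)).toReal) := by
        apply ENNReal.ofReal_le_ofReal
        have : 0 ≤ (∫⁻ t in s, ENNReal.ofReal (-f t)).toReal := ENNReal.toReal_nonneg
        linarith
    _ ≤ _ := ENNReal.ofReal_toReal_le

lemma abs_gauss {H : ℝ} (hH : 0 < H) (x : ℝ) :
    |x| * Real.exp (-(1 / H ^ 2) * x ^ 2) ≤ H * Real.exp (-(1 / (2 * H ^ 2)) * x ^ 2) := by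
  have e1 : Real.exp (-(1 / H ^ 2) * x ^ 2) = Real.exp (-(1 / (2 * H ^ 2)) * x ^ 2) *
      Real.exp (-(1 / (2 * H ^ 2)) * x ^ 2) := by
    rw [← Real.exp_add]; congr 1; field_simp; ring
  have h1 : |x| * Real.exp (-(1 / (2 * H ^ 2)) * x ^ 2) ≤ H := by
    have h2 : Real.exp (-(1 / (2 * H ^ 2)) * x ^ 2) ≤ 1 / (1 + 1 / (2 * H ^ 2) * x ^ 2) := by
      rw [show -(1 / (2 * H ^ 2)) * x ^ 2 = -(1 / (2 * H ^ 2) * x ^ 2) by ring]
      exact exp_neg_le_inv (by positivity)
    calc |x| * Real.exp (-(1 / (2 * H ^ 2)) * x ^ 2) ≤ |x| * (1 / (1 + 1 / (2 * H ^ 2) * x ^ 2)) := by gcongr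
      _ ≤ H := by
          rw [mul_one_div, div_le_iff₀ (by positivity)]
          have h3 : x ^ 2 = |x| ^ 2 := (sq_abs x).symm
          rw [h3]
          have h4 : H * (1 + 1 / (2 * H ^ 2) * |x| ^ 2) - |x| = ((|x| - H) ^ 2 + H ^ 2) / (2 * H) := by
            field_simp
            ring
          have h5 : 0 ≤ ((|x| - H) ^ 2 + H ^ 2) / (2 * H) := by positivity
          linarith
  calc |x| * Real.exp (-(1 / H ^ 2) * x ^ 2) = (|x| * Real.exp (-(1 / (2 * H ^ 2)) * x ^ 2)) *
        Real.exp (-(1 / (2 * H ^ 2)) * x ^ 2) := by rw [e1]; ring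
    _ ≤ _ := by gcongr

lemma abs_gauss_int {H : ℝ} (hH : 0 < H) (γ : ℝ) {A B : ℝ} (hAB : A ≤ B) :
    ∫ t in A..B, |γ - t| * Real.exp (-(1 / H ^ 2) * (γ - t) ^ 2) ≤ H ^ 2 * Real.sqrt (2 * Real.pi) := by
  have hg2 : Integrable (fun v : ℝ => H * Real.exp (-(1 / (2 * H ^ 2)) * (v - γ) ^ 2)) :=
    (gint_b γ (1 / (2 * H ^ 2)) (by positivity)).const_mul H
  calc ∫ t in A..B, |γ - t| * Real.exp (-(1 / H ^ 2) * (γ - t) ^ 2)
      ≤ ∫ t in A..B, H * Real.exp (-(1 / (2 * H ^ 2)) * (t - γ) ^ 2) := by
        apply intervalIntegral.integral_mono_on hAB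
        · apply Continuous.intervalIntegrable; fun_prop
        · exact hg2.intervalIntegrable
        · intro t _
          rw [show (t - γ) ^ 2 = (γ - t) ^ 2 by ring]
          exact abs_gauss hH (γ - t)
    _ = ∫ t in Ioc A B, H * Real.exp (-(1 / (2 * H ^ 2)) * (t - γ) ^ 2) := by
        rw [intervalIntegral.integral_of_le hAB]
    _ ≤ ∫ t : ℝ, H * Real.exp (-(1 / (2 * H ^ 2)) * (t - γ) ^ 2) := by
        apply setIntegral_le_integral hg2
        exact Eventually.of_forall fun v => by positivity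
    _ = H * Real.sqrt (Real.pi / (1 / (2 * H ^ 2))) := by
        rw [integral_const_mul, gval_b]
    _ = _ := by
        have h1 : Real.pi / (1 / (2 * H ^ 2)) = H ^ 2 * (2 * Real.pi) := by field_simp
        rw [h1, Real.sqrt_mul (by positivity), Real.sqrt_sq hH.le]
        ring

/-- abstract integration of the pointwise lower bound -/
lemma low_abs {R : ℝ → ℂ} {D : ℝ → ℝ} (hD : Continuous D) (F : Finset ℝ) {α : ℝ → ℝ}
    (hα : ∀ γ, 0 ≤ α γ) {a0 b η H κ x M v : ℝ} (ha0 : 0 ≤ a0) (hb : 0 < b) (hη : 0 < η) (hη1 : η ≤ 1)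
    (hH : 0 < H) (hκ : 0 ≤ κ) (hx : 0 ≤ x) (hv : 0 ≤ v)
    (h : ∀ t ∈ Icc (η / b) (1 / (η * b)), M ≤ D t → a0 * Real.exp (-(b * t)) ≤ ‖R t‖ +
      (κ * ∑ γ ∈ F, |γ - t| * Real.exp (-(1 / H ^ 2) * (γ - t) ^ 2) * α γ + x))
    (hvol : volume (Icc (η / b) (1 / (η * b)) ∩ {t | D t < M}) ≤ ENNReal.ofReal v) :
    ENNReal.ofReal (a0 ^ 2 / (2 * b) * (1 - 3 * η) - a0 ^ 2 * v -
      2 * a0 * (κ * (H ^ 2 * Real.sqrt (2 * Real.pi) * ∑ γ ∈ F, α γ) + x * (1 / (η * b)))) ≤
      ∫⁻ t : ℝ, ‖R t‖ₑ ^ 2 := by
  set A := η / b with hA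
  set B := 1 / (η * b) with hB
  have hA0 : 0 < A := by positivity
  have hAB : A ≤ B := by
    rw [hA, hB, div_le_div_iff₀ hb (by positivity)]
    have : η * (η * b) ≤ 1 * (1 * b) := by gcongr
    linarith
  set e : ℝ → ℝ := fun t => κ * ∑ γ ∈ F, |γ - t| * Real.exp (-(1 / H ^ 2) * (γ - t) ^ 2) * α γ + x with he
  have hec : Continuous e := by
    simp only [he]
    apply Continuous.add _ continuous_const
    apply Continuous.mul continuous_const
    refine continuous_finsetSum _ fun γ _ => ?_
    fun_prop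
  have he0 : ∀ t, 0 ≤ e t := by
    intro t
    simp only [he]
    have : 0 ≤ ∑ γ ∈ F, |γ - t| * Real.exp (-(1 / H ^ 2) * (γ - t) ^ 2) * α γ :=
      Finset.sum_nonneg fun γ _ => by have := hα γ; positivity
    positivity
  set g1 : ℝ → ℝ := fun t => (a0 * Real.exp (-(b * t))) ^ 2 with hg1
  set g2 : ℝ → ℝ := fun t => 2 * a0 * e t with hg2
  have hg1c : Continuous g1 := by simp only [hg1]; fun_prop
  have hg2c : Continuous g2 := by simp only [hg2]; fun_prop
  have hg10 : ∀ t, 0 ≤ g1 t := fun t => by simp only [hg1]; positivity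
  have hg20 : ∀ t, 0 ≤ g2 t := fun t => by simp only [hg2]; have := he0 t; positivity
  set G : Set ℝ := Icc A B ∩ {t | M ≤ D t} with hG
  have hGm : MeasurableSet G := measurableSet_Icc.inter (isClosed_le continuous_const hD).measurableSet
  have hGsub : G ⊆ Icc A B := inter_subset_left
  have hint : ∀ f : ℝ → ℝ, Continuous f → IntegrableOn f (Icc A B) := fun f hf => hf.integrableOn_Icc
  have hpt : ∀ t ∈ G, ENNReal.ofReal (g1 t - g2 t) ≤ ‖R t‖ₑ ^ 2 := by
    intro t ht
    rw [← ofReal_norm_eq_enorm, ← ENNReal.ofReal_pow (norm_nonneg _)]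
    apply ENNReal.ofReal_le_ofReal
    have h1 := h t ht.1 ht.2
    have h2 : 0 ≤ a0 * Real.exp (-(b * t)) := by positivity
    have h3 : a0 * Real.exp (-(b * t)) ≤ a0 := by
      have : Real.exp (-(b * t)) ≤ 1 := by
        apply Real.exp_le_one_iff.2
        have := hA0.trans_le ht.1.1
        have := mul_pos hb this
        linarith
      nlinarith
    have h4 := he0 t
    simp only [hg1, hg2]
    set a1 := a0 * Real.exp (-(b * t))
    have h5 : a1 ≤ ‖R t‖ + e t := h1
    rcases le_total (e t) a1 with h6 | h6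
    · have h7 : (a1 - e t) ^ 2 ≤ ‖R t‖ ^ 2 := by
        apply pow_le_pow_left₀ (by linarith)
        linarith
      nlinarith
    · have h8 : 0 ≤ ‖R t‖ ^ 2 := by positivity
      nlinarith
  have hstep : ENNReal.ofReal (∫ t in G, (g1 t - g2 t)) ≤ ∫⁻ t : ℝ, ‖R t‖ₑ ^ 2 := by
    have hfi : IntegrableOn (fun t => g1 t - g2 t) G := (hint _ (hg1c.sub hg2c)).mono_set hGsub
    calc ENNReal.ofReal (∫ t in G, (g1 t - g2 t)) ≤ ∫⁻ t in G, ENNReal.ofReal (g1 t - g2 t) := ofReal_int_le hfi
      _ ≤ ∫⁻ t in G, ‖R t‖ₑ ^ 2 := by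
          apply setLIntegral_mono' hGm hpt
      _ ≤ _ := setLIntegral_le_lintegral _ _
  refine le_trans (ENNReal.ofReal_le_ofReal ?_) hstep
  rw [integral_sub ((hint _ hg1c).mono_set hGsub) ((hint _ hg2c).mono_set hGsub)]
  -- the main integral
  have hI1 : a0 ^ 2 / (2 * b) * (1 - 3 * η) ≤ ∫ t in Icc A B, g1 t := by
    rw [integral_Icc_eq_integral_Ioc, ← intervalIntegral.integral_of_le hAB]
    have h1 : ∀ t : ℝ, g1 t = a0 ^ 2 * Real.exp (-(2 * b) * t) := by
      intro t
      simp only [hg1]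
      rw [mul_pow, ← Real.exp_nat_mul]
      congr 2
      push_cast
      ring
    simp_rw [h1]
    rw [intervalIntegral.integral_const_mul]
    have h2 : ∫ t in A..B, Real.exp (-(2 * b) * t) = (Real.exp (-(2 * b) * A) - Real.exp (-(2 * b) * B)) / (2 * b) := by
      rw [intervalIntegral.integral_comp_mul_left (fun t => Real.exp t) (by nlinarith : -(2 * b) ≠ 0), integral_exp,
        smul_eq_mul]
      field_simp
      ring
    rw [h2]
    have h3 : 1 - 2 * η ≤ Real.exp (-(2 * b) * A) := by
      have h4 := Real.add_one_le_exp (-(2 * b) * A)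
      have h5 : -(2 * b) * A = -(2 * η) := by rw [hA]; field_simp
      rw [h5] at h4
      rw [h5]
      linarith
    have h6 : Real.exp (-(2 * b) * B) ≤ η := by
      have h5 : -(2 * b) * B = -(2 / η) := by rw [hB]; field_simp
      rw [h5]
      refine (exp_neg_le_inv (by positivity)).trans ?_
      rw [div_le_iff₀ (by positivity)]
      have : η * (1 + 2 / η) = η + 2 := by field_simp
      linarith
    rw [div_mul_eq_mul_div, mul_div_assoc']
    apply div_le_div_of_nonneg_right _ (by positivity)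
    apply mul_le_mul_of_nonneg_left _ (by positivity)
    linarith
  have hsplit : ∫ t in G, g1 t = (∫ t in Icc A B, g1 t) - ∫ t in Icc A B ∩ {t | D t < M}, g1 t := by
    have h1 := integral_inter_add_diff (μ := volume) (s := Icc A B) (t := {t | M ≤ D t}) (f := g1)
      (isClosed_le continuous_const hD).measurableSet (hint _ hg1c)
    have h2 : Icc A B \ {t | M ≤ D t} = Icc A B ∩ {t | D t < M} := by
      ext t
      simp only [mem_diff, mem_setOf_eq, not_le, mem_inter_iff]
    rw [h2] at h1
    linarith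
  have hbad : ∫ t in Icc A B ∩ {t | D t < M}, g1 t ≤ a0 ^ 2 * v := by
    have hms : MeasurableSet (Icc A B ∩ {t | D t < M}) :=
      measurableSet_Icc.inter (isOpen_lt hD continuous_const).measurableSet
    have hfin : volume (Icc A B ∩ {t | D t < M}) ≠ ⊤ := (lt_of_le_of_lt hvol ENNReal.ofReal_lt_top).ne
    calc ∫ t in Icc A B ∩ {t | D t < M}, g1 t ≤ ∫ t in Icc A B ∩ {t | D t < M}, a0 ^ 2 := by
          apply setIntegral_mono_on ((hint _ hg1c).mono_set inter_subset_left) _ hms
          · intro t ht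
            simp only [hg1]
            apply pow_le_pow_left₀ (by positivity)
            have : Real.exp (-(b * t)) ≤ 1 := by
              apply Real.exp_le_one_iff.2
              have := hA0.trans_le ht.1.1
              have := mul_pos hb this
              linarith
            nlinarith
          · exact integrableOn_const hfin
      _ = (volume (Icc A B ∩ {t | D t < M})).toReal * a0 ^ 2 := by
          rw [setIntegral_const, smul_eq_mul]
          rfl
      _ ≤ v * a0 ^ 2 := by
          gcongr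
          exact ENNReal.toReal_le_of_le_ofReal hv hvol
      _ = _ := by ring
  have herr : ∫ t in G, g2 t ≤ 2 * a0 * (κ * (H ^ 2 * Real.sqrt (2 * Real.pi) * ∑ γ ∈ F, α γ) + x * B) := by
    calc ∫ t in G, g2 t ≤ ∫ t in Icc A B, g2 t := by
          apply setIntegral_mono_set (hint _ hg2c)
          · exact Eventually.of_forall hg20
          · exact hGsub.eventuallyLE
      _ = 2 * a0 * ∫ t in A..B, e t := by
          rw [integral_Icc_eq_integral_Ioc, ← intervalIntegral.integral_of_le hAB]
          simp only [hg2]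
          rw [intervalIntegral.integral_const_mul]
      _ ≤ _ := by
          apply mul_le_mul_of_nonneg_left _ (by positivity)
          simp only [he]
          have hsc : Continuous fun t => ∑ γ ∈ F, |γ - t| * Real.exp (-(1 / H ^ 2) * (γ - t) ^ 2) * α γ :=
            continuous_finsetSum _ fun γ _ => by fun_prop
          rw [intervalIntegral.integral_add ((hsc.const_mul κ).intervalIntegrable _ _)
            (continuous_const.intervalIntegrable _ _), intervalIntegral.integral_const_mul,
            intervalIntegral.integral_finset_sum, intervalIntegral.integral_const, smul_eq_mul]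
          swap
          · intro γ _
            apply Continuous.intervalIntegrable
            fun_prop
          apply add_le_add
          · apply mul_le_mul_of_nonneg_left _ hκ
            rw [Finset.mul_sum]
            apply Finset.sum_le_sum
            intro γ _
            rw [intervalIntegral.integral_mul_const]
            exact mul_le_mul_of_nonneg_right (abs_gauss_int hH γ hAB) (hα γ)
          · have : (B - A) * x ≤ B * x := by
              apply mul_le_mul_of_nonneg_right _ hx
              linarith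
            linarith
  rw [hsplit]
  linarith

end Pool.Agent.N806.AH
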