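import Pool.Agent.N806.AH.ErrP

/-! The lower bound for the averaged quantity with a constant loss. -/

set_option autoImplicit false

open Complex Filter Topology Set MeasureTheory Metric

namespace Pool.Agent.N806.AH

open H345 H345.Chi
open scoped ENNReal NNReal

lemma err_total {F : Finset ℝ} {w U : ℝ → ℂ} {H q ε1 κ C X W : ℝ} (hU : Continuous U) (hH : 0 < H)
    (hq : 0 ≤ q) (hε1 : 0 ≤ ε1) (hκ : 0 ≤ κ) (hC : 0 ≤ C) (hX : 0 ≤ X)
    (hN : ∫⁻ t : ℝ, ‖NN F w (H ^ 2) t‖ₑ ≤ ENNReal.ofReal (C * X))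
    (hM : ∫⁻ t : ℝ, ‖CM F w U (H ^ 2) t‖ₑ ≤ ENNReal.ofReal (C * (2 * ε1) * X))
    (hW : ∑ γ ∈ F, ‖aa γ‖ ≤ W) :
    ∫⁻ t : ℝ, ENNReal.ofReal (κ * (3 * ε1 * ‖NN F w (H ^ 2) t‖ + ‖CM F w U (H ^ 2) t‖ +
      2 * (q * ∑ γ ∈ F, ‖aa γ‖ * gs (2 * H ^ 2) (γ - t)))) ≤
      ENNReal.ofReal (κ * (5 * ε1 * (C * X) + 6 * H * q * W)) := by
  have hNc := NN_cont F w (H ^ 2)
  have hMc := CM_cont F w hU (H ^ 2)
  have hW0 : 0 ≤ W := le_trans (Finset.sum_nonneg fun _ _ => norm_nonneg _) hW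
  have h1 : ∀ t : ℝ, ENNReal.ofReal (κ * (3 * ε1 * ‖NN F w (H ^ 2) t‖ + ‖CM F w U (H ^ 2) t‖ +
      2 * (q * ∑ γ ∈ F, ‖aa γ‖ * gs (2 * H ^ 2) (γ - t)))) =
      ENNReal.ofReal κ * (ENNReal.ofReal (3 * ε1) * ‖NN F w (H ^ 2) t‖ₑ + ‖CM F w U (H ^ 2) t‖ₑ +
        2 * ENNReal.ofReal (q * ∑ γ ∈ F, ‖aa γ‖ * gs (2 * H ^ 2) (γ - t))) := by
    intro t
    have h0 : 0 ≤ ∑ γ ∈ F, ‖aa γ‖ * gs (2 * H ^ 2) (γ - t) :=
      Finset.sum_nonneg fun γ _ => mul_nonneg (norm_nonneg _) (gs_pos _ _).le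
    rw [ENNReal.ofReal_mul hκ, ENNReal.ofReal_add (by positivity) (by positivity),
      ENNReal.ofReal_add (by positivity) (by positivity), ENNReal.ofReal_mul (by positivity),
      ENNReal.ofReal_mul (p := 2) (by norm_num), ofReal_norm_eq_enorm, ofReal_norm_eq_enorm]
    simp
  simp_rw [h1]
  have m1 : Measurable fun t : ℝ => ENNReal.ofReal (3 * ε1) * ‖NN F w (H ^ 2) t‖ₑ :=
    hNc.measurable.enorm.const_mul _
  have m2 : Measurable fun t : ℝ => ‖CM F w U (H ^ 2) t‖ₑ := hMc.measurable.enorm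
  have m3 : Measurable fun t : ℝ => 2 * ENNReal.ofReal (q * ∑ γ ∈ F, ‖aa γ‖ * gs (2 * H ^ 2) (γ - t)) := by
    apply Measurable.const_mul
    apply Measurable.ennreal_ofReal
    apply Continuous.measurable
    apply Continuous.mul continuous_const
    refine continuous_finsetSum _ fun γ _ => ?_
    have h7 : Continuous fun t : ℝ => gs (2 * H ^ 2) (γ - t) :=
      (gs_cont (2 * H ^ 2)).comp (by fun_prop : Continuous fun t : ℝ => γ - t)
    fun_prop
  have hfar := far_int (F := F) (q := q) (Λ := 0) hH hH hq le_rfl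
  simp only [zero_mul, add_zero] at hfar
  have m12 : Measurable fun t : ℝ => ENNReal.ofReal (3 * ε1) * ‖NN F w (H ^ 2) t‖ₑ + ‖CM F w U (H ^ 2) t‖ₑ :=
    m1.add m2
  rw [lintegral_const_mul' _ _ ENNReal.ofReal_ne_top, lintegral_add_left m12, lintegral_add_left m1,
    lintegral_const_mul' _ _ ENNReal.ofReal_ne_top, lintegral_const_mul' _ _ (by norm_num), hfar]
  have hsq : Real.sqrt (Real.pi * (2 * H ^ 2)) ≤ 3 * H := by
    rw [Real.sqrt_le_left (by positivity)]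
    nlinarith [Real.pi_lt_four, sq_nonneg H]
  have e2 : (2 : ℝ≥0∞) = ENNReal.ofReal 2 := by simp
  calc ENNReal.ofReal κ * (ENNReal.ofReal (3 * ε1) * (∫⁻ t : ℝ, ‖NN F w (H ^ 2) t‖ₑ) +
        (∫⁻ t : ℝ, ‖CM F w U (H ^ 2) t‖ₑ) +
        2 * ENNReal.ofReal (q * Real.sqrt (Real.pi * (2 * H ^ 2)) * ∑ γ ∈ F, ‖aa γ‖))
      ≤ ENNReal.ofReal κ * (ENNReal.ofReal (3 * ε1) * ENNReal.ofReal (C * X) +
        ENNReal.ofReal (C * (2 * ε1) * X) + ENNReal.ofReal 2 * ENNReal.ofReal (q * (3 * H) * W)) := by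
        rw [e2]
        gcongr
    _ = _ := by
        rw [← ENNReal.ofReal_mul (by positivity), ← ENNReal.ofReal_mul (by norm_num),
          ← ENNReal.ofReal_add (by positivity) (by positivity),
          ← ENNReal.ofReal_add (by positivity) (by positivity), ← ENNReal.ofReal_mul hκ]
        congr 1
        ring

lemma one_sub_sq_le {E : ℝ} (h0 : 0 ≤ E) (h1 : 3 * E ≤ 1) : (1 - 3 * E) ^ 2 ≤ 1 :=
  pow_le_one₀ (by linarith) (by linarith)

lemma aux_dt {K K' L x : ℝ} (hK : 1 ≤ K) (hK' : 1 ≤ K') (hL : 1 ≤ L) (h : (K' + 3 * K + 1) * L ^ 2 ≤ x) :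
    K * L ≤ x := by
  have hKL2 : K * L ≤ K * L ^ 2 := by
    have h1 : L ≤ L ^ 2 := by nlinarith
    nlinarith
  have hK'L : 0 ≤ K' * L ^ 2 := by positivity
  have : 0 ≤ K * L ^ 2 := by positivity
  nlinarith

/-- the lower bound for one `ℓ`, with a constant loss -/
theorem lower_ell2 (hRH : RiemannHypothesis) {y : ℝ} (hy : 0 < y) {η : ℝ} (hη : 0 < η) (hη1 : η ≤ 1)
    {Cr : ℝ} (hCr : 1 ≤ Cr) {ℓ : ℕ} (hℓ : 1 ≤ ℓ) (hsq : Squarefree ℓ) (hCrℓ : 2 * (ℓ : ℝ) ≤ η ^ 2 * Cr)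
    {H : ℝ} (hH : 4 ≤ H) (hEE : 3 * EE ℓ H ≤ 1) {g : ℝ} (hg : 0 < g) :
    ∃ K0 K' c0 ϑ : ℝ, 1 ≤ K0 ∧ 1 ≤ K' ∧ 0 < c0 ∧ 0 < ϑ ∧ ∀ K : ℝ, K0 ≤ K → ∃ L1 : ℝ, 1 ≤ L1 ∧
    ∀ L : ℝ, L1 ≤ L → ∀ (D : ℝ → ℝ) (d ε : ℝ), 1 / (8 * L) ≤ d → d ≤ 1 / L → 0 ≤ ε →
    ε ≤ c0 → GH y Cr L K d ε D →
    volume (Icc (Real.exp L) (Cr * Real.exp L) ∩ {t | D t < (K' + 3 * K + 1) * L ^ 2}) ≤
      ENNReal.ofReal (ϑ * Real.exp L) →
    ENNReal.ofReal (((1 - 3 * EE ℓ H) ^ 2 * (1 - 3 * η) - g) * Real.log 2 / (4 * Real.pi * y)) ≤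
      AA y (η / 2 * Real.exp (-L)) ℓ H := by
  have hpi := Real.pi_pos
  have hH0 : 0 < H := by linarith
  have hℓ0 : (0 : ℝ) < ℓ := by exact_mod_cast hℓ
  have hℓ1 : (1 : ℝ) ≤ ℓ := by exact_mod_cast hℓ
  have hlogℓ : 0 ≤ Real.log ℓ := Real.log_nonneg hℓ1
  obtain ⟨Ka, K', C', ε0, hKa, hK', hC', hε0, herr⟩ := err_l1 hRH y hCr hH
    (lm := Real.log ℓ + 1) (by linarith)
  obtain ⟨Kp, Cp, Lp, hKp, hCp, hLp, hps⟩ := pstep2 hRH hy hCr hℓ hsq hH
  obtain ⟨Tn, hTn, hnear⟩ := near_zero hRH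
  set a0 : ℝ := Real.exp (-(Real.log y / 2)) * (H * Real.sqrt Real.pi) * (ℓ : ℝ)⁻¹ * (1 - 3 * EE ℓ H) with ha0
  have ha00 : 0 ≤ a0 := by
    have : 0 ≤ 1 - 3 * EE ℓ H := by linarith
    positivity
  set κ1 : ℝ := 2 * Real.pi * Real.exp (-(Real.log (y * ℓ) / 2)) with hκ1
  have hκ10 : 0 < κ1 := by positivity
  set Q : ℝ := 2 * a0 * κ1 * (5 * C') with hQ
  have hQ0 : 0 ≤ Q := by positivity
  set P : ℝ := Real.pi * H ^ 2 / (2 * y * ℓ) with hP
  have hP0 : 0 < P := by positivity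
  set c0 : ℝ := min ε0 (P * g / (6 * (Q + 1))) with hc0
  have hc00 : 0 < c0 := lt_min hε0 (by positivity)
  refine ⟨max Ka Kp, K', c0, g / 6, hKa.trans (le_max_left _ _), hK', hc00, by positivity, fun K hK => ?_⟩
  have hKKa : Ka ≤ K := (le_max_left _ _).trans hK
  have hKKp : Kp ≤ K := (le_max_right _ _).trans hK
  have hK1 : 1 ≤ K := hKa.trans hKKa
  obtain ⟨La, hLa, herr1⟩ := herr K hKKa
  -- choice of L1
  set X : ℝ := 2 * a0 * Cp * ℓ / η with hX
  have hX0 : 0 ≤ X := by positivity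
  set Y : ℝ := 2 * a0 * κ1 * (6 * H * C') with hY
  have hY0 : 0 ≤ Y := by positivity
  refine ⟨max (max (max La Lp) (3 * X / (P * g) + 1)) (max (max (6 * Y / (P * g)) (2 / c0)) Tn),
    le_trans (by linarith) ((le_max_left La Lp).trans ((le_max_left _ _).trans (le_max_left _ _))),
    fun L hL D d ε hd hdL hε hεc hG hvol => ?_⟩
  have hLLa : La ≤ L := (((le_max_left _ _).trans (le_max_left _ _)).trans (le_max_left _ _)).trans hL
  have hLLp : Lp ≤ L := (((le_max_right _ _).trans (le_max_left _ _)).trans (le_max_left _ _)).trans hL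
  have hLX : 3 * X / (P * g) + 1 ≤ L := ((le_max_right _ _).trans (le_max_left _ _)).trans hL
  have hLY : 6 * Y / (P * g) ≤ L := (((le_max_left _ _).trans (le_max_left _ _)).trans (le_max_right _ _)).trans hL
  have hLc : 2 / c0 ≤ L := (((le_max_right _ _).trans (le_max_left _ _)).trans (le_max_right _ _)).trans hL
  have hLT : Tn ≤ L := ((le_max_right _ _).trans (le_max_right _ _)).trans hL
  have hL6 : 6 ≤ L := hLa.trans hLLa
  have hL1 : 1 ≤ L := by linarith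
  have hLpos : 0 < L := by linarith
  have hsL : 1 ≤ Real.sqrt L := Real.one_le_sqrt.2 hL1
  have hsLL : Real.sqrt L ≤ L := by
    rw [Real.sqrt_le_left hLpos.le, pow_two]
    exact le_mul_of_one_le_left hLpos.le hL1
  have hc0ε0 : c0 ≤ ε0 := min_le_left _ _
  have hεQ : Q * c0 ≤ P * g / 6 := by
    have h1 : c0 ≤ P * g / (6 * (Q + 1)) := min_le_right _ _
    calc Q * c0 ≤ (Q + 1) * (P * g / (6 * (Q + 1))) := by gcongr; linarith
      _ = P * g / 6 := by field_simp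
  have hexpL : 0 < Real.exp L := Real.exp_pos L
  have hexpmL : 0 < Real.exp (-L) := Real.exp_pos _
  have hee : Real.exp (-L) * Real.exp L = 1 := by rw [← Real.exp_add]; simp
  have hXL : X * Real.exp (-L) ≤ P * g / 3 := by
    have h1 : Real.exp (-L) ≤ 1 / (1 + L) := exp_neg_le_inv hLpos.le
    have h2 : X * Real.exp (-L) ≤ X * (1 / (1 + L)) := by gcongr
    refine h2.trans ?_
    rw [mul_one_div, div_le_iff₀ (by positivity)]
    have h3 : 3 * X ≤ (L - 1) * (P * g) := by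
      have : 3 * X / (P * g) ≤ L - 1 := by linarith
      rwa [div_le_iff₀ (by positivity)] at this
    have h4 := mul_pos hP0 hg
    have h5 : (L - 1) * (P * g) = P * g * L - P * g := by ring
    have h6 : P * g / 3 * (1 + L) = (P * g * L + P * g) / 3 := by ring
    rw [h6]
    linarith
  have h2c0 : 2 ≤ c0 * (K * L) := by
    have h1 : 2 ≤ c0 * L := by
      rw [div_le_iff₀ hc00] at hLc
      linarith
    have h2 : c0 * L ≤ c0 * (K * L) :=
      mul_le_mul_of_nonneg_left (le_mul_of_one_le_left hLpos.le hK1) hc00.le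
    linarith
  set q0 : ℝ := Real.exp (-(2 * L ^ 2)) with hq0
  have hq00 : 0 ≤ q0 := (Real.exp_pos _).le
  have hq01 : q0 ≤ 1 / L ^ 2 := by
    rw [hq0, Real.exp_neg, ← one_div]
    apply one_div_le_one_div_of_le (by positivity)
    have h1 := Real.add_one_le_exp (2 * L ^ 2)
    have h2 : 0 ≤ L ^ 2 := by positivity
    linarith
  obtain ⟨U, hU, hUe⟩ := u_ext hG (by positivity) hεc hc00.le h2c0
  have hUc : Continuous U := by
    have h1 : LipschitzWith ⟨2 * c0, by positivity⟩ U := by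
      apply LipschitzWith.of_dist_le_mul
      intro x z
      rw [dist_eq_norm, Real.dist_eq]
      exact hU x z
    exact h1.continuous
  set δ1 : ℝ := η / 2 * Real.exp (-L) with hδ1
  have hδ10 : 0 < δ1 := by positivity
  set q : ℝ := (1 - 3 * EE ℓ H) ^ 2 * (1 - 3 * η) - g with hq
  set M : ℝ := (K' + 3 * K + 1) * L ^ 2 with hM
  set F := FG D L Cr ((K' + K) * L ^ 2) with hF
  -- lower bound for each δ
  have key : ∀ δ ∈ Ioc δ1 (2 * δ1), ENNReal.ofReal (q / (4 * Real.pi * y) * δ⁻¹) ≤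
      ENNReal.ofReal ℓ * ∫⁻ u : ℝ, ‖hh y (δ / ℓ) ℓ H u‖ₑ ^ 2 := by
    intro δ hδ
    have hδ0 : 0 < δ := hδ10.trans hδ.1
    have hδ2 : δ ≤ η * Real.exp (-L) := by
      have := hδ.2
      rw [hδ1] at this
      linarith
    set b : ℝ := δ / ℓ with hb
    have hb0 : 0 < b := by positivity
    have hbδ : b ≤ δ := div_le_self hδ0.le hℓ1
    have hbexp : b ≤ Real.exp (-L) := by
      calc b ≤ δ := hbδ
        _ ≤ η * Real.exp (-L) := hδ2
        _ ≤ 1 * Real.exp (-L) := mul_le_mul_of_nonneg_right hη1 hexpmL.le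
        _ = Real.exp (-L) := one_mul _
    have hδe : δ * Real.exp L ≤ 1 := by
      calc δ * Real.exp L ≤ η * Real.exp (-L) * Real.exp L := by gcongr
        _ = η := by rw [mul_assoc, hee, mul_one]
        _ ≤ 1 := hη1
    have hAL : Real.exp L ≤ η / b := by
      rw [le_div_iff₀ hb0]
      calc Real.exp L * b ≤ Real.exp L * (η * Real.exp (-L)) := by gcongr; exact hbδ.trans hδ2
        _ = η * (Real.exp (-L) * Real.exp L) := by ring
        _ = η := by rw [hee, mul_one]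
    have hBL : 1 / (η * b) ≤ Cr * Real.exp L := by
      rw [div_le_iff₀ (by positivity)]
      have h1 : η / 2 * Real.exp (-L) / ℓ ≤ b := by
        rw [hb]
        gcongr
        exact hδ.1.le
      calc (1 : ℝ) ≤ η ^ 2 * Cr / (2 * ℓ) := by
            rw [le_div_iff₀ (by positivity)]
            linarith
        _ = Cr * Real.exp L * (η * (η / 2 * Real.exp (-L) / ℓ)) := by
            have h2 : Cr * Real.exp L * (η * (η / 2 * Real.exp (-L) / ℓ)) =
                η ^ 2 * Cr / (2 * ℓ) * (Real.exp (-L) * Real.exp L) := by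
              field_simp
            rw [h2, hee, mul_one]
        _ ≤ Cr * Real.exp L * (η * b) := by gcongr
    -- the parameters of the error
    set lam : ℝ := Real.log ℓ + pb b with hlam
    set θ : ℝ := Real.arctan b with hθ
    have hb1 : b ≤ 1 := hbexp.trans (Real.exp_le_one_iff.2 (by linarith))
    have hpb0 := pb_nonneg b
    have hpb1 := pb_le b
    have hlam0 : 0 ≤ lam := by rw [hlam]; linarith
    have hb2 : b ^ 2 ≤ 1 := pow_le_one₀ hb0.le hb1
    have hlam1 : lam ≤ Real.log ℓ + 1 := by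
      rw [hlam]
      linarith
    have hθ0 : 0 ≤ θ := arctan_nonneg' hb0.le
    have hθ1 : θ ≤ Real.exp (-L) := (arctan_le' hb0.le).trans hbexp
    obtain ⟨hsum, hNN, hCM⟩ := herr1 L hLLa D d ε hd hdL hε (hεc.trans hc0ε0) hG lam θ hlam0 hlam1 hθ0 hθ1
    have hCM1 := hCM U (2 * c0) (by positivity) hU hUc
    set w := wz D ((K' + 2 * K) * L ^ 2) (L ^ 2) θ lam with hw
    set e : ℝ → ℝ := fun t => κ1 * (3 * c0 * ‖NN F w (H ^ 2) t‖ + ‖CM F w U (H ^ 2) t‖ +
      2 * (q0 * ∑ γ ∈ F, ‖aa γ‖ * gs (2 * H ^ 2) (γ - t))) with he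
    have hec : Continuous e := by
      have h1 := NN_cont F w (H ^ 2)
      have h2 := CM_cont F w hUc (H ^ 2)
      have h3 : Continuous fun t : ℝ => ∑ γ ∈ F, ‖aa γ‖ * gs (2 * H ^ 2) (γ - t) := by
        refine continuous_finsetSum _ fun γ _ => ?_
        have h7 : Continuous fun t : ℝ => gs (2 * H ^ 2) (γ - t) :=
          (gs_cont (2 * H ^ 2)).comp (by fun_prop : Continuous fun t : ℝ => γ - t)
        fun_prop
      simp only [he]
      fun_prop
    have he0 : ∀ t, 0 ≤ e t := by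
      intro t
      have h0 : 0 ≤ ∑ γ ∈ F, ‖aa γ‖ * gs (2 * H ^ 2) (γ - t) :=
        Finset.sum_nonneg fun γ _ => mul_nonneg (norm_nonneg _) (gs_pos _ _).le
      simp only [he]
      positivity
    have hEint := err_total (q := q0) (κ := κ1) (C := C') (X := Real.exp L) hUc hH0 hq00 hc00.le hκ10.le
      (by linarith) hexpL.le hNN hCM1 hsum
    have hlow := low_abs2 (R := fun t => Rint y b ℓ H t) (D := D) (e := e) hG.cont hec he0
      (a0 := a0) (b := b) (η := η) (x := Cp * Real.exp (-L)) (M := M) (v := g / 6 * Real.exp L)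
      (E := κ1 * (5 * c0 * (C' * Real.exp L) + 6 * H * q0 * (C' * Real.sqrt L * Real.exp L)))
      ha00 hb0 hη hη1 (by positivity) (by positivity) (by positivity)
      (by
        intro t ht hMt
        have ht1 : Real.exp L ≤ t := hAL.trans ht.1
        have ht2 : t ≤ Cr * Real.exp L := ht.2.trans hBL
        have hDt : K * L ≤ D t := aux_dt hK1 hK' hL1 hMt
        have hLH := hG.lh t hDt
        obtain ⟨c, hc, hlat⟩ := hLH.lat
        obtain ⟨y1, y2, b1, b2, b3, b4, h1⟩ := hps L hLLp b hb0.le hbexp t d ε ht1 ht2 hd (hdL.trans (by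
          rw [div_le_one hLpos]; exact hL1)) (hLH.mono (by gcongr)) c hc
        have hTt : Tn ≤ t := by
          have : L ≤ Real.exp L := by linarith [Real.add_one_le_exp L]
          linarith
        have hKpL : Kp * L ≤ K * L := by gcongr
        have h5 := err_pt (Cr := Cr) (K' := K') hG hK1 hK' hL1 hH hεc hc00.le hU hUe (t := t) (y1 := y1)
          (y2 := y2) (lam := lam) (θ := θ) (c := c) hθ0 hMt hc hlat (hnear t hTt) (by linarith) b2 b3
          (by linarith)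
        have h2 : Real.exp (-(b * t)) ≤ Real.exp (-(Real.arctan b * t)) := by
          apply Real.exp_le_exp.2
          have := mul_le_mul_of_nonneg_right (arctan_le' hb0.le) (hexpL.le.trans ht1)
          linarith
        have h3 : a0 * Real.exp (-(b * t)) ≤ Real.exp (-(Real.log y / 2)) * ((H * Real.sqrt Real.pi) *
            Real.exp (-(Real.arctan b * t)) * (ℓ : ℝ)⁻¹ * (1 - 3 * EE ℓ H)) := by
          calc a0 * Real.exp (-(b * t)) ≤ a0 * Real.exp (-(Real.arctan b * t)) := by gcongr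
            _ = _ := by rw [ha0]; ring
        have h6 := mul_le_mul_of_nonneg_left h5 hκ10.le
        have h7 : 2 * Real.pi * (Real.exp (-(Real.log (y * ℓ) / 2)) *
            ‖∑ γ ∈ ZF y1 y2, aa γ * cexp ((((Real.log ℓ + pb b) * γ : ℝ) : ℂ) * I) *
              ((Real.exp (-(Real.arctan b * γ)) : ℝ) : ℂ) * (uu y γ + (starRingEnd ℂ) c) *
              ((gs (H ^ 2) (γ - t) : ℝ) : ℂ)‖) ≤ e t := by
          rw [← mul_assoc]
          exact h6
        linarith)
      (by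
        refine le_trans (measure_mono ?_) hvol
        intro t ht
        exact ⟨⟨hAL.trans ht.1.1, ht.1.2.trans hBL⟩, ht.2⟩)
      hEint
    rw [planch hy hb0 hℓ hH] at hlow
    set J := ∫⁻ u : ℝ, ‖hh y b ℓ H u‖ₑ ^ 2 with hJ
    -- numerical comparison
    have ha0sq : a0 ^ 2 = 2 * P / ℓ * (1 - 3 * EE ℓ H) ^ 2 := by
      rw [ha0, hP, mul_pow, mul_pow, mul_pow, mul_pow, Real.sq_sqrt hpi.le, ← Real.exp_nat_mul]
      have h1 : Real.exp (((2 : ℕ) : ℝ) * -(Real.log y / 2)) = y⁻¹ := by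
        rw [show ((2 : ℕ) : ℝ) * -(Real.log y / 2) = -Real.log y by push_cast; ring, Real.exp_neg,
          Real.exp_log hy]
      rw [h1]
      field_simp
    have hE1 : (1 - 3 * EE ℓ H) ^ 2 ≤ 1 := one_sub_sq_le (EE_pos hℓ H).le hEE
    have ha0P : a0 ^ 2 ≤ 2 * P := by
      rw [ha0sq]
      have h1 : 2 * P / ℓ ≤ 2 * P := div_le_self (by positivity) hℓ1
      have h2 : 0 ≤ 2 * P / ℓ := by positivity
      calc 2 * P / ℓ * (1 - 3 * EE ℓ H) ^ 2 ≤ 2 * P / ℓ * 1 := mul_le_mul_of_nonneg_left hE1 h2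
        _ = 2 * P / ℓ := mul_one _
        _ ≤ 2 * P := h1
    have heδ : Real.exp L ≤ δ⁻¹ := by
      rw [← one_div, le_div_iff₀ hδ0]
      linarith
    have hmain : P * q * δ⁻¹ ≤ a0 ^ 2 / (2 * b) * (1 - 3 * η) - a0 ^ 2 * (g / 6 * Real.exp L) -
        2 * a0 * (κ1 * (5 * c0 * (C' * Real.exp L) + 6 * H * q0 * (C' * Real.sqrt L * Real.exp L)) +
          Cp * Real.exp (-L) * (1 / (η * b))) := by
      have t1 : a0 ^ 2 / (2 * b) * (1 - 3 * η) = P * ((1 - 3 * EE ℓ H) ^ 2 * (1 - 3 * η)) * δ⁻¹ := by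
        rw [ha0sq, hb]
        field_simp
      have t2 : a0 ^ 2 * (g / 6 * Real.exp L) ≤ P * (g / 3) * δ⁻¹ := by
        calc a0 ^ 2 * (g / 6 * Real.exp L) ≤ (2 * P) * (g / 6 * δ⁻¹) := by gcongr
          _ = _ := by ring
      have t3 : 2 * a0 * (κ1 * (5 * c0 * (C' * Real.exp L) + 6 * H * q0 * (C' * Real.sqrt L * Real.exp L))) ≤
          P * (g / 3) * δ⁻¹ := by
        have u1 : q0 * Real.sqrt L ≤ 1 / L := by
          calc q0 * Real.sqrt L ≤ 1 / L ^ 2 * L := by gcongr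
            _ = 1 / L := by field_simp
        have u2 : Y * (q0 * Real.sqrt L) ≤ P * g / 6 := by
          refine (mul_le_mul_of_nonneg_left u1 hY0).trans ?_
          rw [mul_one_div, div_le_iff₀ hLpos]
          rw [div_le_iff₀ (by positivity)] at hLY
          linarith
        calc 2 * a0 * (κ1 * (5 * c0 * (C' * Real.exp L) + 6 * H * q0 * (C' * Real.sqrt L * Real.exp L)))
            = (Q * c0 + Y * (q0 * Real.sqrt L)) * Real.exp L := by rw [hQ, hY]; ring
          _ ≤ (P * g / 6 + P * g / 6) * δ⁻¹ := by gcongr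
          _ = _ := by ring
      have t4 : 2 * a0 * (Cp * Real.exp (-L) * (1 / (η * b))) ≤ P * (g / 3) * δ⁻¹ := by
        calc 2 * a0 * (Cp * Real.exp (-L) * (1 / (η * b))) = X * Real.exp (-L) * δ⁻¹ := by
              rw [hX, hb]
              field_simp
          _ ≤ (P * g / 3) * δ⁻¹ := by gcongr
          _ = _ := by ring
      have t5 : P * q * δ⁻¹ = P * ((1 - 3 * EE ℓ H) ^ 2 * (1 - 3 * η)) * δ⁻¹ - 3 * (P * (g / 3) * δ⁻¹) := by
        rw [hq]; ring
      rw [t5, t1]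
      linarith
    have h5 : ENNReal.ofReal (P * q * δ⁻¹) ≤ ENNReal.ofReal (2 * Real.pi ^ 2 * H ^ 2) * J :=
      (ENNReal.ofReal_le_ofReal hmain).trans hlow
    have h6 : P * q * δ⁻¹ = (2 * Real.pi ^ 2 * H ^ 2) * (q / (4 * Real.pi * y) * δ⁻¹ / ℓ) := by
      rw [hP]
      field_simp
      ring
    have h7 : 0 < 2 * Real.pi ^ 2 * H ^ 2 := by positivity
    rw [h6, ENNReal.ofReal_mul h7.le] at h5
    have h8 := (ENNReal.mul_le_mul_iff_right (ENNReal.ofReal_pos.2 h7).ne' ENNReal.ofReal_ne_top).1 h5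
    have h9 : q / (4 * Real.pi * y) * δ⁻¹ = ℓ * (q / (4 * Real.pi * y) * δ⁻¹ / ℓ) := by
      field_simp
    rw [h9, ENNReal.ofReal_mul hℓ0.le]
    gcongr
  -- integrate over δ
  rcases le_or_gt q 0 with hq0' | hq0'
  · rw [ENNReal.ofReal_of_nonpos]
    · exact zero_le
    · have h1 : 0 ≤ Real.log 2 := Real.log_nonneg (by norm_num)
      apply div_nonpos_of_nonpos_of_nonneg _ (by positivity)
      exact mul_nonpos_of_nonpos_of_nonneg hq0' h1
  · have h1 : ∫⁻ δ in Ioc δ1 (2 * δ1), ENNReal.ofReal (q / (4 * Real.pi * y) * δ⁻¹) =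
        ENNReal.ofReal (∫ δ in δ1..(2 * δ1), q / (4 * Real.pi * y) * δ⁻¹) := by
      rw [intervalIntegral.integral_of_le (by linarith), ofReal_integral_eq_lintegral_ofReal]
      · have hc : ContinuousOn (fun δ : ℝ => q / (4 * Real.pi * y) * δ⁻¹) (Icc δ1 (2 * δ1)) := by
          apply ContinuousOn.mul continuousOn_const
          apply ContinuousOn.inv₀ continuousOn_id
          intro r hr
          exact (hδ10.trans_le hr.1).ne'
        exact (hc.integrableOn_Icc).mono_set Ioc_subset_Icc_self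
      · rw [EventuallyLE, ae_restrict_iff' measurableSet_Ioc]
        refine Eventually.of_forall fun r hr => ?_
        have : 0 < r := hδ10.trans hr.1
        simp only [Pi.zero_apply]
        positivity
    have h2 : ∫ δ in δ1..(2 * δ1), q / (4 * Real.pi * y) * δ⁻¹ = q * Real.log 2 / (4 * Real.pi * y) := by
      rw [intervalIntegral.integral_const_mul, integral_inv_of_pos hδ10 (by positivity)]
      have : 2 * δ1 / δ1 = 2 := by field_simp
      rw [this]
      ring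
    rw [h2] at h1
    rw [← h1]
    unfold AA
    exact setLIntegral_mono' measurableSet_Ioc key

end Pool.Agent.N806.AH
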