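import Pool.Agent.N806.AH.Gau
import Pool.Agent.N806.AH.Sep

/-! A mean value theorem for Dirichlet series. -/

set_option autoImplicit false

open Complex MeasureTheory Filter Topology Set

namespace Pool.Agent.N806.AH

/-- `n^{-it}` -/
noncomputable def ph (n : ℕ) (t : ℝ) : ℂ := cexp (-((t * Real.log n : ℝ) : ℂ) * I)

lemma norm_ph (n : ℕ) (t : ℝ) : ‖ph n t‖ = 1 := by
  unfold ph
  rw [← Complex.ofReal_neg, Complex.norm_exp_ofReal_mul_I]

lemma cont_ph (n : ℕ) : Continuous (ph n) := by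
  unfold ph
  fun_prop

lemma exp_neg_le_inv {x : ℝ} (hx : 0 ≤ x) : Real.exp (-x) ≤ 1 / (1 + x) := by
  rw [Real.exp_neg, one_div]
  apply inv_anti₀ (by linarith)
  linarith [Real.add_one_le_exp x]

lemma log_gap' {m n : ℕ} (hm : 1 ≤ m) (hn : 1 ≤ n) (h : m ≤ 2 * n) :
    |(m : ℝ) - n| / (2 * n) ≤ |Real.log m - Real.log n| := by
  have hm0 : (0 : ℝ) < m := by exact_mod_cast hm
  have hn0 : (0 : ℝ) < n := by exact_mod_cast hn
  have h2 : (m : ℝ) ≤ 2 * n := by exact_mod_cast h
  rcases le_total m n with h1 | h1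
  · have h1' : (m : ℝ) ≤ n := by exact_mod_cast h1
    have h3 : Real.log m ≤ Real.log n := Real.log_le_log hm0 h1'
    rw [abs_of_nonpos (by linarith), abs_of_nonpos (by linarith)]
    have h4 := Real.one_sub_inv_le_log_of_pos (show 0 < (n : ℝ) / m by positivity)
    rw [Real.log_div hn0.ne' hm0.ne', inv_div] at h4
    have h5 : -((m : ℝ) - n) / (2 * n) ≤ 1 - m / n := by
      rw [div_le_iff₀ (by positivity)]
      have : (1 - (m : ℝ) / n) * (2 * n) = 2 * (n - m) := by field_simp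
      rw [this]
      linarith
    linarith
  · have h1' : (n : ℝ) ≤ m := by exact_mod_cast h1
    have h3 : Real.log n ≤ Real.log m := Real.log_le_log hn0 h1'
    rw [abs_of_nonneg (by linarith), abs_of_nonneg (by linarith)]
    have h4 := Real.one_sub_inv_le_log_of_pos (show 0 < (m : ℝ) / n by positivity)
    rw [Real.log_div hm0.ne' hn0.ne', inv_div] at h4
    have h5 : ((m : ℝ) - n) / (2 * n) ≤ 1 - n / m := by
      rw [div_le_iff₀ (by positivity)]
      have : (1 - (n : ℝ) / m) * (2 * n) = (m - n) * (2 * n / m) := by field_simp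
      rw [this]
      have h6 : 1 ≤ 2 * (n : ℝ) / m := by rw [le_div_iff₀ hm0]; linarith
      nlinarith
    linarith

/-- the kernel -/
noncomputable def Kn (D : ℝ) (m n : ℕ) : ℝ :=
  Real.exp (-(D ^ 2 * (Real.log m - Real.log n) ^ 2 / 4))

lemma Kn_symm (D : ℝ) (m n : ℕ) : Kn D m n = Kn D n m := by
  unfold Kn
  congr 2
  ring

lemma Kn_nonneg (D : ℝ) (m n : ℕ) : 0 ≤ Kn D m n := (Real.exp_pos _).le

lemma tail_sq (M N : ℕ) (hM : 1 ≤ M) : ∑ m ∈ Finset.Ioc M N, 1 / (m : ℝ) ^ 2 ≤ 1 / (M : ℝ) := by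
  have hM0 : (0 : ℝ) < M := by exact_mod_cast hM
  rcases le_or_gt N M with h | h
  · rw [Finset.Ioc_eq_empty (by omega)]
    simp
  have key : ∀ k : ℕ, ∑ m ∈ Finset.Ioc M (M + k), 1 / (m : ℝ) ^ 2 ≤ 1 / (M : ℝ) - 1 / ((M + k : ℕ) : ℝ) := by
    intro k
    induction k with
    | zero => simp
    | succ k ih =>
      rw [← add_assoc, Finset.sum_Ioc_succ_top (by omega)]
      have h1 : (1 : ℝ) / ((M + k + 1 : ℕ) : ℝ) ^ 2 ≤ 1 / ((M + k : ℕ) : ℝ) - 1 / ((M + k + 1 : ℕ) : ℝ) := by
        push_cast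
        have h2 : (0 : ℝ) < (M : ℝ) + k := by positivity
        rw [div_sub_div _ _ (by positivity) (by positivity), div_le_div_iff₀ (by positivity) (by positivity)]
        nlinarith
      linarith
  have h2 := key (N - M)
  rw [Nat.add_sub_cancel' h.le] at h2
  have h3 : 0 ≤ 1 / (N : ℝ) := by positivity
  linarith

lemma Kn_sum {D : ℝ} (hD : 8 ≤ D) {n : ℕ} (hn : 1 ≤ n) (N : ℕ) :
    ∑ m ∈ Finset.Icc 1 N, Kn D m n ≤ 6 + 26 * n / D := by
  classical
  have hn0 : (0 : ℝ) < n := by exact_mod_cast hn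
  have hn1 : (1 : ℝ) ≤ n := by exact_mod_cast hn
  have hD0 : 0 < D := by linarith
  rw [← Finset.sum_filter_add_sum_filter_not _ (fun m => m ≤ 2 * n)]
  have h1 : ∑ m ∈ (Finset.Icc 1 N).filter (fun m => m ≤ 2 * n), Kn D m n ≤ 6 + 24 * n / D := by
    set d : ℝ := min (D / (4 * n)) 1 with hd
    have hd0 : 0 < d := lt_min (by positivity) one_pos
    have hd1 : d ≤ 1 := min_le_right _ _
    have hd2 : d ≤ D / (4 * n) := min_le_left _ _
    set S := (Finset.Icc 1 N).filter (fun m => m ≤ 2 * n) with hS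
    have hinj : Set.InjOn (fun m : ℕ => (m : ℝ) * d) (S : Set ℕ) := by
      intro a _ b _ hab
      have := mul_right_cancel₀ hd0.ne' hab
      exact_mod_cast this
    have h2 : ∑ m ∈ S, Kn D m n ≤ ∑ m ∈ S, 1 / (1 + ((m : ℝ) * d - n * d) ^ 2) := by
      apply Finset.sum_le_sum
      intro m hm
      rw [hS, Finset.mem_filter, Finset.mem_Icc] at hm
      have h3 := log_gap' hm.1.1 hn hm.2
      unfold Kn
      refine (exp_neg_le_inv (by positivity)).trans ?_
      apply one_div_le_one_div_of_le (by positivity)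
      have h4 : (|(m : ℝ) - n| / (2 * n)) ^ 2 ≤ (Real.log m - Real.log n) ^ 2 := by
        rw [← sq_abs (Real.log m - Real.log n)]
        exact pow_le_pow_left₀ (by positivity) h3 2
      have h5 : ((m : ℝ) * d - n * d) ^ 2 ≤ D ^ 2 * (|(m : ℝ) - n| / (2 * n)) ^ 2 / 4 := by
        have e1 : ((m : ℝ) * d - n * d) ^ 2 = d ^ 2 * ((m : ℝ) - n) ^ 2 := by ring
        have e2 : D ^ 2 * (|(m : ℝ) - n| / (2 * n)) ^ 2 / 4 = (D / (4 * n)) ^ 2 * ((m : ℝ) - n) ^ 2 := by
          rw [div_pow, sq_abs]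
          field_simp
          norm_num
        rw [e1, e2]
        gcongr
      have h6 : D ^ 2 * (|(m : ℝ) - n| / (2 * n)) ^ 2 / 4 ≤ D ^ 2 * (Real.log m - Real.log n) ^ 2 / 4 := by
        gcongr
      linarith
    have h7 : ∑ m ∈ S, 1 / (1 + ((m : ℝ) * d - n * d) ^ 2) =
        ∑ x ∈ S.image (fun m : ℕ => (m : ℝ) * d), 1 / (1 + (x - n * d) ^ 2) := by
      rw [Finset.sum_image hinj]
    have h8 := sep_cauchy (F := S.image (fun m : ℕ => (m : ℝ) * d)) (x0 := n * d) hd0 hd1 (by
      intro x hx y hy hxy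
      rw [Finset.mem_image] at hx hy
      obtain ⟨a, _, rfl⟩ := hx
      obtain ⟨b, _, rfl⟩ := hy
      have hab : a ≠ b := fun h => hxy (by rw [h])
      rw [← sub_mul, abs_mul, abs_of_pos hd0]
      have : (1 : ℝ) ≤ |(a : ℝ) - b| := by
        have : (1 : ℤ) ≤ |(a : ℤ) - b| := Int.one_le_abs (sub_ne_zero.2 (by exact_mod_cast hab))
        exact_mod_cast this
      nlinarith)
    have h9 : 6 / d ≤ 6 + 24 * n / D := by
      rw [hd]
      rcases min_choice (D / (4 * n)) 1 with h | h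
      · rw [h]
        have : 6 / (D / (4 * (n : ℝ))) = 24 * n / D := by field_simp; norm_num
        rw [this]
        linarith
      · rw [h]
        have : 0 ≤ 24 * (n : ℝ) / D := by positivity
        linarith
    linarith
  have h2 : ∑ m ∈ (Finset.Icc 1 N).filter (fun m => ¬ m ≤ 2 * n), Kn D m n ≤ 2 * n / D := by
    have h3 : ∀ m ∈ (Finset.Icc 1 N).filter (fun m => ¬ m ≤ 2 * n), Kn D m n ≤
        4 / D * (n ^ 2 * (1 / (m : ℝ) ^ 2)) := by
      intro m hm
      rw [Finset.mem_filter, Finset.mem_Icc] at hm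
      have hm2 : (2 : ℝ) * n ≤ m := by
        have : 2 * n ≤ m := by omega
        exact_mod_cast this
      have hm0 : (0 : ℝ) < m := by linarith
      have hlam : 0.69 ≤ Real.log m - Real.log n := by
        rw [← Real.log_div hm0.ne' hn0.ne']
        have h4 : Real.log 2 ≤ Real.log (m / n) := by
          apply Real.log_le_log (by norm_num)
          rw [le_div_iff₀ hn0]
          linarith
        linarith [Real.log_two_gt_d9]
      set l := Real.log m - Real.log n with hl
      unfold Kn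
      rw [← hl]
      have h5 : -(D ^ 2 * l ^ 2 / 4) ≤ -(0.4 * D) + (-(2 * l)) := by
        have e1 : 0.69 ^ 2 ≤ l ^ 2 := pow_le_pow_left₀ (by norm_num) hlam 2
        have e2 : 8 * D ≤ D ^ 2 := by nlinarith
        have e3 : D ^ 2 * l ^ 2 = D ^ 2 * l ^ 2 / 2 + D ^ 2 * l ^ 2 / 2 := by ring
        have e4 : 64 ≤ D ^ 2 := by nlinarith
        have e5 : 8 * D * 0.4761 ≤ D ^ 2 * l ^ 2 := by
          norm_num at e1
          nlinarith
        have e6 : 64 * (0.69 * l) ≤ D ^ 2 * l ^ 2 := by nlinarith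
        nlinarith
      refine (Real.exp_le_exp.2 h5).trans ?_
      rw [Real.exp_add]
      have h6 : Real.exp (-(0.4 * D)) ≤ 4 / D := by
        refine (exp_neg_le_inv (by positivity)).trans ?_
        rw [div_le_div_iff₀ (by positivity) hD0]
        nlinarith
      have h7 : Real.exp (-(2 * l)) = n ^ 2 * (1 / (m : ℝ) ^ 2) := by
        have : -(2 * l) = Real.log (n ^ 2 * (1 / (m : ℝ) ^ 2)) := by
          rw [Real.log_mul (by positivity) (by positivity), one_div, Real.log_inv, Real.log_pow,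
            Real.log_pow, hl]
          push_cast
          ring
        rw [this, Real.exp_log (by positivity)]
      rw [h7]
      gcongr
    refine (Finset.sum_le_sum h3).trans ?_
    rw [← Finset.mul_sum, ← Finset.mul_sum]
    have h8 : ∑ m ∈ (Finset.Icc 1 N).filter (fun m => ¬ m ≤ 2 * n), 1 / (m : ℝ) ^ 2 ≤
        1 / ((2 * n : ℕ) : ℝ) := by
      refine le_trans ?_ (tail_sq (2 * n) N (by omega))
      apply Finset.sum_le_sum_of_subset_of_nonneg
      · intro m hm
        rw [Finset.mem_filter, Finset.mem_Icc] at hm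
        rw [Finset.mem_Ioc]
        omega
      · intro i _ _
        positivity
    calc 4 / D * (n ^ 2 * ∑ m ∈ (Finset.Icc 1 N).filter (fun m => ¬ m ≤ 2 * n), 1 / (m : ℝ) ^ 2)
        ≤ 4 / D * (n ^ 2 * (1 / ((2 * n : ℕ) : ℝ))) := by gcongr
      _ = 2 * n / D := by push_cast; field_simp; norm_num
  have h10 : 24 * (n : ℝ) / D + 2 * n / D = 26 * n / D := by ring
  linarith

lemma gauss_phase {D : ℝ} (hD : 0 < D) (A α : ℝ) :
    ∫ t : ℝ, ((Real.exp (-((t - A) ^ 2 / D ^ 2)) : ℝ) : ℂ) * cexp (((α * t : ℝ) : ℂ) * I) =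
      cexp (((α * A : ℝ) : ℂ) * I) * ((D * Real.sqrt Real.pi * Real.exp (-(D ^ 2 * α ^ 2 / 4)) : ℝ) : ℂ) := by
  have h := gint hD 0 (α : ℂ)
  have h1 : ∫ t : ℝ, ((Real.exp (-((t - A) ^ 2 / D ^ 2)) : ℝ) : ℂ) * cexp (((α * t : ℝ) : ℂ) * I) =
      ∫ t : ℝ, ((Real.exp (-(t ^ 2 / D ^ 2)) : ℝ) : ℂ) * cexp (((α * (t + A) : ℝ) : ℂ) * I) := by
    rw [← integral_add_right_eq_self (fun t : ℝ => ((Real.exp (-((t - A) ^ 2 / D ^ 2)) : ℝ) : ℂ) *
      cexp (((α * t : ℝ) : ℂ) * I)) A]
    congr 1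
    funext t
    rw [add_sub_cancel_right]
  rw [h1]
  have h2 : ∀ t : ℝ, ((Real.exp (-(t ^ 2 / D ^ 2)) : ℝ) : ℂ) * cexp (((α * (t + A) : ℝ) : ℂ) * I) =
      cexp (((α * A : ℝ) : ℂ) * I) *
      cexp ((((0 : ℝ) : ℂ) + t * I) ^ 2 / (D : ℂ) ^ 2 + (α : ℂ) * (((0 : ℝ) : ℂ) + t * I)) := by
    intro t
    rw [← Complex.exp_add, Complex.ofReal_exp, ← Complex.exp_add]
    congr 1
    push_cast
    ring_nf
    rw [Complex.I_sq]
    ring
  simp_rw [h2]
  rw [integral_const_mul, h]
  congr 1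
  push_cast
  ring

/-- mean value theorem, finite sums -/
theorem mv_fin (b : ℕ → ℂ) (N : ℕ) {A B : ℝ} (hAB : 8 ≤ B - A) :
    ∫ t in A..B, ‖∑ n ∈ Finset.Icc 1 N, b n * ph n t‖ ^ 2 ≤
      6 * ∑ n ∈ Finset.Icc 1 N, ‖b n‖ ^ 2 * (6 * (B - A) + 26 * n) := by
  classical
  set D := B - A with hD
  have hD0 : 0 < D := by linarith
  set f : ℝ → ℝ := fun t => ‖∑ n ∈ Finset.Icc 1 N, b n * ph n t‖ ^ 2 with hf
  set w : ℝ → ℝ := fun t => Real.exp (-((t - A) ^ 2 / D ^ 2)) with hw
  have hwint : Integrable w := by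
    have h1 : Integrable (fun t : ℝ => Real.exp (-(1 / D ^ 2) * t ^ 2)) :=
      integrable_exp_neg_mul_sq (by positivity)
    have h2 := h1.comp_sub_right A
    refine h2.congr (Eventually.of_forall fun t => ?_)
    simp only [hw]
    congr 1
    ring
  have hfc : Continuous f := by
    simp only [hf]
    apply Continuous.pow
    apply Continuous.norm
    exact continuous_finsetSum _ fun n _ => continuous_const.mul (cont_ph n)
  have hwc : Continuous w := by simp only [hw]; fun_prop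
  -- expansion
  have hexp : ∀ t : ℝ, ((f t : ℝ) : ℂ) = ∑ m ∈ Finset.Icc 1 N, ∑ n ∈ Finset.Icc 1 N,
      b m * (starRingEnd ℂ) (b n) * cexp ((((Real.log n - Real.log m) * t : ℝ) : ℂ) * I) := by
    intro t
    simp only [hf]
    have h1 : ∀ z : ℂ, ((‖z‖ ^ 2 : ℝ) : ℂ) = z * (starRingEnd ℂ) z := by
      intro z; rw [Complex.mul_conj']; push_cast; rfl
    rw [h1, map_sum, Finset.sum_mul_sum]
    refine Finset.sum_congr rfl fun m _ => Finset.sum_congr rfl fun n _ => ?_
    unfold ph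
    rw [map_mul, ← Complex.exp_conj, mul_mul_mul_comm, ← Complex.exp_add]
    congr 2
    simp only [map_mul, map_neg, Complex.conj_ofReal, Complex.conj_I]
    push_cast
    ring
  have hterm : ∀ α : ℝ, Integrable (fun t : ℝ => ((w t : ℝ) : ℂ) * cexp (((α * t : ℝ) : ℂ) * I)) := by
    intro α
    refine hwint.mono' (f := fun t : ℝ => ((w t : ℝ) : ℂ) * cexp (((α * t : ℝ) : ℂ) * I)) ?_
      (Eventually.of_forall fun t => ?_)
    · apply Continuous.aestronglyMeasurable
      fun_prop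
    · rw [norm_mul, Complex.norm_exp_ofReal_mul_I, mul_one, Complex.norm_real, Real.norm_of_nonneg]
      simp only [hw]
      positivity
  have hwf : Integrable (fun t => w t * f t) := by
    have h1 : Integrable (fun t : ℝ => ((w t * f t : ℝ) : ℂ)) := by
      have h2 : (fun t : ℝ => ((w t * f t : ℝ) : ℂ)) = fun t : ℝ => ∑ m ∈ Finset.Icc 1 N,
          ∑ n ∈ Finset.Icc 1 N, b m * (starRingEnd ℂ) (b n) *
          (((w t : ℝ) : ℂ) * cexp ((((Real.log n - Real.log m) * t : ℝ) : ℂ) * I)) := by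
        funext t
        rw [Complex.ofReal_mul, hexp, Finset.mul_sum]
        refine Finset.sum_congr rfl fun m _ => ?_
        rw [Finset.mul_sum]
        refine Finset.sum_congr rfl fun n _ => ?_
        ring
      rw [h2]
      exact integrable_finsetSum _ fun m _ => integrable_finsetSum _ fun n _ =>
        (hterm _).const_mul _
    have h3 := h1.re
    simpa using h3
  have hval : ((∫ t : ℝ, w t * f t : ℝ) : ℂ) = ∑ m ∈ Finset.Icc 1 N, ∑ n ∈ Finset.Icc 1 N,
      b m * (starRingEnd ℂ) (b n) * (cexp ((((Real.log n - Real.log m) * A : ℝ) : ℂ) * I) *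
        ((D * Real.sqrt Real.pi * Real.exp (-(D ^ 2 * (Real.log n - Real.log m) ^ 2 / 4)) : ℝ) : ℂ)) := by
    rw [← integral_complex_ofReal]
    have h2 : (fun t : ℝ => ((w t * f t : ℝ) : ℂ)) = fun t : ℝ => ∑ m ∈ Finset.Icc 1 N,
        ∑ n ∈ Finset.Icc 1 N, b m * (starRingEnd ℂ) (b n) *
        (((w t : ℝ) : ℂ) * cexp ((((Real.log n - Real.log m) * t : ℝ) : ℂ) * I)) := by
      funext t
      rw [Complex.ofReal_mul, hexp, Finset.mul_sum]
      refine Finset.sum_congr rfl fun m _ => ?_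
      rw [Finset.mul_sum]
      refine Finset.sum_congr rfl fun n _ => ?_
      ring
    rw [h2, integral_finsetSum]
    · refine Finset.sum_congr rfl fun m _ => ?_
      rw [integral_finsetSum]
      · refine Finset.sum_congr rfl fun n _ => ?_
        rw [integral_const_mul, ← gauss_phase hD0]
      · exact fun n _ => (hterm _).const_mul _
    · exact fun m _ => integrable_finsetSum _ fun n _ => (hterm _).const_mul _
  have hbound : ∫ t : ℝ, w t * f t ≤ D * Real.sqrt Real.pi *
      ∑ n ∈ Finset.Icc 1 N, ‖b n‖ ^ 2 * (6 + 26 * n / D) := by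
    have h1 : ∫ t : ℝ, w t * f t ≤ ‖((∫ t : ℝ, w t * f t : ℝ) : ℂ)‖ := by
      rw [Complex.norm_real]
      exact le_abs_self _
    refine h1.trans ?_
    rw [hval]
    have h2 : ∀ m n : ℕ, ‖b m * (starRingEnd ℂ) (b n) *
        (cexp ((((Real.log n - Real.log m) * A : ℝ) : ℂ) * I) *
        ((D * Real.sqrt Real.pi * Real.exp (-(D ^ 2 * (Real.log n - Real.log m) ^ 2 / 4)) : ℝ) : ℂ))‖ =
        D * Real.sqrt Real.pi * (‖b m‖ * ‖b n‖ * Kn D m n) := by
      intro m n
      rw [norm_mul, norm_mul, norm_mul, RCLike.norm_conj, Complex.norm_exp_ofReal_mul_I, one_mul,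
        Complex.norm_real, Real.norm_of_nonneg (by positivity), Kn_symm]
      unfold Kn
      ring
    calc _ ≤ ∑ m ∈ Finset.Icc 1 N, ∑ n ∈ Finset.Icc 1 N,
          D * Real.sqrt Real.pi * (‖b m‖ * ‖b n‖ * Kn D m n) := by
          refine (norm_sum_le _ _).trans (Finset.sum_le_sum fun m _ => ?_)
          refine (norm_sum_le _ _).trans (Finset.sum_le_sum fun n _ => ?_)
          rw [h2]
      _ ≤ ∑ m ∈ Finset.Icc 1 N, ∑ n ∈ Finset.Icc 1 N,
          D * Real.sqrt Real.pi * ((‖b m‖ ^ 2 * Kn D m n + ‖b n‖ ^ 2 * Kn D m n) / 2) := by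
          refine Finset.sum_le_sum fun m _ => Finset.sum_le_sum fun n _ => ?_
          apply mul_le_mul_of_nonneg_left _ (by positivity)
          have h3 := Kn_nonneg D m n
          have h4 : ‖b m‖ * ‖b n‖ ≤ (‖b m‖ ^ 2 + ‖b n‖ ^ 2) / 2 := by
            nlinarith [sq_nonneg (‖b m‖ - ‖b n‖)]
          calc ‖b m‖ * ‖b n‖ * Kn D m n ≤ (‖b m‖ ^ 2 + ‖b n‖ ^ 2) / 2 * Kn D m n :=
                mul_le_mul_of_nonneg_right h4 h3
            _ = _ := by ring
      _ = D * Real.sqrt Real.pi * ∑ n ∈ Finset.Icc 1 N, ‖b n‖ ^ 2 *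
            ∑ m ∈ Finset.Icc 1 N, Kn D m n := by
          simp_rw [← Finset.mul_sum]
          congr 1
          have e1 : ∑ m ∈ Finset.Icc 1 N, ∑ n ∈ Finset.Icc 1 N,
              (‖b m‖ ^ 2 * Kn D m n + ‖b n‖ ^ 2 * Kn D m n) / 2 =
              (∑ m ∈ Finset.Icc 1 N, ∑ n ∈ Finset.Icc 1 N, ‖b m‖ ^ 2 * Kn D m n +
              ∑ m ∈ Finset.Icc 1 N, ∑ n ∈ Finset.Icc 1 N, ‖b n‖ ^ 2 * Kn D m n) / 2 := by
            rw [← Finset.sum_add_distrib, Finset.sum_div]
            refine Finset.sum_congr rfl fun m _ => ?_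
            rw [← Finset.sum_add_distrib, Finset.sum_div]
          have e2 : ∑ m ∈ Finset.Icc 1 N, ∑ n ∈ Finset.Icc 1 N, ‖b n‖ ^ 2 * Kn D m n =
              ∑ m ∈ Finset.Icc 1 N, ∑ n ∈ Finset.Icc 1 N, ‖b m‖ ^ 2 * Kn D m n := by
            rw [Finset.sum_comm]
            refine Finset.sum_congr rfl fun m _ => Finset.sum_congr rfl fun n _ => ?_
            rw [Kn_symm]
          rw [e1, e2]
          have e3 : ∑ m ∈ Finset.Icc 1 N, ∑ n ∈ Finset.Icc 1 N, ‖b m‖ ^ 2 * Kn D m n =
              ∑ n ∈ Finset.Icc 1 N, ‖b n‖ ^ 2 * ∑ m ∈ Finset.Icc 1 N, Kn D m n := by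
            refine Finset.sum_congr rfl fun m _ => ?_
            rw [Finset.mul_sum]
            refine Finset.sum_congr rfl fun n _ => ?_
            rw [Kn_symm]
          rw [e3]
          ring
      _ ≤ _ := by
          apply mul_le_mul_of_nonneg_left _ (by positivity)
          refine Finset.sum_le_sum fun n hn => ?_
          rw [Finset.mem_Icc] at hn
          exact mul_le_mul_of_nonneg_left (Kn_sum hAB hn.1 N) (by positivity)
  have hmaj : ∫ t in A..B, f t ≤ Real.exp 1 * ∫ t : ℝ, w t * f t := by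
    rw [intervalIntegral.integral_of_le (by linarith)]
    have h1 : ∫ t in Ioc A B, f t ≤ ∫ t in Ioc A B, Real.exp 1 * (w t * f t) := by
      apply setIntegral_mono_on
      · exact hfc.integrableOn_Ioc
      · exact (hwf.const_mul _).integrableOn
      · exact measurableSet_Ioc
      · intro t ht
        have h2 : 1 ≤ Real.exp 1 * w t := by
          simp only [hw]
          rw [← Real.exp_add]
          apply Real.one_le_exp
          have h3 : (t - A) ^ 2 / D ^ 2 ≤ 1 := by
            rw [div_le_one (by positivity)]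
            apply pow_le_pow_left₀ (by linarith [ht.1])
            linarith [ht.2]
          linarith
        have h4 : 0 ≤ f t := by simp only [hf]; positivity
        calc f t = 1 * f t := (one_mul _).symm
          _ ≤ (Real.exp 1 * w t) * f t := mul_le_mul_of_nonneg_right h2 h4
          _ = _ := by ring
    refine h1.trans ?_
    rw [integral_const_mul]
    apply mul_le_mul_of_nonneg_left _ (Real.exp_pos _).le
    exact setIntegral_le_integral hwf (Eventually.of_forall fun t => by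
      simp only [hw, hf]; positivity)
  have hexp1 : Real.exp 1 * Real.sqrt Real.pi ≤ 6 := by
    have h5 := Real.exp_one_lt_d9
    have h6 : Real.sqrt Real.pi ≤ 1.78 := by
      rw [Real.sqrt_le_left (by norm_num)]
      have := Real.pi_lt_d2
      norm_num at this ⊢
      linarith
    have h7 := Real.sqrt_nonneg Real.pi
    nlinarith [Real.exp_pos 1]
  calc ∫ t in A..B, f t ≤ Real.exp 1 * ∫ t : ℝ, w t * f t := hmaj
    _ ≤ Real.exp 1 * (D * Real.sqrt Real.pi * ∑ n ∈ Finset.Icc 1 N, ‖b n‖ ^ 2 * (6 + 26 * n / D)) := by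
        gcongr
    _ = (Real.exp 1 * Real.sqrt Real.pi) * ∑ n ∈ Finset.Icc 1 N, ‖b n‖ ^ 2 * (6 * D + 26 * n) := by
        rw [Finset.mul_sum, Finset.mul_sum, Finset.mul_sum]
        refine Finset.sum_congr rfl fun n _ => ?_
        field_simp
    _ ≤ _ := by
        apply mul_le_mul_of_nonneg_right hexp1
        apply Finset.sum_nonneg
        intro n _
        positivity

/-- mean value theorem, absolutely convergent series -/
theorem mv_tsum (b : ℕ → ℂ) (hb : Summable (fun n => ‖b n‖)) {S : ℝ} {A B : ℝ} (hAB : 8 ≤ B - A)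
    (hS : ∀ N : ℕ, ∑ n ∈ Finset.Icc 1 N, ‖b n‖ ^ 2 * (6 * (B - A) + 26 * n) ≤ S) (hb0 : b 0 = 0) :
    ∫ t in A..B, ‖∑' n : ℕ, b n * ph n t‖ ^ 2 ≤ 6 * S := by
  have hlim : Tendsto (fun N : ℕ => ∫ t in A..B, ‖∑ n ∈ Finset.Icc 1 N, b n * ph n t‖ ^ 2) atTop
      (𝓝 (∫ t in A..B, ‖∑' n : ℕ, b n * ph n t‖ ^ 2)) := by
    apply intervalIntegral.tendsto_integral_filter_of_dominated_convergence
      (bound := fun _ => (∑' n : ℕ, ‖b n‖) ^ 2)
    · refine Eventually.of_forall fun N => ?_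
      apply Continuous.aestronglyMeasurable
      apply Continuous.pow
      apply Continuous.norm
      exact continuous_finsetSum _ fun n _ => continuous_const.mul (cont_ph n)
    · refine Eventually.of_forall fun N => Eventually.of_forall fun t _ => ?_
      rw [Real.norm_of_nonneg (by positivity)]
      apply pow_le_pow_left₀ (norm_nonneg _)
      refine (norm_sum_le _ _).trans ?_
      have h1 : ∑ n ∈ Finset.Icc 1 N, ‖b n * ph n t‖ = ∑ n ∈ Finset.Icc 1 N, ‖b n‖ := by
        refine Finset.sum_congr rfl fun n _ => ?_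
        rw [norm_mul, norm_ph, mul_one]
      rw [h1]
      exact hb.sum_le_tsum _ fun n _ => norm_nonneg _
    · exact intervalIntegrable_const
    · refine Eventually.of_forall fun t _ => ?_
      have h1 : Summable (fun n : ℕ => b n * ph n t) := by
        refine Summable.of_norm ?_
        simpa [norm_ph] using hb
      have h2 := h1.hasSum.tendsto_sum_nat
      have h3 : Tendsto (fun N : ℕ => ∑ n ∈ Finset.Icc 1 N, b n * ph n t) atTop
          (𝓝 (∑' n : ℕ, b n * ph n t)) := by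
        have h4 := h2.comp (tendsto_add_atTop_nat 1)
        refine h4.congr fun N => ?_
        simp only [Function.comp]
        rw [Finset.sum_range_eq_add_Ico _ (by omega), hb0, zero_mul, zero_add]
        congr 1
      exact (h3.norm).pow 2
  refine le_of_tendsto hlim (Eventually.of_forall fun N => ?_)
  refine (mv_fin b N hAB).trans ?_
  exact mul_le_mul_of_nonneg_left (hS N) (by norm_num)

end Pool.Agent.N806.AH
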