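import Pool.Agent.N806.AH.MV
import Pool.Agent.N806.AH.Hor

/-! The Dirichlet series of `1/ζ` and its smoothed partial sums. -/

set_option autoImplicit false

open Complex Filter Topology Set MeasureTheory Metric

namespace Pool.Agent.N806.AH

/-- Moebius function, complex valued -/
noncomputable def mu (n : ℕ) : ℂ := ((ArithmeticFunction.moebius n : ℤ) : ℂ)

lemma norm_mu (n : ℕ) : ‖mu n‖ ≤ 1 := by
  unfold mu
  rw [Complex.norm_intCast]
  exact_mod_cast ArithmeticFunction.abs_moebius_le_one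

lemma mu_zero : mu 0 = 0 := by simp [mu]

lemma cpow_line {n : ℕ} (hn : n ≠ 0) (σ t : ℝ) :
    ((n : ℂ) ^ (⟨σ, t⟩ : ℂ))⁻¹ = (((n : ℝ) ^ (-σ) : ℝ) : ℂ) * ph n t := by
  have hn0 : (0 : ℝ) < n := by exact_mod_cast Nat.pos_of_ne_zero hn
  rw [mk_line, ← Complex.cpow_neg, neg_add, Complex.cpow_add _ _ (by exact_mod_cast hn)]
  congr 1
  · rw [Complex.ofReal_cpow hn0.le]
    push_cast
    rfl
  · unfold ph
    rw [Complex.cpow_def_of_ne_zero (by exact_mod_cast hn), ← Complex.natCast_log]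
    congr 1
    push_cast
    ring

lemma inv_zeta_hasSum {σ : ℝ} (hσ : 1 < σ) (t : ℝ) :
    HasSum (fun n : ℕ => mu n * (((n : ℝ) ^ (-σ) : ℝ) : ℂ) * ph n t) (riemannZeta ⟨σ, t⟩)⁻¹ := by
  have hs : 1 < (⟨σ, t⟩ : ℂ).re := hσ
  have h1 : LSeriesSummable (fun n => ((ArithmeticFunction.moebius n : ℤ) : ℂ)) (⟨σ, t⟩ : ℂ) :=
    ArithmeticFunction.LSeriesSummable_moebius_iff.mpr hs
  have h2 := ArithmeticFunction.LSeries_zeta_mul_Lseries_moebius hs
  rw [ArithmeticFunction.LSeries_zeta_eq_riemannZeta hs] at h2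
  have h3 : LSeries (fun n => ((ArithmeticFunction.moebius n : ℤ) : ℂ)) (⟨σ, t⟩ : ℂ) =
      (riemannZeta ⟨σ, t⟩)⁻¹ := eq_inv_of_mul_eq_one_right h2
  have h4 := h1.LSeriesHasSum
  rw [h3] at h4
  unfold LSeriesHasSum at h4
  refine h4.congr_fun ?_ |> fun h => h
  intro n
  unfold LSeries.term
  split_ifs with h
  · rw [h, mu_zero]; simp
  · rw [div_eq_mul_inv, cpow_line h]
    unfold mu
    ring

lemma summable_rpow {σ : ℝ} (hσ : 1 < σ) : Summable (fun n : ℕ => (n : ℝ) ^ (-σ)) :=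
  Real.summable_nat_rpow.2 (by linarith)

/-- coefficients of the smoothed partial sum -/
noncomputable def bD (κ LL : ℝ) (n : ℕ) : ℂ :=
  mu n * (((n : ℝ) ^ (-(1 / 2 + κ)) * Vr (Real.log n - LL) : ℝ) : ℂ)

/-- the smoothed partial sum -/
noncomputable def DD (κ LL t : ℝ) : ℂ := ∑' n : ℕ, bD κ LL n * ph n t

/-- kernel -/
noncomputable def GG (a LL τ : ℝ) : ℂ :=
  cexp (((a : ℂ) + τ * I) ^ 2 + (LL : ℂ) * (a + τ * I)) / ((a : ℂ) + τ * I)

lemma GG_den {a : ℝ} (ha : 0 < a) (τ : ℝ) : ((a : ℂ) + τ * I) ≠ 0 := by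
  intro h
  have := congrArg Complex.re h
  simp at this
  exact ha.ne' this

lemma GG_cont {a : ℝ} (ha : 0 < a) (LL : ℝ) : Continuous (GG a LL) := by
  unfold GG
  apply Continuous.div
  · fun_prop
  · fun_prop
  · exact GG_den ha

lemma GG_norm {a : ℝ} (ha : 0 < a) (LL τ : ℝ) :
    ‖GG a LL τ‖ ≤ (Real.exp (a ^ 2 + LL * a) / a) * Real.exp (-1 * (τ - 0) ^ 2) := by
  unfold GG
  rw [norm_div, Complex.norm_exp]
  have h1 : (((a : ℂ) + τ * I) ^ 2 + (LL : ℂ) * (a + τ * I)).re = a ^ 2 + LL * a - τ ^ 2 := by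
    rw [pow_two]
    simp
    ring
  rw [h1]
  have h2 : a ≤ ‖((a : ℂ) + τ * I)‖ := by
    have := Complex.re_le_norm ((a : ℂ) + τ * I)
    simpa using this
  calc Real.exp (a ^ 2 + LL * a - τ ^ 2) / ‖((a : ℂ) + τ * I)‖
      ≤ Real.exp (a ^ 2 + LL * a - τ ^ 2) / a := by gcongr
    _ = (Real.exp (a ^ 2 + LL * a) / a) * Real.exp (-1 * (τ - 0) ^ 2) := by
        rw [sub_eq_add_neg, Real.exp_add]
        ring_nf

lemma GG_int {a : ℝ} (ha : 0 < a) (LL : ℝ) : Integrable (GG a LL) :=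
  ((gint_b 0 1 one_pos).const_mul _).mono' (GG_cont ha LL).aestronglyMeasurable
    (Eventually.of_forall (GG_norm ha LL))

theorem dd_formula {κ : ℝ} (hκ1 : κ ≤ 1 / 2) (LL t0 : ℝ) :
    ∫ τ : ℝ, (riemannZeta ⟨2, t0 + τ⟩)⁻¹ * GG (3 / 2 - κ) LL τ = ((2 * Real.pi : ℝ) : ℂ) * DD κ LL t0 := by
  set a : ℝ := 3 / 2 - κ with ha
  have ha0 : 0 < a := by linarith
  let F : ℕ → ℝ → ℂ := fun n τ => mu n * (((n : ℝ) ^ (-(2 : ℝ)) : ℝ) : ℂ) * ph n (t0 + τ) * GG a LL τ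
  have hGi := GG_int ha0 LL
  have hFn : ∀ n τ, ‖F n τ‖ ≤ (n : ℝ) ^ (-(2 : ℝ)) * ‖GG a LL τ‖ := by
    intro n τ
    simp only [F]
    rw [norm_mul, norm_mul, norm_mul, norm_ph, mul_one, Complex.norm_real, Real.norm_eq_abs,
      abs_of_nonneg (by positivity)]
    have := norm_mu n
    have h2 : 0 ≤ (n : ℝ) ^ (-(2 : ℝ)) := by positivity
    have h3 := norm_nonneg (GG a LL τ)
    calc ‖mu n‖ * (n : ℝ) ^ (-(2 : ℝ)) * ‖GG a LL τ‖ ≤ 1 * (n : ℝ) ^ (-(2 : ℝ)) * ‖GG a LL τ‖ := by gcongr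
      _ = _ := by ring
  have hFc : ∀ n, Continuous (F n) := by
    intro n
    simp only [F]
    have := GG_cont ha0 LL
    have := cont_ph n
    fun_prop
  have hFi : ∀ n, Integrable (F n) := fun n =>
    (hGi.norm.const_mul ((n : ℝ) ^ (-(2 : ℝ)))).mono' (hFc n).aestronglyMeasurable
      (Eventually.of_forall (hFn n))
  have hsum : Summable fun n => ∫ τ, ‖F n τ‖ := by
    have h1 : Summable fun n : ℕ => (n : ℝ) ^ (-(2 : ℝ)) * ∫ τ, ‖GG a LL τ‖ :=
      (summable_rpow (by norm_num)).mul_right _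
    refine Summable.of_nonneg_of_le (fun n => integral_nonneg fun τ => norm_nonneg _) (fun n => ?_) h1
    rw [← integral_const_mul]
    exact integral_mono (hFi n).norm (hGi.norm.const_mul _) (hFn n)
  have key := hasSum_integral_of_summable_integral_norm hFi hsum
  have e1 : ∀ τ : ℝ, ∑' n, F n τ = (riemannZeta ⟨2, t0 + τ⟩)⁻¹ * GG a LL τ := by
    intro τ
    have := (inv_zeta_hasSum (σ := 2) (by norm_num) (t0 + τ)).mul_right (GG a LL τ)
    exact this.tsum_eq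
  simp_rw [e1] at key
  have e2 : ∀ n, ∫ τ, F n τ = ((2 * Real.pi : ℝ) : ℂ) * (bD κ LL n * ph n t0) := by
    intro n
    rcases Nat.eq_zero_or_pos n with hn | hn
    · subst hn
      simp [F, bD, mu_zero]
    have hn0 : (0 : ℝ) < n := by exact_mod_cast hn
    have e3 : ∀ τ : ℝ, F n τ = (mu n * (((n : ℝ) ^ (-(1 / 2 + κ)) : ℝ) : ℂ) * ph n t0) *
        (cexp (((a : ℂ) + τ * I) ^ 2 - ((Real.log n - LL : ℝ) : ℂ) * (a + τ * I)) / ((a : ℂ) + τ * I)) := by
      intro τ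
      simp only [F]
      have h1 : (((n : ℝ) ^ (-(2 : ℝ)) : ℝ) : ℂ) =
          (((n : ℝ) ^ (-(1 / 2 + κ)) : ℝ) : ℂ) * cexp (-((Real.log n : ℝ) : ℂ) * a) := by
        rw [show (-(2 : ℝ)) = -(1 / 2 + κ) + (-a) by rw [ha]; ring, Real.rpow_add hn0,
          Complex.ofReal_mul]
        congr 1
        rw [show (-((Real.log n : ℝ) : ℂ) * (a : ℂ)) = (((Real.log n) * (-a) : ℝ) : ℂ) by push_cast; ring,
          ← Complex.ofReal_exp, Real.exp_mul, Real.exp_log hn0]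
      have h2 : ph n (t0 + τ) = ph n t0 * cexp (-((Real.log n : ℝ) : ℂ) * (τ * I)) := by
        unfold ph
        rw [← Complex.exp_add]
        congr 1
        push_cast
        ring
      have h3 : cexp (((a : ℂ) + τ * I) ^ 2 - ((Real.log n - LL : ℝ) : ℂ) * (a + τ * I)) =
          cexp (-((Real.log n : ℝ) : ℂ) * a) * cexp (-((Real.log n : ℝ) : ℂ) * (τ * I)) *
          cexp (((a : ℂ) + τ * I) ^ 2 + (LL : ℂ) * (a + τ * I)) := by
        rw [← Complex.exp_add, ← Complex.exp_add]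
        congr 1
        push_cast
        ring
      rw [h1, h2, h3]
      unfold GG
      ring
    simp_rw [e3]
    rw [integral_const_mul, Vr_formula ha0]
    unfold bD
    push_cast
    ring
  simp_rw [e2] at key
  rw [← key.tsum_eq, tsum_mul_left]
  rfl

end Pool.Agent.N806.AH
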