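import Pool.Agent.N806.AH.Ker

/-! The right-hand side of the contour for the resonance integral. -/

set_option autoImplicit false

open Complex Filter Topology Set MeasureTheory Metric

namespace Pool.Agent.N806.AH

open H345 H345.Chi

/-- Gaussian weight -/
noncomputable def wg (H t0 : ℝ) (s : ℂ) : ℂ := cexp ((s - (1 / 2 + (t0 : ℂ) * I)) ^ 2 / (H : ℂ) ^ 2)

lemma wg_diff (H t0 : ℝ) : Differentiable ℂ (wg H t0) := by
  unfold wg
  fun_prop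

lemma norm_wg (H t0 σ t : ℝ) : ‖wg H t0 ⟨σ, t⟩‖ = Real.exp (((σ - 1 / 2) ^ 2 - (t - t0) ^ 2) / H ^ 2) := by
  unfold wg
  rw [Complex.norm_exp]
  congr 1
  have : (⟨σ, t⟩ : ℂ) - (1 / 2 + (t0 : ℂ) * I) = ⟨σ - 1 / 2, t - t0⟩ := by
    apply Complex.ext <;> simp
  rw [this, ← Complex.ofReal_pow, Complex.div_ofReal_re, pow_two]
  congr 1
  simp
  ring

lemma norm_wg_le {H : ℝ} (hH : 1 ≤ H) {σ : ℝ} (h1 : -1 ≤ σ) (h2 : σ ≤ 2) (t0 t : ℝ) :
    ‖wg H t0 ⟨σ, t⟩‖ ≤ Real.exp (9 / 4) * Real.exp (-(1 / H ^ 2) * (t - t0) ^ 2) := by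
  rw [norm_wg, ← Real.exp_add]
  apply Real.exp_le_exp.2
  have h3 : (σ - 1 / 2) ^ 2 ≤ 9 / 4 := by nlinarith
  have h4 : 1 ≤ H ^ 2 := one_le_pow₀ hH
  have h5 : (σ - 1 / 2) ^ 2 / H ^ 2 ≤ 9 / 4 := by
    calc (σ - 1 / 2) ^ 2 / H ^ 2 ≤ (σ - 1 / 2) ^ 2 / 1 := by gcongr
      _ ≤ 9 / 4 := by rw [div_one]; exact h3
  have h6 : ((σ - 1 / 2) ^ 2 - (t - t0) ^ 2) / H ^ 2 = (σ - 1 / 2) ^ 2 / H ^ 2 + -(1 / H ^ 2) * (t - t0) ^ 2 := by
    ring
  linarith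

/-- the resonance integral -/
noncomputable def Rint (y b : ℝ) (ℓ : ℕ) (H t0 : ℝ) : ℂ :=
  ∫ v : ℝ, wg H t0 ⟨2, v⟩ * mm y b ℓ ⟨2, v⟩ * (riemannZeta ⟨2, v⟩)⁻¹

lemma cont_two : Continuous (fun t : ℝ => (⟨2, t⟩ : ℂ)) := by
  have : (fun t : ℝ => (⟨2, t⟩ : ℂ)) = fun t : ℝ => ((2 : ℝ) : ℂ) + (t : ℂ) * I := by
    funext t; rw [mk_line]
  rw [this]; fun_prop

lemma cont_zeta_two : Continuous (fun t : ℝ => (riemannZeta ⟨2, t⟩)⁻¹) := by
  have hne2 : ∀ t : ℝ, riemannZeta ⟨2, t⟩ ≠ 0 := fun t =>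
    riemannZeta_ne_zero_of_one_le_re (by simp)
  apply Continuous.inv₀ _ hne2
  rw [continuous_iff_continuousAt]
  intro t
  have h5 : ContinuousAt riemannZeta (⟨2, t⟩ : ℂ) :=
    (differentiableAt_riemannZeta (by
      intro h; have := congrArg Complex.re h; simp at this)).continuousAt
  exact ContinuousAt.comp (f := fun t : ℝ => (⟨2, t⟩ : ℂ)) h5 cont_two.continuousAt

lemma cont_wg_two (H t0 : ℝ) : Continuous (fun t : ℝ => wg H t0 ⟨2, t⟩) :=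
  (wg_diff H t0).continuous.comp cont_two

lemma cont_mm_two {y : ℝ} (hy : 0 < y) {b : ℝ} (hb : 0 ≤ b) {ℓ : ℕ} (hℓ : 1 ≤ ℓ) :
    Continuous (fun t : ℝ => mm y b ℓ ⟨2, t⟩) := by
  have h1 : (fun t : ℝ => mm y b ℓ ⟨2, t⟩) = fun t : ℝ =>
      cexp (-((((Real.log (2 * Real.pi * y * ℓ) + pb b : ℝ) : ℂ) +
      ((Real.pi / 2 - Real.arctan b : ℝ) : ℂ) * I) * (⟨2, t⟩ : ℂ))) * Gamma ⟨2, t⟩ := by
    funext t
    rw [mm_eq hy hb hℓ]
  rw [h1]
  apply Continuous.mul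
  · have := cont_two
    fun_prop
  · rw [continuous_iff_continuousAt]
    intro t
    have h5 : ContinuousAt Gamma (⟨2, t⟩ : ℂ) := by
      apply (Complex.differentiableAt_Gamma _ _).continuousAt
      intro m hm
      have := congrArg Complex.re hm
      simp at this
      have h2 : (0 : ℝ) ≤ m := Nat.cast_nonneg m
      linarith
    exact ContinuousAt.comp (f := fun t : ℝ => (⟨2, t⟩ : ℂ)) h5 cont_two.continuousAt

lemma poly_gauss {H : ℝ} (hH : 1 ≤ H) (x : ℝ) :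
    (1 + |x|) ^ 2 * Real.exp (-(1 / H ^ 2) * x ^ 2) ≤ (2 + 4 * H ^ 2) * Real.exp (-(1 / (2 * H ^ 2)) * x ^ 2) := by
  have hH2 : 0 < H ^ 2 := by positivity
  have e1 : Real.exp (-(1 / H ^ 2) * x ^ 2) = Real.exp (-(1 / (2 * H ^ 2)) * x ^ 2) *
      Real.exp (-(x ^ 2 / (2 * H ^ 2))) := by
    rw [← Real.exp_add]; congr 1; field_simp; ring
  have h1 : (1 + |x|) ^ 2 ≤ 2 + 2 * x ^ 2 := by
    have : x ^ 2 = |x| ^ 2 := (sq_abs x).symm
    rw [this]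
    nlinarith [sq_nonneg (1 - |x|)]
  have h2 : Real.exp (-(x ^ 2 / (2 * H ^ 2))) ≤ 1 / (1 + x ^ 2 / (2 * H ^ 2)) := exp_neg_le_inv (by positivity)
  have h3 : (2 + 2 * x ^ 2) * (1 / (1 + x ^ 2 / (2 * H ^ 2))) ≤ 2 + 4 * H ^ 2 := by
    rw [mul_one_div, div_le_iff₀ (by positivity)]
    have h4 : (2 + 4 * H ^ 2) * (1 + x ^ 2 / (2 * H ^ 2)) = 2 + 4 * H ^ 2 + x ^ 2 / H ^ 2 + 2 * x ^ 2 := by
      field_simp
      ring
    rw [h4]
    have : 0 ≤ x ^ 2 / H ^ 2 := by positivity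
    linarith
  calc (1 + |x|) ^ 2 * Real.exp (-(1 / H ^ 2) * x ^ 2)
      ≤ (2 + 2 * x ^ 2) * (Real.exp (-(1 / (2 * H ^ 2)) * x ^ 2) * (1 / (1 + x ^ 2 / (2 * H ^ 2)))) := by
        rw [e1]; gcongr
    _ = ((2 + 2 * x ^ 2) * (1 / (1 + x ^ 2 / (2 * H ^ 2)))) * Real.exp (-(1 / (2 * H ^ 2)) * x ^ 2) := by ring
    _ ≤ _ := by gcongr

lemma poly_shift (v t0 : ℝ) : (1 + |v|) ^ 2 ≤ (1 + |t0|) ^ 2 * (1 + |v - t0|) ^ 2 := by
  rw [← mul_pow]
  have h1 : |v| ≤ |t0| + |v - t0| := by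
    have := abs_add_le t0 (v - t0)
    rwa [add_sub_cancel] at this
  have h2 := abs_nonneg t0
  have h3 := abs_nonneg (v - t0)
  have h4 := abs_nonneg v
  gcongr
  nlinarith

/-- bound for the integrand of `Rint` -/
lemma rint_bound {y : ℝ} (hy : 0 < y) {ℓ : ℕ} (hℓ : 1 ≤ ℓ) {H : ℝ} (hH : 1 ≤ H) : ∃ C : ℝ, 1 ≤ C ∧
    ∀ b : ℝ, 0 ≤ b → ∀ t0 v : ℝ,
    ‖wg H t0 ⟨2, v⟩ * mm y b ℓ ⟨2, v⟩ * (riemannZeta ⟨2, v⟩)⁻¹‖ ≤
      C * (1 + |t0|) ^ 2 * Real.exp (-(1 / (2 * H ^ 2)) * (v - t0) ^ 2) := by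
  obtain ⟨C, hC, hm⟩ := mm_bound hy hℓ
  refine ⟨3 * Real.exp (9 / 4) * C * (2 + 4 * H ^ 2), by
    have : 1 ≤ Real.exp (9 / 4) := Real.one_le_exp (by norm_num)
    have h2 : 1 ≤ 2 + 4 * H ^ 2 := by nlinarith
    have h3 : 1 ≤ 3 * Real.exp (9 / 4) * C := by nlinarith
    nlinarith, fun b hb t0 v => ?_⟩
  rw [norm_mul, norm_mul]
  have h1 := norm_wg_le hH (σ := 2) (by norm_num) le_rfl t0 v
  have h2 := (hm b hb v).1
  have h3 := norm_inv_zeta_two v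
  have h4 := poly_shift v t0
  have h5 := poly_gauss hH (v - t0)
  calc _ ≤ (Real.exp (9 / 4) * Real.exp (-(1 / H ^ 2) * (v - t0) ^ 2)) * (C * (1 + |v|) ^ 2) * 3 := by gcongr
    _ ≤ (Real.exp (9 / 4) * Real.exp (-(1 / H ^ 2) * (v - t0) ^ 2)) *
        (C * ((1 + |t0|) ^ 2 * (1 + |v - t0|) ^ 2)) * 3 := by gcongr
    _ = 3 * Real.exp (9 / 4) * C * (1 + |t0|) ^ 2 *
        ((1 + |v - t0|) ^ 2 * Real.exp (-(1 / H ^ 2) * (v - t0) ^ 2)) := by ring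
    _ ≤ 3 * Real.exp (9 / 4) * C * (1 + |t0|) ^ 2 *
        ((2 + 4 * H ^ 2) * Real.exp (-(1 / (2 * H ^ 2)) * (v - t0) ^ 2)) := by gcongr
    _ = _ := by ring

lemma exp_L_sq {L : ℝ} (hL : 1 ≤ L) : Real.exp (-(4 * L ^ 2)) ≤ Real.exp (-(3 * L)) := by
  apply Real.exp_le_exp.2
  nlinarith

lemma tail_fac {H W L : ℝ} (hH : 1 ≤ H) (hL : 1 ≤ L) (hW : 4 * H * L ≤ W) :
    Real.exp (-((1 / (2 * H ^ 2)) / 2) * W ^ 2) ≤ Real.exp (-(3 * L)) := by
  refine le_trans ?_ (exp_L_sq hL)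
  apply Real.exp_le_exp.2
  have h1 : (4 * H * L) ^ 2 ≤ W ^ 2 := by gcongr
  have h2 : 16 * L ^ 2 ≤ W ^ 2 / H ^ 2 := by
    rw [le_div_iff₀ (by positivity)]
    nlinarith
  have h3 : (1 / (2 * H ^ 2)) / 2 * W ^ 2 = W ^ 2 / H ^ 2 / 4 := by
    field_simp
    ring
  linarith

/-- the right-hand side -/
lemma pc_right {y : ℝ} (hy : 0 < y) {ℓ : ℕ} (hℓ : 1 ≤ ℓ) {H : ℝ} (hH : 1 ≤ H) {Cr : ℝ} (hCr : 1 ≤ Cr) :
    ∃ C : ℝ, 1 ≤ C ∧ ∀ c : ℂ, ‖c‖ = 1 → ∀ b : ℝ, 0 ≤ b → ∀ L t0 y1 y2 W : ℝ, 1 ≤ L →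
    Real.exp L ≤ t0 → t0 ≤ Cr * Real.exp L → 4 * H * L ≤ W → y1 ≤ t0 - W → t0 + W ≤ y2 →
    Real.exp L / 2 ≤ y1 → 1 ≤ y1 →
    ‖(∫ t in y1..y2, wg H t0 ⟨2, t⟩ * mt y b ℓ ⟨2, t⟩ * Wf y c ⟨2, t⟩ * (riemannZeta ⟨2, t⟩)⁻¹) -
      Rint y b ℓ H t0‖ ≤ C * Real.exp (-L) := by
  obtain ⟨C0, hC0, hR⟩ := rint_bound hy hℓ hH
  obtain ⟨C1, hC1, hm⟩ := mm_bound hy hℓ
  obtain ⟨C2, hC2, hW⟩ := W_bound y
  set A1 : ℝ := C0 * (2 * Cr) ^ 2 * Real.sqrt (Real.pi / ((1 / (2 * H ^ 2)) / 2)) with hA1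
  set A2 : ℝ := 6 * Real.exp (9 / 4) * C1 * Real.sqrt (Real.pi / (1 / H ^ 2)) with hA2
  set A3 : ℝ := 24 * Real.exp (9 / 4) * C1 * C2 * Real.sqrt (Real.pi / (1 / H ^ 2)) with hA3
  have hA10 : 0 ≤ A1 := by positivity
  have hA20 : 0 ≤ A2 := by positivity
  have hA30 : 0 ≤ A3 := by positivity
  refine ⟨A1 + A2 + A3 + 1, by linarith, fun c hc b hb L t0 y1 y2 W hL ht0 ht1 hWL h1 h2 h3 h4 => ?_⟩
  have hH2 : 0 < H ^ 2 := by positivity
  have hW0 : 0 ≤ W := le_trans (by positivity) hWL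
  have hy12 : y1 ≤ y2 := by linarith
  have hexpL : 0 < Real.exp L := Real.exp_pos L
  have hexpL1 : 1 ≤ Real.exp L := Real.one_le_exp (by linarith)
  have ht00 : 0 < t0 := by linarith
  set f1 : ℝ → ℂ := fun t => wg H t0 ⟨2, t⟩ * mm y b ℓ ⟨2, t⟩ * (riemannZeta ⟨2, t⟩)⁻¹ with hf1
  set f2 : ℝ → ℂ := fun t => wg H t0 ⟨2, t⟩ * (mt y b ℓ ⟨2, t⟩ - mm y b ℓ ⟨2, t⟩) *
    (riemannZeta ⟨2, t⟩)⁻¹ with hf2
  set f3 : ℝ → ℂ := fun t => wg H t0 ⟨2, t⟩ * mt y b ℓ ⟨2, t⟩ * (Wf y c ⟨2, t⟩ - 1) *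
    (riemannZeta ⟨2, t⟩)⁻¹ with hf3
  have e0 : ∀ t : ℝ, wg H t0 ⟨2, t⟩ * mt y b ℓ ⟨2, t⟩ * Wf y c ⟨2, t⟩ * (riemannZeta ⟨2, t⟩)⁻¹ =
      f1 t + f2 t + f3 t := by
    intro t
    simp only [hf1, hf2, hf3]
    ring
  have hf1c : Continuous f1 := ((cont_wg_two H t0).mul (cont_mm_two hy hb hℓ)).mul cont_zeta_two
  have hmtc : ContinuousOn (fun t : ℝ => mt y b ℓ ⟨2, t⟩) (uIcc y1 y2) := by
    have : (fun t : ℝ => mt y b ℓ ⟨2, t⟩) = fun t : ℝ => mm y b ℓ ⟨2, t⟩ *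
        (1 + cexp (Real.pi * I * (⟨2, t⟩ : ℂ))) := by
      funext t; rw [mt_mm hy hb hℓ]
    rw [this]
    have h5 := cont_mm_two hy hb hℓ
    have h6 := cont_two
    apply Continuous.continuousOn
    fun_prop
  have hWc : ContinuousOn (fun t : ℝ => Wf y c ⟨2, t⟩) (uIcc y1 y2) := by
    intro t ht
    rw [uIcc_of_le hy12] at ht
    have h5 : ContinuousAt (Wf y c) (⟨2, t⟩ : ℂ) :=
      (Wf_diff y c (s := (⟨2, t⟩ : ℂ)) (by simp; linarith [ht.1])).continuousAt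
    exact (ContinuousAt.comp (f := fun t : ℝ => (⟨2, t⟩ : ℂ)) h5 cont_two.continuousAt).continuousWithinAt
  have hf2i : IntervalIntegrable f2 volume y1 y2 := by
    apply ContinuousOn.intervalIntegrable
    exact (((cont_wg_two H t0).continuousOn).mul (hmtc.sub (cont_mm_two hy hb hℓ).continuousOn)).mul
      cont_zeta_two.continuousOn
  have hf3i : IntervalIntegrable f3 volume y1 y2 := by
    apply ContinuousOn.intervalIntegrable
    exact ((((cont_wg_two H t0).continuousOn).mul hmtc).mul (hWc.sub continuousOn_const)).mul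
      cont_zeta_two.continuousOn
  -- first
  have hp1 : ‖(∫ t in y1..y2, f1 t) - Rint y b ℓ H t0‖ ≤ A1 * Real.exp (-L) := by
    rw [norm_sub_rev]
    have h5 := gtail (f := f1) hf1c.aestronglyMeasurable (K := C0 * (1 + |t0|) ^ 2) (t := t0) (W := W)
      (b := 1 / (2 * H ^ 2)) (U1 := y1) (U2 := y2) (by positivity) (by positivity) (hR b hb t0) hW0 h1 h2
    refine h5.trans ?_
    have h6 : (1 + |t0|) ^ 2 ≤ (2 * Cr) ^ 2 * Real.exp (2 * L) := by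
      rw [abs_of_pos ht00, two_mul L, Real.exp_add, ← pow_two, ← mul_pow]
      have : 1 ≤ Cr * Real.exp L := by nlinarith
      gcongr
      linarith
    have h7 := tail_fac hH hL hWL
    calc C0 * (1 + |t0|) ^ 2 * (Real.exp (-((1 / (2 * H ^ 2)) / 2) * W ^ 2) *
          Real.sqrt (Real.pi / ((1 / (2 * H ^ 2)) / 2)))
        ≤ C0 * ((2 * Cr) ^ 2 * Real.exp (2 * L)) * (Real.exp (-(3 * L)) *
          Real.sqrt (Real.pi / ((1 / (2 * H ^ 2)) / 2))) := by gcongr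
      _ = A1 * (Real.exp (2 * L) * Real.exp (-(3 * L))) := by rw [hA1]; ring
      _ = A1 * Real.exp (-L) := by rw [← Real.exp_add]; congr 2; ring
  -- second
  have hp2 : ‖∫ t in y1..y2, f2 t‖ ≤ A2 * Real.exp (-L) := by
    have h5 := gbound (f := f2) (K := 6 * Real.exp (9 / 4) * C1 * Real.exp (-L)) (t := t0) (b := 1 / H ^ 2)
      (U1 := y1) (U2 := y2) (by positivity) hy12 (by positivity) (by
        intro t ht
        have ht1 : Real.exp L / 2 ≤ t := h3.trans ht.1.le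
        have ht2 : 1 ≤ t := h4.trans ht.1.le
        have h6 := ((hm b hb t).2 ht2).2
        have h7 : (1 + |t|) ^ 2 * Real.exp (-(Real.pi * t)) ≤ 2 * Real.exp (-L) := by
          rw [abs_of_pos (by linarith)]
          have h8 : (1 + t) ^ 2 ≤ 2 * Real.exp t := by
            have := Real.quadratic_le_exp_of_nonneg (show 0 ≤ t by linarith)
            nlinarith
          calc (1 + t) ^ 2 * Real.exp (-(Real.pi * t)) ≤ 2 * Real.exp t * Real.exp (-(Real.pi * t)) := by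
                gcongr
            _ = 2 * Real.exp (t - Real.pi * t) := by
                rw [mul_assoc, ← Real.exp_add]; ring_nf
            _ ≤ 2 * Real.exp (-L) := by
                gcongr
                have h9 := Real.pi_gt_three
                have h10 := Real.add_one_le_exp L
                nlinarith
        simp only [hf2]
        rw [norm_mul, norm_mul]
        have h8 := norm_wg_le hH (σ := 2) (by norm_num) le_rfl t0 t
        have h9 := norm_inv_zeta_two t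
        calc _ ≤ (Real.exp (9 / 4) * Real.exp (-(1 / H ^ 2) * (t - t0) ^ 2)) *
              (C1 * (1 + |t|) ^ 2 * Real.exp (-(Real.pi * t))) * 3 := by gcongr
          _ = 3 * Real.exp (9 / 4) * C1 * ((1 + |t|) ^ 2 * Real.exp (-(Real.pi * t))) *
              Real.exp (-(1 / H ^ 2) * (t - t0) ^ 2) := by ring
          _ ≤ 3 * Real.exp (9 / 4) * C1 * (2 * Real.exp (-L)) *
              Real.exp (-(1 / H ^ 2) * (t - t0) ^ 2) := by gcongr
          _ = _ := by ring)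
    refine h5.trans (le_of_eq ?_)
    rw [hA2]; ring
  -- third
  have hp3 : ‖∫ t in y1..y2, f3 t‖ ≤ A3 * Real.exp (-L) := by
    have h5 := gbound (f := f3) (K := 24 * Real.exp (9 / 4) * C1 * C2 * Real.exp (-L)) (t := t0)
      (b := 1 / H ^ 2) (U1 := y1) (U2 := y2) (by positivity) hy12 (by positivity) (by
        intro t ht
        have ht1 : Real.exp L / 2 ≤ t := h3.trans ht.1.le
        have ht2 : 1 ≤ t := h4.trans ht.1.le
        have ht00 : 0 < t := by linarith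
        have h6 := ((hm b hb t).2 ht2).1
        have h7 := (hW c hc 2 t (by norm_num) le_rfl ht2).1
        rw [show (1 - 2 * 2 : ℝ) = -3 by norm_num] at h7
        have h8 : (1 + |t|) ^ 2 * t ^ (-3 : ℝ) ≤ 8 * Real.exp (-L) := by
          rw [abs_of_pos ht00]
          have h9 : (1 + t) ^ 2 ≤ 4 * t ^ 2 := by nlinarith
          calc (1 + t) ^ 2 * t ^ (-3 : ℝ) ≤ 4 * t ^ 2 * t ^ (-3 : ℝ) := by gcongr
            _ = 4 * (1 / t) := by
                rw [Real.rpow_neg ht00.le, show (3 : ℝ) = ((3 : ℕ) : ℝ) by norm_num, Real.rpow_natCast]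
                field_simp
            _ ≤ 4 * (1 / (Real.exp L / 2)) := by gcongr
            _ = 8 * Real.exp (-L) := by
                rw [Real.exp_neg]
                field_simp
                norm_num
        simp only [hf3]
        rw [norm_mul, norm_mul, norm_mul]
        have h10 := norm_wg_le hH (σ := 2) (by norm_num) le_rfl t0 t
        have h11 := norm_inv_zeta_two t
        calc _ ≤ (Real.exp (9 / 4) * Real.exp (-(1 / H ^ 2) * (t - t0) ^ 2)) *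
              (C1 * (1 + |t|) ^ 2) * (C2 * t ^ (-3 : ℝ)) * 3 := by gcongr
          _ = 3 * Real.exp (9 / 4) * C1 * C2 * ((1 + |t|) ^ 2 * t ^ (-3 : ℝ)) *
              Real.exp (-(1 / H ^ 2) * (t - t0) ^ 2) := by ring
          _ ≤ 3 * Real.exp (9 / 4) * C1 * C2 * (8 * Real.exp (-L)) *
              Real.exp (-(1 / H ^ 2) * (t - t0) ^ 2) := by gcongr
          _ = _ := by ring)
    refine h5.trans (le_of_eq ?_)
    rw [hA3]; ring
  simp_rw [e0]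
  rw [intervalIntegral.integral_add ((hf1c.intervalIntegrable _ _).add hf2i) hf3i,
    intervalIntegral.integral_add (hf1c.intervalIntegrable _ _) hf2i]
  have h5 : (∫ t in y1..y2, f1 t) + (∫ t in y1..y2, f2 t) + (∫ t in y1..y2, f3 t) - Rint y b ℓ H t0 =
      ((∫ t in y1..y2, f1 t) - Rint y b ℓ H t0) + (∫ t in y1..y2, f2 t) + (∫ t in y1..y2, f3 t) := by ring
  rw [h5]
  refine (norm_add_le _ _).trans ?_
  refine (add_le_add_left (norm_add_le _ _) _).trans ?_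
  have := Real.exp_pos (-L)
  nlinarith

end Pool.Agent.N806.AH
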