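import Pool.Agent.N806.AH.PCa

/-! The left-hand side of the contour for the resonance integral. -/

set_option autoImplicit false

open Complex Filter Topology Set MeasureTheory Metric

namespace Pool.Agent.N806.AH

open H345 H345.Chi

/-- the main term on the left -/
noncomputable def Jint (b : ℝ) (ℓ : ℕ) (H t0 : ℝ) : ℂ :=
  ∫ v : ℝ, wg H t0 ⟨-1, v⟩ * cexp (-(Lam 1 b ℓ * ⟨-1, v⟩)) * (riemannZeta ⟨2, -v⟩)⁻¹

/-- terms of the series for `Jint` -/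
noncomputable def Jn (b : ℝ) (ℓ : ℕ) (H t0 : ℝ) (n : ℕ) : ℂ :=
  mu n * (((n : ℝ)⁻¹ : ℝ) : ℂ) * (cexp (((Real.log n : ℂ) - Lam 1 b ℓ) * (1 / 2 + (t0 : ℂ) * I)) *
    (((H * Real.sqrt Real.pi : ℝ) : ℂ) * cexp (-((H : ℂ) ^ 2 * ((Real.log n : ℂ) - Lam 1 b ℓ) ^ 2 / 4))))

lemma cont_mone : Continuous (fun t : ℝ => (⟨-1, t⟩ : ℂ)) := by
  have : (fun t : ℝ => (⟨-1, t⟩ : ℂ)) = fun t : ℝ => ((-1 : ℝ) : ℂ) + (t : ℂ) * I := by
    funext t; rw [mk_line]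
  rw [this]; fun_prop

lemma norm_expLam (b : ℝ) (ℓ : ℕ) (y v : ℝ) : ‖cexp (-(Lam y b ℓ * ⟨-1, v⟩))‖ =
    Real.exp ((Real.log (y * ℓ) + pb b) - Real.arctan b * v) := by
  unfold Lam
  rw [Complex.norm_exp]
  congr 1
  simp [-Complex.ofReal_arctan]
  ring

/-- the integrand of `Jint` is dominated by a Gaussian -/
lemma jint_dom {b : ℝ} (hb : 0 ≤ b) (hb1 : b ≤ 1) {ℓ : ℕ} (hℓ : 1 ≤ ℓ) {H : ℝ} (hH : 1 ≤ H) {t0 : ℝ}
    (ht0 : 0 ≤ t0) (v : ℝ) :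
    ‖wg H t0 ⟨-1, v⟩ * cexp (-(Lam 1 b ℓ * ⟨-1, v⟩))‖ ≤
      (Real.exp (11 / 4) * ℓ * Real.exp (H ^ 2 / 2)) * Real.exp (-(1 / (2 * H ^ 2)) * (v - t0) ^ 2) := by
  have hℓ0 : (0 : ℝ) < ℓ := by exact_mod_cast hℓ
  rw [norm_mul, norm_expLam]
  have h1 := norm_wg_le hH (σ := -1) le_rfl (by norm_num) t0 v
  have h2 : Real.exp (Real.log (1 * ℓ) + pb b - Real.arctan b * v) ≤ ℓ * Real.exp (1 / 2 + |v - t0|) := by
    rw [one_mul, add_sub_assoc, Real.exp_add, Real.exp_log hℓ0]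
    gcongr
    have h3 := pb_le b
    have h4 : b ^ 2 ≤ 1 := by nlinarith
    have h5 := arctan_nonneg' hb
    have h6 := arctan_le' hb
    have h7 : -(Real.arctan b * v) ≤ |v - t0| := by
      have h8 := neg_abs_le (v - t0)
      have h9 := abs_nonneg (v - t0)
      nlinarith [mul_nonneg h5 ht0]
    linarith
  have h3 : |v - t0| ≤ H ^ 2 / 2 + (1 / (2 * H ^ 2)) * (v - t0) ^ 2 := by
    have h4 : (v - t0) ^ 2 = |v - t0| ^ 2 := (sq_abs _).symm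
    rw [h4]
    have hH2 : 0 < H ^ 2 := by positivity
    have h5 : H ^ 2 / 2 + (1 / (2 * H ^ 2)) * |v - t0| ^ 2 - |v - t0| = (|v - t0| - H ^ 2) ^ 2 / (2 * H ^ 2) := by
      field_simp
      ring
    have h6 : 0 ≤ (|v - t0| - H ^ 2) ^ 2 / (2 * H ^ 2) := by positivity
    linarith
  calc _ ≤ (Real.exp (9 / 4) * Real.exp (-(1 / H ^ 2) * (v - t0) ^ 2)) * (ℓ * Real.exp (1 / 2 + |v - t0|)) := by
        gcongr
    _ ≤ (Real.exp (9 / 4) * Real.exp (-(1 / H ^ 2) * (v - t0) ^ 2)) *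
        (ℓ * Real.exp (1 / 2 + (H ^ 2 / 2 + (1 / (2 * H ^ 2)) * (v - t0) ^ 2))) := by gcongr
    _ = ℓ * (Real.exp (9 / 4) * Real.exp (-(1 / H ^ 2) * (v - t0) ^ 2) *
        Real.exp (1 / 2 + (H ^ 2 / 2 + (1 / (2 * H ^ 2)) * (v - t0) ^ 2))) := by ring
    _ = ℓ * (Real.exp (11 / 4) * Real.exp (H ^ 2 / 2) * Real.exp (-(1 / (2 * H ^ 2)) * (v - t0) ^ 2)) := by
        rw [← Real.exp_add, ← Real.exp_add, ← Real.exp_add, ← Real.exp_add]
        congr 2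
        field_simp
        ring
    _ = _ := by ring

lemma jint_formula {b : ℝ} (hb : 0 ≤ b) (hb1 : b ≤ 1) {ℓ : ℕ} (hℓ : 1 ≤ ℓ) {H : ℝ} (hH : 1 ≤ H) {t0 : ℝ}
    (ht0 : 0 ≤ t0) : HasSum (Jn b ℓ H t0) (Jint b ℓ H t0) := by
  have hH0 : 0 < H := by linarith
  let g : ℝ → ℂ := fun v => wg H t0 ⟨-1, v⟩ * cexp (-(Lam 1 b ℓ * ⟨-1, v⟩))
  have hgc : Continuous g := by
    have h1 := cont_mone
    have h2 := (wg_diff H t0).continuous
    simp only [g]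
    fun_prop
  have hgd := jint_dom hb hb1 hℓ hH ht0
  have hgi : Integrable g :=
    ((gint_b t0 (1 / (2 * H ^ 2)) (by positivity)).const_mul _).mono' hgc.aestronglyMeasurable
      (Eventually.of_forall hgd)
  let F : ℕ → ℝ → ℂ := fun n v => mu n * (((n : ℝ) ^ (-(2 : ℝ)) : ℝ) : ℂ) * ph n (-v) * g v
  have hFn : ∀ n v, ‖F n v‖ ≤ (n : ℝ) ^ (-(2 : ℝ)) * ‖g v‖ := by
    intro n τ
    simp only [F]
    rw [norm_mul, norm_mul, norm_mul, norm_ph, mul_one, Complex.norm_real, Real.norm_eq_abs,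
      abs_of_nonneg (by positivity)]
    have := norm_mu n
    have h2 : 0 ≤ (n : ℝ) ^ (-(2 : ℝ)) := by positivity
    have h3 := norm_nonneg (g τ)
    calc ‖mu n‖ * (n : ℝ) ^ (-(2 : ℝ)) * ‖g τ‖ ≤ 1 * (n : ℝ) ^ (-(2 : ℝ)) * ‖g τ‖ := by gcongr
      _ = _ := by ring
  have hFc : ∀ n, Continuous (F n) := by
    intro n
    simp only [F]
    have := cont_ph n
    fun_prop
  have hFi : ∀ n, Integrable (F n) := fun n =>
    (hgi.norm.const_mul ((n : ℝ) ^ (-(2 : ℝ)))).mono' (hFc n).aestronglyMeasurable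
      (Eventually.of_forall (hFn n))
  have hsum : Summable fun n => ∫ τ, ‖F n τ‖ := by
    have h1 : Summable fun n : ℕ => (n : ℝ) ^ (-(2 : ℝ)) * ∫ τ, ‖g τ‖ :=
      (summable_rpow (by norm_num)).mul_right _
    refine Summable.of_nonneg_of_le (fun n => integral_nonneg fun τ => norm_nonneg _) (fun n => ?_) h1
    rw [← integral_const_mul]
    exact integral_mono (hFi n).norm (hgi.norm.const_mul _) (hFn n)
  have key := hasSum_integral_of_summable_integral_norm hFi hsum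
  have e1 : ∀ v : ℝ, ∑' n, F n v = g v * (riemannZeta ⟨2, -v⟩)⁻¹ := by
    intro v
    have := (inv_zeta_hasSum (σ := 2) (by norm_num) (-v)).mul_right (g v)
    rw [mul_comm (g v)]
    exact this.tsum_eq
  simp_rw [e1] at key
  have e2 : ∀ n, ∫ v, F n v = Jn b ℓ H t0 n := by
    intro n
    rcases Nat.eq_zero_or_pos n with hn | hn
    · subst hn
      simp [F, Jn, mu_zero]
    have hn0 : (0 : ℝ) < n := by exact_mod_cast hn
    set β : ℂ := (Real.log n : ℂ) - Lam 1 b ℓ with hβ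
    have e3 : ∀ τ : ℝ, F n (t0 + τ) = (mu n * (((n : ℝ)⁻¹ : ℝ) : ℂ) * cexp (β * (1 / 2 + (t0 : ℂ) * I))) *
        cexp ((((-(3 / 2) : ℝ) : ℂ) + τ * I) ^ 2 / (H : ℂ) ^ 2 + β * (((-(3 / 2) : ℝ) : ℂ) + τ * I)) := by
      intro τ
      simp only [F, g]
      have h1 : (((n : ℝ) ^ (-(2 : ℝ)) : ℝ) : ℂ) * ph n (-(t0 + τ)) =
          (((n : ℝ)⁻¹ : ℝ) : ℂ) * cexp ((Real.log n : ℂ) * ⟨-1, t0 + τ⟩) := by
        have h2 : (n : ℝ) ^ (-(2 : ℝ)) = (n : ℝ)⁻¹ * Real.exp (-Real.log n) := by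
          rw [Real.exp_neg, Real.exp_log hn0, Real.rpow_neg hn0.le, show (2 : ℝ) = ((2 : ℕ) : ℝ) by norm_num,
            Real.rpow_natCast]
          field_simp
        rw [h2]
        unfold ph
        rw [Complex.ofReal_mul, mul_assoc]
        congr 1
        rw [Complex.ofReal_exp, ← Complex.exp_add]
        congr 1
        rw [mk_line]
        push_cast
        ring
      have h2 : (⟨-1, t0 + τ⟩ : ℂ) - (1 / 2 + (t0 : ℂ) * I) = ((-(3 / 2) : ℝ) : ℂ) + τ * I := by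
        rw [mk_line]
        push_cast
        ring
      unfold wg
      rw [h2]
      calc mu n * (((n : ℝ) ^ (-(2 : ℝ)) : ℝ) : ℂ) * ph n (-(t0 + τ)) *
            (cexp ((((-(3 / 2) : ℝ) : ℂ) + τ * I) ^ 2 / (H : ℂ) ^ 2) *
              cexp (-(Lam 1 b ℓ * ⟨-1, t0 + τ⟩)))
          = mu n * ((((n : ℝ) ^ (-(2 : ℝ)) : ℝ) : ℂ) * ph n (-(t0 + τ))) *
            (cexp ((((-(3 / 2) : ℝ) : ℂ) + τ * I) ^ 2 / (H : ℂ) ^ 2) *
              cexp (-(Lam 1 b ℓ * ⟨-1, t0 + τ⟩))) := by ring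
        _ = mu n * (((n : ℝ)⁻¹ : ℝ) : ℂ) * (cexp ((Real.log n : ℂ) * ⟨-1, t0 + τ⟩) *
            cexp ((((-(3 / 2) : ℝ) : ℂ) + τ * I) ^ 2 / (H : ℂ) ^ 2) *
              cexp (-(Lam 1 b ℓ * ⟨-1, t0 + τ⟩))) := by rw [h1]; ring
        _ = mu n * (((n : ℝ)⁻¹ : ℝ) : ℂ) * (cexp (β * (1 / 2 + (t0 : ℂ) * I)) *
            cexp ((((-(3 / 2) : ℝ) : ℂ) + τ * I) ^ 2 / (H : ℂ) ^ 2 +
              β * (((-(3 / 2) : ℝ) : ℂ) + τ * I))) := by
            rw [← Complex.exp_add, ← Complex.exp_add, ← Complex.exp_add]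
            congr 2
            rw [mk_line, hβ]
            push_cast
            ring
        _ = _ := by ring
    rw [← integral_add_left_eq_self (F n) t0]
    simp_rw [e3]
    rw [integral_const_mul, gint hH0]
    unfold Jn
    rw [← hβ]
    ring
  simp_rw [e2] at key
  exact key

lemma log_sep {ℓ n : ℕ} (hℓ : 1 ≤ ℓ) (hn : 1 ≤ n) (hne : n ≠ ℓ) :
    1 / ((ℓ : ℝ) + 1) ≤ |Real.log n - Real.log ℓ| := by
  have hℓ0 : (0 : ℝ) < ℓ := by exact_mod_cast hℓ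
  have hn0 : (0 : ℝ) < n := by exact_mod_cast hn
  rcases lt_or_gt_of_ne hne with h | h
  · have h1 : (n : ℝ) + 1 ≤ ℓ := by exact_mod_cast h
    have h2 := Real.one_sub_inv_le_log_of_pos (show 0 < (ℓ : ℝ) / n by positivity)
    rw [Real.log_div hℓ0.ne' hn0.ne', inv_div] at h2
    have h3 : 1 / ((ℓ : ℝ) + 1) ≤ 1 - (n : ℝ) / ℓ := by
      have h4 : (n : ℝ) / ℓ ≤ (ℓ - 1) / ℓ := by gcongr; linarith
      have h5 : ((ℓ : ℝ) - 1) / ℓ = 1 - 1 / ℓ := by field_simp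
      have h6 : 1 / ((ℓ : ℝ) + 1) ≤ 1 / ℓ := one_div_le_one_div_of_le hℓ0 (by linarith)
      linarith
    rw [abs_sub_comm]
    exact h3.trans (h2.trans (le_abs_self _))
  · have h1 : (ℓ : ℝ) + 1 ≤ n := by exact_mod_cast h
    have h2 := Real.one_sub_inv_le_log_of_pos (show 0 < (n : ℝ) / ℓ by positivity)
    rw [Real.log_div hn0.ne' hℓ0.ne', inv_div] at h2
    have h3 : 1 / ((ℓ : ℝ) + 1) ≤ 1 - (ℓ : ℝ) / n := by
      have h4 : (ℓ : ℝ) / n ≤ ℓ / (ℓ + 1) := by gcongr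
      have h5 : (ℓ : ℝ) / (ℓ + 1) = 1 - 1 / (ℓ + 1) := by field_simp; ring
      linarith
    exact h3.trans (h2.trans (le_abs_self _))

/-- the small constant -/
noncomputable def EE (ℓ : ℕ) (H : ℝ) : ℝ :=
  4 * (ℓ : ℝ) ^ 3 * Real.exp (-((H ^ 2 - 16) / (8 * ((ℓ : ℝ) + 1) ^ 2)))

lemma norm_Jn {b : ℝ} {ℓ : ℕ} (hℓ : 1 ≤ ℓ) {H : ℝ} (hH : 1 ≤ H) (t0 : ℝ) {n : ℕ} :
    ‖Jn b ℓ H t0 n‖ = ‖mu n‖ * (n : ℝ)⁻¹ * (H * Real.sqrt Real.pi) *
      Real.exp ((Real.log n - Real.log ℓ - pb b) / 2 - Real.arctan b * t0 -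
        H ^ 2 * ((Real.log n - Real.log ℓ - pb b) ^ 2 - Real.arctan b ^ 2) / 4) := by
  have hℓ0 : (0 : ℝ) < ℓ := by exact_mod_cast hℓ
  unfold Jn
  rw [norm_mul, norm_mul, norm_mul, norm_mul, Complex.norm_exp, Complex.norm_exp, Complex.norm_real,
    Complex.norm_real, Real.norm_eq_abs, Real.norm_eq_abs, abs_of_nonneg (by positivity : (0 : ℝ) ≤ (n : ℝ)⁻¹),
    abs_of_nonneg (by positivity : 0 ≤ H * Real.sqrt Real.pi)]
  set u : ℝ := Real.log n - Real.log ℓ - pb b with hu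
  set θ : ℝ := Real.arctan b with hθ
  have hβ : (Real.log n : ℂ) - Lam 1 b ℓ = (u : ℂ) + (θ : ℂ) * I := by
    unfold Lam
    rw [← hθ, one_mul, hu]
    push_cast
    ring
  rw [hβ]
  have h1 : (((u : ℂ) + (θ : ℂ) * I) * (1 / 2 + (t0 : ℂ) * I)).re = u / 2 - θ * t0 := by
    simp
    ring
  have h2 : (-((H : ℂ) ^ 2 * ((u : ℂ) + (θ : ℂ) * I) ^ 2 / 4)).re = -(H ^ 2 * (u ^ 2 - θ ^ 2) / 4) := by
    have h3 : -((H : ℂ) ^ 2 * ((u : ℂ) + (θ : ℂ) * I) ^ 2 / 4) =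
        ((-(H ^ 2 * (u ^ 2 - θ ^ 2) / 4) : ℝ) : ℂ) + ((-(H ^ 2 * (2 * u * θ) / 4) : ℝ) : ℂ) * I := by
      push_cast
      ring_nf
      rw [I_sq]
      ring
    rw [h3, Complex.add_re, Complex.ofReal_re, Complex.re_ofReal_mul, Complex.I_re, mul_zero, add_zero]
  rw [h1, h2, show (u / 2 - θ * t0 - H ^ 2 * (u ^ 2 - θ ^ 2) / 4) = (u / 2 - θ * t0) +
    -(H ^ 2 * (u ^ 2 - θ ^ 2) / 4) by ring, Real.exp_add]
  ring

/-- upper bound for the other terms -/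
lemma Jn_other {b : ℝ} (hb : 0 ≤ b) {ℓ : ℕ} (hℓ : 1 ≤ ℓ) {H : ℝ} (hH : 4 ≤ H) (t0 : ℝ)
    {n : ℕ} (hn : 1 ≤ n) (hne : n ≠ ℓ) :
    ‖Jn b ℓ H t0 n‖ ≤ (H * Real.sqrt Real.pi) * Real.exp (-(Real.arctan b * t0)) *
      Real.exp (H ^ 2 * (pb b ^ 2 + Real.arctan b ^ 2) / 4) * ((ℓ : ℝ)⁻¹ * (EE ℓ H / 2)) * (1 / (n : ℝ) ^ 2) := by
  have hℓ0 : (0 : ℝ) < ℓ := by exact_mod_cast hℓ
  have hℓ1 : (1 : ℝ) ≤ ℓ := by exact_mod_cast hℓ
  have hn0 : (0 : ℝ) < n := by exact_mod_cast hn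
  have hn1 : (1 : ℝ) ≤ n := by exact_mod_cast hn
  rw [norm_Jn hℓ (by linarith) t0]
  set p := pb b with hp
  set θ := Real.arctan b with hθ
  set u := Real.log n - Real.log ℓ with hu
  have hp0 : 0 ≤ p := pb_nonneg b
  have hsep := log_sep hℓ hn hne
  rw [← hu] at hsep
  set c := 1 / ((ℓ : ℝ) + 1) with hc
  have hc0 : 0 < c := by positivity
  have hu2 : c ^ 2 ≤ u ^ 2 := by
    rw [← sq_abs u]
    gcongr
  -- exponent
  have hexp : (u - p) / 2 - θ * t0 - H ^ 2 * ((u - p) ^ 2 - θ ^ 2) / 4 ≤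
      -(θ * t0) + H ^ 2 * (p ^ 2 + θ ^ 2) / 4 + (u / 2 + -((H ^ 2 - 16) * c ^ 2 / 8) + (1 / 2 - 2 * u)) := by
    have h1 : u ^ 2 / 2 - p ^ 2 ≤ (u - p) ^ 2 := by nlinarith [sq_nonneg (u - 2 * p)]
    have h2 : (H ^ 2 - 16) * c ^ 2 ≤ (H ^ 2 - 16) * u ^ 2 := by
      apply mul_le_mul_of_nonneg_left hu2
      nlinarith
    have h3 : H ^ 2 * (u ^ 2 / 2 - p ^ 2) ≤ H ^ 2 * (u - p) ^ 2 := by gcongr
    have h4 : 2 * u ≤ 2 * u ^ 2 + 1 / 2 := by nlinarith [sq_nonneg (2 * u - 1)]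
    nlinarith
  have hmu := norm_mu n
  have hfin : (n : ℝ)⁻¹ * Real.exp (u / 2 + -((H ^ 2 - 16) * c ^ 2 / 8) + (1 / 2 - 2 * u)) ≤
      ((ℓ : ℝ)⁻¹ * (EE ℓ H / 2)) * (1 / (n : ℝ) ^ 2) := by
    have h1 : (H ^ 2 - 16) * c ^ 2 / 8 = (H ^ 2 - 16) / (8 * ((ℓ : ℝ) + 1) ^ 2) := by
      rw [hc]
      field_simp
    rw [h1]
    unfold EE
    set E := Real.exp (-((H ^ 2 - 16) / (8 * ((ℓ : ℝ) + 1) ^ 2))) with hE
    have hE0 : 0 < E := Real.exp_pos _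
    have h2 : Real.exp (u / 2 + -((H ^ 2 - 16) / (8 * ((ℓ : ℝ) + 1) ^ 2)) + (1 / 2 - 2 * u)) =
        Real.exp (1 / 2) * E * Real.exp (-(3 / 2 * u)) := by
      rw [hE, ← Real.exp_add, ← Real.exp_add]; congr 1; ring
    rw [h2]
    have h3 : Real.exp (1 / 2) ≤ 2 := by
      have h4 : Real.exp (1 / 2) ≤ Real.exp (Real.log 2) := by
        apply Real.exp_le_exp.2
        have := Real.log_two_gt_d9
        linarith
      rwa [Real.exp_log (by norm_num)] at h4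
    have h4 : Real.exp (-(3 / 2 * u)) * (n : ℝ) ≤ (ℓ : ℝ) ^ 2 := by
      -- (ℓ/n)^{3/2} n ≤ ℓ^2
      have h5 : Real.exp (-(3 / 2 * u)) * (n : ℝ) = Real.exp (3 / 2 * Real.log ℓ - 1 / 2 * Real.log n) := by
        conv_lhs => rw [← Real.exp_log hn0]
        rw [← Real.exp_add, hu]
        congr 1
        ring
      have h6 : (ℓ : ℝ) ^ 2 = Real.exp (2 * Real.log ℓ) := by
        rw [show (2 : ℝ) * Real.log ℓ = ((2 : ℕ) : ℝ) * Real.log ℓ by norm_num, Real.exp_nat_mul,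
          Real.exp_log hℓ0]
      rw [h5, h6]
      apply Real.exp_le_exp.2
      have := Real.log_nonneg hn1
      have := Real.log_nonneg hℓ1
      linarith
    calc (n : ℝ)⁻¹ * (Real.exp (1 / 2) * E * Real.exp (-(3 / 2 * u)))
        = Real.exp (1 / 2) * E * (Real.exp (-(3 / 2 * u)) * (n : ℝ)) * (1 / (n : ℝ) ^ 2) := by
          field_simp
      _ ≤ 2 * E * (ℓ : ℝ) ^ 2 * (1 / (n : ℝ) ^ 2) := by gcongr
      _ = _ := by field_simp; norm_num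
  calc ‖mu n‖ * (n : ℝ)⁻¹ * (H * Real.sqrt Real.pi) *
        Real.exp ((u - p) / 2 - θ * t0 - H ^ 2 * ((u - p) ^ 2 - θ ^ 2) / 4)
      ≤ 1 * (n : ℝ)⁻¹ * (H * Real.sqrt Real.pi) *
        Real.exp (-(θ * t0) + H ^ 2 * (p ^ 2 + θ ^ 2) / 4 +
          (u / 2 + -((H ^ 2 - 16) * c ^ 2 / 8) + (1 / 2 - 2 * u))) := by
        gcongr
    _ = (H * Real.sqrt Real.pi) * Real.exp (-(θ * t0)) * Real.exp (H ^ 2 * (p ^ 2 + θ ^ 2) / 4) *
        ((n : ℝ)⁻¹ * Real.exp (u / 2 + -((H ^ 2 - 16) * c ^ 2 / 8) + (1 / 2 - 2 * u))) := by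
        rw [Real.exp_add, Real.exp_add (-(θ * t0))]
        ring
    _ ≤ (H * Real.sqrt Real.pi) * Real.exp (-(θ * t0)) * Real.exp (H ^ 2 * (p ^ 2 + θ ^ 2) / 4) *
        (((ℓ : ℝ)⁻¹ * (EE ℓ H / 2)) * (1 / (n : ℝ) ^ 2)) := by gcongr
    _ = _ := by ring

lemma EE_pos {ℓ : ℕ} (hℓ : 1 ≤ ℓ) (H : ℝ) : 0 < EE ℓ H := by
  have hℓ0 : (0 : ℝ) < ℓ := by exact_mod_cast hℓ
  unfold EE
  positivity

/-- lower bound for the main term -/
lemma jint_lower {ℓ : ℕ} (hℓ : 1 ≤ ℓ) (hsq : Squarefree ℓ) {H : ℝ} (hH : 4 ≤ H) : ∃ b0 : ℝ, 0 < b0 ∧ b0 ≤ 1 ∧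
    ∀ b : ℝ, 0 ≤ b → b ≤ b0 → ∀ t0 : ℝ, 0 ≤ t0 →
    (H * Real.sqrt Real.pi) * Real.exp (-(Real.arctan b * t0)) * (ℓ : ℝ)⁻¹ * (1 - 3 * EE ℓ H) ≤
      ‖Jint b ℓ H t0‖ := by
  have hℓ0 : (0 : ℝ) < ℓ := by exact_mod_cast hℓ
  have hE := EE_pos hℓ H
  have hH2 : 0 < H ^ 2 := by positivity
  have hb00 : 0 < min (EE ℓ H) (1 / 2) / H ^ 2 := by
    have : 0 < min (EE ℓ H) (1 / 2) := lt_min hE (by norm_num)
    positivity
  refine ⟨min 1 (min (EE ℓ H) (1 / 2) / H ^ 2), lt_min one_pos hb00, min_le_left _ _,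
    fun b hb hb1 t0 ht0 => ?_⟩
  have hb1' : b ≤ 1 := hb1.trans (min_le_left _ _)
  have hb2 : H ^ 2 * b ≤ min (EE ℓ H) (1 / 2) := by
    have := hb1.trans (min_le_right _ _)
    rw [le_div_iff₀ hH2] at this
    linarith
  have hbE : H ^ 2 * b ≤ EE ℓ H := hb2.trans (min_le_left _ _)
  have hbh : H ^ 2 * b ≤ 1 / 2 := hb2.trans (min_le_right _ _)
  set p := pb b with hp
  set θ := Real.arctan b with hθ
  have hp0 : 0 ≤ p := pb_nonneg b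
  have hpb : p ≤ b / 2 := by
    have := pb_le b
    nlinarith
  have hθ0 : 0 ≤ θ := arctan_nonneg' hb
  have hθb : θ ≤ b := arctan_le' hb
  have hH16 : 16 ≤ H ^ 2 := by nlinarith
  set A : ℝ := (H * Real.sqrt Real.pi) * Real.exp (-(θ * t0)) with hA
  have hA0 : 0 < A := by
    have : 0 < Real.sqrt Real.pi := Real.sqrt_pos.2 Real.pi_pos
    have : 0 < H := by linarith
    positivity
  have hpp : p ^ 2 ≤ b / 4 := by nlinarith
  have htt : θ ^ 2 ≤ b := by nlinarith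
  -- main term
  have hmain : A * (ℓ : ℝ)⁻¹ * (1 - EE ℓ H) ≤ ‖Jn b ℓ H t0 ℓ‖ := by
    rw [norm_Jn hℓ (by linarith) t0, sub_self, zero_sub]
    have hmu : ‖mu ℓ‖ = 1 := by
      unfold mu
      rw [Complex.norm_intCast]
      have := ArithmeticFunction.abs_moebius_eq_one_of_squarefree hsq
      exact_mod_cast this
    rw [hmu, one_mul]
    have h1 : Real.exp (-p / 2 - θ * t0 - H ^ 2 * ((-p) ^ 2 - θ ^ 2) / 4) ≥
        Real.exp (-(θ * t0)) * (1 - EE ℓ H) := by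
      have h2 : -(θ * t0) + -(p / 2 + H ^ 2 * p ^ 2 / 4) ≤ -p / 2 - θ * t0 - H ^ 2 * ((-p) ^ 2 - θ ^ 2) / 4 := by
        have : 0 ≤ H ^ 2 * θ ^ 2 := by positivity
        nlinarith
      have h3 : 1 - EE ℓ H ≤ Real.exp (-(p / 2 + H ^ 2 * p ^ 2 / 4)) := by
        have h4 := Real.add_one_le_exp (-(p / 2 + H ^ 2 * p ^ 2 / 4))
        have h5 : p / 2 + H ^ 2 * p ^ 2 / 4 ≤ EE ℓ H := by
          have h6 : H ^ 2 * p ^ 2 ≤ H ^ 2 * (b / 4) := by gcongr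
          nlinarith
        linarith
      calc Real.exp (-(θ * t0)) * (1 - EE ℓ H) ≤ Real.exp (-(θ * t0)) * Real.exp (-(p / 2 + H ^ 2 * p ^ 2 / 4)) := by
            gcongr
        _ = Real.exp (-(θ * t0) + -(p / 2 + H ^ 2 * p ^ 2 / 4)) := (Real.exp_add _ _).symm
        _ ≤ _ := Real.exp_le_exp.2 h2
    calc A * (ℓ : ℝ)⁻¹ * (1 - EE ℓ H) = (ℓ : ℝ)⁻¹ * (H * Real.sqrt Real.pi) *
          (Real.exp (-(θ * t0)) * (1 - EE ℓ H)) := by rw [hA]; ring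
      _ ≤ _ := by gcongr
  -- other terms
  have hoth : ‖Jint b ℓ H t0 - Jn b ℓ H t0 ℓ‖ ≤ A * (ℓ : ℝ)⁻¹ * (2 * EE ℓ H) := by
    have h1 := (jint_formula hb hb1' hℓ (by linarith) ht0 (H := H)).sub (hasSum_ite_eq ℓ (Jn b ℓ H t0 ℓ))
    have h2 : HasSum (fun n : ℕ => A * 2 * ((ℓ : ℝ)⁻¹ * (EE ℓ H / 2)) * (1 / (n : ℝ) ^ 2))
        (A * 2 * ((ℓ : ℝ)⁻¹ * (EE ℓ H / 2)) * (Real.pi ^ 2 / 6)) := hasSum_zeta_two.mul_left _
    have h3 := h1.norm_le_of_bounded h2 (by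
      intro n
      have hpos : 0 ≤ A * 2 * ((ℓ : ℝ)⁻¹ * (EE ℓ H / 2)) * (1 / (n : ℝ) ^ 2) := by positivity
      by_cases hn : n = ℓ
      · rw [if_pos hn, hn, sub_self, norm_zero]
        rw [hn] at hpos
        exact hpos
      rw [if_neg hn, sub_zero]
      rcases Nat.eq_zero_or_pos n with h0 | h0
      · rw [h0]
        have : Jn b ℓ H t0 0 = 0 := by simp [Jn, mu_zero]
        rw [this, norm_zero]
        rw [h0] at hpos
        exact hpos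
      · refine (Jn_other hb hℓ hH t0 h0 hn).trans ?_
        rw [← hA]
        have h4 : Real.exp (H ^ 2 * (pb b ^ 2 + Real.arctan b ^ 2) / 4) ≤ 2 := by
          have h5 : Real.exp (H ^ 2 * (pb b ^ 2 + Real.arctan b ^ 2) / 4) ≤ Real.exp (Real.log 2) := by
            apply Real.exp_le_exp.2
            have := Real.log_two_gt_d9
            rw [← hp, ← hθ]
            have h6 : H ^ 2 * (p ^ 2 + θ ^ 2) ≤ H ^ 2 * (b / 4 + b) := by gcongr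
            nlinarith
          rwa [Real.exp_log (by norm_num)] at h5
        gcongr)
    refine h3.trans ?_
    have h4 : Real.pi ^ 2 / 6 ≤ 2 := by
      have := Real.pi_lt_d2
      have := Real.pi_pos
      nlinarith
    calc A * 2 * ((ℓ : ℝ)⁻¹ * (EE ℓ H / 2)) * (Real.pi ^ 2 / 6) ≤ A * 2 * ((ℓ : ℝ)⁻¹ * (EE ℓ H / 2)) * 2 := by
          gcongr
      _ = _ := by ring
  have h5 : ‖Jn b ℓ H t0 ℓ‖ ≤ ‖Jint b ℓ H t0‖ + ‖Jint b ℓ H t0 - Jn b ℓ H t0 ℓ‖ := by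
    have := norm_sub_le (Jint b ℓ H t0) (Jint b ℓ H t0 - Jn b ℓ H t0 ℓ)
    rwa [sub_sub_cancel] at this
  nlinarith

lemma zeta_m_one {t : ℝ} (ht : 1 ≤ t) : riemannZeta ⟨-1, t⟩ = XX (1 - (⟨-1, t⟩ : ℂ)) * riemannZeta ⟨2, -t⟩ := by
  have h := zeta_fe' (s := (⟨-1, t⟩ : ℂ)) (by simp; linarith)
  have h2 : 1 - (⟨-1, t⟩ : ℂ) = ⟨2, -t⟩ := by
    apply Complex.ext
    · simp; norm_num
    · simp
  rw [h]
  conv_lhs => rw [h2]
  conv_rhs => rw [h2]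

/-- the left-hand side -/
lemma pc_left {y : ℝ} (hy : 0 < y) {ℓ : ℕ} (hℓ : 1 ≤ ℓ) {H : ℝ} (hH : 1 ≤ H) :
    ∃ C : ℝ, 1 ≤ C ∧ ∀ c : ℂ, ‖c‖ = 1 → ∀ b : ℝ, 0 ≤ b → b ≤ 1 → ∀ L t0 y1 y2 W : ℝ, 1 ≤ L →
    Real.exp L ≤ t0 → 4 * H * L ≤ W → y1 ≤ t0 - W → t0 + W ≤ y2 →
    Real.exp L / 2 ≤ y1 → 1 ≤ y1 →
    ‖(∫ t in y1..y2, wg H t0 ⟨-1, t⟩ * mt y b ℓ ⟨-1, t⟩ * Wf y c ⟨-1, t⟩ * (riemannZeta ⟨-1, t⟩)⁻¹) -
      c * ((Real.exp (-(Real.log y / 2)) : ℝ) : ℂ) * Jint b ℓ H t0‖ ≤ C * Real.exp (-L) := by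
  obtain ⟨K, hK, hX⟩ := norm_XX_le
  obtain ⟨C2, hC2, hinv⟩ := inv_zeta_left
  have hℓ0 : (0 : ℝ) < ℓ := by exact_mod_cast hℓ
  set A1 : ℝ := Real.exp (9 / 4) * (Real.exp K * Real.exp (Real.log (y * ℓ) + 1 / 2) * C2 * 2) *
    Real.sqrt (Real.pi / (1 / H ^ 2)) with hA1
  set A2 : ℝ := Real.exp (-(Real.log y / 2)) * (3 * (Real.exp (11 / 4) * ℓ * Real.exp (H ^ 2 / 2)) *
    Real.sqrt (Real.pi / ((1 / (2 * H ^ 2)) / 2))) with hA2
  have hA10 : 0 ≤ A1 := by positivity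
  have hA20 : 0 ≤ A2 := by positivity
  refine ⟨A1 + A2 + 1, by linarith, fun c hc b hb hb1 L t0 y1 y2 W hL ht0 hWL h1 h2 h3 h4 => ?_⟩
  have hH0 : 0 < H := by linarith
  have hW0 : 0 ≤ W := le_trans (by positivity) hWL
  have hy12 : y1 ≤ y2 := by linarith
  have hexpL : 0 < Real.exp L := Real.exp_pos L
  have ht00 : 0 ≤ t0 := by linarith
  set g1 : ℝ → ℂ := fun t => wg H t0 ⟨-1, t⟩ * mt y b ℓ ⟨-1, t⟩ * (riemannZeta ⟨-1, t⟩)⁻¹ with hg1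
  set g2 : ℝ → ℂ := fun t => wg H t0 ⟨-1, t⟩ * cexp (-(Lam 1 b ℓ * ⟨-1, t⟩)) * (riemannZeta ⟨2, -t⟩)⁻¹ with hg2
  set q : ℂ := c * ((Real.exp (-(Real.log y / 2)) : ℝ) : ℂ) with hq
  have hLam : Lam y b ℓ = (Real.log y : ℂ) + Lam 1 b ℓ := by
    unfold Lam
    rw [Real.log_mul hy.ne' hℓ0.ne', one_mul]
    push_cast
    ring
  have e0 : ∀ t ∈ uIcc y1 y2, wg H t0 ⟨-1, t⟩ * mt y b ℓ ⟨-1, t⟩ * Wf y c ⟨-1, t⟩ *
      (riemannZeta ⟨-1, t⟩)⁻¹ = g1 t + q * g2 t := by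
    intro t ht
    rw [uIcc_of_le hy12] at ht
    have ht1 : 1 ≤ t := h4.trans ht.1
    have him : (⟨-1, t⟩ : ℂ).im ≠ 0 := by simp; linarith
    have hXm := XX_mul' him
    have hXne : XX (1 - (⟨-1, t⟩ : ℂ)) ≠ 0 := by
      intro h
      rw [h, mul_zero] at hXm
      exact zero_ne_one hXm
    have hz := zeta_m_one ht1
    have e1 : ye y ((⟨-1, t⟩ : ℂ) - 1 / 2) * cexp (-(Lam y b ℓ * ⟨-1, t⟩)) =
        ((Real.exp (-(Real.log y / 2)) : ℝ) : ℂ) * cexp (-(Lam 1 b ℓ * ⟨-1, t⟩)) := by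
      unfold ye
      rw [hLam, Complex.ofReal_exp, ← Complex.exp_add, ← Complex.exp_add]
      congr 1
      push_cast
      ring
    simp only [hg1, hg2, hq]
    unfold mt Wf
    have e2 : XX ⟨-1, t⟩ * XX (1 - (⟨-1, t⟩ : ℂ)) ^ 2 * (riemannZeta ⟨-1, t⟩)⁻¹ = (riemannZeta ⟨2, -t⟩)⁻¹ := by
      rw [hz, mul_inv]
      calc XX ⟨-1, t⟩ * XX (1 - (⟨-1, t⟩ : ℂ)) ^ 2 * ((XX (1 - (⟨-1, t⟩ : ℂ)))⁻¹ * (riemannZeta ⟨2, -t⟩)⁻¹)
          = (XX ⟨-1, t⟩ * XX (1 - (⟨-1, t⟩ : ℂ))) * (XX (1 - (⟨-1, t⟩ : ℂ)) * (XX (1 - (⟨-1, t⟩ : ℂ)))⁻¹) *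
            (riemannZeta ⟨2, -t⟩)⁻¹ := by ring
        _ = _ := by rw [hXm, mul_inv_cancel₀ hXne, one_mul, one_mul]
    calc _ = wg H t0 ⟨-1, t⟩ * (XX ⟨-1, t⟩ * cexp (-(Lam y b ℓ * ⟨-1, t⟩))) * (riemannZeta ⟨-1, t⟩)⁻¹ +
          c * wg H t0 ⟨-1, t⟩ * (ye y ((⟨-1, t⟩ : ℂ) - 1 / 2) * cexp (-(Lam y b ℓ * ⟨-1, t⟩))) *
            (XX ⟨-1, t⟩ * XX (1 - (⟨-1, t⟩ : ℂ)) ^ 2 * (riemannZeta ⟨-1, t⟩)⁻¹) := by ring
      _ = _ := by
          rw [e1, e2]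
          ring
  have hg2c : Continuous g2 := by
    have h5 := cont_mone
    have h6 := (wg_diff H t0).continuous
    have h7 : Continuous (fun t : ℝ => (riemannZeta ⟨2, -t⟩)⁻¹) := cont_zeta_two.comp continuous_neg
    simp only [hg2]
    fun_prop
  have hg1c : ContinuousOn g1 (uIcc y1 y2) := by
    rw [uIcc_of_le hy12]
    have h5 := cont_mone
    have h6 := (wg_diff H t0).continuous
    have h7 : ContinuousOn (fun t : ℝ => (riemannZeta ⟨-1, t⟩)⁻¹) (Icc y1 y2) := by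
      intro t ht
      have ht1 : 1 ≤ t := h4.trans ht.1
      have him : (⟨-1, t⟩ : ℂ).im ≠ 0 := by simp; linarith
      have hne : riemannZeta ⟨-1, t⟩ ≠ 0 := by
        rw [zeta_m_one ht1]
        apply mul_ne_zero
        · intro h
          have := XX_mul' him
          rw [h, mul_zero] at this
          exact zero_ne_one this
        · exact riemannZeta_ne_zero_of_one_le_re (by simp)
      have h8 : ContinuousAt riemannZeta (⟨-1, t⟩ : ℂ) := (differentiableAt_riemannZeta (by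
        intro h; have := congrArg Complex.re h; norm_num at this)).continuousAt
      exact ((ContinuousAt.comp (f := fun t : ℝ => (⟨-1, t⟩ : ℂ)) h8 h5.continuousAt).inv₀ hne).continuousWithinAt
    have h8 : ContinuousOn (fun t : ℝ => mt y b ℓ ⟨-1, t⟩) (Icc y1 y2) := by
      intro t ht
      have ht1 : 1 ≤ t := h4.trans ht.1
      have h9 : ContinuousAt XX (⟨-1, t⟩ : ℂ) := (XX_diff (by simp; linarith)).continuousAt
      have h10 : ContinuousAt (fun t : ℝ => XX ⟨-1, t⟩) t :=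
        ContinuousAt.comp (f := fun t : ℝ => (⟨-1, t⟩ : ℂ)) h9 h5.continuousAt
      unfold mt
      have h11 : Continuous (fun t : ℝ => cexp (-(Lam y b ℓ * ⟨-1, t⟩))) := by fun_prop
      exact (h10.mul h11.continuousAt).continuousWithinAt
    exact (((h6.comp h5).continuousOn).mul h8).mul h7
  have hp1 : ‖∫ t in y1..y2, g1 t‖ ≤ A1 * Real.exp (-L) := by
    have h5 := gbound (f := g1) (K := Real.exp (9 / 4) * (Real.exp K * Real.exp (Real.log (y * ℓ) + 1 / 2) *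
      C2 * 2) * Real.exp (-L)) (t := t0) (b := 1 / H ^ 2) (U1 := y1) (U2 := y2) (by positivity) hy12
      (by positivity) (by
        intro t ht
        have ht1 : Real.exp L / 2 ≤ t := h3.trans ht.1.le
        have ht2 : 1 ≤ t := h4.trans ht.1.le
        have ht00 : 0 < t := by linarith
        have h6 := norm_wg_le hH (σ := -1) le_rfl (by norm_num) t0 t
        have h7 := hX (-1) t le_rfl (by norm_num) ht2
        have h8 := hinv t ht2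
        have h9 : (-1 + (t : ℂ) * I) = ⟨-1, t⟩ := by apply Complex.ext <;> simp
        rw [h9] at h8
        have h10 : Real.exp (-((Real.log (y * ℓ) + pb b) * -1) - Real.arctan b * t) ≤
            Real.exp (Real.log (y * ℓ) + 1 / 2) := by
          apply Real.exp_le_exp.2
          have := pb_le b
          have := mul_nonneg (arctan_nonneg' hb) ht00.le
          nlinarith
        have h11 : t ^ (-1 - 1 / 2 : ℝ) * t ^ (-(3 / 2) : ℝ) ≤ 2 * Real.exp (-L) := by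
          rw [← Real.rpow_add ht00]
          calc t ^ ((-1 - 1 / 2 : ℝ) + -(3 / 2)) ≤ t ^ (-1 : ℝ) :=
                Real.rpow_le_rpow_of_exponent_le ht2 (by norm_num)
            _ = 1 / t := by rw [Real.rpow_neg_one, one_div]
            _ ≤ 1 / (Real.exp L / 2) := by gcongr
            _ = _ := by rw [Real.exp_neg]; field_simp
        simp only [hg1]
        rw [norm_mul, norm_mul, norm_mt]
        calc _ ≤ (Real.exp (9 / 4) * Real.exp (-(1 / H ^ 2) * (t - t0) ^ 2)) *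
              ((Real.exp K * t ^ (-1 - 1 / 2 : ℝ)) * Real.exp (Real.log (y * ℓ) + 1 / 2)) *
              (C2 * t ^ (-(3 / 2) : ℝ)) := by gcongr
          _ = Real.exp (9 / 4) * (Real.exp K * Real.exp (Real.log (y * ℓ) + 1 / 2) * C2 *
              (t ^ (-1 - 1 / 2 : ℝ) * t ^ (-(3 / 2) : ℝ))) * Real.exp (-(1 / H ^ 2) * (t - t0) ^ 2) := by ring
          _ ≤ Real.exp (9 / 4) * (Real.exp K * Real.exp (Real.log (y * ℓ) + 1 / 2) * C2 *
              (2 * Real.exp (-L))) * Real.exp (-(1 / H ^ 2) * (t - t0) ^ 2) := by gcongr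
          _ = _ := by ring)
    refine h5.trans (le_of_eq ?_)
    rw [hA1]; ring
  have hp2 : ‖q * (∫ t in y1..y2, g2 t) - q * Jint b ℓ H t0‖ ≤ A2 * Real.exp (-L) := by
    rw [← mul_sub, norm_mul, norm_sub_rev]
    have hqn : ‖q‖ = Real.exp (-(Real.log y / 2)) := by
      rw [hq, norm_mul, hc, one_mul, Complex.norm_real, Real.norm_eq_abs, abs_of_pos (Real.exp_pos _)]
    rw [hqn]
    have h5 := gtail (f := g2) hg2c.aestronglyMeasurable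
      (K := 3 * (Real.exp (11 / 4) * ℓ * Real.exp (H ^ 2 / 2))) (t := t0) (W := W)
      (b := 1 / (2 * H ^ 2)) (U1 := y1) (U2 := y2) (by positivity) (by positivity) (by
        intro v
        simp only [hg2]
        rw [norm_mul]
        have h6 := jint_dom hb hb1 hℓ hH ht00 v
        have h7 := norm_inv_zeta_two (-v)
        calc _ ≤ ((Real.exp (11 / 4) * ℓ * Real.exp (H ^ 2 / 2)) *
              Real.exp (-(1 / (2 * H ^ 2)) * (v - t0) ^ 2)) * 3 := by gcongr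
          _ = _ := by ring) hW0 h1 h2
    have h7 := tail_fac hH hL hWL
    have h8 : Real.exp (-(3 * L)) ≤ Real.exp (-L) := Real.exp_le_exp.2 (by linarith)
    calc Real.exp (-(Real.log y / 2)) * ‖Jint b ℓ H t0 - ∫ t in y1..y2, g2 t‖
        ≤ Real.exp (-(Real.log y / 2)) * (3 * (Real.exp (11 / 4) * ℓ * Real.exp (H ^ 2 / 2)) *
          (Real.exp (-L) * Real.sqrt (Real.pi / ((1 / (2 * H ^ 2)) / 2)))) := by
          gcongr
          exact h5.trans (mul_le_mul_of_nonneg_left (mul_le_mul_of_nonneg_right (h7.trans h8)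
            (Real.sqrt_nonneg _)) (by positivity))
      _ = _ := by rw [hA2]; ring
  have hg2i : IntervalIntegrable (fun t => q * g2 t) volume y1 y2 := (hg2c.intervalIntegrable _ _).const_mul q
  rw [intervalIntegral.integral_congr e0, intervalIntegral.integral_add hg1c.intervalIntegrable
    hg2i, intervalIntegral.integral_const_mul, add_sub_assoc]
  refine (norm_add_le _ _).trans ?_
  have := Real.exp_pos (-L)
  nlinarith

end Pool.Agent.N806.AH
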