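import Mathlib

/-! The commutator of a Lipschitz function with Gaussian smoothing, by doubling the scale. -/

set_option autoImplicit false

open Complex Filter Topology Set MeasureTheory
open scoped ENNReal

namespace Pool.Agent.N806.AH

/-- the Gaussian of variance `σ / 2` -/
noncomputable def gs (σ x : ℝ) : ℝ := Real.exp (-(x ^ 2 / σ))

lemma gs_pos (σ x : ℝ) : 0 < gs σ x := Real.exp_pos _

lemma gs_cont (σ : ℝ) : Continuous (gs σ) := by unfold gs; fun_prop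

/-- sums with Gaussian weights -/
noncomputable def NN (F : Finset ℝ) (w : ℝ → ℂ) (σ t : ℝ) : ℂ := ∑ γ ∈ F, w γ * ((gs σ (γ - t) : ℝ) : ℂ)

/-- the commutator -/
noncomputable def CM (F : Finset ℝ) (w U : ℝ → ℂ) (σ t : ℝ) : ℂ :=
  ∑ γ ∈ F, w γ * (U γ - U t) * ((gs σ (γ - t) : ℝ) : ℂ)

lemma NN_cont (F : Finset ℝ) (w : ℝ → ℂ) (σ : ℝ) : Continuous (NN F w σ) := by
  unfold NN
  refine continuous_finsetSum _ fun γ _ => ?_
  have := gs_cont σ
  fun_prop

lemma CM_cont (F : Finset ℝ) (w : ℝ → ℂ) {U : ℝ → ℂ} (hU : Continuous U) (σ : ℝ) :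
    Continuous (CM F w U σ) := by
  unfold CM
  refine continuous_finsetSum _ fun γ _ => ?_
  have := gs_cont σ
  fun_prop

lemma gs_int {σ : ℝ} (hσ : 0 < σ) : Integrable (gs σ) := by
  have h := integrable_exp_neg_mul_sq (b := 1 / σ) (by positivity)
  refine h.congr (Eventually.of_forall fun x => ?_)
  simp only [gs]
  congr 1
  ring

lemma gs_val {σ : ℝ} (hσ : 0 < σ) : ∫ x : ℝ, gs σ x = Real.sqrt (Real.pi * σ) := by
  have h := integral_gaussian (1 / σ)
  have h1 : ∀ x : ℝ, gs σ x = Real.exp (-(1 / σ) * x ^ 2) := by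
    intro x
    unfold gs
    congr 1
    ring
  simp_rw [h1]
  rw [h]
  congr 1
  field_simp

lemma gs_conv {σ : ℝ} (hσ : 0 < σ) (a t : ℝ) :
    gs (2 * σ) (a - t) = Real.sqrt (2 / (Real.pi * σ)) * ∫ s : ℝ, gs σ (a - s) * gs σ (s - t) := by
  have hpi := Real.pi_pos
  have h1 : ∀ s : ℝ, gs σ (a - s) * gs σ (s - t) =
      gs (2 * σ) (a - t) * gs (σ / 2) (s - (a + t) / 2) := by
    intro s
    unfold gs
    rw [← Real.exp_add, ← Real.exp_add]
    congr 1
    field_simp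
    ring
  simp_rw [h1]
  rw [integral_const_mul, integral_sub_right_eq_self (fun s => gs (σ / 2) s) ((a + t) / 2),
    gs_val (by positivity)]
  have h2 : Real.sqrt (2 / (Real.pi * σ)) * Real.sqrt (Real.pi * (σ / 2)) = 1 := by
    rw [← Real.sqrt_mul (by positivity)]
    have : 2 / (Real.pi * σ) * (Real.pi * (σ / 2)) = 1 := by field_simp
    rw [this, Real.sqrt_one]
  linear_combination (-(gs (2 * σ) (a - t))) * h2

lemma abs_gs_int {σ : ℝ} (hσ : 0 < σ) : Integrable (fun x : ℝ => |x| * gs σ x) := by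
  have h := integrable_mul_exp_neg_mul_sq (b := 1 / σ) (by positivity)
  refine h.norm.congr (Eventually.of_forall fun x => ?_)
  simp only [gs, norm_mul, Real.norm_eq_abs]
  rw [abs_of_pos (Real.exp_pos _)]
  congr 2
  ring

lemma abs_gs_val {σ : ℝ} (hσ : 0 < σ) : ∫ x : ℝ, |x| * gs σ x = σ := by
  have h1 : ∫ x : ℝ, |x| * gs σ x = 2 * ∫ x in Ioi (0 : ℝ), x * gs σ x := by
    have h2 := integral_comp_abs (f := fun x : ℝ => x * gs σ x)
    rw [← h2]
    congr 1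
    funext x
    unfold gs
    rw [sq_abs]
  have h3 : ∫ x in Ioi (0 : ℝ), x * gs σ x = σ / 2 := by
    have h4 : ∀ x : ℝ, HasDerivAt (fun x => -(σ / 2) * gs σ x) (x * gs σ x) x := by
      intro x
      unfold gs
      have h5 : HasDerivAt (fun x : ℝ => -(x ^ 2 / σ)) (-(2 * x / σ)) x := by
        have h7 := ((hasDerivAt_pow 2 x).div_const σ).fun_neg
        have h8 : -(((2 : ℕ) : ℝ) * x ^ (2 - 1) / σ) = -(2 * x / σ) := by norm_num
        rw [h8] at h7
        exact h7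
      have h6 := (h5.exp).const_mul (-(σ / 2))
      have h7 : -(σ / 2) * (Real.exp (-(x ^ 2 / σ)) * -(2 * x / σ)) = x * Real.exp (-(x ^ 2 / σ)) := by
        field_simp
      rw [h7] at h6
      exact h6
    have h5 : Tendsto (fun x => -(σ / 2) * gs σ x) atTop (𝓝 (-(σ / 2) * 0)) := by
      apply Tendsto.const_mul
      unfold gs
      apply Real.tendsto_exp_neg_atTop_nhds_zero.comp
      exact (tendsto_pow_atTop two_ne_zero).atTop_div_const hσ
    have h6 := integral_Ioi_of_hasDerivAt_of_tendsto (a := (0 : ℝ)) (f := fun x => -(σ / 2) * gs σ x)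
      (f' := fun x => x * gs σ x) (m := -(σ / 2) * 0) ((h4 0).continuousAt.continuousWithinAt)
      (fun x _ => h4 x) (by
        refine ((abs_gs_int hσ).integrableOn (s := Ioi 0)).congr_fun (fun x hx => ?_) measurableSet_Ioi
        have hx' : (0 : ℝ) < x := hx
        simp only
        rw [abs_of_pos hx']) h5
    rw [h6]
    unfold gs
    simp
  rw [h1, h3]
  ring

/-- doubling -/
lemma CM_double (F : Finset ℝ) (w U : ℝ → ℂ) {σ : ℝ} (hσ : 0 < σ) (t : ℝ) :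
    CM F w U (2 * σ) t = ((Real.sqrt (2 / (Real.pi * σ)) : ℝ) : ℂ) *
      ∫ s : ℝ, (CM F w U σ s + (U s - U t) * NN F w σ s) * ((gs σ (s - t) : ℝ) : ℂ) := by
  have h1 : ∀ s : ℝ, (CM F w U σ s + (U s - U t) * NN F w σ s) * ((gs σ (s - t) : ℝ) : ℂ) =
      ∑ γ ∈ F, w γ * (U γ - U t) * (((gs σ (γ - s) * gs σ (s - t) : ℝ)) : ℂ) := by
    intro s
    unfold CM NN
    rw [Finset.mul_sum, ← Finset.sum_add_distrib, Finset.sum_mul]
    refine Finset.sum_congr rfl fun γ _ => ?_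
    push_cast
    ring
  simp_rw [h1]
  have hint : ∀ γ : ℝ, Integrable (fun s : ℝ => gs σ (γ - s) * gs σ (s - t)) := by
    intro γ
    have h2 : Integrable (fun s : ℝ => gs σ (s - t)) := (gs_int hσ).comp_sub_right t
    refine h2.bdd_mul (c := 1) ?_ ?_
    · have := gs_cont σ
      exact (this.comp (by fun_prop)).aestronglyMeasurable
    · refine Eventually.of_forall fun s => ?_
      rw [Real.norm_eq_abs, abs_of_pos (gs_pos _ _)]
      unfold gs
      apply Real.exp_le_one_iff.2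
      have : 0 ≤ (γ - s) ^ 2 / σ := by positivity
      linarith
  rw [integral_finset_sum]
  swap
  · intro γ _
    exact (hint γ).ofReal.const_mul _
  rw [Finset.mul_sum]
  unfold CM
  refine Finset.sum_congr rfl fun γ _ => ?_
  rw [integral_const_mul, integral_complex_ofReal, gs_conv hσ]
  push_cast
  ring

/-- the basic step -/
lemma CM_step (F : Finset ℝ) (w : ℝ → ℂ) {U : ℝ → ℂ} {Λ : ℝ} (hΛ : 0 ≤ Λ)
    (hU : ∀ s t, ‖U s - U t‖ ≤ Λ * |s - t|) (hUc : Continuous U) {σ : ℝ} (hσ : 0 < σ) :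
    ∫⁻ t : ℝ, ‖CM F w U (2 * σ) t‖ₑ ≤ ENNReal.ofReal (Real.sqrt 2) * (∫⁻ t : ℝ, ‖CM F w U σ t‖ₑ) +
      ENNReal.ofReal (Λ * Real.sqrt (2 * σ / Real.pi)) * (∫⁻ t : ℝ, ‖NN F w σ t‖ₑ) := by
  have hpi := Real.pi_pos
  set c : ℝ := Real.sqrt (2 / (Real.pi * σ)) with hc
  have hc0 : 0 ≤ c := Real.sqrt_nonneg _
  have hgc := gs_cont σ
  have hCc := CM_cont F w hUc σ
  have hNc := NN_cont F w σ
  -- pointwise
  have hpt : ∀ t : ℝ, ‖CM F w U (2 * σ) t‖ₑ ≤ ENNReal.ofReal c *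
      ((∫⁻ s : ℝ, ‖CM F w U σ s‖ₑ * ENNReal.ofReal (gs σ (s - t))) +
        ∫⁻ s : ℝ, ‖NN F w σ s‖ₑ * ENNReal.ofReal (Λ * (|s - t| * gs σ (s - t)))) := by
    intro t
    rw [CM_double F w U hσ t, enorm_mul]
    have h1 : ‖((c : ℝ) : ℂ)‖ₑ = ENNReal.ofReal c := by
      rw [← ofReal_norm_eq_enorm, Complex.norm_real, Real.norm_eq_abs, abs_of_nonneg hc0]
    rw [h1]
    gcongr
    refine (enorm_integral_le_lintegral_enorm _).trans ?_
    rw [← lintegral_add_left]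
    · apply lintegral_mono
      intro s
      simp only
      rw [enorm_mul]
      have h2 : ‖((gs σ (s - t) : ℝ) : ℂ)‖ₑ = ENNReal.ofReal (gs σ (s - t)) := by
        rw [← ofReal_norm_eq_enorm, Complex.norm_real, Real.norm_eq_abs, abs_of_pos (gs_pos _ _)]
      rw [h2]
      have h3 : ‖CM F w U σ s + (U s - U t) * NN F w σ s‖ₑ ≤
          ‖CM F w U σ s‖ₑ + ENNReal.ofReal (Λ * |s - t|) * ‖NN F w σ s‖ₑ := by
        refine (enorm_add_le _ _).trans ?_
        gcongr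
        rw [enorm_mul]
        gcongr
        rw [← ofReal_norm_eq_enorm]
        exact ENNReal.ofReal_le_ofReal (hU s t)
      calc _ ≤ (‖CM F w U σ s‖ₑ + ENNReal.ofReal (Λ * |s - t|) * ‖NN F w σ s‖ₑ) *
            ENNReal.ofReal (gs σ (s - t)) := by gcongr
        _ = ‖CM F w U σ s‖ₑ * ENNReal.ofReal (gs σ (s - t)) +
            ‖NN F w σ s‖ₑ * (ENNReal.ofReal (Λ * |s - t|) * ENNReal.ofReal (gs σ (s - t))) := by ring
        _ = _ := by
            rw [← ENNReal.ofReal_mul (by positivity)]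
            congr 3
            ring
    · have h4 : Measurable fun s : ℝ => ENNReal.ofReal (gs σ (s - t)) :=
        (hgc.comp (by fun_prop : Continuous fun s : ℝ => s - t)).measurable.ennreal_ofReal
      exact (hCc.measurable.enorm).mul h4
  refine (lintegral_mono hpt).trans ?_
  have m1 : Measurable (Function.uncurry fun t s : ℝ => ‖CM F w U σ s‖ₑ * ENNReal.ofReal (gs σ (s - t))) := by
    have h4 : Measurable fun p : ℝ × ℝ => ENNReal.ofReal (gs σ (p.2 - p.1)) :=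
      (hgc.comp (by fun_prop : Continuous fun p : ℝ × ℝ => p.2 - p.1)).measurable.ennreal_ofReal
    have h5 : Measurable fun p : ℝ × ℝ => ‖CM F w U σ p.2‖ₑ := (hCc.comp continuous_snd).measurable.enorm
    exact h5.mul h4
  have m2 : Measurable (Function.uncurry fun t s : ℝ => ‖NN F w σ s‖ₑ *
      ENNReal.ofReal (Λ * (|s - t| * gs σ (s - t)))) := by
    have h4 : Measurable fun p : ℝ × ℝ => ENNReal.ofReal (Λ * (|p.2 - p.1| * gs σ (p.2 - p.1))) := by
      apply Measurable.ennreal_ofReal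
      apply Continuous.measurable
      have h6 := hgc.comp (by fun_prop : Continuous fun p : ℝ × ℝ => p.2 - p.1)
      have h7 : Continuous fun p : ℝ × ℝ => gs σ (p.2 - p.1) := h6
      fun_prop
    have h5 : Measurable fun p : ℝ × ℝ => ‖NN F w σ p.2‖ₑ := (hNc.comp continuous_snd).measurable.enorm
    exact h5.mul h4
  have hm1 : Measurable fun t : ℝ => ∫⁻ s : ℝ, ‖CM F w U σ s‖ₑ * ENNReal.ofReal (gs σ (s - t)) :=
    m1.lintegral_prod_right'
  have hm2 : Measurable fun t : ℝ => ∫⁻ s : ℝ, ‖NN F w σ s‖ₑ *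
      ENNReal.ofReal (Λ * (|s - t| * gs σ (s - t))) := m2.lintegral_prod_right'
  have hm12 : Measurable fun t : ℝ => (∫⁻ s : ℝ, ‖CM F w U σ s‖ₑ * ENNReal.ofReal (gs σ (s - t))) +
      ∫⁻ s : ℝ, ‖NN F w σ s‖ₑ * ENNReal.ofReal (Λ * (|s - t| * gs σ (s - t))) := hm1.add hm2
  rw [lintegral_const_mul _ hm12, lintegral_add_left hm1]
  rw [lintegral_lintegral_swap m1.aemeasurable, lintegral_lintegral_swap m2.aemeasurable]
  have i1 : ∀ s : ℝ, ∫⁻ t : ℝ, ‖CM F w U σ s‖ₑ * ENNReal.ofReal (gs σ (s - t)) =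
      ‖CM F w U σ s‖ₑ * ENNReal.ofReal (Real.sqrt (Real.pi * σ)) := by
    intro s
    rw [lintegral_const_mul]
    swap
    · exact (hgc.comp (by fun_prop : Continuous fun t : ℝ => s - t)).measurable.ennreal_ofReal
    congr 1
    rw [← ofReal_integral_eq_lintegral_ofReal]
    · congr 1
      rw [integral_sub_left_eq_self (fun t => gs σ t) volume s, gs_val hσ]
    · exact (gs_int hσ).comp_sub_left s
    · exact Eventually.of_forall fun t => (gs_pos _ _).le
  have i2 : ∀ s : ℝ, ∫⁻ t : ℝ, ‖NN F w σ s‖ₑ * ENNReal.ofReal (Λ * (|s - t| * gs σ (s - t))) =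
      ‖NN F w σ s‖ₑ * ENNReal.ofReal (Λ * σ) := by
    intro s
    rw [lintegral_const_mul]
    swap
    · apply Measurable.ennreal_ofReal
      apply Continuous.measurable
      have h7 : Continuous fun t : ℝ => gs σ (s - t) := hgc.comp (by fun_prop : Continuous fun t : ℝ => s - t)
      fun_prop
    congr 1
    rw [← ofReal_integral_eq_lintegral_ofReal]
    · congr 1
      rw [integral_const_mul, integral_sub_left_eq_self (fun t => |t| * gs σ t) volume s, abs_gs_val hσ]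
    · exact ((abs_gs_int hσ).comp_sub_left s).const_mul Λ
    · exact Eventually.of_forall fun t => by have := (gs_pos σ (s - t)).le; positivity
  simp_rw [i1, i2]
  rw [lintegral_mul_const _ hCc.measurable.enorm, lintegral_mul_const _ hNc.measurable.enorm, mul_add]
  apply le_of_eq
  congr 1
  · rw [mul_comm (∫⁻ t : ℝ, ‖CM F w U σ t‖ₑ), ← mul_assoc, ← ENNReal.ofReal_mul hc0]
    congr 2
    rw [hc, ← Real.sqrt_mul (by positivity)]
    congr 1
    field_simp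
  · rw [mul_comm (∫⁻ t : ℝ, ‖NN F w σ t‖ₑ), ← mul_assoc, ← ENNReal.ofReal_mul hc0]
    congr 2
    have h8 : c * σ = Real.sqrt (2 * σ / Real.pi) := by
      rw [hc]
      nth_rewrite 2 [← Real.sqrt_sq hσ.le]
      rw [← Real.sqrt_mul (by positivity)]
      congr 1
      field_simp
    rw [← h8]
    ring

/-- iteration -/
lemma CM_iter (F : Finset ℝ) (w : ℝ → ℂ) {U : ℝ → ℂ} {Λ : ℝ} (hΛ : 0 ≤ Λ)
    (hU : ∀ s t, ‖U s - U t‖ ≤ Λ * |s - t|) (hUc : Continuous U) {σ : ℝ} (hσ : 0 < σ) (J : ℕ) :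
    ∫⁻ t : ℝ, ‖CM F w U (2 ^ J * σ) t‖ₑ ≤ ENNReal.ofReal (Real.sqrt (2 ^ J)) *
      ((∫⁻ t : ℝ, ‖CM F w U σ t‖ₑ) + ENNReal.ofReal (Λ * Real.sqrt σ) *
        ∑ j ∈ Finset.range J, ∫⁻ t : ℝ, ‖NN F w (2 ^ j * σ) t‖ₑ) := by
  induction J with
  | zero => simp
  | succ J ih =>
    have h1 := CM_step F w hΛ hU hUc (σ := 2 ^ J * σ) (by positivity)
    have e1 : (2 : ℝ) * (2 ^ J * σ) = 2 ^ (J + 1) * σ := by ring
    rw [e1] at h1
    refine h1.trans ?_
    have h2 : Λ * Real.sqrt (2 ^ (J + 1) * σ / Real.pi) ≤ Real.sqrt (2 ^ (J + 1)) * (Λ * Real.sqrt σ) := by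
      have h3 : Real.sqrt (2 ^ (J + 1) * σ / Real.pi) ≤ Real.sqrt (2 ^ (J + 1) * σ) := by
        apply Real.sqrt_le_sqrt
        exact div_le_self (by positivity) (by linarith [Real.pi_gt_three])
      rw [Real.sqrt_mul (by positivity)] at h3
      calc _ ≤ Λ * (Real.sqrt (2 ^ (J + 1)) * Real.sqrt σ) := mul_le_mul_of_nonneg_left h3 hΛ
        _ = _ := by ring
    have h4 : Real.sqrt 2 * Real.sqrt (2 ^ J) = Real.sqrt (2 ^ (J + 1)) := by
      rw [← Real.sqrt_mul (by norm_num)]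
      congr 1
      ring
    calc ENNReal.ofReal (Real.sqrt 2) * (∫⁻ t : ℝ, ‖CM F w U (2 ^ J * σ) t‖ₑ) +
          ENNReal.ofReal (Λ * Real.sqrt (2 ^ (J + 1) * σ / Real.pi)) *
            (∫⁻ t : ℝ, ‖NN F w (2 ^ J * σ) t‖ₑ)
        ≤ ENNReal.ofReal (Real.sqrt 2) * (ENNReal.ofReal (Real.sqrt (2 ^ J)) *
            ((∫⁻ t : ℝ, ‖CM F w U σ t‖ₑ) + ENNReal.ofReal (Λ * Real.sqrt σ) *
              ∑ j ∈ Finset.range J, ∫⁻ t : ℝ, ‖NN F w (2 ^ j * σ) t‖ₑ)) +
          ENNReal.ofReal (Real.sqrt (2 ^ (J + 1)) * (Λ * Real.sqrt σ)) *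
            (∫⁻ t : ℝ, ‖NN F w (2 ^ J * σ) t‖ₑ) := by
          gcongr
      _ = _ := by
          rw [Finset.sum_range_succ, ← mul_assoc, ← ENNReal.ofReal_mul (Real.sqrt_nonneg _), h4,
            ENNReal.ofReal_mul (Real.sqrt_nonneg _)]
          ring

lemma CM_base (F : Finset ℝ) (w : ℝ → ℂ) {U : ℝ → ℂ} {Λ : ℝ} (hΛ : 0 ≤ Λ)
    (hU : ∀ s t, ‖U s - U t‖ ≤ Λ * |s - t|) {σ : ℝ} (hσ : 0 < σ) :
    ∫⁻ t : ℝ, ‖CM F w U σ t‖ₑ ≤ ENNReal.ofReal (Λ * σ * ∑ γ ∈ F, ‖w γ‖) := by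
  have hgc := gs_cont σ
  have h1 : ∀ t : ℝ, ‖CM F w U σ t‖ₑ ≤ ∑ γ ∈ F, ENNReal.ofReal (‖w γ‖ * Λ * (|γ - t| * gs σ (γ - t))) := by
    intro t
    rw [← ofReal_norm_eq_enorm, ← ENNReal.ofReal_sum_of_nonneg]
    · apply ENNReal.ofReal_le_ofReal
      unfold CM
      refine (norm_sum_le _ _).trans (Finset.sum_le_sum fun γ _ => ?_)
      rw [norm_mul, norm_mul, Complex.norm_real, Real.norm_eq_abs, abs_of_pos (gs_pos _ _)]
      have h2 := hU γ t
      have h3 := gs_pos σ (γ - t)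
      calc ‖w γ‖ * ‖U γ - U t‖ * gs σ (γ - t) ≤ ‖w γ‖ * (Λ * |γ - t|) * gs σ (γ - t) := by gcongr
        _ = _ := by ring
    · intro γ _
      have h3 := gs_pos σ (γ - t)
      positivity
  refine (lintegral_mono h1).trans ?_
  rw [lintegral_finsetSum]
  swap
  · intro γ _
    apply Measurable.ennreal_ofReal
    apply Continuous.measurable
    have h7 : Continuous fun t : ℝ => gs σ (γ - t) := hgc.comp (by fun_prop : Continuous fun t : ℝ => γ - t)
    fun_prop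
  have h2 : ∀ γ ∈ F, ∫⁻ t : ℝ, ENNReal.ofReal (‖w γ‖ * Λ * (|γ - t| * gs σ (γ - t))) =
      ENNReal.ofReal (‖w γ‖ * Λ * σ) := by
    intro γ _
    rw [← ofReal_integral_eq_lintegral_ofReal]
    · congr 1
      rw [integral_const_mul, integral_sub_left_eq_self (fun t => |t| * gs σ t) volume γ, abs_gs_val hσ]
    · exact ((abs_gs_int hσ).comp_sub_left γ).const_mul _
    · exact Eventually.of_forall fun t => by have := (gs_pos σ (γ - t)).le; positivity
  rw [Finset.sum_congr rfl h2, ← ENNReal.ofReal_sum_of_nonneg]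
  · apply le_of_eq
    congr 1
    rw [Finset.mul_sum]
    exact Finset.sum_congr rfl fun γ _ => by ring
  · intro γ _
    positivity

lemma sqrt_pow' {x : ℝ} (hx : 0 ≤ x) (j : ℕ) : Real.sqrt (x ^ j) = Real.sqrt x ^ j := by
  induction j with
  | zero => simp
  | succ j ih => rw [pow_succ, Real.sqrt_mul (by positivity), ih, pow_succ]

lemma geo_sum (J : ℕ) {s : ℝ} (hs : 0 ≤ s) :
    ∑ j ∈ Finset.range J, Real.sqrt (Real.sqrt (2 ^ j * s)) ≤ 6 * Real.sqrt (Real.sqrt (2 ^ J * s)) := by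
  set q : ℝ := Real.sqrt (Real.sqrt 2) with hq
  have hq0 : 0 ≤ q := Real.sqrt_nonneg _
  have h1 : ∀ j : ℕ, Real.sqrt (Real.sqrt (2 ^ j * s)) = q ^ j * Real.sqrt (Real.sqrt s) := by
    intro j
    rw [Real.sqrt_mul (by positivity), Real.sqrt_mul (by positivity)]
    congr 1
    rw [sqrt_pow' (by norm_num), sqrt_pow' (Real.sqrt_nonneg _)]
  have hq4 : q ^ 4 = 2 := by
    have h2 : q ^ 4 = (q ^ 2) ^ 2 := by ring
    rw [h2, hq, Real.sq_sqrt (Real.sqrt_nonneg _), Real.sq_sqrt (by norm_num)]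
  have hq7 : 7 / 6 ≤ q := by
    by_contra h
    push Not at h
    have h2 : q ^ 4 ≤ (7 / 6) ^ 4 := by gcongr
    rw [hq4] at h2
    norm_num at h2
  simp_rw [h1]
  rw [← Finset.sum_mul]
  have hgeo : ∑ j ∈ Finset.range J, q ^ j ≤ 6 * q ^ J := by
    have h2 : (∑ j ∈ Finset.range J, q ^ j) * (q - 1) = q ^ J - 1 := geom_sum_mul q J
    have h3 : 0 ≤ ∑ j ∈ Finset.range J, q ^ j := Finset.sum_nonneg fun j _ => by positivity
    nlinarith
  calc _ ≤ (6 * q ^ J) * Real.sqrt (Real.sqrt s) :=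
        mul_le_mul_of_nonneg_right hgeo (Real.sqrt_nonneg _)
    _ = _ := by ring

/-- **the commutator bound** -/
theorem CM_total (F : Finset ℝ) (w : ℝ → ℂ) {U : ℝ → ℂ} {Λ : ℝ} (hΛ : 0 ≤ Λ)
    (hU : ∀ s t, ‖U s - U t‖ ≤ Λ * |s - t|) (hUc : Continuous U) {σ : ℝ} (hσ : 0 < σ) (J : ℕ)
    {B r W : ℝ} (hB : 0 ≤ B) (hr : 0 ≤ r) (hW : ∑ γ ∈ F, ‖w γ‖ ≤ W)
    (hn : ∀ j < J, ∫⁻ t : ℝ, ‖NN F w (2 ^ j * σ) t‖ₑ ≤
      ENNReal.ofReal (B * Real.sqrt (Real.sqrt (2 ^ j * σ)) + r)) :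
    ∫⁻ t : ℝ, ‖CM F w U (2 ^ J * σ) t‖ₑ ≤ ENNReal.ofReal (Λ * Real.sqrt (2 ^ J * σ) *
      (Real.sqrt σ * W + 6 * B * Real.sqrt (Real.sqrt (2 ^ J * σ)) + J * r)) := by
  have hW0 : 0 ≤ W := (Finset.sum_nonneg fun γ _ => norm_nonneg _).trans hW
  have h1 := CM_iter F w hΛ hU hUc hσ J
  have h2 := CM_base F w hΛ hU hσ
  have h3 : ∑ j ∈ Finset.range J, ∫⁻ t : ℝ, ‖NN F w (2 ^ j * σ) t‖ₑ ≤
      ENNReal.ofReal (6 * B * Real.sqrt (Real.sqrt (2 ^ J * σ)) + J * r) := by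
    calc _ ≤ ∑ j ∈ Finset.range J, ENNReal.ofReal (B * Real.sqrt (Real.sqrt (2 ^ j * σ)) + r) :=
          Finset.sum_le_sum fun j hj => hn j (Finset.mem_range.1 hj)
      _ = ENNReal.ofReal (∑ j ∈ Finset.range J, (B * Real.sqrt (Real.sqrt (2 ^ j * σ)) + r)) := by
          rw [ENNReal.ofReal_sum_of_nonneg]
          intro j _
          positivity
      _ ≤ _ := by
          apply ENNReal.ofReal_le_ofReal
          rw [Finset.sum_add_distrib, ← Finset.mul_sum, Finset.sum_const, Finset.card_range, nsmul_eq_mul]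
          have := geo_sum J hσ.le
          nlinarith
  refine h1.trans ?_
  have hs0 : 0 ≤ 6 * B * Real.sqrt (Real.sqrt (2 ^ J * σ)) + J * r := by positivity
  calc _ ≤ ENNReal.ofReal (Real.sqrt (2 ^ J)) * (ENNReal.ofReal (Λ * σ * W) +
        ENNReal.ofReal (Λ * Real.sqrt σ) *
          ENNReal.ofReal (6 * B * Real.sqrt (Real.sqrt (2 ^ J * σ)) + J * r)) := by
        gcongr
        exact h2.trans (ENNReal.ofReal_le_ofReal (by gcongr))
    _ = _ := by
        rw [← ENNReal.ofReal_mul (by positivity), ← ENNReal.ofReal_add (by positivity) (by positivity),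
          ← ENNReal.ofReal_mul (Real.sqrt_nonneg _)]
        congr 1
        rw [Real.sqrt_mul (by positivity) σ]
        have h4 : Real.sqrt σ * Real.sqrt σ = σ := Real.mul_self_sqrt hσ.le
        linear_combination (-(Real.sqrt (2 ^ J) * Λ * W)) * h4

end Pool.Agent.N806.AH
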