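import Pool.Agent.N806.AH.Pure2
import Pool.Agent.N806.AH.Scale

/-! The resonance integral is large, second form. -/

set_option autoImplicit false

open Complex Filter Topology Set MeasureTheory Metric

namespace Pool.Agent.N806.AH

open H345 H345.Chi Pool.Agent.H640R3.EG Pool.Agent.H810R2.CSd

lemma wg_half (H t0 γ : ℝ) : wg H t0 (1 / 2 + (γ : ℂ) * I) = ((gs (H ^ 2) (γ - t0) : ℝ) : ℂ) := by
  unfold wg gs
  rw [Complex.ofReal_exp]
  congr 1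
  have h2 : (1 / 2 + (γ : ℂ) * I - (1 / 2 + (t0 : ℂ) * I)) = ((γ - t0 : ℝ) : ℂ) * I := by
    push_cast; ring
  rw [h2, mul_pow, Complex.I_sq]
  push_cast
  ring

/-- the terms of the sum over the zeros, conjugated -/
lemma term_conj {y : ℝ} (hy : 0 < y) {b : ℝ} {ℓ : ℕ} (hℓ : 1 ≤ ℓ) (H t0 : ℝ) (c : ℂ) {γ : ℝ}
    (hγ : γ ∈ Zo) (hγ0 : γ ≠ 0) :
    (starRingEnd ℂ) (wg H t0 (1 / 2 + (γ : ℂ) * I) * mt y b ℓ (1 / 2 + (γ : ℂ) * I) *
      Wf y c (1 / 2 + (γ : ℂ) * I) * aa γ) =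
    -(cexp (-((starRingEnd ℂ) (Lam y b ℓ) / 2))) *
      (aa γ * cexp ((((Real.log ℓ + pb b) * γ : ℝ) : ℂ) * I) *
        ((Real.exp (-(Real.arctan b * γ)) : ℝ) : ℂ) * (uu y γ + (starRingEnd ℂ) c) *
        ((gs (H ^ 2) (γ - t0) : ℝ) : ℂ)) := by
  set X : ℂ := XX (1 / 2 + (γ : ℂ) * I) with hX
  have hX1 : ‖X‖ = 1 := norm_XX_half γ
  have hX0 : X ≠ 0 := by
    intro h
    rw [h, norm_zero] at hX1
    exact zero_ne_one hX1
  have hXc : (starRingEnd ℂ) X = X⁻¹ := by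
    rw [Complex.inv_def, Complex.normSq_eq_norm_sq, hX1]
    simp
  set Y : ℂ := cexp (((γ * Real.log y : ℝ) : ℂ) * I) with hY
  have hYc : (starRingEnd ℂ) Y = Y⁻¹ := by
    rw [hY, ← Complex.exp_conj, ← Complex.exp_neg]
    congr 1
    simp
  have hY0 : Y ≠ 0 := Complex.exp_ne_zero _
  have hu : uu y γ = X⁻¹ ^ 2 * Y := rfl
  rw [wg_half, Wf_half y c hγ0, hu]
  unfold mt
  rw [← hX]
  simp only [map_mul, map_add, map_one, map_pow, map_inv₀, Complex.conj_ofReal]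
  rw [aa_conj γ hγ, ← hX, hXc, hYc, inv_inv]
  have hexp : (starRingEnd ℂ) (cexp (-(Lam y b ℓ * (1 / 2 + (γ : ℂ) * I)))) =
      cexp (-((starRingEnd ℂ) (Lam y b ℓ) / 2)) * (cexp ((((Real.log ℓ + pb b) * γ : ℝ) : ℂ) * I) * Y *
        ((Real.exp (-(Real.arctan b * γ)) : ℝ) : ℂ)) := by
    rw [← Complex.exp_conj, hY, Complex.ofReal_exp, ← Complex.exp_add, ← Complex.exp_add, ← Complex.exp_add]
    congr 1
    have hlog : Real.log (y * ℓ) = Real.log y + Real.log ℓ :=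
      Real.log_mul hy.ne' (by have : (0 : ℝ) < ℓ := by exact_mod_cast hℓ
                              exact this.ne')
    unfold Lam
    rw [hlog]
    simp only [map_neg, map_mul, map_add, map_sub, map_div₀, map_one, Complex.conj_ofReal, Complex.conj_I,
      conj_two]
    push_cast [-Complex.ofReal_arctan]
    linear_combination (((Real.arctan b : ℝ) : ℂ) * (γ : ℂ)) * Complex.I_sq
  rw [hexp]
  field_simp

theorem pstep2 (hRH : RiemannHypothesis) {y : ℝ} (hy : 0 < y) {Cr : ℝ} (hCr : 1 ≤ Cr) {ℓ : ℕ} (hℓ : 1 ≤ ℓ)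
    (hsq : Squarefree ℓ) {H : ℝ} (hH : 4 ≤ H) : ∃ K C L0 : ℝ, 1 ≤ K ∧ 1 ≤ C ∧ 1 ≤ L0 ∧
    ∀ L : ℝ, L0 ≤ L → ∀ b : ℝ, 0 ≤ b → b ≤ Real.exp (-L) → ∀ t0 d ε : ℝ, Real.exp L ≤ t0 →
    t0 ≤ Cr * Real.exp L → 1 / (8 * L) ≤ d → d ≤ 1 → LH y t0 (K * L) d ε → ∀ c : ℂ, ‖c‖ = 1 →
    ∃ y1 y2 : ℝ, t0 - K * L ≤ y1 ∧ y1 ≤ t0 - 4 * H * L ∧ t0 + 4 * H * L ≤ y2 ∧ y2 ≤ t0 + K * L ∧
    Real.exp (-(Real.log y / 2)) * ((H * Real.sqrt Real.pi) * Real.exp (-(Real.arctan b * t0)) * (ℓ : ℝ)⁻¹ *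
      (1 - 3 * EE ℓ H)) ≤ ‖Rint y b ℓ H t0‖ + 2 * Real.pi * (Real.exp (-(Real.log (y * ℓ) / 2)) *
      ‖∑ γ ∈ ZF y1 y2, aa γ * cexp ((((Real.log ℓ + pb b) * γ : ℝ) : ℂ) * I) *
        ((Real.exp (-(Real.arctan b * γ)) : ℝ) : ℂ) * (uu y γ + (starRingEnd ℂ) c) *
        ((gs (H ^ 2) (γ - t0) : ℝ) : ℂ)‖) + C * Real.exp (-L) := by
  have hH1 : 1 ≤ H := by linarith
  obtain ⟨C1, hC1, hR⟩ := pc_right hy hℓ hH1 hCr
  obtain ⟨C2, hC2, hLf⟩ := pc_left hy hℓ hH1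
  obtain ⟨K1, C3, hK1, hC3, hHr⟩ := pc_hor hRH (y := y) (ℓ := ℓ) hCr hH1
  obtain ⟨b0, hb0, hb01, hJ⟩ := jint_lower hℓ hsq hH
  set K : ℝ := K1 + 4 * H with hK
  obtain ⟨L2, hL2⟩ : ∃ L2 : ℝ, ∀ L : ℝ, L2 ≤ L → K * L + 4 ≤ Real.exp L / 2 := by
    have h1 := (Real.tendsto_exp_div_pow_atTop 1).eventually_ge_atTop (2 * (K + 4))
    obtain ⟨x, hx⟩ := (h1.and (eventually_ge_atTop 1)).exists_forall_of_atTop
    refine ⟨x, fun L hL => ?_⟩
    obtain ⟨h2, h3⟩ := hx L hL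
    rw [pow_one, le_div_iff₀ (by linarith)] at h2
    nlinarith
  refine ⟨K + 3, 6 * C3 + C1 + C2 + 1, max (max L2 (Real.log (1 / b0))) (Real.log (2 * Cr) + 2), by linarith,
    by linarith, by
      have h1 : 0 ≤ Real.log (2 * Cr) := Real.log_nonneg (by linarith)
      have h2 := le_max_right (max L2 (Real.log (1 / b0))) (Real.log (2 * Cr) + 2)
      linarith, fun L hL b hb hbL t0 d ε ht0 ht1 hd hd1 hLH c hc => ?_⟩
  have hLL2 : L2 ≤ L := ((le_max_left _ _).trans (le_max_left _ _)).trans hL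
  have hLb : Real.log (1 / b0) ≤ L := ((le_max_right _ _).trans (le_max_left _ _)).trans hL
  have hLC : Real.log (2 * Cr) + 2 ≤ L := (le_max_right _ _).trans hL
  have hlog0 : 0 ≤ Real.log (2 * Cr) := Real.log_nonneg (by linarith)
  have hL2' : 2 ≤ L := by linarith
  have hL0 : 0 < L := by linarith
  have hbb0 : b ≤ b0 := by
    refine hbL.trans ?_
    rw [Real.exp_neg]
    rw [one_div, Real.log_inv] at hLb
    have h1 : Real.exp (-Real.log b0) ≤ Real.exp L := Real.exp_le_exp.2 hLb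
    rw [Real.exp_neg, Real.exp_log hb0] at h1
    have := inv_anti₀ (by positivity) h1
    rwa [inv_inv] at this
  have hb1 : b ≤ 1 := hbb0.trans hb01
  set W : ℝ := K * L with hW
  have hWexp : W + 4 ≤ Real.exp L / 2 := hL2 L hLL2
  have hr : W + 3 ≤ (K + 3) * L := by nlinarith
  have hLH' := hLH.mono hr
  have hexp : 0 < Real.exp L := Real.exp_pos _
  have hWpos : 1 ≤ W := by nlinarith
  have hd0 : 0 < d := lt_of_lt_of_le (by positivity) hd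
  -- heights
  obtain ⟨y2, hy2, hy2d⟩ := good_pt (a := t0 + W) hd0 hd1 (by
    intro γ hγ γ' hγ' h1 h2 h3 h4 hne
    refine hLH'.sp γ hγ γ' hγ' ?_ ?_ hne
    · rw [abs_le]; constructor <;> linarith
    · rw [abs_le]; constructor <;> linarith)
  obtain ⟨y1, hy1, hy1d⟩ := good_pt (a := t0 - W - 1) hd0 hd1 (by
    intro γ hγ γ' hγ' h1 h2 h3 h4 hne
    refine hLH'.sp γ hγ γ' hγ' ?_ ?_ hne
    · rw [abs_le]; constructor <;> linarith
    · rw [abs_le]; constructor <;> linarith)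
  obtain ⟨hy1a, hy1b⟩ := hy1
  obtain ⟨hy2a, hy2b⟩ := hy2
  have hy1b' : y1 ≤ t0 - W := by linarith
  have h4H : 4 * H * L ≤ W := by rw [hW, hK]; nlinarith
  refine ⟨y1, y2, by linarith, by linarith, by linarith, by linarith, ?_⟩
  have hy1z : y1 ∉ Zo := fun h => by
    have := hy1d y1 h
    rw [sub_self, abs_zero] at this
    linarith
  have hy2z : y2 ∉ Zo := fun h => by
    have := hy2d y2 h
    rw [sub_self, abs_zero] at this
    linarith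
  have hy1e : Real.exp L / 2 ≤ y1 := by linarith
  have hexp2 : 10 ≤ Real.exp L := by linarith
  have hy13 : 3 ≤ y1 := by linarith
  have hy12 : y1 < y2 := by linarith
  set Φ : ℂ → ℂ := fun z => wg H t0 z * mt y b ℓ z * Wf y c z with hΦ
  have hmtd : ∀ z : ℂ, z.im ≠ 0 → DifferentiableAt ℂ (mt y b ℓ) z := by
    intro z hz
    unfold mt
    apply (XX_diff hz).mul
    fun_prop
  have hrect := rect_zeta hRH (x0 := -1) (x1 := 2) (y1 := y1) (y2 := y2) (by norm_num) (by norm_num)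
    (by linarith) hy12 hy1z hy2z (by
      intro γ hγ h1 h2
      exact hLH'.sim γ hγ (by rw [abs_le]; constructor <;> linarith)) (Φ := Φ) (by
      intro z h1 h2
      have him : z.im ≠ 0 := by have := h2.1; intro h; linarith
      exact ((wg_diff H t0 z).mul (hmtd z him)).mul (Wf_diff y c him))
  have hCL : 0 < Real.exp (-L) := Real.exp_pos _
  have hhor : ∀ v : ℝ, (∀ γ ∈ Zo, d / 4 ≤ |γ - v|) → 3 ≤ v → v ≤ 2 * t0 → W ≤ |v - t0| →
      ‖∫ x in (-1 : ℝ)..2, Φ ((x : ℂ) + v * I) * (riemannZeta ((x : ℂ) + v * I))⁻¹‖ ≤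
        3 * C3 * Real.exp (-L) := by
    intro v hv1 hv2 hv3 hv4
    have := intervalIntegral.norm_integral_le_of_norm_le_const (a := -1) (b := 2) (C := C3 * Real.exp (-L))
      (f := fun x : ℝ => Φ ((x : ℂ) + v * I) * (riemannZeta ((x : ℂ) + v * I))⁻¹) (by
        intro x hx
        rw [uIoc_of_le (by norm_num)] at hx
        rw [← mk_line]
        exact hHr c hc b hb hb1 L t0 v d W (by linarith) (by linarith) ht1 hv2 hv3
          (by rw [hW, hK]; nlinarith) hv4 hd hd1 hv1 x hx.1.le hx.2)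
    refine this.trans ?_
    norm_num
    linarith
  have hb1' := hhor y1 hy1d hy13 (by linarith) (by
    rw [abs_sub_comm, abs_of_nonneg (by linarith)]; linarith)
  have hb2' := hhor y2 hy2d (by linarith) (by linarith) (by
    rw [abs_of_nonneg (by linarith)]; linarith)
  have hb3 := hR c hc b hb L t0 y1 y2 W (by linarith) ht0 ht1 (by rw [hW, hK]; nlinarith) hy1b' hy2a hy1e
    (by linarith)
  have hb4 := hLf c hc b hb hb1 L t0 y1 y2 W (by linarith) ht0 (by rw [hW, hK]; nlinarith) hy1b' hy2a hy1e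
    (by linarith)
  have hJ' := hJ b hb hbb0 t0 (by linarith)
  set SS : ℂ := ∑ γ ∈ ZF y1 y2, Φ (1 / 2 + (γ : ℂ) * I) * aa γ with hSS
  -- the sum over zeros
  set S2 : ℂ := ∑ γ ∈ ZF y1 y2, aa γ * cexp ((((Real.log ℓ + pb b) * γ : ℝ) : ℂ) * I) *
        ((Real.exp (-(Real.arctan b * γ)) : ℝ) : ℂ) * (uu y γ + (starRingEnd ℂ) c) *
        ((gs (H ^ 2) (γ - t0) : ℝ) : ℂ) with hS2
  have hSSb : ‖SS‖ ≤ Real.exp (-(Real.log (y * ℓ) / 2)) * ‖S2‖ := by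
    have h1 : (starRingEnd ℂ) SS = -(cexp (-((starRingEnd ℂ) (Lam y b ℓ) / 2))) * S2 := by
      rw [hSS, hS2, map_sum, Finset.mul_sum]
      refine Finset.sum_congr rfl fun γ hγ => ?_
      rw [mem_ZF] at hγ
      have hγ0 : γ ≠ 0 := by linarith [hγ.2.1]
      exact term_conj hy hℓ H t0 c hγ.1 hγ0
    have h2 : ‖SS‖ = ‖(starRingEnd ℂ) SS‖ := (Complex.norm_conj SS).symm
    rw [h2, h1, norm_mul, norm_neg, Complex.norm_exp]
    apply mul_le_mul_of_nonneg_right _ (norm_nonneg _)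
    apply Real.exp_le_exp.2
    have h3 : (-((starRingEnd ℂ) (Lam y b ℓ) / 2)).re = -((Real.log (y * ℓ) + pb b) / 2) := by
      unfold Lam
      simp [-Complex.ofReal_arctan]
    rw [h3]
    have := pb_nonneg b
    linarith
  -- combine
  unfold rect at hrect
  set Bo := ∫ x in (-1 : ℝ)..2, Φ ((x : ℂ) + y1 * I) * (riemannZeta ((x : ℂ) + y1 * I))⁻¹ with hBo
  set To := ∫ x in (-1 : ℝ)..2, Φ ((x : ℂ) + y2 * I) * (riemannZeta ((x : ℂ) + y2 * I))⁻¹ with hTo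
  set Ri := ∫ t in y1..y2, wg H t0 ⟨2, t⟩ * mt y b ℓ ⟨2, t⟩ * Wf y c ⟨2, t⟩ * (riemannZeta ⟨2, t⟩)⁻¹ with hRi
  set Le := ∫ t in y1..y2, wg H t0 ⟨-1, t⟩ * mt y b ℓ ⟨-1, t⟩ * Wf y c ⟨-1, t⟩ *
    (riemannZeta ⟨-1, t⟩)⁻¹ with hLe
  have e1 : (∫ t in y1..y2, Φ (((2 : ℝ) : ℂ) + t * I) * (riemannZeta (((2 : ℝ) : ℂ) + t * I))⁻¹) = Ri := by
    rw [hRi]
    congr 1
    funext t
    rw [← mk_line]
  have e2 : (∫ t in y1..y2, Φ (((-1 : ℝ) : ℂ) + t * I) * (riemannZeta (((-1 : ℝ) : ℂ) + t * I))⁻¹) = Le := by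
    rw [hLe]
    congr 1
    funext t
    rw [← mk_line]
  rw [e1, e2, smul_eq_mul, smul_eq_mul] at hrect
  have hLeEq : I * Le = Bo - To + I * Ri - 2 * Real.pi * I * SS := by
    rw [← hrect]; ring
  have hLeN : ‖Le‖ ≤ ‖Bo‖ + ‖To‖ + ‖Ri‖ + 2 * Real.pi * ‖SS‖ := by
    have h1 : ‖I * Le‖ = ‖Le‖ := by rw [norm_mul, norm_I, one_mul]
    rw [← h1, hLeEq]
    refine (norm_sub_le _ _).trans ?_
    have h2 : ‖2 * (Real.pi : ℂ) * I * SS‖ = 2 * Real.pi * ‖SS‖ := by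
      rw [norm_mul, norm_mul, norm_mul, norm_I, mul_one, Complex.norm_real, Real.norm_eq_abs,
        abs_of_pos Real.pi_pos]
      norm_num
    rw [h2]
    have h3 : ‖Bo - To + I * Ri‖ ≤ ‖Bo‖ + ‖To‖ + ‖Ri‖ := by
      refine (norm_add_le _ _).trans ?_
      rw [norm_mul, norm_I, one_mul]
      have := norm_sub_le Bo To
      linarith
    linarith
  have hRiN : ‖Ri‖ ≤ ‖Rint y b ℓ H t0‖ + C1 * Real.exp (-L) := by
    have := norm_add_le (Ri - Rint y b ℓ H t0) (Rint y b ℓ H t0)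
    rw [sub_add_cancel] at this
    linarith
  set q : ℂ := c * ((Real.exp (-(Real.log y / 2)) : ℝ) : ℂ) with hq
  have hqn : ‖q‖ = Real.exp (-(Real.log y / 2)) := by
    rw [hq, norm_mul, hc, one_mul, Complex.norm_real, Real.norm_eq_abs, abs_of_pos (Real.exp_pos _)]
  have hJN : Real.exp (-(Real.log y / 2)) * ‖Jint b ℓ H t0‖ ≤ ‖Le‖ + C2 * Real.exp (-L) := by
    rw [← hqn, ← norm_mul]
    have := norm_sub_le Le (Le - q * Jint b ℓ H t0)
    rw [sub_sub_cancel] at this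
    linarith
  have hfin : Real.exp (-(Real.log y / 2)) * ((H * Real.sqrt Real.pi) * Real.exp (-(Real.arctan b * t0)) *
      (ℓ : ℝ)⁻¹ * (1 - 3 * EE ℓ H)) ≤ Real.exp (-(Real.log y / 2)) * ‖Jint b ℓ H t0‖ := by
    gcongr
  have hpi := Real.pi_pos
  have h9 : 2 * Real.pi * ‖SS‖ ≤ 2 * Real.pi * (Real.exp (-(Real.log (y * ℓ) / 2)) * ‖S2‖) := by gcongr
  nlinarith

end Pool.Agent.N806.AH
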