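import Pool.Agent.N806.AH.Planch
import Pool.Agent.N806.AH.Abs

/-! Periodicity and the mean square of the exponential series over a period. -/

set_option autoImplicit false

open Complex Filter Topology Set MeasureTheory Metric

namespace Pool.Agent.N806.AH

/-- squared modulus of the exponential series -/
noncomputable def Gr (y x r : ℝ) : ℝ := ‖FF y ⟨r, x⟩‖ ^ 2

/-- the exponentials -/
noncomputable def en (y : ℝ) (n : ℕ) (x : ℝ) : ℂ := cexp (-((2 * Real.pi * y * n * x : ℝ) : ℂ) * I)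

lemma norm_en (y : ℝ) (n : ℕ) (x : ℝ) : ‖en y n x‖ = 1 := by
  unfold en
  rw [← Complex.ofReal_neg, Complex.norm_exp_ofReal_mul_I]

lemma cont_en (y : ℝ) (n : ℕ) : Continuous (en y n) := by
  unfold en
  fun_prop

/-- coefficients -/
noncomputable def cn (y r : ℝ) (n : ℕ) : ℂ := mu n * ((Real.exp (-(2 * Real.pi * y * n * r)) : ℝ) : ℂ)

lemma term_eq (y r x : ℝ) (n : ℕ) :
    mu n * cexp (-(((2 * Real.pi * y * n : ℝ) : ℂ) * ⟨r, x⟩)) = cn y r n * en y n x := by
  unfold cn en
  rw [mul_assoc (mu n), Complex.ofReal_exp, ← Complex.exp_add, mk_line]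
  congr 2
  push_cast
  ring

lemma FF_mk_hasSum {y : ℝ} (hy : 0 < y) {r : ℝ} (hr : 0 < r) (x : ℝ) :
    HasSum (fun n : ℕ => cn y r n * en y n x) (FF y ⟨r, x⟩) := by
  have := FF_hasSum hy (z := ⟨r, x⟩) hr
  simp only [term_eq] at this
  exact this

lemma cn_summable {y : ℝ} (hy : 0 < y) {r : ℝ} (hr : 0 < r) : Summable fun n => ‖cn y r n‖ := by
  apply Summable.of_nonneg_of_le (fun n => norm_nonneg _) _
    (summable_geometric_of_lt_one (Real.exp_pos _).le (exp_lt_one' hy hr))
  intro n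
  unfold cn
  rw [norm_mul, Complex.norm_real, Real.norm_eq_abs, abs_of_pos (Real.exp_pos _), ← Real.exp_nat_mul]
  have := norm_mu n
  calc _ ≤ 1 * Real.exp (-(2 * Real.pi * y * n * r)) := by gcongr
    _ = _ := by rw [one_mul]; congr 1; ring

lemma en_orth {y : ℝ} (hy : 0 < y) (n m : ℕ) :
    ∫ x in (0 : ℝ)..(1 / y), en y n x * (starRingEnd ℂ) (en y m x) = if n = m then ((1 / y : ℝ) : ℂ) else 0 := by
  have e1 : ∀ x : ℝ, en y n x * (starRingEnd ℂ) (en y m x) =
      cexp ((-(2 * Real.pi * y * ((n : ℝ) - m) : ℝ) * I) * x) := by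
    intro x
    unfold en
    rw [← Complex.exp_conj, ← Complex.exp_add]
    congr 1
    simp only [map_mul, map_neg, Complex.conj_ofReal, Complex.conj_I]
    push_cast
    ring
  simp_rw [e1]
  split_ifs with h
  · subst h
    simp
  · have hne : ((n : ℝ) - m) ≠ 0 := by
      rw [sub_ne_zero]
      exact_mod_cast h
    have hc : (-(2 * Real.pi * y * ((n : ℝ) - m) : ℝ) * I : ℂ) ≠ 0 := by
      apply mul_ne_zero _ I_ne_zero
      rw [← Complex.ofReal_neg, Complex.ofReal_ne_zero, neg_ne_zero]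
      have := Real.pi_pos
      exact mul_ne_zero (by positivity) hne
    rw [integral_exp_mul_complex hc]
    have h1 : cexp ((-(2 * Real.pi * y * ((n : ℝ) - m) : ℝ) * I) * ((1 / y : ℝ) : ℂ)) = 1 := by
      have h2 : ((-(2 * Real.pi * y * ((n : ℝ) - m) : ℝ) * I) * ((1 / y : ℝ) : ℂ)) =
          ((((m : ℤ) - n : ℤ)) : ℂ) * (2 * Real.pi * I) := by
        push_cast
        have : (y : ℂ) ≠ 0 := by exact_mod_cast hy.ne'
        field_simp
        ring
      rw [h2, Complex.exp_int_mul_two_pi_mul_I]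
    rw [h1]
    simp

lemma parseval_fin {y : ℝ} (hy : 0 < y) (c : ℕ → ℂ) (S : Finset ℕ) :
    ∫ x in (0 : ℝ)..(1 / y), ‖∑ n ∈ S, c n * en y n x‖ ^ 2 = 1 / y * ∑ n ∈ S, ‖c n‖ ^ 2 := by
  have h1 : ((∫ x in (0 : ℝ)..(1 / y), ‖∑ n ∈ S, c n * en y n x‖ ^ 2 : ℝ) : ℂ) =
      ((1 / y * ∑ n ∈ S, ‖c n‖ ^ 2 : ℝ) : ℂ) := by
    rw [← intervalIntegral.integral_ofReal]
    have e1 : ∀ x : ℝ, ((‖∑ n ∈ S, c n * en y n x‖ ^ 2 : ℝ) : ℂ) =
        ∑ n ∈ S, ∑ m ∈ S, (c n * (starRingEnd ℂ) (c m)) * (en y n x * (starRingEnd ℂ) (en y m x)) := by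
      intro x
      rw [Complex.ofReal_pow, ← Complex.mul_conj', map_sum, Finset.sum_mul_sum]
      apply Finset.sum_congr rfl
      intro n _
      apply Finset.sum_congr rfl
      intro m _
      rw [map_mul]
      ring
    simp_rw [e1]
    rw [intervalIntegral.integral_finset_sum]
    swap
    · intro n _
      apply Continuous.intervalIntegrable
      have := cont_en y n
      have h2 : ∀ m, Continuous (en y m) := cont_en y
      refine continuous_finsetSum _ fun m _ => ?_
      have := h2 m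
      exact continuous_const.mul (((h2 n)).mul (Complex.continuous_conj.comp (h2 m)))
    have e2 : ∀ n ∈ S, ∫ x in (0 : ℝ)..(1 / y), ∑ m ∈ S, (c n * (starRingEnd ℂ) (c m)) *
        (en y n x * (starRingEnd ℂ) (en y m x)) = (c n * (starRingEnd ℂ) (c n)) * ((1 / y : ℝ) : ℂ) := by
      intro n hn
      rw [intervalIntegral.integral_finset_sum]
      swap
      · intro m _
        apply Continuous.intervalIntegrable
        exact continuous_const.mul ((cont_en y n).mul (Complex.continuous_conj.comp (cont_en y m)))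
      simp_rw [intervalIntegral.integral_const_mul, en_orth hy]
      rw [Finset.sum_eq_single n]
      · rw [if_pos rfl]
      · intro m _ hm
        rw [if_neg (Ne.symm hm), mul_zero]
      · intro h
        exact absurd hn h
    rw [Finset.sum_congr rfl e2]
    push_cast
    rw [Finset.mul_sum]
    apply Finset.sum_congr rfl
    intro n _
    rw [Complex.mul_conj']
    ring
  exact_mod_cast h1

lemma Gr_cont {y : ℝ} (hy : 0 < y) {r : ℝ} (hr : 0 < r) : Continuous fun x => Gr y x r := by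
  rw [continuous_iff_continuousAt]
  intro x
  unfold Gr
  have h1 := FF_contAt hy (z := ⟨r, x⟩) hr
  have h2 : Continuous (fun x : ℝ => (⟨r, x⟩ : ℂ)) := by
    have : (fun x : ℝ => (⟨r, x⟩ : ℂ)) = fun x : ℝ => ((r : ℝ) : ℂ) + (x : ℂ) * I := by
      funext t; rw [mk_line]
    rw [this]; fun_prop
  exact ((ContinuousAt.comp (f := fun x : ℝ => (⟨r, x⟩ : ℂ)) h1 h2.continuousAt).norm).pow 2

lemma Gr_nonneg (y x r : ℝ) : 0 ≤ Gr y x r := by unfold Gr; positivity

lemma Gr_per {y : ℝ} (hy : 0 < y) {r : ℝ} (hr : 0 < r) : Function.Periodic (fun x => Gr y x r) (1 / y) := by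
  intro x
  simp only
  unfold Gr
  rw [← (FF_mk_hasSum hy hr (x + 1 / y)).tsum_eq, ← (FF_mk_hasSum hy hr x).tsum_eq]
  congr 3
  funext n
  congr 1
  unfold en
  have h1 : (-((2 * Real.pi * y * n * (x + 1 / y) : ℝ) : ℂ) * I) =
      (-((2 * Real.pi * y * n * x : ℝ) : ℂ) * I) + ((-(n : ℤ) : ℤ) : ℂ) * (2 * Real.pi * I) := by
    push_cast
    have : (y : ℂ) ≠ 0 := by exact_mod_cast hy.ne'
    field_simp
    ring
  rw [h1, Complex.exp_add, Complex.exp_int_mul_two_pi_mul_I, mul_one]

lemma parseval_le {y : ℝ} (hy : 0 < y) {r : ℝ} (hr : 0 < r) {B : ℝ}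
    (hB : ∀ N : ℕ, ∑ n ∈ Finset.Icc 1 N, ‖cn y r n‖ ^ 2 ≤ B) :
    ∫ x in (0 : ℝ)..(1 / y), Gr y x r ≤ 1 / y * B := by
  have hb := cn_summable hy hr
  have hlim : Tendsto (fun N : ℕ => ∫ x in (0 : ℝ)..(1 / y), ‖∑ n ∈ Finset.Icc 1 N, cn y r n * en y n x‖ ^ 2)
      atTop (𝓝 (∫ x in (0 : ℝ)..(1 / y), Gr y x r)) := by
    apply intervalIntegral.tendsto_integral_filter_of_dominated_convergence
      (bound := fun _ => (∑' n : ℕ, ‖cn y r n‖) ^ 2)
    · refine Eventually.of_forall fun N => ?_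
      apply Continuous.aestronglyMeasurable
      apply Continuous.pow
      apply Continuous.norm
      exact continuous_finsetSum _ fun n _ => continuous_const.mul (cont_en y n)
    · refine Eventually.of_forall fun N => Eventually.of_forall fun t _ => ?_
      rw [Real.norm_of_nonneg (by positivity)]
      apply pow_le_pow_left₀ (norm_nonneg _)
      refine (norm_sum_le _ _).trans ?_
      have h1 : ∑ n ∈ Finset.Icc 1 N, ‖cn y r n * en y n t‖ = ∑ n ∈ Finset.Icc 1 N, ‖cn y r n‖ := by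
        refine Finset.sum_congr rfl fun n _ => ?_
        rw [norm_mul, norm_en, mul_one]
      rw [h1]
      exact hb.sum_le_tsum _ fun n _ => norm_nonneg _
    · exact intervalIntegrable_const
    · refine Eventually.of_forall fun t _ => ?_
      have h2 := (FF_mk_hasSum hy hr t).tendsto_sum_nat
      have h3 : Tendsto (fun N : ℕ => ∑ n ∈ Finset.Icc 1 N, cn y r n * en y n t) atTop
          (𝓝 (FF y ⟨r, t⟩)) := by
        have h4 := h2.comp (tendsto_add_atTop_nat 1)
        refine h4.congr fun N => ?_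
        simp only [Function.comp]
        have h0 : cn y r 0 = 0 := by simp [cn, mu_zero]
        rw [Finset.sum_range_eq_add_Ico _ (by omega), h0, zero_mul, zero_add]
        congr 1
      exact (h3.norm).pow 2
  refine le_of_tendsto hlim (Eventually.of_forall fun N => ?_)
  rw [parseval_fin hy]
  exact mul_le_mul_of_nonneg_left (hB N) (by positivity)

/-- geometric sums over residue classes -/
lemma class_sum {m : ℕ} (hm : 1 ≤ m) (CC : Finset ℕ) {q : ℝ} (hq0 : 0 ≤ q) (hq1 : q < 1) (N : ℕ) :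
    ∑ n ∈ (Finset.Icc 1 N).filter (fun n => n % m ∈ CC), q ^ n ≤ (CC.card : ℝ) * (1 / (1 - q ^ m)) := by
  classical
  have hqm : q ^ m < 1 := pow_lt_one₀ hq0 hq1 (by omega)
  have h1 : ∑ n ∈ (Finset.Icc 1 N).filter (fun n => n % m ∈ CC), q ^ n =
      ∑ c ∈ CC, ∑ n ∈ ((Finset.Icc 1 N).filter (fun n => n % m ∈ CC)).filter (fun n => n % m = c), q ^ n := by
    rw [Finset.sum_fiberwise_of_maps_to]
    intro n hn
    exact (Finset.mem_filter.1 hn).2
  rw [h1, Finset.card_eq_sum_ones, Nat.cast_sum, Finset.sum_mul]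
  apply Finset.sum_le_sum
  intro c _
  rw [Nat.cast_one, one_mul]
  have h2 : ∑ n ∈ ((Finset.Icc 1 N).filter (fun n => n % m ∈ CC)).filter (fun n => n % m = c), q ^ n ≤
      ∑ n ∈ ((Finset.Icc 1 N).filter (fun n => n % m ∈ CC)).filter (fun n => n % m = c), (q ^ m) ^ (n / m) := by
    apply Finset.sum_le_sum
    intro n _
    rw [← pow_mul]
    exact pow_le_pow_of_le_one hq0 hq1.le (Nat.mul_div_le n m)
  refine h2.trans ?_
  have h3 : ∑ n ∈ ((Finset.Icc 1 N).filter (fun n => n % m ∈ CC)).filter (fun n => n % m = c), (q ^ m) ^ (n / m)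
      = ∑ k ∈ (((Finset.Icc 1 N).filter (fun n => n % m ∈ CC)).filter (fun n => n % m = c)).image (fun n => n / m),
        (q ^ m) ^ k := by
    rw [Finset.sum_image]
    intro a ha b hb hab
    have ha' := (Finset.mem_filter.1 ha).2
    have hb' := (Finset.mem_filter.1 hb).2
    simp only at hab
    rw [← Nat.div_add_mod a m, ← Nat.div_add_mod b m, hab, ha', hb']
  rw [h3, one_div, ← tsum_geometric_of_lt_one (by positivity) hqm]
  exact (summable_geometric_of_lt_one (by positivity) hqm).sum_le_tsum _ fun k _ => by positivity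

/-- mean square over a period -/
theorem per_bound {y : ℝ} (hy : 0 < y) {m : ℕ} (hm : 1 ≤ m) {CC : Finset ℕ}
    (hCC : ∀ n : ℕ, 1 ≤ n → Squarefree n → n % m ∈ CC) {r : ℝ} (hr : 0 < r) :
    ∫ x in (0 : ℝ)..(1 / y), Gr y x r ≤ 1 / y * ((CC.card : ℝ) * (1 + 1 / (4 * Real.pi * m * y * r))) := by
  have hpi := Real.pi_pos
  have hm0 : (0 : ℝ) < m := by exact_mod_cast hm
  apply parseval_le hy hr
  intro N
  set q : ℝ := Real.exp (-(4 * Real.pi * y * r)) with hq
  have hq0 : 0 ≤ q := (Real.exp_pos _).le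
  have hq1 : q < 1 := by
    rw [hq, Real.exp_lt_one_iff]
    have : 0 < 4 * Real.pi * y * r := by positivity
    linarith
  have h1 : ∑ n ∈ Finset.Icc 1 N, ‖cn y r n‖ ^ 2 ≤
      ∑ n ∈ (Finset.Icc 1 N).filter (fun n => n % m ∈ CC), q ^ n := by
    rw [Finset.sum_filter]
    apply Finset.sum_le_sum
    intro n hn
    rw [Finset.mem_Icc] at hn
    have h2 : ‖cn y r n‖ ^ 2 = ‖mu n‖ ^ 2 * q ^ n := by
      unfold cn
      rw [norm_mul, Complex.norm_real, Real.norm_eq_abs, abs_of_pos (Real.exp_pos _), mul_pow, hq,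
        ← Real.exp_nat_mul, ← Real.exp_nat_mul]
      congr 2
      push_cast
      ring
    rw [h2]
    by_cases hs : Squarefree n
    · rw [if_pos (hCC n hn.1 hs)]
      have h3 := norm_mu n
      have h4 : ‖mu n‖ ^ 2 ≤ 1 := pow_le_one₀ (norm_nonneg _) h3
      have h5 : 0 ≤ q ^ n := by positivity
      nlinarith
    · have h3 : mu n = 0 := by
        unfold mu
        rw [ArithmeticFunction.moebius_eq_zero_of_not_squarefree hs]
        simp
      rw [h3, norm_zero]
      split_ifs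
      · have : 0 ≤ q ^ n := by positivity
        simpa using this
      · simp
  refine h1.trans ((class_sum hm CC hq0 hq1 N).trans ?_)
  gcongr
  have hX : 0 < 4 * Real.pi * m * y * r := by positivity
  have h2 : q ^ m = Real.exp (-(4 * Real.pi * m * y * r)) := by
    rw [hq, ← Real.exp_nat_mul]
    congr 1
    ring
  rw [h2]
  set X := 4 * Real.pi * m * y * r with hXd
  have h3 : Real.exp (-X) ≤ 1 / (1 + X) := exp_neg_le_inv hX.le
  have h4 : 1 / (1 + X) = 1 - X / (1 + X) := by field_simp; ring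
  have h5 : X / (1 + X) ≤ 1 - Real.exp (-X) := by linarith
  calc 1 / (1 - Real.exp (-X)) ≤ 1 / (X / (1 + X)) := by
        apply one_div_le_one_div_of_le (by positivity) h5
    _ = 1 + 1 / X := by field_simp; ring

end Pool.Agent.N806.AH
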