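import Pool.Agent.N806.AH.Per

/-! Integrals of the exponential series over intervals. -/

set_option autoImplicit false

open Complex Filter Topology Set MeasureTheory Metric

namespace Pool.Agent.N806.AH

/-- mean square over a period -/
noncomputable def Pp (y r : ℝ) : ℝ := ∫ x in (0 : ℝ)..(1 / y), Gr y x r

lemma Pp_nonneg {y : ℝ} (hy : 0 < y) (r : ℝ) : 0 ≤ Pp y r :=
  intervalIntegral.integral_nonneg (by positivity) fun x _ => Gr_nonneg y x r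

lemma Gr_int {y : ℝ} (hy : 0 < y) {r : ℝ} (hr : 0 < r) (a b : ℝ) :
    IntervalIntegrable (fun x => Gr y x r) volume a b := (Gr_cont hy hr).intervalIntegrable _ _

/-- integrals over intervals -/
lemma per_interval {y : ℝ} (hy : 0 < y) {r : ℝ} (hr : 0 < r) (a : ℝ) {w : ℝ} (hw : 0 ≤ w) :
    ∫ x in a..(a + w), Gr y x r ≤ (w * y + 1) * Pp y r := by
  set k : ℕ := ⌈w * y⌉₊ with hk
  have hk1 : w * y ≤ k := Nat.le_ceil _
  have hk2 : (k : ℝ) ≤ w * y + 1 := (Nat.ceil_lt_add_one (by positivity)).le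
  have hper := Gr_per hy hr
  have h1 := hper.intervalIntegral_add_zsmul_eq (k : ℤ) a (Gr_int hy hr)
  have h2 : ∫ x in a..(a + w), Gr y x r ≤ ∫ x in a..(a + (k : ℤ) • (1 / y)), Gr y x r := by
    apply intervalIntegral.integral_mono_interval le_rfl (by linarith)
    · have : w ≤ (k : ℝ) * (1 / y) := by
        rw [mul_one_div, le_div_iff₀ hy]
        exact hk1
      simp only [zsmul_eq_mul, Int.cast_natCast]
      linarith
    · exact Eventually.of_forall fun x => Gr_nonneg y x r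
    · exact Gr_int hy hr _ _
  have h3 : ∫ x in a..(a + 1 / y), Gr y x r = Pp y r := by
    have := hper.intervalIntegral_add_eq a 0
    rw [zero_add] at this
    exact this
  rw [h3] at h1
  rw [h1] at h2
  refine h2.trans ?_
  rw [zsmul_eq_mul, Int.cast_natCast]
  exact mul_le_mul_of_nonneg_right hk2 (Pp_nonneg hy r)

/-- disjoint intervals modulo the period -/
lemma per_disjoint {y : ℝ} (hy : 0 < y) {r : ℝ} (hr : 0 < r) (LL : Finset ℕ) {σ w : ℝ} (hσ : 0 < σ)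
    (hσy : σ ≤ 1 / y) (hw : 0 < w) (hwσ : w ≤ σ / 3)
    (hsep : ∀ ℓ ∈ LL, ∀ ℓ' ∈ LL, ℓ ≠ ℓ' → ∀ k : ℤ, σ ≤ |(ℓ : ℝ) - ℓ' - k * (1 / y)|) :
    ∑ ℓ ∈ LL, ∫ v in (-w)..w, Gr y (ℓ + v) r ≤ Pp y r := by
  classical
  rcases LL.eq_empty_or_nonempty with h0 | ⟨ℓ0, hℓ0⟩
  · rw [h0, Finset.sum_empty]
    exact Pp_nonneg hy r
  have hp : 0 < 1 / y := by positivity
  set a : ℝ := (ℓ0 : ℝ) - σ / 2 with ha
  set ξ : ℕ → ℝ := fun ℓ => toIocMod hp a ℓ with hξ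
  have hξk : ∀ ℓ : ℕ, ∃ k : ℤ, ξ ℓ = (ℓ : ℝ) - k * (1 / y) := by
    intro ℓ
    refine ⟨toIocDiv hp a ℓ, ?_⟩
    have := self_sub_toIocDiv_zsmul hp a (ℓ : ℝ)
    rw [zsmul_eq_mul] at this
    exact this.symm
  have hξm : ∀ ℓ : ℕ, a < ξ ℓ ∧ ξ ℓ ≤ a + 1 / y := by
    intro ℓ
    exact toIocMod_mem_Ioc hp a (ℓ : ℝ)
  have hξ0 : ξ ℓ0 = ℓ0 := by
    simp only [hξ]
    rw [toIocMod_eq_self hp]
    constructor <;> rw [ha] <;> linarith
  have hξsep : ∀ ℓ ∈ LL, ∀ ℓ' ∈ LL, ℓ ≠ ℓ' → σ ≤ |ξ ℓ - ξ ℓ'| := by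
    intro ℓ hℓ ℓ' hℓ' hne
    obtain ⟨k, hk⟩ := hξk ℓ
    obtain ⟨k', hk'⟩ := hξk ℓ'
    have := hsep ℓ hℓ ℓ' hℓ' hne (k - k')
    rw [hk, hk']
    refine this.trans (le_of_eq ?_)
    congr 1
    push_cast
    ring
  have hξin : ∀ ℓ ∈ LL, a ≤ ξ ℓ - w ∧ ξ ℓ + w ≤ a + 1 / y := by
    intro ℓ hℓ
    by_cases he : ℓ = ℓ0
    · rw [he, hξ0]
      constructor <;> rw [ha] <;> linarith
    · have h1 := hξsep ℓ hℓ ℓ0 hℓ0 he
      rw [hξ0] at h1
      obtain ⟨h2, h3⟩ := hξm ℓ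
      obtain ⟨k, hk⟩ := hξk ℓ
      have h4 := hsep ℓ hℓ ℓ0 hℓ0 he (k + 1)
      have h5 : (ℓ : ℝ) - ℓ0 - ((k + 1 : ℤ) : ℝ) * (1 / y) = ξ ℓ - ℓ0 - 1 / y := by
        rw [hk]
        push_cast
        ring
      rw [h5] at h4
      constructor
      · rcases abs_cases (ξ ℓ - ℓ0) with ⟨h6, _⟩ | ⟨h6, _⟩ <;> rw [h6] at h1 <;> linarith
      · rcases abs_cases (ξ ℓ - ℓ0 - 1 / y) with ⟨h6, _⟩ | ⟨h6, _⟩ <;> rw [h6] at h4 <;> linarith
  have hinj : Set.InjOn ξ (LL : Set ℕ) := by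
    intro ℓ hℓ ℓ' hℓ' he
    by_contra hne
    have := hξsep ℓ hℓ ℓ' hℓ' hne
    rw [he, sub_self, abs_zero] at this
    linarith
  have h1 : ∑ ℓ ∈ LL, ∫ v in (-w)..w, Gr y (ℓ + v) r = ∑ x ∈ LL.image ξ, ∫ v in (-w)..w, Gr y (x + v) r := by
    rw [Finset.sum_image hinj]
    apply Finset.sum_congr rfl
    intro ℓ _
    congr 1
    funext v
    obtain ⟨k, hk⟩ := hξk ℓ
    have h2 := (Gr_per hy hr).zsmul k (ξ ℓ + v)
    simp only [zsmul_eq_mul] at h2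
    rw [← h2]
    congr 1
    rw [hk]
    ring
  rw [h1]
  have h2 := sum_int_le (F := LL.image ξ) (g := fun x => Gr y x r) (Gr_cont hy hr) (fun x => Gr_nonneg y x r)
    (d := 2 * w) (A := a) (B := a + 1 / y) (by linarith) (by linarith) (by
      intro x hx x' hx' hne
      rw [Finset.mem_image] at hx hx'
      obtain ⟨ℓ, hℓ, rfl⟩ := hx
      obtain ⟨ℓ', hℓ', rfl⟩ := hx'
      have := hξsep ℓ hℓ ℓ' hℓ' (fun h => hne (by rw [h]))
      linarith) (by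
      intro x hx
      rw [Finset.mem_image] at hx
      obtain ⟨ℓ, hℓ, rfl⟩ := hx
      have := hξin ℓ hℓ
      constructor <;> linarith [this.1, this.2])
  have h3 : ∫ x in a..(a + 1 / y), Gr y x r = Pp y r := by
    have := (Gr_per hy hr).intervalIntegral_add_eq a 0
    rw [zero_add] at this
    exact this
  rw [h3] at h2
  rw [show 2 * w / 2 = w by ring] at h2
  exact h2

/-- passing to multiplicative variables -/
lemma mul_var {y : ℝ} (hy : 0 < y) {r : ℝ} (hr : 0 < r) {ℓ : ℕ} {u1 u2 : ℝ} (hu : u1 ≤ u2) :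
    ∫ u in u1..u2, (ℓ : ℝ) * Gr y (ℓ * Real.exp (-u)) r ≤
      Real.exp u2 * ∫ x in (ℓ * Real.exp (-u2))..(ℓ * Real.exp (-u1)), Gr y x r := by
  have hc : Continuous fun u : ℝ => Gr y (ℓ * Real.exp (-u)) r :=
    (Gr_cont hy hr).comp (by fun_prop)
  have h1 : ∫ u in u1..u2, ((fun x => Gr y x r) ∘ fun u => ℓ * Real.exp (-u)) u * (-(ℓ * Real.exp (-u))) =
      ∫ x in (ℓ * Real.exp (-u1))..(ℓ * Real.exp (-u2)), Gr y x r := by
    apply intervalIntegral.integral_comp_mul_deriv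
    · intro u _
      have h2 : HasDerivAt (fun u : ℝ => (ℓ : ℝ) * Real.exp (-u)) (ℓ * (Real.exp (-u) * (-1))) u :=
        ((hasDerivAt_neg u).exp).const_mul _
      refine h2.congr_deriv ?_
      ring
    · fun_prop
    · exact Gr_cont hy hr
  have h2 : ∫ u in u1..u2, Gr y (ℓ * Real.exp (-u)) r * (ℓ * Real.exp (-u)) =
      ∫ x in (ℓ * Real.exp (-u2))..(ℓ * Real.exp (-u1)), Gr y x r := by
    rw [intervalIntegral.integral_symm (ℓ * Real.exp (-u1)), ← h1, ← intervalIntegral.integral_neg]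
    congr 1
    funext u
    simp only [Function.comp]
    ring
  rw [← h2, ← intervalIntegral.integral_const_mul]
  apply intervalIntegral.integral_mono_on hu
  · exact (continuous_const.mul hc).intervalIntegrable _ _
  · apply Continuous.intervalIntegrable
    fun_prop
  · intro u hu'
    have h3 : (1 : ℝ) ≤ Real.exp u2 * Real.exp (-u) := by
      rw [← Real.exp_add]
      exact Real.one_le_exp (by linarith [hu'.2])
    have h4 := Gr_nonneg y (ℓ * Real.exp (-u)) r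
    calc (ℓ : ℝ) * Gr y (ℓ * Real.exp (-u)) r = (ℓ : ℝ) * Gr y (ℓ * Real.exp (-u)) r * 1 := by ring
      _ ≤ (ℓ : ℝ) * Gr y (ℓ * Real.exp (-u)) r * (Real.exp u2 * Real.exp (-u)) := by gcongr
      _ = _ := by ring

/-- the near part for fixed `r` -/
lemma near_fixed {y : ℝ} (hy : 0 < y) {r : ℝ} (hr : 0 < r) (LL : Finset ℕ) {σ τ w : ℝ} (hσ : 0 < σ)
    (hσy : σ ≤ 1 / y) (hw : 0 < w) (hwσ : w ≤ σ / 3) (hτ : 0 ≤ τ)
    (hτw : ∀ ℓ ∈ LL, (ℓ : ℝ) * (Real.exp τ - 1) ≤ w)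
    (hsep : ∀ ℓ ∈ LL, ∀ ℓ' ∈ LL, ℓ ≠ ℓ' → ∀ k : ℤ, σ ≤ |(ℓ : ℝ) - ℓ' - k * (1 / y)|) :
    ∑ ℓ ∈ LL, ∫ u in (-τ)..τ, (ℓ : ℝ) * Gr y (ℓ * Real.exp (-u)) r ≤ Real.exp τ * Pp y r := by
  have h1 : ∀ ℓ ∈ LL, ∫ u in (-τ)..τ, (ℓ : ℝ) * Gr y (ℓ * Real.exp (-u)) r ≤
      Real.exp τ * ∫ v in (-w)..w, Gr y (ℓ + v) r := by
    intro ℓ hℓ
    refine (mul_var hy hr (ℓ := ℓ) (by linarith)).trans ?_
    apply mul_le_mul_of_nonneg_left _ (Real.exp_pos _).le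
    have h2 : ∫ v in (-w)..w, Gr y (ℓ + v) r = ∫ x in (ℓ + -w)..(ℓ + w), Gr y x r :=
      intervalIntegral.integral_comp_add_left (fun x => Gr y x r) (ℓ : ℝ)
    rw [h2]
    have h3 := hτw ℓ hℓ
    have h4 : (0 : ℝ) ≤ ℓ := Nat.cast_nonneg ℓ
    have h5 : (ℓ : ℝ) * (1 - Real.exp (-τ)) ≤ (ℓ : ℝ) * (Real.exp τ - 1) := by
      apply mul_le_mul_of_nonneg_left _ h4
      have h6 := Real.add_one_le_exp τ
      have h7 := Real.add_one_le_exp (-τ)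
      linarith
    apply intervalIntegral.integral_mono_interval
    · linarith
    · rw [neg_neg]
      apply mul_le_mul_of_nonneg_left _ h4
      apply Real.exp_le_exp.2
      linarith
    · rw [neg_neg]
      linarith
    · exact Eventually.of_forall fun x => Gr_nonneg y x r
    · exact Gr_int hy hr _ _
  refine (Finset.sum_le_sum h1).trans ?_
  rw [← Finset.mul_sum]
  apply mul_le_mul_of_nonneg_left _ (Real.exp_pos _).le
  exact per_disjoint hy hr LL hσ hσy hw hwσ hsep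

/-- the far part for fixed `r` -/
lemma far_fixed {y : ℝ} (hy : 0 < y) {r : ℝ} (hr : 0 < r) {ℓ : ℕ} {δ1 : ℝ} (hδ1 : 0 < δ1) :
    ∫ u in (Real.log (δ1 / r))..(Real.log (2 * δ1 / r)), Real.exp (-(8 * |u|)) *
      ((ℓ : ℝ) * Gr y (ℓ * Real.exp (-u)) r) ≤
      (1024 / y * (ℓ * y + 1) * (1 + 1 / (4 * Real.pi * y * δ1))) * (1 + (δ1⁻¹ * r) ^ 2)⁻¹ := by
  have hpi := Real.pi_pos
  have hℓ0 : (0 : ℝ) ≤ ℓ := Nat.cast_nonneg ℓ
  set a := Real.log (δ1 / r) with ha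
  set b := Real.log (2 * δ1 / r) with hb
  have hab : a ≤ b := Real.log_le_log (by positivity) (by gcongr; linarith)
  set ρ := r / δ1 with hρ
  have hρ0 : 0 < ρ := by positivity
  have hea : Real.exp (-a) = ρ := by
    rw [ha, Real.exp_neg, Real.exp_log (by positivity), hρ, inv_div]
  have heb : Real.exp b = 2 / ρ := by
    rw [hb, Real.exp_log (by positivity), hρ]
    field_simp
  have heb' : Real.exp (-b) = ρ / 2 := by
    rw [Real.exp_neg, heb, inv_div]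
  have hcont : Continuous fun u : ℝ => (ℓ : ℝ) * Gr y (ℓ * Real.exp (-u)) r :=
    continuous_const.mul ((Gr_cont hy hr).comp (by fun_prop))
  -- sup of the weight
  set κ : ℝ := min (ρ ^ 8) ((2 / ρ) ^ 8) with hκ
  have hκ0 : 0 < κ := lt_min (by positivity) (by positivity)
  have hw : ∀ u ∈ Icc a b, Real.exp (-(8 * |u|)) ≤ κ := by
    intro u hu
    apply le_min
    · have h1 : Real.exp (-(8 * |u|)) ≤ Real.exp (-(8 * u)) :=
        Real.exp_le_exp.2 (by linarith [le_abs_self u])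
      refine h1.trans ?_
      rw [← hea, ← Real.exp_nat_mul]
      apply Real.exp_le_exp.2
      push_cast
      linarith [hu.1]
    · have h1 : Real.exp (-(8 * |u|)) ≤ Real.exp (8 * u) :=
        Real.exp_le_exp.2 (by linarith [neg_abs_le u])
      refine h1.trans ?_
      rw [← heb, ← Real.exp_nat_mul]
      apply Real.exp_le_exp.2
      push_cast
      linarith [hu.2]
  have h1 : ∫ u in a..b, Real.exp (-(8 * |u|)) * ((ℓ : ℝ) * Gr y (ℓ * Real.exp (-u)) r) ≤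
      κ * ∫ u in a..b, (ℓ : ℝ) * Gr y (ℓ * Real.exp (-u)) r := by
    rw [← intervalIntegral.integral_const_mul]
    apply intervalIntegral.integral_mono_on hab
    · apply Continuous.intervalIntegrable
      fun_prop
    · exact (continuous_const.mul hcont).intervalIntegrable _ _
    · intro u hu
      apply mul_le_mul_of_nonneg_right (hw u hu)
      exact mul_nonneg hℓ0 (Gr_nonneg _ _ _)
  have h2 := mul_var hy hr (ℓ := ℓ) hab
  have h3 : ∫ x in (ℓ * Real.exp (-b))..(ℓ * Real.exp (-a)), Gr y x r ≤ (ℓ * ρ * y + 1) * Pp y r := by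
    have h4 := per_interval hy hr (ℓ * Real.exp (-b)) (w := ℓ * Real.exp (-a) - ℓ * Real.exp (-b)) (by
      rw [hea, heb']
      nlinarith [mul_nonneg hℓ0 hρ0.le])
    rw [add_sub_cancel] at h4
    refine h4.trans ?_
    apply mul_le_mul_of_nonneg_right _ (Pp_nonneg hy r)
    rw [hea, heb']
    have : 0 ≤ (ℓ : ℝ) * (ρ / 2) * y := by positivity
    nlinarith
  have hP : Pp y r ≤ 1 / y * (1 + 1 / (4 * Real.pi * y * r)) := by
    have h5 := per_bound hy (m := 1) le_rfl (CC := {0}) (by intro n _ _; simp [Nat.mod_one]) hr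
    simp only [Finset.card_singleton, Nat.cast_one, one_mul, mul_one] at h5
    exact h5
  have hP0 := Pp_nonneg hy r
  have h4 : κ * (Real.exp b * ((ℓ * ρ * y + 1) * Pp y r)) ≤
      κ * ((2 / ρ) * ((ℓ * ρ * y + 1) * (1 / y * (1 + 1 / (4 * Real.pi * y * r))))) := by
    rw [heb]
    gcongr
  have h5 : κ * ((2 / ρ) * ((ℓ * ρ * y + 1) * (1 / y * (1 + 1 / (4 * Real.pi * y * r))))) ≤
      (1024 / y * (ℓ * y + 1) * (1 + 1 / (4 * Real.pi * y * δ1))) * (1 + (δ1⁻¹ * r) ^ 2)⁻¹ := by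
    have hρr : δ1⁻¹ * r = ρ := by rw [hρ]; field_simp
    rw [hρr]
    have hrr : r = ρ * δ1 := by rw [hρ]; field_simp
    -- reduce to κ * (2/ρ) * (ℓρy+1) * (1 + 1/(4πyρδ1)) * (1+ρ²) ≤ 1024 (ℓy+1)(1+1/(4πyδ1))
    have hX : 0 < 1 / (4 * Real.pi * y * δ1) := by positivity
    set X := 1 / (4 * Real.pi * y * δ1) with hXd
    have hXr : 1 / (4 * Real.pi * y * r) = X / ρ := by
      rw [hXd, hrr]
      field_simp
    rw [hXr]
    have key : κ * (2 / ρ) * (ℓ * ρ * y + 1) * (1 + X / ρ) * (1 + ρ ^ 2) ≤ 1024 * (ℓ * y + 1) * (1 + X) := by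
      rcases le_total ρ 1 with h | h
      · have hk : κ ≤ ρ ^ 8 := min_le_left _ _
        have e1 : ρ ^ 8 * (2 / ρ) * (ℓ * ρ * y + 1) * (1 + X / ρ) * (1 + ρ ^ 2) =
            2 * ρ ^ 6 * (ℓ * ρ * y + 1) * (ρ + X) * (1 + ρ ^ 2) := by
          field_simp
        have h6 : ρ ^ 6 ≤ 1 := pow_le_one₀ hρ0.le h
        have h7 : ρ ^ 2 ≤ 1 := pow_le_one₀ hρ0.le h
        calc κ * (2 / ρ) * (ℓ * ρ * y + 1) * (1 + X / ρ) * (1 + ρ ^ 2)
            ≤ ρ ^ 8 * (2 / ρ) * (ℓ * ρ * y + 1) * (1 + X / ρ) * (1 + ρ ^ 2) := by gcongr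
          _ = 2 * ρ ^ 6 * (ℓ * ρ * y + 1) * (ρ + X) * (1 + ρ ^ 2) := e1
          _ ≤ 2 * 1 * (ℓ * 1 * y + 1) * (1 + X) * (1 + 1) := by gcongr
          _ ≤ 1024 * (ℓ * y + 1) * (1 + X) := by
              have : 0 ≤ (ℓ * y + 1) * (1 + X) := by positivity
              nlinarith
      · have hk : κ ≤ (2 / ρ) ^ 8 := min_le_right _ _
        have e1 : (2 / ρ) ^ 8 * (2 / ρ) * (ℓ * ρ * y + 1) * (1 + X / ρ) * (1 + ρ ^ 2) =
            512 * (ρ⁻¹ ^ 5) * (ℓ * y + ρ⁻¹) * (1 + X * ρ⁻¹) * (ρ⁻¹ ^ 3 + ρ⁻¹) := by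
          field_simp
          ring
        have h6 : ρ⁻¹ ≤ 1 := inv_le_one_of_one_le₀ h
        have h60 : 0 < ρ⁻¹ := by positivity
        have h7 : ρ⁻¹ ^ 5 ≤ 1 := pow_le_one₀ h60.le h6
        have h8 : ρ⁻¹ ^ 3 ≤ 1 := pow_le_one₀ h60.le h6
        calc κ * (2 / ρ) * (ℓ * ρ * y + 1) * (1 + X / ρ) * (1 + ρ ^ 2)
            ≤ (2 / ρ) ^ 8 * (2 / ρ) * (ℓ * ρ * y + 1) * (1 + X / ρ) * (1 + ρ ^ 2) := by gcongr
          _ = 512 * (ρ⁻¹ ^ 5) * (ℓ * y + ρ⁻¹) * (1 + X * ρ⁻¹) * (ρ⁻¹ ^ 3 + ρ⁻¹) := e1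
          _ ≤ 512 * 1 * (ℓ * y + 1) * (1 + X * 1) * (1 + 1) := by gcongr
          _ = 1024 * (ℓ * y + 1) * (1 + X) := by ring
    have h1ρ : 0 < 1 + ρ ^ 2 := by positivity
    rw [← div_eq_mul_inv, le_div_iff₀ h1ρ]
    calc κ * ((2 / ρ) * ((ℓ * ρ * y + 1) * (1 / y * (1 + X / ρ)))) * (1 + ρ ^ 2)
        = 1 / y * (κ * (2 / ρ) * (ℓ * ρ * y + 1) * (1 + X / ρ) * (1 + ρ ^ 2)) := by ring
      _ ≤ 1 / y * (1024 * (ℓ * y + 1) * (1 + X)) := by gcongr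
      _ = _ := by ring
  calc _ ≤ κ * ∫ u in a..b, (ℓ : ℝ) * Gr y (ℓ * Real.exp (-u)) r := h1
    _ ≤ κ * (Real.exp b * ∫ x in (ℓ * Real.exp (-b))..(ℓ * Real.exp (-a)), Gr y x r) := by gcongr
    _ ≤ κ * (Real.exp b * ((ℓ * ρ * y + 1) * Pp y r)) := by gcongr
    _ ≤ _ := h4.trans h5

end Pool.Agent.N806.AH
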