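import Pool.Agent.N806.AH.FFn

/-! Plancherel identity for the resonance integral. -/

set_option autoImplicit false

open Complex Filter Topology Set MeasureTheory Metric FourierTransform

namespace Pool.Agent.N806.AH

/-- the function on the other side of Plancherel -/
noncomputable def hh (y b : ℝ) (ℓ : ℕ) (H u : ℝ) : ℂ :=
  fl y b ℓ (Real.exp (-u)) * ((Real.exp (-(u / 2) - H ^ 2 * u ^ 2 / 4) : ℝ) : ℂ)

/-- auxiliary function -/
noncomputable def gg (y b : ℝ) (ℓ : ℕ) (u : ℝ) : ℂ :=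
  Real.exp (-2 * u) • fl y b ℓ (Real.exp (-u))

lemma fl_cont {y : ℝ} (hy : 0 < y) {b : ℝ} (hb : 0 < b) {ℓ : ℕ} (hℓ : 1 ≤ ℓ) :
    Continuous (fun u : ℝ => fl y b ℓ (Real.exp (-u))) := by
  rw [continuous_iff_continuousAt]
  intro u
  unfold fl
  have h1 := FF_contAt hy (fl_pos hb hℓ (Real.exp_pos (-u)))
  have h2 : Continuous (fun u : ℝ => ((b : ℂ) + I) * ((ℓ * Real.exp (-u) : ℝ) : ℂ)) := by fun_prop
  exact ContinuousAt.comp (f := fun u : ℝ => ((b : ℂ) + I) * ((ℓ * Real.exp (-u) : ℝ) : ℂ)) h1 h2.continuousAt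

lemma fl_b1 {y : ℝ} (hy : 0 < y) {b : ℝ} (hb : 0 < b) {ℓ : ℕ} (hℓ : 1 ≤ ℓ) (u : ℝ) :
    ‖fl y b ℓ (Real.exp (-u))‖ ≤ 1 / (2 * Real.pi * y * b * ℓ) * Real.exp u := by
  have h := FF_le_inv hy (fl_pos hb hℓ (Real.exp_pos (-u)))
  rw [fl_re] at h
  refine h.trans (le_of_eq ?_)
  have hℓ0 : (0 : ℝ) < ℓ := by exact_mod_cast hℓ
  have := Real.pi_pos
  rw [Real.exp_neg]
  field_simp

lemma fl_b3 {y : ℝ} (hy : 0 < y) {b : ℝ} (hb : 0 < b) {ℓ : ℕ} (hℓ : 1 ≤ ℓ) (u : ℝ) :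
    ‖fl y b ℓ (Real.exp (-u))‖ ≤ 6 / (2 * Real.pi * y * b * ℓ) ^ 3 * Real.exp (3 * u) := by
  have h := FF_le_inv3 hy (fl_pos hb hℓ (Real.exp_pos (-u)))
  rw [fl_re] at h
  refine h.trans (le_of_eq ?_)
  have hℓ0 : (0 : ℝ) < ℓ := by exact_mod_cast hℓ
  have := Real.pi_pos
  rw [show (3 : ℝ) * u = ((3 : ℕ) : ℝ) * u by norm_num, Real.exp_nat_mul, Real.exp_neg]
  field_simp

lemma exp_abs_int : Integrable (fun u : ℝ => Real.exp (-|u|)) := by
  have hpos : IntegrableOn (fun y : ℝ => Real.exp (-|y|)) (Ioi 0) := by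
    refine (exp_neg_integrableOn_Ioi 0 one_pos).congr_fun ?_ measurableSet_Ioi
    intro y hy
    simp only
    rw [abs_of_pos hy]
    congr 1
    ring
  have hneg : IntegrableOn (fun y : ℝ => Real.exp (-|y|)) (Iic 0) := by
    have := hpos.comp_neg
    rw [Set.neg_Ioi, neg_zero] at this
    have h2 : IntegrableOn (fun y : ℝ => Real.exp (-|y|)) (Iio 0) := by
      refine this.congr_fun ?_ measurableSet_Iio
      intro y _
      simp
    exact (integrableOn_Iic_iff_integrableOn_Iio (by simp)).2 h2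
  rw [← integrableOn_univ, ← Iic_union_Ioi (a := (0 : ℝ))]
  exact hneg.union hpos

lemma gg_int {y : ℝ} (hy : 0 < y) {b : ℝ} (hb : 0 < b) {ℓ : ℕ} (hℓ : 1 ≤ ℓ) : Integrable (gg y b ℓ) := by
  have hℓ0 : (0 : ℝ) < ℓ := by exact_mod_cast hℓ
  have hpi := Real.pi_pos
  set A := 1 / (2 * Real.pi * y * b * ℓ) with hA
  set B := 6 / (2 * Real.pi * y * b * ℓ) ^ 3 with hB
  have hA0 : 0 < A := by positivity
  have hB0 : 0 < B := by positivity
  have hc : Continuous (gg y b ℓ) := by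
    unfold gg
    have := fl_cont hy hb hℓ
    fun_prop
  refine (exp_abs_int.const_mul (A + B)).mono' hc.aestronglyMeasurable (Eventually.of_forall fun u => ?_)
  unfold gg
  rw [norm_smul, Real.norm_eq_abs, abs_of_pos (Real.exp_pos _)]
  rcases le_total 0 u with hu | hu
  · rw [abs_of_nonneg hu]
    calc Real.exp (-2 * u) * ‖fl y b ℓ (Real.exp (-u))‖ ≤ Real.exp (-2 * u) * (A * Real.exp u) := by
          gcongr; exact fl_b1 hy hb hℓ u
      _ = A * (Real.exp (-2 * u) * Real.exp u) := by ring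
      _ = A * Real.exp (-u) := by rw [← Real.exp_add]; congr 2; ring
      _ ≤ _ := by
          have := Real.exp_pos (-u)
          nlinarith
  · rw [abs_of_nonpos hu]
    calc Real.exp (-2 * u) * ‖fl y b ℓ (Real.exp (-u))‖ ≤ Real.exp (-2 * u) * (B * Real.exp (3 * u)) := by
          gcongr; exact fl_b3 hy hb hℓ u
      _ = B * (Real.exp (-2 * u) * Real.exp (3 * u)) := by ring
      _ = B * Real.exp (- -u) := by rw [← Real.exp_add]; congr 2; ring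
      _ ≤ _ := by
          have := Real.exp_pos (- -u)
          nlinarith

lemma hh_cont {y : ℝ} (hy : 0 < y) {b : ℝ} (hb : 0 < b) {ℓ : ℕ} (hℓ : 1 ≤ ℓ) (H : ℝ) :
    Continuous (hh y b ℓ H) := by
  unfold hh
  have := fl_cont hy hb hℓ
  fun_prop

lemma hh_bound {y : ℝ} (hy : 0 < y) {b : ℝ} (hb : 0 < b) {ℓ : ℕ} (hℓ : 1 ≤ ℓ) {H : ℝ} (hH : 4 ≤ H) (u : ℝ) :
    ‖hh y b ℓ H u‖ ≤ (1 / (2 * Real.pi * y * b * ℓ) * Real.exp 1) * Real.exp (-1 * u ^ 2) := by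
  have hℓ0 : (0 : ℝ) < ℓ := by exact_mod_cast hℓ
  have hpi := Real.pi_pos
  unfold hh
  rw [norm_mul, Complex.norm_real, Real.norm_eq_abs, abs_of_pos (Real.exp_pos _)]
  calc _ ≤ (1 / (2 * Real.pi * y * b * ℓ) * Real.exp u) * Real.exp (-(u / 2) - H ^ 2 * u ^ 2 / 4) := by
        gcongr; exact fl_b1 hy hb hℓ u
    _ = 1 / (2 * Real.pi * y * b * ℓ) * Real.exp (u + (-(u / 2) - H ^ 2 * u ^ 2 / 4)) := by
        rw [mul_assoc, ← Real.exp_add]
    _ ≤ 1 / (2 * Real.pi * y * b * ℓ) * Real.exp (1 + -1 * u ^ 2) := by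
        apply mul_le_mul_of_nonneg_left _ (by positivity)
        apply Real.exp_le_exp.2
        have h1 : 16 * u ^ 2 ≤ H ^ 2 * u ^ 2 := by
          have : 16 ≤ H ^ 2 := by nlinarith
          gcongr
        nlinarith [sq_nonneg (u - 1)]
    _ = _ := by rw [Real.exp_add]; ring

lemma hh_int {y : ℝ} (hy : 0 < y) {b : ℝ} (hb : 0 < b) {ℓ : ℕ} (hℓ : 1 ≤ ℓ) {H : ℝ} (hH : 4 ≤ H) :
    Integrable (hh y b ℓ H) :=
  ((integrable_exp_neg_mul_sq one_pos).const_mul _).mono' (hh_cont hy hb hℓ H).aestronglyMeasurable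
    (Eventually.of_forall (hh_bound hy hb hℓ hH))

lemma hh_memLp {y : ℝ} (hy : 0 < y) {b : ℝ} (hb : 0 < b) {ℓ : ℕ} (hℓ : 1 ≤ ℓ) {H : ℝ} (hH : 4 ≤ H) :
    MemLp (hh y b ℓ H) 2 := by
  rw [memLp_two_iff_integrable_sq_norm (hh_cont hy hb hℓ H).aestronglyMeasurable]
  set A := (1 / (2 * Real.pi * y * b * ℓ) * Real.exp 1) with hA
  have h1 : Integrable (fun u : ℝ => A ^ 2 * Real.exp (-2 * u ^ 2)) :=
    (integrable_exp_neg_mul_sq (by norm_num)).const_mul _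
  refine h1.mono' ((hh_cont hy hb hℓ H).norm.pow 2).aestronglyMeasurable (Eventually.of_forall fun u => ?_)
  rw [Real.norm_eq_abs, abs_of_nonneg (by positivity)]
  have h2 := hh_bound hy hb hℓ hH u
  rw [← hA] at h2
  calc ‖hh y b ℓ H u‖ ^ 2 ≤ (A * Real.exp (-1 * u ^ 2)) ^ 2 := by gcongr
    _ = _ := by
        rw [mul_pow, ← Real.exp_nat_mul]
        congr 2
        push_cast
        ring

lemma mellin_gg (y b : ℝ) (ℓ : ℕ) (v : ℝ) :
    mellin (fl y b ℓ) ⟨2, v⟩ = ∫ u : ℝ, cexp (-((u * v : ℝ) : ℂ) * I) * gg y b ℓ u := by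
  rw [mellin_eq_fourier, Real.fourier_eq']
  apply integral_congr_ae
  refine Eventually.of_forall fun u => ?_
  simp only [smul_eq_mul]
  unfold gg
  congr 2
  have h : inner ℝ u (v / (2 * Real.pi)) = v / (2 * Real.pi) * u := rfl
  rw [h]
  push_cast
  have := Real.pi_ne_zero
  have hpi : (Real.pi : ℂ) ≠ 0 := by exact_mod_cast this
  field_simp

lemma wg_fourier {H : ℝ} (hH : 0 < H) (t0 u : ℝ) :
    ∫ v : ℝ, wg H t0 ⟨2, v⟩ * cexp (-((u * v : ℝ) : ℂ) * I) =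
      ((H * Real.sqrt Real.pi : ℝ) : ℂ) * (cexp (-((u * t0 : ℝ) : ℂ) * I) *
        ((Real.exp (3 / 2 * u - H ^ 2 * u ^ 2 / 4) : ℝ) : ℂ)) := by
  rw [← integral_add_left_eq_self (fun v : ℝ => wg H t0 ⟨2, v⟩ * cexp (-((u * v : ℝ) : ℂ) * I)) t0]
  have e1 : ∀ τ : ℝ, wg H t0 ⟨2, t0 + τ⟩ * cexp (-((u * (t0 + τ) : ℝ) : ℂ) * I) =
      (cexp (-((u * t0 : ℝ) : ℂ) * I) * cexp (((3 / 2 * u : ℝ) : ℂ))) *
      cexp ((((3 / 2 : ℝ) : ℂ) + τ * I) ^ 2 / (H : ℂ) ^ 2 + (-(u : ℂ)) * (((3 / 2 : ℝ) : ℂ) + τ * I)) := by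
    intro τ
    unfold wg
    have h2 : (⟨2, t0 + τ⟩ : ℂ) - (1 / 2 + (t0 : ℂ) * I) = ((3 / 2 : ℝ) : ℂ) + τ * I := by
      rw [mk_line]
      push_cast
      ring
    rw [h2, ← Complex.exp_add, ← Complex.exp_add, ← Complex.exp_add]
    congr 1
    push_cast
    ring
  simp_rw [e1]
  rw [integral_const_mul, gint hH]
  have h3 : cexp (-((H : ℂ) ^ 2 * (-(u : ℂ)) ^ 2 / 4)) = ((Real.exp (-(H ^ 2 * u ^ 2 / 4)) : ℝ) : ℂ) := by
    rw [Complex.ofReal_exp]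
    congr 1
    push_cast
    ring
  rw [h3, ← Complex.ofReal_exp, show (3 / 2 * u - H ^ 2 * u ^ 2 / 4 : ℝ) = 3 / 2 * u + -(H ^ 2 * u ^ 2 / 4) by ring,
    Real.exp_add]
  push_cast
  ring

/-- the resonance integral as a Fourier transform -/
theorem rint_fourier {y : ℝ} (hy : 0 < y) {b : ℝ} (hb : 0 < b) {ℓ : ℕ} (hℓ : 1 ≤ ℓ) {H : ℝ} (hH : 4 ≤ H)
    (t0 : ℝ) : Rint y b ℓ H t0 = ((H * Real.sqrt Real.pi : ℝ) : ℂ) * 𝓕 (hh y b ℓ H) (t0 / (2 * Real.pi)) := by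
  have hH0 : 0 < H := by linarith
  unfold Rint
  have e1 : ∀ v : ℝ, wg H t0 ⟨2, v⟩ * mm y b ℓ ⟨2, v⟩ * (riemannZeta ⟨2, v⟩)⁻¹ =
      ∫ u : ℝ, wg H t0 ⟨2, v⟩ * (cexp (-((u * v : ℝ) : ℂ) * I) * gg y b ℓ u) := by
    intro v
    rw [integral_const_mul, ← mellin_gg, mellin_fl hy hb hℓ]
    ring
  simp_rw [e1]
  have hwi : Integrable (fun v : ℝ => wg H t0 ⟨2, v⟩) := by
    refine ((gint_b t0 (1 / H ^ 2) (by positivity)).const_mul (Real.exp (9 / 4))).mono'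
      (cont_wg_two H t0).aestronglyMeasurable (Eventually.of_forall fun v => ?_)
    exact norm_wg_le (by linarith) (by norm_num) le_rfl t0 v
  have hgi := gg_int hy hb hℓ
  have hprod : Integrable (Function.uncurry fun v u : ℝ => wg H t0 ⟨2, v⟩ *
      (cexp (-((u * v : ℝ) : ℂ) * I) * gg y b ℓ u)) (volume.prod volume) := by
    have h1 : Integrable (fun z : ℝ × ℝ => wg H t0 ⟨2, z.1⟩ * gg y b ℓ z.2) (volume.prod volume) :=
      hwi.mul_prod hgi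
    refine h1.mono ?_ (Eventually.of_forall fun z => ?_)
    · apply Continuous.aestronglyMeasurable
      have h2 := cont_wg_two H t0
      have h3 : Continuous (gg y b ℓ) := by
        unfold gg
        have := fl_cont hy hb hℓ
        fun_prop
      show Continuous fun z : ℝ × ℝ => wg H t0 ⟨2, z.1⟩ * (cexp (-((z.2 * z.1 : ℝ) : ℂ) * I) * gg y b ℓ z.2)
      have h4 : Continuous fun z : ℝ × ℝ => wg H t0 ⟨2, z.1⟩ := h2.comp continuous_fst
      have h5 : Continuous fun z : ℝ × ℝ => gg y b ℓ z.2 := h3.comp continuous_snd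
      fun_prop
    · simp only [Function.uncurry]
      rw [norm_mul, norm_mul, norm_mul, ← Complex.ofReal_neg, Complex.norm_exp_ofReal_mul_I, one_mul]
  rw [integral_integral_swap hprod]
  have e2 : ∀ u : ℝ, ∫ v : ℝ, wg H t0 ⟨2, v⟩ * (cexp (-((u * v : ℝ) : ℂ) * I) * gg y b ℓ u) =
      ((H * Real.sqrt Real.pi : ℝ) : ℂ) * (cexp (-((u * t0 : ℝ) : ℂ) * I) * hh y b ℓ H u) := by
    intro u
    have h1 : ∀ v : ℝ, wg H t0 ⟨2, v⟩ * (cexp (-((u * v : ℝ) : ℂ) * I) * gg y b ℓ u) =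
        (wg H t0 ⟨2, v⟩ * cexp (-((u * v : ℝ) : ℂ) * I)) * gg y b ℓ u := fun v => by ring
    simp_rw [h1]
    rw [integral_mul_const, wg_fourier hH0]
    unfold gg hh
    rw [Complex.real_smul]
    have h2 : ((Real.exp (3 / 2 * u - H ^ 2 * u ^ 2 / 4) : ℝ) : ℂ) * ((Real.exp (-2 * u) : ℝ) : ℂ) =
        ((Real.exp (-(u / 2) - H ^ 2 * u ^ 2 / 4) : ℝ) : ℂ) := by
      rw [← Complex.ofReal_mul, ← Real.exp_add]
      congr 2
      ring
    rw [← h2]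
    ring
  simp_rw [e2]
  rw [integral_const_mul]
  congr 1
  rw [Real.fourier_eq']
  apply integral_congr_ae
  refine Eventually.of_forall fun u => ?_
  simp only [smul_eq_mul]
  congr 2
  have h : inner ℝ u (t0 / (2 * Real.pi)) = t0 / (2 * Real.pi) * u := rfl
  rw [h]
  push_cast
  have := Real.pi_ne_zero
  have hpi : (Real.pi : ℂ) ≠ 0 := by exact_mod_cast this
  field_simp

/-- Plancherel -/
theorem planch {y : ℝ} (hy : 0 < y) {b : ℝ} (hb : 0 < b) {ℓ : ℕ} (hℓ : 1 ≤ ℓ) {H : ℝ} (hH : 4 ≤ H) :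
    ∫⁻ t0 : ℝ, ‖Rint y b ℓ H t0‖ₑ ^ 2 =
      ENNReal.ofReal (2 * Real.pi ^ 2 * H ^ 2) * ∫⁻ u : ℝ, ‖hh y b ℓ H u‖ₑ ^ 2 := by
  have hH0 : 0 < H := by linarith
  have hpi := Real.pi_pos
  have h1 := Pool.Agent.H153R4.plancherel (hh y b ℓ H) (hh_int hy hb hℓ hH) (hh_memLp hy hb hℓ hH)
  simp_rw [rint_fourier hy hb hℓ hH]
  have hA : ‖((H * Real.sqrt Real.pi : ℝ) : ℂ)‖ₑ ^ 2 = ENNReal.ofReal (H ^ 2 * Real.pi) := by
    rw [← ofReal_norm_eq_enorm, Complex.norm_real, Real.norm_eq_abs, abs_of_nonneg (by positivity),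
      ← ENNReal.ofReal_pow (by positivity), mul_pow, Real.sq_sqrt hpi.le]
  have e1 : ∀ t0 : ℝ, ‖((H * Real.sqrt Real.pi : ℝ) : ℂ) * 𝓕 (hh y b ℓ H) (t0 / (2 * Real.pi))‖ₑ ^ 2 =
      ENNReal.ofReal (H ^ 2 * Real.pi) * ‖𝓕 (hh y b ℓ H) (t0 / (2 * Real.pi))‖ₑ ^ 2 := by
    intro t0
    rw [enorm_mul, mul_pow, hA]
  simp_rw [e1]
  rw [lintegral_const_mul']
  swap
  · exact ENNReal.ofReal_ne_top
  have e2 : ∫⁻ t0 : ℝ, ‖𝓕 (hh y b ℓ H) (t0 / (2 * Real.pi))‖ₑ ^ 2 =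
      ENNReal.ofReal (2 * Real.pi) * ∫⁻ ξ : ℝ, ‖𝓕 (hh y b ℓ H) ξ‖ₑ ^ 2 := by
    have h2 := lintegral_image_eq_lintegral_abs_deriv_mul (s := (univ : Set ℝ))
      (f := fun t : ℝ => t / (2 * Real.pi)) (f' := fun _ => 1 / (2 * Real.pi)) MeasurableSet.univ
      (fun x _ => by
        have := (hasDerivAt_id x).div_const (2 * Real.pi)
        exact HasDerivAt.hasDerivWithinAt this)
      (by
        intro a _ b _ hab
        have h3 : a / (2 * Real.pi) = b / (2 * Real.pi) := hab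
        field_simp at h3
        exact h3) (fun ξ => ‖𝓕 (hh y b ℓ H) ξ‖ₑ ^ 2)
    have h3 : (fun t : ℝ => t / (2 * Real.pi)) '' univ = univ := by
      rw [image_univ, range_eq_univ]
      intro x
      exact ⟨x * (2 * Real.pi), by field_simp⟩
    rw [h3, setLIntegral_univ, setLIntegral_univ] at h2
    rw [h2, lintegral_const_mul', ← mul_assoc, ← ENNReal.ofReal_mul (by positivity)]
    · have h4 : 2 * Real.pi * |1 / (2 * Real.pi)| = 1 := by
        rw [abs_of_pos (by positivity)]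
        field_simp
      rw [h4, ENNReal.ofReal_one, one_mul]
    · exact ENNReal.ofReal_ne_top
  rw [e2, h1, ← mul_assoc, ← ENNReal.ofReal_mul (by positivity)]
  congr 2
  ring

end Pool.Agent.N806.AH
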