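import Pool.Agent.N806.AH.PCc

/-! Sums of `1/ζ'(ρ)` over the zeros of a good window with a Gaussian weight. -/

set_option autoImplicit false

open Complex Filter Topology Set MeasureTheory Metric

namespace Pool.Agent.N806.AH

open H345 H345.Chi Pool.Agent.H640R3.EG Pool.Agent.H810R2.CSd

/-- coefficients -/
noncomputable def bP (h lam : ℝ) (n : ℕ) : ℂ :=
  mu n * (((n : ℝ) ^ (-(1 / 2 : ℝ)) * Real.exp (-(h ^ 2 * (lam - Real.log n) ^ 2 / 4)) : ℝ) : ℂ)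

/-- the Dirichlet series -/
noncomputable def PS (h lam t : ℝ) : ℂ := ∑' n : ℕ, bP h lam n * ph n t

lemma norm_bP (h lam : ℝ) (n : ℕ) : ‖bP h lam n‖ ≤
    (n : ℝ) ^ (-(1 / 2 : ℝ)) * Real.exp (-(h ^ 2 * (lam - Real.log n) ^ 2 / 4)) := by
  unfold bP
  rw [norm_mul, Complex.norm_real, Real.norm_eq_abs, abs_of_nonneg (by positivity)]
  have h1 := norm_mu n
  have h2 : 0 ≤ (n : ℝ) ^ (-(1 / 2 : ℝ)) * Real.exp (-(h ^ 2 * (lam - Real.log n) ^ 2 / 4)) := by positivity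
  nlinarith

lemma bP_exp {h lam : ℝ} (hh : 0 < h) {n : ℕ} (hn : 1 ≤ n) (A : ℝ) (hA : 0 < A) :
    Real.exp (-(A * (lam - Real.log n) ^ 2)) ≤ Real.exp (1 / A + 2 * lam) * (1 / (n : ℝ) ^ 2) := by
  have hn0 : (0 : ℝ) < n := by exact_mod_cast hn
  have h1 : (1 / (n : ℝ) ^ 2) = Real.exp (-(2 * Real.log n)) := by
    rw [Real.exp_neg, show (2 : ℝ) * Real.log n = ((2 : ℕ) : ℝ) * Real.log n by norm_num, Real.exp_nat_mul,
      Real.exp_log hn0, one_div]
  rw [h1, ← Real.exp_add]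
  apply Real.exp_le_exp.2
  have h2 : A * (lam - Real.log n) ^ 2 + 2 * (lam - Real.log n) + 1 / A =
      A * ((lam - Real.log n) + 1 / A) ^ 2 := by field_simp; ring
  have h3 : 0 ≤ A * ((lam - Real.log n) + 1 / A) ^ 2 := by positivity
  linarith

lemma bP_summable {h lam : ℝ} (hh : 0 < h) : Summable (fun n => ‖bP h lam n‖) := by
  have h1 : Summable (fun n : ℕ => Real.exp (1 / (h ^ 2 / 4) + 2 * lam) * (1 / (n : ℝ) ^ 2)) :=
    (Real.summable_one_div_nat_pow.2 one_lt_two).mul_left _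
  refine Summable.of_nonneg_of_le (fun n => norm_nonneg _) (fun n => ?_) h1
  rcases Nat.eq_zero_or_pos n with hn | hn
  · subst hn
    simp [bP, mu_zero]
  refine (norm_bP h lam n).trans ?_
  have h2 : (n : ℝ) ^ (-(1 / 2 : ℝ)) ≤ 1 :=
    Real.rpow_le_one_of_one_le_of_nonpos (by exact_mod_cast hn) (by norm_num)
  have h3 := bP_exp (lam := lam) hh hn (h ^ 2 / 4) (by positivity)
  have h4 : -(h ^ 2 * (lam - Real.log n) ^ 2 / 4) = -(h ^ 2 / 4 * (lam - Real.log n) ^ 2) := by ring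
  rw [h4]
  calc _ ≤ 1 * Real.exp (-(h ^ 2 / 4 * (lam - Real.log n) ^ 2)) := by gcongr
    _ ≤ _ := by rw [one_mul]; exact h3

lemma PS_cont {h lam : ℝ} (hh : 0 < h) : Continuous (PS h lam) := by
  unfold PS
  apply continuous_tsum (fun n => continuous_const.mul (cont_ph n)) (bP_summable hh)
  intro n t
  show ‖bP h lam n * ph n t‖ ≤ _
  rw [norm_mul, norm_ph, mul_one]

/-- the integral on the line `2` -/
theorem ps_formula {h : ℝ} (hh : 0 < h) (lam t0 : ℝ) :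
    ∫ t : ℝ, wg h t0 ⟨2, t⟩ * cexp ((lam : ℂ) * (⟨2, t⟩ - 1 / 2)) * (riemannZeta ⟨2, t⟩)⁻¹ =
      ((h * Real.sqrt Real.pi : ℝ) : ℂ) * cexp (((lam * t0 : ℝ) : ℂ) * I) * PS h lam t0 := by
  let g : ℝ → ℂ := fun v => wg h t0 ⟨2, v⟩ * cexp ((lam : ℂ) * (⟨2, v⟩ - 1 / 2))
  have hgc : Continuous g := by
    have h1 := cont_two
    have h2 := (wg_diff h t0).continuous
    simp only [g]
    fun_prop
  have hgn : ∀ v, ‖g v‖ ≤ Real.exp ((9 / 4) / h ^ 2 + 3 / 2 * lam) * Real.exp (-(1 / h ^ 2) * (v - t0) ^ 2) := by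
    intro v
    simp only [g]
    rw [norm_mul, norm_wg, Complex.norm_exp, ← Real.exp_add, ← Real.exp_add]
    apply Real.exp_le_exp.2
    have h1 : ((lam : ℂ) * ((⟨2, v⟩ : ℂ) - 1 / 2)).re = 3 / 2 * lam := by
      simp
      ring
    rw [h1]
    apply le_of_eq
    ring
  have hgi : Integrable g :=
    ((gint_b t0 (1 / h ^ 2) (by positivity)).const_mul _).mono' hgc.aestronglyMeasurable
      (Eventually.of_forall hgn)
  let F : ℕ → ℝ → ℂ := fun n v => mu n * (((n : ℝ) ^ (-(2 : ℝ)) : ℝ) : ℂ) * ph n v * g v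
  have hFn : ∀ n v, ‖F n v‖ ≤ (n : ℝ) ^ (-(2 : ℝ)) * ‖g v‖ := by
    intro n τ
    simp only [F]
    rw [norm_mul, norm_mul, norm_mul, norm_ph, mul_one, Complex.norm_real, Real.norm_eq_abs,
      abs_of_nonneg (by positivity)]
    have := norm_mu n
    have h2 : 0 ≤ (n : ℝ) ^ (-(2 : ℝ)) := by positivity
    have h3 := norm_nonneg (g τ)
    calc ‖mu n‖ * (n : ℝ) ^ (-(2 : ℝ)) * ‖g τ‖ ≤ 1 * (n : ℝ) ^ (-(2 : ℝ)) * ‖g τ‖ := by gcongr
      _ = _ := by ring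
  have hFc : ∀ n, Continuous (F n) := by
    intro n
    simp only [F]
    have := cont_ph n
    fun_prop
  have hFi : ∀ n, Integrable (F n) := fun n =>
    (hgi.norm.const_mul ((n : ℝ) ^ (-(2 : ℝ)))).mono' (hFc n).aestronglyMeasurable
      (Eventually.of_forall (hFn n))
  have hsum : Summable fun n => ∫ τ, ‖F n τ‖ := by
    have h1 : Summable fun n : ℕ => (n : ℝ) ^ (-(2 : ℝ)) * ∫ τ, ‖g τ‖ :=
      (summable_rpow (by norm_num)).mul_right _
    refine Summable.of_nonneg_of_le (fun n => integral_nonneg fun τ => norm_nonneg _) (fun n => ?_) h1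
    rw [← integral_const_mul]
    exact integral_mono (hFi n).norm (hgi.norm.const_mul _) (hFn n)
  have key := hasSum_integral_of_summable_integral_norm hFi hsum
  have e1 : ∀ v : ℝ, ∑' n, F n v = g v * (riemannZeta ⟨2, v⟩)⁻¹ := by
    intro v
    have := (inv_zeta_hasSum (σ := 2) (by norm_num) v).mul_right (g v)
    rw [mul_comm (g v)]
    exact this.tsum_eq
  simp_rw [e1] at key
  have e2 : ∀ n, ∫ v, F n v = ((h * Real.sqrt Real.pi : ℝ) : ℂ) * cexp (((lam * t0 : ℝ) : ℂ) * I) *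
      (bP h lam n * ph n t0) := by
    intro n
    rcases Nat.eq_zero_or_pos n with hn | hn
    · subst hn
      simp [F, bP, mu_zero]
    have hn0 : (0 : ℝ) < n := by exact_mod_cast hn
    set β : ℂ := (lam : ℂ) - (Real.log n : ℂ) with hβ
    have e3 : ∀ τ : ℝ, F n (t0 + τ) = (mu n * (((n : ℝ) ^ (-(1 / 2 : ℝ)) : ℝ) : ℂ) * ph n t0 *
          cexp (((lam * t0 : ℝ) : ℂ) * I)) *
        cexp ((((3 / 2 : ℝ) : ℂ) + τ * I) ^ 2 / (h : ℂ) ^ 2 + β * (((3 / 2 : ℝ) : ℂ) + τ * I)) := by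
      intro τ
      simp only [F, g]
      have h1 : (((n : ℝ) ^ (-(2 : ℝ)) : ℝ) : ℂ) * ph n (t0 + τ) =
          (((n : ℝ) ^ (-(1 / 2 : ℝ)) : ℝ) : ℂ) * ph n t0 *
            cexp (-(Real.log n : ℂ) * (((3 / 2 : ℝ) : ℂ) + τ * I)) := by
        have h2 : (n : ℝ) ^ (-(2 : ℝ)) = (n : ℝ) ^ (-(1 / 2 : ℝ)) * Real.exp (-(3 / 2 * Real.log n)) := by
          rw [Real.rpow_def_of_pos hn0, Real.rpow_def_of_pos hn0, ← Real.exp_add]
          congr 1
          ring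
        rw [h2]
        unfold ph
        rw [Complex.ofReal_mul, mul_assoc, mul_assoc]
        congr 1
        rw [Complex.ofReal_exp, ← Complex.exp_add, ← Complex.exp_add]
        congr 1
        push_cast
        ring
      have h2 : (⟨2, t0 + τ⟩ : ℂ) - (1 / 2 + (t0 : ℂ) * I) = ((3 / 2 : ℝ) : ℂ) + τ * I := by
        rw [mk_line]
        push_cast
        ring
      unfold wg
      rw [h2]
      calc mu n * (((n : ℝ) ^ (-(2 : ℝ)) : ℝ) : ℂ) * ph n (t0 + τ) *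
            (cexp ((((3 / 2 : ℝ) : ℂ) + τ * I) ^ 2 / (h : ℂ) ^ 2) *
              cexp ((lam : ℂ) * (⟨2, t0 + τ⟩ - 1 / 2)))
          = mu n * ((((n : ℝ) ^ (-(2 : ℝ)) : ℝ) : ℂ) * ph n (t0 + τ)) *
            (cexp ((((3 / 2 : ℝ) : ℂ) + τ * I) ^ 2 / (h : ℂ) ^ 2) *
              cexp ((lam : ℂ) * (⟨2, t0 + τ⟩ - 1 / 2))) := by ring
        _ = mu n * (((n : ℝ) ^ (-(1 / 2 : ℝ)) : ℝ) : ℂ) * ph n t0 *
            (cexp (-(Real.log n : ℂ) * (((3 / 2 : ℝ) : ℂ) + τ * I)) *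
            cexp ((((3 / 2 : ℝ) : ℂ) + τ * I) ^ 2 / (h : ℂ) ^ 2) *
              cexp ((lam : ℂ) * (⟨2, t0 + τ⟩ - 1 / 2))) := by rw [h1]; ring
        _ = mu n * (((n : ℝ) ^ (-(1 / 2 : ℝ)) : ℝ) : ℂ) * ph n t0 *
            (cexp (((lam * t0 : ℝ) : ℂ) * I) *
            cexp ((((3 / 2 : ℝ) : ℂ) + τ * I) ^ 2 / (h : ℂ) ^ 2 +
              β * (((3 / 2 : ℝ) : ℂ) + τ * I))) := by
            rw [← Complex.exp_add, ← Complex.exp_add, ← Complex.exp_add]
            congr 2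
            rw [mk_line, hβ]
            push_cast
            ring
        _ = _ := by ring
    rw [← integral_add_left_eq_self (F n) t0]
    simp_rw [e3]
    rw [integral_const_mul, gint hh]
    unfold bP
    have e4 : cexp (-((h : ℂ) ^ 2 * β ^ 2 / 4)) =
        ((Real.exp (-(h ^ 2 * (lam - Real.log n) ^ 2 / 4)) : ℝ) : ℂ) := by
      rw [hβ, Complex.ofReal_exp]
      congr 1
      push_cast
      ring
    rw [e4, Complex.ofReal_mul ((n : ℝ) ^ (-(1 / 2 : ℝ)))]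
    ring
  simp_rw [e2] at key
  have h1 := key.tsum_eq
  rw [tsum_mul_left] at h1
  unfold PS
  rw [h1]

end Pool.Agent.N806.AH
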