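import Pool.Agent.N806.AH.PureMS

/-! The contour argument for the Gaussian sums over the zeros. -/

set_option autoImplicit false

open Complex Filter Topology Set MeasureTheory Metric

namespace Pool.Agent.N806.AH

open H345 H345.Chi Pool.Agent.H640R3.EG Pool.Agent.H810R2.CSd

/-- the kernel -/
noncomputable def pk (h lam t0 : ℝ) (s : ℂ) : ℂ := wg h t0 s * cexp ((lam : ℂ) * (s - 1 / 2))

lemma pk_diff (h lam t0 : ℝ) : Differentiable ℂ (pk h lam t0) := by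
  unfold pk
  have := wg_diff h t0
  fun_prop

lemma norm_pk (h lam t0 σ t : ℝ) : ‖pk h lam t0 ⟨σ, t⟩‖ =
    Real.exp (((σ - 1 / 2) ^ 2 - (t - t0) ^ 2) / h ^ 2 + lam * (σ - 1 / 2)) := by
  unfold pk
  rw [norm_mul, norm_wg, Complex.norm_exp, ← Real.exp_add]
  congr 2
  simp

lemma pk_half (h lam t0 γ : ℝ) : pk h lam t0 (1 / 2 + (γ : ℂ) * I) =
    cexp (((lam * γ : ℝ) : ℂ) * I) * ((Real.exp (-((γ - t0) ^ 2 / h ^ 2)) : ℝ) : ℂ) := by
  unfold pk wg
  rw [mul_comm, Complex.ofReal_exp]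
  congr 1
  · congr 1
    push_cast
    ring
  · congr 1
    have h1 : (1 / 2 + (γ : ℂ) * I - (1 / 2 + (t0 : ℂ) * I)) ^ 2 = -(((γ - t0) ^ 2 : ℝ) : ℂ) := by
      have h2 : (1 / 2 + (γ : ℂ) * I - (1 / 2 + (t0 : ℂ) * I)) = ((γ - t0 : ℝ) : ℂ) * I := by
        push_cast; ring
      rw [h2, mul_pow, Complex.I_sq]
      push_cast
      ring
    rw [h1]
    push_cast
    ring

/-- `1/ζ` on the horizontal sides -/
lemma inv_zeta_hor (hRH : RiemannHypothesis) {Cr : ℝ} (hCr : 1 ≤ Cr) : ∃ C2 : ℝ, 1 ≤ C2 ∧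
    ∀ L t0 v d : ℝ, 1 ≤ L → Real.log (2 * Cr) ≤ L → t0 ≤ Cr * Real.exp L → 3 ≤ v → v ≤ 2 * t0 →
    1 / (8 * L) ≤ d → d ≤ 1 → (∀ γ ∈ Zo, d / 4 ≤ |γ - v|) → ∀ σ : ℝ, -1 ≤ σ → σ ≤ 2 →
    ‖(riemannZeta ⟨σ, v⟩)⁻¹‖ ≤ Real.exp (66 * C2 * L ^ 2) := by
  obtain ⟨C2, hC2, hz⟩ := hor_zeta hRH
  refine ⟨C2, hC2, fun L t0 v d hL hLC ht0 hv hv2 hd hd1 hdist σ hσ1 hσ2 => ?_⟩
  have hL0 : 0 < L := by linarith
  have hd0 : 0 < d := lt_of_lt_of_le (by positivity) hd
  have hv0 : 0 < v := by linarith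
  have hv1 : v ≤ 2 * Cr * Real.exp L := by linarith
  have hvL : Real.log v ≤ 2 * L := by
    calc Real.log v ≤ Real.log (2 * Cr * Real.exp L) := Real.log_le_log hv0 hv1
      _ = Real.log (2 * Cr) + L := by
          rw [Real.log_mul (by positivity) (Real.exp_pos _).ne', Real.log_exp]
      _ ≤ 2 * L := by linarith
  have hlv : 0 ≤ Real.log v := Real.log_nonneg (by linarith)
  have hlδ : Real.log (1 / (d / 4)) ≤ 32 * L := by
    have h1 : 1 / (d / 4) ≤ 32 * L := by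
      rw [div_le_iff₀ (by positivity)]
      rw [div_le_iff₀ (by positivity)] at hd
      linarith
    calc Real.log (1 / (d / 4)) ≤ 1 / (d / 4) - 1 := Real.log_le_sub_one_of_pos (by positivity)
      _ ≤ _ := by linarith
  have hlδ0 : 0 ≤ Real.log (1 / (d / 4)) := Real.log_nonneg (by rw [le_div_iff₀ (by positivity)]; linarith)
  have h1 := hz v hv σ (d / 4) hσ1 hσ2 (by positivity) (by linarith) hdist
  refine h1.trans (Real.exp_le_exp.2 ?_)
  have h0 : C2 * L ≤ C2 * L ^ 2 := by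
    have : L ≤ L ^ 2 := by nlinarith
    nlinarith
  calc C2 * Real.log v * (1 + Real.log (1 / (d / 4))) ≤ C2 * (2 * L) * (1 + 32 * L) := by gcongr
    _ = 2 * (C2 * L) + 64 * C2 * L ^ 2 := by ring
    _ ≤ _ := by linarith

theorem pure_pt (hRH : RiemannHypothesis) {Cr H lm : ℝ} (hCr : 1 ≤ Cr) (hH : 4 ≤ H) (hlm : 0 ≤ lm) :
    ∃ K W0 C L0 : ℝ, 1 ≤ K ∧ 2 * H ≤ W0 ∧ 1 ≤ C ∧ 1 ≤ L0 ∧ ∀ L : ℝ, L0 ≤ L → ∀ h lam : ℝ,
    2 / Real.sqrt L ≤ h → h ≤ H → 0 ≤ lam → lam ≤ lm → ∀ y t0 d ε : ℝ, Real.exp L ≤ t0 →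
    t0 ≤ Cr * Real.exp L → 1 / (8 * L) ≤ d → d ≤ 1 → LH y t0 (K * L) d ε →
    ∃ y1 y2 : ℝ, t0 - K * L ≤ y1 ∧ y1 ≤ t0 - W0 * L ∧ t0 + W0 * L ≤ y2 ∧ y2 ≤ t0 + K * L ∧
    ‖∑ γ ∈ ZF y1 y2, aa γ * cexp (((lam * γ : ℝ) : ℂ) * I) *
      ((Real.exp (-((γ - t0) ^ 2 / h ^ 2)) : ℝ) : ℂ)‖ ≤ h * ‖PS h lam t0‖ + C * Real.exp (-(L / 2)) := by
  obtain ⟨C2, hC2, hhz⟩ := inv_zeta_hor hRH hCr
  obtain ⟨C3, hC3, hlz⟩ := inv_zeta_left
  have hpi := Real.pi_pos
  have hH0 : 0 < H := by linarith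
  set W0 : ℝ := 2 * H * (66 * C2 + 20) with hW0
  have hW01 : 1 ≤ W0 := by nlinarith
  obtain ⟨L2, hL2⟩ : ∃ L2 : ℝ, ∀ L : ℝ, L2 ≤ L → W0 * L + 4 ≤ Real.exp L / 2 := by
    have h1 := (Real.tendsto_exp_div_pow_atTop 1).eventually_ge_atTop (2 * (W0 + 4))
    obtain ⟨x, hx⟩ := (h1.and (eventually_ge_atTop 1)).exists_forall_of_atTop
    refine ⟨x, fun L hL => ?_⟩
    obtain ⟨h2, h3⟩ := hx L hL
    rw [pow_one, le_div_iff₀ (by linarith)] at h2
    nlinarith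
  set E1 : ℝ := Real.exp (3 / 2 * lm) with hE1
  have hE10 : 0 < E1 := Real.exp_pos _
  set CC : ℝ := 6 * E1 + 3 * E1 * (3 * H) + C3 * Real.exp (3 / 2) * (Real.sqrt Real.pi * H) with hCC
  have hCC0 : 0 ≤ CC := by positivity
  refine ⟨W0 + 3, W0, CC + 1, max L2 (Real.log (2 * Cr) + 3), by linarith, by rw [hW0]; nlinarith, by linarith, ?_,
    fun L hL h lam hh hhH hlam hlam1 y t0 d ε ht0 ht1 hd hd1 hLH => ?_⟩
  · have h1 : 0 ≤ Real.log (2 * Cr) := Real.log_nonneg (by linarith)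
    have h2 := le_max_right L2 (Real.log (2 * Cr) + 3)
    linarith
  have hLL2 : L2 ≤ L := (le_max_left _ _).trans hL
  have hLC : Real.log (2 * Cr) + 3 ≤ L := (le_max_right _ _).trans hL
  have hlog0 : 0 ≤ Real.log (2 * Cr) := Real.log_nonneg (by linarith)
  have hL3 : 3 ≤ L := by linarith
  have hL0 : 0 < L := by linarith
  have hsL : 0 < Real.sqrt L := Real.sqrt_pos.2 hL0
  have hh0 : 0 < h := lt_of_lt_of_le (by positivity) hh
  have h94 : (9 / 4) / h ^ 2 ≤ 9 / 16 * L := by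
    have h1 : (2 / Real.sqrt L) ^ 2 ≤ h ^ 2 := by gcongr
    rw [div_pow, Real.sq_sqrt hL0.le] at h1
    rw [div_le_iff₀ (by positivity)]
    rw [div_le_iff₀ hL0] at h1
    nlinarith
  have hhH2 : h ^ 2 ≤ H ^ 2 := by gcongr
  set W : ℝ := W0 * L with hW
  have hWexp : W + 4 ≤ Real.exp L / 2 := hL2 L hLL2
  have hr : W + 3 ≤ (W0 + 3) * L := by nlinarith
  have hLH' := hLH.mono hr
  have hexp : 0 < Real.exp L := Real.exp_pos _
  have hWpos : 3 ≤ W := by nlinarith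
  have hd0 : 0 < d := lt_of_lt_of_le (by positivity) hd
  -- heights
  obtain ⟨y2, hy2, hy2d⟩ := good_pt (a := t0 + W) hd0 hd1 (by
    intro γ hγ γ' hγ' h1 h2 h3 h4 hne
    refine hLH'.sp γ hγ γ' hγ' ?_ ?_ hne
    · rw [abs_le]; constructor <;> linarith
    · rw [abs_le]; constructor <;> linarith)
  obtain ⟨y1, hy1, hy1d⟩ := good_pt (a := t0 - W - 1) hd0 hd1 (by
    intro γ hγ γ' hγ' h1 h2 h3 h4 hne
    refine hLH'.sp γ hγ γ' hγ' ?_ ?_ hne
    · rw [abs_le]; constructor <;> linarith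
    · rw [abs_le]; constructor <;> linarith)
  obtain ⟨hy1a, hy1b⟩ := hy1
  obtain ⟨hy2a, hy2b⟩ := hy2
  have hy1b' : y1 ≤ t0 - W := by linarith
  refine ⟨y1, y2, by linarith, hy1b', hy2a, by linarith, ?_⟩
  have hy1z : y1 ∉ Zo := fun h => by
    have := hy1d y1 h
    rw [sub_self, abs_zero] at this
    linarith
  have hy2z : y2 ∉ Zo := fun h => by
    have := hy2d y2 h
    rw [sub_self, abs_zero] at this
    linarith
  have hy1e : Real.exp L / 2 ≤ y1 := by linarith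
  have hexp2 : 10 ≤ Real.exp L := by linarith
  have hy13 : 3 ≤ y1 := by linarith
  have hy12 : y1 < y2 := by linarith
  have hrect := rect_zeta hRH (x0 := -1) (x1 := 2) (y1 := y1) (y2 := y2) (by norm_num) (by norm_num)
    (by linarith) hy12 hy1z hy2z (by
      intro γ hγ h1 h2
      exact hLH'.sim γ hγ (by rw [abs_le]; constructor <;> linarith)) (Φ := pk h lam t0) (by
      intro z _ _
      exact (pk_diff h lam t0) z)
  have hsumeq : ∑ γ ∈ ZF y1 y2, pk h lam t0 (1 / 2 + (γ : ℂ) * I) * aa γ =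
      ∑ γ ∈ ZF y1 y2, aa γ * cexp (((lam * γ : ℝ) : ℂ) * I) *
        ((Real.exp (-((γ - t0) ^ 2 / h ^ 2)) : ℝ) : ℂ) := by
    refine Finset.sum_congr rfl fun γ _ => ?_
    rw [pk_half]
    ring
  rw [hsumeq] at hrect
  set SS : ℂ := ∑ γ ∈ ZF y1 y2, aa γ * cexp (((lam * γ : ℝ) : ℂ) * I) *
        ((Real.exp (-((γ - t0) ^ 2 / h ^ 2)) : ℝ) : ℂ) with hSS
  have hexpL2 : Real.exp (-L) ≤ Real.exp (-(L / 2)) := Real.exp_le_exp.2 (by linarith)
  -- the Gaussian decay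
  have hdecay : ∀ x : ℝ, W ^ 2 ≤ x → (9 / 4 - x) / h ^ 2 + 66 * C2 * L ^ 2 ≤ -L := by
    intro x hx
    have h1 : (66 * C2 + 20) * L ^ 2 * (4 * H ^ 2) ≤ W ^ 2 := by
      have h10 : (66 * C2 + 20) ≤ (66 * C2 + 20) ^ 2 := by nlinarith
      calc (66 * C2 + 20) * L ^ 2 * (4 * H ^ 2) ≤ (66 * C2 + 20) ^ 2 * L ^ 2 * (4 * H ^ 2) := by gcongr
        _ = W ^ 2 := by rw [hW, hW0]; ring
    have h2 : x / 2 ≤ x - 9 / 4 := by nlinarith
    have h3 : (66 * C2 + 20) * L ^ 2 * 2 ≤ (x - 9 / 4) / h ^ 2 := by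
      rw [le_div_iff₀ (by positivity)]
      have h4 : (66 * C2 + 20) * L ^ 2 * 2 * h ^ 2 ≤ (66 * C2 + 20) * L ^ 2 * 2 * H ^ 2 := by gcongr
      nlinarith
    have h4 : (9 / 4 - x) / h ^ 2 = -((x - 9 / 4) / h ^ 2) := by ring
    rw [h4]
    have h5 : L ≤ L ^ 2 := by nlinarith
    have h6 : 0 ≤ C2 * L ^ 2 := by positivity
    nlinarith
  have hhor : ∀ v : ℝ, (∀ γ ∈ Zo, d / 4 ≤ |γ - v|) → 3 ≤ v → v ≤ 2 * t0 → W ≤ |v - t0| →
      ‖∫ x in (-1 : ℝ)..2, pk h lam t0 ((x : ℂ) + v * I) * (riemannZeta ((x : ℂ) + v * I))⁻¹‖ ≤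
        3 * E1 * Real.exp (-L) := by
    intro v hv1 hv2 hv3 hv4
    have := intervalIntegral.norm_integral_le_of_norm_le_const (a := -1) (b := 2) (C := E1 * Real.exp (-L))
      (f := fun x : ℝ => pk h lam t0 ((x : ℂ) + v * I) * (riemannZeta ((x : ℂ) + v * I))⁻¹) (by
        intro x hx
        rw [uIoc_of_le (by norm_num)] at hx
        rw [← mk_line, norm_mul, norm_pk]
        have h1 := hhz L t0 v d (by linarith) (by linarith) ht1 hv2 hv3 hd hd1 hv1 x hx.1.le hx.2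
        calc _ ≤ Real.exp (((x - 1 / 2) ^ 2 - (v - t0) ^ 2) / h ^ 2 + lam * (x - 1 / 2)) *
              Real.exp (66 * C2 * L ^ 2) := by gcongr
          _ ≤ Real.exp (3 / 2 * lm + -L) := by
              rw [← Real.exp_add]
              apply Real.exp_le_exp.2
              have h2 : (x - 1 / 2) ^ 2 ≤ 9 / 4 := by nlinarith [hx.1, hx.2]
              have h3 : W ^ 2 ≤ (v - t0) ^ 2 := by
                rw [← sq_abs (v - t0)]
                gcongr
              have h4 := hdecay _ h3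
              have h5 : ((x - 1 / 2) ^ 2 - (v - t0) ^ 2) / h ^ 2 ≤ (9 / 4 - (v - t0) ^ 2) / h ^ 2 := by
                gcongr
              have h6 : lam * (x - 1 / 2) ≤ lm * (3 / 2) := by
                calc lam * (x - 1 / 2) ≤ lam * (3 / 2) := by
                      apply mul_le_mul_of_nonneg_left _ hlam
                      linarith [hx.2]
                  _ ≤ _ := by gcongr
              linarith
          _ = E1 * Real.exp (-L) := by rw [Real.exp_add])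
    refine this.trans ?_
    norm_num
    linarith
  have hb1' := hhor y1 hy1d hy13 (by linarith) (by
    rw [abs_sub_comm, abs_of_nonneg (by linarith)]; linarith)
  have hb2' := hhor y2 hy2d (by linarith) (by linarith) (by
    rw [abs_of_nonneg (by linarith)]; linarith)
  unfold rect at hrect
  set Bo := ∫ x in (-1 : ℝ)..2, pk h lam t0 ((x : ℂ) + y1 * I) * (riemannZeta ((x : ℂ) + y1 * I))⁻¹ with hBo
  set To := ∫ x in (-1 : ℝ)..2, pk h lam t0 ((x : ℂ) + y2 * I) * (riemannZeta ((x : ℂ) + y2 * I))⁻¹ with hTo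
  have e1 : (∫ t in y1..y2, pk h lam t0 (((2 : ℝ) : ℂ) + t * I) * (riemannZeta (((2 : ℝ) : ℂ) + t * I))⁻¹) =
      ∫ t in y1..y2, pk h lam t0 ⟨2, t⟩ * (riemannZeta ⟨2, t⟩)⁻¹ := by
    congr 1
    funext t
    rw [← mk_line]
  have e2 : (∫ t in y1..y2, pk h lam t0 (((-1 : ℝ) : ℂ) + t * I) * (riemannZeta (((-1 : ℝ) : ℂ) + t * I))⁻¹) =
      ∫ t in y1..y2, pk h lam t0 ⟨-1, t⟩ * (riemannZeta ⟨-1, t⟩)⁻¹ := by
    congr 1
    funext t
    rw [← mk_line]
  rw [e1, e2, smul_eq_mul, smul_eq_mul] at hrect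
  set Ri := ∫ t in y1..y2, pk h lam t0 ⟨2, t⟩ * (riemannZeta ⟨2, t⟩)⁻¹ with hRi
  set Le := ∫ t in y1..y2, pk h lam t0 ⟨-1, t⟩ * (riemannZeta ⟨-1, t⟩)⁻¹ with hLe
  -- the right side
  have hfull := ps_formula hh0 lam t0
  have hRi1 : ‖Ri‖ ≤ h * Real.sqrt Real.pi * ‖PS h lam t0‖ + 3 * E1 * (3 * H) * Real.exp (-L) := by
    set f : ℝ → ℂ := fun t => pk h lam t0 ⟨2, t⟩ * (riemannZeta ⟨2, t⟩)⁻¹ with hf
    have hfc : Continuous f := by
      have h1 := cont_zeta_two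
      have h2 : Continuous (fun t : ℝ => pk h lam t0 ⟨2, t⟩) := (pk_diff h lam t0).continuous.comp cont_two
      exact h2.mul h1
    have h1 := gtail (f := f) hfc.aestronglyMeasurable (K := 3 * Real.exp ((9 / 4) / h ^ 2 + 3 / 2 * lm))
      (t := t0) (W := W) (b := 1 / h ^ 2) (U1 := y1) (U2 := y2) (by positivity) (by positivity) (by
        intro v
        simp only [hf]
        rw [norm_mul, norm_pk]
        have h2 := norm_inv_zeta_two v
        calc _ ≤ Real.exp ((((2 : ℝ) - 1 / 2) ^ 2 - (v - t0) ^ 2) / h ^ 2 + lam * ((2 : ℝ) - 1 / 2)) * 3 := by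
              gcongr
          _ ≤ Real.exp (((9 / 4) / h ^ 2 + 3 / 2 * lm) + -(1 / h ^ 2) * (v - t0) ^ 2) * 3 := by
              apply mul_le_mul_of_nonneg_right _ (by norm_num)
              apply Real.exp_le_exp.2
              have h3 : (((2 : ℝ) - 1 / 2) ^ 2 - (v - t0) ^ 2) / h ^ 2 =
                (9 / 4) / h ^ 2 + -(1 / h ^ 2) * (v - t0) ^ 2 := by ring
              rw [h3]
              have h4 : lam * ((2 : ℝ) - 1 / 2) ≤ 3 / 2 * lm := by linarith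
              linarith
          _ = _ := by rw [Real.exp_add]; ring) (by linarith) hy1b' hy2a
    have h2 : (∫ t : ℝ, f t) = ((h * Real.sqrt Real.pi : ℝ) : ℂ) * cexp (((lam * t0 : ℝ) : ℂ) * I) *
        PS h lam t0 := hfull
    rw [h2] at h1
    have h3 : ‖((h * Real.sqrt Real.pi : ℝ) : ℂ) * cexp (((lam * t0 : ℝ) : ℂ) * I) * PS h lam t0‖ =
        h * Real.sqrt Real.pi * ‖PS h lam t0‖ := by
      rw [norm_mul, norm_mul, Complex.norm_exp_ofReal_mul_I, mul_one, Complex.norm_real, Real.norm_eq_abs,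
        abs_of_pos (by positivity)]
    have h4 : Real.sqrt (Real.pi / (1 / h ^ 2 / 2)) ≤ 3 * H := by
      have h5 : Real.pi / (1 / h ^ 2 / 2) = 2 * Real.pi * h ^ 2 := by field_simp
      rw [h5, Real.sqrt_le_left (by positivity)]
      have h6 := Real.pi_lt_four
      nlinarith [sq_nonneg h]
    have h5 : Real.exp ((9 / 4) / h ^ 2 + 3 / 2 * lm) * Real.exp (-(1 / h ^ 2 / 2) * W ^ 2) ≤
        E1 * Real.exp (-L) := by
      rw [← Real.exp_add, hE1, ← Real.exp_add]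
      apply Real.exp_le_exp.2
      have h6 : (66 * C2 + 20) * L ^ 2 * 2 ≤ W ^ 2 / 2 / h ^ 2 := by
        rw [le_div_iff₀ (by positivity)]
        have h1 : (66 * C2 + 20) * L ^ 2 * (4 * H ^ 2) ≤ W ^ 2 := by
          have h10 : (66 * C2 + 20) ≤ (66 * C2 + 20) ^ 2 := by nlinarith
          calc (66 * C2 + 20) * L ^ 2 * (4 * H ^ 2) ≤ (66 * C2 + 20) ^ 2 * L ^ 2 * (4 * H ^ 2) := by gcongr
            _ = W ^ 2 := by rw [hW, hW0]; ring
        have h4 : (66 * C2 + 20) * L ^ 2 * 2 * h ^ 2 ≤ (66 * C2 + 20) * L ^ 2 * 2 * H ^ 2 := by gcongr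
        nlinarith
      have h7 : -(1 / h ^ 2 / 2) * W ^ 2 = -(W ^ 2 / 2 / h ^ 2) := by ring
      rw [h7]
      have h8 : L ≤ L ^ 2 := by nlinarith
      have h9 : 0 ≤ C2 * L ^ 2 := by positivity
      linarith
    have h6 : ‖Ri‖ ≤ ‖(∫ t : ℝ, f t)‖ + ‖(∫ t : ℝ, f t) - ∫ v in y1..y2, f v‖ := by
      have h7 : Ri = (∫ t : ℝ, f t) - ((∫ t : ℝ, f t) - ∫ v in y1..y2, f v) := by
        rw [sub_sub_cancel]
      rw [h7]
      exact norm_sub_le _ _
    rw [h2] at h6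
    rw [h3] at h6
    refine h6.trans ?_
    gcongr
    refine h1.trans ?_
    calc 3 * Real.exp ((9 / 4) / h ^ 2 + 3 / 2 * lm) * (Real.exp (-(1 / h ^ 2 / 2) * W ^ 2) *
          Real.sqrt (Real.pi / (1 / h ^ 2 / 2)))
        = 3 * (Real.exp ((9 / 4) / h ^ 2 + 3 / 2 * lm) * Real.exp (-(1 / h ^ 2 / 2) * W ^ 2)) *
          Real.sqrt (Real.pi / (1 / h ^ 2 / 2)) := by ring
      _ ≤ 3 * (E1 * Real.exp (-L)) * (3 * H) := by gcongr
      _ = _ := by ring
  -- the left side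
  have hLe1 : ‖Le‖ ≤ C3 * Real.exp (3 / 2) * (Real.sqrt Real.pi * H) * Real.exp (-(L / 2)) := by
    have h1 := gbound (f := fun t => pk h lam t0 ⟨-1, t⟩ * (riemannZeta ⟨-1, t⟩)⁻¹)
      (K := Real.exp ((9 / 4) / h ^ 2) * (C3 * (Real.exp (3 / 2) * Real.exp (-(3 / 2 * L))))) (t := t0)
      (b := 1 / h ^ 2) (U1 := y1) (U2 := y2) (by positivity) hy12.le (by positivity) (by
        intro t ht
        have ht1 : 1 ≤ t := by linarith [ht.1]
        have h2 := hlz t ht1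
        have h3 : (-1 + (t : ℂ) * I) = ⟨-1, t⟩ := by apply Complex.ext <;> simp
        rw [h3] at h2
        have h4 : t ^ (-(3 / 2 : ℝ)) ≤ Real.exp (3 / 2) * Real.exp (-(3 / 2 * L)) := by
          have h5 : Real.exp (L - 1) ≤ t := by
            have h6 : Real.exp (L - 1) ≤ Real.exp L / 2 := by
              rw [Real.exp_sub]
              apply div_le_div_of_nonneg_left hexp.le (by norm_num)
              have := Real.exp_one_gt_d9
              linarith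
            linarith [ht.1]
          calc t ^ (-(3 / 2 : ℝ)) ≤ (Real.exp (L - 1)) ^ (-(3 / 2 : ℝ)) :=
                Real.rpow_le_rpow_of_nonpos (Real.exp_pos _) h5 (by norm_num)
            _ = _ := by
                rw [← Real.exp_mul, ← Real.exp_add]
                congr 1
                ring
        rw [norm_mul, norm_pk]
        calc _ ≤ Real.exp ((((-1 : ℝ)) - 1 / 2) ^ 2 / h ^ 2 + -(1 / h ^ 2) * (t - t0) ^ 2) *
              (C3 * (Real.exp (3 / 2) * Real.exp (-(3 / 2 * L)))) := by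
              apply mul_le_mul
              · apply Real.exp_le_exp.2
                have h6 : (((-1 : ℝ) - 1 / 2) ^ 2 - (t - t0) ^ 2) / h ^ 2 =
                  (((-1 : ℝ)) - 1 / 2) ^ 2 / h ^ 2 + -(1 / h ^ 2) * (t - t0) ^ 2 := by ring
                rw [h6]
                linarith
              · exact h2.trans (mul_le_mul_of_nonneg_left h4 hC3.le)
              · exact norm_nonneg _
              · exact (Real.exp_pos _).le
          _ = _ := by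
              rw [Real.exp_add]
              norm_num
              ring)
    refine h1.trans ?_
    have h5 : Real.sqrt (Real.pi / (1 / h ^ 2)) = Real.sqrt Real.pi * h := by
      rw [show Real.pi / (1 / h ^ 2) = Real.pi * h ^ 2 by field_simp, Real.sqrt_mul hpi.le,
        Real.sqrt_sq hh0.le]
    rw [h5]
    have h6 : Real.exp ((9 / 4) / h ^ 2) * Real.exp (-(3 / 2 * L)) ≤ Real.exp (-(L / 2)) := by
      rw [← Real.exp_add]
      apply Real.exp_le_exp.2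
      linarith
    calc Real.exp ((9 / 4) / h ^ 2) * (C3 * (Real.exp (3 / 2) * Real.exp (-(3 / 2 * L)))) * (Real.sqrt Real.pi * h)
        = C3 * Real.exp (3 / 2) * (Real.sqrt Real.pi * h) *
          (Real.exp ((9 / 4) / h ^ 2) * Real.exp (-(3 / 2 * L))) := by ring
      _ ≤ C3 * Real.exp (3 / 2) * (Real.sqrt Real.pi * H) * Real.exp (-(L / 2)) := by gcongr
  -- combine
  have hSSn : 2 * Real.pi * ‖SS‖ ≤ ‖Bo‖ + ‖To‖ + ‖Ri‖ + ‖Le‖ := by
    have h2 : ‖2 * (Real.pi : ℂ) * I * SS‖ = 2 * Real.pi * ‖SS‖ := by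
      rw [norm_mul, norm_mul, norm_mul, norm_I, mul_one, Complex.norm_real, Real.norm_eq_abs,
        abs_of_pos Real.pi_pos]
      norm_num
    rw [← h2, ← hrect]
    refine (norm_sub_le _ _).trans ?_
    rw [norm_mul, norm_I, one_mul]
    have h3 : ‖Bo - To + I * Ri‖ ≤ ‖Bo‖ + ‖To‖ + ‖Ri‖ := by
      refine (norm_add_le _ _).trans ?_
      rw [norm_mul, norm_I, one_mul]
      have := norm_sub_le Bo To
      linarith
    linarith
  have hPS0 : 0 ≤ ‖PS h lam t0‖ := norm_nonneg _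
  have hsq : Real.sqrt Real.pi ≤ 2 := by
    rw [Real.sqrt_le_left (by norm_num)]
    linarith [Real.pi_lt_four]
  have h1 : ‖SS‖ ≤ 2 * Real.pi * ‖SS‖ / 2 := by
    have := Real.pi_gt_three
    nlinarith [norm_nonneg SS]
  have h2 : h * Real.sqrt Real.pi * ‖PS h lam t0‖ ≤ h * 2 * ‖PS h lam t0‖ := by gcongr
  have h3 : 6 * E1 * Real.exp (-L) ≤ 6 * E1 * Real.exp (-(L / 2)) := by gcongr
  have h4 : 3 * E1 * (3 * H) * Real.exp (-L) ≤ 3 * E1 * (3 * H) * Real.exp (-(L / 2)) := by gcongr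
  have h5 : 0 < Real.exp (-(L / 2)) := Real.exp_pos _
  have h6 : (CC + 1) * Real.exp (-(L / 2)) = 6 * E1 * Real.exp (-(L / 2)) +
      3 * E1 * (3 * H) * Real.exp (-(L / 2)) +
      C3 * Real.exp (3 / 2) * (Real.sqrt Real.pi * H) * Real.exp (-(L / 2)) + Real.exp (-(L / 2)) := by
    rw [hCC]; ring
  have h7 : 0 ≤ CC * Real.exp (-(L / 2)) := by positivity
  rw [h6]
  have h8 : CC * Real.exp (-(L / 2)) = 6 * E1 * Real.exp (-(L / 2)) +
      3 * E1 * (3 * H) * Real.exp (-(L / 2)) +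
      C3 * Real.exp (3 / 2) * (Real.sqrt Real.pi * H) * Real.exp (-(L / 2)) := by
    rw [hCC]; ring
  linarith

end Pool.Agent.N806.AH
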