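import Pool.Agent.N806.AH.Pure

/-! Mean square of the Dirichlet series `PS`. -/

set_option autoImplicit false

open Complex Filter Topology Set MeasureTheory Metric

namespace Pool.Agent.N806.AH

lemma log_step {n : ℕ} (hn : 1 ≤ n) {x : ℝ} (h1 : (n : ℝ) ≤ x) (h2 : x ≤ ((n + 1 : ℕ) : ℝ)) (lam : ℝ) :
    (lam - Real.log x) ^ 2 ≤ 2 * (lam - Real.log ((n + 1 : ℕ) : ℝ)) ^ 2 + 1 := by
  have hn0 : (0 : ℝ) < n := by exact_mod_cast hn
  have hn1 : (1 : ℝ) ≤ n := by exact_mod_cast hn
  have hx : 0 < x := by linarith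
  have h3 : Real.log x ≤ Real.log ((n + 1 : ℕ) : ℝ) := Real.log_le_log hx h2
  have h4 : Real.log ((n + 1 : ℕ) : ℝ) - Real.log x ≤ 0.7 := by
    rw [← Real.log_div (by positivity) hx.ne']
    have h5 : ((n + 1 : ℕ) : ℝ) / x ≤ 2 := by
      rw [div_le_iff₀ hx]
      push_cast
      linarith
    have h6 := Real.log_le_log (by positivity) h5
    have := Real.log_two_lt_d9
    linarith
  set a := lam - Real.log ((n + 1 : ℕ) : ℝ)
  set b := Real.log ((n + 1 : ℕ) : ℝ) - Real.log x
  have h5 : lam - Real.log x = a + b := by ring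
  rw [h5]
  have h6 : 0 ≤ b := by linarith
  nlinarith [sq_nonneg (a - b)]

lemma gsum {A : ℝ} (hA : 0 < A) (lam : ℝ) (N : ℕ) :
    ∑ n ∈ Finset.Icc 1 N, (1 / (n : ℝ)) * Real.exp (-(A * (lam - Real.log n) ^ 2)) ≤
      1 + Real.exp (A / 2) * Real.sqrt (Real.pi / (A / 2)) := by
  set f : ℝ → ℝ := fun x => x⁻¹ * (Real.exp (A / 2) * Real.exp (-(A / 2) * (Real.log x - lam) ^ 2)) with hf
  have hfc : ∀ a b : ℝ, 0 < a → a ≤ b → ContinuousOn f (uIcc a b) := by
    intro a b ha hab
    rw [uIcc_of_le hab]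
    intro x hx
    have hx0 : x ≠ 0 := by linarith [hx.1]
    simp only [hf]
    apply ContinuousAt.continuousWithinAt
    have h1 : ContinuousAt Real.log x := Real.continuousAt_log hx0
    have h2 : ContinuousAt (fun x : ℝ => x⁻¹) x := continuousAt_inv₀ hx0
    exact h2.mul (continuousAt_const.mul
      ((continuousAt_const.mul ((h1.sub continuousAt_const).pow 2)).rexp))
  have key : ∀ N : ℕ, ∑ n ∈ Finset.Icc 1 (N + 1), (1 / (n : ℝ)) * Real.exp (-(A * (lam - Real.log n) ^ 2)) ≤
      1 + ∫ x in (1 : ℝ)..((N + 1 : ℕ) : ℝ), f x := by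
    intro N
    induction N with
    | zero =>
      simp only [zero_add, Finset.Icc_self, Finset.sum_singleton, Nat.cast_one, div_one, one_mul,
        intervalIntegral.integral_same, add_zero]
      apply Real.exp_le_one_iff.2
      have : 0 ≤ A * (lam - Real.log 1) ^ 2 := by positivity
      linarith
    | succ N ih =>
      rw [Finset.sum_Icc_succ_top (by omega)]
      have hN1 : (1 : ℝ) ≤ ((N + 1 : ℕ) : ℝ) := by push_cast; linarith [Nat.cast_nonneg (α := ℝ) N]
      have hlt : ((N + 1 : ℕ) : ℝ) ≤ ((N + 1 + 1 : ℕ) : ℝ) := by push_cast; linarith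
      have hgap : ((N + 1 + 1 : ℕ) : ℝ) - ((N + 1 : ℕ) : ℝ) = 1 := by push_cast; ring
      have h1 : IntervalIntegrable f volume 1 ((N + 1 : ℕ) : ℝ) :=
        (hfc _ _ one_pos hN1).intervalIntegrable
      have h2 : IntervalIntegrable f volume ((N + 1 : ℕ) : ℝ) ((N + 1 + 1 : ℕ) : ℝ) :=
        (hfc _ _ (by linarith) hlt).intervalIntegrable
      rw [← intervalIntegral.integral_add_adjacent_intervals h1 h2]
      have h3 : (1 / ((N + 1 + 1 : ℕ) : ℝ)) *
          Real.exp (-(A * (lam - Real.log ((N + 1 + 1 : ℕ) : ℝ)) ^ 2)) ≤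
          ∫ x in ((N + 1 : ℕ) : ℝ)..((N + 1 + 1 : ℕ) : ℝ), f x := by
        set c := (1 / ((N + 1 + 1 : ℕ) : ℝ)) *
          Real.exp (-(A * (lam - Real.log ((N + 1 + 1 : ℕ) : ℝ)) ^ 2)) with hc
        have h4 : c = ∫ x in ((N + 1 : ℕ) : ℝ)..((N + 1 + 1 : ℕ) : ℝ), c := by
          rw [intervalIntegral.integral_const, hgap, one_smul]
        rw [h4]
        apply intervalIntegral.integral_mono_on hlt intervalIntegrable_const h2
        intro x hx
        have hx0 : 0 < x := by linarith [hx.1]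
        have h5 := log_step (n := N + 1) (by omega) hx.1 hx.2 lam
        simp only [hf, hc]
        rw [← Real.exp_add, one_div]
        apply mul_le_mul
        · exact inv_anti₀ hx0 hx.2
        · apply Real.exp_le_exp.2
          have h6 : (Real.log x - lam) ^ 2 = (lam - Real.log x) ^ 2 := by ring
          rw [h6]
          nlinarith
        · exact (Real.exp_pos _).le
        · positivity
      linarith
  have hint : ∀ M : ℝ, 1 ≤ M → ∫ x in (1 : ℝ)..M, f x ≤ Real.exp (A / 2) * Real.sqrt (Real.pi / (A / 2)) := by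
    intro M hM
    set g : ℝ → ℝ := fun v => Real.exp (A / 2) * Real.exp (-(A / 2) * (v - lam) ^ 2) with hg
    have hgc : Continuous g := by simp only [hg]; fun_prop
    have h1 : ∫ x in (1 : ℝ)..M, f x = ∫ v in (Real.log 1)..(Real.log M), g v := by
      have h2 := intervalIntegral.integral_comp_mul_deriv'' (a := 1) (b := M) (f := Real.log)
        (f' := fun x => x⁻¹) (g := g)
        (by
          rw [uIcc_of_le hM]
          intro x hx
          exact (Real.continuousAt_log (by linarith [hx.1])).continuousWithinAt)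
        (by
          intro x hx
          rw [min_eq_left hM, max_eq_right hM] at hx
          exact (Real.hasDerivAt_log (by linarith [hx.1])).hasDerivWithinAt)
        (by
          rw [uIcc_of_le hM]
          intro x hx
          exact (continuousAt_inv₀ (by linarith [hx.1])).continuousWithinAt)
        hgc.continuousOn
      rw [← h2]
      apply intervalIntegral.integral_congr
      intro x _
      simp only [hf, hg, Function.comp]
      ring
    rw [h1, Real.log_one]
    have hgi : Integrable g := (gint_b lam (A / 2) (by positivity)).const_mul _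
    calc ∫ v in (0 : ℝ)..(Real.log M), g v = ∫ v in Ioc 0 (Real.log M), g v := by
          rw [intervalIntegral.integral_of_le (Real.log_nonneg hM)]
      _ ≤ ∫ v, g v := by
          apply setIntegral_le_integral hgi
          exact Eventually.of_forall fun v => by simp only [hg]; positivity
      _ = _ := by
          simp only [hg]
          rw [integral_const_mul, gval_b]
  rcases N with _ | N
  · simp only [show Finset.Icc 1 0 = (∅ : Finset ℕ) from rfl, Finset.sum_empty]
    positivity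
  · refine (key N).trans ?_
    have := hint ((N + 1 : ℕ) : ℝ) (by push_cast; linarith [Nat.cast_nonneg (α := ℝ) N])
    linarith

theorem ps_ms {Cr H lm : ℝ} (hCr : 1 ≤ Cr) (hH : 1 ≤ H) (hlm : 0 ≤ lm) : ∃ C : ℝ, 1 ≤ C ∧
    ∀ L : ℝ, 3 ≤ L → ∀ h lam : ℝ, 2 / Real.sqrt L ≤ h → h ≤ H → 0 ≤ lam → lam ≤ lm →
    ∫ t in (0 : ℝ)..(Cr * Real.exp L), ‖PS h lam t‖ ^ 2 ≤ C / h * Real.exp L := by
  set CH : ℝ := H + Real.exp (H ^ 2 / 4) * Real.sqrt (4 * Real.pi) with hCH
  have hCH0 : 1 ≤ CH := by
    have : 0 ≤ Real.exp (H ^ 2 / 4) * Real.sqrt (4 * Real.pi) := by positivity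
    linarith
  refine ⟨6 * (6 * Cr * CH + 52 * Real.exp (2 * lm) * H), ?_, ?_⟩
  · have : 0 ≤ 52 * Real.exp (2 * lm) * H := by positivity
    nlinarith
  intro L hL h lam hh hhH hlam hlam1
  have hL0 : 0 < L := by linarith
  have hsL : 0 < Real.sqrt L := Real.sqrt_pos.2 hL0
  have hh0 : 0 < h := lt_of_lt_of_le (by positivity) hh
  have hexp : 0 < Real.exp L := Real.exp_pos L
  have hexp8 : 8 ≤ Real.exp L := by
    have h1 : Real.exp 3 ≤ Real.exp L := Real.exp_le_exp.2 hL
    have h3 := Real.exp_one_gt_d9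
    have h4 : Real.exp 3 = Real.exp 1 ^ 3 := by rw [← Real.exp_nat_mul]; norm_num
    rw [h4] at h1
    have h5 : (2.7 : ℝ) ≤ Real.exp 1 := by linarith
    have h6 : (2.7 : ℝ) ^ 3 ≤ Real.exp 1 ^ 3 := by gcongr
    norm_num at h6 ⊢
    linarith
  have hD8 : 8 ≤ Cr * Real.exp L - 0 := by nlinarith
  have h2h : 2 / h ^ 2 ≤ L / 2 := by
    have h1 : (2 / Real.sqrt L) ^ 2 ≤ h ^ 2 := by gcongr
    rw [div_pow, Real.sq_sqrt hL0.le] at h1
    rw [div_le_iff₀ (by positivity)]
    rw [div_le_iff₀ hL0] at h1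
    nlinarith
  have key := mv_tsum (bP h lam) (bP_summable hh0)
    (S := (6 * Cr * CH + 52 * Real.exp (2 * lm) * H) / h * Real.exp L)
    (A := 0) (B := Cr * Real.exp L) hD8 (by
    intro N
    rw [sub_zero]
    have hb : ∀ n ∈ Finset.Icc 1 N, ‖bP h lam n‖ ^ 2 * (6 * (Cr * Real.exp L) + 26 * n) ≤
        6 * (Cr * Real.exp L) * ((1 / (n : ℝ)) * Real.exp (-(h ^ 2 / 2 * (lam - Real.log n) ^ 2))) +
          26 * (Real.exp (L / 2 + 2 * lm) * (1 / (n : ℝ) ^ 2)) := by
      intro n hn
      rw [Finset.mem_Icc] at hn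
      have hn0 : (0 : ℝ) < n := by exact_mod_cast hn.1
      have h1 := norm_bP h lam n
      have h2 : ‖bP h lam n‖ ^ 2 ≤ (1 / (n : ℝ)) * Real.exp (-(h ^ 2 / 2 * (lam - Real.log n) ^ 2)) := by
        calc ‖bP h lam n‖ ^ 2 ≤ ((n : ℝ) ^ (-(1 / 2 : ℝ)) *
              Real.exp (-(h ^ 2 * (lam - Real.log n) ^ 2 / 4))) ^ 2 := by gcongr
          _ = _ := by
              rw [mul_pow, ← Real.exp_nat_mul, ← Real.rpow_natCast, ← Real.rpow_mul hn0.le]
              congr 1
              · rw [show (-(1 / 2 : ℝ)) * ((2 : ℕ) : ℝ) = -1 by norm_num, Real.rpow_neg_one, one_div]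
              · congr 1
                push_cast
                ring
      have h3 := bP_exp (lam := lam) hh0 hn.1 (h ^ 2 / 2) (by positivity)
      have h4 : Real.exp (1 / (h ^ 2 / 2) + 2 * lam) ≤ Real.exp (L / 2 + 2 * lm) := by
        apply Real.exp_le_exp.2
        have : 1 / (h ^ 2 / 2) = 2 / h ^ 2 := by field_simp
        rw [this]
        linarith
      have h5 : ‖bP h lam n‖ ^ 2 * n ≤ Real.exp (L / 2 + 2 * lm) * (1 / (n : ℝ) ^ 2) := by
        calc ‖bP h lam n‖ ^ 2 * n ≤ (1 / (n : ℝ)) * Real.exp (-(h ^ 2 / 2 * (lam - Real.log n) ^ 2)) * n := by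
              gcongr
          _ = Real.exp (-(h ^ 2 / 2 * (lam - Real.log n) ^ 2)) := by field_simp
          _ ≤ _ := h3.trans (by gcongr)
      calc ‖bP h lam n‖ ^ 2 * (6 * (Cr * Real.exp L) + 26 * n)
          = 6 * (Cr * Real.exp L) * ‖bP h lam n‖ ^ 2 + 26 * (‖bP h lam n‖ ^ 2 * n) := by ring
        _ ≤ _ := by
            apply add_le_add
            · apply mul_le_mul_of_nonneg_left h2 (by positivity)
            · apply mul_le_mul_of_nonneg_left h5 (by norm_num)
    refine (Finset.sum_le_sum hb).trans ?_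
    rw [Finset.sum_add_distrib, ← Finset.mul_sum, ← Finset.mul_sum, ← Finset.mul_sum]
    have h1 := gsum (A := h ^ 2 / 2) (by positivity) lam N
    have h2 : 1 + Real.exp (h ^ 2 / 2 / 2) * Real.sqrt (Real.pi / (h ^ 2 / 2 / 2)) ≤ CH / h := by
      rw [le_div_iff₀ hh0]
      have h3 : Real.sqrt (Real.pi / (h ^ 2 / 2 / 2)) = Real.sqrt (4 * Real.pi) / h := by
        rw [show Real.pi / (h ^ 2 / 2 / 2) = (4 * Real.pi) / h ^ 2 by field_simp; norm_num,
          Real.sqrt_div (by positivity), Real.sqrt_sq hh0.le]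
      rw [h3]
      have h4 : Real.exp (h ^ 2 / 2 / 2) ≤ Real.exp (H ^ 2 / 4) := by
        apply Real.exp_le_exp.2
        have : h ^ 2 ≤ H ^ 2 := by gcongr
        linarith
      calc (1 + Real.exp (h ^ 2 / 2 / 2) * (Real.sqrt (4 * Real.pi) / h)) * h
          = h + Real.exp (h ^ 2 / 2 / 2) * Real.sqrt (4 * Real.pi) := by field_simp
        _ ≤ CH := by rw [hCH]; gcongr
    have h3 : ∑ n ∈ Finset.Icc 1 N, 1 / (n : ℝ) ^ 2 ≤ 2 := by
      rcases Nat.eq_zero_or_pos N with h0 | h0
      · subst h0; simp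
      · have h5 : Finset.Icc 1 N = insert 1 (Finset.Ioc 1 N) := by
          ext x
          simp only [Finset.mem_Icc, Finset.mem_insert, Finset.mem_Ioc]
          omega
        rw [h5, Finset.sum_insert (by simp)]
        have := tail_sq 1 N le_rfl
        norm_num at this ⊢
        linarith
    have h4 : Real.exp (L / 2 + 2 * lm) ≤ Real.exp (2 * lm) * Real.exp L := by
      rw [← Real.exp_add]
      apply Real.exp_le_exp.2
      linarith
    calc _ ≤ 6 * (Cr * Real.exp L) * (CH / h) + 26 * (Real.exp (2 * lm) * Real.exp L * 2) := by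
          apply add_le_add
          · exact mul_le_mul_of_nonneg_left (h1.trans h2) (by positivity)
          · gcongr
      _ ≤ 6 * (Cr * Real.exp L) * (CH / h) + 26 * (Real.exp (2 * lm) * Real.exp L * 2) * (H / h) := by
          have : 1 ≤ H / h := by rw [le_div_iff₀ hh0]; linarith
          have h6 : 0 ≤ 26 * (Real.exp (2 * lm) * Real.exp L * 2) := by positivity
          nlinarith
      _ = _ := by ring) (by simp [bP, mu_zero])
  unfold PS
  refine key.trans (le_of_eq ?_)
  ring

end Pool.Agent.N806.AH
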