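import Pool.Agent.N806.AH.Loc
import Pool.Agent.N806.AH.Chi2
import Pool.Agent.H640R3.EG.Res

/-! Residue theorem in windows. -/

set_option autoImplicit false

open Complex Filter Topology Set MeasureTheory Metric

namespace Pool.Agent.N806.AH

open H345 Pool.Agent.H640R3.EG Pool.Agent.H810R2.CSd

lemma zo_finite (a b : ℝ) : (Zo ∩ Icc a b).Finite := by
  have hcomp : IsCompact (Icc (1 / 2 : ℝ) (1 / 2) ×ℂ Icc a b) := isCompact_Icc.reProdIm isCompact_Icc
  have h := hcomp.inter_riemannZetaZeros_finite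
  have h2 : (Zo ∩ Icc a b) ⊆ Complex.im '' ((Icc (1 / 2 : ℝ) (1 / 2) ×ℂ Icc a b) ∩ riemannZetaZeros) := by
    rintro t ⟨h1, h2⟩
    refine ⟨1 / 2 + (t : ℂ) * I, ⟨⟨by simp, by simpa using h2⟩, h1⟩, by simp⟩
  exact (h.image _).subset h2

/-- the ordinates of the zeros in `[a, b]` -/
noncomputable def ZF (a b : ℝ) : Finset ℝ := (zo_finite a b).toFinset

lemma mem_ZF {a b t : ℝ} : t ∈ ZF a b ↔ t ∈ Zo ∧ a ≤ t ∧ t ≤ b := by
  unfold ZF
  rw [Set.Finite.mem_toFinset]
  rfl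

lemma lim_simple {g k : ℂ → ℂ} {p : ℂ} (hk : DifferentiableAt ℂ k p)
    (hg : ∀ᶠ z in 𝓝[≠] p, g z = k z * (z - p)⁻¹) :
    ∃ L, Tendsto (fun z => g z - k p * (z - p)⁻¹) (𝓝[≠] p) (𝓝 L) := by
  refine ⟨deriv k p, ?_⟩
  have h1 := hasDerivAt_iff_tendsto_slope.1 hk.hasDerivAt
  refine h1.congr' ?_
  filter_upwards [hg] with z hz
  rw [slope_def_field, hz]
  ring

lemma zeta_ana {s : ℂ} (hs : s ≠ 1) : AnalyticAt ℂ riemannZeta s := by
  have hd : DifferentiableOn ℂ riemannZeta {1}ᶜ := fun z hz =>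
    (differentiableAt_riemannZeta hz).differentiableWithinAt
  exact hd.analyticAt (isOpen_compl_singleton.mem_nhds hs)

/-- residues at a simple zero of zeta -/
lemma lim_zero {Ψ : ℂ → ℂ} {ρ : ℂ} (him : 0 < ρ.im) (h0 : riemannZeta ρ = 0)
    (hs : deriv riemannZeta ρ ≠ 0) (hΨ : DifferentiableAt ℂ Ψ ρ) :
    ∃ L, Tendsto (fun z => Ψ z * (riemannZeta z)⁻¹ - Ψ ρ * (deriv riemannZeta ρ)⁻¹ * (z - ρ)⁻¹)
      (𝓝[≠] ρ) (𝓝 L) := by
  have hne : ρ ≠ 1 := by
    intro h
    rw [h] at him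
    simp at him
  have hd : DifferentiableOn ℂ riemannZeta {1}ᶜ := fun z hz =>
    (differentiableAt_riemannZeta hz).differentiableWithinAt
  have hopen : ({1}ᶜ : Set ℂ) ∈ 𝓝 ρ := isOpen_compl_singleton.mem_nhds hne
  have hds : DifferentiableAt ℂ (dslope riemannZeta ρ) ρ :=
    (((Complex.differentiableOn_dslope hopen).2 hd) ρ hne).differentiableAt hopen
  have hval : dslope riemannZeta ρ ρ = deriv riemannZeta ρ := dslope_same _ _
  have hk : DifferentiableAt ℂ (fun z => Ψ z * (dslope riemannZeta ρ z)⁻¹) ρ :=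
    hΨ.mul (hds.inv (by rw [hval]; exact hs))
  have := lim_simple (g := fun z => Ψ z * (riemannZeta z)⁻¹) hk (by
    filter_upwards [self_mem_nhdsWithin] with z hz
    have hz' : z ≠ ρ := hz
    have h1 := sub_smul_dslope riemannZeta ρ z
    rw [h0, sub_zero, smul_eq_mul] at h1
    rw [← h1, mul_inv]
    ring)
  simpa [hval] using this

/-- residue theorem for `Φ / ζ` in a window -/
theorem rect_zeta (hRH : RiemannHypothesis) {x0 x1 y1 y2 : ℝ} (hx0 : x0 < 1 / 2) (hx1 : 1 / 2 < x1)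
    (hy1 : 1 ≤ y1) (hy : y1 < y2) (hy1z : y1 ∉ Zo) (hy2z : y2 ∉ Zo)
    (hsim : ∀ γ ∈ Zo, y1 ≤ γ → γ ≤ y2 → deriv riemannZeta (1 / 2 + (γ : ℂ) * I) ≠ 0)
    {Φ : ℂ → ℂ} (hΦ : ∀ z : ℂ, z.re ∈ Icc x0 x1 → z.im ∈ Icc y1 y2 → DifferentiableAt ℂ Φ z) :
    rect x0 x1 y1 y2 (fun z => Φ z * (riemannZeta z)⁻¹) =
      2 * Real.pi * I * ∑ γ ∈ ZF y1 y2, Φ (1 / 2 + (γ : ℂ) * I) * aa γ := by
  classical
  have hinj : Function.Injective (fun γ : ℝ => (1 / 2 : ℂ) + (γ : ℂ) * I) := by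
    intro a b hab
    have := congrArg Complex.im hab
    simpa using this
  set S : Finset ℂ := (ZF y1 y2).image (fun γ : ℝ => (1 / 2 : ℂ) + (γ : ℂ) * I) with hS
  have hSmem : ∀ s ∈ S, ∃ γ ∈ ZF y1 y2, (1 / 2 : ℂ) + (γ : ℂ) * I = s := by
    intro s hs
    rw [hS, Finset.mem_image] at hs
    exact hs
  have hstrict : ∀ γ ∈ ZF y1 y2, y1 < γ ∧ γ < y2 := by
    intro γ hγ
    rw [mem_ZF] at hγ
    refine ⟨lt_of_le_of_ne hγ.2.1 ?_, lt_of_le_of_ne hγ.2.2 ?_⟩
    · intro h; rw [← h] at hγ; exact hy1z hγ.1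
    · intro h; rw [h] at hγ; exact hy2z hγ.1
  have key := rect_simple (g := fun z => Φ z * (riemannZeta z)⁻¹) (x₀ := x0) (x₁ := x1)
    (y₀ := y1) (y₁ := y2) (by linarith) hy S
    (fun s => Φ s * (deriv riemannZeta s)⁻¹) (by
      intro s hs
      obtain ⟨γ, hγ, rfl⟩ := hSmem s hs
      have := hstrict γ hγ
      refine ⟨?_, ?_⟩
      · have : ((1 / 2 : ℂ) + (γ : ℂ) * I).re = 1 / 2 := by simp
        rw [this]; exact ⟨hx0, hx1⟩
      · have h2 : ((1 / 2 : ℂ) + (γ : ℂ) * I).im = γ := by simp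
        rw [h2]; exact this) (by
      intro z h1 h2 hz
      have him : 0 < z.im := by have := h2.1; linarith
      have hζ : riemannZeta z ≠ 0 := by
        intro h0
        apply hz
        rw [hS, Finset.mem_image]
        refine ⟨z.im, ?_, (eq_half (re_half hRH h0 him)).symm⟩
        rw [mem_ZF]
        exact ⟨mem_Zo hRH h0 him, h2.1, h2.2⟩
      have hz1 : z ≠ 1 := by
        intro h
        rw [h] at him
        simp at him
      exact (hΦ z h1 h2).mul ((differentiableAt_riemannZeta hz1).inv hζ)) (by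
      intro s hs
      obtain ⟨γ, hγ, rfl⟩ := hSmem s hs
      have hγ' := mem_ZF.1 hγ
      apply lim_zero
      · simp; linarith [hγ'.2.1]
      · exact hγ'.1
      · exact hsim γ hγ'.1 hγ'.2.1 hγ'.2.2
      · apply hΦ
        · simp only [add_re, mul_re, ofReal_re, I_re, mul_zero, ofReal_im, I_im, mul_one, sub_self,
            add_zero]
          constructor
          · norm_num; linarith
          · norm_num; linarith
        · simp; exact ⟨hγ'.2.1, hγ'.2.2⟩)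
  rw [key, hS, Finset.sum_image (fun a _ b _ hab => hinj hab)]
  rfl

/-- residue theorem for `Φ / (ζ (s - s0))` in a window -/
theorem rect_zeta_pole (hRH : RiemannHypothesis) {x0 x1 y1 y2 : ℝ} (hx0 : x0 < 1 / 2) (hx1 : 1 / 2 < x1)
    (hy1 : 1 ≤ y1) (hy : y1 < y2) (hy1z : y1 ∉ Zo) (hy2z : y2 ∉ Zo)
    (hsim : ∀ γ ∈ Zo, y1 ≤ γ → γ ≤ y2 → deriv riemannZeta (1 / 2 + (γ : ℂ) * I) ≠ 0)
    {Φ : ℂ → ℂ} (hΦ : ∀ z : ℂ, z.re ∈ Icc x0 x1 → z.im ∈ Icc y1 y2 → DifferentiableAt ℂ Φ z)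
    {s0 : ℂ} (h1 : s0.re ∈ Ioo (1 / 2) x1) (h2 : s0.im ∈ Ioo y1 y2) :
    rect x0 x1 y1 y2 (fun z => Φ z * (riemannZeta z)⁻¹ * (z - s0)⁻¹) =
      2 * Real.pi * I * (Φ s0 * (riemannZeta s0)⁻¹ +
        ∑ γ ∈ ZF y1 y2, Φ (1 / 2 + (γ : ℂ) * I) * (1 / 2 + (γ : ℂ) * I - s0)⁻¹ * aa γ) := by
  classical
  have hinj : Function.Injective (fun γ : ℝ => (1 / 2 : ℂ) + (γ : ℂ) * I) := by
    intro a b hab
    have := congrArg Complex.im hab
    simpa using this
  set S : Finset ℂ := (ZF y1 y2).image (fun γ : ℝ => (1 / 2 : ℂ) + (γ : ℂ) * I) with hS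
  have hSmem : ∀ s ∈ S, ∃ γ ∈ ZF y1 y2, (1 / 2 : ℂ) + (γ : ℂ) * I = s := by
    intro s hs
    rw [hS, Finset.mem_image] at hs
    exact hs
  have hs0S : s0 ∉ S := by
    intro h
    obtain ⟨γ, _, h3⟩ := hSmem s0 h
    have := congrArg Complex.re h3
    simp at this
    have h4 := h1.1
    rw [← this] at h4
    norm_num at h4
  have hstrict : ∀ γ ∈ ZF y1 y2, y1 < γ ∧ γ < y2 := by
    intro γ hγ
    rw [mem_ZF] at hγ
    refine ⟨lt_of_le_of_ne hγ.2.1 ?_, lt_of_le_of_ne hγ.2.2 ?_⟩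
    · intro h; rw [← h] at hγ; exact hy1z hγ.1
    · intro h; rw [h] at hγ; exact hy2z hγ.1
  have him0 : 0 < s0.im := by have := h2.1; linarith
  have hζ0 : riemannZeta s0 ≠ 0 := by
    intro h0
    have := re_half hRH h0 him0
    linarith [h1.1]
  have hs01 : s0 ≠ 1 := by
    intro h
    rw [h] at him0
    simp at him0
  set r : ℂ → ℂ := fun s => if s = s0 then Φ s0 * (riemannZeta s0)⁻¹ else
    Φ s * (s - s0)⁻¹ * (deriv riemannZeta s)⁻¹ with hr
  have key := rect_simple (g := fun z => Φ z * (riemannZeta z)⁻¹ * (z - s0)⁻¹) (x₀ := x0) (x₁ := x1)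
    (y₀ := y1) (y₁ := y2) (by linarith) hy (insert s0 S) r (by
      intro s hs
      rw [Finset.mem_insert] at hs
      rcases hs with rfl | hs
      · exact ⟨⟨by linarith [h1.1], h1.2⟩, h2⟩
      obtain ⟨γ, hγ, rfl⟩ := hSmem s hs
      have := hstrict γ hγ
      refine ⟨?_, ?_⟩
      · have : ((1 / 2 : ℂ) + (γ : ℂ) * I).re = 1 / 2 := by simp
        rw [this]; exact ⟨hx0, hx1⟩
      · have h2 : ((1 / 2 : ℂ) + (γ : ℂ) * I).im = γ := by simp
        rw [h2]; exact this) (by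
      intro z h1 h2 hz
      rw [Finset.mem_insert, not_or] at hz
      have him : 0 < z.im := by have := h2.1; linarith
      have hζ : riemannZeta z ≠ 0 := by
        intro h0
        apply hz.2
        rw [hS, Finset.mem_image]
        refine ⟨z.im, ?_, (eq_half (re_half hRH h0 him)).symm⟩
        rw [mem_ZF]
        exact ⟨mem_Zo hRH h0 him, h2.1, h2.2⟩
      have hz1 : z ≠ 1 := by
        intro h
        rw [h] at him
        simp at him
      exact ((hΦ z h1 h2).mul ((differentiableAt_riemannZeta hz1).inv hζ)).mul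
        (inv_sub_diff (sub_ne_zero.2 hz.1))) (by
      intro s hs
      rw [Finset.mem_insert] at hs
      rcases hs with rfl | hs
      · simp only [hr, if_true]
        apply lim_simple (k := fun z => Φ z * (riemannZeta z)⁻¹)
        · exact (hΦ s ⟨by linarith [h1.1], h1.2.le⟩ ⟨h2.1.le, h2.2.le⟩).mul
            ((differentiableAt_riemannZeta hs01).inv hζ0)
        · exact Eventually.of_forall fun z => rfl
      obtain ⟨γ, hγ, rfl⟩ := hSmem s hs
      have hγ' := mem_ZF.1 hγ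
      have hne : (1 / 2 : ℂ) + (γ : ℂ) * I ≠ s0 := fun h => hs0S (h ▸ hs)
      simp only [hr, if_neg hne]
      have := lim_zero (Ψ := fun z => Φ z * (z - s0)⁻¹) (ρ := (1 / 2 : ℂ) + (γ : ℂ) * I)
        (by simp; linarith [hγ'.2.1]) hγ'.1 (hsim γ hγ'.1 hγ'.2.1 hγ'.2.2) (by
          apply DifferentiableAt.mul
          · apply hΦ
            · simp only [add_re, mul_re, ofReal_re, I_re, mul_zero, ofReal_im, I_im, mul_one,
                sub_self, add_zero]
              constructor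
              · norm_num; linarith
              · norm_num; linarith
            · simp; exact ⟨hγ'.2.1, hγ'.2.2⟩
          · exact inv_sub_diff (sub_ne_zero.2 hne))
      obtain ⟨L, hL⟩ := this
      refine ⟨L, hL.congr fun z => ?_⟩
      ring)
  rw [key, Finset.sum_insert hs0S]
  congr 1
  congr 1
  · simp [hr]
  · rw [hS, Finset.sum_image (fun a _ b _ hab => hinj hab)]
    apply Finset.sum_congr rfl
    intro γ hγ
    have hne : (1 / 2 : ℂ) + (γ : ℂ) * I ≠ s0 := by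
      intro h
      apply hs0S
      rw [← h, hS]
      exact Finset.mem_image_of_mem _ hγ
    simp only [hr, if_neg hne]
    rfl

end Pool.Agent.N806.AH
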